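import Pool.Agent.Helper28.HPV.ChainBase

/-! T9 ChainA: symmetry of the excursion weights (helper97). -/

open MeasureTheory ProbabilityTheory Set Filter Topology
open scoped ENNReal NNReal Real

namespace HPV

variable {V : Type*} [MeasurableSpace V] [MeasurableSingletonClass V] [DecidableEq V]

/-- `H^K_{x'}(y)`: probability that the walk from `y` hits `K` and does it for the first time
at `x'` -/
noncomputable def RW.H (W : RW V) (K : Finset V) (x' y : V) : ℝ :=
  (W.P y).real {p | ∃ n, p n = x' ∧ ∀ m < n, p m ∉ K}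

/-- weight of the excursions outside `K` from `x` to `x'` -/
noncomputable def RW.C (W : RW V) (K : Finset V) (x x' : V) : ℝ :=
  ∑ y ∈ W.nb x \ K, W.H K x' y

omit [MeasurableSpace V] [MeasurableSingletonClass V] [DecidableEq V] in
theorem hit_eq_iUnion (K : Finset V) (x' : V) :
    {p : ℕ → V | ∃ n, p n = x' ∧ ∀ m < n, p m ∉ K} = ⋃ n, Ev K x' n := by
  ext p; simp [Ev]

omit [MeasurableSpace V] [MeasurableSingletonClass V] [DecidableEq V] in
theorem disjoint_Ev {K : Finset V} {x' : V} (hx' : x' ∈ K) :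
    Pairwise (Function.onFun Disjoint (Ev K x')) := by
  have key : ∀ m n : ℕ, m < n → Disjoint (Ev K x' m) (Ev K x' n) := by
    intro m n hmn
    rw [Set.disjoint_left]
    intro p hp hq
    exact hq.2 m hmn (hp.1 ▸ hx')
  intro m n hmn
  rcases lt_or_gt_of_ne hmn with h | h
  · exact key m n h
  · exact (key n m h).symm

omit [DecidableEq V] in
theorem RW.hit_tsum (W : RW V) {K : Finset V} {x' : V} (hx' : x' ∈ K) (y : V) :
    W.P y {p | ∃ n, p n = x' ∧ ∀ m < n, p m ∉ K} = ∑' n, W.P y (Ev K x' n) := by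
  rw [hit_eq_iUnion, measure_iUnion (disjoint_Ev hx') fun n => measurableSet_Ev K x' n]

theorem RW.ofReal_H (W : RW V) (K : Finset V) (x' y : V) :
    ENNReal.ofReal (W.H K x' y) = W.P y {p | ∃ n, p n = x' ∧ ∀ m < n, p m ∉ K} := by
  have := W.prob y
  exact ofReal_measureReal

theorem RW.H_nonneg (W : RW V) (K : Finset V) (x' y : V) : 0 ≤ W.H K x' y := measureReal_nonneg

theorem RW.C_nonneg (W : RW V) (K : Finset V) (x x' : V) : 0 ≤ W.C K x x' :=
  Finset.sum_nonneg fun y _ => W.H_nonneg K x' y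

/-- weighted inner product of the first visit functions -/
noncomputable def RW.ip (W : RW V) (K : Finset V) (x x' : V) (m n : ℕ) : ℝ≥0∞ :=
  ∑' y, if y ∈ K then 0 else
    ((W.nb y).card : ℝ≥0∞) * W.P y (Ev K x (m + 1)) * W.P y (Ev K x' (n + 1))

/-- the symmetric double sum -/
noncomputable def RW.dsum (W : RW V) (K : Finset V) (x x' : V) (m n : ℕ) : ℝ≥0∞ :=
  ∑' y, ∑' z, if y ∉ K ∧ z ∉ K ∧ z ∈ W.nb y then
    W.P y (Ev K x (m + 1)) * W.P z (Ev K x' (n + 1)) else 0

theorem RW.ip_symm (W : RW V) (K : Finset V) (x x' : V) (m n : ℕ) :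
    W.ip K x x' m n = W.ip K x' x n m := by
  unfold RW.ip
  refine tsum_congr fun y => ?_
  split_ifs
  · rfl
  · ring

theorem RW.dsum_symm (W : RW V) (K : Finset V) (x x' : V) (m n : ℕ) :
    W.dsum K x x' m n = W.dsum K x' x n m := by
  unfold RW.dsum
  rw [ENNReal.tsum_comm]
  refine tsum_congr fun y => tsum_congr fun z => ?_
  have hiff : (z ∉ K ∧ y ∉ K ∧ y ∈ W.nb z) ↔ (y ∉ K ∧ z ∉ K ∧ z ∈ W.nb y) := by
    constructor
    · rintro ⟨h1, h2, h3⟩; exact ⟨h2, h1, W.symm h3⟩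
    · rintro ⟨h1, h2, h3⟩; exact ⟨h2, h1, W.symm h3⟩
  by_cases h : y ∉ K ∧ z ∉ K ∧ z ∈ W.nb y
  · rw [if_pos h, if_pos (hiff.2 h), mul_comm]
  · rw [if_neg h, if_neg (fun h' => h (hiff.1 h'))]

theorem RW.ip_succ (W : RW V) (K : Finset V) (x x' : V) (m n : ℕ) :
    W.ip K x x' m (n + 1) = W.dsum K x x' m n := by
  unfold RW.ip RW.dsum
  refine tsum_congr fun y => ?_
  by_cases hy : y ∈ K
  · rw [if_pos hy]
    symm
    rw [ENNReal.tsum_eq_zero]
    intro z
    rw [if_neg]
    exact fun h => h.1 hy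
  rw [if_neg hy]
  by_cases hne : (W.nb y).Nonempty
  · have h1 : ((W.nb y).card : ℝ≥0∞) * W.P y (Ev K x (m + 1)) * W.P y (Ev K x' (n + 1 + 1)) =
        W.P y (Ev K x (m + 1)) * ∑ z ∈ W.nb y, W.P z (Ev K x' (n + 1)) := by
      rw [← W.P_Ev_succ x' (n + 1) hy hne]; ring
    rw [h1, tsum_eq_sum (s := W.nb y), Finset.mul_sum]
    · refine Finset.sum_congr rfl fun z hz => ?_
      by_cases hz' : z ∈ K
      · rw [W.P_Ev_succ_of_mem x' n hz', mul_zero, if_neg fun h => h.2.1 hz']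
      · rw [if_pos ⟨hy, hz', hz⟩]
    · intro z hz
      rw [if_neg fun h => hz h.2.2]
  · rw [Finset.not_nonempty_iff_eq_empty] at hne
    rw [hne]
    simp

theorem RW.succ_ip (W : RW V) (K : Finset V) (x x' : V) (m n : ℕ) :
    W.ip K x x' (m + 1) n = W.dsum K x x' m n := by
  rw [W.ip_symm, W.ip_succ, W.dsum_symm]

theorem RW.ip_shift (W : RW V) (K : Finset V) (x x' : V) (n : ℕ) :
    ∀ m, W.ip K x x' m n = W.ip K x x' 0 (m + n) := by
  intro m
  induction m generalizing n with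
  | zero => simp
  | succ m ih =>
    rw [W.succ_ip, ← W.ip_succ, ih (n + 1)]
    congr 1
    omega

theorem RW.ip_zero_symm (W : RW V) (K : Finset V) (x x' : V) (n : ℕ) :
    W.ip K x x' 0 n = W.ip K x' x 0 n := by
  rw [W.ip_symm, W.ip_shift]
  simp

theorem RW.ip_zero (W : RW V) {K : Finset V} {x : V} (hx : x ∈ K) (x' : V) (n : ℕ) :
    W.ip K x x' 0 n = ∑ y ∈ W.nb x \ K, W.P y (Ev K x' (n + 1)) := by
  unfold RW.ip
  rw [tsum_eq_sum (s := W.nb x \ K)]
  · refine Finset.sum_congr rfl fun y hy => ?_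
    rw [Finset.mem_sdiff] at hy
    have hne : (W.nb y).Nonempty := W.nonempty_of_mem hy.1
    rw [if_neg hy.2, W.P_Ev_succ x 0 hy.2 hne]
    have : ∑ z ∈ W.nb y, W.P z (Ev K x 0) = 1 := by
      have h1 : ∀ z ∈ W.nb y, W.P z (Ev K x 0) = if z = x then 1 else 0 :=
        fun z _ => W.P_Ev_zero K x z
      rw [Finset.sum_congr rfl h1, Finset.sum_ite_eq', if_pos (W.symm hy.1)]
    rw [this, one_mul]
  · intro y hy
    by_cases hyK : y ∈ K
    · rw [if_pos hyK]
    rw [if_neg hyK]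
    have hyx : y ∉ W.nb x := fun h => hy (Finset.mem_sdiff.2 ⟨h, hyK⟩)
    by_cases hne : (W.nb y).Nonempty
    · rw [W.P_Ev_succ x 0 hyK hne]
      have : ∑ z ∈ W.nb y, W.P z (Ev K x 0) = 0 := by
        refine Finset.sum_eq_zero fun z hz => ?_
        rw [W.P_Ev_zero, if_neg]
        rintro rfl
        exact hyx (W.symm hz)
      rw [this, zero_mul]
    · rw [Finset.not_nonempty_iff_eq_empty] at hne
      rw [hne]; simp

theorem RW.C_eq_ip (W : RW V) {K : Finset V} {x x' : V} (hx : x ∈ K) (hx' : x' ∈ K) :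
    ENNReal.ofReal (W.C K x x') = ∑' n, W.ip K x x' 0 n := by
  unfold RW.C
  rw [ENNReal.ofReal_sum_of_nonneg fun y _ => W.H_nonneg K x' y]
  have h1 : ∀ y ∈ W.nb x \ K, ENNReal.ofReal (W.H K x' y) = ∑' n, W.P y (Ev K x' (n + 1)) := by
    intro y hy
    rw [Finset.mem_sdiff] at hy
    rw [W.ofReal_H, W.hit_tsum hx', tsum_eq_zero_add' ENNReal.summable, W.P_Ev_zero, if_neg,
      zero_add]
    rintro rfl
    exact hy.2 hx'
  rw [Finset.sum_congr rfl h1, ← Summable.tsum_finsetSum fun _ _ => ENNReal.summable]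
  refine tsum_congr fun n => ?_
  rw [W.ip_zero hx]

/-- (C1) symmetry of the excursion weights -/
theorem RW.C_symm (W : RW V) (K : Finset V) {x x' : V} (hx : x ∈ K) (hx' : x' ∈ K) :
    W.C K x x' = W.C K x' x := by
  have h : ENNReal.ofReal (W.C K x x') = ENNReal.ofReal (W.C K x' x) := by
    rw [W.C_eq_ip hx hx', W.C_eq_ip hx' hx]
    exact tsum_congr fun n => W.ip_zero_symm K x x' n
  exact (ENNReal.ofReal_eq_ofReal_iff (W.C_nonneg K x x') (W.C_nonneg K x' x)).1 h

/-- the first visit points are disjoint events -/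
theorem RW.H_sum_le (W : RW V) (K : Finset V) (y : V) : ∑ x' ∈ K, W.H K x' y ≤ 1 := by
  have := W.prob y
  unfold RW.H
  rw [← measureReal_biUnion_finset]
  · exact measureReal_le_one
  · intro a ha b hb hab
    rw [Function.onFun, Set.disjoint_left]
    rintro p ⟨n, hn1, hn2⟩ ⟨m, hm1, hm2⟩
    rcases lt_trichotomy n m with h | h | h
    · exact hm2 n h (hn1 ▸ ha)
    · subst h; exact hab (hn1.symm.trans hm1)
    · exact hn2 m h (hm1 ▸ hb)
  · intro a _
    rw [hit_eq_iUnion]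
    exact MeasurableSet.iUnion fun n => measurableSet_Ev K a n

/-- (C2) -/
theorem RW.C_sum_le (W : RW V) (K : Finset V) (x : V) :
    ∑ x' ∈ K, W.C K x x' ≤ ((W.nb x \ K).card : ℝ) := by
  unfold RW.C
  rw [Finset.sum_comm]
  calc ∑ y ∈ W.nb x \ K, ∑ x' ∈ K, W.H K x' y ≤ ∑ _y ∈ W.nb x \ K, (1 : ℝ) :=
        Finset.sum_le_sum fun y _ => W.H_sum_le K y
    _ = _ := by simp

/-- (C7') the exterior of `K` determines `C` -/
theorem RW.C_congr (W W' : RW V) {K : Finset V} (hout : ∀ z ∉ K, W'.nb z = W.nb z)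
    (x x' : V) (hx : x ∈ K) (hx' : x' ∈ K) : W'.C K x x' = W.C K x x' := by
  have hnb : W'.nb x \ K = W.nb x \ K := by
    ext y
    rw [Finset.mem_sdiff, Finset.mem_sdiff]
    refine and_congr_left fun hy => ⟨fun h => W.symm ?_, fun h => W'.symm ?_⟩
    · rw [← hout y hy]; exact W'.symm h
    · rw [hout y hy]; exact W.symm h
  have h : ENNReal.ofReal (W'.C K x x') = ENNReal.ofReal (W.C K x x') := by
    rw [W'.C_eq_ip hx hx', W.C_eq_ip hx hx']
    refine tsum_congr fun n => ?_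
    rw [W'.ip_zero hx, W.ip_zero hx, hnb]
    refine Finset.sum_congr rfl fun y hy => ?_
    rw [Finset.mem_sdiff] at hy
    exact W.P_Ev_congr W' hout x' (n + 1) y (Or.inr (W.nonempty_of_mem hy.1))
  exact (ENNReal.ofReal_eq_ofReal_iff (W'.C_nonneg K x x') (W.C_nonneg K x x')).1 h

/-- (C8') an isolated vertex may be added to `K` -/
theorem RW.C_isolated (W : RW V) {K : Finset V} {p : V} (hp : W.nb p = ∅)
    {x x' : V} (hx : (W.nb x).Nonempty) (hx' : x' ≠ p) :
    W.C (insert p K) x x' = W.C K x x' := by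
  have hpx : p ∉ W.nb x := by
    intro h
    have := W.symm h
    rw [hp] at this
    simp at this
  have hnb : W.nb x \ insert p K = W.nb x \ K := by
    ext y
    rw [Finset.mem_sdiff, Finset.mem_sdiff, Finset.mem_insert]
    refine and_congr_right fun hy => ?_
    have : y ≠ p := fun h => hpx (h ▸ hy)
    tauto
  unfold RW.C
  rw [hnb]
  refine Finset.sum_congr rfl fun y hy => ?_
  rw [Finset.mem_sdiff] at hy
  unfold RW.H
  refine measureReal_congr ?_
  filter_upwards [W.ae_ne_isolated hp (W.nonempty_of_mem hy.1)] with q hq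
  refine propext ⟨?_, ?_⟩
  · rintro ⟨n, h1, h2⟩
    exact ⟨n, h1, fun m hm h => h2 m hm (Finset.mem_insert_of_mem h)⟩
  · rintro ⟨n, h1, h2⟩
    refine ⟨n, h1, fun m hm h => ?_⟩
    rcases Finset.mem_insert.1 h with h | h
    · exact hq m h
    · exact h2 m hm h

end HPV
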