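import Pool.Agent.Helper28.HPV.ChainBase
import Pool.Agent.Helper28.HPV.ChainA

/-! T10 ChainB: first visit decompositions, locality and the zero-one law (helper97). -/

open MeasureTheory ProbabilityTheory Set Filter Topology
open scoped ENNReal NNReal Real

namespace HPV

variable {V : Type*} [MeasurableSpace V] [MeasurableSingletonClass V] [DecidableEq V]

theorem RW.hK_nonneg (W : RW V) (K : Finset V) (A : Set (ℕ → V)) (x : V) :
    0 ≤ W.hK K A x := measureReal_nonneg

theorem RW.hK_le_one (W : RW V) (K : Finset V) (A : Set (ℕ → V)) (x : V) :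
    W.hK K A x ≤ 1 := by
  have := W.prob x
  exact measureReal_le_one

omit [MeasurableSingletonClass V] [DecidableEq V] in
theorem RW.P_avoid_mem (W : RW V) {K : Finset V} {x : V} (hx : x ∈ K) (A : Set (ℕ → V)) :
    W.P x (A ∩ avoid K) = 0 :=
  W.P_start_ne fun p hp hp0 => hp.2 0 (hp0 ▸ hx)

theorem RW.hK_of_mem (W : RW V) {K : Finset V} {x : V} (hx : x ∈ K) (A : Set (ℕ → V)) :
    W.hK K A x = 0 := by
  unfold RW.hK
  rw [measureReal_def, W.P_avoid_mem hx, ENNReal.toReal_zero]

/-- (C3) `h = h^∅` -/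
theorem RW.hK_empty (W : RW V) (A : Set (ℕ → V)) (x : V) : W.hK ∅ A x = W.h A x := by
  have : (avoid (∅ : Finset V) : Set (ℕ → V)) = univ := by
    ext p; simp [avoid]
  unfold RW.hK RW.h
  rw [this, inter_univ]

omit [MeasurableSpace V] [MeasurableSingletonClass V] [DecidableEq V] in
theorem pcons_mem_avoid {K : Finset V} {x : V} {p : ℕ → V} :
    pcons x p ∈ avoid K ↔ x ∉ K ∧ p ∈ avoid K := by
  constructor
  · intro h
    exact ⟨h 0, fun n => h (n + 1)⟩
  · rintro ⟨h0, h⟩ n
    cases n with
    | zero => exact h0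
    | succ n => exact h n

omit [MeasurableSingletonClass V] [DecidableEq V] in
theorem RW.ofReal_hK (W : RW V) (K : Finset V) (A : Set (ℕ → V)) (x : V) :
    ENNReal.ofReal (W.hK K A x) = W.P x (A ∩ avoid K) := by
  have := W.prob x
  exact ofReal_measureReal

/-- (C4) harmonicity off `K` -/
theorem RW.hK_harm (W : RW V) (K : Finset V) {A : Set (ℕ → V)} (hA : Inv A) {x : V}
    (hx : (W.nb x).Nonempty) (hxK : x ∉ K) :
    ((W.nb x).card : ℝ) * W.hK K A x = ∑ y ∈ W.nb x, W.hK K A y := by
  have h := W.card_mul hx (hA.1.inter (measurableSet_avoid K))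
  have h2 : ∀ y ∈ W.nb x, W.P y (pcons x ⁻¹' (A ∩ avoid K)) = W.P y (A ∩ avoid K) := by
    intro y _
    congr 1
    ext p
    rw [mem_preimage, mem_inter_iff, hA.2, pcons_mem_avoid, mem_inter_iff]
    tauto
  rw [Finset.sum_congr rfl h2] at h
  have h3 := congrArg ENNReal.toReal h
  rw [ENNReal.toReal_mul, ENNReal.toReal_natCast, ENNReal.toReal_sum] at h3
  · exact h3
  · intro y _
    have := W.prob y
    exact measure_ne_top _ _

omit [DecidableEq V] in
theorem RW.P_decomp (W : RW V) {K K' : Finset V} (hKK : K ⊆ K') {A : Set (ℕ → V)}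
    (hA : Inv A) (x' : V) (n : ℕ) : ∀ y, (W.nb y).Nonempty →
    W.P y (Ev K' x' n ∩ (A ∩ avoid K)) = W.P y (Ev K' x' n) * W.P x' (A ∩ avoid K) := by
  classical
  have hmA : MeasurableSet (A ∩ avoid K) := hA.1.inter (measurableSet_avoid K)
  induction n with
  | zero =>
    intro y hy
    rw [W.P_Ev_zero]
    split_ifs with h
    · subst h
      rw [one_mul]
      refine measure_congr ?_
      filter_upwards [W.start y] with p hp
      refine propext ⟨fun h => h.2, fun h => ⟨⟨hp, fun m hm => absurd hm (Nat.not_lt_zero _)⟩, h⟩⟩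
    · rw [zero_mul]
      refine W.P_start_ne fun p hp hp0 => h ?_
      rw [← hp0, hp.1.1]
  | succ n ih =>
    intro y hy
    by_cases hyK : y ∈ K'
    · rw [W.P_Ev_succ_of_mem x' n hyK, zero_mul]
      exact measure_mono_null inter_subset_left (W.P_Ev_succ_of_mem x' n hyK)
    · have hyK0 : y ∉ K := fun h => hyK (hKK h)
      rw [W.step_apply hy ((measurableSet_Ev K' x' (n + 1)).inter hmA),
        W.step_apply hy (measurableSet_Ev K' x' (n + 1)), mul_assoc, Finset.sum_mul]
      congr 1
      refine Finset.sum_congr rfl fun z hz => ?_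
      have e1 : pcons y ⁻¹' (Ev K' x' (n + 1) ∩ (A ∩ avoid K)) = Ev K' x' n ∩ (A ∩ avoid K) := by
        ext p
        rw [mem_preimage, mem_inter_iff, mem_inter_iff, hA.2, pcons_mem_avoid,
          pcons_mem_Ev_succ, mem_inter_iff, mem_inter_iff]
        tauto
      have e2 : pcons y ⁻¹' (Ev K' x' (n + 1)) = Ev K' x' n := by
        ext p
        rw [mem_preimage, pcons_mem_Ev_succ]
        tauto
      rw [e1, e2]
      exact ih z (W.nonempty_of_mem hz)

omit [MeasurableSpace V] [MeasurableSingletonClass V] [DecidableEq V] in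
theorem hit_eq_iUnion' (K : Finset V) (x' : V) :
    {p : ℕ → V | ∃ n, p n = x' ∧ ∀ m < n, p m ∉ K} = ⋃ n, Ev K x' n := by
  ext p; simp [Ev]

omit [MeasurableSpace V] [MeasurableSingletonClass V] [DecidableEq V] in
theorem disjoint_Ev' {K : Finset V} {x' : V} (hx' : x' ∈ K) :
    Pairwise (Function.onFun Disjoint (Ev K x')) := by
  have key : ∀ m n : ℕ, m < n → Disjoint (Ev K x' m) (Ev K x' n) := by
    intro m n hmn
    rw [Set.disjoint_left]
    intro p hp hq
    exact hq.2 m hmn (hp.1 ▸ hx')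
  intro m n hmn
  rcases lt_or_gt_of_ne hmn with h | h
  · exact key m n h
  · exact (key n m h).symm

omit [DecidableEq V] in
theorem RW.P_hit_decomp (W : RW V) {K K' : Finset V} (hKK : K ⊆ K') {A : Set (ℕ → V)}
    (hA : Inv A) {x' : V} (hx' : x' ∈ K') {y : V} (hy : (W.nb y).Nonempty) :
    W.P y ({p | ∃ n, p n = x' ∧ ∀ m < n, p m ∉ K'} ∩ (A ∩ avoid K)) =
      W.P y {p | ∃ n, p n = x' ∧ ∀ m < n, p m ∉ K'} * W.P x' (A ∩ avoid K) := by
  have hmA : MeasurableSet (A ∩ avoid K) := hA.1.inter (measurableSet_avoid K)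
  rw [hit_eq_iUnion', iUnion_inter, measure_iUnion, measure_iUnion (disjoint_Ev' hx')
    fun n => measurableSet_Ev K' x' n, ← ENNReal.tsum_mul_right]
  · exact tsum_congr fun n => W.P_decomp hKK hA x' n y hy
  · intro m n hmn
    exact (disjoint_Ev' hx' hmn).mono inter_subset_left inter_subset_left
  · exact fun n => (measurableSet_Ev K' x' n).inter hmA

/-- (C5) decomposition at the first visit of `K'` -/
theorem RW.hK_decomp (W : RW V) {K K' : Finset V} (hKK : K ⊆ K')
    (hne : ∀ x ∈ K', (W.nb x).Nonempty) {A : Set (ℕ → V)} (hA : Inv A) {y : V}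
    (hy : (W.nb y).Nonempty) (hyK : y ∉ K') :
    W.hK K A y = W.hK K' A y + ∑ x' ∈ K', W.H K' x' y * W.hK K A x' := by
  have hmA : MeasurableSet (A ∩ avoid K) := hA.1.inter (measurableSet_avoid K)
  have := W.prob y
  have hmE : ∀ x' ∈ K', MeasurableSet {p : ℕ → V | ∃ n, p n = x' ∧ ∀ m < n, p m ∉ K'} := by
    intro x' _
    rw [hit_eq_iUnion']
    exact MeasurableSet.iUnion fun n => measurableSet_Ev K' x' n
  have hset : A ∩ avoid K = (A ∩ avoid K') ∪
      ⋃ x' ∈ K', {p : ℕ → V | ∃ n, p n = x' ∧ ∀ m < n, p m ∉ K'} ∩ (A ∩ avoid K) := by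
    ext p
    constructor
    · intro hp
      by_cases h : ∀ n, p n ∉ K'
      · exact Or.inl ⟨hp.1, h⟩
      · right
        push Not at h
        have hn := Nat.find_spec h
        refine mem_iUnion₂.2 ⟨p (Nat.find h), hn, ⟨Nat.find h, rfl, fun m hm => ?_⟩, hp⟩
        exact Nat.find_min h hm
    · rintro (h | h)
      · exact ⟨h.1, fun n hn => h.2 n (hKK hn)⟩
      · obtain ⟨x', _, hx'⟩ := mem_iUnion₂.1 h
        exact hx'.2
  have hdisj : Disjoint (A ∩ avoid K') (⋃ x' ∈ K',
      {p : ℕ → V | ∃ n, p n = x' ∧ ∀ m < n, p m ∉ K'} ∩ (A ∩ avoid K)) := by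
    rw [Set.disjoint_left]
    intro p hp h
    obtain ⟨x', hx'K, ⟨n, hn, _⟩, _⟩ := mem_iUnion₂.1 h
    exact hp.2 n (hn ▸ hx'K)
  have hm2 : MeasurableSet (⋃ x' ∈ K',
      {p : ℕ → V | ∃ n, p n = x' ∧ ∀ m < n, p m ∉ K'} ∩ (A ∩ avoid K)) :=
    Finset.measurableSet_biUnion _ fun x' hx' => (hmE x' hx').inter hmA
  calc W.hK K A y = (W.P y).real (A ∩ avoid K) := rfl
    _ = (W.P y).real (A ∩ avoid K') + (W.P y).real (⋃ x' ∈ K',
      {p : ℕ → V | ∃ n, p n = x' ∧ ∀ m < n, p m ∉ K'} ∩ (A ∩ avoid K)) := by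
        conv_lhs => rw [hset]
        exact measureReal_union hdisj hm2 (measure_ne_top _ _) (measure_ne_top _ _)
    _ = W.hK K' A y + ∑ x' ∈ K', W.H K' x' y * W.hK K A x' := by
        congr 1
        rw [measureReal_biUnion_finset]
        · refine Finset.sum_congr rfl fun x' hx' => ?_
          rw [measureReal_def, W.P_hit_decomp hKK hA hx' hy, ENNReal.toReal_mul]
          rfl
        · intro a ha b hb hab
          rw [Function.onFun, Set.disjoint_left]
          rintro p ⟨⟨n, hn1, hn2⟩, _⟩ ⟨⟨m, hm1, hm2⟩, _⟩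
          rcases lt_trichotomy n m with h | h | h
          · exact hm2 n h (hn1 ▸ ha)
          · subst h; exact hab (hn1.symm.trans hm1)
          · exact hn2 m h (hm1 ▸ hb)
        · intro x' hx'
          exact (hmE x' hx').inter hmA

/-- (C6) consequence of (C4), (C5): equation at `x ∈ K'` -/
theorem RW.e_eq (W : RW V) {K K' : Finset V} (hKK : K ⊆ K')
    (hne : ∀ x ∈ K', (W.nb x).Nonempty) {A : Set (ℕ → V)} (hA : Inv A) {x : V} (hx : x ∈ K') :
    W.e K A x = ∑ y ∈ W.nb x ∩ K', W.hK K A y + ∑ x' ∈ K', W.C K' x x' * W.hK K A x'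
      + W.e K' A x := by
  have h1 : W.e K A x = ∑ y ∈ W.nb x ∩ K', W.hK K A y + ∑ y ∈ W.nb x \ K', W.hK K A y :=
    (Finset.sum_inter_add_sum_sdiff (W.nb x) K' (W.hK K A)).symm
  have h2 : ∑ y ∈ W.nb x \ K', W.hK K A y = ∑ y ∈ W.nb x \ K', W.hK K' A y +
      ∑ x' ∈ K', W.C K' x x' * W.hK K A x' := by
    have h3 : ∀ y ∈ W.nb x \ K', W.hK K A y =
        W.hK K' A y + ∑ x' ∈ K', W.H K' x' y * W.hK K A x' := by
      intro y hy
      rw [Finset.mem_sdiff] at hy
      exact W.hK_decomp hKK hne hA (W.nonempty_of_mem hy.1) hy.2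
    rw [Finset.sum_congr rfl h3, Finset.sum_add_distrib, Finset.sum_comm]
    congr 1
    refine Finset.sum_congr rfl fun x' _ => ?_
    rw [RW.C, Finset.sum_mul]
  have h4 : W.e K' A x = ∑ y ∈ W.nb x \ K', W.hK K' A y := by
    have h5 := (Finset.sum_inter_add_sum_sdiff (W.nb x) K' (W.hK K' A)).symm
    have h6 : ∑ y ∈ W.nb x ∩ K', W.hK K' A y = 0 :=
      Finset.sum_eq_zero fun y hy => W.hK_of_mem (Finset.mem_inter.1 hy).2 A
    rw [h6, zero_add] at h5
    exact h5
  rw [h1, h2, h4]
  ring

/-- cylinder sets -/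
def Cyl (n : ℕ) (B : ℕ → Set V) : Set (ℕ → V) := {p | ∀ i < n, p i ∈ B i}

/-- the pi-system of cylinders -/
def cylPi (V : Type*) [MeasurableSpace V] : Set (Set (ℕ → V)) :=
  {E | ∃ (n : ℕ) (B : ℕ → Set V), (∀ i, MeasurableSet (B i)) ∧ E = Cyl n B}

omit [MeasurableSingletonClass V] [DecidableEq V] in
theorem measurableSet_Cyl (n : ℕ) {B : ℕ → Set V} (hB : ∀ i, MeasurableSet (B i)) :
    MeasurableSet (Cyl n B) := by
  have : Cyl n B = ⋂ i ∈ Finset.range n, (fun p : ℕ → V => p i) ⁻¹' (B i) := by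
    ext p; simp [Cyl]
  rw [this]
  exact Finset.measurableSet_biInter _ fun i _ => (measurable_pi_apply i) (hB i)

omit [MeasurableSingletonClass V] [DecidableEq V] in
theorem isPiSystem_cylPi : IsPiSystem (cylPi V) := by
  rintro _ ⟨n, B, hB, rfl⟩ _ ⟨m, B', hB', rfl⟩ _
  refine ⟨max n m, fun i => {v | (i < n → v ∈ B i) ∧ (i < m → v ∈ B' i)}, fun i => ?_, ?_⟩
  · change MeasurableSet {v | (i < n → v ∈ B i) ∧ (i < m → v ∈ B' i)}
    by_cases h1 : i < n <;> by_cases h2 : i < m
    · have : {v | (i < n → v ∈ B i) ∧ (i < m → v ∈ B' i)} = B i ∩ B' i := by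
        ext v; simp [h1, h2]
      rw [this]; exact (hB i).inter (hB' i)
    · have : {v | (i < n → v ∈ B i) ∧ (i < m → v ∈ B' i)} = B i := by
        ext v; simp [h1, h2]
      rw [this]; exact hB i
    · have : {v | (i < n → v ∈ B i) ∧ (i < m → v ∈ B' i)} = B' i := by
        ext v; simp [h1, h2]
      rw [this]; exact hB' i
    · have : {v : V | (i < n → v ∈ B i) ∧ (i < m → v ∈ B' i)} = univ := by
        ext v; simp [h1, h2]
      rw [this]; exact MeasurableSet.univ
  · ext p
    simp only [Cyl, mem_inter_iff, mem_ofPred_eq]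
    constructor
    · rintro ⟨h1, h2⟩ i _
      exact ⟨h1 i, h2 i⟩
    · intro h
      exact ⟨fun i hi => (h i (lt_max_of_lt_left hi)).1 hi,
        fun i hi => (h i (lt_max_of_lt_right hi)).2 hi⟩

omit [MeasurableSingletonClass V] [DecidableEq V] in
theorem generateFrom_cylPi :
    (MeasurableSpace.pi : MeasurableSpace (ℕ → V)) = MeasurableSpace.generateFrom (cylPi V) := by
  refine le_antisymm ?_ ?_
  · refine iSup_le fun i => ?_
    rintro _ ⟨S, hS, rfl⟩
    refine MeasurableSpace.measurableSet_generateFrom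
      ⟨i + 1, fun j => if j = i then S else univ, fun j => ?_, ?_⟩
    · change MeasurableSet (if j = i then S else univ)
      split_ifs
      · exact hS
      · exact MeasurableSet.univ
    · ext p
      simp only [Cyl, mem_preimage, mem_ofPred_eq]
      constructor
      · intro h j _
        split_ifs with hj
        · subst hj; exact h
        · trivial
      · intro h
        have := h i (Nat.lt_succ_self i)
        simpa using this
  · refine MeasurableSpace.generateFrom_le ?_
    rintro _ ⟨n, B, hB, rfl⟩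
    exact measurableSet_Cyl n hB

omit [MeasurableSpace V] [MeasurableSingletonClass V] [DecidableEq V] in
theorem pcons_mem_Cyl_succ {n : ℕ} {B : ℕ → Set V} {x : V} {p : ℕ → V} :
    pcons x p ∈ Cyl (n + 1) B ↔ x ∈ B 0 ∧ p ∈ Cyl n (fun i => B (i + 1)) := by
  constructor
  · intro h
    exact ⟨h 0 (Nat.succ_pos _), fun i hi => h (i + 1) (by omega)⟩
  · rintro ⟨h0, h⟩ i hi
    cases i with
    | zero => exact h0
    | succ i => exact h i (by omega)

/-- paths that avoid `K` up to time `n` -/
def avoidTo (K : Finset V) (n : ℕ) : Set (ℕ → V) := {p | ∀ m < n, p m ∉ K}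

omit [DecidableEq V] in
theorem measurableSet_avoidTo (K : Finset V) (n : ℕ) : MeasurableSet (avoidTo K n) := by
  have : avoidTo K n = Cyl n fun _ => (K : Set V)ᶜ := by
    ext p; simp [avoidTo, Cyl]
  rw [this]
  exact measurableSet_Cyl n fun _ => K.measurableSet.compl

omit [DecidableEq V] in
theorem RW.P_avoidTo_congr (W W' : RW V) {K : Finset V}
    (hout : ∀ z ∉ K, W'.nb z = W.nb z) (n : ℕ) :
    ∀ y, (y ∈ K ∨ (W.nb y).Nonempty) → W'.P y (avoidTo K n) = W.P y (avoidTo K n) := by
  induction n with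
  | zero =>
    intro y _
    have : (avoidTo K 0 : Set (ℕ → V)) = univ := by
      ext p; simp [avoidTo]
    have h1 := W.prob y
    have h2 := W'.prob y
    rw [this, measure_univ, measure_univ]
  | succ n ih =>
    intro y hy
    by_cases hyK : y ∈ K
    · rw [W.P_start_ne, W'.P_start_ne]
      · exact fun p hp hp0 => hp 0 (Nat.succ_pos _) (hp0 ▸ hyK)
      · exact fun p hp hp0 => hp 0 (Nat.succ_pos _) (hp0 ▸ hyK)
    · have hne : (W.nb y).Nonempty := hy.resolve_left hyK
      have hne' : (W'.nb y).Nonempty := by rwa [hout y hyK]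
      rw [W.step_apply hne (measurableSet_avoidTo K (n + 1)),
        W'.step_apply hne' (measurableSet_avoidTo K (n + 1)), hout y hyK]
      congr 1
      refine Finset.sum_congr rfl fun z hz => ?_
      have e1 : pcons y ⁻¹' (avoidTo K (n + 1)) = avoidTo K n := by
        ext p
        constructor
        · intro h m hm
          exact h (m + 1) (by omega)
        · intro h m hm
          cases m with
          | zero => exact hyK
          | succ m => exact h m (by omega)
      rw [e1]
      exact ih z (Or.inr (W.nonempty_of_mem hz))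

omit [DecidableEq V] in
theorem RW.P_avoid_congr (W W' : RW V) {K : Finset V}
    (hout : ∀ z ∉ K, W'.nb z = W.nb z) {y : V} (hy : y ∈ K ∨ (W.nb y).Nonempty) :
    W'.P y (avoid K) = W.P y (avoid K) := by
  have hI : (avoid K : Set (ℕ → V)) = ⋂ n, avoidTo K n := by
    ext p
    simp only [avoid, avoidTo, mem_iInter, mem_ofPred_eq]
    exact ⟨fun h n m _ => h m, fun h n => h (n + 1) n (Nat.lt_succ_self n)⟩
  have hanti : Antitone (avoidTo K : ℕ → Set (ℕ → V)) := by
    intro m n hmn p hp k hk
    exact hp k (lt_of_lt_of_le hk hmn)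
  have h1 := W.prob y
  have h2 := W'.prob y
  have t1 := tendsto_measure_iInter_atTop (μ := W.P y)
    (fun n => (measurableSet_avoidTo K n).nullMeasurableSet) hanti ⟨0, measure_ne_top _ _⟩
  have t2 := tendsto_measure_iInter_atTop (μ := W'.P y)
    (fun n => (measurableSet_avoidTo K n).nullMeasurableSet) hanti ⟨0, measure_ne_top _ _⟩
  rw [← hI] at t1 t2
  have h3 : (fun n => W'.P y (avoidTo K n)) = fun n => W.P y (avoidTo K n) :=
    funext fun n => W.P_avoidTo_congr W' hout n y hy
  have t3 : Tendsto (fun n => W'.P y (avoidTo K n)) atTop (𝓝 (W.P y (avoid K))) := by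
    rw [h3]; exact t1
  exact tendsto_nhds_unique t2 t3

omit [DecidableEq V] in
theorem RW.P_Cyl_avoid_congr (W W' : RW V) {K : Finset V}
    (hout : ∀ z ∉ K, W'.nb z = W.nb z) (n : ℕ) :
    ∀ (B : ℕ → Set V), (∀ i, MeasurableSet (B i)) → ∀ y, (y ∈ K ∨ (W.nb y).Nonempty) →
      W'.P y (Cyl n B ∩ avoid K) = W.P y (Cyl n B ∩ avoid K) := by
  induction n with
  | zero =>
    intro B _ y hy
    have : Cyl 0 B ∩ avoid K = avoid K := by
      ext p; simp [Cyl]
    rw [this]
    exact W.P_avoid_congr W' hout hy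
  | succ n ih =>
    intro B hB y hy
    by_cases hyK : y ∈ K
    · rw [W.P_avoid_mem hyK, W'.P_avoid_mem hyK]
    · have hne : (W.nb y).Nonempty := hy.resolve_left hyK
      have hne' : (W'.nb y).Nonempty := by rwa [hout y hyK]
      have hm : MeasurableSet (Cyl (n + 1) B ∩ avoid K) :=
        (measurableSet_Cyl _ hB).inter (measurableSet_avoid K)
      rw [W.step_apply hne hm, W'.step_apply hne' hm, hout y hyK]
      congr 1
      refine Finset.sum_congr rfl fun z hz => ?_
      by_cases hy0 : y ∈ B 0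
      · have e1 : pcons y ⁻¹' (Cyl (n + 1) B ∩ avoid K) =
            Cyl n (fun i => B (i + 1)) ∩ avoid K := by
          ext p
          rw [mem_preimage, mem_inter_iff, pcons_mem_Cyl_succ, pcons_mem_avoid, mem_inter_iff]
          tauto
        rw [e1]
        exact ih _ (fun i => hB (i + 1)) z (Or.inr (W.nonempty_of_mem hz))
      · have e1 : pcons y ⁻¹' (Cyl (n + 1) B ∩ avoid K) = ∅ := by
          ext p
          rw [mem_preimage, mem_inter_iff, pcons_mem_Cyl_succ]
          simp [hy0]
        rw [e1, measure_empty, measure_empty]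

/-- (C7) the exterior of `K` determines `h^K` -/
theorem RW.hK_congr (W W' : RW V) {K : Finset V} (hout : ∀ z ∉ K, W'.nb z = W.nb z)
    {A : Set (ℕ → V)} (hA : MeasurableSet A) {z : V} (hz : (W.nb z).Nonempty) (hzK : z ∉ K) :
    W'.hK K A z = W.hK K A z := by
  have h1 := W.prob z
  have h2 := W'.prob z
  have hmK := measurableSet_avoid K
  have key : (W'.P z).restrict (avoid K) = (W.P z).restrict (avoid K) := by
    refine ext_of_generate_finite (cylPi V) generateFrom_cylPi isPiSystem_cylPi ?_ ?_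
    · rintro _ ⟨n, B, hB, rfl⟩
      rw [Measure.restrict_apply (measurableSet_Cyl n hB),
        Measure.restrict_apply (measurableSet_Cyl n hB)]
      exact W.P_Cyl_avoid_congr W' hout n B hB z (Or.inr hz)
    · rw [Measure.restrict_apply_univ, Measure.restrict_apply_univ]
      exact W.P_avoid_congr W' hout (Or.inr hz)
  have h3 := congrArg (fun μ : Measure (ℕ → V) => μ A) key
  simp only [Measure.restrict_apply hA] at h3
  unfold RW.hK
  rw [measureReal_def, measureReal_def, h3]

/-- (C8) an isolated vertex may be added to `K` -/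
theorem RW.hK_isolated (W : RW V) {K : Finset V} {p : V} (hp : W.nb p = ∅)
    (A : Set (ℕ → V)) {y : V} (hy : (W.nb y).Nonempty) :
    W.hK (insert p K) A y = W.hK K A y := by
  unfold RW.hK
  refine measureReal_congr ?_
  filter_upwards [W.ae_ne_isolated hp hy] with q hq
  refine propext ⟨?_, ?_⟩
  · rintro ⟨h1, h2⟩
    exact ⟨h1, fun n hn => h2 n (Finset.mem_insert_of_mem hn)⟩
  · rintro ⟨h1, h2⟩
    refine ⟨h1, fun n hn => ?_⟩
    rcases Finset.mem_insert.1 hn with h | h
    · exact hq n h
    · exact h2 n h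

/-- (C9) zero-one law: if `h_A` is constant along edges then `P_x(A)` is 0 or 1 -/
theorem RW.zero_one (W : RW V) {A : Set (ℕ → V)} (hA : Inv A) {x : V} (hx : (W.nb x).Nonempty)
    (hconst : ∀ y z, z ∈ W.nb y → W.h A z = W.h A y) : W.h A x = 0 ∨ W.h A x = 1 := by
  have hc : ∀ y z, z ∈ W.nb y → W.P z A = W.P y A := by
    intro y z hz
    have h1 := W.prob y
    have h2 := W.prob z
    have h3 := hconst y z hz
    unfold RW.h at h3
    rwa [measureReal_def, measureReal_def, ENNReal.toReal_eq_toReal_iff' (measure_ne_top _ _)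
      (measure_ne_top _ _)] at h3
  have hcyl : ∀ (n : ℕ) (B : ℕ → Set V), (∀ i, MeasurableSet (B i)) → ∀ y, (W.nb y).Nonempty →
      W.P y (Cyl n B ∩ A) = W.P y A * W.P y (Cyl n B) := by
    intro n
    induction n with
    | zero =>
      intro B _ y _
      have := W.prob y
      have h0 : Cyl 0 B = univ := by
        ext p; simp [Cyl]
      rw [h0, univ_inter, measure_univ, mul_one]
    | succ n ih =>
      intro B hB y hy
      have hm : MeasurableSet (Cyl (n + 1) B) := measurableSet_Cyl _ hB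
      rw [W.step_apply hy (hm.inter hA.1), W.step_apply hy hm, mul_left_comm]
      congr 1
      rw [Finset.mul_sum]
      refine Finset.sum_congr rfl fun z hz => ?_
      by_cases hy0 : y ∈ B 0
      · have e1 : pcons y ⁻¹' (Cyl (n + 1) B ∩ A) = Cyl n (fun i => B (i + 1)) ∩ A := by
          ext p
          rw [mem_preimage, mem_inter_iff, pcons_mem_Cyl_succ, hA.2, mem_inter_iff]
          tauto
        have e2 : pcons y ⁻¹' (Cyl (n + 1) B) = Cyl n (fun i => B (i + 1)) := by
          ext p
          rw [mem_preimage, pcons_mem_Cyl_succ]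
          tauto
        rw [e1, e2, ih _ (fun i => hB (i + 1)) z (W.nonempty_of_mem hz), hc y z hz]
      · have e1 : pcons y ⁻¹' (Cyl (n + 1) B ∩ A) = ∅ := by
          ext p
          rw [mem_preimage, mem_inter_iff, pcons_mem_Cyl_succ]
          simp [hy0]
        have e2 : pcons y ⁻¹' (Cyl (n + 1) B) = ∅ := by
          ext p
          rw [mem_preimage, pcons_mem_Cyl_succ]
          simp [hy0]
        rw [e1, e2, measure_empty, mul_zero]
  have hprob := W.prob x
  have key : (W.P x).restrict A = (W.P x A) • W.P x := by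
    refine ext_of_generate_finite (cylPi V) generateFrom_cylPi isPiSystem_cylPi ?_ ?_
    · rintro _ ⟨n, B, hB, rfl⟩
      rw [Measure.restrict_apply (measurableSet_Cyl n hB), Measure.smul_apply, smul_eq_mul]
      exact hcyl n B hB x hx
    · rw [Measure.restrict_apply_univ, Measure.smul_apply, smul_eq_mul, measure_univ, mul_one]
  have h3 := congrArg (fun μ : Measure (ℕ → V) => μ A) key
  simp only [Measure.restrict_apply hA.1, inter_self, Measure.smul_apply, smul_eq_mul] at h3
  have h4 : W.h A x = W.h A x * W.h A x := by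
    have h5 := congrArg ENNReal.toReal h3
    rw [ENNReal.toReal_mul] at h5
    exact h5
  have h6 : W.h A x * (W.h A x - 1) = 0 := by
    rw [mul_sub, mul_one, ← h4, sub_self]
  rcases mul_eq_zero.1 h6 with h | h
  · exact Or.inl h
  · exact Or.inr (by linarith)

end HPV
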