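import Pool.Agent.Helper28.HPV.RW

/-! Basic lemmas on abstract walks used by ChainA and ChainB (helper97). -/

open MeasureTheory ProbabilityTheory Set Filter Topology
open scoped ENNReal NNReal Real

namespace HPV

variable {V : Type*} [MeasurableSpace V]

theorem measurable_pcons (x : V) : Measurable (pcons x : (ℕ → V) → (ℕ → V)) := by
  refine measurable_pi_lambda _ fun n => ?_
  cases n with
  | zero => exact measurable_const
  | succ n => exact measurable_pi_apply n

theorem RW.nonempty_of_mem (W : RW V) {x y : V} (h : y ∈ W.nb x) : (W.nb y).Nonempty :=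
  ⟨x, W.symm h⟩

theorem RW.step_apply (W : RW V) {x : V} (hx : (W.nb x).Nonempty) {E : Set (ℕ → V)}
    (hE : MeasurableSet E) :
    W.P x E = ((W.nb x).card : ℝ≥0∞)⁻¹ * ∑ y ∈ W.nb x, W.P y (pcons x ⁻¹' E) := by
  conv_lhs => rw [W.step x hx]
  rw [Measure.smul_apply, Measure.finsetSum_apply, smul_eq_mul]
  congr 1
  refine Finset.sum_congr rfl fun y _ => ?_
  rw [Measure.map_apply (measurable_pcons x) hE]

theorem RW.card_mul (W : RW V) {x : V} (hx : (W.nb x).Nonempty) {E : Set (ℕ → V)}
    (hE : MeasurableSet E) :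
    ((W.nb x).card : ℝ≥0∞) * W.P x E = ∑ y ∈ W.nb x, W.P y (pcons x ⁻¹' E) := by
  rw [W.step_apply hx hE, ← mul_assoc, ENNReal.mul_inv_cancel, one_mul]
  · simpa using hx.ne_empty
  · exact ENNReal.natCast_ne_top _

theorem measurableSet_avoid [MeasurableSingletonClass V] (K : Finset V) :
    MeasurableSet (avoid K : Set (ℕ → V)) := by
  have : (avoid K : Set (ℕ → V)) = ⋂ n, (fun p : ℕ → V => p n) ⁻¹' ((K : Set V)ᶜ) := by
    ext p; simp [avoid]
  rw [this]
  exact MeasurableSet.iInter fun n => (measurable_pi_apply n) K.measurableSet.compl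

/-- first visit of `K` at time `n`, at the point `x'` -/
def Ev (K : Finset V) (x' : V) (n : ℕ) : Set (ℕ → V) := {p | p n = x' ∧ ∀ m < n, p m ∉ K}

theorem measurableSet_Ev [MeasurableSingletonClass V] (K : Finset V) (x' : V) (n : ℕ) :
    MeasurableSet (Ev K x' n) := by
  have : Ev K x' n = ((fun p : ℕ → V => p n) ⁻¹' {x'}) ∩
      ⋂ m ∈ Finset.range n, (fun p : ℕ → V => p m) ⁻¹' ((K : Set V)ᶜ) := by
    ext p; simp [Ev]
  rw [this]
  exact ((measurable_pi_apply n) (measurableSet_singleton x')).inter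
    (Finset.measurableSet_biInter _ fun m _ => (measurable_pi_apply m) K.measurableSet.compl)

omit [MeasurableSpace V] in
theorem pcons_mem_Ev_succ {K : Finset V} {x' y : V} {n : ℕ} {p : ℕ → V} :
    pcons y p ∈ Ev K x' (n + 1) ↔ y ∉ K ∧ p ∈ Ev K x' n := by
  constructor
  · rintro ⟨h1, h2⟩
    refine ⟨h2 0 (Nat.succ_pos _), h1, fun m hm => ?_⟩
    exact h2 (m + 1) (by omega)
  · rintro ⟨h0, h1, h2⟩
    refine ⟨h1, fun m hm => ?_⟩
    cases m with
    | zero => exact h0
    | succ m => exact h2 m (by omega)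

theorem RW.P_start_ne (W : RW V) {y : V} {E : Set (ℕ → V)} (h : ∀ p ∈ E, p 0 ≠ y) :
    W.P y E = 0 := by
  have h1 := W.start y
  rw [ae_iff] at h1
  exact measure_mono_null (fun p hp => h p hp) h1

theorem RW.P_start_eq (W : RW V) {y : V} {E : Set (ℕ → V)} (h : ∀ p, p 0 = y → p ∈ E) :
    W.P y E = 1 := by
  have := W.prob y
  have h1 : E =ᵐ[W.P y] (univ : Set (ℕ → V)) := by
    filter_upwards [W.start y] with p hp
    exact eq_true (h p hp)
  rw [measure_congr h1, measure_univ]

/-- the event of a first visit at time zero -/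
theorem RW.P_Ev_zero [DecidableEq V] (W : RW V) (K : Finset V) (x' y : V) :
    W.P y (Ev K x' 0) = if y = x' then 1 else 0 := by
  split_ifs with h
  · refine W.P_start_eq fun p hp => ?_
    exact ⟨by rw [hp, h], fun m hm => absurd hm (Nat.not_lt_zero _)⟩
  · refine W.P_start_ne fun p hp hp0 => h ?_
    rw [← hp0, hp.1]

theorem RW.P_Ev_succ_of_mem (W : RW V) {K : Finset V} (x' : V) {y : V} (n : ℕ) (hy : y ∈ K) :
    W.P y (Ev K x' (n + 1)) = 0 := by
  refine W.P_start_ne fun p hp hp0 => ?_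
  exact hp.2 0 (Nat.succ_pos _) (hp0 ▸ hy)

theorem RW.P_Ev_succ [MeasurableSingletonClass V] (W : RW V) {K : Finset V} (x' : V) {y : V}
    (n : ℕ) (hy : y ∉ K) (hne : (W.nb y).Nonempty) :
    ((W.nb y).card : ℝ≥0∞) * W.P y (Ev K x' (n + 1)) = ∑ z ∈ W.nb y, W.P z (Ev K x' n) := by
  rw [W.card_mul hne (measurableSet_Ev K x' (n + 1))]
  refine Finset.sum_congr rfl fun z _ => ?_
  congr 1
  ext p
  rw [mem_preimage, pcons_mem_Ev_succ]
  exact and_iff_right hy

/-- two walks which agree outside `K` have the same first visit probabilities -/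
theorem RW.P_Ev_congr [MeasurableSingletonClass V] (W W' : RW V) {K : Finset V}
    (hout : ∀ z ∉ K, W'.nb z = W.nb z) (x' : V) (n : ℕ) :
    ∀ y, (y ∈ K ∨ (W.nb y).Nonempty) → W'.P y (Ev K x' n) = W.P y (Ev K x' n) := by
  classical
  induction n with
  | zero => intro y _; rw [W'.P_Ev_zero, W.P_Ev_zero]
  | succ n ih =>
    intro y hy
    by_cases hyK : y ∈ K
    · rw [W'.P_Ev_succ_of_mem x' n hyK, W.P_Ev_succ_of_mem x' n hyK]
    · have hne : (W.nb y).Nonempty := hy.resolve_left hyK
      have hne' : (W'.nb y).Nonempty := by rwa [hout y hyK]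
      have e1 := W.P_Ev_succ x' n hyK hne
      have e2 := W'.P_Ev_succ x' n hyK hne'
      have e3 : ((W.nb y).card : ℝ≥0∞) * W'.P y (Ev K x' (n + 1)) =
          ((W.nb y).card : ℝ≥0∞) * W.P y (Ev K x' (n + 1)) := by
        rw [e1, ← hout y hyK, e2, hout y hyK]
        refine Finset.sum_congr rfl fun z hz => ih z ?_
        exact Or.inr (W.nonempty_of_mem hz)
      refine (ENNReal.mul_right_inj ?_ ?_).1 e3
      · simpa using hne.ne_empty
      · exact ENNReal.natCast_ne_top _

/-- the walk started at a vertex of positive degree never visits an isolated vertex -/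
theorem RW.P_isolated [MeasurableSingletonClass V] (W : RW V) {p₀ : V} (hp : W.nb p₀ = ∅)
    (n : ℕ) : ∀ y, (W.nb y).Nonempty → W.P y {p | p n = p₀} = 0 := by
  induction n with
  | zero =>
    intro y hy
    refine W.P_start_ne fun p hp0 hp1 => ?_
    have : y = p₀ := by rw [← hp1, hp0]
    rw [this, hp] at hy
    simp at hy
  | succ n ih =>
    intro y hy
    have hm : MeasurableSet {p : ℕ → V | p (n + 1) = p₀} := by
      have h := (measurable_pi_apply (X := fun _ : ℕ => V) (n + 1))
        (measurableSet_singleton p₀)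
      exact h
    rw [W.step_apply hy hm]
    have : ∑ z ∈ W.nb y, W.P z (pcons y ⁻¹' {p : ℕ → V | p (n + 1) = p₀}) = 0 := by
      refine Finset.sum_eq_zero fun z hz => ?_
      exact ih z (W.nonempty_of_mem hz)
    rw [this, mul_zero]

theorem RW.ae_ne_isolated [MeasurableSingletonClass V] (W : RW V) {p₀ : V} (hp : W.nb p₀ = ∅)
    {y : V} (hy : (W.nb y).Nonempty) : ∀ᵐ p ∂(W.P y), ∀ n, p n ≠ p₀ := by
  rw [ae_all_iff]
  intro n
  rw [ae_iff]
  simpa using W.P_isolated hp n y hy

end HPV
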