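import Pool.Agent.Helper28.HPV.MainDefs

/-!
# Definitions for MP_23af14_pr (hyperbolic Poisson Voronoi graph, harmonic measure)
Everything lives in the Poincare disc model, as subsets of the complex plane.
-/

open MeasureTheory ProbabilityTheory Set Filter Topology
open scoped ENNReal NNReal Real

namespace HPV

/-- adjacency by Euclidean discs (used in the proof; equivalent to `VAdj` for locally finite `S`) -/
def DAdj (S : Set ℂ) (x y : ℂ) : Prop :=
  x ∈ S ∧ y ∈ S ∧ x ≠ y ∧ ∃ (c : ℂ) (r : ℝ), ‖c‖ + r < 1 ∧ ‖x - c‖ = r ∧ ‖y - c‖ = r ∧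
    ∀ w ∈ S, w ≠ x → w ≠ y → r < ‖w - c‖

/-- locally finite subset of the disc -/
def IsLF (S : Set ℂ) : Prop := S ⊆ disc ∧ ∀ r < 1, (S ∩ Metric.closedBall 0 r).Finite

/-- configurations -/
def Cfg : Type := {S : Set ℂ // IsLF S}

noncomputable instance : MeasurableSpace Cfg :=
  MeasurableSpace.comap (fun S : Cfg => (Measure.count.restrict S.1 : Measure ℂ)) inferInstance

/-- counting measure of a configuration, as a kernel -/
noncomputable def cnt : Kernel Cfg ℂ :=
  ⟨fun S => Measure.count.restrict S.1, comap_measurable _⟩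

/-- the law of the Poisson process of intensity `lam * hypArea` on configurations -/
structure IsPoissonLaw (μ : Measure Cfg) (lam : ℝ) : Prop where
  pos : 0 < lam
  law : ∀ (m : ℕ) (B : Fin m → Set ℂ), (∀ i, MeasurableSet (B i)) →
    (Pairwise fun i j => Disjoint (B i) (B j)) → (∀ i, hypArea (B i) ≠ ∞) → ∀ k : Fin m → ℕ,
    μ {S | ∀ i, (S.1 ∩ B i).encard = k i} =
      ∏ i, ENNReal.ofReal (Real.exp (-(lam * (hypArea (B i)).toReal)) *
        (lam * (hypArea (B i)).toReal) ^ (k i) / (k i).factorial)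

/-- add a point (if it is in the disc) -/
def insSet (p : ℂ) (S : Set ℂ) : Set ℂ := {z | z ∈ S ∨ (z = p ∧ p ∈ disc)}

theorem IsLF.ins {S : Set ℂ} (hS : IsLF S) (p : ℂ) : IsLF (insSet p S) := by
  constructor
  · rintro z (hz | ⟨rfl, hz⟩)
    · exact hS.1 hz
    · exact hz
  · intro r hr
    refine ((hS.2 r hr).union (finite_singleton p)).subset ?_
    rintro z ⟨hz | ⟨rfl, hz⟩, hz2⟩
    · exact Or.inl ⟨hz, hz2⟩
    · exact Or.inr rfl

def ins (p : ℂ) (S : Cfg) : Cfg := ⟨insSet p S.1, S.2.ins p⟩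

/-- the neighbours of `x`, as a finset (empty if there are infinitely many) -/
noncomputable def nbr (S : Set ℂ) (x : ℂ) : Finset ℂ := by
  classical exact if h : {y | VAdj S x y}.Finite then h.toFinset else ∅

/-- every vertex has finitely many and at least one neighbour -/
def Reg (S : Set ℂ) : Prop :=
  ∀ x ∈ S, {y | VAdj S x y}.Finite ∧ {y | VAdj S x y}.Nonempty

/-- indicator of adjacency -/
noncomputable def VAdjInd (S : Set ℂ) (x y : ℂ) : ℝ≥0∞ := by
  classical exact if VAdj S x y then 1 else 0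

/-- the almost sure geometric properties of the Poisson process that we use -/
structure Good (S : Set ℂ) : Prop where
  lf : IsLF S
  /-- every horodisc with a vertex on its boundary has a point of `S` in its interior
  (so the Voronoi cells are bounded) -/
  tangent : ∀ v ∈ S, ∀ ξ : ℂ, ‖ξ‖ = 1 →
    ∃ w ∈ S, ‖ξ - w‖ ^ 2 * (1 - ‖v‖ ^ 2) < ‖ξ - v‖ ^ 2 * (1 - ‖w‖ ^ 2)
  /-- no four points on a circle inside the disc -/
  gp : ∀ (c : ℂ) (r : ℝ), 0 < r → ‖c‖ + r < 1 → (S ∩ Metric.sphere c r).encard ≤ 3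
  /-- the Euclidean identity function has finite Dirichlet energy -/
  energy : ∫⁻ x, ∫⁻ y, (VAdjInd S x y) * ENNReal.ofReal (‖x - y‖ ^ 2)
      ∂(Measure.count.restrict S) ∂(Measure.count.restrict S) ≠ ∞

end HPV
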