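import Pool.Agent.Helper28.HPV.RW

/-! T12 Energy: energy bound for the excursion measure. -/

open MeasureTheory ProbabilityTheory Set Filter Topology
open scoped ENNReal NNReal Real

namespace HPV

namespace En

section algebra

variable {V : Type*} [DecidableEq V]

/-- weight of the directed edge: unordered edges touching `L` are counted once -/
noncomputable def wt (L : Finset V) (y : V) : ℝ := if y ∈ L then 1 / 2 else 1

/-- Dirichlet form of the unordered edges touching `L` -/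
noncomputable def en (nb : V → Finset V) (L : Finset V) (φ ψ : V → ℝ) : ℝ :=
  ∑ x ∈ L, ∑ y ∈ nb x, wt L y * ((φ x - φ y) * (ψ x - ψ y))

theorem wt_nonneg (L : Finset V) (y : V) : 0 ≤ wt L y := by
  unfold wt
  split_ifs <;> norm_num

theorem wt_le_one (L : Finset V) (y : V) : wt L y ≤ 1 := by
  unfold wt
  split_ifs <;> norm_num

theorem en_comm (nb : V → Finset V) (L : Finset V) (φ ψ : V → ℝ) : en nb L φ ψ = en nb L ψ φ := by
  unfold en
  refine Finset.sum_congr rfl fun x _ => Finset.sum_congr rfl fun y _ => ?_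
  ring

theorem en_self_nonneg (nb : V → Finset V) (L : Finset V) (φ : V → ℝ) : 0 ≤ en nb L φ φ := by
  refine Finset.sum_nonneg fun x _ => Finset.sum_nonneg fun y _ => ?_
  exact mul_nonneg (wt_nonneg L y) (mul_self_nonneg _)

theorem en_self_le (nb : V → Finset V) (L : Finset V) (φ : V → ℝ) :
    en nb L φ φ ≤ ∑ x ∈ L, ∑ y ∈ nb x, (φ x - φ y) ^ 2 := by
  refine Finset.sum_le_sum fun x _ => Finset.sum_le_sum fun y _ => ?_
  have h := mul_le_mul_of_nonneg_right (wt_le_one L y) (mul_self_nonneg (φ x - φ y))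
  rw [pow_two]
  linarith

theorem en_cs (nb : V → Finset V) (L : Finset V) (φ ψ : V → ℝ) :
    en nb L φ ψ ^ 2 ≤ en nb L φ φ * en nb L ψ ψ := by
  have h := Finset.sum_mul_sq_le_sq_mul_sq (L.sigma nb)
    (fun e => √(wt L e.2) * (φ e.1 - φ e.2)) (fun e => √(wt L e.2) * (ψ e.1 - ψ e.2))
  have e1 : ∀ a b : V → ℝ, en nb L a b = ∑ e ∈ L.sigma nb,
      (√(wt L e.2) * (a e.1 - a e.2)) * (√(wt L e.2) * (b e.1 - b e.2)) := by
    intro a b
    unfold en
    rw [Finset.sum_sigma]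
    refine Finset.sum_congr rfl fun x _ => Finset.sum_congr rfl fun y _ => ?_
    have := Real.mul_self_sqrt (wt_nonneg L y)
    calc wt L y * ((a x - a y) * (b x - b y))
        = (√(wt L y) * √(wt L y)) * ((a x - a y) * (b x - b y)) := by rw [this]
      _ = _ := by ring
  rw [e1 φ ψ, e1 φ φ, e1 ψ ψ]
  simpa only [pow_two] using h

/-- Green's identity -/
theorem green (nb : V → Finset V) (symm : ∀ {x y}, y ∈ nb x → x ∈ nb y) (L : Finset V)
    (φ ψ : V → ℝ) :
    en nb L φ ψ = ∑ x ∈ L, φ x * ∑ y ∈ nb x, (ψ x - ψ y)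
      + ∑ x ∈ L, ∑ y ∈ nb x \ L, φ y * (ψ y - ψ x) := by
  have hsplit : ∀ (x : V) (a : V → ℝ), ∑ y ∈ nb x, a y
      = ∑ y ∈ nb x ∩ L, a y + ∑ y ∈ nb x \ L, a y := by
    intro x a
    rw [← Finset.sum_union (Finset.disjoint_left.2 fun y h1 h2 =>
      (Finset.mem_sdiff.1 h2).2 (Finset.mem_inter.1 h1).2)]
    congr 1
    ext y
    simp only [Finset.mem_union, Finset.mem_inter, Finset.mem_sdiff]
    tauto
  -- the inner part
  have hin : ∑ x ∈ L, ∑ y ∈ nb x ∩ L, wt L y * ((φ x - φ y) * (ψ x - ψ y))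
      = ∑ x ∈ L, ∑ y ∈ nb x ∩ L, φ x * (ψ x - ψ y) := by
    have h1 : ∑ x ∈ L, ∑ y ∈ nb x ∩ L, φ y * (ψ y - ψ x)
        = ∑ x ∈ L, ∑ y ∈ nb x ∩ L, φ x * (ψ x - ψ y) := by
      rw [Finset.sum_sigma', Finset.sum_sigma']
      refine Finset.sum_bij' (fun e _ => ⟨e.2, e.1⟩) (fun e _ => ⟨e.2, e.1⟩) ?_ ?_ ?_ ?_ ?_
      · rintro ⟨x, y⟩ h
        simp only [Finset.mem_sigma, Finset.mem_inter] at h ⊢
        exact ⟨h.2.2, symm h.2.1, h.1⟩
      · rintro ⟨x, y⟩ h
        simp only [Finset.mem_sigma, Finset.mem_inter] at h ⊢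
        exact ⟨h.2.2, symm h.2.1, h.1⟩
      · rintro ⟨x, y⟩ _
        rfl
      · rintro ⟨x, y⟩ _
        rfl
      · rintro ⟨x, y⟩ _
        rfl
    have h2 : ∑ x ∈ L, ∑ y ∈ nb x ∩ L, wt L y * ((φ x - φ y) * (ψ x - ψ y))
        = (1 / 2) * (∑ x ∈ L, ∑ y ∈ nb x ∩ L, φ x * (ψ x - ψ y)
          + ∑ x ∈ L, ∑ y ∈ nb x ∩ L, φ y * (ψ y - ψ x)) := by
      rw [← Finset.sum_add_distrib, Finset.mul_sum]
      refine Finset.sum_congr rfl fun x _ => ?_
      rw [← Finset.sum_add_distrib, Finset.mul_sum]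
      refine Finset.sum_congr rfl fun y hy => ?_
      rw [wt, if_pos (Finset.mem_inter.1 hy).2]
      ring
    rw [h2, h1]
    ring
  have hout : ∑ x ∈ L, ∑ y ∈ nb x \ L, wt L y * ((φ x - φ y) * (ψ x - ψ y))
      = ∑ x ∈ L, ∑ y ∈ nb x \ L, φ x * (ψ x - ψ y)
        + ∑ x ∈ L, ∑ y ∈ nb x \ L, φ y * (ψ y - ψ x) := by
    rw [← Finset.sum_add_distrib]
    refine Finset.sum_congr rfl fun x _ => ?_
    rw [← Finset.sum_add_distrib]
    refine Finset.sum_congr rfl fun y hy => ?_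
    rw [wt, if_neg (Finset.mem_sdiff.1 hy).2]
    ring
  unfold en
  simp_rw [hsplit, Finset.sum_add_distrib, mul_add, Finset.sum_add_distrib]
  rw [hin, hout]
  simp_rw [Finset.mul_sum]
  ring

theorem green_bound (nb : V → Finset V) (symm : ∀ {x y}, y ∈ nb x → x ∈ nb y) (L K : Finset V)
    (hKL : K ⊆ L) (f g F U : V → ℝ) (hfg : ∀ x, f x * g x = 0) (hg0 : ∀ x, 0 ≤ g x)
    (hF0 : ∀ x, 0 ≤ F x)
    (hU : ∀ x ∈ L, ∑ y ∈ nb x, (U x - U y) = 0) (hUb : ∀ x, x ∉ L → U x = g x)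
    (hF : ∀ x ∈ L, x ∉ K → ∑ y ∈ nb x, (F x - F y) = 0) (hFK : ∀ x ∈ K, F x = 0)
    (hFb : ∀ x, x ∉ L → F x = f x) (Ef Eg : ℝ)
    (hEf : ∑ x ∈ L, ∑ y ∈ nb x, (f x - f y) ^ 2 ≤ Ef)
    (hEg : ∑ x ∈ L, ∑ y ∈ nb x, (g x - g y) ^ 2 ≤ Eg) :
    ∑ x ∈ K, (∑ y ∈ nb x, F y) * U x ≤ √(Ef * Eg) := by
  -- boundary formula for `en · U`
  have hbd : ∀ φ : V → ℝ, en nb L φ U = ∑ x ∈ L, ∑ y ∈ nb x \ L, φ y * (U y - U x) := by
    intro φ
    rw [green nb symm L φ U]
    rw [Finset.sum_eq_zero (s := L) (f := fun x => φ x * ∑ y ∈ nb x, (U x - U y))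
      (fun x hx => by rw [hU x hx, mul_zero]), zero_add]
  have hUU : en nb L U U = en nb L g U := by
    rw [hbd U, hbd g]
    refine Finset.sum_congr rfl fun x _ => Finset.sum_congr rfl fun y hy => ?_
    rw [hUb y (Finset.mem_sdiff.1 hy).2]
  have hFU : en nb L F U = en nb L f U := by
    rw [hbd F, hbd f]
    refine Finset.sum_congr rfl fun x _ => Finset.sum_congr rfl fun y hy => ?_
    rw [hFb y (Finset.mem_sdiff.1 hy).2]
  -- energy of U
  have hEU : en nb L U U ≤ en nb L g g := by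
    have h1 := en_cs nb L g U
    rw [← hUU] at h1
    rcases (en_self_nonneg nb L U).lt_or_eq with h | h
    · have : en nb L U U * en nb L U U ≤ en nb L g g * en nb L U U := by
        rw [← pow_two]; exact h1
      exact le_of_mul_le_mul_right this h
    · rw [← h]
      exact en_self_nonneg nb L g
  have hbound : en nb L f U ^ 2 ≤ Ef * Eg := by
    refine (en_cs nb L f U).trans ?_
    have h1 : en nb L f f ≤ Ef := (en_self_le nb L f).trans hEf
    have h2 : en nb L U U ≤ Eg := hEU.trans ((en_self_le nb L g).trans hEg)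
    exact mul_le_mul h1 h2 (en_self_nonneg nb L U) ((en_self_nonneg nb L f).trans h1)
  have hneg : -en nb L f U ≤ √(Ef * Eg) := by
    refine Real.le_sqrt_of_sq_le ?_
    rw [neg_sq]
    exact hbound
  refine le_trans ?_ hneg
  rw [← hFU, en_comm, green nb symm L U F]
  have h1 : ∑ x ∈ L, U x * ∑ y ∈ nb x, (F x - F y) = -∑ x ∈ K, (∑ y ∈ nb x, F y) * U x := by
    rw [← Finset.sum_subset hKL (f := fun x => U x * ∑ y ∈ nb x, (F x - F y))
      (fun x hx hxK => by rw [hF x hx hxK, mul_zero]), ← Finset.sum_neg_distrib]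
    refine Finset.sum_congr rfl fun x hx => ?_
    rw [Finset.sum_sub_distrib, hFK x hx]
    simp
    ring
  have h2 : ∑ x ∈ L, ∑ y ∈ nb x \ L, U y * (F y - F x) ≤ 0 := by
    refine Finset.sum_nonpos fun x _ => Finset.sum_nonpos fun y hy => ?_
    have hy' := (Finset.mem_sdiff.1 hy).2
    rw [hUb y hy', hFb y hy', mul_sub, mul_comm (g y) (f y), hfg y, zero_sub]
    exact neg_nonpos.2 (mul_nonneg (hg0 y) (hF0 x))
  rw [h1]
  linarith

end algebra

variable {V : Type*} [MeasurableSpace V]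

theorem measurable_pcons (x : V) : Measurable (pcons x) := by
  rw [measurable_pi_iff]
  intro n
  cases n with
  | zero => exact measurable_const
  | succ n => exact measurable_pi_apply n

variable [MeasurableSingletonClass V] [DecidableEq V]

/-- the walk leaves `L` at time `k` -/
def exitAt (L : Finset V) (k : ℕ) : Set (ℕ → V) := {p | p k ∉ L ∧ ∀ m < k, p m ∈ L}

/-- boundary value at the exit point of `L` -/
noncomputable def X (L : Finset V) (φ : V → ℝ) (p : ℕ → V) : ℝ≥0∞ :=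
  ∑' k, (exitAt L k).indicator (fun p => ENNReal.ofReal (φ (p k))) p

theorem ms_notMem (L : Finset V) (k : ℕ) : MeasurableSet {p : ℕ → V | p k ∉ L} :=
  L.finite_toSet.measurableSet.compl.preimage (measurable_pi_apply k)

theorem ms_mem (L : Finset V) (k : ℕ) : MeasurableSet {p : ℕ → V | p k ∈ L} :=
  L.finite_toSet.measurableSet.preimage (measurable_pi_apply k)

theorem measurableSet_exit (L : Finset V) (k : ℕ) : MeasurableSet (exitAt L k) := by
  have h2 : MeasurableSet {p : ℕ → V | ∀ m < k, p m ∈ L} := by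
    have : {p : ℕ → V | ∀ m < k, p m ∈ L} = ⋂ m ∈ Set.Iio k, {p : ℕ → V | p m ∈ L} := by
      ext p
      simp
    rw [this]
    exact MeasurableSet.biInter (Set.to_countable _) fun m _ => ms_mem L m
  exact (ms_notMem L k).inter h2

theorem measurable_X (L : Finset V) {φ : V → ℝ} (hφ : Measurable φ) : Measurable (X L φ) := by
  refine Measurable.tsum fun k => ?_
  refine Measurable.indicator ?_ (measurableSet_exit L k)
  exact (hφ.comp (measurable_pi_apply k)).ennreal_ofReal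

theorem X_eq {L : Finset V} {φ : V → ℝ} {p : ℕ → V} {k : ℕ} (h1 : p k ∉ L)
    (h2 : ∀ m < k, p m ∈ L) : X L φ p = ENNReal.ofReal (φ (p k)) := by
  have hk : p ∈ exitAt L k := ⟨h1, h2⟩
  unfold X
  rw [tsum_eq_single k, Set.indicator_of_mem hk]
  intro j hj
  rw [Set.indicator_of_notMem]
  rintro ⟨h3, h4⟩
  rcases lt_or_gt_of_ne hj with h | h
  · exact h3 (h2 j h)
  · exact h1 (h4 k h)

theorem X_le_one (L : Finset V) {φ : V → ℝ} (hφ : ∀ x, φ x ≤ 1) (p : ℕ → V) : X L φ p ≤ 1 := by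
  by_cases h : ∃ k, p ∈ exitAt L k
  · obtain ⟨k, h1, h2⟩ := h
    rw [X_eq h1 h2]
    exact ENNReal.ofReal_le_one.2 (hφ _)
  · have : X L φ p = 0 := by
      unfold X
      rw [ENNReal.tsum_eq_zero]
      intro k
      rw [Set.indicator_of_notMem]
      exact fun hk => h ⟨k, hk⟩
    rw [this]
    exact zero_le_one

theorem X_pcons {L : Finset V} (φ : V → ℝ) {x : V} (hx : x ∈ L) (p : ℕ → V) :
    X L φ (pcons x p) = X L φ p := by
  unfold X
  rw [tsum_eq_zero_add' ENNReal.summable]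
  have h0 : (exitAt L 0).indicator (fun p => ENNReal.ofReal (φ (p 0))) (pcons x p) = 0 := by
    rw [Set.indicator_of_notMem]
    rintro ⟨h, _⟩
    exact h hx
  rw [h0, zero_add]
  refine tsum_congr fun k => ?_
  have hiff : pcons x p ∈ exitAt L (k + 1) ↔ p ∈ exitAt L k := by
    constructor
    · rintro ⟨h1, h2⟩
      exact ⟨h1, fun m hm => h2 (m + 1) (by omega)⟩
    · rintro ⟨h1, h2⟩
      refine ⟨h1, fun m hm => ?_⟩
      cases m with
      | zero => exact hx
      | succ m => exact h2 m (by omega)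
  by_cases hc : p ∈ exitAt L k
  · rw [Set.indicator_of_mem hc, Set.indicator_of_mem (hiff.2 hc)]
    rfl
  · rw [Set.indicator_of_notMem hc, Set.indicator_of_notMem (fun h => hc (hiff.1 h))]

/-- expected boundary value -/
noncomputable def G (W : RW V) (L : Finset V) (φ : V → ℝ) (x : V) : ℝ :=
  (∫⁻ p, X L φ p ∂(W.P x)).toReal

theorem G_nonneg (W : RW V) (L : Finset V) (φ : V → ℝ) (x : V) : 0 ≤ G W L φ x :=
  ENNReal.toReal_nonneg

theorem lint_le_one (W : RW V) (L : Finset V) {φ : V → ℝ} (hφ : ∀ x, φ x ≤ 1) (x : V) :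
    ∫⁻ p, X L φ p ∂(W.P x) ≤ 1 := by
  have := W.prob x
  calc ∫⁻ p, X L φ p ∂(W.P x) ≤ ∫⁻ _, 1 ∂(W.P x) := lintegral_mono fun p => X_le_one L hφ p
    _ = 1 := by simp

theorem G_out (W : RW V) {L : Finset V} {φ : V → ℝ} (hφ0 : ∀ x, 0 ≤ φ x) {x : V} (hx : x ∉ L) :
    G W L φ x = φ x := by
  have := W.prob x
  have h : ∀ᵐ p ∂(W.P x), X L φ p = ENNReal.ofReal (φ x) := by
    filter_upwards [W.start x] with p hp
    have := X_eq (L := L) (φ := φ) (p := p) (k := 0) (by rw [hp]; exact hx)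
      (fun m hm => absurd hm (Nat.not_lt_zero m))
    rw [this, hp]
  unfold G
  rw [lintegral_congr_ae h]
  simp [hφ0 x]

theorem G_step (W : RW V) {L : Finset V} {φ : V → ℝ} (hφ : Measurable φ) (hφ1 : ∀ x, φ x ≤ 1)
    {x : V} (hx : x ∈ L) (hne : (W.nb x).Nonempty) :
    ∑ y ∈ W.nb x, (G W L φ x - G W L φ y) = 0 := by
  have h1 : ∫⁻ p, X L φ p ∂(W.P x)
      = ((W.nb x).card : ℝ≥0∞)⁻¹ * ∑ y ∈ W.nb x, ∫⁻ p, X L φ p ∂(W.P y) := by
    conv_lhs => rw [W.step x hne]
    rw [lintegral_smul_measure, lintegral_finsetSum_measure, smul_eq_mul]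
    congr 1
    refine Finset.sum_congr rfl fun y _ => ?_
    rw [lintegral_map (measurable_X L hφ) (measurable_pcons x)]
    refine lintegral_congr fun p => ?_
    rw [X_pcons φ hx]
  have hcard : ((W.nb x).card : ℝ) ≠ 0 := by
    exact_mod_cast (Finset.card_pos.2 hne).ne'
  have h2 : G W L φ x = ((W.nb x).card : ℝ)⁻¹ * ∑ y ∈ W.nb x, G W L φ y := by
    unfold G
    rw [h1, ENNReal.toReal_mul, ENNReal.toReal_inv, ENNReal.toReal_natCast,
      ENNReal.toReal_sum]
    intro y _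
    exact ne_top_of_le_ne_top ENNReal.one_ne_top (lint_le_one W L hφ1 y)
  rw [Finset.sum_sub_distrib, Finset.sum_const, nsmul_eq_mul, h2, ← mul_assoc,
    mul_inv_cancel₀ hcard, one_mul, sub_self]

/-- the vertices reachable in `k` steps -/
noncomputable def reach (W : RW V) : ℕ → V → Finset V
  | 0, x => {x}
  | k + 1, x => (W.nb x).biUnion (reach W k)

theorem reach_nonempty (W : RW V) (k : ℕ) : ∀ x, (W.nb x).Nonempty → ∀ y ∈ reach W k x,
    (W.nb y).Nonempty := by
  induction k with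
  | zero =>
    intro x hx y hy
    rw [reach, Finset.mem_singleton] at hy
    rwa [hy]
  | succ k ih =>
    intro x hx y hy
    rw [reach, Finset.mem_biUnion] at hy
    obtain ⟨z, hz, hy⟩ := hy
    exact ih z ⟨x, W.symm hz⟩ y hy

theorem ae_reach (W : RW V) (k : ℕ) : ∀ x, (W.nb x).Nonempty →
    W.P x {p | p k ∉ reach W k x} = 0 := by
  induction k with
  | zero =>
    intro x hx
    have := W.start x
    rw [ae_iff] at this
    refine measure_mono_null ?_ this
    intro p hp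
    simpa [reach] using hp
  | succ k ih =>
    intro x hx
    have hm : ∀ (j : ℕ) (R : Finset V), MeasurableSet {p : ℕ → V | p j ∉ R} := fun j R =>
      ms_notMem R j
    rw [W.step x hx, Measure.smul_apply, Measure.finset_sum_apply, smul_eq_mul]
    rw [Finset.sum_eq_zero, mul_zero]
    intro y hy
    rw [Measure.map_apply (measurable_pcons x) (hm _ _)]
    refine measure_mono_null ?_ (ih y ⟨x, W.symm hy⟩)
    intro p hp h2
    refine hp ?_
    rw [reach, Finset.mem_biUnion]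
    exact ⟨y, hy, h2⟩

theorem ae_nonempty (W : RW V) {x : V} (hx : (W.nb x).Nonempty) :
    ∀ᵐ p ∂(W.P x), ∀ k, (W.nb (p k)).Nonempty := by
  rw [ae_all_iff]
  intro k
  have h := ae_reach W k x hx
  have : ∀ᵐ p ∂(W.P x), p k ∈ reach W k x := by
    rw [ae_iff]
    exact h
  filter_upwards [this] with p hp
  exact reach_nonempty W k x hx _ hp

theorem measurableSet_avoid (K : Finset V) : MeasurableSet (avoid K) := by
  have : (avoid K : Set (ℕ → V)) = ⋂ n, {p : ℕ → V | p n ∉ K} := by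
    ext p
    simp [avoid]
  rw [this]
  exact MeasurableSet.iInter fun n => ms_notMem K n

/-- convergence of the exit values along a path -/
theorem X_tendsto {Vn : ℕ → Finset V} {K : Finset V} (hmono : Monotone Vn)
    {f : V → ℝ} {p : ℕ → V} (hp : ∀ k, ∃ n, p k ∈ Vn n) (hav : p ∈ avoid K)
    (hout : ∀ n, ∀ᶠ k in atTop, p k ∉ Vn n) (hf : Tendsto (fun k => f (p k)) atTop (𝓝 1)) :
    Tendsto (fun n => X (Vn n \ K) (fun v => if v ∈ K then 0 else f v) p) atTop (𝓝 1) := by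
  have hex : ∀ n, ∃ k, p k ∉ Vn n \ K := by
    intro n
    obtain ⟨k, hk⟩ := (hout n).exists
    exact ⟨k, fun h => hk (Finset.mem_sdiff.1 h).1⟩
  classical
  have hval : ∀ n, X (Vn n \ K) (fun v => if v ∈ K then 0 else f v) p
      = ENNReal.ofReal (f (p (Nat.find (hex n)))) := by
    intro n
    rw [X_eq (k := Nat.find (hex n)) (Nat.find_spec (hex n))]
    · rw [if_neg (hav _)]
    · intro m hm
      by_contra h
      exact Nat.find_min (hex n) hm h
  have htau : Tendsto (fun n => Nat.find (hex n)) atTop atTop := by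
    rw [tendsto_atTop]
    intro b
    -- all p j, j < b, lie in Vn n for large n
    have : ∀ᶠ n in atTop, ∀ j < b, p j ∈ Vn n := by
      have h := fun j => hp j
      choose N hN using h
      refine eventually_atTop.2 ⟨(Finset.range b).sup N, fun n hn j hj => ?_⟩
      exact hmono (le_trans (Finset.le_sup (f := N) (Finset.mem_range.2 hj)) hn) (hN j)
    filter_upwards [this] with n hn
    by_contra hlt
    push Not at hlt
    exact Nat.find_spec (hex n) (Finset.mem_sdiff.2 ⟨hn _ hlt, hav _⟩)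
  have h1 : Tendsto (fun n => ENNReal.ofReal (f (p (Nat.find (hex n))))) atTop
      (𝓝 (ENNReal.ofReal 1)) :=
    (ENNReal.continuous_ofReal.tendsto 1).comp (hf.comp htau)
  rw [ENNReal.ofReal_one] at h1
  refine h1.congr fun n => (hval n).symm

/-- truncated version converging to the probability -/
theorem trunc_tendsto (W : RW V) {Vn : ℕ → Finset V} (hmono : Monotone Vn)
    (hex : ∀ x, (W.nb x).Nonempty → ∃ n, x ∈ Vn n) {K : Finset V} {f : V → ℝ}
    (hfm : Measurable f) (hf1 : ∀ x, f x ≤ 1) {A : Set (ℕ → V)} (hA : MeasurableSet A)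
    (hAf : ∀ p ∈ A, (∀ n, ∀ᶠ k in atTop, p k ∉ Vn n) ∧
      Tendsto (fun k => f (p k)) atTop (𝓝 1)) {x : V} (hx : (W.nb x).Nonempty) :
    Tendsto (fun n => (∫⁻ p in A ∩ avoid K,
      X (Vn n \ K) (fun v => if v ∈ K then 0 else f v) p ∂(W.P x)).toReal) atTop
      (𝓝 (W.hK K A x)) := by
  have := W.prob x
  have hφm : Measurable (fun v => if v ∈ K then 0 else f v) :=
    Measurable.ite K.finite_toSet.measurableSet measurable_const hfm
  have hφ1 : ∀ v, (if v ∈ K then 0 else f v) ≤ 1 := by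
    intro v
    split_ifs
    · exact zero_le_one
    · exact hf1 v
  have h1 : Tendsto (fun n => ∫⁻ p in A ∩ avoid K,
      X (Vn n \ K) (fun v => if v ∈ K then 0 else f v) p ∂(W.P x)) atTop
      (𝓝 (∫⁻ _ in A ∩ avoid K, 1 ∂(W.P x))) := by
    refine tendsto_lintegral_of_dominated_convergence (fun _ => 1)
      (fun n => measurable_X _ hφm) (fun n => ae_of_all _ fun p => X_le_one _ hφ1 p) ?_ ?_
    · simp
    · have h2 := ae_restrict_of_ae (s := A ∩ avoid K) (ae_nonempty W hx)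
      have h3 := ae_restrict_mem (μ := W.P x) (hA.inter (measurableSet_avoid K))
      filter_upwards [h2, h3] with p hp1 hp2
      exact X_tendsto hmono (fun k => hex _ (hp1 k)) hp2.2 (hAf p hp2.1).1 (hAf p hp2.1).2
  have h2 : (∫⁻ _ in A ∩ avoid K, 1 ∂(W.P x)) = W.P x (A ∩ avoid K) := by simp
  rw [h2] at h1
  exact (ENNReal.tendsto_toReal (measure_ne_top _ _)).comp h1

theorem trunc_le (W : RW V) (L : Finset V) {φ : V → ℝ} (hφ1 : ∀ x, φ x ≤ 1) (S : Set (ℕ → V))
    (x : V) : (∫⁻ p in S, X L φ p ∂(W.P x)).toReal ≤ G W L φ x := by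
  unfold G
  refine ENNReal.toReal_mono ?_ (setLIntegral_le_lintegral _ _)
  exact ne_top_of_le_ne_top ENNReal.one_ne_top (lint_le_one W L hφ1 x)

end En

variable {V : Type*} [MeasurableSpace V] [MeasurableSingletonClass V] [DecidableEq V]

/-- (P9) energy bound -/
theorem RW.energy_bound (W : RW V) (Vn : ℕ → Finset V) (hmono : Monotone Vn)
    (hex : ∀ x, (W.nb x).Nonempty → ∃ n, x ∈ Vn n)
    (hVne : ∀ n, ∀ x ∈ Vn n, (W.nb x).Nonempty)
    (f g : V → ℝ) (hfm : Measurable f) (hgm : Measurable g)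
    (hf0 : ∀ x, 0 ≤ f x) (hf1 : ∀ x, f x ≤ 1) (hg0 : ∀ x, 0 ≤ g x)
    (hg1 : ∀ x, g x ≤ 1) (hfg : ∀ x, f x * g x = 0) (Ef Eg : ℝ)
    (hEf : ∀ F : Finset V, (∀ x ∈ F, (W.nb x).Nonempty) →
      ∑ x ∈ F, ∑ y ∈ W.nb x, (f x - f y) ^ 2 ≤ Ef)
    (hEg : ∀ F : Finset V, (∀ x ∈ F, (W.nb x).Nonempty) →
      ∑ x ∈ F, ∑ y ∈ W.nb x, (g x - g y) ^ 2 ≤ Eg)
    {A B : Set (ℕ → V)} (hA : MeasurableSet A) (hB : MeasurableSet B)
    (hAf : ∀ p ∈ A, (∀ n, ∀ᶠ k in atTop, p k ∉ Vn n) ∧
      Tendsto (fun k => f (p k)) atTop (𝓝 1))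
    (hBg : ∀ p ∈ B, (∀ n, ∀ᶠ k in atTop, p k ∉ Vn n) ∧
      Tendsto (fun k => g (p k)) atTop (𝓝 1))
    (K : Finset V) (hK : ∀ x ∈ K, (W.nb x).Nonempty) :
    W.J K A B ≤ √(Ef * Eg) := by
  classical
  set φ : V → ℝ := fun v => if v ∈ K then 0 else f v with hφ
  set ψ : V → ℝ := fun v => if v ∈ (∅ : Finset V) then 0 else g v with hψ
  have hφm : Measurable φ := Measurable.ite K.finite_toSet.measurableSet measurable_const hfm
  have hφ1 : ∀ v, φ v ≤ 1 := by
    intro v
    simp only [hφ]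
    split_ifs
    · exact zero_le_one
    · exact hf1 v
  have hφ0 : ∀ v, 0 ≤ φ v := by
    intro v
    simp only [hφ]
    split_ifs
    · exact le_refl _
    · exact hf0 v
  have hψg : ψ = g := by
    funext v
    simp [hψ]
  -- truncated quantities
  set a : ℕ → V → ℝ := fun n x =>
    (∫⁻ p in A ∩ avoid K, En.X (Vn n \ K) φ p ∂(W.P x)).toReal with ha
  set b : ℕ → V → ℝ := fun n x =>
    (∫⁻ p in B ∩ avoid ∅, En.X (Vn n \ ∅) ψ p ∂(W.P x)).toReal with hb
  have hta : ∀ x, (W.nb x).Nonempty → Tendsto (fun n => a n x) atTop (𝓝 (W.hK K A x)) :=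
    fun x hx => En.trunc_tendsto W hmono hex hfm hf1 hA hAf hx
  have htb : ∀ x, (W.nb x).Nonempty → Tendsto (fun n => b n x) atTop (𝓝 (W.h B x)) := by
    intro x hx
    have h := En.trunc_tendsto (K := ∅) W hmono hex hgm hg1 hB hBg hx
    have h2 : W.hK ∅ B x = W.h B x := by
      have : B ∩ avoid (∅ : Finset V) = B := by
        ext p
        simp [avoid]
      rw [RW.hK, RW.h, this]
    rw [h2] at h
    exact h
  have hlim : Tendsto (fun n => ∑ x ∈ K, (∑ y ∈ W.nb x, a n y) * b n x) atTop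
      (𝓝 (W.J K A B)) := by
    unfold RW.J RW.e
    refine tendsto_finsetSum _ fun x hx => ?_
    refine Tendsto.mul ?_ (htb x (hK x hx))
    exact tendsto_finsetSum _ fun y hy => hta y ⟨x, W.symm hy⟩
  -- K is contained in Vn n for large n
  have hKV : ∀ᶠ n in atTop, K ⊆ Vn n := by
    have h : ∀ x : K, ∃ n, (x : V) ∈ Vn n := fun x => hex x (hK x x.2)
    choose N hN using h
    refine eventually_atTop.2 ⟨K.attach.sup N, fun n hn x hx => ?_⟩
    exact hmono (le_trans (Finset.le_sup (f := N) (Finset.mem_attach K ⟨x, hx⟩)) hn) (hN ⟨x, hx⟩)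
  refine le_of_tendsto hlim ?_
  filter_upwards [hKV] with n hn
  set F : V → ℝ := En.G W (Vn n \ K) φ with hF
  set U : V → ℝ := En.G W (Vn n) g with hU
  have haF : ∀ y, a n y ≤ F y := fun y => En.trunc_le W _ hφ1 _ y
  have hbU : ∀ y, b n y ≤ U y := by
    intro y
    have h := En.trunc_le W (Vn n \ ∅) (φ := ψ) (by rw [hψg]; exact hg1) (B ∩ avoid ∅) y
    simp only [hb, hU]
    refine h.trans ?_
    rw [hψg, Finset.sdiff_empty]
  have hbn : ∀ y, 0 ≤ b n y := fun y => ENNReal.toReal_nonneg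
  have hFn : ∀ y, 0 ≤ F y := fun y => En.G_nonneg W _ _ y
  calc ∑ x ∈ K, (∑ y ∈ W.nb x, a n y) * b n x
      ≤ ∑ x ∈ K, (∑ y ∈ W.nb x, F y) * U x := by
        refine Finset.sum_le_sum fun x _ => ?_
        exact mul_le_mul (Finset.sum_le_sum fun y _ => haF y) (hbU x) (hbn x)
          (Finset.sum_nonneg fun y _ => hFn y)
    _ ≤ √(Ef * Eg) := by
        refine En.green_bound W.nb W.symm (Vn n) K hn f g F U hfg hg0 hFn ?_ ?_ ?_ ?_ ?_ Ef Eg
          (hEf _ (hVne n)) (hEg _ (hVne n))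
        · intro x hx
          exact En.G_step W hgm hg1 hx (hVne n x hx)
        · intro x hx
          exact En.G_out W hg0 hx
        · intro x hx hxK
          exact En.G_step W hφm hφ1 (Finset.mem_sdiff.2 ⟨hx, hxK⟩) (hVne n x hx)
        · intro x hx
          rw [hF, En.G_out W hφ0 (fun h => (Finset.mem_sdiff.1 h).2 hx)]
          simp [hφ, hx]
        · intro x hx
          rw [hF, En.G_out W hφ0 (fun h => hx (Finset.mem_sdiff.1 h).1)]
          simp only [hφ]
          rw [if_neg (fun h => hx (hn h))]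

end HPV
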