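import Pool.Agent.Helper28.HPV.RW

/-! Limit events of paths. -/

open MeasureTheory ProbabilityTheory Set Filter Topology
open scoped ENNReal NNReal Real

namespace HPV

/-- the walk converges to a point of `A` on the unit circle -/
def limEv (A : Set ℂ) : Set (ℕ → ℂ) := {p | ∃ ξ ∈ A, ‖ξ‖ = 1 ∧ Tendsto p atTop (𝓝 ξ)}

/-- limit of a path (meaningful on converging paths) -/
noncomputable def limMap (p : ℕ → ℂ) : ℂ := limUnder atTop p

theorem limMap_eq {p : ℕ → ℂ} {ξ : ℂ} (h : Tendsto p atTop (𝓝 ξ)) : limMap p = ξ := h.limUnder_eq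

theorem measurableSet_conv : MeasurableSet {p : ℕ → ℂ | ∃ ξ, Tendsto p atTop (𝓝 ξ)} :=
  measurableSet_exists_tendsto (l := (atTop : Filter ℕ)) (ι := ℕ) (f := fun n (p : ℕ → ℂ) => p n)
    (fun n => measurable_pi_apply n)

theorem measurable_limMap : Measurable limMap := by
  have := MeasureTheory.StronglyMeasurable.limUnder (l := (atTop : Filter ℕ))
    (f := fun n (p : ℕ → ℂ) => p n) (fun n => (measurable_pi_apply n).stronglyMeasurable)
  exact this.measurable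

theorem limEv_eq (A : Set ℂ) : limEv A =
    {p : ℕ → ℂ | ∃ ξ, Tendsto p atTop (𝓝 ξ)} ∩ limMap ⁻¹' (A ∩ Metric.sphere 0 1) := by
  ext p
  constructor
  · rintro ⟨ξ, hξ, h1, h2⟩
    refine ⟨⟨ξ, h2⟩, ?_⟩
    rw [mem_preimage, limMap_eq h2]
    exact ⟨hξ, by simpa using h1⟩
  · rintro ⟨⟨ξ, h2⟩, h3⟩
    rw [mem_preimage, limMap_eq h2] at h3
    exact ⟨ξ, h3.1, by simpa using h3.2, h2⟩

theorem measurableSet_limEv {A : Set ℂ} (hA : MeasurableSet A) : MeasurableSet (limEv A) := by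
  rw [limEv_eq]
  exact measurableSet_conv.inter
    (measurable_limMap (hA.inter Metric.isClosed_sphere.measurableSet))

theorem limEv_pcons (A : Set ℂ) (x : ℂ) (p : ℕ → ℂ) : pcons x p ∈ limEv A ↔ p ∈ limEv A := by
  have h1 : ∀ ξ, Tendsto (pcons x p) atTop (𝓝 ξ) ↔ Tendsto p atTop (𝓝 ξ) := by
    intro ξ
    rw [← tendsto_add_atTop_iff_nat 1]
    rfl
  constructor
  · rintro ⟨ξ, hξ, h2, h3⟩
    exact ⟨ξ, hξ, h2, (h1 ξ).1 h3⟩
  · rintro ⟨ξ, hξ, h2, h3⟩
    exact ⟨ξ, hξ, h2, (h1 ξ).2 h3⟩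

theorem limEv_inv {A : Set ℂ} (hA : MeasurableSet A) : Inv (limEv A) :=
  ⟨measurableSet_limEv hA, limEv_pcons A⟩

theorem limEv_mono {A B : Set ℂ} (h : A ⊆ B) : limEv A ⊆ limEv B := by
  rintro p ⟨ξ, hξ, h2⟩
  exact ⟨ξ, h hξ, h2⟩

theorem limEv_empty : limEv ∅ = ∅ := by
  ext p
  simp [limEv]

theorem limEv_disjoint {A B : Set ℂ} (h : Disjoint A B) : Disjoint (limEv A) (limEv B) := by
  rw [Set.disjoint_left]
  rintro p ⟨ξ, hξ, _, h1⟩ ⟨η, hη, _, h2⟩
  rw [tendsto_nhds_unique h1 h2] at hξ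
  exact Set.disjoint_left.1 h hξ hη

/-- law of the limit of the path on the event that it converges to a point of the circle -/
noncomputable def bdLaw (Q : Measure (ℕ → ℂ)) : Measure ℂ :=
  (Q.restrict (limEv univ)).map limMap

theorem bdLaw_apply (Q : Measure (ℕ → ℂ)) {A : Set ℂ} (hA : MeasurableSet A) :
    bdLaw Q A = Q (limEv A) := by
  rw [bdLaw, Measure.map_apply measurable_limMap hA, Measure.restrict_apply (measurable_limMap hA)]
  congr 1
  ext p
  constructor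
  · rintro ⟨h1, ξ, _, h2, h3⟩
    rw [mem_preimage, limMap_eq h3] at h1
    exact ⟨ξ, h1, h2, h3⟩
  · rintro ⟨ξ, h1, h2, h3⟩
    refine ⟨?_, ξ, mem_univ _, h2, h3⟩
    rw [mem_preimage, limMap_eq h3]
    exact h1

instance (Q : Measure (ℕ → ℂ)) [IsFiniteMeasure Q] : IsFiniteMeasure (bdLaw Q) := by
  constructor
  rw [bdLaw_apply _ MeasurableSet.univ]
  exact measure_lt_top _ _

end HPV
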