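import Pool.Agent.Helper28.HPV.ChainB

/-! T11 Potential: finite linear algebra for the reversible walk. -/

open MeasureTheory ProbabilityTheory Set Filter Topology
open scoped ENNReal NNReal Real

namespace HPV

set_option linter.unusedSectionVars false

variable {V : Type*} [MeasurableSpace V] [MeasurableSingletonClass V] [DecidableEq V]

/-- the trace operator of the walk on `K` -/
noncomputable def RW.Lop (W : RW V) (K : Finset V) (w : V → ℝ) (x : V) : ℝ :=
  ((W.nb x).card : ℝ) * w x - ∑ y ∈ W.nb x ∩ K, w y - ∑ x' ∈ K, W.C K x x' * w x'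

theorem RW.sum_adj (W : RW V) (K : Finset V) (f : V → V → ℝ) :
    ∑ x ∈ K, ∑ y ∈ W.nb x ∩ K, f x y = ∑ x ∈ K, ∑ y ∈ K, if y ∈ W.nb x then f x y else 0 := by
  refine Finset.sum_congr rfl fun x _ => ?_
  rw [Finset.inter_comm, ← Finset.filter_mem_eq_inter, Finset.sum_filter]

theorem RW.sum_adj_swap (W : RW V) (K : Finset V) (f : V → V → ℝ) :
    ∑ x ∈ K, ∑ y ∈ W.nb x ∩ K, f x y = ∑ x ∈ K, ∑ y ∈ W.nb x ∩ K, f y x := by
  rw [W.sum_adj, W.sum_adj, Finset.sum_comm]
  refine Finset.sum_congr rfl fun x _ => Finset.sum_congr rfl fun y _ => ?_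
  by_cases h : x ∈ W.nb y
  · rw [if_pos h, if_pos (W.symm h)]
  · rw [if_neg h, if_neg (fun h' => h (W.symm h'))]

theorem RW.Lop_symm (W : RW V) (K : Finset V) (u w : V → ℝ) :
    ∑ x ∈ K, u x * W.Lop K w x = ∑ x ∈ K, w x * W.Lop K u x := by
  have e : ∀ u w : V → ℝ, ∑ x ∈ K, u x * W.Lop K w x
      = ∑ x ∈ K, u x * (((W.nb x).card : ℝ) * w x) - ∑ x ∈ K, ∑ y ∈ W.nb x ∩ K, u x * w y
        - ∑ x ∈ K, ∑ x' ∈ K, u x * (W.C K x x' * w x') := by
    intro u w
    rw [← Finset.sum_sub_distrib, ← Finset.sum_sub_distrib]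
    refine Finset.sum_congr rfl fun x _ => ?_
    unfold RW.Lop
    rw [mul_sub, mul_sub, Finset.mul_sum, Finset.mul_sum]
  rw [e, e, W.sum_adj_swap K (fun x y => u x * w y),
    Finset.sum_comm (f := fun x x' => u x * (W.C K x x' * w x'))]
  congr 1
  · congr 1
    · exact Finset.sum_congr rfl fun x _ => by ring
    · exact Finset.sum_congr rfl fun x _ => Finset.sum_congr rfl fun y _ => by ring
  · refine Finset.sum_congr rfl fun x hx => Finset.sum_congr rfl fun y hy => ?_
    rw [W.C_symm K hy hx]; ring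

theorem RW.Lop_psd (W : RW V) (K : Finset V) (u : V → ℝ) :
    1 / 2 * ∑ x ∈ K, ∑ y ∈ W.nb x ∩ K, (u x - u y) ^ 2 ≤ ∑ x ∈ K, u x * W.Lop K u x := by
  have hcard : ∀ x, ((W.nb x).card : ℝ) = ((W.nb x ∩ K).card : ℝ) + ((W.nb x \ K).card : ℝ) := by
    intro x
    have := Finset.card_inter_add_card_sdiff (W.nb x) K
    exact_mod_cast this.symm
  have e : ∑ x ∈ K, u x * W.Lop K u x
      = (∑ x ∈ K, ∑ y ∈ W.nb x ∩ K, u x ^ 2 - ∑ x ∈ K, ∑ y ∈ W.nb x ∩ K, u x * u y)
        + (∑ x ∈ K, u x ^ 2 * ((W.nb x \ K).card : ℝ)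
          - ∑ x ∈ K, ∑ x' ∈ K, u x * (W.C K x x' * u x')) := by
    rw [← Finset.sum_sub_distrib, ← Finset.sum_sub_distrib, ← Finset.sum_add_distrib]
    refine Finset.sum_congr rfl fun x _ => ?_
    unfold RW.Lop
    rw [mul_sub, mul_sub, Finset.mul_sum, Finset.mul_sum, hcard x, Finset.sum_const, nsmul_eq_mul]
    ring
  have h1 : ∑ x ∈ K, ∑ y ∈ W.nb x ∩ K, (u x - u y) ^ 2
      = 2 * (∑ x ∈ K, ∑ y ∈ W.nb x ∩ K, u x ^ 2 - ∑ x ∈ K, ∑ y ∈ W.nb x ∩ K, u x * u y) := by
    have h2 := W.sum_adj_swap K (fun x _ => u x ^ 2)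
    have h3 : ∑ x ∈ K, ∑ y ∈ W.nb x ∩ K, (u x - u y) ^ 2
        = ∑ x ∈ K, ∑ y ∈ W.nb x ∩ K, u x ^ 2 + ∑ x ∈ K, ∑ y ∈ W.nb x ∩ K, u y ^ 2
          - 2 * ∑ x ∈ K, ∑ y ∈ W.nb x ∩ K, u x * u y := by
      rw [Finset.mul_sum, ← Finset.sum_add_distrib, ← Finset.sum_sub_distrib]
      refine Finset.sum_congr rfl fun x _ => ?_
      rw [Finset.mul_sum, ← Finset.sum_add_distrib, ← Finset.sum_sub_distrib]
      exact Finset.sum_congr rfl fun y _ => by ring
    rw [h3, ← h2]; ring
  have h4 : 0 ≤ ∑ x ∈ K, u x ^ 2 * ((W.nb x \ K).card : ℝ)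
          - ∑ x ∈ K, ∑ x' ∈ K, u x * (W.C K x x' * u x') := by
    have h5 : ∑ x ∈ K, ∑ x' ∈ K, u x ^ 2 * W.C K x x'
        ≤ ∑ x ∈ K, u x ^ 2 * ((W.nb x \ K).card : ℝ) := by
      refine Finset.sum_le_sum fun x _ => ?_
      rw [← Finset.mul_sum]
      exact mul_le_mul_of_nonneg_left (W.C_sum_le K x) (sq_nonneg _)
    have h6 : ∑ x ∈ K, ∑ x' ∈ K, W.C K x x' * (u x - u x') ^ 2
        = 2 * (∑ x ∈ K, ∑ x' ∈ K, u x ^ 2 * W.C K x x'
          - ∑ x ∈ K, ∑ x' ∈ K, u x * (W.C K x x' * u x')) := by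
      have h7 : ∑ x ∈ K, ∑ x' ∈ K, u x' ^ 2 * W.C K x x'
          = ∑ x ∈ K, ∑ x' ∈ K, u x ^ 2 * W.C K x x' := by
        rw [Finset.sum_comm]
        refine Finset.sum_congr rfl fun x hx => Finset.sum_congr rfl fun y hy => ?_
        rw [W.C_symm K hy hx]
      have h8 : ∑ x ∈ K, ∑ x' ∈ K, W.C K x x' * (u x - u x') ^ 2
          = ∑ x ∈ K, ∑ x' ∈ K, u x ^ 2 * W.C K x x' + ∑ x ∈ K, ∑ x' ∈ K, u x' ^ 2 * W.C K x x'
            - 2 * ∑ x ∈ K, ∑ x' ∈ K, u x * (W.C K x x' * u x') := by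
        rw [Finset.mul_sum, ← Finset.sum_add_distrib, ← Finset.sum_sub_distrib]
        refine Finset.sum_congr rfl fun x _ => ?_
        rw [Finset.mul_sum, ← Finset.sum_add_distrib, ← Finset.sum_sub_distrib]
        exact Finset.sum_congr rfl fun y _ => by ring
      rw [h8, h7]; ring
    have h9 : 0 ≤ ∑ x ∈ K, ∑ x' ∈ K, W.C K x x' * (u x - u x') ^ 2 :=
      Finset.sum_nonneg fun x _ => Finset.sum_nonneg fun x' _ =>
        mul_nonneg (W.C_nonneg K x x') (sq_nonneg _)
    linarith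
  rw [e]; linarith

/-- equality in the form: the function is constant along edges inside `K` -/
theorem RW.Lop_zero (W : RW V) (K : Finset V) (u : V → ℝ)
    (h : ∑ x ∈ K, u x * W.Lop K u x ≤ 0) {x y : V} (hx : x ∈ K) (hy : y ∈ K)
    (hxy : y ∈ W.nb x) : u x = u y := by
  have h1 := W.Lop_psd K u
  have h2 : ∑ x ∈ K, ∑ y ∈ W.nb x ∩ K, (u x - u y) ^ 2 ≤ 0 := by linarith
  have h3 : (u x - u y) ^ 2 ≤ ∑ x ∈ K, ∑ y ∈ W.nb x ∩ K, (u x - u y) ^ 2 := by
    refine le_trans ?_ (Finset.single_le_sum (f := fun x => ∑ y ∈ W.nb x ∩ K, (u x - u y) ^ 2)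
      (fun i _ => Finset.sum_nonneg fun j _ => sq_nonneg _) hx)
    exact Finset.single_le_sum (f := fun y => (u x - u y) ^ 2) (fun i _ => sq_nonneg _)
      (Finset.mem_inter.2 ⟨hxy, hy⟩)
  have h4 : (u x - u y) ^ 2 = 0 := le_antisymm (h3.trans h2) (sq_nonneg _)
  have h5 := pow_eq_zero_iff (two_ne_zero) |>.1 h4
  linarith

theorem RW.e_empty (W : RW V) {A : Set (ℕ → V)} (hA : Inv A) {x : V}
    (hx : (W.nb x).Nonempty) : W.e ∅ A x = ((W.nb x).card : ℝ) * W.h A x := by
  unfold RW.e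
  rw [← W.hK_harm ∅ hA hx (Finset.notMem_empty x), W.hK_empty]

theorem RW.Lop_h (W : RW V) {K : Finset V} (hne : ∀ x ∈ K, (W.nb x).Nonempty)
    {A : Set (ℕ → V)} (hA : Inv A) {x : V} (hx : x ∈ K) :
    W.Lop K (W.h A) x = W.e K A x := by
  have h1 := W.e_eq (Finset.empty_subset K) hne hA hx
  rw [W.e_empty hA (hne x hx)] at h1
  simp_rw [W.hK_empty] at h1
  unfold RW.Lop
  linarith

theorem RW.Lop_hK (W : RW V) {K K' : Finset V} (hKK : K ⊆ K')
    (hne : ∀ x ∈ K', (W.nb x).Nonempty) {A : Set (ℕ → V)} (hA : Inv A) {x : V} (hx : x ∈ K') :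
    W.Lop K' (W.hK K A) x = W.e K' A x - (if x ∈ K then W.e K A x else 0) := by
  have h1 := W.e_eq hKK hne hA hx
  unfold RW.Lop
  by_cases hxK : x ∈ K
  · rw [if_pos hxK, W.hK_of_mem hxK]
    linarith
  · rw [if_neg hxK, W.hK_harm K hA (hne x hx) hxK]
    have : ∑ y ∈ W.nb x, W.hK K A y = W.e K A x := rfl
    rw [this]; linarith

/-- (P1) -/
theorem RW.J_formula (W : RW V) {K K' : Finset V} (hKK : K ⊆ K')
    (hne : ∀ x ∈ K', (W.nb x).Nonempty) {A B : Set (ℕ → V)} (hA : Inv A) (hB : Inv B) :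
    W.J K' A B = W.J K A B + ∑ z ∈ K' \ K, W.hK K A z * W.e K' B z := by
  have h1 := W.Lop_symm K' (W.h B) (W.hK K A)
  have h2 : ∑ x ∈ K', W.h B x * W.Lop K' (W.hK K A) x = W.J K' A B - W.J K A B := by
    have : ∀ x ∈ K', W.h B x * W.Lop K' (W.hK K A) x
        = W.e K' A x * W.h B x - (if x ∈ K then W.e K A x * W.h B x else 0) := by
      intro x hx
      rw [W.Lop_hK hKK hne hA hx]
      split_ifs <;> ring
    rw [Finset.sum_congr rfl this, Finset.sum_sub_distrib, ← Finset.sum_filter,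
      Finset.filter_mem_eq_inter, Finset.inter_eq_right.2 hKK]
    rfl
  have h3 : ∑ x ∈ K', W.hK K A x * W.Lop K' (W.h B) x = ∑ z ∈ K' \ K, W.hK K A z * W.e K' B z := by
    have h4 : ∀ x ∈ K', W.hK K A x * W.Lop K' (W.h B) x = W.hK K A x * W.e K' B x := by
      intro x hx; rw [W.Lop_h hne hB hx]
    rw [Finset.sum_congr rfl h4]
    symm
    apply Finset.sum_subset Finset.sdiff_subset
    intro x hx hx'
    have hxK : x ∈ K := by
      by_contra hcon
      exact hx' (Finset.mem_sdiff.2 ⟨hx, hcon⟩)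
    rw [W.hK_of_mem hxK, zero_mul]
  rw [h2, h3] at h1
  linarith

theorem RW.pot_nonempty_of_mem (W : RW V) {x y : V} (h : y ∈ W.nb x) : (W.nb y).Nonempty :=
  ⟨x, W.symm h⟩

/-- `e` is unchanged when an isolated vertex is added to `K` -/
theorem RW.e_isolated (W : RW V) (K : Finset V) {p : V} (hp : W.nb p = ∅)
    (A : Set (ℕ → V)) (x : V) : W.e (insert p K) A x = W.e K A x := by
  unfold RW.e
  exact Finset.sum_congr rfl fun y hy => W.hK_isolated hp A (W.pot_nonempty_of_mem hy)

/-- (P2) an isolated vertex can be added to `K` -/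
theorem RW.J_isolated (W : RW V) {K : Finset V} {p : V} (hp : W.nb p = ∅)
    (hne : ∀ x ∈ K, (W.nb x).Nonempty) {A B : Set (ℕ → V)} (_hA : Inv A) (_hB : Inv B) :
    W.J (insert p K) A B = W.J K A B := by
  have hpK : p ∉ K := fun h => by
    have := hne p h; rw [hp] at this; exact Finset.not_nonempty_empty this
  unfold RW.J
  rw [Finset.sum_insert hpK]
  have h0 : W.e (insert p K) A p = 0 := by unfold RW.e; rw [hp]; rfl
  rw [h0, zero_mul, zero_add]
  exact Finset.sum_congr rfl fun x _ => by rw [W.e_isolated K hp]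

/-- comparison of `e` in two graphs agreeing off `L` -/
theorem RW.e_congr (W W' : RW V) {L : Finset V} (hout : ∀ z ∉ L, W'.nb z = W.nb z)
    {B : Set (ℕ → V)} (hB : Inv B) {z : V} (hz : W'.nb z = W.nb z) :
    W'.e L B z = W.e L B z := by
  unfold RW.e
  rw [hz]
  refine Finset.sum_congr rfl fun y hy => ?_
  by_cases hyL : y ∈ L
  · rw [W.hK_of_mem hyL, W'.hK_of_mem hyL]
  · exact RW.hK_congr W W' hout hB.1 (W.pot_nonempty_of_mem hy) hyL

/-- (P4) comparison of two graphs which agree outside `K`: the excursions avoiding `K` are the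
same. -/
theorem RW.J_diff_congr (W W' : RW V) {K L : Finset V} (hKL : K ⊆ L)
    (hout : ∀ z ∉ K, W'.nb z = W.nb z)
    (hneL : ∀ x ∈ L \ K, (W.nb x).Nonempty) (hK : ∀ x ∈ K, (W'.nb x).Nonempty)
    {p : V} (hp : p ∈ K) (hWp : W.nb p = ∅) (hKp : ∀ x ∈ K, x ≠ p → (W.nb x).Nonempty)
    {A B : Set (ℕ → V)} (hA : Inv A) (hB : Inv B) :
    W.J (L.erase p) A B - W.J (K.erase p) A B = W'.J L A B - W'.J K A B := by
  have hneL' : ∀ x ∈ L, (W'.nb x).Nonempty := by
    intro x hx
    by_cases hxK : x ∈ K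
    · exact hK x hxK
    · rw [hout x hxK]; exact hneL x (Finset.mem_sdiff.2 ⟨hx, hxK⟩)
  have h1 := W'.J_formula hKL hneL' hA hB
  have hneLp : ∀ x ∈ L.erase p, (W.nb x).Nonempty := by
    intro x hx
    rw [Finset.mem_erase] at hx
    by_cases hxK : x ∈ K
    · exact hKp x hxK hx.1
    · exact hneL x (Finset.mem_sdiff.2 ⟨hx.2, hxK⟩)
  have h2 := W.J_formula (Finset.erase_subset_erase p hKL) hneLp hA hB
  have hset : L.erase p \ K.erase p = L \ K := by
    ext x
    simp only [Finset.mem_sdiff, Finset.mem_erase, not_and]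
    constructor
    · rintro ⟨⟨h3, h4⟩, h5⟩
      exact ⟨h4, h5 h3⟩
    · rintro ⟨h3, h4⟩
      exact ⟨⟨fun h => h4 (h ▸ hp), h3⟩, fun _ => h4⟩
  rw [hset] at h2
  have h3 : ∑ z ∈ L \ K, W.hK (K.erase p) A z * W.e (L.erase p) B z
      = ∑ z ∈ L \ K, W'.hK K A z * W'.e L B z := by
    refine Finset.sum_congr rfl fun z hz => ?_
    have hz' := Finset.mem_sdiff.1 hz
    have hzne := hneL z hz
    have e1 : W.hK (K.erase p) A z = W'.hK K A z := by
      rw [RW.hK_congr W W' hout hA.1 hzne hz'.2]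
      have := W.hK_isolated (K := K.erase p) hWp A hzne
      rw [Finset.insert_erase hp] at this
      exact this.symm
    have e2 : W.e (L.erase p) B z = W'.e L B z := by
      rw [RW.e_congr W W' (fun x hx => hout x (fun h => hx (hKL h))) hB (hout z hz'.2)]
      have := W.e_isolated (L.erase p) hWp B z
      rw [Finset.insert_erase (hKL hp)] at this
      exact this.symm
    rw [e1, e2]
  rw [h1, h2, h3]; ring

theorem RW.Lop_sub (W : RW V) (K : Finset V) (u w : V → ℝ) (x : V) :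
    W.Lop K (fun y => u y - w y) x = W.Lop K u x - W.Lop K w x := by
  unfold RW.Lop
  simp only [mul_sub, Finset.sum_sub_distrib]
  ring

theorem RW.C_isolated_left (W : RW V) (K : Finset V) {p : V} (hp : W.nb p = ∅) (x' : V) :
    W.C K p x' = 0 := by
  unfold RW.C; rw [hp]; simp

/-- (P5) insertion of a vertex `p` of degree three -/
theorem RW.det3 (W W' : RW V) {a b c p : V} (hab : b ∈ W.nb a) (hbc : c ∈ W.nb b) (hac : a ≠ c)
    (hp : W.nb p = ∅) (hp' : W'.nb p = {a, b, c})
    (hout : ∀ z, z ≠ a → z ≠ b → z ≠ c → z ≠ p → W'.nb z = W.nb z)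
    (ha : W'.nb a = insert p (W.nb a)) (hb : W'.nb b = insert p (W.nb b))
    (hc : W'.nb c = insert p (W.nb c))
    {B : Set (ℕ → V)} (hB : Inv B)
    (hJ : W.J {a, b, c} B B = W'.J {a, b, c, p} B B) :
    (W.h B a = W.h B b ∧ W.h B b = W.h B c) ∧ (W'.h B a = W'.h B b ∧ W'.h B b = W'.h B c) := by
  have hKp : ({a, b, c, p} : Finset V) = insert p {a, b, c} := by
    ext x; simp only [Finset.mem_insert, Finset.mem_singleton]; tauto
  rw [hKp] at hJ
  set K : Finset V := {a, b, c} with hKdef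
  have hab' : a ≠ b := fun h => W.irr a (by rw [h] at hab ⊢; exact hab)
  have hbc' : b ≠ c := fun h => W.irr b (by rw [← h] at hbc; exact hbc)
  have hne : ∀ x ∈ K, (W.nb x).Nonempty := by
    intro x hx
    simp only [hKdef, Finset.mem_insert, Finset.mem_singleton] at hx
    rcases hx with rfl | rfl | rfl
    · exact ⟨b, hab⟩
    · exact ⟨c, hbc⟩
    · exact ⟨b, W.symm hbc⟩
  have hpK : p ∉ K := fun h => by
    have := hne p h; rw [hp] at this; exact Finset.not_nonempty_empty this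
  have hnb' : ∀ x ∈ K, W'.nb x = insert p (W.nb x) := by
    intro x hx
    simp only [hKdef, Finset.mem_insert, Finset.mem_singleton] at hx
    rcases hx with rfl | rfl | rfl
    · exact ha
    · exact hb
    · exact hc
  have hne' : ∀ x ∈ insert p K, (W'.nb x).Nonempty := by
    intro x hx
    rw [Finset.mem_insert] at hx
    rcases hx with rfl | hx
    · rw [hp']; exact ⟨a, by simp [hKdef]⟩
    · rw [hnb' x hx]; exact ⟨p, by simp⟩
  have hpnb : ∀ x, p ∉ W.nb x := fun x h => by
    have := W.symm h; rw [hp] at this; exact Finset.notMem_empty x this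
  have hout' : ∀ z ∉ insert p K, W'.nb z = W.nb z := by
    intro z hz
    simp only [hKdef, Finset.mem_insert, Finset.mem_singleton, not_or] at hz
    exact hout z hz.2.1 hz.2.2.1 hz.2.2.2 hz.1
  -- `e` agrees
  have hE : ∀ x ∈ K, W'.e (insert p K) B x = W.e K B x := by
    intro x hx
    rw [← W.e_isolated K hp B x]
    unfold RW.e
    rw [hnb' x hx, Finset.sum_insert (hpnb x), W'.hK_of_mem (Finset.mem_insert_self p K), zero_add]
    refine Finset.sum_congr rfl fun y hy => ?_
    by_cases hyK : y ∈ insert p K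
    · rw [W.hK_of_mem hyK, W'.hK_of_mem hyK]
    · exact RW.hK_congr W W' hout' hB.1 (W.pot_nonempty_of_mem hy) hyK
  have hEp : W'.e (insert p K) B p = 0 := by
    unfold RW.e
    rw [hp']
    exact Finset.sum_eq_zero fun y hy => W'.hK_of_mem (Finset.mem_insert_of_mem hy) _
  -- `C` agrees
  have hC : ∀ x ∈ K, ∀ x' ∈ K, W'.C (insert p K) x x' = W.C K x x' := by
    intro x hx x' hx'
    rw [RW.C_congr W W' hout' x x' (Finset.mem_insert_of_mem hx) (Finset.mem_insert_of_mem hx'),
      W.C_isolated hp (hne x hx) (fun h => hpK (h ▸ hx'))]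
  have hCp : ∀ x' ∈ insert p K, W'.C (insert p K) p x' = 0 := by
    intro x' hx'
    rw [RW.C_congr W W' hout' p x' (Finset.mem_insert_self p K) hx', W.C_isolated_left _ hp]
  have hCp' : ∀ x ∈ K, W'.C (insert p K) x p = 0 := by
    intro x hx
    rw [W'.C_symm _ (Finset.mem_insert_of_mem hx) (Finset.mem_insert_self p K)]
    exact hCp x (Finset.mem_insert_of_mem hx)
  set w := W.h B with hw
  set w' := W'.h B with hw'
  -- equation at `p`
  have hmean : 3 * w' p = w' a + w' b + w' c := by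
    have h1 := W'.Lop_h hne' hB (Finset.mem_insert_self p K)
    rw [hEp] at h1
    unfold RW.Lop at h1
    have h2 : ∑ x' ∈ insert p K, W'.C (insert p K) p x' * W'.h B x' = 0 :=
      Finset.sum_eq_zero fun x' hx' => by rw [hCp x' hx', zero_mul]
    have h3 : W'.nb p ∩ insert p K = K := by
      rw [hp']; exact Finset.inter_eq_left.2 (Finset.subset_insert _ _)
    have h4 : (W'.nb p).card = 3 := by
      rw [hp']; exact Finset.card_eq_three.2 ⟨a, b, c, hab', hac, hbc', rfl⟩
    rw [h2, h3, h4, hKdef, Finset.sum_insert (by simp [hab', hac]),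
      Finset.sum_insert (by simp [hbc']), Finset.sum_singleton] at h1
    push_cast at h1
    linarith
  -- equations at `x ∈ K`
  have hL' : ∀ x ∈ K, W.Lop K w' x = W.e K B x - (w' x - w' p) := by
    intro x hx
    have h1 := W'.Lop_h hne' hB (Finset.mem_insert_of_mem (b := p) hx)
    rw [hE x hx] at h1
    unfold RW.Lop at h1 ⊢
    have h3 : W'.nb x ∩ insert p K = insert p (W.nb x ∩ K) := by
      rw [hnb' x hx, Finset.insert_inter_distrib]
    have h4 : ((W'.nb x).card : ℝ) = ((W.nb x).card : ℝ) + 1 := by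
      rw [hnb' x hx, Finset.card_insert_of_notMem (hpnb x)]; push_cast; ring
    have h5 : ∑ x' ∈ K, W'.C (insert p K) x x' * W'.h B x' = ∑ x' ∈ K, W.C K x x' * W'.h B x' :=
      Finset.sum_congr rfl (fun x' hx' => by rw [hC x hx x' hx'])
    rw [h3, h4, Finset.sum_insert (fun h => hpnb x (Finset.mem_inter.1 h).1),
      Finset.sum_insert hpK, hCp' x hx, zero_mul, zero_add, h5] at h1
    rw [hw']
    linarith
  have hL : ∀ x ∈ K, W.Lop K w x = W.e K B x := fun x hx => W.Lop_h hne hB hx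
  -- the key computation
  have hJ2 : ∑ x ∈ K, W.e K B x * w x = ∑ x ∈ K, W.e K B x * w' x := by
    unfold RW.J at hJ
    rw [Finset.sum_insert hpK, hEp, zero_mul, zero_add] at hJ
    rw [hJ]
    exact Finset.sum_congr rfl fun x hx => by rw [hE x hx]
  have hs := W.Lop_symm K w w'
  have h5 : ∑ x ∈ K, w x * (w' x - w' p) = 0 := by
    have h6 : ∑ x ∈ K, w x * W.Lop K w' x
        = ∑ x ∈ K, W.e K B x * w x - ∑ x ∈ K, w x * (w' x - w' p) := by
      rw [← Finset.sum_sub_distrib]
      exact Finset.sum_congr rfl fun x hx => by rw [hL' x hx]; ring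
    have h7 : ∑ x ∈ K, w' x * W.Lop K w x = ∑ x ∈ K, W.e K B x * w' x :=
      Finset.sum_congr rfl fun x hx => by rw [hL x hx]; ring
    rw [h6, h7] at hs
    linarith
  have h8 : ∑ x ∈ K, (w x - w' x) * W.Lop K (fun y => w y - w' y) x
      = -∑ x ∈ K, (w' x - w' p) ^ 2 := by
    have h9 : ∑ x ∈ K, (w x - w' x) * W.Lop K (fun y => w y - w' y) x
        = ∑ x ∈ K, w x * (w' x - w' p) - ∑ x ∈ K, (w' x - w' p) ^ 2
          - w' p * ∑ x ∈ K, (w' x - w' p) := by
      rw [Finset.mul_sum, ← Finset.sum_sub_distrib, ← Finset.sum_sub_distrib]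
      refine Finset.sum_congr rfl fun x hx => ?_
      rw [W.Lop_sub, hL x hx, hL' x hx]; ring
    have h10 : ∑ x ∈ K, (w' x - w' p) = 0 := by
      rw [hKdef, Finset.sum_insert (by simp [hab', hac]),
      Finset.sum_insert (by simp [hbc']), Finset.sum_singleton]
      linarith
    rw [h9, h5, h10]; ring
  have haK : a ∈ K := by simp [hKdef]
  have hbK : b ∈ K := by simp [hKdef]
  have hcK : c ∈ K := by simp [hKdef]
  have hsq : ∀ x ∈ K, w' x = w' p := by
    have h11 := W.Lop_psd K (fun y => w y - w' y)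
    have h12 : 0 ≤ 1 / 2 * ∑ x ∈ K, ∑ y ∈ W.nb x ∩ K, ((fun y => w y - w' y) x
        - (fun y => w y - w' y) y) ^ 2 :=
      mul_nonneg (by norm_num) (Finset.sum_nonneg fun x _ => Finset.sum_nonneg fun y _ =>
        sq_nonneg _)
    have h13 : ∑ x ∈ K, (w' x - w' p) ^ 2 ≤ 0 := by
      have := h12.trans h11
      rw [h8] at this; linarith
    intro x hx
    have h14 := (Finset.single_le_sum (f := fun x => (w' x - w' p) ^ 2)
      (fun i _ => sq_nonneg _) hx).trans h13
    have h15 : (w' x - w' p) ^ 2 = 0 := le_antisymm h14 (sq_nonneg _)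
    have h16 := pow_eq_zero_iff (two_ne_zero) |>.1 h15
    linarith
  have hz : ∑ x ∈ K, (fun y => w y - w' y) x * W.Lop K (fun y => w y - w' y) x ≤ 0 := by
    have : ∑ x ∈ K, (fun y => w y - w' y) x * W.Lop K (fun y => w y - w' y) x
      = -∑ x ∈ K, (w' x - w' p) ^ 2 := h8
    rw [this]
    exact neg_nonpos.2 (Finset.sum_nonneg fun x _ => sq_nonneg _)
  have e1 := W.Lop_zero K _ hz haK hbK hab
  have e2 := W.Lop_zero K _ hz hbK hcK hbc
  have e3 := hsq a haK
  have e4 := hsq b hbK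
  have e5 := hsq c hcK
  refine ⟨⟨by linarith, by linarith⟩, ⟨by linarith, by linarith⟩⟩

/-- (P6) transfer from `S ∪ {a}` (walk `W₁`) to `S` (walk `W`), for `a` near the vertex `v` -/
theorem RW.det2 (W W₁ : RW V) {v a : V} (hva : v ≠ a) (hWa : W.nb a = ∅)
    (hne : (W.nb v).Nonempty)
    (h1 : v ∈ W₁.nb a) (h2 : W₁.nb a ⊆ insert v (W.nb v)) (h3 : W₁.nb v ⊆ insert a (W.nb v))
    (h4 : ∀ y ∈ W.nb v, y ∈ W₁.nb v ∨ y ∈ W₁.nb a)
    (h5 : ∀ x z, x ≠ v → x ≠ a → z ≠ v → z ≠ a → (z ∈ W₁.nb x ↔ z ∈ W.nb x))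
    {B : Set (ℕ → V)} (hB : Inv B) (h6 : W₁.h B a = W₁.h B v)
    (h7 : ∀ y, y ∈ W₁.nb v → y ∈ W₁.nb a → W₁.h B y = W₁.h B v) :
    ∀ y, y ∈ W₁.nb v → y ∈ W₁.nb a → W.h B y = W.h B v := by
  set K : Finset V := insert v (W.nb v) with hKdef
  have hvK : v ∈ K := Finset.mem_insert_self _ _
  have hanb : ∀ x, a ∉ W.nb x := fun x h => by
    have := W.symm h; rw [hWa] at this; exact Finset.notMem_empty x this
  have haK : a ∉ K := by
    rw [hKdef, Finset.mem_insert, not_or]; exact ⟨fun h => hva h.symm, hanb v⟩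
  have hKne : ∀ x ∈ K, (W.nb x).Nonempty := by
    intro x hx
    rw [hKdef, Finset.mem_insert] at hx
    rcases hx with rfl | hx
    · exact hne
    · exact W.pot_nonempty_of_mem hx
  have hK1ne : ∀ x ∈ insert a K, (W₁.nb x).Nonempty := by
    intro x hx
    rw [Finset.mem_insert, hKdef, Finset.mem_insert] at hx
    rcases hx with rfl | rfl | hx
    · exact ⟨v, h1⟩
    · exact ⟨a, W₁.symm h1⟩
    · rcases h4 x hx with h | h
      · exact W₁.pot_nonempty_of_mem h
      · exact W₁.pot_nonempty_of_mem h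
  have hout : ∀ z ∉ insert a K, W₁.nb z = W.nb z := by
    intro z hz
    simp only [hKdef, Finset.mem_insert, not_or] at hz
    obtain ⟨hza, hzv, hznb⟩ := hz
    have hz1 : z ∉ W₁.nb v := fun h => by
      rcases Finset.mem_insert.1 (h3 h) with h | h
      · exact hza h
      · exact hznb h
    have hz2 : z ∉ W₁.nb a := fun h => by
      rcases Finset.mem_insert.1 (h2 h) with h | h
      · exact hzv h
      · exact hznb h
    ext x
    by_cases hxv : x = v
    · subst hxv
      exact ⟨fun h => absurd (W₁.symm h) hz1, fun h => absurd (W.symm h) hznb⟩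
    · by_cases hxa : x = a
      · subst hxa
        exact ⟨fun h => absurd (W₁.symm h) hz2, fun h => absurd h (hanb z)⟩
      · exact h5 z x hzv hza hxv hxa
  set w := W.h B with hw
  set w1 := W₁.h B with hw1
  -- the outer weights agree
  have hC : ∀ x ∈ K, ∀ x' ∈ K, W₁.C (insert a K) x x' = W.C K x x' := by
    intro x hx x' hx'
    rw [RW.C_congr W W₁ hout x x' (Finset.mem_insert_of_mem hx) (Finset.mem_insert_of_mem hx'),
      W.C_isolated hWa (hKne x hx) (fun h => haK (h ▸ hx'))]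
  have hCa : ∀ x' ∈ insert a K, W₁.C (insert a K) a x' = 0 := by
    intro x' hx'
    rw [RW.C_congr W W₁ hout a x' (Finset.mem_insert_self a K) hx', W.C_isolated_left _ hWa]
  have hCa' : ∀ x ∈ K, W₁.C (insert a K) x a = 0 := by
    intro x hx
    rw [W₁.C_symm _ (Finset.mem_insert_of_mem hx) (Finset.mem_insert_self a K)]
    exact hCa x (Finset.mem_insert_of_mem hx)
  have hCv : ∀ x', W.C K v x' = 0 := by
    intro x'
    unfold RW.C
    rw [Finset.sdiff_eq_empty_iff_subset.2 (Finset.subset_insert v (W.nb v))]; rfl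
  -- the equations in `W₁`
  have hsum1 : ∀ x ∈ K, ∑ x' ∈ insert a K, W₁.C (insert a K) x x' * w1 x'
      = ∑ x' ∈ K, W.C K x x' * w1 x' := by
    intro x hx
    rw [Finset.sum_insert haK, hCa' x hx, zero_mul, zero_add]
    exact Finset.sum_congr rfl fun x' hx' => by rw [hC x hx x' hx']
  have hnbv1 : W₁.nb v ⊆ insert a K := by
    intro z hz
    rcases Finset.mem_insert.1 (h3 hz) with h | h
    · rw [h]; exact Finset.mem_insert_self _ _
    · exact Finset.mem_insert_of_mem (Finset.mem_insert_of_mem h)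
  have hnba1 : W₁.nb a ⊆ insert a K := fun z hz => Finset.mem_insert_of_mem (h2 hz)
  have hev : ∑ z ∈ W₁.nb v, (w1 v - w1 z) = 0 := by
    have e1 := W₁.Lop_h hK1ne hB (Finset.mem_insert_of_mem (b := a) hvK)
    have e2 : W₁.e (insert a K) B v = 0 := by
      unfold RW.e
      exact Finset.sum_eq_zero fun y hy => W₁.hK_of_mem (hnbv1 hy) _
    unfold RW.Lop at e1
    have e4 : ∑ x' ∈ K, W.C K v x' * w1 x' = 0 :=
      Finset.sum_eq_zero fun x' _ => by rw [hCv, zero_mul]
    rw [hsum1 v hvK, e2, Finset.inter_eq_left.2 hnbv1, e4] at e1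
    rw [Finset.sum_sub_distrib, Finset.sum_const, nsmul_eq_mul]
    linarith
  have hea : ∑ z ∈ W₁.nb a, (w1 v - w1 z) = 0 := by
    have e1 := W₁.Lop_h hK1ne hB (Finset.mem_insert_self a K)
    have e2 : W₁.e (insert a K) B a = 0 := by
      unfold RW.e
      exact Finset.sum_eq_zero fun y hy => W₁.hK_of_mem (hnba1 hy) _
    have e3 : ∑ x' ∈ insert a K, W₁.C (insert a K) a x' * W₁.h B x' = 0 :=
      Finset.sum_eq_zero fun x' hx' => by rw [hCa x' hx', zero_mul]
    unfold RW.Lop at e1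
    rw [e3, e2, Finset.inter_eq_left.2 hnba1] at e1
    rw [Finset.sum_sub_distrib, Finset.sum_const, nsmul_eq_mul]
    rw [← hw1] at e1
    rw [h6] at e1
    linarith
  -- `w1` solves the `W` equations
  have hLv : W.Lop K w1 v = W.e K B v := by
    have e2 : W.e K B v = 0 := by
      unfold RW.e
      exact Finset.sum_eq_zero fun y hy => W.hK_of_mem (Finset.mem_insert_of_mem hy) _
    have e4 : ∑ x' ∈ K, W.C K v x' * w1 x' = 0 :=
      Finset.sum_eq_zero fun x' _ => by rw [hCv, zero_mul]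
    have e5 : ∑ z ∈ W.nb v, (w1 v - w1 z) = 0 := by
      have e6 : ∑ z ∈ W₁.nb v, (w1 v - w1 z)
          = ∑ z ∈ W.nb v, if z ∈ W₁.nb v then w1 v - w1 z else 0 := by
        rw [← Finset.sum_filter]
        symm
        apply Finset.sum_subset_zero_on_sdiff
        · intro z hz; exact (Finset.mem_filter.1 hz).2
        · intro z hz
          rw [Finset.mem_sdiff, Finset.mem_filter, not_and] at hz
          rcases Finset.mem_insert.1 (h3 hz.1) with h | h
          · rw [h, h6]; ring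
          · exact absurd hz.1 (hz.2 h)
        · intro z _; rfl
      have e7 : ∑ z ∈ W₁.nb a, (w1 v - w1 z)
          = ∑ z ∈ W.nb v, if z ∈ W₁.nb a then w1 v - w1 z else 0 := by
        rw [← Finset.sum_filter]
        symm
        apply Finset.sum_subset_zero_on_sdiff
        · intro z hz; exact (Finset.mem_filter.1 hz).2
        · intro z hz
          rw [Finset.mem_sdiff, Finset.mem_filter, not_and] at hz
          rcases Finset.mem_insert.1 (h2 hz.1) with h | h
          · rw [h]; ring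
          · exact absurd hz.1 (hz.2 h)
        · intro z _; rfl
      have e8 : ∑ z ∈ W.nb v, (w1 v - w1 z)
          = ∑ z ∈ W.nb v, ((if z ∈ W₁.nb v then w1 v - w1 z else 0)
            + (if z ∈ W₁.nb a then w1 v - w1 z else 0)) := by
        refine Finset.sum_congr rfl fun z hz => ?_
        by_cases hzv : z ∈ W₁.nb v
        · by_cases hza : z ∈ W₁.nb a
          · rw [if_pos hzv, if_pos hza, h7 z hzv hza]; ring
          · rw [if_pos hzv, if_neg hza, add_zero]
        · have hza : z ∈ W₁.nb a := (h4 z hz).resolve_left hzv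
          rw [if_neg hzv, if_pos hza, zero_add]
      rw [e8, Finset.sum_add_distrib, ← e6, ← e7, hev, hea, add_zero]
    unfold RW.Lop
    rw [e2, e4, Finset.inter_eq_left.2 (Finset.subset_insert v (W.nb v))]
    rw [Finset.sum_sub_distrib, Finset.sum_const, nsmul_eq_mul] at e5
    linarith
  have hLy : ∀ y ∈ W.nb v, W.Lop K w1 y = W.e K B y := by
    intro y hy
    have hyK : y ∈ K := Finset.mem_insert_of_mem hy
    have hyv : y ≠ v := fun h => W.irr v (h ▸ hy)
    have hya : y ≠ a := fun h => hanb v (h ▸ hy)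
    have hvy : v ∈ W.nb y := W.symm hy
    have e1 := W₁.Lop_h hK1ne hB (Finset.mem_insert_of_mem (b := a) hyK)
    have hnin : ∀ z, z ∉ insert a K → (z ∈ W₁.nb y ↔ z ∈ W.nb y) := by
      intro z hz
      simp only [hKdef, Finset.mem_insert, not_or] at hz
      exact h5 y z hyv hya hz.2.1 hz.1
    have e2 : W₁.e (insert a K) B y = W.e K B y := by
      rw [← W.e_isolated K hWa B y]
      unfold RW.e
      have e3 : ∀ (W₂ : RW V), ∑ z ∈ W₂.nb y, W₂.hK (insert a K) B z
          = ∑ z ∈ (W₂.nb y) \ (insert a K), W₂.hK (insert a K) B z := by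
        intro W₂
        symm
        apply Finset.sum_subset Finset.sdiff_subset
        intro z hz hz'
        rw [Finset.mem_sdiff, not_and, not_not] at hz'
        exact W₂.hK_of_mem (hz' hz) _
      rw [e3, e3]
      have e4 : W₁.nb y \ insert a K = W.nb y \ insert a K := by
        ext z
        simp only [Finset.mem_sdiff]
        constructor
        · rintro ⟨h, h'⟩; exact ⟨(hnin z h').1 h, h'⟩
        · rintro ⟨h, h'⟩; exact ⟨(hnin z h').2 h, h'⟩
      rw [e4]
      refine Finset.sum_congr rfl fun z hz => ?_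
      rw [Finset.mem_sdiff] at hz
      exact RW.hK_congr W W₁ hout hB.1 (W.pot_nonempty_of_mem hz.1) hz.2
    rw [e2] at e1
    unfold RW.Lop at e1 ⊢
    rw [hsum1 y hyK] at e1
    -- compare the local parts
    have loc : ∀ (N : Finset V) (L : Finset V), N ∩ L ⊆ N →
        (N.card : ℝ) * w1 y - ∑ z ∈ N ∩ L, w1 z
          = ∑ z ∈ N ∩ L, (w1 y - w1 z) + ((N \ L).card : ℝ) * w1 y := by
      intro N L _
      rw [Finset.sum_sub_distrib, Finset.sum_const, nsmul_eq_mul]
      have : (N.card : ℝ) = ((N ∩ L).card : ℝ) + ((N \ L).card : ℝ) := by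
        have := Finset.card_inter_add_card_sdiff N L
        exact_mod_cast this.symm
      rw [this]; ring
    have l1 := loc (W₁.nb y) (insert a K) Finset.inter_subset_left
    have l2 := loc (W.nb y) K Finset.inter_subset_left
    have c1 : W₁.nb y \ insert a K = W.nb y \ K := by
      ext z
      simp only [Finset.mem_sdiff]
      constructor
      · rintro ⟨h, h'⟩
        exact ⟨(hnin z h').1 h, fun h'' => h' (Finset.mem_insert_of_mem h'')⟩
      · rintro ⟨h, h'⟩
        have hz : z ∉ insert a K := by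
          rw [Finset.mem_insert, not_or]
          exact ⟨fun h'' => hanb y (h'' ▸ h), h'⟩
        exact ⟨(hnin z hz).2 h, hz⟩
    have c2 : ∑ z ∈ W₁.nb y ∩ insert a K, (w1 y - w1 z) = ∑ z ∈ W.nb y ∩ K, (w1 y - w1 z) := by
      -- split off the vertices `v`, `a`
      have s1 : ∑ z ∈ W₁.nb y ∩ insert a K, (w1 y - w1 z)
          = ∑ z ∈ (W₁.nb y ∩ insert a K) \ {v, a}, (w1 y - w1 z)
            + ∑ z ∈ (W₁.nb y ∩ insert a K) ∩ {v, a}, (w1 y - w1 z) := by
        rw [add_comm]; exact (Finset.sum_inter_add_sum_sdiff _ _ _).symm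
      have s2 : ∑ z ∈ W.nb y ∩ K, (w1 y - w1 z)
          = ∑ z ∈ (W.nb y ∩ K) \ {v, a}, (w1 y - w1 z)
            + ∑ z ∈ (W.nb y ∩ K) ∩ {v, a}, (w1 y - w1 z) := by
        rw [add_comm]; exact (Finset.sum_inter_add_sum_sdiff _ _ _).symm
      have s3 : (W₁.nb y ∩ insert a K) \ {v, a} = (W.nb y ∩ K) \ {v, a} := by
        ext z
        simp only [Finset.mem_sdiff, Finset.mem_inter, Finset.mem_insert, Finset.mem_singleton,
          not_or]
        constructor
        · rintro ⟨⟨h, h'⟩, hzv, hza⟩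
          exact ⟨⟨(h5 y z hyv hya hzv hza).1 h, h'.resolve_left hza⟩, hzv, hza⟩
        · rintro ⟨⟨h, h'⟩, hzv, hza⟩
          exact ⟨⟨(h5 y z hyv hya hzv hza).2 h, Or.inr h'⟩, hzv, hza⟩
      have s4 : (W.nb y ∩ K) ∩ {v, a} = {v} := by
        ext z
        simp only [Finset.mem_inter, Finset.mem_insert, Finset.mem_singleton]
        constructor
        · rintro ⟨⟨h, _⟩, rfl | rfl⟩
          · rfl
          · exact absurd h (hanb y)
        · rintro rfl
          exact ⟨⟨hvy, hvK⟩, Or.inl rfl⟩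
      have s5 : ∑ z ∈ (W₁.nb y ∩ insert a K) ∩ {v, a}, (w1 y - w1 z) = w1 y - w1 v := by
        by_cases hyv1 : y ∈ W₁.nb v
        · by_cases hya1 : y ∈ W₁.nb a
          · have hz := h7 y hyv1 hya1
            rw [hz, sub_self]
            refine Finset.sum_eq_zero fun z hz' => ?_
            have := (Finset.mem_inter.1 hz').2
            rw [Finset.mem_insert, Finset.mem_singleton] at this
            rcases this with rfl | rfl
            · ring
            · rw [h6]; ring
          · have : (W₁.nb y ∩ insert a K) ∩ {v, a} = {v} := by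
              ext z
              simp only [Finset.mem_inter, Finset.mem_insert, Finset.mem_singleton]
              constructor
              · rintro ⟨⟨h, _⟩, rfl | rfl⟩
                · rfl
                · exact absurd (W₁.symm h) hya1
              · rintro rfl
                exact ⟨⟨W₁.symm hyv1, Or.inr hvK⟩, Or.inl rfl⟩
            rw [this, Finset.sum_singleton]
        · have hya1 : y ∈ W₁.nb a := (h4 y hy).resolve_left hyv1
          have : (W₁.nb y ∩ insert a K) ∩ {v, a} = {a} := by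
            ext z
            simp only [Finset.mem_inter, Finset.mem_insert, Finset.mem_singleton]
            constructor
            · rintro ⟨⟨h, _⟩, rfl | rfl⟩
              · exact absurd (W₁.symm h) hyv1
              · rfl
            · rintro rfl
              exact ⟨⟨W₁.symm hya1, Or.inl rfl⟩, Or.inr rfl⟩
          rw [this, Finset.sum_singleton, h6]
      rw [s1, s2, s3, s4, s5, Finset.sum_singleton]
    rw [c1, c2] at l1
    rw [← hw1] at e1
    linarith
  have hL1 : ∀ x ∈ K, W.Lop K w1 x = W.e K B x := by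
    intro x hx
    rw [hKdef, Finset.mem_insert] at hx
    rcases hx with rfl | hx
    · exact hLv
    · exact hLy x hx
  have hz : ∑ x ∈ K, (fun y => w y - w1 y) x * W.Lop K (fun y => w y - w1 y) x ≤ 0 := by
    apply le_of_eq
    refine Finset.sum_eq_zero fun x hx => ?_
    rw [W.Lop_sub, W.Lop_h hKne hB hx, hL1 x hx, sub_self, mul_zero]
  intro y hyv hya
  have hyK : y ∈ W.nb v := by
    rcases Finset.mem_insert.1 (h3 hyv) with h | h
    · exact absurd hya (h ▸ W₁.irr a)
    · exact h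
  have e1 := W.Lop_zero K _ hz hvK (Finset.mem_insert_of_mem hyK) hyK
  have e2 := h7 y hyv hya
  linarith

end HPV
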