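import Pool.Agent.Helper28.HPV.Path
import Pool.Agent.Helper28.HPV.Potential
import Pool.Agent.Helper28.HPV.Energy
import Pool.Agent.Helper28.HPV.Limit

/-! T15 DensityA: the jump density. -/

open MeasureTheory ProbabilityTheory Set Filter Topology
open scoped ENNReal NNReal Real

namespace HPV

namespace DenA

theorem circ_finite : IsFiniteMeasure circ := by
  unfold circ
  infer_instance

/-- radii of the exhaustion -/
noncomputable def rr (n : ℕ) : ℝ := 1 - 1 / ((n : ℝ) + 2)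

theorem rr_lt (n : ℕ) : rr n < 1 := by
  unfold rr
  have : (0 : ℝ) < 1 / ((n : ℝ) + 2) := by positivity
  linarith

theorem rr_mono : Monotone rr := by
  intro m n h
  unfold rr
  have h1 : (m : ℝ) ≤ n := by exact_mod_cast h
  have h2 : 1 / ((n : ℝ) + 2) ≤ 1 / ((m : ℝ) + 2) :=
    one_div_le_one_div_of_le (by positivity) (by linarith)
  linarith

theorem exists_rr {r : ℝ} (hr : r < 1) : ∃ n, r ≤ rr n := by
  obtain ⟨n, hn⟩ := exists_nat_one_div_lt (show 0 < 1 - r by linarith)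
  refine ⟨n, ?_⟩
  unfold rr
  have h2 : 1 / ((n : ℝ) + 2) ≤ 1 / ((n : ℝ) + 1) :=
    one_div_le_one_div_of_le (by positivity) (by linarith)
  linarith

/-- paths which avoid the closed ball -/
def avB (n : ℕ) : Set (ℕ → ℂ) := {p | ∀ k, p k ∉ Metric.closedBall (0 : ℂ) (rr n)}

theorem measurableSet_avB (n : ℕ) : MeasurableSet (avB n) := by
  have : avB n = ⋂ k, (fun p : ℕ → ℂ => p k) ⁻¹' (Metric.closedBall (0 : ℂ) (rr n))ᶜ := by
    ext p
    simp [avB]
  rw [this]
  exact MeasurableSet.iInter fun k =>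
    (measurable_pi_apply k) Metric.isClosed_closedBall.measurableSet.compl

/-- harmonic measures, as a kernel -/
noncomputable def harmK : Kernel (Cfg × ℂ) ℂ :=
  (pathK.restrict (measurableSet_limEv MeasurableSet.univ)).map limMap

/-- harmonic measures of the walk which avoids the ball -/
noncomputable def harmAv (n : ℕ) : Kernel (Cfg × ℂ) ℂ :=
  (pathK.restrict ((measurableSet_limEv MeasurableSet.univ).inter (measurableSet_avB n))).map limMap

instance : IsFiniteKernel harmK := by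
  unfold harmK
  infer_instance

instance (n : ℕ) : IsFiniteKernel (harmAv n) := by
  unfold harmAv
  infer_instance

theorem harmK_apply (S : Cfg) (x : ℂ) {A : Set ℂ} (hA : MeasurableSet A) :
    harmK (S, x) A = pathK (S, x) (limEv A) := by
  rw [harmK, Kernel.map_apply' _ measurable_limMap _ hA, Kernel.restrict_apply]
  exact (by
    have := bdLaw_apply (pathK (S, x)) hA
    rw [bdLaw, Measure.map_apply measurable_limMap hA] at this
    exact this)

theorem harmAv_apply (n : ℕ) (S : Cfg) (x : ℂ) {A : Set ℂ} (hA : MeasurableSet A) :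
    harmAv n (S, x) A = pathK (S, x) (limEv A ∩ avB n) := by
  rw [harmAv, Kernel.map_apply' _ measurable_limMap _ hA, Kernel.restrict_apply,
    Measure.restrict_apply (measurable_limMap hA)]
  congr 1
  ext p
  constructor
  · rintro ⟨h1, ⟨ξ, _, h2, h3⟩, h4⟩
    rw [mem_preimage, limMap_eq h3] at h1
    exact ⟨⟨ξ, h1, h2, h3⟩, h4⟩
  · rintro ⟨⟨ξ, h1, h2, h3⟩, h4⟩
    refine ⟨?_, ⟨ξ, mem_univ _, h2, h3⟩, h4⟩
    rw [mem_preimage, limMap_eq h3]
    exact h1

/-- density of the harmonic measure -/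
noncomputable def dK (q : Cfg × ℂ) (ξ : ℂ) : ℝ≥0∞ :=
  haveI := circ_finite
  Kernel.rnDeriv harmK (Kernel.const _ circ) q ξ

/-- density of the harmonic measure of the walk which avoids the ball -/
noncomputable def dAv (n : ℕ) (q : Cfg × ℂ) (ξ : ℂ) : ℝ≥0∞ :=
  haveI := circ_finite
  Kernel.rnDeriv (harmAv n) (Kernel.const _ circ) q ξ

theorem measurable_dK : Measurable fun q : (Cfg × ℂ) × ℂ => dK q.1 q.2 := by
  unfold dK
  exact Kernel.measurable_rnDeriv _ _

theorem measurable_dAv (n : ℕ) : Measurable fun q : (Cfg × ℂ) × ℂ => dAv n q.1 q.2 := by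
  unfold dAv
  exact Kernel.measurable_rnDeriv _ _

end DenA

open DenA

/-- Lebesgue null set which carries the singular parts of all harmonic measures -/
noncomputable def nul (S : Cfg) : Set ℂ :=
  ⋃ x ∈ S.1, (Kernel.mutuallySingularSetSlice harmK (Kernel.const _ circ) (S, x) ∪
    ⋃ n, Kernel.mutuallySingularSetSlice (harmAv n) (Kernel.const _ circ) (S, x))

namespace DenA

theorem isLF_countable {S : Set ℂ} (hS : IsLF S) : S.Countable := by
  have : S = ⋃ n : ℕ, S ∩ Metric.closedBall 0 (rr n) := by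
    rw [← inter_iUnion]
    symm
    rw [inter_eq_left]
    intro z hz
    have h1 : ‖z‖ < 1 := by simpa using hS.1 hz
    obtain ⟨n, hn⟩ := exists_rr h1
    exact mem_iUnion.2 ⟨n, by simpa using hn⟩
  rw [this]
  exact countable_iUnion fun n => (hS.2 _ (rr_lt n)).countable

end DenA

theorem measurableSet_nul (S : Cfg) : MeasurableSet (nul S) := by
  have := circ_finite
  refine MeasurableSet.biUnion (isLF_countable S.2) fun x _ => ?_
  exact (Kernel.measurableSet_mutuallySingularSetSlice _ _ _).union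
    (MeasurableSet.iUnion fun n => Kernel.measurableSet_mutuallySingularSetSlice _ _ _)

theorem circ_nul (S : Cfg) : circ (nul S) = 0 := by
  have := circ_finite
  unfold nul
  rw [measure_biUnion_null_iff (isLF_countable S.2)]
  intro x _
  rw [measure_union_null_iff]
  refine ⟨?_, measure_iUnion_null fun n => ?_⟩
  · exact Kernel.measure_mutuallySingularSetSlice harmK (Kernel.const _ circ) (S, x)
  · exact Kernel.measure_mutuallySingularSetSlice (harmAv n) (Kernel.const _ circ) (S, x)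

namespace DenA

theorem harmK_dens (S : Cfg) {x : ℂ} (hx : x ∈ S.1) {A : Set ℂ} (hA : MeasurableSet A)
    (hAN : Disjoint A (nul S)) : harmK (S, x) A = ∫⁻ ξ in A, dK (S, x) ξ ∂circ := by
  have := circ_finite
  have h := Kernel.withDensity_rnDeriv_of_subset_compl_mutuallySingularSetSlice
    (κ := harmK) (η := Kernel.const (Cfg × ℂ) circ) (a := (S, x)) hA (by
      intro ξ hξ hξ2
      refine Set.disjoint_left.1 hAN hξ ?_
      exact mem_biUnion hx (Or.inl hξ2))
  rw [← h, Kernel.withDensity_apply' _ (Kernel.measurable_rnDeriv _ _)]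
  rfl

theorem harmAv_dens (n : ℕ) (S : Cfg) {x : ℂ} (hx : x ∈ S.1) {A : Set ℂ} (hA : MeasurableSet A)
    (hAN : Disjoint A (nul S)) : harmAv n (S, x) A = ∫⁻ ξ in A, dAv n (S, x) ξ ∂circ := by
  have := circ_finite
  have h := Kernel.withDensity_rnDeriv_of_subset_compl_mutuallySingularSetSlice
    (κ := harmAv n) (η := Kernel.const (Cfg × ℂ) circ) (a := (S, x)) hA (by
      intro ξ hξ hξ2
      refine Set.disjoint_left.1 hAN hξ ?_
      exact mem_biUnion hx (Or.inr (mem_iUnion.2 ⟨n, hξ2⟩)))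
  rw [← h, Kernel.withDensity_apply' _ (Kernel.measurable_rnDeriv _ _)]
  rfl

end DenA

/-- off `nul S` the harmonic measures are absolutely continuous -/
theorem h_eq_zero (S : Cfg) (hS : Reg S.1) {x : ℂ} (hx : x ∈ S.1) {A : Set ℂ}
    (hA : MeasurableSet A) (hAN : Disjoint A (nul S)) (h0 : circ A = 0) :
    (walk S hS).h (limEv A) x = 0 := by
  have h1 := harmK_dens S hx hA hAN
  rw [setLIntegral_measure_zero _ _ h0, harmK_apply S x hA] at h1
  change (pathK (S, x)).real (limEv A) = 0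
  rw [Measure.real, h1, ENNReal.toReal_zero]

namespace DenA

/-! ### the density -/

theorem lintegral_cnt (S : Cfg) (K : Finset ℂ) (hK : (K : Set ℂ) ⊆ S.1) {F : ℂ → ℝ≥0∞}
    (hF : ∀ x ∈ S.1, x ∉ K → F x = 0) : ∫⁻ x, F x ∂(cnt S) = ∑ x ∈ K, F x := by
  have h1 : (cnt S : Measure ℂ) = Measure.count.restrict S.1 := rfl
  rw [h1]
  have hm : MeasurableSet S.1 := (isLF_countable S.2).measurableSet
  calc ∫⁻ x in S.1, F x ∂Measure.count
      = ∫⁻ x in S.1, (K : Set ℂ).indicator F x ∂Measure.count := by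
        refine setLIntegral_congr_fun hm fun x hx => ?_
        by_cases hxK : x ∈ K
        · simp [hxK]
        · simp [hxK, hF x hx hxK]
    _ = ∫⁻ x in (K : Set ℂ), F x ∂Measure.count := by
        rw [lintegral_indicator K.measurableSet, Measure.restrict_restrict K.measurableSet,
          inter_eq_left.2 hK]
    _ = ∑ x ∈ K, F x := by
        rw [lintegral_finset]
        simp

theorem measurable_VAdjInd :
    Measurable fun q : Cfg × (ℂ × ℂ) => VAdjInd q.1.1 q.2.1 q.2.2 := by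
  unfold VAdjInd
  exact Measurable.ite measurableSet_VAdj measurable_const measurable_const

/-- partial densities -/
noncomputable def jn (n : ℕ) (S : Cfg) (x : ℂ × ℂ) : ℝ≥0∞ :=
  ∫⁻ z, (Metric.closedBall (0 : ℂ) (rr n)).indicator 1 z *
    ((∫⁻ y, VAdjInd S.1 z y * dAv n (S, y) x.1 ∂(cnt S)) * dK (S, z) x.2) ∂(cnt S)

theorem measurable_jn (n : ℕ) : Measurable fun q : Cfg × (ℂ × ℂ) => jn n q.1 q.2 := by
  unfold jn
  have h1 : Measurable fun q : (Cfg × ℂ × ℂ) × ℂ =>
      VAdjInd q.1.1.1 q.1.2.1 q.2 * dAv n (q.1.1, q.2) q.1.2.2 := by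
    refine Measurable.mul ?_ ?_
    · exact measurable_VAdjInd.comp (f := fun q : (Cfg × ℂ × ℂ) × ℂ => (q.1.1, (q.1.2.1, q.2)))
        (by fun_prop)
    · exact (measurable_dAv n).comp
        (f := fun q : (Cfg × ℂ × ℂ) × ℂ => ((q.1.1, q.2), q.1.2.2)) (by fun_prop)
  have h2 : Measurable fun q : Cfg × ℂ × ℂ =>
      ∫⁻ y, VAdjInd q.1.1 q.2.1 y * dAv n (q.1, y) q.2.2 ∂(cnt q.1) :=
    Measurable.lintegral_kernel_prod_right' (κ := cnt.comap (Prod.fst : Cfg × ℂ × ℂ → Cfg)
      measurable_fst) h1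
  have h3 : Measurable fun q : (Cfg × (ℂ × ℂ)) × ℂ =>
      (Metric.closedBall (0 : ℂ) (rr n)).indicator 1 q.2 *
    ((∫⁻ y, VAdjInd q.1.1.1 q.2 y * dAv n (q.1.1, y) q.1.2.1 ∂(cnt q.1.1))
      * dK (q.1.1, q.2) q.1.2.2) := by
    refine Measurable.mul ?_ (Measurable.mul ?_ ?_)
    · exact (measurable_one.indicator Metric.isClosed_closedBall.measurableSet).comp
        measurable_snd
    · exact h2.comp (f := fun q : (Cfg × (ℂ × ℂ)) × ℂ => (q.1.1, (q.2, q.1.2.1))) (by fun_prop)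
    · exact measurable_dK.comp
        (f := fun q : (Cfg × (ℂ × ℂ)) × ℂ => ((q.1.1, q.2), q.1.2.2)) (by fun_prop)
  exact Measurable.lintegral_kernel_prod_right' (κ := cnt.comap (Prod.fst : Cfg × ℂ × ℂ → Cfg)
      measurable_fst) h3

end DenA

/-- density of the jump measure with respect to `circ.prod circ` -/
noncomputable def jd (S : Cfg) (x : ℂ × ℂ) : ℝ≥0∞ := ⨆ n, jn n S x

theorem measurable_jd : Measurable fun q : Cfg × (ℂ × ℂ) => jd q.1 q.2 := by
  unfold jd
  exact Measurable.iSup fun n => measurable_jn n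

namespace DenA

/-- the exhaustion -/
noncomputable def Kn (n : ℕ) (S : Cfg) : Finset ℂ := (S.2.2 (rr n) (rr_lt n)).toFinset

theorem mem_Kn {n : ℕ} {S : Cfg} {z : ℂ} :
    z ∈ Kn n S ↔ z ∈ S.1 ∧ z ∈ Metric.closedBall (0 : ℂ) (rr n) := by
  rw [Kn, Finite.mem_toFinset, mem_inter_iff]

theorem Kn_subset (n : ℕ) (S : Cfg) : (Kn n S : Set ℂ) ⊆ S.1 := fun _ hz => (mem_Kn.1 hz).1

theorem Kn_mono (S : Cfg) : Monotone fun n => Kn n S := by
  intro m n h z hz
  rw [mem_Kn] at hz ⊢
  exact ⟨hz.1, Metric.closedBall_subset_closedBall (rr_mono h) hz.2⟩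

theorem exists_Kn (S : Cfg) {z : ℂ} (hz : z ∈ S.1) : ∃ n, z ∈ Kn n S := by
  have h1 : ‖z‖ < 1 := by simpa using S.2.1 hz
  obtain ⟨n, hn⟩ := exists_rr h1
  exact ⟨n, mem_Kn.2 ⟨hz, by simpa using hn⟩⟩

theorem nbr_subset (S : Cfg) (hS : Reg S.1) (z : ℂ) : (nbr S.1 z : Set ℂ) ⊆ S.1 := by
  intro y hy
  exact ((mem_nbr hS).1 hy).2.1

theorem jn_eq (S : Cfg) (hS : Reg S.1) (n : ℕ) (x : ℂ × ℂ) :
    jn n S x = ∑ z ∈ Kn n S, (∑ y ∈ nbr S.1 z, dAv n (S, y) x.1) * dK (S, z) x.2 := by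
  unfold jn
  rw [lintegral_cnt S (Kn n S) (Kn_subset n S)]
  · refine Finset.sum_congr rfl fun z hz => ?_
    rw [indicator_of_mem (mem_Kn.1 hz).2, Pi.one_apply, one_mul]
    congr 1
    rw [lintegral_cnt S (nbr S.1 z) (nbr_subset S hS z)]
    · refine Finset.sum_congr rfl fun y hy => ?_
      rw [VAdjInd, if_pos ((mem_nbr hS).1 hy), one_mul]
    · intro y _ hy
      rw [VAdjInd, if_neg (fun h => hy ((mem_nbr hS).2 h)), zero_mul]
  · intro z hz hzK
    rw [indicator_of_notMem (fun h => hzK (mem_Kn.2 ⟨hz, h⟩)), zero_mul]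

theorem measurable_pcons (x : ℂ) : Measurable (pcons x) := by
  rw [measurable_pi_iff]
  intro n
  cases n with
  | zero => exact measurable_const
  | succ n => exact measurable_pi_apply n

theorem pathK_mem (S : Cfg) (hS : Reg S.1) (k : ℕ) : ∀ {x : ℂ}, x ∈ S.1 →
    pathK (S, x) {p | p k ∉ S.1} = 0 := by
  have hm : MeasurableSet S.1 := (isLF_countable S.2).measurableSet
  induction k with
  | zero =>
    intro x hx
    have h := pathK_start S x
    rw [ae_iff] at h
    refine measure_mono_null ?_ h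
    intro p hp h1
    exact hp (by rw [h1]; exact hx)
  | succ k ih =>
    intro x hx
    have h1 : MeasurableSet {p : ℕ → ℂ | p (k + 1) ∉ S.1} := by
      have h2 : Measurable fun p : ℕ → ℂ => p (k + 1) := measurable_pi_apply (k + 1)
      exact h2 hm.compl
    rw [pathK_step S hS hx, Measure.smul_apply, Measure.finsetSum_apply, Finset.sum_eq_zero,
      smul_zero]
    intro y hy
    rw [Measure.map_apply (measurable_pcons x) h1]
    exact ih (nbr_subset S hS x hy)

theorem pathK_av (S : Cfg) (hS : Reg S.1) (n : ℕ) {x : ℂ} (hx : x ∈ S.1) (E : Set (ℕ → ℂ)) :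
    pathK (S, x) (E ∩ avoid (Kn n S)) = pathK (S, x) (E ∩ avB n) := by
  apply measure_congr
  have h1 : ∀ᵐ p ∂(pathK (S, x)), ∀ k, p k ∈ S.1 := by
    rw [ae_all_iff]
    intro k
    rw [ae_iff]
    exact pathK_mem S hS k hx
  filter_upwards [h1] with p hp
  have h2 : p ∈ avoid (Kn n S) ↔ p ∈ avB n := by
    refine forall_congr' fun k => not_congr ?_
    rw [mem_Kn]
    exact ⟨fun h => h.2, fun h => ⟨hp k, h⟩⟩
  exact propext (and_congr Iff.rfl h2)

theorem ofReal_h (S : Cfg) (hS : Reg S.1) (x : ℂ) {B : Set ℂ} (hB : MeasurableSet B) :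
    ENNReal.ofReal ((walk S hS).h (limEv B) x) = harmK (S, x) B := by
  rw [harmK_apply S x hB]
  exact ofReal_measureReal (measure_ne_top (pathK (S, x)) _)

theorem ofReal_hK (S : Cfg) (hS : Reg S.1) (n : ℕ) {x : ℂ} (hx : x ∈ S.1) {B : Set ℂ}
    (hB : MeasurableSet B) :
    ENNReal.ofReal ((walk S hS).hK (Kn n S) (limEv B) x) = harmAv n (S, x) B := by
  rw [harmAv_apply n S x hB, ← pathK_av S hS n hx]
  exact ofReal_measureReal (measure_ne_top (pathK (S, x)) _)

theorem ofReal_e (S : Cfg) (hS : Reg S.1) (n : ℕ) {x : ℂ} {B : Set ℂ}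
    (hB : MeasurableSet B) :
    ENNReal.ofReal ((walk S hS).e (Kn n S) (limEv B) x) =
      ∑ y ∈ nbr S.1 x, harmAv n (S, y) B := by
  rw [RW.e, ENNReal.ofReal_sum_of_nonneg (fun y _ => RW.hK_nonneg _ _ _ _)]
  exact Finset.sum_congr rfl fun y hy => ofReal_hK S hS n (nbr_subset S hS x hy) hB

theorem e_nn {V : Type*} [MeasurableSpace V] [MeasurableSingletonClass V] [DecidableEq V]
    (W : RW V) (K : Finset V) (A : Set (ℕ → V)) (x : V) : 0 ≤ W.e K A x :=
  Finset.sum_nonneg fun y _ => RW.hK_nonneg W K A y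

theorem h_nn {V : Type*} [MeasurableSpace V] (W : RW V) (A : Set (ℕ → V)) (x : V) :
    0 ≤ W.h A x := measureReal_nonneg

theorem ofReal_J (S : Cfg) (hS : Reg S.1) (n : ℕ) {A B : Set ℂ} (hA : MeasurableSet A)
    (hB : MeasurableSet B) :
    ENNReal.ofReal ((walk S hS).J (Kn n S) (limEv A) (limEv B)) =
      ∑ z ∈ Kn n S, (∑ y ∈ nbr S.1 z, harmAv n (S, y) A) * harmK (S, z) B := by
  rw [RW.J, ENNReal.ofReal_sum_of_nonneg
    (fun y _ => mul_nonneg (e_nn _ _ _ _) (h_nn _ _ _))]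
  refine Finset.sum_congr rfl fun z _ => ?_
  rw [ENNReal.ofReal_mul (e_nn _ _ _ _), ofReal_e S hS n hA, ofReal_h S hS z hB]

theorem lint_prod {f g : ℂ → ℝ≥0∞} (hf : Measurable f) (hg : Measurable g) (A B : Set ℂ) :
    ∫⁻ x in A ×ˢ B, f x.1 * g x.2 ∂(circ.prod circ) =
      (∫⁻ x in A, f x ∂circ) * ∫⁻ x in B, g x ∂circ := by
  have := circ_finite
  rw [← Measure.prod_restrict, lintegral_prod_mul hf.aemeasurable hg.aemeasurable]

theorem meas_dK (q : Cfg × ℂ) : Measurable (dK q) :=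
  measurable_dK.comp measurable_prodMk_left

theorem meas_dAv (n : ℕ) (q : Cfg × ℂ) : Measurable (dAv n q) :=
  (measurable_dAv n).comp measurable_prodMk_left

theorem int_jn (S : Cfg) (hS : Reg S.1) (n : ℕ) {A B : Set ℂ} (hA : MeasurableSet A)
    (hB : MeasurableSet B) (hAN : Disjoint A (nul S)) (hBN : Disjoint B (nul S)) :
    ∫⁻ x in A ×ˢ B, jn n S x ∂(circ.prod circ) =
      ENNReal.ofReal ((walk S hS).J (Kn n S) (limEv A) (limEv B)) := by
  rw [ofReal_J S hS n hA hB]
  simp_rw [jn_eq S hS n]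
  have hm1 : ∀ z, Measurable fun ξ => ∑ y ∈ nbr S.1 z, dAv n (S, y) ξ := fun z =>
    Finset.measurable_sum _ fun y _ => meas_dAv n (S, y)
  rw [lintegral_finsetSum]
  · refine Finset.sum_congr rfl fun z hz => ?_
    rw [lint_prod (hm1 z) (meas_dK (S, z)), harmK_dens S (Kn_subset n S hz) hB hBN,
      lintegral_finsetSum _ fun y _ => meas_dAv n (S, y)]
    congr 1
    refine Finset.sum_congr rfl fun y hy => ?_
    rw [harmAv_dens n S (nbr_subset S hS z hy) hA hAN]
  · intro z _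
    exact ((hm1 z).comp measurable_fst).mul ((meas_dK (S, z)).comp measurable_snd)

theorem jn_meas (n : ℕ) (S : Cfg) : Measurable (jn n S) :=
  (measurable_jn n).comp measurable_prodMk_left

/-- the increment of the densities -/
noncomputable def dl (n : ℕ) (S : Cfg) (x : ℂ × ℂ) : ℝ≥0∞ :=
  ∑ z ∈ Kn (n + 1) S \ Kn n S, dAv n (S, z) x.1 * ∑ y ∈ nbr S.1 z, dAv (n + 1) (S, y) x.2

theorem dl_meas (n : ℕ) (S : Cfg) : Measurable (dl n S) := by
  unfold dl
  refine Finset.measurable_sum _ fun z _ => ?_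
  exact ((meas_dAv n (S, z)).comp measurable_fst).mul
    ((Finset.measurable_sum _ fun y _ => meas_dAv (n + 1) (S, y)).comp measurable_snd)

theorem int_dl (S : Cfg) (hS : Reg S.1) (n : ℕ) {A B : Set ℂ} (hA : MeasurableSet A)
    (hB : MeasurableSet B) (hAN : Disjoint A (nul S)) (hBN : Disjoint B (nul S)) :
    ∫⁻ x in A ×ˢ B, dl n S x ∂(circ.prod circ) =
      ENNReal.ofReal (∑ z ∈ Kn (n + 1) S \ Kn n S,
        (walk S hS).hK (Kn n S) (limEv A) z * (walk S hS).e (Kn (n + 1) S) (limEv B) z) := by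
  rw [ENNReal.ofReal_sum_of_nonneg
    (fun z _ => mul_nonneg (RW.hK_nonneg _ _ _ _) (e_nn _ _ _ _))]
  unfold dl
  have hm1 : ∀ z, Measurable fun ξ => ∑ y ∈ nbr S.1 z, dAv (n + 1) (S, y) ξ := fun z =>
    Finset.measurable_sum _ fun y _ => meas_dAv (n + 1) (S, y)
  rw [lintegral_finsetSum]
  · refine Finset.sum_congr rfl fun z hz => ?_
    have hzS : z ∈ S.1 := Kn_subset (n + 1) S (Finset.sdiff_subset hz)
    rw [lint_prod (meas_dAv n (S, z)) (hm1 z), ENNReal.ofReal_mul (RW.hK_nonneg _ _ _ _),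
      ofReal_hK S hS n hzS hA, ofReal_e S hS (n + 1) hB, harmAv_dens n S hzS hA hAN,
      lintegral_finsetSum _ fun y _ => meas_dAv (n + 1) (S, y)]
    congr 1
    refine Finset.sum_congr rfl fun y hy => ?_
    rw [harmAv_dens (n + 1) S (nbr_subset S hS z hy) hB hBN]
  · intro z _
    exact ((meas_dAv n (S, z)).comp measurable_fst).mul ((hm1 z).comp measurable_snd)

theorem walk_ne (S : Cfg) (hS : Reg S.1) {x : ℂ} (hx : x ∈ S.1) :
    ((walk S hS).nb x).Nonempty := by
  obtain ⟨y, hy⟩ := (hS x hx).2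
  exact ⟨y, (mem_nbr hS).2 hy⟩

theorem J_mono (S : Cfg) (hS : Reg S.1) {K K' : Finset ℂ} (hKK : K ⊆ K')
    (hK' : (K' : Set ℂ) ⊆ S.1) {A B : Set ℂ} (hA : MeasurableSet A) (hB : MeasurableSet B) :
    (walk S hS).J K (limEv A) (limEv B) ≤ (walk S hS).J K' (limEv A) (limEv B) := by
  rw [RW.J_formula (walk S hS) hKK (fun x hx => walk_ne S hS (hK' hx)) (limEv_inv hA)
    (limEv_inv hB)]
  exact le_add_of_nonneg_right (Finset.sum_nonneg fun z _ =>
    mul_nonneg (RW.hK_nonneg _ _ _ _) (e_nn _ _ _ _))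

theorem J_nonneg (S : Cfg) (hS : Reg S.1) (K : Finset ℂ) (A B : Set (ℕ → ℂ)) :
    0 ≤ (walk S hS).J K A B :=
  Finset.sum_nonneg fun _ _ => mul_nonneg (e_nn _ _ _ _) (h_nn _ _ _)

theorem int_jn_succ (S : Cfg) (hS : Reg S.1) (n : ℕ) {A B : Set ℂ} (hA : MeasurableSet A)
    (hB : MeasurableSet B) (hAN : Disjoint A (nul S)) (hBN : Disjoint B (nul S)) :
    ∫⁻ x in A ×ˢ B, (jn n S x + dl n S x) ∂(circ.prod circ) =
      ∫⁻ x in A ×ˢ B, jn (n + 1) S x ∂(circ.prod circ) := by
  rw [lintegral_add_left (jn_meas n S), int_jn S hS n hA hB hAN hBN, int_dl S hS n hA hB hAN hBN,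
    int_jn S hS (n + 1) hA hB hAN hBN, ← ENNReal.ofReal_add (J_nonneg _ _ _ _ _)
      (Finset.sum_nonneg fun z _ => mul_nonneg (RW.hK_nonneg _ _ _ _) (e_nn _ _ _ _)),
    ← RW.J_formula (walk S hS) (Kn_mono S (Nat.le_succ n))
      (fun x hx => walk_ne S hS (Kn_subset (n + 1) S hx)) (limEv_inv hA) (limEv_inv hB)]

theorem jn_le_succ (S : Cfg) (hS : Reg S.1) (n : ℕ) :
    ∀ᵐ x ∂((circ.prod circ).restrict ((nul S)ᶜ ×ˢ (nul S)ᶜ)), jn n S x ≤ jn (n + 1) S x := by
  have := circ_finite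
  have hN : MeasurableSet (nul S)ᶜ := (measurableSet_nul S).compl
  have hfin : ∫⁻ x in (nul S)ᶜ ×ˢ (nul S)ᶜ, (jn n S x + dl n S x) ∂(circ.prod circ) ≠ ∞ := by
    rw [int_jn_succ S hS n hN hN disjoint_compl_left disjoint_compl_left,
      int_jn S hS (n + 1) hN hN disjoint_compl_left disjoint_compl_left]
    exact ENNReal.ofReal_ne_top
  have hm1 : Measurable fun x => jn n S x + dl n S x := (jn_meas n S).add (dl_meas n S)
  have h1 : ((circ.prod circ).restrict ((nul S)ᶜ ×ˢ (nul S)ᶜ)).withDensity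
      (fun x => jn n S x + dl n S x) =
      ((circ.prod circ).restrict ((nul S)ᶜ ×ˢ (nul S)ᶜ)).withDensity (jn (n + 1) S) := by
    have hf : IsFiniteMeasure (((circ.prod circ).restrict ((nul S)ᶜ ×ˢ (nul S)ᶜ)).withDensity
      (fun x => jn n S x + dl n S x)) := isFiniteMeasure_withDensity hfin
    refine Measure.ext_prod fun {A B} hA hB => ?_
    rw [withDensity_apply _ (hA.prod hB), withDensity_apply _ (hA.prod hB),
      Measure.restrict_restrict (hA.prod hB), prod_inter_prod]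
    exact int_jn_succ S hS n (hA.inter hN) (hB.inter hN)
      (disjoint_compl_left.mono_left inter_subset_right)
      (disjoint_compl_left.mono_left inter_subset_right)
  rw [withDensity_eq_iff hm1.aemeasurable (jn_meas (n + 1) S).aemeasurable hfin] at h1
  filter_upwards [h1] with x hx
  rw [← hx]
  exact le_self_add

theorem int_jd (S : Cfg) (hS : Reg S.1) {A B : Set ℂ} (hA : MeasurableSet A)
    (hB : MeasurableSet B) (hAN : Disjoint A (nul S)) (hBN : Disjoint B (nul S)) :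
    ∫⁻ x in A ×ˢ B, jd S x ∂(circ.prod circ) =
      ⨆ n, ENNReal.ofReal ((walk S hS).J (Kn n S) (limEv A) (limEv B)) := by
  unfold jd
  rw [lintegral_iSup_ae (fun n => jn_meas n S)]
  · exact iSup_congr fun n => int_jn S hS n hA hB hAN hBN
  · intro n
    exact ae_restrict_of_ae_restrict_of_subset
      (prod_mono (subset_compl_iff_disjoint_right.2 hAN) (subset_compl_iff_disjoint_right.2 hBN))
      (jn_le_succ S hS n)

theorem exists_subset_of_mono {K : ℕ → Finset ℂ} (hK : Monotone K) (L : Finset ℂ)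
    (h : ∀ x ∈ L, ∃ n, x ∈ K n) : ∃ n, L ⊆ K n := by
  induction L using Finset.induction_on with
  | empty => exact ⟨0, Finset.empty_subset _⟩
  | insert a s _ ih =>
    obtain ⟨n, hn⟩ := ih fun x hx => h x (Finset.mem_insert_of_mem hx)
    obtain ⟨m, hm⟩ := h a (Finset.mem_insert_self a s)
    refine ⟨max n m, Finset.insert_subset (hK (le_max_right n m) hm) ?_⟩
    exact hn.trans (hK (le_max_left n m))

end DenA

/-- the jump density integrates to the limit of the `J K_n` -/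
theorem jd_rect (S : Cfg) (hS : Good S.1) {A B : Set ℂ} (hA : MeasurableSet A)
    (hB : MeasurableSet B) (hAN : Disjoint A (nul S)) (hBN : Disjoint B (nul S))
    (K : ℕ → Finset ℂ) (hK : Monotone K) (hKS : ∀ n, (K n : Set ℂ) ⊆ S.1)
    (hKex : ∀ x ∈ S.1, ∃ n, x ∈ K n) :
    Tendsto (fun n => ENNReal.ofReal ((walk S hS.reg).J (K n) (limEv A) (limEv B))) atTop
      (𝓝 (∫⁻ x in A ×ˢ B, jd S x ∂(circ.prod circ))) := by
  have h1 : Monotone fun n =>
      ENNReal.ofReal ((walk S hS.reg).J (K n) (limEv A) (limEv B)) := fun m n h =>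
    ENNReal.ofReal_le_ofReal (J_mono S hS.reg (hK h) (hKS n) hA hB)
  have h2 : ∫⁻ x in A ×ˢ B, jd S x ∂(circ.prod circ) =
      ⨆ n, ENNReal.ofReal ((walk S hS.reg).J (K n) (limEv A) (limEv B)) := by
    rw [int_jd S hS.reg hA hB hAN hBN]
    refine le_antisymm (iSup_le fun n => ?_) (iSup_le fun n => ?_)
    · obtain ⟨m, hm⟩ := exists_subset_of_mono hK (Kn n S) fun x hx => hKex x (Kn_subset n S hx)
      exact (ENNReal.ofReal_le_ofReal (J_mono S hS.reg hm (hKS m) hA hB)).trans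
        (le_iSup (fun n => ENNReal.ofReal ((walk S hS.reg).J (K n) (limEv A) (limEv B))) m)
    · obtain ⟨m, hm⟩ := exists_subset_of_mono (Kn_mono S) (K n) fun x hx =>
        exists_Kn S (hKS n hx)
      exact (ENNReal.ofReal_le_ofReal (J_mono S hS.reg hm (Kn_subset m S) hA hB)).trans
        (le_iSup (fun n => ENNReal.ofReal ((walk S hS.reg).J (Kn n S) (limEv A) (limEv B))) m)
  rw [h2]
  exact tendsto_atTop_iSup h1

end HPV
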