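import Pool.Agent.Helper28.HPV.DensityA

/-! T16 DensityB, part jd_finite. -/

open MeasureTheory ProbabilityTheory Set Filter Topology
open scoped ENNReal NNReal Real

namespace HPV

namespace DenB

theorem circ_finite : IsFiniteMeasure circ := by
  unfold circ
  infer_instance

theorem circ_sphere : ∀ᵐ ξ ∂circ, ‖ξ‖ = 1 := by
  unfold circ
  have hm : Measurable fun θ : ℝ => Complex.exp (θ * Complex.I) := by fun_prop
  have hs : MeasurableSet {ξ : ℂ | ‖ξ‖ = 1} := measurableSet_eq_fun measurable_norm measurable_const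
  rw [ae_map_iff hm.aemeasurable hs]
  exact Eventually.of_forall fun θ => Complex.norm_exp_ofReal_mul_I θ

theorem isLF_countable {S : Set ℂ} (hS : IsLF S) : S.Countable := by
  have : S = ⋃ n : ℕ, S ∩ Metric.closedBall 0 (1 - 1 / ((n : ℝ) + 2)) := by
    rw [← inter_iUnion]
    symm
    rw [inter_eq_left]
    intro z hz
    have h1 : ‖z‖ < 1 := by simpa using hS.1 hz
    obtain ⟨n, hn⟩ := exists_nat_one_div_lt (show 0 < 1 - ‖z‖ by linarith)
    refine mem_iUnion.2 ⟨n, ?_⟩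
    rw [mem_closedBall_zero_iff]
    have h2 : 1 / ((n : ℝ) + 2) ≤ 1 / ((n : ℝ) + 1) :=
      one_div_le_one_div_of_le (by positivity) (by linarith)
    linarith
  rw [this]
  refine countable_iUnion fun n => (hS.2 _ ?_).countable
  have : (0 : ℝ) < 1 / ((n : ℝ) + 2) := by positivity
  linarith

/-- exhaustion -/
theorem rn_lt (n : ℕ) : 1 - 1 / ((n : ℝ) + 2) < 1 := by
  have : (0 : ℝ) < 1 / ((n : ℝ) + 2) := by positivity
  linarith

noncomputable def Vn (S : Cfg) (n : ℕ) : Finset ℂ := (S.2.2 _ (rn_lt n)).toFinset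

theorem mem_Vn {n : ℕ} {S : Cfg} {z : ℂ} :
    z ∈ Vn S n ↔ z ∈ S.1 ∧ ‖z‖ ≤ 1 - 1 / ((n : ℝ) + 2) := by
  rw [Vn, Finite.mem_toFinset, mem_inter_iff, mem_closedBall_zero_iff]

theorem Vn_mono (S : Cfg) : Monotone (Vn S) := by
  intro m n h z hz
  rw [mem_Vn] at hz ⊢
  refine ⟨hz.1, hz.2.trans ?_⟩
  have h1 : (m : ℝ) ≤ n := by exact_mod_cast h
  have h2 : 1 / ((n : ℝ) + 2) ≤ 1 / ((m : ℝ) + 2) :=
    one_div_le_one_div_of_le (by positivity) (by linarith)
  linarith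

theorem exists_Vn (S : Cfg) {z : ℂ} (hz : z ∈ S.1) : ∃ n, z ∈ Vn S n := by
  have h1 : ‖z‖ < 1 := by simpa using S.2.1 hz
  obtain ⟨n, hn⟩ := exists_nat_one_div_lt (show 0 < 1 - ‖z‖ by linarith)
  refine ⟨n, mem_Vn.2 ⟨hz, ?_⟩⟩
  have h2 : 1 / ((n : ℝ) + 2) ≤ 1 / ((n : ℝ) + 1) :=
    one_div_le_one_div_of_le (by positivity) (by linarith)
  linarith

theorem nb_nonempty_iff (S : Cfg) (hS : Reg S.1) {x : ℂ} :
    ((walk S hS).nb x).Nonempty ↔ x ∈ S.1 := by
  constructor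
  · rintro ⟨y, hy⟩
    exact ((mem_nbr hS).1 hy).1
  · intro hx
    obtain ⟨y, hy⟩ := (hS x hx).2
    exact ⟨y, (mem_nbr hS).2 hy⟩

/-- the Dirichlet energy of the identity -/
noncomputable def En (S : Cfg) : ℝ≥0∞ :=
  ∫⁻ x, ∫⁻ y, (VAdjInd S.1 x y) * ENNReal.ofReal (‖x - y‖ ^ 2)
      ∂(Measure.count.restrict S.1) ∂(Measure.count.restrict S.1)

theorem sum_le_lint (S : Cfg) (F : Finset ℂ) (hF : (F : Set ℂ) ⊆ S.1) (G : ℂ → ℝ≥0∞) :
    ∑ x ∈ F, G x ≤ ∫⁻ x, G x ∂(Measure.count.restrict S.1) := by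
  calc ∑ x ∈ F, G x = ∫⁻ x in (F : Set ℂ), G x ∂Measure.count := by
        rw [lintegral_finset]; simp
    _ ≤ ∫⁻ x in S.1, G x ∂Measure.count := lintegral_mono_set hF

theorem sum_energy (S : Cfg) (hS : Reg S.1) (F : Finset ℂ) (hF : (F : Set ℂ) ⊆ S.1) :
    ∑ x ∈ F, ∑ y ∈ nbr S.1 x, ENNReal.ofReal (‖x - y‖ ^ 2) ≤ En S := by
  unfold En
  refine le_trans (Finset.sum_le_sum fun x hx => ?_)
    (sum_le_lint S F hF fun x => ∫⁻ y, (VAdjInd S.1 x y) * ENNReal.ofReal (‖x - y‖ ^ 2)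
      ∂(Measure.count.restrict S.1))
  refine le_trans (le_of_eq ?_) (sum_le_lint S (nbr S.1 x)
    (fun y hy => ((mem_nbr hS).1 hy).2.1)
    (fun y => (VAdjInd S.1 x y) * ENNReal.ofReal (‖x - y‖ ^ 2)))
  refine Finset.sum_congr rfl fun y hy => ?_
  rw [VAdjInd, if_pos ((mem_nbr hS).1 hy), one_mul]

theorem lip_energy (S : Cfg) (hS : Good S.1) {f : ℂ → ℝ} {L : ℝ}
    (hf : ∀ x y, |f x - f y| ≤ L * ‖x - y‖) (F : Finset ℂ)
    (hF : ∀ x ∈ F, ((walk S hS.reg).nb x).Nonempty) :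
    ∑ x ∈ F, ∑ y ∈ (walk S hS.reg).nb x, (f x - f y) ^ 2 ≤ L ^ 2 * (En S).toReal := by
  have h1 : (F : Set ℂ) ⊆ S.1 := fun x hx => (nb_nonempty_iff S hS.reg).1 (hF x hx)
  have h2 : ∑ x ∈ F, ∑ y ∈ (walk S hS.reg).nb x, ‖x - y‖ ^ 2 ≤ (En S).toReal := by
    have h3 := sum_energy S hS.reg F h1
    have h4 : En S ≠ ∞ := hS.energy
    rw [← ENNReal.toReal_le_toReal (ne_top_of_le_ne_top h4 h3) h4] at h3
    refine le_trans (le_of_eq ?_) h3
    rw [ENNReal.toReal_sum (fun x _ => ENNReal.sum_ne_top.2 fun y _ => ENNReal.ofReal_ne_top)]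
    refine Finset.sum_congr rfl fun x _ => ?_
    rw [ENNReal.toReal_sum (fun y _ => ENNReal.ofReal_ne_top)]
    refine Finset.sum_congr rfl fun y _ => ?_
    rw [ENNReal.toReal_ofReal (by positivity)]
  calc ∑ x ∈ F, ∑ y ∈ (walk S hS.reg).nb x, (f x - f y) ^ 2
      ≤ ∑ x ∈ F, ∑ y ∈ (walk S hS.reg).nb x, L ^ 2 * ‖x - y‖ ^ 2 := by
        refine Finset.sum_le_sum fun x _ => Finset.sum_le_sum fun y _ => ?_
        rw [← sq_abs, ← mul_pow]
        exact pow_le_pow_left₀ (abs_nonneg _) (hf x y) 2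
    _ = L ^ 2 * ∑ x ∈ F, ∑ y ∈ (walk S hS.reg).nb x, ‖x - y‖ ^ 2 := by
        simp_rw [Finset.mul_sum]
    _ ≤ L ^ 2 * (En S).toReal := mul_le_mul_of_nonneg_left h2 (sq_nonneg L)

/-- the cutoff function, equal to `1` on `closedBall a r` and `0` outside `ball a (2 r)` -/
noncomputable def cf (a : ℂ) (r : ℝ) (z : ℂ) : ℝ := max (min (2 - ‖z - a‖ / r) 1) 0

theorem cf_lip (a : ℂ) {r : ℝ} (hr : 0 < r) (x y : ℂ) :
    |cf a r x - cf a r y| ≤ (1 / r) * ‖x - y‖ := by
  unfold cf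
  refine (abs_max_sub_max_le_abs _ _ _).trans ((abs_min_sub_min_le_max _ _ _ _).trans ?_)
  rw [sub_self, abs_zero, max_eq_left (abs_nonneg _)]
  have h1 : 2 - ‖x - a‖ / r - (2 - ‖y - a‖ / r) = (1 / r) * (‖y - a‖ - ‖x - a‖) := by
    field_simp
    ring
  rw [h1, abs_mul, abs_of_pos (by positivity)]
  refine mul_le_mul_of_nonneg_left ?_ (by positivity)
  refine (abs_norm_sub_norm_le _ _).trans (le_of_eq ?_)
  rw [sub_sub_sub_cancel_right, norm_sub_rev]

theorem cf_cont (a : ℂ) (r : ℝ) : Continuous (cf a r) := by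
  unfold cf
  fun_prop

theorem cf_nonneg (a : ℂ) (r : ℝ) (z : ℂ) : 0 ≤ cf a r z := le_max_right _ _

theorem cf_le_one (a : ℂ) (r : ℝ) (z : ℂ) : cf a r z ≤ 1 :=
  max_le (min_le_right _ _) zero_le_one

theorem cf_one {a : ℂ} {r : ℝ} (hr : 0 < r) {z : ℂ} (h : ‖z - a‖ ≤ r) : cf a r z = 1 := by
  unfold cf
  have h1 : ‖z - a‖ / r ≤ 1 := (div_le_one hr).2 h
  rw [min_eq_right (by linarith), max_eq_left zero_le_one]

theorem cf_zero {a : ℂ} {r : ℝ} (hr : 0 < r) {z : ℂ} (h : 2 * r ≤ ‖z - a‖) : cf a r z = 0 := by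
  unfold cf
  have h1 : 2 ≤ ‖z - a‖ / r := (le_div_iff₀ hr).2 h
  rw [max_eq_right]
  exact (min_le_left _ _).trans (by linarith)

theorem lim_facts (S : Cfg) {a : ℂ} {r : ℝ} (hr : 0 < r) {A : Set ℂ}
    (hA : A ⊆ Metric.closedBall a r) (p : ℕ → ℂ) (hp : p ∈ limEv A) :
    (∀ n, ∀ᶠ k in atTop, p k ∉ Vn S n) ∧ Tendsto (fun k => cf a r (p k)) atTop (𝓝 1) := by
  obtain ⟨ξ, hξ, h1, h2⟩ := hp
  constructor
  · intro n
    have h3 : Tendsto (fun k => ‖p k‖) atTop (𝓝 1) := by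
      rw [← h1]
      exact (continuous_norm.tendsto ξ).comp h2
    filter_upwards [h3.eventually (lt_mem_nhds (rn_lt n))] with k hk hk2
    exact absurd (mem_Vn.1 hk2).2 (not_le.2 hk)
  · have h4 : cf a r ξ = 1 := cf_one hr (by
      have := hA hξ
      rwa [mem_closedBall_iff_norm] at this)
    rw [← h4]
    exact ((cf_cont a r).tendsto ξ).comp h2

theorem rect_finite (S : Cfg) (hS : Good S.1) {r : ℝ} (hr : 0 < r) {a b : ℂ}
    (hab : 4 * r ≤ ‖a - b‖) :
    ∫⁻ x in (Metric.closedBall a r \ nul S) ×ˢ (Metric.closedBall b r \ nul S), jd S x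
      ∂(circ.prod circ) ≠ ∞ := by
  have hmA : MeasurableSet (Metric.closedBall a r \ nul S) :=
    Metric.isClosed_closedBall.measurableSet.diff (measurableSet_nul S)
  have hmB : MeasurableSet (Metric.closedBall b r \ nul S) :=
    Metric.isClosed_closedBall.measurableSet.diff (measurableSet_nul S)
  have h1 := jd_rect S hS hmA hmB disjoint_sdiff_left disjoint_sdiff_left (Vn S) (Vn_mono S)
    (fun n x hx => (mem_Vn.1 hx).1) (fun x hx => exists_Vn S hx)
  set E := (1 / r) ^ 2 * (En S).toReal with hE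
  refine ne_top_of_le_ne_top (b := ENNReal.ofReal (√(E * E))) ENNReal.ofReal_ne_top ?_
  refine le_of_tendsto h1 (Eventually.of_forall fun n => ENNReal.ofReal_le_ofReal ?_)
  refine RW.energy_bound (walk S hS.reg) (Vn S) (Vn_mono S)
    (fun x hx => exists_Vn S ((nb_nonempty_iff S hS.reg).1 hx))
    (fun n x hx => (nb_nonempty_iff S hS.reg).2 (mem_Vn.1 hx).1)
    (cf a r) (cf b r) (cf_cont a r).measurable (cf_cont b r).measurable
    (cf_nonneg a r) (cf_le_one a r) (cf_nonneg b r) (cf_le_one b r) ?_ E E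
    (fun F hF => lip_energy S hS (cf_lip a hr) F hF)
    (fun F hF => lip_energy S hS (cf_lip b hr) F hF)
    (measurableSet_limEv hmA) (measurableSet_limEv hmB)
    (fun p hp => lim_facts S hr sdiff_subset p hp)
    (fun p hp => lim_facts S hr sdiff_subset p hp)
    (Vn S n) (fun x hx => (nb_nonempty_iff S hS.reg).2 (mem_Vn.1 hx).1)
  intro z
  by_cases hz : 2 * r ≤ ‖z - a‖
  · rw [cf_zero hr hz, zero_mul]
  · rw [cf_zero hr (z := z) (a := b), mul_zero]
    have h2 : ‖a - b‖ ≤ ‖z - a‖ + ‖z - b‖ := by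
      have h3 : a - b = -(z - a) + (z - b) := by ring
      rw [h3]
      exact (norm_add_le _ _).trans (by rw [norm_neg])
    push Not at hz
    linarith

theorem nbr_sub (S : Cfg) (hS : Reg S.1) (z : ℂ) : (nbr S.1 z : Set ℂ) ⊆ S.1 := by
  intro y hy
  exact ((mem_nbr hS).1 hy).2.1

theorem meas_pcons (x : ℂ) : Measurable (pcons x) := by
  rw [measurable_pi_iff]
  intro n
  cases n with
  | zero => exact measurable_const
  | succ n => exact measurable_pi_apply n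

theorem pathK_mem' (S : Cfg) (hS : Reg S.1) (k : ℕ) : ∀ {x : ℂ}, x ∈ S.1 →
    pathK (S, x) {p | p k ∉ S.1} = 0 := by
  have hm : MeasurableSet S.1 := (isLF_countable S.2).measurableSet
  induction k with
  | zero =>
    intro x hx
    have h := pathK_start S x
    rw [ae_iff] at h
    refine measure_mono_null ?_ h
    intro p hp h1
    exact hp (by rw [h1]; exact hx)
  | succ k ih =>
    intro x hx
    have h1 : MeasurableSet {p : ℕ → ℂ | p (k + 1) ∉ S.1} := by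
      have h2 : Measurable fun p : ℕ → ℂ => p (k + 1) := measurable_pi_apply (k + 1)
      exact h2 hm.compl
    rw [pathK_step S hS hx, Measure.smul_apply, Measure.finsetSum_apply, Finset.sum_eq_zero,
      smul_zero]
    intro y hy
    rw [Measure.map_apply (meas_pcons x) h1]
    exact ih (nbr_sub S hS x hy)

theorem ae_mem (S : Cfg) (hS : Reg S.1) {x : ℂ} (hx : x ∈ S.1) :
    ∀ᵐ p ∂(pathK (S, x)), ∀ k, p k ∈ disc := by
  rw [ae_all_iff]
  intro k
  rw [ae_iff]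
  refine measure_mono_null ?_ (pathK_mem' S hS k hx)
  intro p hp h1
  exact hp (S.2.1 h1)

theorem norm_le_of_disc {z : ℂ} (hz : z ∈ disc) : ‖z‖ ≤ 1 := by
  have : ‖z‖ < 1 := by simpa using hz
  exact this.le

theorem inj_disc (g : Mob) : Set.InjOn g.f disc := by
  intro x hx y hy h
  rw [← g.inv_f (norm_le_of_disc hx), h, g.inv_f (norm_le_of_disc hy)]

theorem tendsto_mob (g : Mob) {p : ℕ → ℂ} (hp : ∀ n, p n ∈ disc) {ξ : ℂ} (hξ : ‖ξ‖ = 1)
    (h : Tendsto p atTop (𝓝 ξ)) : Tendsto (fun n => g.f (p n)) atTop (𝓝 (g.f ξ)) := by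
  have h1 : ContinuousWithinAt g.f (Metric.closedBall 0 1) ξ :=
    g.continuousOn_f ξ (by simp [hξ])
  have h2 : Tendsto p atTop (𝓝[Metric.closedBall 0 1] ξ) :=
    tendsto_nhdsWithin_iff.2 ⟨h, Eventually.of_forall fun n => by
      rw [mem_closedBall_zero_iff]; exact norm_le_of_disc (hp n)⟩
  exact h1.tendsto.comp h2

theorem limEv_mob (g : Mob) {A : Set ℂ} {p : ℕ → ℂ} (hp : ∀ n, p n ∈ disc) :
    (fun n => g.f (p n)) ∈ limEv (g.inv.f ⁻¹' A) ↔ p ∈ limEv A := by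
  constructor
  · rintro ⟨η, h1, h2, h3⟩
    refine ⟨g.inv.f η, h1, g.inv.norm_eq_one h2, ?_⟩
    have h4 := tendsto_mob g.inv (p := fun n => g.f (p n)) (fun n => g.mem_disc (hp n)) h2 h3
    refine h4.congr fun n => ?_
    exact g.inv_f (norm_le_of_disc (hp n))
  · rintro ⟨ξ, h1, h2, h3⟩
    refine ⟨g.f ξ, ?_, g.norm_eq_one h2, tendsto_mob g hp h2 h3⟩
    rw [mem_preimage, g.inv_f h2.le]
    exact h1

open Classical in
theorem avoid_mob (g : Mob) {K : Finset ℂ} (hK : (K : Set ℂ) ⊆ disc) {p : ℕ → ℂ}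
    (hp : ∀ n, p n ∈ disc) : (fun n => g.f (p n)) ∈ avoid (K.image g.f) ↔ p ∈ avoid K := by
  refine forall_congr' fun n => not_congr ?_
  rw [Finset.mem_image]
  constructor
  · rintro ⟨z, hz, h⟩
    rw [← inj_disc g (hK hz) (hp n) h]
    exact hz
  · intro h
    exact ⟨_, h, rfl⟩

theorem meas_path (g : Mob) : Measurable fun (p : ℕ → ℂ) (n : ℕ) => g.f (p n) := by
  rw [measurable_pi_iff]
  intro n
  exact g.measurable_f.comp (measurable_pi_apply n)

theorem meas_avoid (K : Finset ℂ) : MeasurableSet (avoid K) := by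
  have : avoid K = ⋂ n, (fun p : ℕ → ℂ => p n) ⁻¹' ((K : Set ℂ)ᶜ) := by
    ext p
    simp [avoid]
  rw [this]
  exact MeasurableSet.iInter fun n =>
    (measurable_pi_apply n) K.measurableSet.compl

open Classical in
theorem hK_mob (g : Mob) (S : Cfg) (hS : Reg S.1) (hgS : Reg (g.act S).1) {K : Finset ℂ}
    (hK : (K : Set ℂ) ⊆ S.1) {A : Set ℂ} (hA : MeasurableSet A) {y : ℂ} (hy : y ∈ S.1) :
    (walk (g.act S) hgS).hK (K.image g.f) (limEv (g.inv.f ⁻¹' A)) (g.f y) =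
      (walk S hS).hK K (limEv A) y := by
  show (pathK (g.act S, g.f y)).real _ = (pathK (S, y)).real _
  rw [pathK_mob g S hS hy, map_measureReal_apply (meas_path g)
    ((measurableSet_limEv (g.inv.measurable_f hA)).inter (meas_avoid _))]
  rw [measureReal_def, measureReal_def]
  congr 1
  apply measure_congr
  filter_upwards [ae_mem S hS hy] with p hp
  exact propext (and_congr (limEv_mob g hp) (avoid_mob g (hK.trans S.2.1) hp))

theorem h_mob (g : Mob) (S : Cfg) (hS : Reg S.1) (hgS : Reg (g.act S).1)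
    {A : Set ℂ} (hA : MeasurableSet A) {y : ℂ} (hy : y ∈ S.1) :
    (walk (g.act S) hgS).h (limEv (g.inv.f ⁻¹' A)) (g.f y) =
      (walk S hS).h (limEv A) y := by
  show (pathK (g.act S, g.f y)).real _ = (pathK (S, y)).real _
  rw [pathK_mob g S hS hy, map_measureReal_apply (meas_path g)
    (measurableSet_limEv (g.inv.measurable_f hA))]
  rw [measureReal_def, measureReal_def]
  congr 1
  apply measure_congr
  filter_upwards [ae_mem S hS hy] with p hp
  exact propext (limEv_mob g hp)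

open Classical in
theorem nbr_mob (g : Mob) (S : Cfg) {x : ℂ} (hx : x ∈ S.1) :
    nbr (g.act S).1 (g.f x) = (nbr S.1 x).image g.f := by
  apply Finset.coe_injective
  rw [Finset.coe_image]
  exact g.nbr_image S.2.1 (S.2.1 hx)

open Classical in
theorem J_mob (g : Mob) (S : Cfg) (hS : Reg S.1) (hgS : Reg (g.act S).1) {K : Finset ℂ}
    (hK : (K : Set ℂ) ⊆ S.1) {A B : Set ℂ} (hA : MeasurableSet A) (hB : MeasurableSet B) :
    (walk (g.act S) hgS).J (K.image g.f) (limEv (g.inv.f ⁻¹' A)) (limEv (g.inv.f ⁻¹' B)) =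
      (walk S hS).J K (limEv A) (limEv B) := by
  rw [RW.J, RW.J, Finset.sum_image]
  · refine Finset.sum_congr rfl fun x hx => ?_
    have hxS : x ∈ S.1 := hK hx
    rw [h_mob g S hS hgS hB hxS]
    congr 1
    rw [RW.e, RW.e]
    show ∑ y ∈ nbr (g.act S).1 (g.f x), _ = ∑ y ∈ nbr S.1 x, _
    rw [nbr_mob g S hxS, Finset.sum_image]
    · refine Finset.sum_congr rfl fun y hy => ?_
      exact hK_mob g S hS hgS hK hA (nbr_sub S hS x hy)
    · exact (inj_disc g).mono ((nbr_sub S hS x).trans S.2.1)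
  · exact (inj_disc g).mono (hK.trans S.2.1)

theorem limEv_sphere (A : Set ℂ) : limEv (A ∩ Metric.sphere 0 1) = limEv A := by
  ext p
  constructor
  · rintro ⟨ξ, h1, h2, h3⟩
    exact ⟨ξ, h1.1, h2, h3⟩
  · rintro ⟨ξ, h1, h2, h3⟩
    exact ⟨ξ, ⟨h1, by simpa using h2⟩, h2, h3⟩

/-- the image of a subset of the circle -/
def im (g : Mob) (A : Set ℂ) : Set ℂ := g.inv.f ⁻¹' A ∩ Metric.sphere 0 1

theorem meas_im (g : Mob) {A : Set ℂ} (hA : MeasurableSet A) : MeasurableSet (im g A) :=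
  (g.inv.measurable_f hA).inter Metric.isClosed_sphere.measurableSet

open Classical in
/-- the two jump densities have the same integrals over rectangles -/
theorem rect_mob (g : Mob) (S : Cfg) (hS : Good S.1) {A B : Set ℂ} (hA : MeasurableSet A)
    (hB : MeasurableSet B) (hAN : Disjoint A (nul S)) (hBN : Disjoint B (nul S))
    (hAN' : Disjoint (im g A) (nul (g.act S)))
    (hBN' : Disjoint (im g B) (nul (g.act S))) :
    ∫⁻ x in (im g A) ×ˢ (im g B), jd (g.act S) x ∂(circ.prod circ) =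
      ∫⁻ x in A ×ˢ B, jd S x ∂(circ.prod circ) := by
  have hgS : Good (g.act S).1 := g.good_image hS
  have h1 := jd_rect S hS hA hB hAN hBN (Vn S) (Vn_mono S)
    (fun n x hx => (mem_Vn.1 hx).1) (fun x hx => exists_Vn S hx)
  have h2 := jd_rect (g.act S) hgS (meas_im g hA) (meas_im g hB) hAN' hBN'
    (fun n => (Vn S n).image g.f) (fun m n h => Finset.image_subset_image (Vn_mono S h))
    (fun n x hx => by
      obtain ⟨z, hz, rfl⟩ := Finset.mem_image.1 (Finset.mem_coe.1 hx)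
      exact ⟨z, (mem_Vn.1 hz).1, rfl⟩)
    (fun x hx => by
      obtain ⟨z, hz, rfl⟩ := hx
      obtain ⟨n, hn⟩ := exists_Vn S hz
      exact ⟨n, Finset.mem_image_of_mem _ hn⟩)
  refine tendsto_nhds_unique h2 (h1.congr fun n => ?_)
  rw [im, im, limEv_sphere, limEv_sphere,
    J_mob g S hS.reg hgS.reg (fun x hx => (mem_Vn.1 hx).1) hA hB]

theorem circ_sing (ξ : ℂ) : circ {ξ} = 0 := by
  have hm : Measurable fun θ : ℝ => Complex.exp (θ * Complex.I) := by fun_prop
  rw [circ, Measure.map_apply hm (measurableSet_singleton ξ),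
    Measure.restrict_apply (hm (measurableSet_singleton ξ))]
  apply Set.Subsingleton.measure_zero
  rintro θ ⟨h1, h2⟩ θ' ⟨h1', h2'⟩
  have h3 : Complex.exp (θ * Complex.I) = Complex.exp (θ' * Complex.I) := by
    rw [mem_preimage, mem_singleton_iff] at h1 h1'
    rw [h1, h1']
  have := Complex.exp_inj_of_neg_pi_lt_of_le_pi (x := θ * Complex.I) (y := θ' * Complex.I)
    (by simpa using h2.1) (by simpa using h2.2) (by simpa using h2'.1) (by simpa using h2'.2) h3
  have h4 := mul_right_cancel₀ Complex.I_ne_zero this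
  exact_mod_cast h4

theorem ae_ne : ∀ᵐ x ∂(circ.prod circ), x.1 ≠ x.2 := by
  have := circ_finite
  have hmd : MeasurableSet {x : ℂ × ℂ | x.1 = x.2} := measurableSet_eq_fun measurable_fst
    measurable_snd
  rw [ae_iff]
  have h0 : {a : ℂ × ℂ | ¬ a.1 ≠ a.2} = {x : ℂ × ℂ | x.1 = x.2} := by
    ext x
    simp
  rw [h0, Measure.prod_apply hmd]
  have : ∀ ξ : ℂ, circ (Prod.mk ξ ⁻¹' {x : ℂ × ℂ | x.1 = x.2}) = 0 := by
    intro ξ
    have h1 : (Prod.mk ξ ⁻¹' {x : ℂ × ℂ | x.1 = x.2} : Set ℂ) = {ξ} := by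
      ext η
      simp [eq_comm]
    rw [h1, circ_sing]
  rw [lintegral_congr this, lintegral_zero]

theorem meas_der (g : Mob) : Measurable g.der := by
  unfold Mob.der
  fun_prop

/-- change of variables in both coordinates -/
theorem cv2 (g : Mob) (hcv : ∀ F : ℂ → ℝ≥0∞, Measurable F →
    ∫⁻ ξ, F (g.f ξ) * ENNReal.ofReal (g.der ξ) ∂circ = ∫⁻ ξ, F ξ ∂circ)
    {G : ℂ × ℂ → ℝ≥0∞} (hG : Measurable G) :
    ∫⁻ x, G (g.f x.1, g.f x.2) * ENNReal.ofReal (g.der x.1) * ENNReal.ofReal (g.der x.2)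
      ∂(circ.prod circ) = ∫⁻ x, G x ∂(circ.prod circ) := by
  have := circ_finite
  have hd : Measurable fun z => ENNReal.ofReal (g.der z) := (meas_der g).ennreal_ofReal
  have hm : Measurable fun x : ℂ × ℂ =>
      G (g.f x.1, g.f x.2) * ENNReal.ofReal (g.der x.1) * ENNReal.ofReal (g.der x.2) := by
    refine ((hG.comp ?_).mul (hd.comp measurable_fst)).mul (hd.comp measurable_snd)
    exact (g.measurable_f.comp measurable_fst).prodMk (g.measurable_f.comp measurable_snd)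
  rw [lintegral_prod _ hm.aemeasurable, lintegral_prod _ hG.aemeasurable]
  rw [← hcv (fun ξ => ∫⁻ η, G (ξ, η) ∂circ) hG.lintegral_prod_right']
  refine lintegral_congr fun ξ => ?_
  rw [← hcv (fun η => G (g.f ξ, η)) (hG.comp measurable_prodMk_left),
    ← lintegral_mul_const _ (by
      exact ((hG.comp measurable_prodMk_left).comp g.measurable_f).mul hd)]
  refine lintegral_congr fun η => ?_
  simp only
  ring

theorem circ_pre (g : Mob) (hcv : ∀ F : ℂ → ℝ≥0∞, Measurable F →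
    ∫⁻ ξ, F (g.f ξ) * ENNReal.ofReal (g.der ξ) ∂circ = ∫⁻ ξ, F ξ ∂circ)
    {N : Set ℂ} (hN : MeasurableSet N) (h0 : circ N = 0) : circ (g.f ⁻¹' N) = 0 := by
  have h1 := hcv (N.indicator 1) (measurable_one.indicator hN)
  rw [lintegral_indicator_one hN, h0] at h1
  have hm : Measurable fun ξ => N.indicator (1 : ℂ → ℝ≥0∞) (g.f ξ) * ENNReal.ofReal (g.der ξ) :=
    ((measurable_one.indicator hN).comp g.measurable_f).mul (meas_der g).ennreal_ofReal
  rw [lintegral_eq_zero_iff hm] at h1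
  rw [measure_eq_zero_iff_ae_notMem]
  filter_upwards [h1, circ_sphere] with ξ h2 h3 h4
  have h5 : (0 : ℝ) < g.der ξ := g.der_pos h3.le
  have h6 : N.indicator (1 : ℂ → ℝ≥0∞) (g.f ξ) * ENNReal.ofReal (g.der ξ) = 0 := h2
  have h7 : N.indicator (1 : ℂ → ℝ≥0∞) (g.f ξ) = 1 :=
    indicator_of_mem (show g.f ξ ∈ N from h4) _
  rw [h7, one_mul, ENNReal.ofReal_eq_zero] at h6
  exact absurd h5 (not_lt.2 h6)

/-- the exceptional set -/
noncomputable def NN (g : Mob) (S : Cfg) : Set ℂ := nul S ∪ g.f ⁻¹' nul (g.act S)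

theorem meas_NN (g : Mob) (S : Cfg) : MeasurableSet (NN g S) :=
  (measurableSet_nul S).union (g.measurable_f (measurableSet_nul _))

/-- the transported density -/
noncomputable def jg (g : Mob) (S : Cfg) (x : ℂ × ℂ) : ℝ≥0∞ :=
  jd (g.act S) (g.f x.1, g.f x.2) * ENNReal.ofReal (g.der x.1) * ENNReal.ofReal (g.der x.2)

theorem meas_jd (S : Cfg) : Measurable (jd S) := measurable_jd.comp measurable_prodMk_left

theorem meas_jg (g : Mob) (S : Cfg) : Measurable (jg g S) := by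
  have hd : Measurable fun z => ENNReal.ofReal (g.der z) := (meas_der g).ennreal_ofReal
  refine (((meas_jd (g.act S)).comp ?_).mul (hd.comp measurable_fst)).mul
    (hd.comp measurable_snd)
  exact (g.measurable_f.comp measurable_fst).prodMk (g.measurable_f.comp measurable_snd)

theorem rect_jg (g : Mob) (hcv : ∀ F : ℂ → ℝ≥0∞, Measurable F →
    ∫⁻ ξ, F (g.f ξ) * ENNReal.ofReal (g.der ξ) ∂circ = ∫⁻ ξ, F ξ ∂circ)
    (S : Cfg) (hS : Good S.1) {A B : Set ℂ} (hA : MeasurableSet A)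
    (hB : MeasurableSet B) (hAN : Disjoint A (NN g S)) (hBN : Disjoint B (NN g S)) :
    ∫⁻ x in A ×ˢ B, jg g S x ∂(circ.prod circ) =
      ∫⁻ x in A ×ˢ B, jd S x ∂(circ.prod circ) := by
  have := circ_finite
  have hdis : ∀ {A : Set ℂ}, Disjoint A (NN g S) → Disjoint (im g A) (nul (g.act S)) := by
    intro A hAN
    rw [Set.disjoint_left]
    rintro y ⟨h1, h2⟩ h3
    have h4 : ‖y‖ = 1 := by simpa using h2
    refine Set.disjoint_left.1 hAN h1 (Or.inr ?_)
    rw [mem_preimage, g.f_inv h4.le]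
    exact h3
  rw [← rect_mob g S hS hA hB (hAN.mono_right subset_union_left)
    (hBN.mono_right subset_union_left) (hdis hAN) (hdis hBN)]
  have hm : MeasurableSet ((im g A) ×ˢ (im g B)) := (meas_im g hA).prod (meas_im g hB)
  rw [← lintegral_indicator hm, ← lintegral_indicator (hA.prod hB),
    ← cv2 g hcv ((meas_jd (g.act S)).indicator hm)]
  refine lintegral_congr_ae ?_
  have h2 : ∀ᵐ x ∂(circ.prod circ), ‖x.1‖ = 1 :=
    Measure.quasiMeasurePreserving_fst.ae circ_sphere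
  have h3 : ∀ᵐ x ∂(circ.prod circ), ‖x.2‖ = 1 :=
    Measure.quasiMeasurePreserving_snd.ae circ_sphere
  filter_upwards [h2, h3] with x hx hy
  have h4 : ∀ {A : Set ℂ} {ξ : ℂ}, ‖ξ‖ = 1 → (g.f ξ ∈ im g A ↔ ξ ∈ A) := by
    intro A ξ hξ
    rw [im, mem_inter_iff, mem_preimage, g.inv_f hξ.le]
    exact ⟨fun h => h.1, fun h => ⟨h, by simpa using g.norm_eq_one hξ⟩⟩
  by_cases hxA : x ∈ A ×ˢ B
  · rw [indicator_of_mem hxA, indicator_of_mem]
    · rfl
    · exact ⟨(h4 hx).2 hxA.1, (h4 hy).2 hxA.2⟩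
  · rw [indicator_of_notMem hxA, indicator_of_notMem, zero_mul, zero_mul]
    intro h5
    exact hxA ⟨(h4 hx).1 h5.1, (h4 hy).1 h5.2⟩

theorem ae_rect (g : Mob) (hcv : ∀ F : ℂ → ℝ≥0∞, Measurable F →
    ∫⁻ ξ, F (g.f ξ) * ENNReal.ofReal (g.der ξ) ∂circ = ∫⁻ ξ, F ξ ∂circ)
    (S : Cfg) (hS : Good S.1) {r : ℝ} (hr : 0 < r) {a b : ℂ} (hab : 4 * r ≤ ‖a - b‖) :
    ∀ᵐ x ∂((circ.prod circ).restrict ((Metric.closedBall a r \ NN g S) ×ˢ
      (Metric.closedBall b r \ NN g S))), jg g S x = jd S x := by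
  have := circ_finite
  have hmA : MeasurableSet (Metric.closedBall a r \ NN g S) :=
    Metric.isClosed_closedBall.measurableSet.diff (meas_NN g S)
  have hmB : MeasurableSet (Metric.closedBall b r \ NN g S) :=
    Metric.isClosed_closedBall.measurableSet.diff (meas_NN g S)
  set A0 := Metric.closedBall a r \ NN g S with hA0
  set B0 := Metric.closedBall b r \ NN g S with hB0
  have hdA : Disjoint A0 (NN g S) := disjoint_sdiff_left
  have hdB : Disjoint B0 (NN g S) := disjoint_sdiff_left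
  have hfin : ∫⁻ x in A0 ×ˢ B0, jd S x ∂(circ.prod circ) ≠ ∞ := by
    refine ne_top_of_le_ne_top (rect_finite S hS hr hab) (lintegral_mono_set ?_)
    exact prod_mono (sdiff_subset_sdiff_right subset_union_left)
      (sdiff_subset_sdiff_right subset_union_left)
  have h1 : ((circ.prod circ).restrict (A0 ×ˢ B0)).withDensity (jd S) =
      ((circ.prod circ).restrict (A0 ×ˢ B0)).withDensity (jg g S) := by
    have hf : IsFiniteMeasure (((circ.prod circ).restrict (A0 ×ˢ B0)).withDensity (jd S)) :=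
      isFiniteMeasure_withDensity hfin
    refine Measure.ext_prod fun {A B} hA hB => ?_
    rw [withDensity_apply _ (hA.prod hB), withDensity_apply _ (hA.prod hB),
      Measure.restrict_restrict (hA.prod hB), prod_inter_prod]
    exact (rect_jg g hcv S hS (hA.inter hmA) (hB.inter hmB)
      (hdA.mono_left inter_subset_right) (hdB.mono_left inter_subset_right)).symm
  rw [withDensity_eq_iff (meas_jd S).aemeasurable (meas_jg g S).aemeasurable hfin] at h1
  filter_upwards [h1] with x hx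
  exact hx.symm

theorem jd_mob (g : Mob) (hcv : ∀ F : ℂ → ℝ≥0∞, Measurable F →
    ∫⁻ ξ, F (g.f ξ) * ENNReal.ofReal (g.der ξ) ∂circ = ∫⁻ ξ, F ξ ∂circ)
    (S : Cfg) (hS : Good S.1) : ∀ᵐ x ∂(circ.prod circ), jg g S x = jd S x := by
  have := circ_finite
  have hN : circ (NN g S) = 0 := by
    refine le_antisymm ((measure_union_le _ _).trans ?_) bot_le
    rw [circ_nul S, circ_pre g hcv (measurableSet_nul _) (circ_nul _), add_zero]
  have h0 : ∀ᵐ ξ ∂circ, ξ ∉ NN g S := measure_eq_zero_iff_ae_notMem.1 hN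
  have h2 : ∀ᵐ x ∂(circ.prod circ), x.1 ∉ NN g S := Measure.quasiMeasurePreserving_fst.ae h0
  have h3 : ∀ᵐ x ∂(circ.prod circ), x.2 ∉ NN g S := Measure.quasiMeasurePreserving_snd.ae h0
  have h4 : ∀ᵐ x ∂(circ.prod circ), ∀ n i j : ℕ,
      4 * (1 / ((n : ℝ) + 1)) ≤
        ‖TopologicalSpace.denseSeq ℂ i - TopologicalSpace.denseSeq ℂ j‖ →
      x ∈ (Metric.closedBall (TopologicalSpace.denseSeq ℂ i) (1 / ((n : ℝ) + 1)) \ NN g S) ×ˢ
        (Metric.closedBall (TopologicalSpace.denseSeq ℂ j) (1 / ((n : ℝ) + 1)) \ NN g S) →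
      jg g S x = jd S x := by
    rw [ae_all_iff]
    intro n
    rw [ae_all_iff]
    intro i
    rw [ae_all_iff]
    intro j
    by_cases hab : 4 * (1 / ((n : ℝ) + 1)) ≤
        ‖TopologicalSpace.denseSeq ℂ i - TopologicalSpace.denseSeq ℂ j‖
    · have h5 := ae_rect g hcv S hS (r := 1 / ((n : ℝ) + 1)) (by positivity) hab
      rw [ae_restrict_iff' ((Metric.isClosed_closedBall.measurableSet.diff (meas_NN g S)).prod
        (Metric.isClosed_closedBall.measurableSet.diff (meas_NN g S)))] at h5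
      filter_upwards [h5] with x hx _ hx2
      exact hx hx2
    · filter_upwards with x h6
      exact absurd h6 hab
  filter_upwards [h2, h3, h4, ae_ne] with x hx1 hx2 hx3 hx4
  have hd : 0 < ‖x.1 - x.2‖ := norm_pos_iff.2 (sub_ne_zero.2 hx4)
  obtain ⟨n, hn⟩ := exists_nat_one_div_lt (show 0 < ‖x.1 - x.2‖ / 8 by positivity)
  have hr : (0 : ℝ) < 1 / ((n : ℝ) + 1) := by positivity
  obtain ⟨i, hi⟩ := (TopologicalSpace.denseRange_denseSeq ℂ).exists_dist_lt x.1 hr
  obtain ⟨j, hj⟩ := (TopologicalSpace.denseRange_denseSeq ℂ).exists_dist_lt x.2 hr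
  rw [dist_eq_norm] at hi hj
  refine hx3 n i j ?_ ⟨⟨?_, hx1⟩, ⟨?_, hx2⟩⟩
  · have e3 : x.1 - x.2 = (x.1 - TopologicalSpace.denseSeq ℂ i) +
        (TopologicalSpace.denseSeq ℂ i - TopologicalSpace.denseSeq ℂ j) -
        (x.2 - TopologicalSpace.denseSeq ℂ j) := by ring
    have e4 : ‖x.1 - x.2‖ ≤ ‖x.1 - TopologicalSpace.denseSeq ℂ i‖ +
        ‖TopologicalSpace.denseSeq ℂ i - TopologicalSpace.denseSeq ℂ j‖ +
        ‖x.2 - TopologicalSpace.denseSeq ℂ j‖ := by
      conv_lhs => rw [e3]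
      exact (norm_sub_le _ _).trans (add_le_add_left (norm_add_le _ _) _)
    linarith
  · rw [mem_closedBall_iff_norm]; exact hi.le
  · rw [mem_closedBall_iff_norm]; exact hj.le

end DenB

/-- finiteness -/
theorem jd_finite (S : Cfg) (hS : Good S.1) {c : ℝ} (hc : 0 < c) :
    ∫⁻ x in {x : ℂ × ℂ | c ≤ ‖x.1 - x.2‖}, jd S x ∂(circ.prod circ) ≠ ∞ := by
  have := DenB.circ_finite
  set r := c / 8 with hr
  have hr0 : 0 < r := by positivity
  obtain ⟨t, hts, htf, hcov⟩ := (isCompact_sphere (0 : ℂ) 1).finite_cover_balls hr0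
  set P : Set (ℂ × ℂ) := {q | q.1 ∈ t ∧ q.2 ∈ t ∧ 4 * r ≤ ‖q.1 - q.2‖} with hP
  have hPf : P.Finite := (htf.prod htf).subset fun q hq => ⟨hq.1, hq.2.1⟩
  have hjm : Measurable (jd S) := measurable_jd.comp measurable_prodMk_left
  set ν := (circ.prod circ).withDensity (jd S) with hν
  have hms : MeasurableSet {x : ℂ × ℂ | c ≤ ‖x.1 - x.2‖} :=
    measurableSet_le measurable_const (by fun_prop)
  rw [← withDensity_apply (jd S) hms]
  have hU : ν (⋃ q ∈ P, (Metric.closedBall q.1 r \ nul S) ×ˢ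
      (Metric.closedBall q.2 r \ nul S)) < ∞ := by
    refine measure_biUnion_lt_top hPf fun q hq => ?_
    have hmA : MeasurableSet (Metric.closedBall q.1 r \ nul S) :=
      Metric.isClosed_closedBall.measurableSet.diff (measurableSet_nul S)
    have hmB : MeasurableSet (Metric.closedBall q.2 r \ nul S) :=
      Metric.isClosed_closedBall.measurableSet.diff (measurableSet_nul S)
    rw [hν, withDensity_apply _ (hmA.prod hmB)]
    exact (DenB.rect_finite S hS hr0 hq.2.2).lt_top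
  refine (lt_of_le_of_lt (measure_mono_ae ?_) hU).ne
  have hac : ν ≪ circ.prod circ := withDensity_absolutelyContinuous _ _
  refine hac.ae_le ?_
  have h1 : ∀ᵐ ξ ∂circ, ‖ξ‖ = 1 ∧ ξ ∉ nul S := by
    filter_upwards [DenB.circ_sphere, measure_eq_zero_iff_ae_notMem.1 (circ_nul S)] with ξ h2 h3
    exact ⟨h2, h3⟩
  have h2 : ∀ᵐ x ∂(circ.prod circ), ‖x.1‖ = 1 ∧ x.1 ∉ nul S :=
    Measure.quasiMeasurePreserving_fst.ae h1
  have h3 : ∀ᵐ x ∂(circ.prod circ), ‖x.2‖ = 1 ∧ x.2 ∉ nul S :=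
    Measure.quasiMeasurePreserving_snd.ae h1
  filter_upwards [h2, h3] with x hx hy hxy
  have e1 := hcov (show x.1 ∈ Metric.sphere (0 : ℂ) 1 by simpa using hx.1)
  have e2 := hcov (show x.2 ∈ Metric.sphere (0 : ℂ) 1 by simpa using hy.1)
  obtain ⟨a, ha, hxa⟩ := mem_iUnion₂.1 e1
  obtain ⟨b, hb, hyb⟩ := mem_iUnion₂.1 e2
  have hxa' : ‖x.1 - a‖ < r := by rwa [mem_ball_iff_norm] at hxa
  have hyb' : ‖x.2 - b‖ < r := by rwa [mem_ball_iff_norm] at hyb
  have hxy' : c ≤ ‖x.1 - x.2‖ := hxy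
  refine mem_iUnion₂.2 ⟨(a, b), ⟨ha, hb, ?_⟩, ⟨?_, hx.2⟩, ⟨?_, hy.2⟩⟩
  · show 4 * r ≤ ‖a - b‖
    have e3 : x.1 - x.2 = (x.1 - a) + (a - b) - (x.2 - b) := by ring
    have e4 : ‖x.1 - x.2‖ ≤ ‖x.1 - a‖ + ‖a - b‖ + ‖x.2 - b‖ := by
      rw [e3]
      exact (norm_sub_le _ _).trans (add_le_add_left (norm_add_le _ _) _)
    linarith
  · show x.1 ∈ Metric.closedBall a r
    rw [mem_closedBall_iff_norm]; exact hxa'.le
  · show x.2 ∈ Metric.closedBall b r
    rw [mem_closedBall_iff_norm]; exact hyb'.le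


/-- equivariance under rotations and translations -/
theorem jd_rot (θ : ℝ) (S : Cfg) (hS : Good S.1) : ∀ᵐ x ∂(circ.prod circ),
    jd ((Mob.rot θ).act S) ((Mob.rot θ).f x.1, (Mob.rot θ).f x.2) = jd S x := by
  have h := DenB.jd_mob (Mob.rot θ) (fun F hF => by
    simp_rw [Mob.rot_der, ENNReal.ofReal_one, mul_one]
    exact (Mob.circ_rot θ).lintegral_comp hF) S hS
  filter_upwards [h] with x hx
  rw [DenB.jg, Mob.rot_der, Mob.rot_der, ENNReal.ofReal_one, mul_one, mul_one] at hx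
  exact hx

theorem jd_tr (t : ℝ) (ht : t ^ 2 < 1) (S : Cfg) (hS : Good S.1) : ∀ᵐ x ∂(circ.prod circ),
    jd ((Mob.tr t ht).act S) ((Mob.tr t ht).f x.1, (Mob.tr t ht).f x.2) *
      ENNReal.ofReal ((Mob.tr t ht).der x.1) * ENNReal.ofReal ((Mob.tr t ht).der x.2)
      = jd S x :=
  DenB.jd_mob (Mob.tr t ht) (fun _ hF => Mob.lintegral_circ_tr t ht hF) S hS

end HPV
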