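import Pool.Agent.Helper28.HPV.LocalA

/-! T19 LocalB (helper45). -/

open MeasureTheory ProbabilityTheory Set Filter Topology
open scoped ENNReal NNReal Real

namespace HPV

namespace LB

/-- real inner product -/
def ip (z w : ℂ) : ℝ := z.re * w.re + z.im * w.im

lemma norm_sq_eq (z : ℂ) : ‖z‖ ^ 2 = z.re * z.re + z.im * z.im := by
  rw [← Complex.normSq_eq_norm_sq, Complex.normSq_apply]

lemma norm_sq_ip (z : ℂ) : ‖z‖ ^ 2 = ip z z := norm_sq_eq z

lemma ip_comm (z w : ℂ) : ip z w = ip w z := by simp only [ip]; ring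

lemma ip_cont {f g : ℕ → ℂ} {a b : ℂ} (hf : Tendsto f atTop (𝓝 a)) (hg : Tendsto g atTop (𝓝 b)) :
    Tendsto (fun k => ip (f k) (g k)) atTop (𝓝 (ip a b)) := by
  have h1 := (Complex.continuous_re.tendsto a).comp hf
  have h2 := (Complex.continuous_im.tendsto a).comp hf
  have h3 := (Complex.continuous_re.tendsto b).comp hg
  have h4 := (Complex.continuous_im.tendsto b).comp hg
  exact (h1.mul h3).add (h2.mul h4)

lemma le_of_sq {a b : ℝ} (hb : 0 ≤ b) (h : a ^ 2 ≤ b ^ 2) : a ≤ b :=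
  le_of_not_gt fun hlt => absurd h (not_le.2 (by nlinarith))

lemma lt_of_sq {a b : ℝ} (hb : 0 ≤ b) (h : a ^ 2 < b ^ 2) : a < b :=
  lt_of_not_ge fun hle => absurd h (not_lt.2 (by nlinarith))

/-- `‖p - c‖ ≤ ‖v - c‖` in terms of the inner product -/
lemma le_iff (p v c : ℂ) : ‖p - c‖ ≤ ‖v - c‖ ↔ ‖p - v‖ ^ 2 ≤ 2 * ip (p - v) (c - v) := by
  have key : ‖v - c‖ ^ 2 - ‖p - c‖ ^ 2 = 2 * ip (p - v) (c - v) - ‖p - v‖ ^ 2 := by
    rw [norm_sq_eq, norm_sq_eq, norm_sq_eq]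
    simp only [ip, Complex.sub_re, Complex.sub_im]
    ring
  constructor
  · intro h
    have : ‖p - c‖ ^ 2 ≤ ‖v - c‖ ^ 2 := pow_le_pow_left₀ (norm_nonneg _) h 2
    linarith
  · intro h
    exact le_of_sq (norm_nonneg _) (by linarith)

lemma lt_iff (p v c : ℂ) : ‖v - c‖ < ‖p - c‖ ↔ 2 * ip (p - v) (c - v) < ‖p - v‖ ^ 2 := by
  rw [← not_le, ← not_le, le_iff]

lemma eq_iff (p v c : ℂ) : ‖p - c‖ = ‖v - c‖ ↔ ‖p - v‖ ^ 2 = 2 * ip (p - v) (c - v) := by
  have key : ‖v - c‖ ^ 2 - ‖p - c‖ ^ 2 = 2 * ip (p - v) (c - v) - ‖p - v‖ ^ 2 := by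
    rw [norm_sq_eq, norm_sq_eq, norm_sq_eq]
    simp only [ip, Complex.sub_re, Complex.sub_im]
    ring
  constructor
  · intro h
    rw [h] at key
    linarith
  · intro h
    exact (sq_eq_sq₀ (norm_nonneg _) (norm_nonneg _)).1 (by linarith)

/-- stability of empty discs -/
lemma stab {S : Set ℂ} (hS : IsLF S) {v y c₀ : ℂ} {ρ : ℝ} (hc : ‖c₀‖ + ρ < 1)
    (hemp : ∀ w ∈ S, w ≠ v → w ≠ y → ρ < ‖w - c₀‖) :
    ∃ η > 0, ∀ c r, ‖c - c₀‖ < η → |r - ρ| < η →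
      ‖c‖ + r < 1 ∧ ∀ w ∈ S, w ≠ v → w ≠ y → r < ‖w - c‖ := by
  set R : ℝ := (1 + ‖c₀‖ + ρ) / 2 with hR
  have hR1 : R < 1 := by rw [hR]; linarith
  have hfin : (S ∩ Metric.closedBall 0 R).Finite := hS.2 R hR1
  have h1 : ∀ᶠ η : ℝ in 𝓝[>] 0, ∀ w ∈ S ∩ Metric.closedBall 0 R,
      w ≠ v → w ≠ y → ρ + 2 * η < ‖w - c₀‖ := by
    rw [Filter.eventually_all_finite hfin]
    intro w hw
    by_cases hwv : w = v
    · exact Eventually.of_forall fun η h => absurd hwv h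
    by_cases hwy : w = y
    · exact Eventually.of_forall fun η _ h => absurd hwy h
    have hlt := hemp w hw.1 hwv hwy
    have ht : Tendsto (fun η : ℝ => ρ + 2 * η) (𝓝[>] 0) (𝓝 (ρ + 2 * 0)) :=
      (tendsto_const_nhds.add (tendsto_const_nhds.mul tendsto_id)).mono_left nhdsWithin_le_nhds
    rw [mul_zero, add_zero] at ht
    filter_upwards [ht.eventually_lt_const hlt] with η hη _ _ using hη
  have h2 : ∀ᶠ η : ℝ in 𝓝[>] 0, η < (R - ‖c₀‖ - ρ) / 4 := by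
    refine Filter.Eventually.filter_mono nhdsWithin_le_nhds (eventually_lt_nhds ?_)
    rw [hR]
    linarith
  have h3 : ∀ᶠ η : ℝ in 𝓝[>] 0, 0 < η := eventually_mem_nhdsWithin
  obtain ⟨η, h1, h2, h3⟩ := (h1.and (h2.and h3)).exists
  refine ⟨η, h3, fun c r hcη hrη => ?_⟩
  rw [abs_lt] at hrη
  have hc1 : ‖c‖ ≤ ‖c₀‖ + ‖c - c₀‖ := by
    calc ‖c‖ = ‖c₀ + (c - c₀)‖ := by ring_nf
      _ ≤ _ := norm_add_le _ _
  refine ⟨by rw [hR] at h2; linarith, fun w hw hwv hwy => ?_⟩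
  have hw1 : ‖w - c₀‖ ≤ ‖w - c‖ + ‖c - c₀‖ := by
    calc ‖w - c₀‖ = ‖(w - c) + (c - c₀)‖ := by ring_nf
      _ ≤ _ := norm_add_le _ _
  by_cases hwR : w ∈ Metric.closedBall (0 : ℂ) R
  · have := h1 w ⟨hw, hwR⟩ hwv hwy
    linarith
  · rw [Metric.mem_closedBall, dist_zero_right, not_le] at hwR
    have hw2 : ‖w‖ ≤ ‖w - c‖ + ‖c‖ := by
      calc ‖w‖ = ‖(w - c) + c‖ := by ring_nf
        _ ≤ _ := norm_add_le _ _
    linarith

/-- expansion data: `a = v + δ² α`, `p = v + δ² α / 2 + δ³ γ`, `α → s i n`, `γ → n` -/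
structure Dat (n : ℂ) (s : ℝ) (δ : ℕ → ℝ) (α γ : ℕ → ℂ) : Prop where
  pos : ∀ k, 0 < δ k
  lim : Tendsto δ atTop (𝓝 0)
  hα : ∀ k, ‖α k - s * (Complex.I * n)‖ ≤ δ k ^ 2
  hγ : Tendsto γ atTop (𝓝 n)

variable {n : ℂ} {s : ℝ} {δ : ℕ → ℝ} {α γ : ℕ → ℂ}

def aa (v : ℂ) (δ : ℕ → ℝ) (α : ℕ → ℂ) (k : ℕ) : ℂ := v + (δ k ^ 2 : ℝ) * α k
noncomputable def pp (v : ℂ) (δ : ℕ → ℝ) (α γ : ℕ → ℂ) (k : ℕ) : ℂ :=
  v + (δ k ^ 2 : ℝ) * (α k / 2 + (δ k : ℝ) * γ k)

lemma Dat.comp (h : Dat n s δ α γ) {φ : ℕ → ℕ} (hφ : StrictMono φ) :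
    Dat n s (δ ∘ φ) (α ∘ φ) (γ ∘ φ) where
  pos _ := h.pos _
  lim := h.lim.comp hφ.tendsto_atTop
  hα _ := h.hα _
  hγ := h.hγ.comp hφ.tendsto_atTop

lemma Dat.tα (h : Dat n s δ α γ) : Tendsto α atTop (𝓝 (s * (Complex.I * n))) := by
  rw [tendsto_iff_norm_sub_tendsto_zero]
  refine squeeze_zero (fun k => norm_nonneg _) h.hα ?_
  have := h.lim.pow 2
  rwa [zero_pow two_ne_zero] at this

lemma Dat.tδc (h : Dat n s δ α γ) : Tendsto (fun k => ((δ k : ℝ) : ℂ)) atTop (𝓝 0) := by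
  have := (Complex.continuous_ofReal.tendsto (0 : ℝ)).comp h.lim
  rwa [Complex.ofReal_zero] at this

lemma Dat.tβ (h : Dat n s δ α γ) :
    Tendsto (fun k => α k / 2 + (δ k : ℝ) * γ k) atTop (𝓝 (s * (Complex.I * n) / 2)) := by
  have h1 := (h.tα.div_const 2).add (h.tδc.mul h.hγ)
  rwa [zero_mul, add_zero] at h1

lemma Dat.tβ' (h : Dat n s δ α γ) :
    Tendsto (fun k => -(α k / 2) + (δ k : ℝ) * γ k) atTop (𝓝 (-(s * (Complex.I * n) / 2))) := by
  have h1 := (h.tα.div_const 2).neg.add (h.tδc.mul h.hγ)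
  rwa [zero_mul, add_zero] at h1

lemma Dat.tδ2c (h : Dat n s δ α γ) : Tendsto (fun k => ((δ k ^ 2 : ℝ) : ℂ)) atTop (𝓝 0) := by
  have := (Complex.continuous_ofReal.tendsto (0 : ℝ)).comp (by simpa using h.lim.pow 2 :
    Tendsto (fun k => δ k ^ 2) atTop (𝓝 0))
  rwa [Complex.ofReal_zero] at this

lemma Dat.taa (h : Dat n s δ α γ) (v : ℂ) : Tendsto (aa v δ α) atTop (𝓝 v) := by
  have := (tendsto_const_nhds (x := v)).add (h.tδ2c.mul h.tα)
  rwa [zero_mul, add_zero] at this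

lemma Dat.tpp (h : Dat n s δ α γ) (v : ℂ) : Tendsto (pp v δ α γ) atTop (𝓝 v) := by
  have := (tendsto_const_nhds (x := v)).add (h.tδ2c.mul h.tβ)
  rwa [zero_mul, add_zero] at this

lemma ip_unit (hn : ‖n‖ = 1) : ip n n = 1 := by
  rw [← norm_sq_ip, hn]; norm_num

lemma ip_smul (x : ℝ) (z w : ℂ) : ip (x * z) w = x * ip z w := by
  simp only [ip, Complex.mul_re, Complex.mul_im, Complex.ofReal_re, Complex.ofReal_im]
  ring

lemma ip_smul' (x : ℝ) (z w : ℂ) : ip z (x * w) = x * ip z w := by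
  simp only [ip, Complex.mul_re, Complex.mul_im, Complex.ofReal_re, Complex.ofReal_im]
  ring

lemma norm_sq_smul (x : ℝ) (z : ℂ) : ‖(x : ℂ) * z‖ ^ 2 = x ^ 2 * ‖z‖ ^ 2 := by
  rw [norm_mul, Complex.norm_real, mul_pow, Real.norm_eq_abs, sq_abs]

/-- a unit frame: if `z ⟂ i n` then `z = ⟨n, z⟩ n` -/
lemma frame (hn : ‖n‖ = 1) {z : ℂ} (h : ip (Complex.I * n) z = 0) : z = (ip n z : ℝ) * n := by
  have h1 := ip_unit hn
  simp only [ip, Complex.mul_re, Complex.mul_im, Complex.I_re, Complex.I_im] at h h1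
  apply Complex.ext
  · simp only [ip, Complex.mul_re, Complex.ofReal_re, Complex.ofReal_im]
    linear_combination (-z.re) * h1 - n.im * h
  · simp only [ip, Complex.mul_im, Complex.ofReal_re, Complex.ofReal_im]
    linear_combination (-z.im) * h1 + n.re * h

lemma isol {S : Set ℂ} (hS : IsLF S) {v : ℂ} (hv : v ∈ S) :
    ∃ d > 0, ∀ w ∈ S, w ≠ v → d ≤ ‖w - v‖ := by
  have h1 : ‖v‖ + 0 < 1 := by
    have := hS.1 hv
    rw [Metric.mem_ball, dist_zero_right] at this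
    linarith
  obtain ⟨η, hη, h⟩ := stab hS (v := v) (y := v) (c₀ := v) (ρ := 0) h1
    (fun w _ hw _ => norm_pos_iff.2 (sub_ne_zero.2 hw))
  refine ⟨η / 2, by linarith, fun w hw hwv => ?_⟩
  have := (h v (η / 2) (by simpa using hη) (by rw [sub_zero, abs_of_pos (by linarith)]; linarith)).2
    w hw hwv hwv
  exact this.le

/-- the core lemma -/
lemma core {S : Set ℂ} (hS : Good S) {v y y' : ℂ} {ρ ρ' : ℝ} (h : Setup S v y y' n ρ ρ')
    (hs : s = 1 ∨ s = -1) (hd : Dat n s δ α γ) (c : ℕ → ℂ) (r : ℕ → ℝ) (z : ℕ → ℂ)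
    (hc : ∀ k, ‖c k‖ + r k < 1) (hemp : ∀ k, ∀ w ∈ S, r k ≤ ‖w - c k‖)
    (hp : ∀ k, ‖pp v δ α γ k - c k‖ ≤ r k) (ha : ∀ k, r k ≤ ‖aa v δ α k - c k‖)
    (hz : ∀ k, z k ∈ S ∧ z k ≠ v ∧ ‖z k - c k‖ = r k) (hzy : ∀ k, z k ≠ y) : False := by
  obtain ⟨d, hd0, hdist⟩ := isol hS.lf h.hv
  -- discard finitely many indices
  have hev : ∀ᶠ k in atTop, ‖pp v δ α γ k - v‖ < d / 2 := by
    have h1 := tendsto_iff_norm_sub_tendsto_zero.1 (hd.tpp v)
    exact h1.eventually_lt_const (by linarith)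
  obtain ⟨k₀, hk₀⟩ := eventually_atTop.1 hev
  -- Lemma K
  have hrlow : ∀ k, d / 4 ≤ r (k + k₀) := by
    intro k
    have h1 := hk₀ (k + k₀) (by omega)
    have h2 := hdist _ (hz (k + k₀)).1 (hz (k + k₀)).2.1
    have h3 := (hz (k + k₀)).2.2
    have h4 := hp (k + k₀)
    have h5 : ‖z (k + k₀) - v‖ ≤ ‖z (k + k₀) - c (k + k₀)‖ + ‖pp v δ α γ (k + k₀) - c (k + k₀)‖ +
        ‖pp v δ α γ (k + k₀) - v‖ := by
      calc ‖z (k + k₀) - v‖ = ‖(z (k + k₀) - c (k + k₀)) - (pp v δ α γ (k + k₀) - c (k + k₀)) +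
            (pp v δ α γ (k + k₀) - v)‖ := by ring_nf
        _ ≤ ‖(z (k + k₀) - c (k + k₀)) - (pp v δ α γ (k + k₀) - c (k + k₀))‖ +
            ‖pp v δ α γ (k + k₀) - v‖ := norm_add_le _ _
        _ ≤ _ := by
            gcongr
            exact norm_sub_le _ _
    linarith
  have hshift : StrictMono (fun k : ℕ => k + k₀) := fun a b hab => by simpa using hab
  have hv' : Tendsto (fun k => ‖v - c (k + k₀)‖ - r (k + k₀)) atTop (𝓝 0) := by
    have h1 := (tendsto_iff_norm_sub_tendsto_zero.1 (hd.tpp v)).comp hshift.tendsto_atTop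
    refine squeeze_zero (fun k => by linarith [hemp (k + k₀) v h.hv]) (fun k => ?_) h1
    have h4 := hp (k + k₀)
    have h5 : ‖v - c (k + k₀)‖ ≤ ‖pp v δ α γ (k + k₀) - c (k + k₀)‖ +
        ‖pp v δ α γ (k + k₀) - v‖ := by
      calc ‖v - c (k + k₀)‖ = ‖(pp v δ α γ (k + k₀) - c (k + k₀)) -
            (pp v δ α γ (k + k₀) - v)‖ := by ring_nf
        _ ≤ _ := norm_sub_le _ _
    simp only [Function.comp]
    linarith
  obtain ⟨φ, c₀, rr, z₀, hφ, hcφ, hrφ, hrr, hc₀, hemp₀, hvc₀, hzφ, hz₀S, hz₀v, hz₀c, -⟩ :=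
    lemmaK hS h.hv (fun k => c (k + k₀)) (fun k => r (k + k₀)) (fun k => z (k + k₀))
      (by linarith : 0 < d / 4) hrlow (fun k => hc _) (fun k => hemp _) hv' (fun k => hz _)
  have hd' : Dat n s _ _ _ := hd.comp (hshift.comp hφ)
  have hrr0 : 0 < rr := by linarith
  have hcφ' : Tendsto (fun k => c (φ k + k₀)) atTop (𝓝 c₀) := hcφ
  -- abbreviations
  set ψ : ℕ → ℕ := fun k => φ k + k₀ with hψ
  have hdψ : Dat n s (δ ∘ ψ) (α ∘ ψ) (γ ∘ ψ) := hd'
  have hcv : Tendsto (fun k => c (ψ k) - v) atTop (𝓝 (c₀ - v)) := hcφ'.sub_const v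
  have hppe : ∀ k, pp v δ α γ k - v = (δ k ^ 2 : ℝ) * (α k / 2 + (δ k : ℝ) * γ k) := fun k => by
    rw [pp]; ring
  have hppa : ∀ k, pp v δ α γ k - aa v δ α k = (δ k ^ 2 : ℝ) * (-(α k / 2) + (δ k : ℝ) * γ k) :=
    fun k => by rw [pp, aa]; ring
  -- (I1)
  have I1 : 0 ≤ ip (s * (Complex.I * n) / 2) (c₀ - v) := by
    refine ge_of_tendsto' (ip_cont hdψ.tβ hcv) (fun k => ?_)
    have h1 : ‖pp v δ α γ (ψ k) - c (ψ k)‖ ≤ ‖v - c (ψ k)‖ := (hp _).trans (hemp _ v h.hv)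
    rw [le_iff, hppe, ip_smul, norm_sq_smul] at h1
    have h2 := hd.pos (ψ k)
    have h3 : 0 ≤ 2 * (δ (ψ k) ^ 2 * ip (α (ψ k) / 2 + (δ (ψ k) : ℝ) * γ (ψ k)) (c (ψ k) - v)) :=
      le_trans (by positivity) h1
    have h4 : 0 < δ (ψ k) ^ 2 := by positivity
    have h5 : 0 ≤ δ (ψ k) ^ 2 * ip (α (ψ k) / 2 + (δ (ψ k) : ℝ) * γ (ψ k)) (c (ψ k) - v) := by
      linarith
    exact nonneg_of_mul_nonneg_right h5 h4
  -- (I2)
  have hca : Tendsto (fun k => c (ψ k) - aa v δ α (ψ k)) atTop (𝓝 (c₀ - v)) :=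
    hcφ'.sub ((hd.taa v).comp (hshift.comp hφ).tendsto_atTop)
  have I2 : 0 ≤ ip (-(s * (Complex.I * n) / 2)) (c₀ - v) := by
    refine ge_of_tendsto' (ip_cont hdψ.tβ' hca) (fun k => ?_)
    have h1 : ‖pp v δ α γ (ψ k) - c (ψ k)‖ ≤ ‖aa v δ α (ψ k) - c (ψ k)‖ := (hp _).trans (ha _)
    rw [le_iff, hppa, ip_smul, norm_sq_smul] at h1
    have h2 := hd.pos (ψ k)
    have h3 : 0 ≤ 2 * (δ (ψ k) ^ 2 * ip (-(α (ψ k) / 2) + (δ (ψ k) : ℝ) * γ (ψ k))
        (c (ψ k) - aa v δ α (ψ k))) := le_trans (by positivity) h1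
    have h4 : 0 < δ (ψ k) ^ 2 := by positivity
    have h5 : 0 ≤ δ (ψ k) ^ 2 * ip (-(α (ψ k) / 2) + (δ (ψ k) : ℝ) * γ (ψ k))
        (c (ψ k) - aa v δ α (ψ k)) := by linarith
    exact nonneg_of_mul_nonneg_right h5 h4
  -- (I3)
  have I3 : 0 ≤ ip n (c₀ - v) := by
    have hlow : Tendsto (fun k => δ (ψ k) / 4 * (-(ip (α (ψ k)) (α (ψ k))) / 2 +
        2 * δ (ψ k) * ip (γ (ψ k)) (α (ψ k)) + 2 * δ (ψ k) ^ 2 * ip (γ (ψ k)) (γ (ψ k)))) atTop
        (𝓝 (0 / 4 * (-(ip (s * (Complex.I * n)) (s * (Complex.I * n))) / 2 +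
        2 * 0 * ip n (s * (Complex.I * n)) + 2 * 0 ^ 2 * ip n n))) := by
      have t1 := hdψ.lim
      have t2 := ip_cont hdψ.tα hdψ.tα
      have t3 := ip_cont hdψ.hγ hdψ.tα
      have t4 := ip_cont hdψ.hγ hdψ.hγ
      exact (t1.div_const 4).mul (((t2.neg.div_const 2).add ((tendsto_const_nhds.mul t1).mul t3)).add
        ((tendsto_const_nhds.mul (t1.pow 2)).mul t4))
    rw [zero_div, zero_mul] at hlow
    refine le_of_tendsto_of_tendsto' hlow (ip_cont hdψ.hγ hcv) (fun k => ?_)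
    have h1 : ‖pp v δ α γ (ψ k) - c (ψ k)‖ ≤ ‖v - c (ψ k)‖ := (hp _).trans (hemp _ v h.hv)
    have h2 : ‖pp v δ α γ (ψ k) - c (ψ k)‖ ≤ ‖aa v δ α (ψ k) - c (ψ k)‖ := (hp _).trans (ha _)
    rw [le_iff, hppe, norm_sq_smul, ip_smul] at h1
    rw [le_iff, hppa, norm_sq_smul, ip_smul] at h2
    have h3 := hd.pos (ψ k)
    have e1 : ‖α (ψ k) / 2 + (δ (ψ k) : ℝ) * γ (ψ k)‖ ^ 2 = ip (α (ψ k)) (α (ψ k)) / 4 +
        δ (ψ k) * ip (γ (ψ k)) (α (ψ k)) + δ (ψ k) ^ 2 * ip (γ (ψ k)) (γ (ψ k)) := by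
      rw [norm_sq_eq]
      simp only [ip, Complex.add_re, Complex.add_im, Complex.mul_re, Complex.mul_im,
        Complex.ofReal_re, Complex.ofReal_im, Complex.div_ofNat_re, Complex.div_ofNat_im]
      ring
    have e2 : ‖-(α (ψ k) / 2) + (δ (ψ k) : ℝ) * γ (ψ k)‖ ^ 2 = ip (α (ψ k)) (α (ψ k)) / 4 -
        δ (ψ k) * ip (γ (ψ k)) (α (ψ k)) + δ (ψ k) ^ 2 * ip (γ (ψ k)) (γ (ψ k)) := by
      rw [norm_sq_eq]
      simp only [ip, Complex.add_re, Complex.add_im, Complex.mul_re, Complex.mul_im,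
        Complex.ofReal_re, Complex.ofReal_im, Complex.div_ofNat_re, Complex.div_ofNat_im,
        Complex.neg_re, Complex.neg_im]
      ring
    have e3 : ip (α (ψ k) / 2 + (δ (ψ k) : ℝ) * γ (ψ k)) (c (ψ k) - v) +
        ip (-(α (ψ k) / 2) + (δ (ψ k) : ℝ) * γ (ψ k)) (c (ψ k) - aa v δ α (ψ k)) =
        2 * δ (ψ k) * ip (γ (ψ k)) (c (ψ k) - v) + δ (ψ k) ^ 2 * (ip (α (ψ k)) (α (ψ k)) / 2 -
          δ (ψ k) * ip (γ (ψ k)) (α (ψ k))) := by
      simp only [ip, aa, Complex.add_re, Complex.add_im, Complex.mul_re, Complex.mul_im,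
        Complex.ofReal_re, Complex.ofReal_im, Complex.div_ofNat_re, Complex.div_ofNat_im,
        Complex.neg_re, Complex.neg_im, Complex.sub_re, Complex.sub_im]
      ring
    rw [e1] at h1
    rw [e2] at h2
    set x := δ (ψ k)
    set A := ip (α (ψ k)) (α (ψ k))
    set B := ip (γ (ψ k)) (α (ψ k))
    set C := ip (γ (ψ k)) (γ (ψ k))
    set G := ip (γ (ψ k)) (c (ψ k) - v)
    set X := ip (α (ψ k) / 2 + (x : ℝ) * γ (ψ k)) (c (ψ k) - v)
    set Y := ip (-(α (ψ k) / 2) + (x : ℝ) * γ (ψ k)) (c (ψ k) - aa v δ α (ψ k))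
    have e4 : 4 * x ^ 3 * (x / 4 * (-A / 2 + 2 * x * B + 2 * x ^ 2 * C)) ≤ 4 * x ^ 3 * G := by
      have e5 : 4 * x ^ 3 * G = 2 * (x ^ 2 * X) + 2 * (x ^ 2 * Y) - 2 * x ^ 4 * (A / 2 - x * B) := by
        linear_combination (-2 * x ^ 2) * e3
      rw [e5]
      nlinarith [h1, h2]
    exact le_of_mul_le_mul_left e4 (by positivity)
  -- conclusion
  have hin : ip (Complex.I * n) (c₀ - v) = 0 := by
    have e1 : ip (s * (Complex.I * n) / 2) (c₀ - v) = s / 2 * ip (Complex.I * n) (c₀ - v) := by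
      rw [← ip_smul]
      congr 1
      push_cast
      ring
    have e2 : ip (-(s * (Complex.I * n) / 2)) (c₀ - v) = -(s / 2) * ip (Complex.I * n) (c₀ - v) := by
      rw [← ip_smul]
      congr 1
      push_cast
      ring
    rw [e1] at I1
    rw [e2] at I2
    rcases hs with rfl | rfl <;> linarith
  have hfr := frame h.hn hin
  set t := ip n (c₀ - v) with ht
  have htr : t = rr := by
    have h1 : ‖c₀ - v‖ = |t| := by
      rw [hfr, norm_mul, h.hn, mul_one, Complex.norm_real, Real.norm_eq_abs]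
    rw [abs_of_nonneg I3, norm_sub_rev, hvc₀] at h1
    exact h1.symm
  have hc₀e : c₀ = v + rr * n := by
    rw [← htr]
    linear_combination hfr
  have hcv' : c₀ - v = rr * n := by rw [hc₀e]; ring
  -- `y` against the limit disc
  have hy1 : rr * ip (y - v) n ≤ ρ * ip (y - v) n := by
    have h1 := hemp₀ y h.hy
    rw [← hvc₀, ← not_lt, lt_iff (p := v) (v := y)] at h1
    have h2 : ‖y - (v + ρ * n)‖ = ‖v - (v + ρ * n)‖ := by
      rw [h.sy]
      have : v - (v + ρ * n) = -((ρ : ℂ) * n) := by ring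
      rw [this, norm_neg, norm_mul, h.hn, mul_one, Complex.norm_real, Real.norm_eq_abs,
        abs_of_pos h.hρ]
    rw [eq_iff, add_sub_cancel_left, ip_smul'] at h2
    have h3 : ‖v - c₀‖ ≤ ‖y - c₀‖ := by rw [hvc₀]; exact hemp₀ y h.hy
    have h4 : ¬ (‖y - c₀‖ < ‖v - c₀‖) := not_lt.2 h3
    have h5 : ‖y - v‖ ^ 2 ≥ 2 * ip (y - v) (c₀ - v) := by
      have : ¬ ‖y - c₀‖ < ‖v - c₀‖ := h4
      by_contra hcon
      push Not at hcon
      exact absurd ((le_iff y v c₀).2 hcon.le) (by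
        intro hle
        have heq := le_antisymm hle h3
        rw [eq_iff] at heq
        linarith)
    rw [hcv', ip_smul'] at h5
    linarith
  have hyn : 0 < ip (y - v) n := by
    have h2 : ‖y - (v + ρ * n)‖ = ‖v - (v + ρ * n)‖ := by
      rw [h.sy]
      have : v - (v + ρ * n) = -((ρ : ℂ) * n) := by ring
      rw [this, norm_neg, norm_mul, h.hn, mul_one, Complex.norm_real, Real.norm_eq_abs,
        abs_of_pos h.hρ]
    rw [eq_iff, add_sub_cancel_left, ip_smul'] at h2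
    have h3 : 0 < ‖y - v‖ ^ 2 := by
      have := norm_pos_iff.2 (sub_ne_zero.2 h.yv)
      positivity
    have h4 := h.hρ
    by_contra hcon
    push Not at hcon
    nlinarith
  have hle : rr ≤ ρ := le_of_mul_le_mul_right hy1 hyn
  -- `z₀ ≠ y`
  have hz0y : z₀ ≠ y := by
    rw [← hzφ 0]
    exact hzy _
  have h6 := h.emp z₀ hz₀S hz₀v hz0y
  have h7 : ‖v - (v + ρ * n)‖ = ρ := by
    have : v - (v + ρ * n) = -((ρ : ℂ) * n) := by ring
    rw [this, norm_neg, norm_mul, h.hn, mul_one, Complex.norm_real, Real.norm_eq_abs,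
      abs_of_pos h.hρ]
  have h8 : ‖v - (v + ρ * n)‖ < ‖z₀ - (v + ρ * n)‖ := by rw [h7]; exact h6
  rw [lt_iff, add_sub_cancel_left, ip_smul'] at h8
  have h9 : ‖z₀ - c₀‖ = ‖v - c₀‖ := by rw [hz₀c, hvc₀]
  rw [eq_iff, hcv', ip_smul'] at h9
  have h10 : 0 < ‖z₀ - v‖ ^ 2 := by
    have := norm_pos_iff.2 (sub_ne_zero.2 hz₀v)
    positivity
  have h11 : 0 < ip (z₀ - v) n := by
    by_contra hcon
    push Not at hcon
    nlinarith
  nlinarith

lemma core_ev {S : Set ℂ} (hS : Good S) {v y y' : ℂ} {ρ ρ' : ℝ} (h : Setup S v y y' n ρ ρ')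
    (hs : s = 1 ∨ s = -1) (hd : Dat n s δ α γ) :
    ∀ᶠ k in atTop, ∀ (c : ℂ) (r : ℝ) (z : ℂ), ‖c‖ + r < 1 → (∀ w ∈ S, r ≤ ‖w - c‖) →
      ‖pp v δ α γ k - c‖ ≤ r → r ≤ ‖aa v δ α k - c‖ → z ∈ S → z ≠ v → ‖z - c‖ = r → z = y := by
  by_contra hcon
  rw [Filter.not_eventually] at hcon
  obtain ⟨φ, hφ, hcon⟩ := Filter.extraction_of_frequently_atTop hcon
  push Not at hcon
  choose c r z h1 h2 h3 h4 h5 h6 h7 h8 using hcon
  exact core hS h hs (hd.comp hφ) c r z h1 h2 h3 h4 (fun k => ⟨h5 k, h6 k, h7 k⟩) h8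

lemma DAdj_symm {S : Set ℂ} {x y : ℂ} (h : DAdj S x y) : DAdj S y x := by
  obtain ⟨hx, hy, hxy, c, r, h1, h2, h3, h4⟩ := h
  exact ⟨hy, hx, hxy.symm, c, r, h1, h3, h2, fun w hw hwy hwx => h4 w hw hwx hwy⟩

lemma dadj_of {S : Set ℂ} {v y a p x z c : ℂ} {r : ℝ} (hx : x ∈ insert p (insert a S))
    (hz : z ∈ insert p (insert a S)) (hxz : x ≠ z) (hc : ‖c‖ + r < 1) (hxr : ‖x - c‖ = r)
    (hzr : ‖z - c‖ = r) (hS : ∀ w ∈ S, w ≠ v → w ≠ y → r < ‖w - c‖)
    (hv : v = x ∨ v = z ∨ r < ‖v - c‖) (hy : y = x ∨ y = z ∨ r < ‖y - c‖)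
    (ha : a = x ∨ a = z ∨ r < ‖a - c‖) (hp : p = x ∨ p = z ∨ r < ‖p - c‖) :
    DAdj (insert p (insert a S)) x z := by
  refine ⟨hx, hz, hxz, c, r, hc, hxr, hzr, fun w hw hwx hwz => ?_⟩
  have aux : ∀ u, (u = x ∨ u = z ∨ r < ‖u - c‖) → w = u → r < ‖w - c‖ := by
    rintro u (h | h | h) rfl
    · exact absurd h hwx
    · exact absurd h hwz
    · exact h
  rcases hw with hw | hw | hw
  · exact aux p hp hw
  · exact aux a ha hw
  · by_cases h1 : w = v
    · exact aux v hv h1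
    by_cases h2 : w = y
    · exact aux y hy h2
    exact hS w hw h1 h2

lemma stab_ev {S : Set ℂ} (hS : IsLF S) {v y c₀ : ℂ} {ρ : ℝ} (hc : ‖c₀‖ + ρ < 1)
    (hemp : ∀ w ∈ S, w ≠ v → w ≠ y → ρ < ‖w - c₀‖) {c : ℕ → ℂ} {r : ℕ → ℝ}
    (tc : Tendsto c atTop (𝓝 c₀)) (tr : Tendsto r atTop (𝓝 ρ)) :
    ∀ᶠ k in atTop, ‖c k‖ + r k < 1 ∧ ∀ w ∈ S, w ≠ v → w ≠ y → r k < ‖w - c k‖ := by
  obtain ⟨η, hη, h⟩ := stab hS hc hemp
  have h1 := (tendsto_iff_norm_sub_tendsto_zero.1 tc).eventually_lt_const hη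
  have h2 := (tendsto_iff_norm_sub_tendsto_zero.1 tr).eventually_lt_const hη
  filter_upwards [h1, h2] with k h1 h2
  exact h _ _ h1 (by rwa [Real.norm_eq_abs] at h2)

lemma small_ev {S : Set ℂ} (hS : IsLF S) {v : ℂ} (hv : v ∈ S) {c : ℕ → ℂ} {r : ℕ → ℝ}
    (tc : Tendsto c atTop (𝓝 v)) (tr : Tendsto r atTop (𝓝 0)) :
    ∀ᶠ k in atTop, ‖c k‖ + r k < 1 ∧ ∀ w ∈ S, w ≠ v → w ≠ v → r k < ‖w - c k‖ := by
  refine stab_ev hS ?_ (fun w _ hw _ => norm_pos_iff.2 (sub_ne_zero.2 hw)) tc tr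
  have := hS.1 hv
  rw [Metric.mem_ball, dist_zero_right] at this
  linarith

lemma LL (hn : ‖n‖ = 1) (hs : s = 1 ∨ s = -1) :
    ip (s * (Complex.I * n)) (s * (Complex.I * n)) = 1 := by
  have h1 := ip_unit hn
  rw [ip_smul, ip_smul']
  have h2 : ip (Complex.I * n) (Complex.I * n) = ip n n := by
    simp only [ip, Complex.mul_re, Complex.mul_im, Complex.I_re, Complex.I_im]
    ring
  rw [h2, h1]
  rcases hs with rfl | rfl <;> norm_num

lemma aav (v : ℂ) (k : ℕ) : aa v δ α k - v = (δ k ^ 2 : ℝ) * α k := by rw [aa]; ring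
lemma ppv (v : ℂ) (k : ℕ) :
    pp v δ α γ k - v = (δ k ^ 2 : ℝ) * (α k / 2 + (δ k : ℝ) * γ k) := by rw [pp]; ring
lemma ppa (v : ℂ) (k : ℕ) :
    pp v δ α γ k - aa v δ α k = (δ k ^ 2 : ℝ) * (-(α k / 2) + (δ k : ℝ) * γ k) := by
  rw [pp, aa]; ring
lemma vaa (v : ℂ) (k : ℕ) : v - aa v δ α k = (δ k ^ 2 : ℝ) * (-α k) := by rw [aa]; ring
lemma vpp (v : ℂ) (k : ℕ) :
    v - pp v δ α γ k = (δ k ^ 2 : ℝ) * (-(α k / 2 + (δ k : ℝ) * γ k)) := by rw [pp]; ring
lemma apa (v : ℂ) (k : ℕ) :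
    aa v δ α k - pp v δ α γ k = (δ k ^ 2 : ℝ) * (-(-(α k / 2) + (δ k : ℝ) * γ k)) := by
  rw [pp, aa]; ring

lemma Lne (hn : ‖n‖ = 1) (hs : s = 1 ∨ s = -1) : (s : ℂ) * (Complex.I * n) ≠ 0 := by
  intro h
  have := LL hn hs
  rw [h] at this
  simp [ip] at this

lemma ne_ev (hn : ‖n‖ = 1) (hs : s = 1 ∨ s = -1) (hd : Dat n s δ α γ) (v : ℂ) :
    ∀ᶠ k in atTop, aa v δ α k ≠ v ∧ pp v δ α γ k ≠ v ∧ pp v δ α γ k ≠ aa v δ α k := by
  have hL := Lne hn hs
  have h1 := hd.tα.eventually_ne hL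
  have h2 := hd.tβ.eventually_ne (div_ne_zero hL two_ne_zero)
  have h3 := hd.tβ'.eventually_ne (neg_ne_zero.2 (div_ne_zero hL two_ne_zero))
  filter_upwards [h1, h2, h3] with k h1 h2 h3
  have h4 : ((δ k ^ 2 : ℝ) : ℂ) ≠ 0 := by
    have := hd.pos k
    exact_mod_cast (by positivity : δ k ^ 2 ≠ 0)
  refine ⟨?_, ?_, ?_⟩
  · rw [← sub_ne_zero, aav]; exact mul_ne_zero h4 h1
  · rw [← sub_ne_zero, ppv]; exact mul_ne_zero h4 h2
  · rw [← sub_ne_zero, ppa]; exact mul_ne_zero h4 h3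

/-- `p ~ v` -/
lemma E4 {S : Set ℂ} (hS : IsLF S) {v : ℂ} (hv : v ∈ S) (hn : ‖n‖ = 1) (hs : s = 1 ∨ s = -1)
    (hd : Dat n s δ α γ) :
    ∀ᶠ k in atTop, DAdj (insert (pp v δ α γ k) (insert (aa v δ α k) S)) (pp v δ α γ k) v := by
  have tc : Tendsto (fun k => (pp v δ α γ k + v) / 2) atTop (𝓝 v) := by
    have := ((hd.tpp v).add_const v).div_const 2
    rwa [add_self_div_two] at this
  have tr : Tendsto (fun k => ‖pp v δ α γ k - v‖ / 2) atTop (𝓝 0) := by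
    have := (tendsto_iff_norm_sub_tendsto_zero.1 (hd.tpp v)).div_const 2
    rwa [zero_div] at this
  have t1 : Tendsto (fun k => ip (α k) (α k / 2 + (δ k : ℝ) * γ k)) atTop (𝓝 (1 / 2)) := by
    have := ip_cont hd.tα hd.tβ
    have h2 : ip (s * (Complex.I * n)) (s * (Complex.I * n) / 2) = 1 / 2 := by
      have : (s : ℂ) * (Complex.I * n) / 2 = ((1 / 2 : ℝ) : ℂ) * (s * (Complex.I * n)) := by
        push_cast; ring
      rw [this, ip_smul', LL hn hs]; norm_num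
    rwa [h2] at this
  have t2 : Tendsto (fun k => ip (α k) (α k)) atTop (𝓝 1) := by
    have := ip_cont hd.tα hd.tα
    rwa [LL hn hs] at this
  filter_upwards [small_ev hS hv tc tr, ne_ev hn hs hd v, t1.eventually_lt t2 (by norm_num)] with k
    h1 h2 h3
  have hx : ‖pp v δ α γ k - (pp v δ α γ k + v) / 2‖ = ‖pp v δ α γ k - v‖ / 2 := by
    have : pp v δ α γ k - (pp v δ α γ k + v) / 2 = (pp v δ α γ k - v) / 2 := by ring
    rw [this, norm_div]; norm_num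
  have hvr : ‖v - (pp v δ α γ k + v) / 2‖ = ‖pp v δ α γ k - v‖ / 2 := by
    have : v - (pp v δ α γ k + v) / 2 = -((pp v δ α γ k - v) / 2) := by ring
    rw [this, norm_neg, norm_div]; norm_num
  refine dadj_of (v := v) (y := v) (Or.inl rfl) (Or.inr (Or.inr hv)) h2.2.1 h1.1 hx hvr h1.2
    (Or.inr (Or.inl rfl)) (Or.inr (Or.inl rfl)) (Or.inr (Or.inr ?_)) (Or.inl rfl)
  rw [← hvr, lt_iff]
  have e1 : (pp v δ α γ k + v) / 2 - v = ((1 / 2 * δ k ^ 2 : ℝ) : ℂ) *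
      (α k / 2 + (δ k : ℝ) * γ k) := by
    have := ppv (δ := δ) (α := α) (γ := γ) v k
    push_cast at this ⊢
    linear_combination (1 / 2) * this
  rw [e1, aav, ip_smul, ip_smul', norm_sq_smul, norm_sq_ip]
  have h4 := hd.pos k
  have h5 : 0 < δ k ^ 4 := by positivity
  nlinarith

/-- `p ~ a` -/
lemma E5 {S : Set ℂ} (hS : IsLF S) {v : ℂ} (hv : v ∈ S) (hn : ‖n‖ = 1) (hs : s = 1 ∨ s = -1)
    (hd : Dat n s δ α γ) :
    ∀ᶠ k in atTop, DAdj (insert (pp v δ α γ k) (insert (aa v δ α k) S)) (pp v δ α γ k)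
      (aa v δ α k) := by
  have tc : Tendsto (fun k => (pp v δ α γ k + aa v δ α k) / 2) atTop (𝓝 v) := by
    have := ((hd.tpp v).add (hd.taa v)).div_const 2
    rwa [add_self_div_two] at this
  have tr : Tendsto (fun k => ‖pp v δ α γ k - aa v δ α k‖ / 2) atTop (𝓝 0) := by
    have := (((hd.tpp v).sub (hd.taa v)).norm).div_const 2
    rwa [sub_self, norm_zero, zero_div] at this
  have t1 : Tendsto (fun k => ip (-α k) (-(α k / 2) + (δ k : ℝ) * γ k)) atTop (𝓝 (1 / 2)) := by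
    have := ip_cont hd.tα.neg hd.tβ'
    have h2 : ip (-(s * (Complex.I * n))) (-(s * (Complex.I * n) / 2)) = 1 / 2 := by
      have h3 : -((s : ℂ) * (Complex.I * n) / 2) = ((-1 / 2 : ℝ) : ℂ) * (s * (Complex.I * n)) := by
        push_cast; ring
      have h4 : -((s : ℂ) * (Complex.I * n)) = ((-1 : ℝ) : ℂ) * (s * (Complex.I * n)) := by
        push_cast; ring
      rw [h3, h4, ip_smul', ip_smul, LL hn hs]; norm_num
    rwa [h2] at this
  have t2 : Tendsto (fun k => ip (-α k) (-α k)) atTop (𝓝 1) := by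
    have := ip_cont hd.tα.neg hd.tα.neg
    have h4 : -((s : ℂ) * (Complex.I * n)) = ((-1 : ℝ) : ℂ) * (s * (Complex.I * n)) := by
      push_cast; ring
    rw [h4, ip_smul', ip_smul, LL hn hs] at this
    norm_num at this
    exact this
  filter_upwards [small_ev hS hv tc tr, ne_ev hn hs hd v, t1.eventually_lt t2 (by norm_num)] with k
    h1 h2 h3
  have hx : ‖pp v δ α γ k - (pp v δ α γ k + aa v δ α k) / 2‖ =
      ‖pp v δ α γ k - aa v δ α k‖ / 2 := by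
    have : pp v δ α γ k - (pp v δ α γ k + aa v δ α k) / 2 = (pp v δ α γ k - aa v δ α k) / 2 := by
      ring
    rw [this, norm_div]; norm_num
  have har : ‖aa v δ α k - (pp v δ α γ k + aa v δ α k) / 2‖ =
      ‖pp v δ α γ k - aa v δ α k‖ / 2 := by
    have : aa v δ α k - (pp v δ α γ k + aa v δ α k) / 2 = -((pp v δ α γ k - aa v δ α k) / 2) := by
      ring
    rw [this, norm_neg, norm_div]; norm_num
  have hvo : ‖pp v δ α γ k - aa v δ α k‖ / 2 < ‖v - (pp v δ α γ k + aa v δ α k) / 2‖ := by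
    rw [← har, lt_iff]
    have e1 : (pp v δ α γ k + aa v δ α k) / 2 - aa v δ α k = ((1 / 2 * δ k ^ 2 : ℝ) : ℂ) *
        (-(α k / 2) + (δ k : ℝ) * γ k) := by
      have := ppa (δ := δ) (α := α) (γ := γ) v k
      push_cast at this ⊢
      linear_combination (1 / 2) * this
    rw [e1, vaa, ip_smul, ip_smul', norm_sq_smul, norm_sq_ip]
    have h4 := hd.pos k
    have h5 : 0 < δ k ^ 4 := by positivity
    nlinarith
  exact dadj_of (v := v) (y := v) (Or.inl rfl) (Or.inr (Or.inl rfl)) h2.2.2 h1.1 hx har h1.2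
    (Or.inr (Or.inr hvo)) (Or.inr (Or.inr hvo)) (Or.inr (Or.inl rfl)) (Or.inl rfl)

/-- `v ~ a` -/
lemma E3 {S : Set ℂ} (hS : IsLF S) {v : ℂ} (hv : v ∈ S) (hn : ‖n‖ = 1) (hs : s = 1 ∨ s = -1)
    (hd : Dat n s δ α γ) :
    ∀ᶠ k in atTop, DAdj (insert (pp v δ α γ k) (insert (aa v δ α k) S)) v (aa v δ α k) := by
  set c : ℕ → ℂ := fun k => v + (δ k : ℝ) * ((δ k : ℝ) * (α k / 2) + s * (Complex.I * α k)) with hc
  have tu : Tendsto (fun k => ((δ k : ℝ) : ℂ) * (α k / 2) + s * (Complex.I * α k)) atTop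
      (𝓝 (0 * (s * (Complex.I * n) / 2) + s * (Complex.I * (s * (Complex.I * n))))) :=
    (hd.tδc.mul (hd.tα.div_const 2)).add
      (tendsto_const_nhds.mul (tendsto_const_nhds.mul hd.tα))
  have tc : Tendsto c atTop (𝓝 v) := by
    have := (tendsto_const_nhds (x := v)).add (hd.tδc.mul tu)
    rwa [zero_mul (a := (0 * (s * (Complex.I * n) / 2) + s * (Complex.I * (s * (Complex.I * n))))),
      add_zero] at this
  have tr : Tendsto (fun k => ‖v - c k‖) atTop (𝓝 0) := by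
    have := (tc.const_sub v).norm
    rwa [sub_self, norm_zero] at this
  have t1 : Tendsto (fun k => 2 * (ip (α k) (α k) / 4 + δ k * ip (γ k) (α k) / 2 +
      s * ip (γ k) (Complex.I * α k))) atTop (𝓝 (-(3 / 2))) := by
    have h1 := ip_cont hd.tα hd.tα
    have h2 := ip_cont hd.hγ hd.tα
    have h3 := ip_cont hd.hγ ((tendsto_const_nhds (x := Complex.I)).mul hd.tα)
    have h4 := tendsto_const_nhds (x := (2 : ℝ)) (f := (atTop : Filter ℕ))
    have h5 := h4.mul (((h1.div_const 4).add ((hd.lim.mul h2).div_const 2)).add (h3.const_mul s))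
    have h6 : (2 : ℝ) * (ip (s * (Complex.I * n)) (s * (Complex.I * n)) / 4 +
        0 * ip n (s * (Complex.I * n)) / 2 + s * ip n (Complex.I * (s * (Complex.I * n)))) =
        -(3 / 2) := by
      have h7 : Complex.I * (s * (Complex.I * n)) = ((-s : ℝ) : ℂ) * n := by
        have := Complex.I_mul_I
        push_cast
        linear_combination (s * n : ℂ) * this
      rw [LL hn hs, h7, ip_smul' (-s) n n, ip_unit hn]
      rcases hs with rfl | rfl <;> norm_num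
    rwa [h6] at h5
  have t2 : Tendsto (fun k => ip (α k / 2 + (δ k : ℝ) * γ k) (α k / 2 + (δ k : ℝ) * γ k)) atTop
      (𝓝 (1 / 4)) := by
    have := ip_cont hd.tβ hd.tβ
    have h2 : ip (s * (Complex.I * n) / 2) (s * (Complex.I * n) / 2) = 1 / 4 := by
      have : (s : ℂ) * (Complex.I * n) / 2 = ((1 / 2 : ℝ) : ℂ) * (s * (Complex.I * n)) := by
        push_cast; ring
      rw [this, ip_smul', ip_smul, LL hn hs]; norm_num
    rwa [h2] at this
  filter_upwards [small_ev hS hv tc tr, ne_ev hn hs hd v, t1.eventually_lt t2 (by norm_num)] with k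
    h1 h2 h3
  have har : ‖aa v δ α k - c k‖ = ‖v - c k‖ := by
    rw [eq_iff, norm_sq_eq]
    simp only [aa, hc, ip, Complex.add_re, Complex.add_im, Complex.sub_re, Complex.sub_im,
      Complex.mul_re, Complex.mul_im, Complex.ofReal_re, Complex.ofReal_im, Complex.I_re,
      Complex.I_im, Complex.div_ofNat_re, Complex.div_ofNat_im]
    ring
  have hpo : ‖v - c k‖ < ‖pp v δ α γ k - c k‖ := by
    rw [lt_iff, ppv, norm_sq_smul, norm_sq_ip, ip_smul]
    have e1 : ip (α k / 2 + (δ k : ℝ) * γ k) (c k - v) = δ k ^ 2 *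
        (ip (α k) (α k) / 4 + δ k * ip (γ k) (α k) / 2 + s * ip (γ k) (Complex.I * α k)) := by
      simp only [hc, ip, Complex.add_re, Complex.add_im, Complex.sub_re, Complex.sub_im,
        Complex.mul_re, Complex.mul_im, Complex.ofReal_re, Complex.ofReal_im, Complex.I_re,
        Complex.I_im, Complex.div_ofNat_re, Complex.div_ofNat_im]
      ring
    rw [e1]
    have h4 := hd.pos k
    have h5 : 0 < δ k ^ 4 := by positivity
    nlinarith
  exact dadj_of (v := v) (y := v) (Or.inr (Or.inr hv)) (Or.inr (Or.inl rfl)) h2.1.symm h1.1 rfl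
    har h1.2 (Or.inl rfl) (Or.inl rfl) (Or.inr (Or.inl rfl)) (Or.inr (Or.inr hpo))

lemma lt_iff2 (p v c : ℂ) : ‖p - c‖ < ‖v - c‖ ↔ ‖p - v‖ ^ 2 < 2 * ip (p - v) (c - v) := by
  have key : ‖v - c‖ ^ 2 - ‖p - c‖ ^ 2 = 2 * ip (p - v) (c - v) - ‖p - v‖ ^ 2 := by
    rw [norm_sq_eq, norm_sq_eq, norm_sq_eq]
    simp only [ip, Complex.sub_re, Complex.sub_im]
    ring
  constructor
  · intro h
    have : ‖p - c‖ ^ 2 < ‖v - c‖ ^ 2 := pow_lt_pow_left₀ h (norm_nonneg _) two_ne_zero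
    linarith
  · intro h
    exact lt_of_sq (norm_nonneg _) (by linarith)

lemma ip_add (z w u : ℂ) : ip z (w + u) = ip z w + ip z u := by
  simp only [ip, Complex.add_re, Complex.add_im]; ring

lemma ip_add' (z w u : ℂ) : ip (z + w) u = ip z u + ip w u := by
  simp only [ip, Complex.add_re, Complex.add_im]; ring

lemma abs_ip_le (z w : ℂ) : |ip z w| ≤ ‖z‖ * ‖w‖ := by
  apply le_of_sq (by positivity)
  rw [sq_abs, mul_pow, norm_sq_eq, norm_sq_eq]
  simp only [ip]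
  nlinarith [sq_nonneg (z.re * w.im - z.im * w.re)]

/-- facts about the first disc -/
lemma Setup.facts {S : Set ℂ} {v y y' : ℂ} {ρ ρ' : ℝ} (h : Setup S v y y' n ρ ρ') :
    ‖v - (v + ρ * n)‖ = ρ ∧ ‖y - v‖ ^ 2 = 2 * ρ * ip (y - v) n ∧ 0 < ip (y - v) n := by
  have h7 : ‖v - (v + ρ * n)‖ = ρ := by
    have : v - (v + ρ * n) = -((ρ : ℂ) * n) := by ring
    rw [this, norm_neg, norm_mul, h.hn, mul_one, Complex.norm_real, Real.norm_eq_abs,
      abs_of_pos h.hρ]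
  have h2 : ‖y - (v + ρ * n)‖ = ‖v - (v + ρ * n)‖ := by rw [h.sy, h7]
  rw [eq_iff, add_sub_cancel_left, ip_smul'] at h2
  have h3 : 0 < ‖y - v‖ ^ 2 := by
    have := norm_pos_iff.2 (sub_ne_zero.2 h.yv)
    positivity
  have h4 := h.hρ
  refine ⟨h7, by linarith, ?_⟩
  by_contra hcon
  push Not at hcon
  nlinarith

/-- `⟨α, n⟩ / δ → 0` -/
lemma tαn (hn : ‖n‖ = 1) (hd : Dat n s δ α γ) :
    Tendsto (fun k => ip (α k) n / δ k) atTop (𝓝 0) := by
  refine squeeze_zero_norm (fun k => ?_) hd.lim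
  have h1 : ip (α k) n = ip (α k - s * (Complex.I * n)) n := by
    simp only [ip, Complex.sub_re, Complex.sub_im, Complex.mul_re, Complex.mul_im,
      Complex.ofReal_re, Complex.ofReal_im, Complex.I_re, Complex.I_im]
    ring
  have h2 := abs_ip_le (α k - s * (Complex.I * n)) n
  rw [hn, mul_one, ← h1] at h2
  have h3 := hd.hα k
  have h4 := hd.pos k
  rw [Real.norm_eq_abs, abs_div, abs_of_pos h4, div_le_iff₀ h4]
  nlinarith

/-- `p ~ y` -/
lemma E6 {S : Set ℂ} (hS : IsLF S) {v y y' : ℂ} {ρ ρ' : ℝ} (h : Setup S v y y' n ρ ρ')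
    (hd : Dat n s δ α γ) :
    ∀ᶠ k in atTop, DAdj (insert (pp v δ α γ k) (insert (aa v δ α k) S)) (pp v δ α γ k) y := by
  obtain ⟨f1, f2, f3⟩ := Setup.facts h
  set β : ℕ → ℂ := fun k => α k / 2 + (δ k : ℝ) * γ k with hβ
  set β' : ℕ → ℂ := fun k => -(α k / 2) + (δ k : ℝ) * γ k with hβ'
  have tβ : Tendsto β atTop (𝓝 (s * (Complex.I * n) / 2)) := hd.tβ
  have tβ' : Tendsto β' atTop (𝓝 (-(s * (Complex.I * n) / 2))) := hd.tβ'
  set q : ℕ → ℝ := fun k => ip (β k) n / δ k with hq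
  have tγn : Tendsto (fun k => ip (γ k) n) atTop (𝓝 1) := by
    have := ip_cont hd.hγ (tendsto_const_nhds (x := n))
    rwa [ip_unit h.hn] at this
  have tq : Tendsto q atTop (𝓝 1) := by
    have h1 := ((tαn h.hn hd).div_const 2).add tγn
    rw [zero_div, zero_add] at h1
    refine h1.congr (fun k => ?_)
    have h2 := (hd.pos k).ne'
    simp only [hq, hβ]
    rw [ip_add', ip_smul]
    have h3 : ip (α k / 2) n = ip (α k) n / 2 := by
      simp only [ip, Complex.div_ofNat_re, Complex.div_ofNat_im]; ring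
    rw [h3]
    field_simp
  have tq' : Tendsto (fun k => ip (β' k) n / δ k) atTop (𝓝 1) := by
    have h1 := ((tαn h.hn hd).div_const 2).neg.add tγn
    rw [zero_div, neg_zero, zero_add] at h1
    refine h1.congr (fun k => ?_)
    have h2 := (hd.pos k).ne'
    simp only [hβ']
    rw [ip_add', ip_smul]
    have h3 : ip (-(α k / 2)) n = -(ip (α k) n / 2) := by
      simp only [ip, Complex.div_ofNat_re, Complex.div_ofNat_im, Complex.neg_re, Complex.neg_im]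
      ring
    rw [h3]
    field_simp
  set N : ℕ → ℝ := fun k => ip (v - y) (pp v δ α γ k - y) with hN
  have hpos : 0 < ip (v - y) (v - y) := by
    rw [← norm_sq_ip]
    have := norm_pos_iff.2 (sub_ne_zero.2 h.yv.symm)
    positivity
  have tN : Tendsto N atTop (𝓝 (ip (v - y) (v - y))) :=
    ip_cont tendsto_const_nhds ((hd.tpp v).sub_const y)
  -- `t = δ τ`
  set τ : ℕ → ℝ := fun k => δ k ^ 2 * ((δ k * ip (β k) (β k) / 2 - ρ * q k) / N k) with hτ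
  have tτ : Tendsto τ atTop (𝓝 0) := by
    have h1 := hd.lim.pow 2
    have h2 := (((hd.lim.mul (ip_cont tβ tβ)).div_const 2).sub (tq.const_mul ρ)).div tN hpos.ne'
    have h3 := h1.mul h2
    rwa [zero_pow two_ne_zero, zero_mul] at h3
  set c : ℕ → ℂ := fun k => v + ρ * n + (δ k * τ k : ℝ) * (v - y) with hc
  have tt : Tendsto (fun k => ((δ k * τ k : ℝ) : ℂ)) atTop (𝓝 0) := by
    have h1 := hd.lim.mul tτ
    rw [zero_mul] at h1
    have := (Complex.continuous_ofReal.tendsto (0 : ℝ)).comp h1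
    rwa [Complex.ofReal_zero] at this
  have tc : Tendsto c atTop (𝓝 (v + ρ * n)) := by
    have := (tendsto_const_nhds (x := v + ρ * n)).add (tt.mul_const (v - y))
    rwa [zero_mul, add_zero] at this
  have tr : Tendsto (fun k => ‖pp v δ α γ k - c k‖) atTop (𝓝 ρ) := by
    have := ((hd.tpp v).sub tc).norm
    rwa [f1] at this
  have t1 : Tendsto (fun k => 2 * (ρ * q k + τ k * ip (β k) (v - y))) atTop (𝓝 (2 * ρ)) := by
    have := ((tq.const_mul ρ).add (tτ.mul (ip_cont tβ (tendsto_const_nhds (x := v - y))))).const_mul 2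
    rwa [mul_one, zero_mul, add_zero] at this
  have t2 : Tendsto (fun k => δ k * ip (β k) (β k)) atTop (𝓝 0) := by
    have := hd.lim.mul (ip_cont tβ tβ)
    rwa [zero_mul] at this
  have t3 : Tendsto (fun k => 2 * (ρ * (ip (β' k) n / δ k) + τ k * ip (β' k) (v - y) -
      δ k * ip (β' k) (α k))) atTop (𝓝 (2 * ρ)) := by
    have := (((tq'.const_mul ρ).add (tτ.mul (ip_cont tβ' (tendsto_const_nhds (x := v - y))))).sub
      (hd.lim.mul (ip_cont tβ' hd.tα))).const_mul 2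
    rwa [mul_one, zero_mul, add_zero, zero_mul, sub_zero] at this
  have t4 : Tendsto (fun k => δ k * ip (β' k) (β' k)) atTop (𝓝 0) := by
    have := hd.lim.mul (ip_cont tβ' tβ')
    rwa [zero_mul] at this
  have hρ2 : (0 : ℝ) < 2 * ρ := by linarith [h.hρ]
  filter_upwards [stab_ev hS h.inD h.emp tc tr, (hd.tpp v).eventually_ne h.yv.symm,
    tN.eventually_const_lt hpos, t2.eventually_lt t1 hρ2, t4.eventually_lt t3 hρ2] with k
    h1 h2 h3 h4 h5
  have hδ := hd.pos k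
  have hδ3 : 0 < δ k ^ 3 := by positivity
  have eN : δ k * τ k * N k = ‖pp v δ α γ k - v‖ ^ 2 / 2 - ρ * ip (pp v δ α γ k - v) n := by
    rw [ppv, norm_sq_smul, norm_sq_ip, ip_smul]
    have e1 : q k * δ k = ip (β k) n := by
      simp only [hq]
      field_simp
    change δ k * τ k * N k = (δ k ^ 2) ^ 2 * ip (β k) (β k) / 2 - ρ * (δ k ^ 2 * ip (β k) n)
    rw [← e1]
    simp only [hτ]
    field_simp
  have hyr : ‖y - c k‖ = ‖pp v δ α γ k - c k‖ := by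
    symm
    rw [eq_iff]
    have e1 : ip (pp v δ α γ k - y) (c k - y) = ip (pp v δ α γ k - y) (v - y) +
        ρ * ip (pp v δ α γ k - y) n + δ k * τ k * N k := by
      simp only [hc, hN, ip, Complex.add_re, Complex.add_im, Complex.sub_re, Complex.sub_im,
        Complex.mul_re, Complex.mul_im, Complex.ofReal_re, Complex.ofReal_im]
      ring
    rw [e1, eN]
    have e2 : ip (pp v δ α γ k - y) n - ip (pp v δ α γ k - v) n = -ip (y - v) n := by
      simp only [ip, Complex.sub_re, Complex.sub_im]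
      ring
    have e3 : ‖pp v δ α γ k - v‖ ^ 2 = ‖pp v δ α γ k - y‖ ^ 2 -
        2 * ip (pp v δ α γ k - y) (v - y) + ‖y - v‖ ^ 2 := by
      rw [norm_sq_eq, norm_sq_eq, norm_sq_eq]
      simp only [ip, Complex.sub_re, Complex.sub_im]
      ring
    rw [e3, f2]
    linear_combination (-2 * ρ) * e2
  have hvo : ‖pp v δ α γ k - c k‖ < ‖v - c k‖ := by
    rw [lt_iff2, ppv, norm_sq_smul, norm_sq_ip, ip_smul]
    change (δ k ^ 2) ^ 2 * ip (β k) (β k) < 2 * (δ k ^ 2 * ip (β k) (c k - v))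
    have e1 : ip (β k) (c k - v) = δ k * (ρ * q k + τ k * ip (β k) (v - y)) := by
      have e2 : q k * δ k = ip (β k) n := by
        simp only [hq]
        field_simp
      have e3 : ip (β k) (c k - v) = ρ * ip (β k) n + δ k * τ k * ip (β k) (v - y) := by
        simp only [hc, ip, Complex.add_re, Complex.add_im, Complex.sub_re, Complex.sub_im,
          Complex.mul_re, Complex.mul_im, Complex.ofReal_re, Complex.ofReal_im]
        ring
      rw [e3, ← e2]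
      ring
    rw [e1]
    have e4 := mul_lt_mul_of_pos_left h4 hδ3
    linarith
  have hao : ‖pp v δ α γ k - c k‖ < ‖aa v δ α k - c k‖ := by
    rw [lt_iff2, ppa, norm_sq_smul, norm_sq_ip, ip_smul]
    change (δ k ^ 2) ^ 2 * ip (β' k) (β' k) < 2 * (δ k ^ 2 * ip (β' k) (c k - aa v δ α k))
    have e1 : ip (β' k) (c k - aa v δ α k) = δ k * (ρ * (ip (β' k) n / δ k) +
        τ k * ip (β' k) (v - y) - δ k * ip (β' k) (α k)) := by
      have e3 : ip (β' k) (c k - aa v δ α k) = ρ * ip (β' k) n + δ k * τ k * ip (β' k) (v - y) -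
          δ k ^ 2 * ip (β' k) (α k) := by
        simp only [hc, aa, ip, Complex.add_re, Complex.add_im, Complex.sub_re, Complex.sub_im,
          Complex.mul_re, Complex.mul_im, Complex.ofReal_re, Complex.ofReal_im]
        ring
      rw [e3]
      field_simp
    rw [e1]
    have e4 := mul_lt_mul_of_pos_left h5 hδ3
    linarith
  exact dadj_of (v := v) (y := y) (Or.inl rfl) (Or.inr (Or.inr h.hy)) h2 h1.1 rfl hyr h1.2
    (Or.inr (Or.inr hvo)) (Or.inr (Or.inl rfl)) (Or.inr (Or.inr hao)) (Or.inl rfl)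

/-- the tilted discs through `v` and `y` -/
lemma tilt {S : Set ℂ} (hS : IsLF S) {v y y' : ℂ} {ρ ρ' : ℝ} (h : Setup S v y y' n ρ ρ') :
    ∃ σ > 0, ∀ τ : ℝ, |τ| ≤ σ →
      ‖v + ρ * n + τ * (Complex.I * (y - v))‖ + ‖v - (v + ρ * n + τ * (Complex.I * (y - v)))‖ < 1 ∧
      (∀ w ∈ S, w ≠ v → w ≠ y → ‖v - (v + ρ * n + τ * (Complex.I * (y - v)))‖ <
        ‖w - (v + ρ * n + τ * (Complex.I * (y - v)))‖) ∧
      ‖y - (v + ρ * n + τ * (Complex.I * (y - v)))‖ =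
        ‖v - (v + ρ * n + τ * (Complex.I * (y - v)))‖ := by
  obtain ⟨f1, f2, f3⟩ := Setup.facts h
  obtain ⟨η, hη, hst⟩ := stab hS h.inD h.emp
  have hyv : 0 < ‖y - v‖ := norm_pos_iff.2 (sub_ne_zero.2 h.yv)
  refine ⟨η / (2 * ‖y - v‖), by positivity, fun τ hτ => ?_⟩
  have e0 : ‖v + ρ * n + τ * (Complex.I * (y - v)) - (v + ρ * n)‖ < η := by
    have : v + ρ * n + τ * (Complex.I * (y - v)) - (v + ρ * n) = τ * (Complex.I * (y - v)) := by
      ring
    rw [this, norm_mul, norm_mul, Complex.norm_I, one_mul, Complex.norm_real, Real.norm_eq_abs]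
    rw [le_div_iff₀ (by positivity)] at hτ
    nlinarith
  have e1 : |‖v - (v + ρ * n + τ * (Complex.I * (y - v)))‖ - ρ| < η := by
    have h1 := abs_norm_sub_norm_le (v - (v + ρ * n + τ * (Complex.I * (y - v)))) (v - (v + ρ * n))
    rw [f1] at h1
    refine h1.trans_lt ?_
    have : v - (v + ρ * n + τ * (Complex.I * (y - v))) - (v - (v + ρ * n)) =
        -(v + ρ * n + τ * (Complex.I * (y - v)) - (v + ρ * n)) := by ring
    rw [this, norm_neg]
    exact e0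
  obtain ⟨g1, g2⟩ := hst _ _ e0 e1
  refine ⟨g1, g2, ?_⟩
  rw [eq_iff, f2]
  simp only [ip, Complex.add_re, Complex.add_im, Complex.sub_re, Complex.sub_im,
    Complex.mul_re, Complex.mul_im, Complex.ofReal_re, Complex.ofReal_im, Complex.I_re,
    Complex.I_im]
  ring

lemma ip_rot (z w : ℂ) : ip (Complex.I * z) (Complex.I * w) = ip z w := by
  simp only [ip, Complex.mul_re, Complex.mul_im, Complex.I_re, Complex.I_im]
  ring

lemma ip_tilt (hs : s = 1 ∨ s = -1) (v w : ℂ) (ρ σ : ℝ) :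
    ip (s * (Complex.I * n)) (v + ρ * n + (σ * s : ℝ) * (Complex.I * w) - v) = σ * ip w n := by
  have e1 : v + ρ * n + (σ * s : ℝ) * (Complex.I * w) - v =
      ρ * n + (σ * s : ℝ) * (Complex.I * w) := by ring
  have e2 : ip (Complex.I * n) n = 0 := by
    simp only [ip, Complex.mul_re, Complex.mul_im, Complex.I_re, Complex.I_im]
    ring
  rw [e1, ip_smul, ip_add, ip_smul', ip_smul', ip_rot, e2, ip_comm n w]
  rcases hs with rfl | rfl <;> ring

/-- `v ~ y` -/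
lemma E1 {S : Set ℂ} (hS : IsLF S) {v y y' : ℂ} {ρ ρ' : ℝ} (h : Setup S v y y' n ρ ρ')
    (hs : s = 1 ∨ s = -1) (hd : Dat n s δ α γ) :
    ∀ᶠ k in atTop, DAdj (insert (pp v δ α γ k) (insert (aa v δ α k) S)) v y := by
  obtain ⟨f1, f2, f3⟩ := Setup.facts h
  obtain ⟨σ, hσ, ht⟩ := tilt hS h
  have hτ : |(-σ) * s| ≤ σ := by
    rw [abs_mul, abs_neg, abs_of_pos hσ]
    rcases hs with rfl | rfl <;> norm_num
  obtain ⟨g1, g2, g3⟩ := ht ((-σ) * s) hτ
  set c : ℂ := v + ρ * n + ((-σ) * s : ℝ) * (Complex.I * (y - v)) with hc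
  have i1 : ip (s * (Complex.I * n)) (c - v) = (-σ) * ip (y - v) n := ip_tilt hs v (y - v) ρ (-σ)
  have t1 : Tendsto (fun k => ip (α k) (c - v)) atTop (𝓝 ((-σ) * ip (y - v) n)) := by
    have := ip_cont hd.tα (tendsto_const_nhds (x := c - v))
    rwa [i1] at this
  have t2 : Tendsto (fun k => ip (α k / 2 + (δ k : ℝ) * γ k) (c - v)) atTop
      (𝓝 ((-σ) * ip (y - v) n / 2)) := by
    have := ip_cont hd.tβ (tendsto_const_nhds (x := c - v))
    have h2 : ip (s * (Complex.I * n) / 2) (c - v) = (-σ) * ip (y - v) n / 2 := by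
      have h3 : (s : ℂ) * (Complex.I * n) / 2 = ((1 / 2 : ℝ) : ℂ) * (s * (Complex.I * n)) := by
        push_cast; ring
      rw [h3, ip_smul, i1]; ring
    rwa [h2] at this
  have hneg : (-σ) * ip (y - v) n < 0 := by nlinarith
  filter_upwards [t1.eventually_lt_const hneg, t2.eventually_lt_const (by linarith : _ < (0 : ℝ))]
    with k h1 h2
  have hδ := hd.pos k
  have hδ2 : 0 < δ k ^ 2 := by positivity
  refine dadj_of (v := v) (y := y) (Or.inr (Or.inr h.hv)) (Or.inr (Or.inr h.hy)) h.yv.symm g1 rfl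
    g3 g2 (Or.inl rfl) (Or.inr (Or.inl rfl)) (Or.inr (Or.inr ?_)) (Or.inr (Or.inr ?_))
  · rw [lt_iff, aav, ip_smul]
    have : 0 ≤ ‖((δ k ^ 2 : ℝ) : ℂ) * α k‖ ^ 2 := by positivity
    nlinarith
  · rw [lt_iff, ppv, ip_smul]
    have : 0 ≤ ‖((δ k ^ 2 : ℝ) : ℂ) * (α k / 2 + (δ k : ℝ) * γ k)‖ ^ 2 := by positivity
    nlinarith

/-- `a ~ y` -/
lemma E2 {S : Set ℂ} (hS : IsLF S) {v y y' : ℂ} {ρ ρ' : ℝ} (h : Setup S v y y' n ρ ρ')
    (hs : s = 1 ∨ s = -1) (hd : Dat n s δ α γ) :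
    ∀ᶠ k in atTop, DAdj (insert (pp v δ α γ k) (insert (aa v δ α k) S)) (aa v δ α k) y := by
  obtain ⟨f1, f2, f3⟩ := Setup.facts h
  obtain ⟨σ, hσ, ht⟩ := tilt hS h
  have hτ : |σ * s| ≤ σ := by
    rw [abs_mul, abs_of_pos hσ]
    rcases hs with rfl | rfl <;> norm_num
  obtain ⟨g1, g2, g3⟩ := ht (σ * s) hτ
  set c₁ : ℂ := v + ρ * n + (σ * s : ℝ) * (Complex.I * (y - v)) with hc₁
  have i1 : ip (s * (Complex.I * n)) (c₁ - v) = σ * ip (y - v) n := ip_tilt hs v (y - v) ρ σ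
  set t : ℕ → ℝ := fun k => (‖aa v δ α k - c₁‖ ^ 2 - ‖y - c₁‖ ^ 2) / (2 * ‖aa v δ α k - y‖ ^ 2)
    with ht'
  have hyv : 0 < ‖v - y‖ := norm_pos_iff.2 (sub_ne_zero.2 h.yv.symm)
  have tt : Tendsto t atTop (𝓝 0) := by
    have h1 := ((hd.taa v).sub_const c₁).norm.pow 2
    have h2 := ((hd.taa v).sub_const y).norm.pow 2
    have h3 := (h1.sub_const (‖y - c₁‖ ^ 2)).div (h2.const_mul 2) (by positivity)
    have e : (‖v - c₁‖ ^ 2 - ‖y - c₁‖ ^ 2) / (2 * ‖v - y‖ ^ 2) = 0 := by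
      rw [g3, sub_self, zero_div]
    rw [e] at h3
    exact h3
  set c : ℕ → ℂ := fun k => c₁ + (t k : ℝ) * (aa v δ α k - y) with hc
  have ttc : Tendsto (fun k => ((t k : ℝ) : ℂ)) atTop (𝓝 0) := by
    have := (Complex.continuous_ofReal.tendsto (0 : ℝ)).comp tt
    rwa [Complex.ofReal_zero] at this
  have tc : Tendsto c atTop (𝓝 c₁) := by
    have := (tendsto_const_nhds (x := c₁)).add (ttc.mul ((hd.taa v).sub_const y))
    rwa [zero_mul, add_zero] at this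
  have tr : Tendsto (fun k => ‖aa v δ α k - c k‖) atTop (𝓝 ‖v - c₁‖) := ((hd.taa v).sub tc).norm
  have t1 : Tendsto (fun k => ip (α k) (c k - v)) atTop (𝓝 (σ * ip (y - v) n)) := by
    have := ip_cont hd.tα (tc.sub_const v)
    rwa [i1] at this
  have t2 : Tendsto (fun k => ip (-(α k / 2) + (δ k : ℝ) * γ k) (c k - aa v δ α k)) atTop
      (𝓝 (-(σ * ip (y - v) n) / 2)) := by
    have := ip_cont hd.tβ' (tc.sub (hd.taa v))
    have h2 : ip (-(s * (Complex.I * n) / 2)) (c₁ - v) = -(σ * ip (y - v) n) / 2 := by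
      have h3 : -((s : ℂ) * (Complex.I * n) / 2) = ((-1 / 2 : ℝ) : ℂ) * (s * (Complex.I * n)) := by
        push_cast; ring
      rw [h3, ip_smul, i1]; ring
    rwa [h2] at this
  have t3 : Tendsto (fun k => δ k ^ 2 * ip (α k) (α k)) atTop (𝓝 0) := by
    have := (hd.lim.pow 2).mul (ip_cont hd.tα hd.tα)
    rwa [zero_pow two_ne_zero, zero_mul] at this
  have hpos : 0 < σ * ip (y - v) n := by positivity
  filter_upwards [stab_ev hS g1 g2 tc tr, (hd.taa v).eventually_ne h.yv.symm,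
    t2.eventually_lt_const (by linarith : _ < (0 : ℝ)), t3.eventually_lt (t1.const_mul 2)
      (by linarith)] with k h1 h2 h3 h4
  have hδ := hd.pos k
  have hδ2 : 0 < δ k ^ 2 := by positivity
  have hyr : ‖y - c k‖ = ‖aa v δ α k - c k‖ := by
    have hne : 0 < ‖aa v δ α k - y‖ := norm_pos_iff.2 (sub_ne_zero.2 h2)
    have e1 : t k * (2 * ‖aa v δ α k - y‖ ^ 2) = ‖aa v δ α k - c₁‖ ^ 2 - ‖y - c₁‖ ^ 2 := by
      rw [ht']
      exact div_mul_cancel₀ _ (by positivity)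
    rw [norm_sq_eq, norm_sq_eq, norm_sq_eq] at e1
    have e2 : ‖y - c k‖ ^ 2 = ‖aa v δ α k - c k‖ ^ 2 := by
      rw [norm_sq_eq, norm_sq_eq]
      simp only [hc, Complex.add_re, Complex.add_im, Complex.sub_re, Complex.sub_im,
        Complex.mul_re, Complex.mul_im, Complex.ofReal_re, Complex.ofReal_im] at e1 ⊢
      linear_combination e1
    exact (sq_eq_sq₀ (norm_nonneg _) (norm_nonneg _)).1 e2
  refine dadj_of (v := v) (y := y) (Or.inr (Or.inl rfl)) (Or.inr (Or.inr h.hy)) h2 h1.1 rfl hyr h1.2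
    (Or.inr (Or.inr ?_)) (Or.inr (Or.inl rfl)) (Or.inl rfl) (Or.inr (Or.inr ?_))
  · rw [lt_iff2, aav, norm_sq_smul, norm_sq_ip, ip_smul]
    nlinarith
  · rw [lt_iff, ppa, ip_smul]
    have : 0 ≤ ‖((δ k ^ 2 : ℝ) : ℂ) * (-(α k / 2) + (δ k : ℝ) * γ k)‖ ^ 2 := by positivity
    nlinarith

lemma notMem_ev {S : Set ℂ} (hS : IsLF S) {v : ℂ} (hv : v ∈ S) {w : ℕ → ℂ}
    (hw : ∀ᶠ k in atTop, w k ≠ v) (tw : Tendsto w atTop (𝓝 v)) : ∀ᶠ k in atTop, w k ∉ S := by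
  obtain ⟨d, hd, h⟩ := isol hS hv
  have h1 := (tendsto_iff_norm_sub_tendsto_zero.1 tw).eventually_lt_const hd
  filter_upwards [hw, h1] with k h2 h3 h4
  linarith [h _ h4 h2]

theorem main_seq {S : Set ℂ} (hS : Good S) {v y y' : ℂ} {ρ ρ' : ℝ} (h : Setup S v y y' n ρ ρ')
    (hs : s = 1 ∨ s = -1) (hd : Dat n s δ α γ) :
    ∀ᶠ k in atTop, Loc2 (insert (aa v δ α k) S) v (aa v δ α k) y (pp v δ α γ k) := by
  have hne := ne_ev h.hn hs hd v
  filter_upwards [E1 hS.lf h hs hd, E2 hS.lf h hs hd, E3 hS.lf h.hv h.hn hs hd,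
    E4 hS.lf h.hv h.hn hs hd, E5 hS.lf h.hv h.hn hs hd, E6 hS.lf h hd, hne,
    notMem_ev hS.lf h.hv (hne.mono fun k hk => hk.1) (hd.taa v),
    notMem_ev hS.lf h.hv (hne.mono fun k hk => hk.2.1) (hd.tpp v), core_ev hS h hs hd]
    with k e1 e2 e3 e4 e5 e6 ne1 na np hcore
  set a := aa v δ α k with ha
  set p := pp v δ α γ k with hp
  refine ⟨?_, fun z => ⟨?_, ?_⟩, ?_⟩
  · rintro (h1 | h1)
    · exact ne1.2.2 h1
    · exact np h1
  · rintro ⟨-, hz, hpz, c, r, hc, hpr, hzr, hw⟩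
    rcases hz with hz | hz | hz
    · exact absurd hz.symm hpz
    · exact Or.inr (Or.inl hz)
    · by_cases hzv : z = v
      · exact Or.inl hzv
      · right; right
        refine hcore c r z hc (fun w hwS => ?_) hpr.le ?_ hz hzv hzr
        · by_cases hwz : w = z
          · rw [hwz, hzr]
          · exact (hw w (Or.inr (Or.inr hwS)) (fun hwp => np (hwp ▸ hwS)) hwz).le
        · exact (hw a (Or.inr (Or.inl rfl)) ne1.2.2.symm (fun haz => na (haz ▸ hz))).le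
  · rintro (rfl | rfl | rfl)
    · exact e4
    · exact e5
    · exact e6
  · rintro x z ⟨hx, hz, hxz, c, r, hc, hxr, hzr, hw⟩
    by_cases hpc : r < ‖p - c‖
    · refine ⟨Or.inr hx, Or.inr hz, hxz, c, r, hc, hxr, hzr, fun w hwm hwx hwz => ?_⟩
      rcases hwm with hwm | hwm
      · rw [hwm]; exact hpc
      · exact hw w hwm hwx hwz
    · push Not at hpc
      have hall : ∀ w ∈ insert a S, r ≤ ‖w - c‖ := by
        intro w hwm
        by_cases hwx : w = x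
        · rw [hwx, hxr]
        by_cases hwz : w = z
        · rw [hwz, hzr]
        exact (hw w hwm hwx hwz).le
      have hco : ∀ w, w ∈ insert a S → ‖w - c‖ = r → w = a ∨ w = v ∨ w = y := by
        intro w hwm hwr
        rcases hwm with hwm | hwm
        · exact Or.inl hwm
        · by_cases hwv : w = v
          · exact Or.inr (Or.inl hwv)
          · exact Or.inr (Or.inr (hcore c r w hc (fun u hu => hall u (Or.inr hu)) hpc
              (hall a (Or.inl rfl)) hwm hwv hwr))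
      rcases hco x hx hxr with rfl | rfl | rfl <;> rcases hco z hz hzr with rfl | rfl | rfl
      · exact absurd rfl hxz
      · exact DAdj_symm e3
      · exact e2
      · exact e3
      · exact absurd rfl hxz
      · exact e1
      · exact DAdj_symm e2
      · exact DAdj_symm e1
      · exact absurd rfl hxz

end LB

/-- Claim 6: for small `δ` the point `p ≈ v + s δ²/2 i n + δ³ n` has exactly the three neighbours
`v, a, y` (`a ≈ v + s δ² i n`) and does not destroy an edge. -/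
theorem loc2_eventually {S : Set ℂ} (hS : Good S) {v y y' n : ℂ} {ρ ρ' : ℝ}
    (h : Setup S v y y' n ρ ρ') (s : ℝ) (hs : s = 1 ∨ s = -1) :
    ∃ δ₀ > 0, ∀ δ, 0 < δ → δ < δ₀ → ∀ a p : ℂ,
      ‖a - (v + (s * δ ^ 2 : ℝ) * (Complex.I * n))‖ < δ ^ 4 →
      ‖p - (v + (s * δ ^ 2 / 2 : ℝ) * (Complex.I * n) + (δ ^ 3 : ℝ) * n)‖ < δ ^ 4 →
      Loc2 (insert a S) v a y p := by
  by_contra hcon
  push Not at hcon
  have hk : ∀ k : ℕ, (0 : ℝ) < 1 / ((k : ℝ) + 1) := fun k => by positivity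
  choose δ hδ hδk a p ha hp hL using fun k : ℕ => hcon (1 / ((k : ℝ) + 1)) (hk k)
  have tδ : Tendsto δ atTop (𝓝 0) :=
    squeeze_zero (fun k => (hδ k).le) (fun k => (hδk k).le) tendsto_one_div_add_atTop_nhds_zero_nat
  set α : ℕ → ℂ := fun k => (a k - v) / ((δ k ^ 2 : ℝ) : ℂ) with hα
  set γ : ℕ → ℂ := fun k => (p k - v - (a k - v) / 2) / ((δ k ^ 3 : ℝ) : ℂ) with hγ
  have hne : ∀ k, ((δ k : ℝ) : ℂ) ≠ 0 := fun k => by exact_mod_cast (hδ k).ne'
  have haa : ∀ k, LB.aa v δ α k = a k := by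
    intro k
    have := hne k
    simp only [LB.aa, hα]
    push_cast
    field_simp
    ring
  have hpp : ∀ k, LB.pp v δ α γ k = p k := by
    intro k
    have := hne k
    simp only [LB.pp, hα, hγ]
    push_cast
    field_simp
    ring
  have b1 : ∀ k, ‖α k - s * (Complex.I * n)‖ ≤ δ k ^ 2 := by
    intro k
    have e1 : α k - s * (Complex.I * n) =
        (a k - (v + (s * δ k ^ 2 : ℝ) * (Complex.I * n))) / ((δ k ^ 2 : ℝ) : ℂ) := by
      have := hne k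
      simp only [hα]
      push_cast
      field_simp
      ring
    have h2 : (0 : ℝ) < δ k ^ 2 := by have := hδ k; positivity
    rw [e1, norm_div, Complex.norm_real, Real.norm_eq_abs, abs_of_pos h2, div_le_iff₀ h2]
    have := ha k
    nlinarith
  have b2 : ∀ k, ‖γ k - n‖ ≤ 3 / 2 * δ k := by
    intro k
    have e1 : γ k - n =
        ((p k - (v + (s * δ k ^ 2 / 2 : ℝ) * (Complex.I * n) + (δ k ^ 3 : ℝ) * n)) -
          (a k - (v + (s * δ k ^ 2 : ℝ) * (Complex.I * n))) / 2) / ((δ k ^ 3 : ℝ) : ℂ) := by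
      have := hne k
      simp only [hγ]
      push_cast
      field_simp
      ring
    have h2 : (0 : ℝ) < δ k ^ 3 := by have := hδ k; positivity
    rw [e1, norm_div, Complex.norm_real, Real.norm_eq_abs, abs_of_pos h2, div_le_iff₀ h2]
    have h3 := ha k
    have h4 := hp k
    refine (norm_sub_le _ _).trans ?_
    rw [norm_div]
    have h5 : ‖(2 : ℂ)‖ = 2 := by norm_num
    rw [h5]
    nlinarith
  have hd : LB.Dat n s δ α γ := by
    refine ⟨hδ, tδ, b1, ?_⟩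
    rw [tendsto_iff_norm_sub_tendsto_zero]
    refine squeeze_zero (fun k => norm_nonneg _) b2 ?_
    have := tδ.const_mul (3 / 2)
    rwa [mul_zero] at this
  obtain ⟨k, hk⟩ := (LB.main_seq hS h hs hd).exists
  rw [haa, hpp] at hk
  exact hL k hk

lemma LB.swap {S : Set ℂ} {v y y' n : ℂ} {ρ ρ' : ℝ} (h : Setup S v y y' n ρ ρ') :
    Setup S v y' y (-n) ρ' ρ := by
  have e1 : v + (ρ' : ℂ) * (-n) = v - ρ' * n := by ring
  have e2 : v - (ρ : ℂ) * (-n) = v + ρ * n := by ring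
  refine ⟨h.hv, h.hy', h.hy, h.yv', h.yv, by rw [norm_neg]; exact h.hn, h.hρ', h.hρ, ?_, ?_, ?_,
    ?_, ?_, ?_⟩
  · rw [e1]; exact h.inD'
  · rw [e2]; exact h.inD
  · rw [e1]; exact h.sy'
  · rw [e2]; exact h.sy
  · rw [e1]; exact h.emp'
  · rw [e2]; exact h.emp

theorem local_structure {S : Set ℂ} (hS : Good S) {v y : ℂ} (hvy : DAdj S v y) :
    ∃ (y' a₀ p₀ p₁ : ℂ) (δ : ℝ), 0 < δ ∧ Metric.ball a₀ δ ⊆ disc ∧ Metric.ball p₀ δ ⊆ disc ∧
      Metric.ball p₁ δ ⊆ disc ∧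
      ∀ a ∈ Metric.ball a₀ δ, ∀ p ∈ Metric.ball p₀ δ, ∀ p' ∈ Metric.ball p₁ δ,
        Loc1 S v y y' a ∧ Loc2 (insert a S) v a y p ∧ Loc2 (insert a S) v a y' p' := by
  obtain ⟨y', n, ρ, ρ', h⟩ := exists_setup hS hvy
  obtain ⟨δ₁, hδ₁, h1⟩ := loc1_eventually hS h 1 (Or.inl rfl)
  obtain ⟨δ₂, hδ₂, h2⟩ := loc2_eventually hS h 1 (Or.inl rfl)
  obtain ⟨δ₃, hδ₃, h3⟩ := loc2_eventually hS (LB.swap h) (-1) (Or.inr rfl)
  have hv1 : ‖v‖ < 1 := by
    have := hS.lf.1 h.hv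
    rwa [Metric.mem_ball, dist_zero_right] at this
  set δ : ℝ := min (min (δ₁ / 2) (δ₂ / 2)) (min (δ₃ / 2) (min (1 / 2) ((1 - ‖v‖) / 4))) with hδ
  have d1 : δ ≤ δ₁ / 2 := (min_le_left _ _).trans (min_le_left _ _)
  have d2 : δ ≤ δ₂ / 2 := (min_le_left _ _).trans (min_le_right _ _)
  have d3 : δ ≤ δ₃ / 2 := (min_le_right _ _).trans (min_le_left _ _)
  have d4 : δ ≤ 1 / 2 := (min_le_right _ _).trans ((min_le_right _ _).trans (min_le_left _ _))
  have d5 : δ ≤ (1 - ‖v‖) / 4 :=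
    (min_le_right _ _).trans ((min_le_right _ _).trans (min_le_right _ _))
  have d0 : 0 < δ := by
    rw [hδ]
    refine lt_min (lt_min (by linarith) (by linarith)) (lt_min (by linarith)
      (lt_min (by norm_num) (by linarith)))
  have q2 : δ ^ 2 ≤ δ / 2 := by nlinarith
  have q3 : δ ^ 3 ≤ δ / 4 := by
    have : δ ^ 3 = δ * δ ^ 2 := by ring
    rw [this]; nlinarith
  have q4 : δ ^ 4 ≤ δ / 8 := by
    have : δ ^ 4 = δ * δ ^ 3 := by ring
    rw [this]; nlinarith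
  have p2 : 0 < δ ^ 2 := by positivity
  have p3 : 0 < δ ^ 3 := by positivity
  have p4 : 0 < δ ^ 4 := by positivity
  have hin : ∀ (x : ℝ), |x| ≤ δ ^ 2 → ‖(x : ℂ) * (Complex.I * n)‖ ≤ δ ^ 2 := by
    intro x hx
    rw [norm_mul, norm_mul, Complex.norm_I, one_mul, h.hn, mul_one, Complex.norm_real,
      Real.norm_eq_abs]
    exact hx
  have hin' : ∀ (x : ℝ), |x| ≤ δ ^ 3 → ‖(x : ℂ) * n‖ ≤ δ ^ 3 := by
    intro x hx
    rw [norm_mul, h.hn, mul_one, Complex.norm_real, Real.norm_eq_abs]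
    exact hx
  have hball : ∀ (e e' : ℂ), ‖e‖ ≤ δ ^ 2 → ‖e'‖ ≤ δ ^ 3 →
      Metric.ball (v + e + e') (δ ^ 4) ⊆ disc := by
    intro e e' he he' w hw
    rw [Metric.mem_ball, dist_eq_norm] at hw
    rw [disc, Metric.mem_ball, dist_zero_right]
    have : w = (w - (v + e + e')) + (v + e + e') := by ring
    rw [this]
    have i1 := norm_add_le (w - (v + e + e')) (v + e + e')
    have i2 := norm_add_le (v + e) e'
    have i3 := norm_add_le v e
    linarith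
  refine ⟨y', v + (1 * δ ^ 2 : ℝ) * (Complex.I * n),
    v + (1 * δ ^ 2 / 2 : ℝ) * (Complex.I * n) + (δ ^ 3 : ℝ) * n,
    v + (-1 * δ ^ 2 / 2 : ℝ) * (Complex.I * -n) + (δ ^ 3 : ℝ) * -n, δ ^ 4, p4, ?_, ?_, ?_, ?_⟩
  · have := hball ((1 * δ ^ 2 : ℝ) * (Complex.I * n)) 0 (hin _ (by rw [one_mul, abs_of_pos p2]))
      (by rw [norm_zero]; exact p3.le)
    rwa [add_zero] at this
  · exact hball _ _ (hin _ (by rw [abs_of_pos (by linarith)]; linarith))
      (hin' _ (by rw [abs_of_pos p3]))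
  · refine hball _ _ ?_ ?_
    · have e : ((-1 * δ ^ 2 / 2 : ℝ) : ℂ) * (Complex.I * -n) =
        ((δ ^ 2 / 2 : ℝ) : ℂ) * (Complex.I * n) := by push_cast; ring
      rw [e]
      exact hin _ (by rw [abs_of_pos (by linarith)]; linarith)
    · have e : ((δ ^ 3 : ℝ) : ℂ) * -n = -(((δ ^ 3 : ℝ) : ℂ) * n) := by ring
      rw [e, norm_neg]
      exact hin' _ (by rw [abs_of_pos p3])
  · intro a ha p hp p' hp'
    rw [Metric.mem_ball, dist_eq_norm] at ha hp hp'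
    refine ⟨h1 δ d0 (by linarith) a ha, h2 δ d0 (by linarith) a p ha hp,
      h3 δ d0 (by linarith) a p' ?_ hp'⟩
    have e : ((-1 * δ ^ 2 : ℝ) : ℂ) * (Complex.I * -n) =
        ((1 * δ ^ 2 : ℝ) : ℂ) * (Complex.I * n) := by push_cast; ring
    rw [e]
    exact ha

end HPV
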