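import Pool.Agent.Helper28.HPV.ZeroOne
import Pool.Agent.Helper28.HPV.LocalB
import Pool.Agent.Helper28.HPV.Potential

/-! T20, part A: from equality of densities to equality of the finite excursion measures. -/

open MeasureTheory ProbabilityTheory Set Filter Topology
open scoped ENNReal NNReal Real

namespace HPV

theorem circ_singleton (ξ : ℂ) : circ {ξ} = 0 := by
  have hm : Measurable fun θ : ℝ => Complex.exp (θ * Complex.I) := by fun_prop
  rw [circ, Measure.map_apply hm (measurableSet_singleton ξ),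
    Measure.restrict_apply (hm (measurableSet_singleton ξ))]
  apply Set.Subsingleton.measure_zero
  rintro θ ⟨h1, h2⟩ θ' ⟨h1', h2'⟩
  have h3 : Complex.exp (θ * Complex.I) = Complex.exp (θ' * Complex.I) := by
    rw [mem_preimage, mem_singleton_iff] at h1 h1'
    rw [h1, h1']
  have := Complex.exp_inj_of_neg_pi_lt_of_le_pi (x := θ * Complex.I) (y := θ' * Complex.I)
    (by simpa using h2.1) (by simpa using h2.2) (by simpa using h2'.1) (by simpa using h2'.2) h3
  have h4 := mul_right_cancel₀ Complex.I_ne_zero this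
  exact_mod_cast h4

/-- restriction of the boundary law -/
theorem bdLaw_restrict_apply (Q : Measure (ℕ → ℂ)) {E : Set (ℕ → ℂ)} {A : Set ℂ}
    (hA : MeasurableSet A) : bdLaw (Q.restrict E) A = Q (limEv A ∩ E) := by
  rw [bdLaw_apply _ hA, Measure.restrict_apply (measurableSet_limEv hA)]

theorem limEv_inter (A B : Set ℂ) : limEv (A ∩ B) = limEv A ∩ limEv B := by
  ext p
  constructor
  · rintro ⟨ξ, ⟨h1, h2⟩, h3, h4⟩
    exact ⟨⟨ξ, h1, h3, h4⟩, ξ, h2, h3, h4⟩
  · rintro ⟨⟨ξ, h1, h3, h4⟩, ξ', h1', h3', h4'⟩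
    have := tendsto_nhds_unique h4 h4'
    subst this
    exact ⟨ξ, ⟨h1, h1'⟩, h3, h4⟩

/-- measure version of `e` -/
noncomputable def eM (W : RW ℂ) (K : Finset ℂ) (B : Set ℂ) (x : ℂ) : Measure ℂ :=
  ∑ y ∈ W.nb x, bdLaw ((W.P y).restrict (limEv B ∩ avoid K))

/-- measure version of `h` -/
noncomputable def hM (W : RW ℂ) (B : Set ℂ) (x : ℂ) : Measure ℂ :=
  bdLaw ((W.P x).restrict (limEv B))

theorem hM_apply (W : RW ℂ) (B : Set ℂ) (x : ℂ) {A : Set ℂ} (hA : MeasurableSet A) :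
    hM W B x A = ENNReal.ofReal (W.h (limEv (A ∩ B)) x) := by
  have := W.prob x
  rw [hM, bdLaw_restrict_apply _ hA, RW.h, ofReal_measureReal, limEv_inter]

theorem eM_apply (W : RW ℂ) (K : Finset ℂ) (B : Set ℂ) (x : ℂ) {A : Set ℂ}
    (hA : MeasurableSet A) :
    eM W K B x A = ENNReal.ofReal (W.e K (limEv (A ∩ B)) x) := by
  rw [eM, Measure.finset_sum_apply, RW.e, ENNReal.ofReal_sum_of_nonneg]
  · refine Finset.sum_congr rfl fun y _ => ?_
    have := W.prob y
    rw [bdLaw_restrict_apply _ hA, RW.hK, ofReal_measureReal, limEv_inter, inter_assoc]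
  · intro y _
    exact measureReal_nonneg

instance (W : RW ℂ) (B : Set ℂ) (x : ℂ) : IsFiniteMeasure (hM W B x) := by
  have := W.prob x
  unfold hM
  infer_instance

instance (W : RW ℂ) (K : Finset ℂ) (B : Set ℂ) (x : ℂ) : IsFiniteMeasure (eM W K B x) := by
  constructor
  rw [eM_apply _ _ _ _ MeasurableSet.univ]
  exact ENNReal.ofReal_lt_top

/-- the finite excursion measure -/
noncomputable def JM (W : RW ℂ) (K : Finset ℂ) (B : Set ℂ) : Measure (ℂ × ℂ) :=
  ∑ x ∈ K, (eM W K B x).prod (hM W B x)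

theorem e_nonneg (W : RW ℂ) (K : Finset ℂ) (A : Set (ℕ → ℂ)) (x : ℂ) : 0 ≤ W.e K A x :=
  Finset.sum_nonneg fun _ _ => measureReal_nonneg

theorem J_nonneg (W : RW ℂ) (K : Finset ℂ) (A B : Set (ℕ → ℂ)) : 0 ≤ W.J K A B :=
  Finset.sum_nonneg fun _ _ => mul_nonneg (e_nonneg _ _ _ _) measureReal_nonneg

theorem JM_apply (W : RW ℂ) (K : Finset ℂ) (B : Set ℂ) {A₁ A₂ : Set ℂ}
    (hA₁ : MeasurableSet A₁) (hA₂ : MeasurableSet A₂) :
    JM W K B (A₁ ×ˢ A₂) = ENNReal.ofReal (W.J K (limEv (A₁ ∩ B)) (limEv (A₂ ∩ B))) := by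
  rw [JM, Measure.finset_sum_apply, RW.J, ENNReal.ofReal_sum_of_nonneg]
  · refine Finset.sum_congr rfl fun y _ => ?_
    rw [Measure.prod_prod, eM_apply _ _ _ _ hA₁, hM_apply _ _ _ hA₂,
      ENNReal.ofReal_mul (e_nonneg _ _ _ _)]
  · intro y _
    exact mul_nonneg (e_nonneg _ _ _ _) measureReal_nonneg

instance (W : RW ℂ) (K : Finset ℂ) (B : Set ℂ) : IsFiniteMeasure (JM W K B) := by
  constructor
  rw [← univ_prod_univ, JM_apply _ _ _ MeasurableSet.univ MeasurableSet.univ]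
  exact ENNReal.ofReal_lt_top

/-- no mass on the diagonal -/
theorem JM_diag (S : Cfg) (hS : Reg S.1) (K : Finset ℂ) (hK : (K : Set ℂ) ⊆ S.1) {B : Set ℂ}
    (hB : MeasurableSet B) (hBN : Disjoint B (nul S)) :
    JM (walk S hS) K B {x : ℂ × ℂ | x.1 = x.2} = 0 := by
  rw [JM, Measure.finset_sum_apply]
  refine Finset.sum_eq_zero fun x hx => ?_
  have hmd : MeasurableSet {x : ℂ × ℂ | x.1 = x.2} := measurableSet_eq_fun measurable_fst
    measurable_snd
  rw [Measure.prod_apply hmd]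
  have : ∀ ξ : ℂ, hM (walk S hS) B x (Prod.mk ξ ⁻¹' {x : ℂ × ℂ | x.1 = x.2}) = 0 := by
    intro ξ
    have h1 : (Prod.mk ξ ⁻¹' {x : ℂ × ℂ | x.1 = x.2} : Set ℂ) = {ξ} := by
      ext η
      simp [eq_comm]
    rw [h1, hM_apply _ _ _ (measurableSet_singleton ξ), h_eq_zero S hS (hK hx)
      ((measurableSet_singleton ξ).inter hB) (hBN.mono_left inter_subset_right)
      (measure_mono_null inter_subset_left (circ_singleton ξ)), ENNReal.ofReal_zero]
  rw [lintegral_congr this, lintegral_zero]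

theorem nbr_subset (S : Set ℂ) (x : ℂ) : (nbr S x : Set ℂ) ⊆ S := by
  intro y hy
  unfold nbr at hy
  split_ifs at hy with h
  · exact ((Set.Finite.mem_toFinset h).1 hy).2.1
  · simp at hy

theorem nbr_eq_empty {S : Set ℂ} {x : ℂ} (hx : x ∉ S) : nbr S x = ∅ := by
  unfold nbr
  split_ifs with h
  · rw [Set.Finite.toFinset_eq_empty]
    ext y
    simp only [Set.mem_setOf_eq, Set.mem_empty_iff_false, iff_false]
    intro h1
    exact hx h1.1
  · rfl

theorem nbr_nonempty {S : Set ℂ} (hS : Reg S) {x : ℂ} (hx : x ∈ S) : (nbr S x).Nonempty := by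
  unfold nbr
  rw [dif_pos (hS x hx).1]
  exact (Set.Finite.toFinset_nonempty _).2 (hS x hx).2

theorem ins_val {p : ℂ} (hp : p ∈ disc) (S : Cfg) : (ins p S).1 = insert p S.1 := by
  ext z
  simp only [ins, insSet, Set.mem_setOf_eq, Set.mem_insert_iff]
  constructor
  · rintro (h | ⟨h, _⟩)
    · exact Or.inr h
    · exact Or.inl h
  · rintro (h | h)
    · exact Or.inr ⟨h, hp⟩
    · exact Or.inl h

/-- exhaustion of a configuration by finite sets -/
noncomputable def exh (S : Cfg) (n : ℕ) : Finset ℂ :=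
  (S.2.2 (1 - 1 / ((n : ℝ) + 2)) (by
    have : (0 : ℝ) < 1 / ((n : ℝ) + 2) := by positivity
    linarith)).toFinset

theorem mem_exh (S : Cfg) (n : ℕ) (z : ℂ) :
    z ∈ exh S n ↔ z ∈ S.1 ∧ ‖z‖ ≤ 1 - 1 / ((n : ℝ) + 2) := by
  simp [exh]

theorem exh_mono (S : Cfg) : Monotone (exh S) := by
  intro m n hmn z hz
  rw [mem_exh] at hz ⊢
  refine ⟨hz.1, hz.2.trans ?_⟩
  have : (1 : ℝ) / ((n : ℝ) + 2) ≤ 1 / ((m : ℝ) + 2) := by
    apply one_div_le_one_div_of_le (by positivity)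
    have : (m : ℝ) ≤ n := by exact_mod_cast hmn
    linarith
  linarith

theorem exists_mem_exh (S : Cfg) {z : ℂ} (hz : z ∈ S.1) : ∃ n, z ∈ exh S n := by
  have h1 : ‖z‖ < 1 := by simpa using S.2.1 hz
  obtain ⟨n, hn⟩ := exists_nat_gt (1 / (1 - ‖z‖))
  refine ⟨n, (mem_exh _ _ _).2 ⟨hz, ?_⟩⟩
  have h2 : 0 < 1 - ‖z‖ := by linarith
  have h3 : (1 : ℝ) / ((n : ℝ) + 2) ≤ 1 - ‖z‖ := by
    rw [div_le_iff₀ (by positivity)]
    rw [div_lt_iff₀ h2] at hn
    nlinarith
  linarith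

/-- the separated case -/
theorem J_eq_sep (S : Cfg) (hS : Good S.1) {p : ℂ} (hp : p ∈ disc) (hpS : p ∉ S.1)
    (hS' : Good (ins p S).1) (hj : ∀ᵐ x ∂(circ.prod circ), jd (ins p S) x = jd S x)
    {a b c : ℂ} (hout : ∀ z, z ≠ a → z ≠ b → z ≠ c → z ≠ p → nbr (ins p S).1 z = nbr S.1 z)
    (ha : a ∈ S.1) (hb : b ∈ S.1) (hc : c ∈ S.1)
    {A B : Set ℂ} (hA : MeasurableSet A) (hB : MeasurableSet B) (hAN : Disjoint A (nul S))
    (hAN' : Disjoint A (nul (ins p S))) (hBN : Disjoint B (nul S))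
    (hBN' : Disjoint B (nul (ins p S))) {r : ℝ} (hr : 0 < r)
    (hAB : ∀ ξ ∈ A, ∀ η ∈ B, r ≤ ‖ξ - η‖) :
    (walk S hS.reg).J {a, b, c} (limEv A) (limEv B) =
      (walk (ins p S) hS'.reg).J {a, b, c, p} (limEv A) (limEv B) := by
  set W := walk S hS.reg with hW
  set W' := walk (ins p S) hS'.reg with hW'
  have hpa : p ≠ a := fun h => hpS (h ▸ ha)
  have hpb : p ≠ b := fun h => hpS (h ▸ hb)
  have hpc : p ≠ c := fun h => hpS (h ▸ hc)
  set L : ℕ → Finset ℂ := fun n => exh S n ∪ {a, b, c, p} with hL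
  have hK : ({a, b, c, p} : Finset ℂ).erase p = {a, b, c} := by
    ext z
    simp only [Finset.mem_erase, Finset.mem_insert, Finset.mem_singleton]
    constructor
    · rintro ⟨h1, h2⟩
      tauto
    · rintro (h | h | h)
      · exact ⟨h ▸ hpa.symm, Or.inl h⟩
      · exact ⟨h ▸ hpb.symm, Or.inr (Or.inl h)⟩
      · exact ⟨h ▸ hpc.symm, Or.inr (Or.inr (Or.inl h))⟩
  have hLmono : Monotone L := fun m n hmn =>
    Finset.union_subset_union (exh_mono S hmn) (le_refl _)
  have hLS : ∀ n, ∀ z ∈ L n, z ≠ p → z ∈ S.1 := by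
    intro n z hz hzp
    simp only [hL, Finset.mem_union, Finset.mem_insert, Finset.mem_singleton, mem_exh] at hz
    rcases hz with h | h | h | h | h
    · exact h.1
    · exact h ▸ ha
    · exact h ▸ hb
    · exact h ▸ hc
    · exact absurd h hzp
  have hval := ins_val hp S
  have hmono1 : Monotone fun n => (L n).erase p := fun m n hmn =>
    Finset.erase_subset_erase p (hLmono hmn)
  have t1 := jd_rect S hS hA hB hAN hBN (fun n => (L n).erase p) hmono1
    (by
      intro n z hz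
      have hz' : z ∈ (L n).erase p := hz
      rw [Finset.mem_erase] at hz'
      exact hLS n z hz'.2 hz'.1)
    (by
      intro z hz
      obtain ⟨n, hn⟩ := exists_mem_exh S hz
      refine ⟨n, Finset.mem_erase.2 ⟨fun h => hpS (h ▸ hz), Finset.mem_union_left _ hn⟩⟩)
  have t2 := jd_rect (ins p S) hS' hA hB hAN' hBN' L hLmono
    (by
      intro n z hz
      have hz' : z ∈ L n := hz
      rw [hval]
      by_cases hzp : z = p
      · exact Or.inl hzp
      · exact Or.inr (hLS n z hz' hzp))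
    (by
      intro z hz
      rw [hval] at hz
      rcases hz with hz | hz
      · exact ⟨0, by simp [hL, hz]⟩
      · obtain ⟨n, hn⟩ := exists_mem_exh S hz
        exact ⟨n, Finset.mem_union_left _ hn⟩)
  have hI : ∫⁻ x in A ×ˢ B, jd (ins p S) x ∂(circ.prod circ) =
      ∫⁻ x in A ×ˢ B, jd S x ∂(circ.prod circ) :=
    lintegral_congr_ae (ae_restrict_of_ae hj)
  rw [hI] at t2
  have hfin : ∫⁻ x in A ×ˢ B, jd S x ∂(circ.prod circ) ≠ ∞ := by
    refine ne_top_of_le_ne_top (jd_finite S hS hr) (lintegral_mono_set ?_)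
    rintro ⟨ξ, η⟩ ⟨h1, h2⟩
    exact hAB ξ h1 η h2
  have t1' := (ENNReal.tendsto_toReal hfin).comp t1
  have t2' := (ENNReal.tendsto_toReal hfin).comp t2
  have e1 : ∀ n, (ENNReal.ofReal (W.J ((L n).erase p) (limEv A) (limEv B))).toReal =
      W.J ((L n).erase p) (limEv A) (limEv B) := fun n =>
    ENNReal.toReal_ofReal (J_nonneg _ _ _ _)
  have e2 : ∀ n, (ENNReal.ofReal (W'.J (L n) (limEv A) (limEv B))).toReal =
      W'.J (L n) (limEv A) (limEv B) := fun n =>
    ENNReal.toReal_ofReal (J_nonneg _ _ _ _)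
  have t3 : Tendsto (fun n => W.J ((L n).erase p) (limEv A) (limEv B)) atTop
      (𝓝 (∫⁻ x in A ×ˢ B, jd S x ∂(circ.prod circ)).toReal) := by
    refine t1'.congr fun n => ?_
    exact e1 n
  have t4 : Tendsto (fun n => W'.J (L n) (limEv A) (limEv B)) atTop
      (𝓝 (∫⁻ x in A ×ˢ B, jd S x ∂(circ.prod circ)).toReal) := by
    refine t2'.congr fun n => ?_
    exact e2 n
  have key : ∀ n, W.J ((L n).erase p) (limEv A) (limEv B) - W.J {a, b, c} (limEv A) (limEv B) =
      W'.J (L n) (limEv A) (limEv B) - W'.J {a, b, c, p} (limEv A) (limEv B) := by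
    intro n
    have := RW.J_diff_congr W W' (K := {a, b, c, p}) (L := L n) Finset.subset_union_right
      (by
        intro z hz
        simp only [Finset.mem_insert, Finset.mem_singleton, not_or] at hz
        exact hout z hz.1 hz.2.1 hz.2.2.1 hz.2.2.2)
      (by
        intro x hx
        rw [Finset.mem_sdiff] at hx
        have hxp : x ≠ p := by
          intro h
          apply hx.2
          simp [h]
        exact nbr_nonempty hS.reg (hLS n x hx.1 hxp))
      (by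
        intro x hx
        apply nbr_nonempty hS'.reg
        rw [hval]
        simp only [Finset.mem_insert, Finset.mem_singleton] at hx
        rcases hx with h | h | h | h
        · exact Or.inr (h ▸ ha)
        · exact Or.inr (h ▸ hb)
        · exact Or.inr (h ▸ hc)
        · exact Or.inl h)
      (p := p) (by simp) (nbr_eq_empty hpS)
      (by
        intro x hx hxp
        apply nbr_nonempty hS.reg
        simp only [Finset.mem_insert, Finset.mem_singleton] at hx
        rcases hx with h | h | h | h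
        · exact h ▸ ha
        · exact h ▸ hb
        · exact h ▸ hc
        · exact absurd h hxp)
      (limEv_inv hA) (limEv_inv hB)
    rw [hK] at this
    exact this
  have t5 : Tendsto (fun n => W.J ((L n).erase p) (limEv A) (limEv B) -
      W'.J (L n) (limEv A) (limEv B)) atTop (𝓝 0) := by
    have := t3.sub t4
    rwa [sub_self] at this
  have t6 : (fun n => W.J ((L n).erase p) (limEv A) (limEv B) -
      W'.J (L n) (limEv A) (limEv B)) = fun _ => W.J {a, b, c} (limEv A) (limEv B) -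
      W'.J {a, b, c, p} (limEv A) (limEv B) := by
    funext n
    linarith [key n]
  rw [t6] at t5
  have := tendsto_nhds_unique t5 tendsto_const_nhds
  linarith

/-- transfer of the invariance of the density to the finite excursion measures -/
theorem J_eq_of_jd (S : Cfg) (hS : Good S.1) {p : ℂ} (hp : p ∈ disc) (hpS : p ∉ S.1)
    (hS' : Good (ins p S).1) (hj : ∀ᵐ x ∂(circ.prod circ), jd (ins p S) x = jd S x)
    {a b c : ℂ} (hout : ∀ z, z ≠ a → z ≠ b → z ≠ c → z ≠ p → nbr (ins p S).1 z = nbr S.1 z)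
    (ha : a ∈ S.1) (hb : b ∈ S.1) (hc : c ∈ S.1)
    {B : Set ℂ} (hB : MeasurableSet B) (hBN : Disjoint B (nul S))
    (hBN' : Disjoint B (nul (ins p S))) :
    (walk S hS.reg).J {a, b, c} (limEv B) (limEv B) =
      (walk (ins p S) hS'.reg).J {a, b, c, p} (limEv B) (limEv B) := by
  set W := walk S hS.reg with hW
  set W' := walk (ins p S) hS'.reg with hW'
  set M := JM W {a, b, c} B with hM
  set M' := JM W' {a, b, c, p} B with hM'
  -- countable family of separated rectangles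
  obtain ⟨D, hDc, hDd⟩ := TopologicalSpace.exists_countable_dense ℂ
  have hDc' : Countable D := hDc
  let ι := {t : (D × D) × ℚ // 0 < (t.2 : ℝ) ∧ 3 * (t.2 : ℝ) ≤ ‖(t.1.1 : ℂ) - t.1.2‖}
  let R : ι → Set (ℂ × ℂ) := fun t => Metric.ball (t.1.1.1 : ℂ) t.1.2 ×ˢ Metric.ball (t.1.1.2 : ℂ) t.1.2
  have hcov : {x : ℂ × ℂ | x.1 ≠ x.2} ⊆ ⋃ t : ι, R t := by
    rintro ⟨ξ, η⟩ hne
    have hd : 0 < ‖ξ - η‖ := by
      rw [norm_pos_iff, sub_ne_zero]
      exact hne
    obtain ⟨r, hr0, hr1⟩ := exists_rat_btwn (show (0 : ℝ) < ‖ξ - η‖ / 8 by positivity)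
    obtain ⟨q₁, hq₁, hq₁'⟩ := hDd.exists_dist_lt ξ hr0
    obtain ⟨q₂, hq₂, hq₂'⟩ := hDd.exists_dist_lt η hr0
    have h3 : 3 * (r : ℝ) ≤ ‖q₁ - q₂‖ := by
      rw [dist_eq_norm] at hq₁' hq₂'
      have : ‖ξ - η‖ ≤ ‖ξ - q₁‖ + ‖q₁ - q₂‖ + ‖η - q₂‖ := by
        calc ‖ξ - η‖ = ‖(ξ - q₁) + (q₁ - q₂) - (η - q₂)‖ := by ring_nf
          _ ≤ ‖(ξ - q₁) + (q₁ - q₂)‖ + ‖η - q₂‖ := norm_sub_le _ _
          _ ≤ _ := by gcongr; exact norm_add_le _ _
      linarith
    rw [mem_iUnion]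
    refine ⟨⟨⟨⟨⟨q₁, hq₁⟩, ⟨q₂, hq₂⟩⟩, r⟩, hr0, h3⟩, ?_⟩
    exact ⟨by simpa using hq₁', by simpa using hq₂'⟩
  have hpiece : ∀ t : ι, M.restrict (R t) = M'.restrict (R t) := by
    intro t
    apply Measure.ext_prod
    intro s u hs hu
    have hball : MeasurableSet (Metric.ball (t.1.1.1 : ℂ) (t.1.2 : ℝ)) := measurableSet_ball
    have hball' : MeasurableSet (Metric.ball (t.1.1.2 : ℂ) (t.1.2 : ℝ)) := measurableSet_ball
    have hinter : s ×ˢ u ∩ R t = (s ∩ Metric.ball (t.1.1.1 : ℂ) t.1.2) ×ˢ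
        (u ∩ Metric.ball (t.1.1.2 : ℂ) t.1.2) := by
      ext ⟨x, y⟩
      simp only [R, mem_inter_iff, mem_prod]
      tauto
    rw [Measure.restrict_apply (hs.prod hu), Measure.restrict_apply (hs.prod hu), hinter, hM, hM',
      JM_apply _ _ _ (hs.inter hball) (hu.inter hball'),
      JM_apply _ _ _ (hs.inter hball) (hu.inter hball')]
    congr 1
    refine J_eq_sep S hS hp hpS hS' hj hout ha hb hc ((hs.inter hball).inter hB)
      ((hu.inter hball').inter hB) (hBN.mono_left inter_subset_right)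
      (hBN'.mono_left inter_subset_right) (hBN.mono_left inter_subset_right)
      (hBN'.mono_left inter_subset_right) (r := t.1.2) t.2.1 ?_
    rintro ξ ⟨⟨_, h1⟩, _⟩ η ⟨⟨_, h2⟩, _⟩
    rw [Metric.mem_ball, dist_eq_norm] at h1 h2
    have h3 := t.2.2
    have : ‖(t.1.1.1 : ℂ) - t.1.1.2‖ ≤ ‖ξ - (t.1.1.1 : ℂ)‖ + ‖ξ - η‖ + ‖η - (t.1.1.2 : ℂ)‖ := by
      calc ‖(t.1.1.1 : ℂ) - t.1.1.2‖ = ‖-(ξ - (t.1.1.1 : ℂ)) + (ξ - η) + (η - (t.1.1.2 : ℂ))‖ := by
            ring_nf
        _ ≤ ‖-(ξ - (t.1.1.1 : ℂ)) + (ξ - η)‖ + ‖η - (t.1.1.2 : ℂ)‖ := norm_add_le _ _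
        _ ≤ ‖-(ξ - (t.1.1.1 : ℂ))‖ + ‖ξ - η‖ + ‖η - (t.1.1.2 : ℂ)‖ := by
            gcongr; exact norm_add_le _ _
        _ = _ := by rw [norm_neg]
    linarith
  have hU : M.restrict (⋃ t : ι, R t) = M'.restrict (⋃ t : ι, R t) :=
    Measure.restrict_iUnion_congr.2 hpiece
  have hUm : MeasurableSet (⋃ t : ι, R t) :=
    MeasurableSet.iUnion fun t => measurableSet_ball.prod measurableSet_ball
  have hcompl : (⋃ t : ι, R t)ᶜ ⊆ {x : ℂ × ℂ | x.1 = x.2} := by
    intro x hx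
    by_contra h
    exact hx (hcov h)
  have hz : M (⋃ t : ι, R t)ᶜ = 0 := by
    refine measure_mono_null hcompl (JM_diag S hS.reg _ ?_ hB hBN)
    intro z hz
    simp only [Finset.coe_insert, Finset.coe_singleton, mem_insert_iff, mem_singleton_iff] at hz
    rcases hz with h | h | h
    · exact h ▸ ha
    · exact h ▸ hb
    · exact h ▸ hc
  have hz' : M' (⋃ t : ι, R t)ᶜ = 0 := by
    refine measure_mono_null hcompl (JM_diag (ins p S) hS'.reg _ ?_ hB hBN')
    intro z hz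
    rw [ins_val hp S]
    simp only [Finset.coe_insert, Finset.coe_singleton, mem_insert_iff, mem_singleton_iff] at hz
    rcases hz with h | h | h | h
    · exact Or.inr (h ▸ ha)
    · exact Or.inr (h ▸ hb)
    · exact Or.inr (h ▸ hc)
    · exact Or.inl h
  have htot : M univ = M' univ := by
    rw [← measure_add_measure_compl hUm, ← measure_add_measure_compl (μ := M') hUm, hz, hz',
      add_zero, add_zero]
    have h1 := congrArg (fun m : Measure (ℂ × ℂ) => m univ) hU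
    simpa [Measure.restrict_apply_univ] using h1
  rw [← univ_prod_univ, hM, hM', JM_apply _ _ _ MeasurableSet.univ MeasurableSet.univ,
    JM_apply _ _ _ MeasurableSet.univ MeasurableSet.univ, univ_inter] at htot
  exact (ENNReal.ofReal_eq_ofReal_iff (J_nonneg _ _ _ _) (J_nonneg _ _ _ _)).1 htot

end HPV
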