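import Pool.Agent.Helper28.HPV.FinalA

/-! T20, part B: almost sure singularity. -/

open MeasureTheory ProbabilityTheory Set Filter Topology
open scoped ENNReal NNReal Real

namespace HPV

theorem DAdj.symm {S : Set ℂ} {x y : ℂ} (h : DAdj S x y) : DAdj S y x := by
  obtain ⟨hx, hy, hxy, c, r, h1, h2, h3, h4⟩ := h
  exact ⟨hy, hx, hxy.symm, c, r, h1, h3, h2, fun w hw h5 h6 => h4 w hw h6 h5⟩

theorem DAdj.anti {S S' : Set ℂ} (hS : S ⊆ S') {x y : ℂ} (h : DAdj S' x y) (hx : x ∈ S)
    (hy : y ∈ S) : DAdj S x y := by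
  obtain ⟨_, _, hxy, c, r, h1, h2, h3, h4⟩ := h
  exact ⟨hx, hy, hxy, c, r, h1, h2, h3, fun w hw h5 h6 => h4 w (hS hw) h5 h6⟩

theorem hypArea_ball_ne_zero {a : ℂ} {δ : ℝ} (hδ : 0 < δ) (h : Metric.ball a δ ⊆ disc) :
    hypArea (Metric.ball a δ) ≠ 0 := by
  intro h0
  rw [hypArea, withDensity_apply _ measurableSet_ball] at h0
  rw [Measure.restrict_restrict measurableSet_ball, inter_eq_left.2 h] at h0
  have hm : Measurable fun z : ℂ => ENNReal.ofReal (4 / (1 - ‖z‖ ^ 2) ^ 2) := by fun_prop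
  rw [lintegral_eq_zero_iff hm] at h0
  have h1 : ∀ᵐ z ∂(volume.restrict (Metric.ball a δ)), False := by
    filter_upwards [h0, ae_restrict_mem measurableSet_ball] with z hz hz2
    have h3 : ‖z‖ < 1 := by simpa using h hz2
    have h4 : 0 < 1 - ‖z‖ ^ 2 := by nlinarith [norm_nonneg z]
    have h5 : 0 < 4 / (1 - ‖z‖ ^ 2) ^ 2 := by positivity
    rw [Pi.zero_apply, ENNReal.ofReal_eq_zero] at hz
    linarith
  rw [ae_iff] at h1
  simp only [not_false_eq_true] at h1
  have h6 : (volume.restrict (Metric.ball a δ)) univ = 0 := by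
    convert h1 using 2
    ext x
    simp
  rw [Measure.restrict_apply_univ] at h6
  exact (Metric.measure_ball_pos volume a hδ).ne' h6

theorem exists_of_ae {P : ℂ → Prop} (hP : ∀ᵐ a ∂hypArea, P a) {a₀ : ℂ} {δ : ℝ} (hδ : 0 < δ)
    (h : Metric.ball a₀ δ ⊆ disc) : ∃ a ∈ Metric.ball a₀ δ, P a := by
  by_contra hcon
  push Not at hcon
  apply hypArea_ball_ne_zero hδ h
  rw [ae_iff] at hP
  exact measure_mono_null (fun a ha => hcon a ha) hP

theorem mem_nbr_iff {S : Cfg} (hS : Reg S.1) {x y : ℂ} : y ∈ nbr S.1 x ↔ DAdj S.1 x y := by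
  rw [mem_nbr hS, VAdj_iff_DAdj S.2]

/-- step 1: degree three insertion -/
theorem h_eq_of_Loc2 (S : Cfg) (hS : Good S.1) {p : ℂ} (hp : p ∈ disc)
    (hS' : Good (ins p S).1) (hj : ∀ᵐ x ∂(circ.prod circ), jd (ins p S) x = jd S x)
    {v a y : ℂ} (hL : Loc2 S.1 v a y p) (hva : DAdj S.1 v a) (hvy : DAdj S.1 v y) (hay : a ≠ y)
    {B : Set ℂ} (hB : MeasurableSet B) (hBN : Disjoint B (nul S))
    (hBN' : Disjoint B (nul (ins p S))) :
    (walk S hS.reg).h (limEv B) y = (walk S hS.reg).h (limEv B) v ∧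
      (walk S hS.reg).h (limEv B) v = (walk S hS.reg).h (limEv B) a := by
  have hval := ins_val hp S
  have hpS := hL.notMem
  have hmem' : ∀ x z, z ∈ nbr (ins p S).1 x ↔ DAdj (insert p S.1) x z := by
    intro x z
    rw [mem_nbr_iff hS'.reg, hval]
  have hmem : ∀ x z, z ∈ nbr S.1 x ↔ DAdj S.1 x z := fun x z => mem_nbr_iff hS.reg
  have hvS : v ∈ S.1 := hva.1
  have haS : a ∈ S.1 := hva.2.1
  have hyS : y ∈ S.1 := hvy.2.1
  have hpv : p ≠ v := fun h => hpS (h ▸ hvS)
  have hpa : p ≠ a := fun h => hpS (h ▸ haS)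
  have hpy : p ≠ y := fun h => hpS (h ▸ hyS)
  have hold : ∀ x z, x ≠ p → z ≠ p → (DAdj (insert p S.1) x z ↔ DAdj S.1 x z) := by
    intro x z hx hz
    constructor
    · intro h
      exact h.anti (subset_insert _ _) (h.1.resolve_left hx) (h.2.1.resolve_left hz)
    · exact hL.old x z
  have hout : ∀ z, z ≠ y → z ≠ v → z ≠ a → z ≠ p → nbr (ins p S).1 z = nbr S.1 z := by
    intro z hzy hzv hza hzp
    ext w
    rw [hmem', hmem]
    by_cases hw : w = p
    · subst hw
      constructor
      · intro h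
        rcases (hL.nb z).1 h.symm with h | h | h
        · exact absurd h hzv
        · exact absurd h hza
        · exact absurd h hzy
      · intro h
        exact absurd h.2.1 hpS
    · exact hold z w hzp hw
  have hins : ∀ x, (x = v ∨ x = a ∨ x = y) → x ≠ p →
      nbr (ins p S).1 x = insert p (nbr S.1 x) := by
    intro x hx hxp
    ext w
    rw [Finset.mem_insert, hmem', hmem]
    by_cases hw : w = p
    · subst hw
      simp only [true_or, iff_true]
      exact ((hL.nb x).2 hx).symm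
    · rw [hold x w hxp hw]
      simp [hw]
  have hJ := J_eq_of_jd S hS hp hpS hS' hj (a := y) (b := v) (c := a) hout hyS hvS haS hB hBN hBN'
  have := RW.det3 (walk S hS.reg) (walk (ins p S) hS'.reg) (a := y) (b := v) (c := a) (p := p)
    ((hmem y v).2 hvy.symm) ((hmem v a).2 hva) hay.symm (nbr_eq_empty hpS)
    (by
      show nbr (ins p S).1 p = {y, v, a}
      ext z
      rw [hmem', hL.nb z]
      simp only [Finset.mem_insert, Finset.mem_singleton]
      tauto)
    hout (hins y (by tauto) hpy.symm) (hins v (by tauto) hpv.symm) (hins a (by tauto) hpa.symm)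
    (limEv_inv hB) hJ
  exact this.1

/-- step 2: equality along an edge, for `B` off the relevant null sets -/
theorem h_eq_edge (S : Cfg) (hS : Good S.1)
    (hae : ∀ᵐ a ∂hypArea, Good (ins a S).1 ∧ ∀ᵐ p ∂hypArea, Good (ins p (ins a S)).1 ∧
      ∀ᵐ x ∂(circ.prod circ), jd (ins p (ins a S)) x = jd (ins a S) x)
    {v y : ℂ} (hvy : DAdj S.1 v y) {B : Set ℂ} (hB : MeasurableSet B)
    (hBN : Disjoint B (nul S)) :
    (walk S hS.reg).h (limEv B) y = (walk S hS.reg).h (limEv B) v := by
  obtain ⟨y', a₀, p₀, p₁, δ, hδ, ha₀, hp₀, hp₁, hloc⟩ := local_structure hS hvy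
  obtain ⟨a, haδ, hS1, haep⟩ := exists_of_ae hae hδ ha₀
  obtain ⟨p, hpδ, hS2, hjp⟩ := exists_of_ae haep hδ hp₀
  obtain ⟨p', hpδ', hS2', hjp'⟩ := exists_of_ae haep hδ hp₁
  obtain ⟨L1, L2, L2'⟩ := hloc a haδ p hpδ p' hpδ'
  have had : a ∈ disc := ha₀ haδ
  have hpd : p ∈ disc := hp₀ hpδ
  have hpd' : p' ∈ disc := hp₁ hpδ'
  have hval := ins_val had S
  have haS := L1.notMem
  have hav : a ≠ v := fun h => haS (h ▸ hvy.1)
  have hmem1 : ∀ x z, z ∈ nbr (ins a S).1 x ↔ DAdj (insert a S.1) x z := by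
    intro x z
    rw [mem_nbr_iff hS1.reg, hval]
  have hmem : ∀ x z, z ∈ nbr S.1 x ↔ DAdj S.1 x z := fun x z => mem_nbr_iff hS.reg
  -- the exceptional null set
  set N : Set ℂ := nul S ∪ nul (ins a S) ∪ nul (ins p (ins a S)) ∪ nul (ins p' (ins a S)) with hN
  have hNm : MeasurableSet N :=
    (((measurableSet_nul _).union (measurableSet_nul _)).union (measurableSet_nul _)).union
      (measurableSet_nul _)
  have hN0 : circ N = 0 := by
    rw [hN]
    simp only [measure_union_null_iff, circ_nul, and_self]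
  have main : ∀ B' : Set ℂ, MeasurableSet B' → Disjoint B' N →
      (walk S hS.reg).h (limEv B') y = (walk S hS.reg).h (limEv B') v := by
    intro B' hB' hBN'
    have hd1 : Disjoint B' (nul (ins a S)) := hBN'.mono_right (by
      intro z hz
      exact Or.inl (Or.inl (Or.inr hz)))
    have hd2 : Disjoint B' (nul (ins p (ins a S))) := hBN'.mono_right (by
      intro z hz
      exact Or.inl (Or.inr hz))
    have hd3 : Disjoint B' (nul (ins p' (ins a S))) := hBN'.mono_right (by
      intro z hz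
      exact Or.inr hz)
    have hay : a ≠ y := fun h => haS (h ▸ hvy.2.1)
    have hay' : a ≠ y' := L1.ay'.2.2.1
    have r1 := h_eq_of_Loc2 (ins a S) hS1 hpd hS2 hjp (v := v) (a := a) (y := y)
      (by rw [hval]; exact L2) (by rw [hval]; exact L1.va) (by rw [hval]; exact L1.vy) hay
      hB' hd1 hd2
    have r2 := h_eq_of_Loc2 (ins a S) hS1 hpd' hS2' hjp' (v := v) (a := a) (y := y')
      (by rw [hval]; exact L2') (by rw [hval]; exact L1.va) (by rw [hval]; exact L1.vy') hay'
      hB' hd1 hd3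
    refine RW.det2 (walk S hS.reg) (walk (ins a S) hS1.reg) (v := v) (a := a) hav.symm
      (nbr_eq_empty haS) ⟨y, (hmem v y).2 hvy⟩ ((hmem1 a v).2 L1.va.symm) ?_ ?_ ?_ ?_
      (limEv_inv hB') r1.2.symm ?_ y ((hmem1 v y).2 L1.vy) ((hmem1 a y).2 L1.ay)
    · intro z hz
      rw [Finset.mem_insert]
      rcases L1.a_sub z ((hmem1 a z).1 hz) with h | h
      · exact Or.inl h
      · exact Or.inr ((hmem v z).2 h)
    · intro z hz
      rw [Finset.mem_insert]
      have h := (hmem1 v z).1 hz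
      by_cases hza : z = a
      · exact Or.inl hza
      · exact Or.inr ((hmem v z).2 (h.anti (subset_insert _ _) hvy.1 (h.2.1.resolve_left hza)))
    · intro z hz
      rcases L1.cover z ((hmem v z).1 hz) with h | h
      · exact Or.inl ((hmem1 v z).2 h)
      · exact Or.inr ((hmem1 a z).2 h)
    · intro x z hxv hxa hzv hza
      show z ∈ nbr (ins a S).1 x ↔ z ∈ nbr S.1 x
      rw [hmem1, hmem]
      constructor
      · intro h
        exact h.anti (subset_insert _ _) (h.1.resolve_left hxa) (h.2.1.resolve_left hza)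
      · exact L1.old x z hxv hzv
    · intro z hz1 hz2
      rcases L1.shared z ((hmem1 v z).1 hz1) ((hmem1 a z).1 hz2) with h | h
      · rw [h]
        exact r1.1
      · rw [h]
        exact r2.1
  -- general `B`
  have split : ∀ x ∈ S.1, (walk S hS.reg).h (limEv B) x =
      (walk S hS.reg).h (limEv (B \ N)) x := by
    intro x hx
    have hprob := (walk S hS.reg).prob x
    have e1 : limEv B = limEv (B \ N) ∪ limEv (B ∩ N) := by
      ext q
      constructor
      · rintro ⟨ξ, h1, h2⟩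
        by_cases hξ : ξ ∈ N
        · exact Or.inr ⟨ξ, ⟨h1, hξ⟩, h2⟩
        · exact Or.inl ⟨ξ, ⟨h1, hξ⟩, h2⟩
      · rintro (⟨ξ, h1, h2⟩ | ⟨ξ, h1, h2⟩)
        · exact ⟨ξ, h1.1, h2⟩
        · exact ⟨ξ, h1.1, h2⟩
    have e2 : (walk S hS.reg).h (limEv (B ∩ N)) x = 0 :=
      h_eq_zero S hS.reg hx (hB.inter hNm) (hBN.mono_left inter_subset_left)
        (measure_mono_null inter_subset_right hN0)
    have e3 : Disjoint (limEv (B \ N)) (limEv (B ∩ N)) :=
      limEv_disjoint (disjoint_sdiff_left.mono_right inter_subset_right)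
    unfold RW.h at e2 ⊢
    rw [e1, measureReal_union e3 (measurableSet_limEv (hB.inter hNm)), e2, add_zero]
  rw [split y hvy.2.1, split v hvy.1]
  exact main _ (hB.diff hNm) disjoint_sdiff_left

theorem sigmaFinite_hypArea : SigmaFinite hypArea := by
  unfold hypArea
  exact SigmaFinite.withDensity_ofReal _

/-- the almost sure statement that is used -/
theorem ae_two_insertions {μ : Measure Cfg} {lam : ℝ} (h : IsPoissonLaw μ lam) :
    ∀ᵐ S ∂μ, Good S.1 ∧ ∀ᵐ a ∂hypArea, Good (ins a S).1 ∧ ∀ᵐ p ∂hypArea,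
      Good (ins p (ins a S)).1 ∧
        ∀ᵐ x ∂(circ.prod circ), jd (ins p (ins a S)) x = jd (ins a S) x := by
  have := h.isProb
  have := sigmaFinite_hypArea
  -- swap the order of a product a.e. statement
  have swap : ∀ Q : ℂ × Cfg → Prop, (∀ᵐ q ∂(hypArea.prod μ), Q q) →
      ∀ᵐ S ∂μ, ∀ᵐ a ∂hypArea, Q (a, S) := by
    intro Q hQ
    have h1 : ∀ᵐ q ∂(μ.prod hypArea), Q q.swap := by
      have := Measure.prod_swap (μ := μ) (ν := hypArea)
      rw [← this] at hQ
      exact ae_of_ae_map measurable_swap.aemeasurable hQ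
    exact Measure.ae_ae_of_ae_prod h1
  have g1 := h.ae_good
  have g2 : ∀ᵐ S ∂μ, Good S.1 ∧ ∀ᵐ p ∂hypArea, Good (ins p S).1 ∧
      ∀ᵐ x ∂(circ.prod circ), jd (ins p S) x = jd S x := by
    have e1 := swap _ (jd_ins h)
    have e2 := swap _ (h.ae_ins g1)
    filter_upwards [g1, e1, e2] with S h1 h2 h3
    refine ⟨h1, ?_⟩
    filter_upwards [h2, h3] with p h4 h5
    exact ⟨h5, h4⟩
  have g3 := swap _ (h.ae_ins g2)
  filter_upwards [g1, g3] with S h1 h2
  exact ⟨h1, h2⟩

/-- harmonic measure restricted to the event of convergence is singular -/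
theorem harm_singular {μ : Measure Cfg} {lam : ℝ} (h : IsPoissonLaw μ lam) :
    ∀ᵐ S ∂μ, Good S.1 ∧ ∀ x ∈ S.1, ∃ N : Set ℂ, MeasurableSet N ∧ circ N = 0 ∧
      pathK (S, x) (limEv Nᶜ) = 0 := by
  filter_upwards [ae_two_insertions h] with S hS
  obtain ⟨hG, hae⟩ := hS
  refine ⟨hG, fun x hx => ⟨nul S, measurableSet_nul S, circ_nul S, ?_⟩⟩
  by_contra hne
  -- edges
  have hedge : ∀ (B : Set ℂ), MeasurableSet B → Disjoint B (nul S) → ∀ y z,
      z ∈ (walk S hG.reg).nb y →
      (walk S hG.reg).h (limEv B) z = (walk S hG.reg).h (limEv B) y := by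
    intro B hB hBN y z hz
    exact h_eq_edge S hG hae ((mem_nbr_iff hG.reg).1 hz) hB hBN
  have h01 : ∀ (B : Set ℂ), MeasurableSet B → Disjoint B (nul S) →
      pathK (S, x) (limEv B) = 0 ∨ pathK (S, x) (limEv B) = 1 := by
    intro B hB hBN
    have := RW.zero_one (walk S hG.reg) (limEv_inv hB) (nbr_nonempty hG.reg hx)
      (hedge B hB hBN)
    have hfin : pathK (S, x) (limEv B) ≠ ∞ := measure_ne_top _ _
    rcases this with h1 | h1
    · left
      have h2 : (pathK (S, x) (limEv B)).toReal = 0 := h1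
      rcases (ENNReal.toReal_eq_zero_iff _).1 h2 with h3 | h3
      · exact h3
      · exact absurd h3 hfin
    · right
      have h2 : (pathK (S, x) (limEv B)).toReal = 1 := h1
      rw [← ENNReal.ofReal_toReal hfin, h2, ENNReal.ofReal_one]
  -- the law of the limit off the null set
  set ν : Measure ℂ := bdLaw ((pathK (S, x)).restrict (limEv (nul S)ᶜ)) with hν
  have hνa : ∀ A, MeasurableSet A → ν A = pathK (S, x) (limEv (A ∩ (nul S)ᶜ)) := by
    intro A hA
    rw [hν, bdLaw_restrict_apply _ hA, limEv_inter]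
  have hν01 : ∀ A, MeasurableSet A → ν A = 0 ∨ ν A = 1 := by
    intro A hA
    rw [hνa A hA]
    exact h01 _ (hA.inter (measurableSet_nul S).compl)
      (disjoint_compl_left.mono_left inter_subset_right)
  have hν1 : ν univ ≠ 0 := by
    rw [hνa _ MeasurableSet.univ, univ_inter]
    exact hne
  obtain ⟨z, -, hz⟩ := exists_mem_forall_mem_nhdsWithin_pos_measure hν1
  have hball : ∀ n : ℕ, ν (Metric.ball z (1 / ((n : ℝ) + 1))) = 1 := by
    intro n
    rcases hν01 _ (measurableSet_ball (x := z) (ε := 1 / ((n : ℝ) + 1))) with h1 | h1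
    · exfalso
      have := hz (Metric.ball z (1 / ((n : ℝ) + 1)))
        (mem_nhdsWithin_of_mem_nhds (Metric.ball_mem_nhds z (by positivity)))
      exact this.ne' h1
    · exact h1
  have hinter : (⋂ n : ℕ, Metric.ball z (1 / ((n : ℝ) + 1))) = {z} := by
    ext w
    simp only [mem_iInter, mem_singleton_iff, Metric.mem_ball]
    constructor
    · intro hw
      by_contra hwz
      obtain ⟨n, hn⟩ := exists_nat_one_div_lt (dist_pos.2 hwz)
      exact absurd (hw n) (not_lt.2 hn.le)
    · rintro rfl n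
      rw [dist_self]
      positivity
  have hz1 : ν {z} = 1 := by
    rw [← hinter]
    have hanti : Antitone fun n : ℕ => Metric.ball z (1 / ((n : ℝ) + 1)) := by
      intro m n hmn
      apply Metric.ball_subset_ball
      apply one_div_le_one_div_of_le (by positivity)
      have : (m : ℝ) ≤ n := by exact_mod_cast hmn
      linarith
    have := tendsto_measure_iInter_atTop (μ := ν)
      (fun n : ℕ => (measurableSet_ball (x := z) (ε := 1 / ((n : ℝ) + 1))).nullMeasurableSet) hanti
      ⟨0, measure_ne_top _ _⟩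
    refine tendsto_nhds_unique this ?_
    simp only [Function.comp_def, hball]
    exact tendsto_const_nhds
  have hz0 : ν {z} = 0 := by
    rw [hνa _ (measurableSet_singleton z)]
    have h2 := h_eq_zero S hG.reg hx ((measurableSet_singleton z).inter (measurableSet_nul S).compl)
      (disjoint_compl_left.mono_left inter_subset_right)
      (measure_mono_null inter_subset_left (circ_singleton z))
    have h3 : (pathK (S, x) (limEv ({z} ∩ (nul S)ᶜ))).toReal = 0 := h2
    rcases (ENNReal.toReal_eq_zero_iff _).1 h3 with h4 | h4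
    · exact h4
    · exact absurd h4 (measure_ne_top _ _)
  rw [hz0] at hz1
  exact zero_ne_one hz1

end HPV
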