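import Pool.Agent.Helper28.HPV.FinalB

/-! T20, part C: the final statement. -/

open MeasureTheory ProbabilityTheory Set Filter Topology
open scoped ENNReal NNReal Real

namespace HPV

section poisson

variable {Ω : Type*} [MeasurableSpace Ω] {P : Measure Ω} {X : Ω → Set ℂ} {lam : ℝ}

theorem IsPoissonProcess.isProb (h : IsPoissonProcess P X lam) : IsProbabilityMeasure P := by
  constructor
  have := h.law 0 (fun i => i.elim0) (fun i => i.elim0) (fun i => i.elim0) (fun i => i.elim0)
    (fun i => i.elim0)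
  simpa using this

theorem IsPoissonProcess.measurable_encard (h : IsPoissonProcess P X lam) {B : Set ℂ}
    (hB : MeasurableSet B) : Measurable fun ω => ((X ω ∩ B).encard : ℝ≥0∞) := by
  have h1 : ∀ t : ℝ≥0∞, MeasurableSet {ω | ((X ω ∩ B).encard : ℝ≥0∞) ≤ t} := by
    intro t
    by_cases ht : t = ∞
    · simp [ht]
    · have : {ω | ((X ω ∩ B).encard : ℝ≥0∞) ≤ t} =
          ⋃ k : ℕ, ⋃ _ : (k : ℝ≥0∞) ≤ t, {ω | (X ω ∩ B).encard = k} := by
        ext ω
        simp only [mem_iUnion, exists_prop]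
        constructor
        · intro hω
          have hω' : ((X ω ∩ B).encard : ℝ≥0∞) ≤ t := hω
          have hfin : (X ω ∩ B).encard ≠ ⊤ := by
            intro h2
            rw [h2] at hω'
            simp at hω'
            exact ht hω'
          obtain ⟨k, hk⟩ := ENat.ne_top_iff_exists.1 hfin
          refine ⟨k, ?_, hk.symm⟩
          rw [← hk] at hω'
          simpa using hω'
        · rintro ⟨k, hk, hk2⟩
          have hk3 : (X ω ∩ B).encard = k := hk2
          show ((X ω ∩ B).encard : ℝ≥0∞) ≤ t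
          rw [hk3]
          simpa using hk
      rw [this]
      exact MeasurableSet.iUnion fun k => MeasurableSet.iUnion fun _ => h.meas B hB k
  exact measurable_of_Iic h1

/-- almost surely the number of points in a set of finite area is finite -/
theorem IsPoissonProcess.ae_finite (h : IsPoissonProcess P X lam) (hlam : 0 < lam) {B : Set ℂ}
    (hB : MeasurableSet B) (hB' : hypArea B ≠ ∞) : ∀ᵐ ω ∂P, (X ω ∩ B).Finite := by
  have := h.isProb
  set t : ℝ := lam * (hypArea B).toReal with ht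
  have ht0 : 0 ≤ t := by positivity
  have hk : ∀ k : ℕ, P {ω | (X ω ∩ B).encard = k} =
      ENNReal.ofReal (Real.exp (-t) * t ^ k / k.factorial) := by
    intro k
    have := h.law 1 (fun _ => B) (fun _ => hB) (fun i j hij => absurd (Subsingleton.elim i j) hij)
      (fun _ => hB') (fun _ => k)
    simpa [ht] using this
  have hsum : P (⋃ k : ℕ, {ω | (X ω ∩ B).encard = k}) = 1 := by
    rw [measure_iUnion _ (fun k => h.meas B hB k)]
    · simp only [hk]
      rw [← ENNReal.ofReal_tsum_of_nonneg (fun k => by positivity)]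
      · have h1 : ∑' k : ℕ, Real.exp (-t) * t ^ k / k.factorial = 1 := by
          have h2 : ∀ k : ℕ, Real.exp (-t) * t ^ k / k.factorial =
              Real.exp (-t) * (t ^ k / k.factorial) := fun k => by ring
          simp only [h2]
          rw [tsum_mul_left]
          have h3 : ∑' k : ℕ, t ^ k / k.factorial = Real.exp t := by
            rw [Real.exp_eq_exp_ℝ, NormedSpace.exp_eq_tsum_div]
          rw [h3, ← Real.exp_add]
          simp
        rw [h1, ENNReal.ofReal_one]
      · have h2 : ∀ k : ℕ, Real.exp (-t) * t ^ k / k.factorial =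
            Real.exp (-t) * (t ^ k / k.factorial) := fun k => by ring
        simp only [h2]
        exact (Real.summable_pow_div_factorial t).mul_left _
    · intro k l hkl
      rw [Function.onFun, Set.disjoint_left]
      intro ω h1 h2
      have h1' : (X ω ∩ B).encard = k := h1
      have h2' : (X ω ∩ B).encard = l := h2
      rw [h1'] at h2'
      exact hkl (by exact_mod_cast h2')
  have hmeas : MeasurableSet (⋃ k : ℕ, {ω | (X ω ∩ B).encard = k}) :=
    MeasurableSet.iUnion fun k => h.meas B hB k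
  have h3 : ∀ᵐ ω ∂P, ω ∈ ⋃ k : ℕ, {ω | (X ω ∩ B).encard = k} := by
    rw [← prob_compl_eq_zero_iff hmeas] at hsum
    exact hsum
  filter_upwards [h3] with ω hω
  obtain ⟨k, hk⟩ := mem_iUnion.1 hω
  exact Set.finite_of_encard_eq_coe hk

theorem hypArea_closedBall_ne_top {r : ℝ} (hr : r < 1) :
    hypArea (Metric.closedBall 0 r) ≠ ∞ := by
  rw [hypArea, withDensity_apply _ Metric.isClosed_closedBall.measurableSet]
  have hb : ∀ z ∈ Metric.closedBall (0 : ℂ) r,
      ENNReal.ofReal (4 / (1 - ‖z‖ ^ 2) ^ 2) ≤ ENNReal.ofReal (4 / (1 - r ^ 2) ^ 2) := by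
    intro z hz
    have h1 : ‖z‖ ≤ r := by simpa using hz
    have h0 : 0 ≤ ‖z‖ := norm_nonneg z
    apply ENNReal.ofReal_le_ofReal
    have h2 : 0 < 1 - r ^ 2 := by nlinarith
    have h3 : 1 - r ^ 2 ≤ 1 - ‖z‖ ^ 2 := by nlinarith
    apply div_le_div_of_nonneg_left (by norm_num) (by positivity)
    exact pow_le_pow_left₀ h2.le h3 2
  refine ne_top_of_le_ne_top ?_ (setLIntegral_mono' Metric.isClosed_closedBall.measurableSet hb)
  rw [setLIntegral_const]
  refine ENNReal.mul_ne_top ENNReal.ofReal_ne_top ?_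
  refine ne_top_of_le_ne_top ?_ (Measure.restrict_le_self _)
  exact measure_closedBall_lt_top.ne

/-- almost surely locally finite -/
theorem IsPoissonProcess.ae_lf (h : IsPoissonProcess P X lam) (hlam : 0 < lam) :
    ∀ᵐ ω ∂P, IsLF (X ω) := by
  have h1 : ∀ᵐ ω ∂P, ∀ n : ℕ, (X ω ∩ Metric.closedBall 0 (1 - 1 / ((n : ℝ) + 2))).Finite := by
    rw [ae_all_iff]
    intro n
    refine h.ae_finite hlam Metric.isClosed_closedBall.measurableSet
      (hypArea_closedBall_ne_top ?_)
    have : (0 : ℝ) < 1 / ((n : ℝ) + 2) := by positivity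
    linarith
  filter_upwards [h1] with ω hω
  refine ⟨h.sub ω, fun r hr => ?_⟩
  obtain ⟨n, hn⟩ := exists_nat_gt (1 / (1 - r))
  refine (hω n).subset ?_
  rintro z ⟨hz1, hz2⟩
  refine ⟨hz1, ?_⟩
  apply Metric.closedBall_subset_closedBall _ hz2
  have h2 : 0 < 1 - r := by linarith
  have h3 : (1 : ℝ) / ((n : ℝ) + 2) ≤ 1 - r := by
    rw [div_le_iff₀ (by positivity)]
    rw [div_lt_iff₀ h2] at hn
    nlinarith
  linarith

def mkCfg (S : Set ℂ) (h : IsLF S) : Cfg := ⟨S, h⟩

theorem isLF_empty : IsLF ∅ := by simp [IsLF]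

open Classical in
/-- the configuration valued version of the process -/
noncomputable def toCfg (X : Ω → Set ℂ) (ω : Ω) : Cfg :=
  if h : IsLF (X ω) then mkCfg (X ω) h else mkCfg ∅ isLF_empty

theorem toCfg_of_lf {X : Ω → Set ℂ} {ω : Ω} (h : IsLF (X ω)) : (toCfg X ω).1 = X ω := by
  unfold toCfg
  rw [dif_pos h]
  rfl

theorem toCfg_of_not_lf {X : Ω → Set ℂ} {ω : Ω} (h : ¬ IsLF (X ω)) : (toCfg X ω).1 = ∅ := by
  unfold toCfg
  rw [dif_neg h]
  rfl

theorem measurableSet_lf (h : IsPoissonProcess P X lam) : MeasurableSet {ω | IsLF (X ω)} := by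
  have : {ω | IsLF (X ω)} = ⋂ n : ℕ, ⋃ k : ℕ,
      {ω | (X ω ∩ Metric.closedBall 0 (1 - 1 / ((n : ℝ) + 2))).encard = k} := by
    ext ω
    simp only [mem_iInter, mem_iUnion]
    constructor
    · intro hω n
      have h1 : IsLF (X ω) := hω
      have h2 := h1.2 (1 - 1 / ((n : ℝ) + 2)) (by
        have : (0 : ℝ) < 1 / ((n : ℝ) + 2) := by positivity
        linarith)
      obtain ⟨k, hk⟩ := ENat.ne_top_iff_exists.1 (Set.encard_ne_top_iff.2 h2)
      exact ⟨k, hk.symm⟩
    · intro hω
      refine ⟨h.sub ω, fun r hr => ?_⟩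
      obtain ⟨n, hn⟩ := exists_nat_gt (1 / (1 - r))
      obtain ⟨k, hk⟩ := hω n
      refine (Set.finite_of_encard_eq_coe hk).subset ?_
      rintro z ⟨hz1, hz2⟩
      refine ⟨hz1, ?_⟩
      apply Metric.closedBall_subset_closedBall _ hz2
      have h2 : 0 < 1 - r := by linarith
      have h3 : (1 : ℝ) / ((n : ℝ) + 2) ≤ 1 - r := by
        rw [div_le_iff₀ (by positivity)]
        rw [div_lt_iff₀ h2] at hn
        nlinarith
      linarith
  rw [this]
  exact MeasurableSet.iInter fun n => MeasurableSet.iUnion fun k =>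
    h.meas _ Metric.isClosed_closedBall.measurableSet k

theorem IsPoissonProcess.measurable_toCfg (h : IsPoissonProcess P X lam) :
    Measurable (toCfg X) := by
  classical
  apply measurable_cfg
  intro B hB
  have h1 : (fun ω => (((toCfg X ω).1 ∩ B).encard : ℝ≥0∞)) =
      fun ω => if IsLF (X ω) then ((X ω ∩ B).encard : ℝ≥0∞) else 0 := by
    funext ω
    split_ifs with h2
    · rw [toCfg_of_lf h2]
    · rw [toCfg_of_not_lf h2]
      simp
  rw [h1]
  exact Measurable.ite (measurableSet_lf h) (h.measurable_encard hB) measurable_const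

theorem IsPoissonProcess.law_toCfg (h : IsPoissonProcess P X lam) (hlam : 0 < lam) :
    IsPoissonLaw (P.map (toCfg X)) lam := by
  refine ⟨hlam, fun m B hB hdisj hfin k => ?_⟩
  have hms : MeasurableSet {S : Cfg | ∀ i, (S.1 ∩ B i).encard = k i} := by
    have : {S : Cfg | ∀ i, (S.1 ∩ B i).encard = k i} =
        ⋂ i, (fun S : Cfg => cnt S (B i)) ⁻¹' {((k i : ℕ) : ℝ≥0∞)} := by
      ext S
      simp only [mem_iInter, mem_preimage, mem_singleton_iff]
      constructor
      · intro h1 i
        have h2 : (S.1 ∩ B i).encard = k i := h1 i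
        rw [cnt_apply S (B i) (hB i), h2]
        simp
      · intro h1 i
        have h2 := h1 i
        rw [cnt_apply S (B i) (hB i)] at h2
        exact_mod_cast h2
    rw [this]
    exact MeasurableSet.iInter fun i =>
      (Kernel.measurable_coe cnt (hB i)) (measurableSet_singleton _)
  rw [Measure.map_apply h.measurable_toCfg hms, ← h.law m B hB hdisj hfin k]
  apply measure_congr
  filter_upwards [h.ae_lf hlam] with ω hω
  have : (toCfg X ω).1 = X ω := toCfg_of_lf hω
  apply propext
  show (∀ i, ((toCfg X ω).1 ∩ B i).encard = k i) ↔ ∀ i, (X ω ∩ B i).encard = k i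
  rw [this]

end poisson

section walk

variable {Ω' : Type*} [MeasurableSpace Ω']

theorem harmonicMeasure_apply {Q : Measure Ω'} {Y : ℕ → Ω' → ℂ} (hY : ∀ n, Measurable (Y n))
    {A : Set ℂ} (hA : MeasurableSet A) :
    harmonicMeasure Q Y A = (Q.map fun ω n => Y n ω) (limEv A) := by
  have hYm : Measurable fun ω n => Y n ω := measurable_pi_lambda _ hY
  have hlim : Measurable fun ω => limUnder atTop fun n => Y n ω :=
    measurable_limMap.comp hYm
  rw [harmonicMeasure, Measure.map_apply hlim hA, Measure.restrict_apply (hlim hA),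
    Measure.map_apply hYm (measurableSet_limEv hA)]
  congr 1
  ext ω
  constructor
  · rintro ⟨h1, ξ, h2, h3⟩
    have h4 : (limUnder atTop fun n => Y n ω) = ξ := h3.limUnder_eq
    have h5 : (limUnder atTop fun n => Y n ω) ∈ A := h1
    rw [h4] at h5
    exact ⟨ξ, h5, h2, h3⟩
  · rintro ⟨ξ, h1, h2, h3⟩
    refine ⟨?_, ξ, h2, h3⟩
    have h4 : (limUnder atTop fun n => Y n ω) = ξ := h3.limUnder_eq
    show (limUnder atTop fun n => Y n ω) ∈ A
    rw [h4]
    exact h1

theorem coe_nbr {S : Set ℂ} (hS : Reg S) {x : ℂ} (hx : x ∈ S) :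
    (nbr S x : Set ℂ) = {y | VAdj S x y} := by
  unfold nbr
  rw [dif_pos (hS x hx).1, Set.Finite.coe_toFinset]

/-- step probabilities -/
theorem step_eq {S : Set ℂ} (hS : Reg S) (x w : ℂ) :
    {w | VAdj S x w}.indicator (fun _ => (({w | VAdj S x w}.encard : ℝ≥0∞))⁻¹) w =
      if w ∈ nbr S x then ((nbr S x).card : ℝ≥0∞)⁻¹ else 0 := by
  classical
  by_cases hx : x ∈ S
  · have h1 := coe_nbr hS hx
    have h2 : ({w | VAdj S x w}.encard : ℝ≥0∞) = ((nbr S x).card : ℝ≥0∞) := by
      rw [← h1, Set.encard_coe_eq_coe_finsetCard]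
      simp
    rw [Set.indicator_apply, h2]
    have h3 : w ∈ {w | VAdj S x w} ↔ w ∈ nbr S x := by
      rw [← h1]
      exact Finset.mem_coe
    simp only [h3]
  · have h1 : ¬ VAdj S x w := fun h => hx h.1
    rw [Set.indicator_of_notMem (by exact h1), nbr_eq_empty hx]
    simp

theorem IsSRW.map_eq {S : Cfg} (hS : Reg S.1) {x₀ : ℂ} (hx₀ : x₀ ∈ S.1) {Q : Measure Ω'}
    {Y : ℕ → Ω' → ℂ} (h : IsSRW S.1 x₀ Q Y) : (Q.map fun ω n => Y n ω) = pathK (S, x₀) := by
  have := h.prob
  have hYm : Measurable fun ω n => Y n ω := measurable_pi_lambda _ h.meas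
  have : IsProbabilityMeasure (Q.map fun ω n => Y n ω) := Measure.isProbabilityMeasure_map
    hYm.aemeasurable
  refine pathK_unique S hS hx₀ _ fun n z hz => ?_
  have hms : MeasurableSet {p : ℕ → ℂ | ∀ i ≤ n, p i = z i} := by
    have : {p : ℕ → ℂ | ∀ i ≤ n, p i = z i} = ⋂ i, ⋂ _ : i ≤ n, (fun p : ℕ → ℂ => p i) ⁻¹' {z i} := by
      ext p
      simp
    rw [this]
    exact MeasurableSet.iInter fun i => MeasurableSet.iInter fun _ =>
      (measurable_pi_apply i) (measurableSet_singleton _)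
  rw [Measure.map_apply hYm hms]
  have h1 := h.law n z
  rw [hz, Set.indicator_of_mem (by exact rfl), Pi.one_apply, one_mul] at h1
  have h2 : (fun ω n => Y n ω) ⁻¹' {p : ℕ → ℂ | ∀ i ≤ n, p i = z i} =
      {ω | ∀ i ≤ n, Y i ω = z i} := rfl
  rw [h2, h1]
  exact Finset.prod_congr rfl fun i _ => step_eq hS _ _

/-- the canonical walk is a simple random walk -/
theorem isSRW_pathK {S : Cfg} (hS : Reg S.1) {x₀ : ℂ} (hx₀ : x₀ ∈ S.1) :
    IsSRW S.1 x₀ (pathK (S, x₀)) (fun n (p : ℕ → ℂ) => p n) := by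
  refine ⟨inferInstance, fun n => measurable_pi_apply n, fun n z => ?_⟩
  by_cases hz : z 0 = x₀
  · have h1 := pathK_cyl S hS hx₀ n z hz
    rw [hz, Set.indicator_of_mem (by exact rfl), Pi.one_apply, one_mul, h1]
    exact Finset.prod_congr rfl fun i _ => (step_eq hS _ _).symm
  · rw [Set.indicator_of_notMem (by exact hz), zero_mul]
    refine measure_mono_null ?_ (ae_iff.1 (pathK_start S x₀))
    intro p hp
    have h2 : p 0 = z 0 := hp 0 (Nat.zero_le n)
    show ¬ p 0 = x₀
    rw [h2]
    exact hz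

end walk

/-- **Main theorem.** Let `X` be a Poisson point process on the hyperbolic plane (Poincare disc)
with intensity `lam` times hyperbolic area.  Almost surely the dual graph of its Voronoi
tessellation has finite non-zero degrees, and for every vertex `x₀` (in particular the one whose
cell contains `0`) simple random walk from `x₀` exists, and for every realisation `Y` of it the
harmonic measure at infinity (the law of the limit of the walk in the unit circle) is singular
with respect to Lebesgue measure on the circle. -/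
theorem main (lam : ℝ) (hlam : 0 < lam) {Ω : Type*} [MeasurableSpace Ω] (P : Measure Ω)
    (X : Ω → Set ℂ) (hX : IsPoissonProcess P X lam) :
    ∀ᵐ ω ∂P,
      (∀ x ∈ X ω, {y | VAdj (X ω) x y}.Finite ∧ {y | VAdj (X ω) x y}.Nonempty) ∧
      ∀ x₀ ∈ X ω,
        (∃ (Q : Measure (ℕ → ℂ)) (Y : ℕ → (ℕ → ℂ) → ℂ), IsSRW (X ω) x₀ Q Y) ∧
        ∀ (Ω' : Type) (_ : MeasurableSpace Ω') (Q : Measure Ω') (Y : ℕ → Ω' → ℂ),
          IsSRW (X ω) x₀ Q Y → (harmonicMeasure Q Y).MutuallySingular circ := by
  have h1 := ae_of_ae_map hX.measurable_toCfg.aemeasurable (harm_singular (hX.law_toCfg hlam))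
  filter_upwards [h1, hX.ae_lf hlam] with ω hω hlf
  have hval : (toCfg X ω).1 = X ω := toCfg_of_lf hlf
  obtain ⟨hG, hN⟩ := hω
  have hreg := hG.reg
  rw [← hval]
  refine ⟨hreg, fun x₀ hx₀ => ⟨⟨_, _, isSRW_pathK hreg hx₀⟩, ?_⟩⟩
  intro Ω' _ Q Y hY
  obtain ⟨N, hNm, hN0, hN1⟩ := hN x₀ hx₀
  refine ⟨Nᶜ, hNm.compl, ?_, ?_⟩
  · rw [harmonicMeasure_apply hY.meas hNm.compl, hY.map_eq hreg hx₀]
    exact hN1
  · rw [compl_compl]
    exact hN0

end HPV
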