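import Pool.Agent.Helper28.HPV.MobC

/-! T13 GoodA: empty directions, horodiscs, general position (helper44). -/

open MeasureTheory ProbabilityTheory Set Filter Topology
open scoped ENNReal NNReal Real ComplexConjugate

namespace HPV

/-- for some direction `u` the open disc with diameter `[0, ρ u]` contains no point -/
def emptyDir (ρ : ℝ) : Set Cfg :=
  {S | ∃ u : ℂ, ‖u‖ = 1 ∧ ∀ w ∈ S.1, ρ / 2 ≤ ‖w - ((ρ / 2 : ℝ) : ℂ) * u‖}

namespace GoodA

/-- finite hyperbolic area of compact discs -/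
theorem hypArea_closedBall (s : ℝ) (hs : s < 1) : hypArea (Metric.closedBall 0 s) ≠ ∞ := by
  rw [hypArea, withDensity_apply _ measurableSet_closedBall]
  by_cases h0 : 0 ≤ s
  · have hs1 : 0 < 1 - s ^ 2 := by nlinarith
    have : ∫⁻ z in Metric.closedBall (0 : ℂ) s, ENNReal.ofReal (4 / (1 - ‖z‖ ^ 2) ^ 2)
        ∂(volume.restrict disc) ≤ ∫⁻ z in Metric.closedBall (0 : ℂ) s,
          ENNReal.ofReal (4 / (1 - s ^ 2) ^ 2) ∂(volume.restrict disc) := by
      apply setLIntegral_mono' measurableSet_closedBall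
      intro z hz
      apply ENNReal.ofReal_le_ofReal
      have hz1 : ‖z‖ ≤ s := by simpa using hz
      have h2 : ‖z‖ ^ 2 ≤ s ^ 2 := by
        exact pow_le_pow_left₀ (norm_nonneg _) hz1 2
      apply div_le_div_of_nonneg_left (by norm_num) (by positivity)
      apply pow_le_pow_left₀ hs1.le
      linarith
    refine ne_of_lt (lt_of_le_of_lt this ?_)
    rw [setLIntegral_const]
    apply ENNReal.mul_lt_top ENNReal.ofReal_lt_top
    refine lt_of_le_of_lt (Measure.restrict_apply_le _ _) ?_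
    exact (isCompact_closedBall (0 : ℂ) s).measure_lt_top
  · rw [Metric.closedBall_eq_empty.2 (by linarith)]
    simp

/-- the disc of centre `ρ u / 2` and radius `ρ ^ 2 / 2` -/
def D (ρ : ℝ) (u : ℂ) : Set ℂ := Metric.ball (((ρ / 2 : ℝ) : ℂ) * u) (ρ ^ 2 / 2)

theorem measurableSet_D (ρ : ℝ) (u : ℂ) : MeasurableSet (D ρ u) := measurableSet_ball

theorem D_subset {ρ : ℝ} {u : ℂ} (hu : ‖u‖ = 1) (h0 : 0 ≤ ρ) :
    D ρ u ⊆ Metric.closedBall 0 (ρ / 2 + ρ ^ 2 / 2) := by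
  intro z hz
  rw [D, Metric.mem_ball, dist_eq_norm] at hz
  rw [mem_closedBall_zero_iff]
  have h1 : ‖((ρ / 2 : ℝ) : ℂ) * u‖ = ρ / 2 := by
    rw [norm_mul, hu, Complex.norm_real, Real.norm_eq_abs, abs_of_nonneg (by positivity), mul_one]
  calc ‖z‖ = ‖(z - ((ρ / 2 : ℝ) : ℂ) * u) + ((ρ / 2 : ℝ) : ℂ) * u‖ := by ring_nf
    _ ≤ ‖z - ((ρ / 2 : ℝ) : ℂ) * u‖ + ‖((ρ / 2 : ℝ) : ℂ) * u‖ := norm_add_le _ _
    _ ≤ ρ / 2 + ρ ^ 2 / 2 := by rw [h1]; linarith

theorem hypArea_D_ne_top {ρ : ℝ} {u : ℂ} (hu : ‖u‖ = 1) (h0 : 0 ≤ ρ) (h1 : ρ < 1) :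
    hypArea (D ρ u) ≠ ∞ := by
  refine ne_top_of_le_ne_top (hypArea_closedBall (ρ / 2 + ρ ^ 2 / 2) (by nlinarith))
    (measure_mono (D_subset hu h0))

/-- lower bound for the area of `D ρ 1` -/
theorem hypArea_D_one {ρ : ℝ} (h0 : 1 / 2 ≤ ρ) (h1 : ρ < 1) :
    ENNReal.ofReal (1 / (98 * √(1 - ρ))) ≤ hypArea (D ρ 1) := by
  set δ : ℝ := 1 - ρ with hδ
  have hδ0 : 0 < δ := by rw [hδ]; linarith
  have hδ2 : δ ≤ 1 / 2 := by rw [hδ]; linarith
  have hρ : ρ = 1 - δ := by rw [hδ]; ring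
  set xo : ℝ := ρ / 2 + ρ ^ 2 / 2 with hxo
  set R : Set ℂ := (Ioo (xo - δ / 4) (xo - δ / 8)) ×ℂ (Ioo (-(√δ / 8)) (√δ / 8)) with hR
  have hsq : √δ ^ 2 = δ := Real.sq_sqrt hδ0.le
  have hsp : 0 < √δ := Real.sqrt_pos.2 hδ0
  have hRm : MeasurableSet R := by
    rw [hR]
    exact (measurableSet_Ioo.preimage Complex.measurable_re).inter
      (measurableSet_Ioo.preimage Complex.measurable_im)
  have hRv : volume R = ENNReal.ofReal (δ / 8 * (√δ / 4)) := by
    have h2 : R = Complex.measurableEquivRealProd ⁻¹'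
        ((Ioo (xo - δ / 4) (xo - δ / 8)) ×ˢ (Ioo (-(√δ / 8)) (√δ / 8))) := by
      ext z
      simp [hR, Complex.mem_reProdIm, Complex.measurableEquivRealProd]
    rw [h2, Complex.volume_preserving_equiv_real_prod.measure_preimage
      (measurableSet_Ioo.prod measurableSet_Ioo).nullMeasurableSet, Measure.volume_eq_prod,
      Measure.prod_prod, Real.volume_Ioo, Real.volume_Ioo, ← ENNReal.ofReal_mul (by linarith)]
    congr 1
    ring
  have hRsub : ∀ z ∈ R, z ∈ D ρ 1 ∧ ‖z‖ < 1 ∧ 1 - ‖z‖ ^ 2 ≤ 7 / 2 * δ := by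
    intro z hz
    rw [hR, Complex.mem_reProdIm] at hz
    obtain ⟨⟨ha, hb⟩, hc, hd⟩ := hz
    have hy : z.im ^ 2 < δ / 64 := by
      have : |z.im| < √δ / 8 := abs_lt.2 ⟨by linarith, hd⟩
      have h3 : |z.im| ^ 2 < (√δ / 8) ^ 2 := pow_lt_pow_left₀ this (abs_nonneg _) (by norm_num)
      rw [sq_abs] at h3
      calc z.im ^ 2 < (√δ / 8) ^ 2 := h3
        _ = δ / 64 := by rw [div_pow, hsq]; norm_num
    have hn : ‖z‖ ^ 2 = z.re ^ 2 + z.im ^ 2 := by
      rw [← Complex.normSq_eq_norm_sq, Complex.normSq_apply]; ring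
    set t : ℝ := xo - z.re with ht
    have ht1 : δ / 8 < t := by rw [ht]; linarith
    have ht2 : t < δ / 4 := by rw [ht]; linarith
    have hre : z.re = ρ / 2 + ρ ^ 2 / 2 - t := by rw [ht, hxo]; ring
    have hD : z ∈ D ρ 1 := by
      rw [D, Metric.mem_ball, dist_eq_norm]
      apply lt_of_pow_lt_pow_left₀ 2 (by positivity)
      rw [← Complex.normSq_eq_norm_sq, Complex.normSq_apply]
      simp only [Complex.sub_re, Complex.ofReal_re, Complex.ofReal_im, Complex.sub_im, mul_one,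
        sub_zero]
      rw [hre]
      have hr : 1 / 8 ≤ ρ ^ 2 / 2 := by nlinarith
      nlinarith [mul_pos (sub_pos.2 ht1) (sub_pos.2 ht2)]
    refine ⟨hD, ?_, ?_⟩
    · have h5 := D_subset (u := 1) (by simp) (by linarith) hD
      rw [mem_closedBall_zero_iff] at h5
      nlinarith
    · rw [hn]
      have : 1 - z.re ≤ 7 / 4 * δ := by
        rw [hre, hρ]; nlinarith
      have h6 : z.re ≤ 1 := by rw [hre]; nlinarith
      nlinarith [sq_nonneg z.im]
  have hcalc : ENNReal.ofReal (1 / (98 * √δ))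
      = ENNReal.ofReal (4 / (7 / 2 * δ) ^ 2) * volume R := by
    rw [hRv, ← ENNReal.ofReal_mul (by positivity)]
    congr 1
    have h7 : δ = √δ ^ 2 := hsq.symm
    rw [h7]
    rw [Real.sqrt_sq hsp.le]
    field_simp
    ring
  rw [hcalc, ← setLIntegral_const]
  calc ∫⁻ z in R, ENNReal.ofReal (4 / (7 / 2 * δ) ^ 2)
      ≤ ∫⁻ z in R, ENNReal.ofReal (4 / (1 - ‖z‖ ^ 2) ^ 2) := by
        apply setLIntegral_mono' hRm
        intro z hz
        obtain ⟨_, h2, h3⟩ := hRsub z hz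
        apply ENNReal.ofReal_le_ofReal
        have h4 : 0 < 1 - ‖z‖ ^ 2 := by nlinarith [norm_nonneg z]
        apply div_le_div_of_nonneg_left (by norm_num) (by positivity)
        exact pow_le_pow_left₀ h4.le h3 2
    _ ≤ hypArea R := by
        rw [hypArea, withDensity_apply _ hRm, Measure.restrict_restrict hRm]
        have : R ∩ disc = R := by
          apply inter_eq_left.2
          intro z hz
          simpa using (hRsub z hz).2.1
        rw [this]
    _ ≤ hypArea (D ρ 1) := measure_mono fun z hz => (hRsub z hz).1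

theorem hypArea_D_rot (ρ θ : ℝ) :
    hypArea (D ρ (Complex.exp (θ * Complex.I))) = hypArea (D ρ 1) := by
  have h := (Mob.measurePreserving_hypArea (Mob.rot θ)).measure_preimage
    (measurableSet_D ρ (Complex.exp (θ * Complex.I))).nullMeasurableSet
  rw [← h]
  congr 1
  ext z
  simp only [mem_preimage, D, Metric.mem_ball, Mob.rot_f, dist_eq_norm]
  have : Complex.exp (θ * Complex.I) * z - ((ρ / 2 : ℝ) : ℂ) * Complex.exp (θ * Complex.I)
      = Complex.exp (θ * Complex.I) * (z - ((ρ / 2 : ℝ) : ℂ) * 1) := by ring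
  rw [this, norm_mul, Complex.norm_exp_ofReal_mul_I, one_mul]

/-- directions of the net -/
noncomputable def dir (ρ : ℝ) (j : ℕ) : ℂ :=
  Complex.exp (((j * (1 - ρ) - π : ℝ) : ℂ) * Complex.I)

/-- number of directions in the net -/
noncomputable def nd (ρ : ℝ) : ℕ := ⌊2 * π / (1 - ρ)⌋₊ + 1

theorem norm_dir (ρ : ℝ) (j : ℕ) : ‖dir ρ j‖ = 1 := by
  rw [dir, Complex.norm_exp_ofReal_mul_I]

theorem exists_dir {ρ : ℝ} (h1 : ρ < 1) {u : ℂ} (hu : ‖u‖ = 1) :
    ∃ j ∈ Finset.range (nd ρ), ‖u - dir ρ j‖ ≤ 1 - ρ := by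
  have hδ : 0 < 1 - ρ := by linarith
  set δ := 1 - ρ with hδ'
  set t : ℝ := (Complex.arg u + π) / δ with ht
  have hπ := Complex.neg_pi_lt_arg u
  have hπ2 := Complex.arg_le_pi u
  have ht0 : 0 ≤ t := div_nonneg (by linarith) hδ.le
  refine ⟨⌊t⌋₊, ?_, ?_⟩
  · rw [Finset.mem_range, nd, Nat.lt_succ_iff]
    apply Nat.floor_le_floor
    rw [ht]
    apply div_le_div_of_nonneg_right _ hδ.le
    linarith
  · have hf1 := Nat.floor_le ht0
    have hf2 := Nat.lt_floor_add_one t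
    have hue : u = Complex.exp ((Complex.arg u : ℂ) * Complex.I) := by
      have := Complex.norm_mul_exp_arg_mul_I u
      rw [hu] at this
      simpa using this.symm
    set b : ℝ := (⌊t⌋₊ : ℝ) * δ - π with hb
    have hdiff : u - dir ρ ⌊t⌋₊ = Complex.exp ((b : ℂ) * Complex.I) *
        (Complex.exp (Complex.I * ((Complex.arg u - b : ℝ) : ℂ)) - 1) := by
      have hd : dir ρ ⌊t⌋₊ = Complex.exp ((b : ℂ) * Complex.I) := rfl
      have he : Complex.exp ((b : ℂ) * Complex.I) *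
          Complex.exp (Complex.I * ((Complex.arg u - b : ℝ) : ℂ)) = u := by
        rw [← Complex.exp_add]
        refine Eq.trans ?_ hue.symm
        congr 1
        push_cast
        ring
      rw [hd, mul_sub, mul_one, he]
    rw [hdiff, norm_mul, Complex.norm_exp_ofReal_mul_I, one_mul]
    refine le_trans (Real.norm_exp_I_mul_ofReal_sub_one_le) ?_
    rw [Real.norm_eq_abs, abs_le, hb]
    have htδ : t * δ = Complex.arg u + π := by rw [ht]; field_simp
    constructor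
    · nlinarith
    · nlinarith

/-- measurable set which contains `emptyDir` -/
def E (ρ : ℝ) : Set Cfg := {S | ∃ j ∈ Finset.range (nd ρ), S.1 ∩ D ρ (dir ρ j) = ∅}

theorem emptyDir_subset {ρ : ℝ} (h0 : 0 ≤ ρ) (h1 : ρ < 1) : emptyDir ρ ⊆ E ρ := by
  rintro S ⟨u, hu, hS⟩
  obtain ⟨j, hj, hd⟩ := exists_dir h1 hu
  refine ⟨j, hj, ?_⟩
  rw [eq_empty_iff_forall_notMem]
  rintro w ⟨hw, hwD⟩
  have h2 := hS w hw
  rw [D, Metric.mem_ball, dist_eq_norm] at hwD
  have h3 : ‖w - ((ρ / 2 : ℝ) : ℂ) * u‖ ≤ ‖w - ((ρ / 2 : ℝ) : ℂ) * dir ρ j‖ +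
      ρ / 2 * (1 - ρ) := by
    calc ‖w - ((ρ / 2 : ℝ) : ℂ) * u‖ = ‖(w - ((ρ / 2 : ℝ) : ℂ) * dir ρ j) -
          ((ρ / 2 : ℝ) : ℂ) * (u - dir ρ j)‖ := by congr 1; ring
      _ ≤ ‖w - ((ρ / 2 : ℝ) : ℂ) * dir ρ j‖ + ‖((ρ / 2 : ℝ) : ℂ) * (u - dir ρ j)‖ :=
          norm_sub_le _ _
      _ ≤ _ := by
          gcongr
          rw [norm_mul, Complex.norm_real, Real.norm_eq_abs, abs_of_nonneg (by positivity)]
          gcongr
  nlinarith

theorem nd_le {ρ : ℝ} (h0 : 1 / 2 ≤ ρ) (h1 : ρ < 1) : (nd ρ : ℝ) ≤ 8 / (1 - ρ) := by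
  have hδ : 0 < 1 - ρ := by linarith
  rw [nd]
  push_cast
  have h2 : (⌊2 * π / (1 - ρ)⌋₊ : ℝ) ≤ 2 * π / (1 - ρ) :=
    Nat.floor_le (by positivity)
  have h3 : 2 * π / (1 - ρ) + 1 ≤ 8 / (1 - ρ) := by
    rw [div_add_one hδ.ne']
    apply div_le_div_of_nonneg_right _ hδ.le
    have := Real.pi_lt_d2
    linarith
  linarith

/-- the bound for the void probabilities, in terms of the area -/
theorem exp_bound {lam : ℝ} (hl : 0 < lam) (k : ℕ) {ρ : ℝ} (h0 : 1 / 2 ≤ ρ) (h1 : ρ < 1)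
    {A : ℝ} (hA : 1 / (98 * √(1 - ρ)) ≤ A) :
    (nd ρ : ℝ) * Real.exp (-(lam * A)) ≤
      (8 * (2 * (k + 1)).factorial * (98 / lam) ^ (2 * (k + 1))) * (1 - ρ) ^ k := by
  have hδ : 0 < 1 - ρ := by linarith
  set δ := 1 - ρ with hδ'
  set n := 2 * (k + 1) with hn
  have hsp : 0 < √δ := Real.sqrt_pos.2 hδ
  have hsq : √δ ^ 2 = δ := Real.sq_sqrt hδ.le
  set x : ℝ := lam / (98 * √δ) with hx
  have hx0 : 0 < x := by positivity
  have hxA : x ≤ lam * A := by
    calc x = lam * (1 / (98 * √δ)) := by rw [hx]; ring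
      _ ≤ lam * A := by gcongr
  have h2 : Real.exp (-(lam * A)) ≤ (n.factorial : ℝ) / x ^ n := by
    have h3 := Real.pow_div_factorial_le_exp x hx0.le n
    have h4 : Real.exp (-(lam * A)) ≤ Real.exp (-x) := Real.exp_le_exp.2 (by linarith)
    refine le_trans h4 ?_
    rw [Real.exp_neg, inv_le_comm₀ (Real.exp_pos _) (by positivity)]
    refine le_trans (le_of_eq ?_) h3
    rw [inv_div]
  have hxn : x ^ n = (lam / 98) ^ n / δ ^ (k + 1) := by
    rw [hx]
    have : lam / (98 * √δ) = (lam / 98) / √δ := by rw [div_div]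
    rw [this, div_pow, hn, pow_mul (√δ), hsq]
  calc (nd ρ : ℝ) * Real.exp (-(lam * A)) ≤ (8 / δ) * ((n.factorial : ℝ) / x ^ n) := by
        gcongr
        exact nd_le h0 h1
    _ = (8 * n.factorial * (98 / lam) ^ n) * δ ^ k := by
        rw [hxn, pow_succ, div_pow, div_pow]
        field_simp

/-- the constant -/
noncomputable def CC (lam : ℝ) (k : ℕ) : ℝ :=
  8 * (2 * (k + 1)).factorial * (98 / lam) ^ (2 * (k + 1))

theorem CC_nonneg {lam : ℝ} (hl : 0 < lam) (k : ℕ) : 0 ≤ CC lam k := by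
  unfold CC
  positivity

theorem sum_void {μ : Measure Cfg} {lam : ℝ} (h : IsPoissonLaw μ lam) (k : ℕ) {ρ : ℝ}
    (h0 : 1 / 2 ≤ ρ) (h1 : ρ < 1) (B : ℕ → Set ℂ) (hB : ∀ j, MeasurableSet (B j))
    (hBA : ∀ j, hypArea (B j) = hypArea (D ρ 1)) :
    ∑ j ∈ Finset.range (nd ρ), μ {S | S.1 ∩ B j = ∅} ≤
      ENNReal.ofReal (CC lam k * (1 - ρ) ^ k) := by
  have hfin : hypArea (D ρ 1) ≠ ∞ := hypArea_D_ne_top (by simp) (by linarith) h1
  have hj : ∀ j, μ {S | S.1 ∩ B j = ∅} =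
      ENNReal.ofReal (Real.exp (-(lam * (hypArea (D ρ 1)).toReal))) := by
    intro j
    rw [h.void (hB j) (by rw [hBA j]; exact hfin), hBA j]
  simp only [hj]
  rw [Finset.sum_const, Finset.card_range, nsmul_eq_mul]
  have h2 : ((nd ρ : ℕ) : ℝ≥0∞) = ENNReal.ofReal (nd ρ : ℝ) := by
    rw [ENNReal.ofReal_natCast]
  rw [h2, ← ENNReal.ofReal_mul (by positivity)]
  apply ENNReal.ofReal_le_ofReal
  apply exp_bound h.pos k h0 h1
  rw [← ENNReal.ofReal_le_iff_le_toReal hfin]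
  exact hypArea_D_one h0 h1

end GoodA

theorem prob_emptyDir {μ : Measure Cfg} {lam : ℝ} (h : IsPoissonLaw μ lam) (k : ℕ) :
    ∃ C : ℝ, ∀ ρ : ℝ, 1 / 2 ≤ ρ → ρ < 1 → μ (emptyDir ρ) ≤ ENNReal.ofReal (C * (1 - ρ) ^ k) := by
  refine ⟨GoodA.CC lam k, fun ρ h0 h1 => ?_⟩
  refine le_trans ?_ (GoodA.sum_void h k h0 h1 (fun j => GoodA.D ρ (GoodA.dir ρ j))
    (fun j => GoodA.measurableSet_D _ _) (fun j => ?_))
  · refine le_trans (measure_mono (GoodA.emptyDir_subset (by linarith) h1)) ?_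
    have : GoodA.E ρ = ⋃ j ∈ Finset.range (GoodA.nd ρ), {S : Cfg | S.1 ∩ GoodA.D ρ (GoodA.dir ρ j) = ∅} := by
      ext S
      simp [GoodA.E]
    rw [this]
    exact measure_biUnion_finset_le _ _
  · exact GoodA.hypArea_D_rot ρ _


namespace GoodA

/-! ### tangent -/

theorem le_lintegral_cnt {S : Cfg} {v : ℂ} (hv : v ∈ S.1) (f : ℂ → ℝ≥0∞) :
    f v ≤ ∫⁻ x, f x ∂(cnt S) := by
  rw [← lintegral_dirac v f]
  apply lintegral_mono' _ le_rfl
  rw [Measure.le_iff]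
  intro B hB
  rw [cnt_apply S B hB, Measure.dirac_apply' _ hB]
  by_cases hvB : v ∈ B
  · rw [indicator_of_mem hvB]
    have : (1 : ℕ∞) ≤ (S.1 ∩ B).encard := by
      rw [one_le_encard_iff_nonempty]
      exact ⟨v, hv, hvB⟩
    rw [Pi.one_apply]
    exact_mod_cast this
  · rw [indicator_of_notMem hvB]
    exact zero_le

theorem cnt_eq_zero (S : Cfg) {B : Set ℂ} (hB : MeasurableSet B) :
    cnt S B = 0 ↔ S.1 ∩ B = ∅ := by
  rw [cnt_apply S B hB]
  simp

/-- the inverse of `mv v` -/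
noncomputable def phi (v w : ℂ) : ℂ := (w - v) / (1 - conj v * w)

theorem inv_mv_f (v : ℂ) (hv : v ∈ disc) (w : ℂ) : (Mob.mv v hv).inv.f w = phi v w := by
  have h1 : ‖v‖ < 1 := by simpa using hv
  have h : 0 < 1 - ‖v‖ ^ 2 := by nlinarith [norm_nonneg v]
  have h2 : 0 < √(1 - ‖v‖ ^ 2) := Real.sqrt_pos.2 h
  have h3 : ((1 / √(1 - ‖v‖ ^ 2) : ℝ) : ℂ) ≠ 0 := by
    rw [Ne, Complex.ofReal_eq_zero]
    positivity
  simp only [Mob.inv, Mob.mv, Mob.f, phi, map_neg, map_mul, Complex.conj_ofReal]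
  rw [← mul_div_mul_left (w - v) _ h3]
  congr 1 <;> ring

theorem measurable_phi : Measurable fun q : ℂ × ℂ => phi q.1 q.2 := by
  unfold phi
  have h1 : Measurable fun q : ℂ × ℂ => conj q.1 :=
    (Complex.continuous_conj.comp continuous_fst).measurable
  fun_prop

/-- preimage of the test disc under `phi v` -/
def P (ρ : ℝ) (j : ℕ) (v : ℂ) : Set ℂ := {w | phi v w ∈ D ρ (dir ρ j)}

theorem measurableSet_P (ρ : ℝ) (j : ℕ) (v : ℂ) : MeasurableSet (P ρ j v) :=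
  (measurable_phi.comp (measurable_const.prodMk measurable_id)) (measurableSet_D ρ (dir ρ j))

theorem hypArea_P (ρ : ℝ) (j : ℕ) {v : ℂ} (hv : v ∈ disc) :
    hypArea (P ρ j v) = hypArea (D ρ 1) := by
  have h := (Mob.measurePreserving_hypArea (Mob.mv v hv).inv).measure_preimage
    (measurableSet_D ρ (dir ρ j)).nullMeasurableSet
  have h2 : (Mob.mv v hv).inv.f ⁻¹' (D ρ (dir ρ j)) = P ρ j v := by
    ext w
    simp only [mem_preimage, P, mem_ofPred_eq, inv_mv_f]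
  rw [h2] at h
  rw [h]
  exact hypArea_D_rot ρ _

theorem measurable_N (ρ : ℝ) (j : ℕ) :
    Measurable fun q : ℂ × Cfg => cnt q.2 (P ρ j q.1) := by
  have hE : MeasurableSet {p : (ℂ × Cfg) × ℂ | phi p.1.1 p.2 ∈ D ρ (dir ρ j)} := by
    have : Measurable fun p : (ℂ × Cfg) × ℂ => phi p.1.1 p.2 :=
      measurable_phi.comp ((measurable_fst.comp measurable_fst).prodMk measurable_snd)
    exact this (measurableSet_D ρ (dir ρ j))
  exact measurable_count (T := fun q : ℂ × Cfg => q.2) measurable_snd hE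

/-- the test function -/
noncomputable def F (ρ s : ℝ) (q : ℂ × Cfg) : ℝ≥0∞ :=
  ∑ j ∈ Finset.range (nd ρ),
    ({q : ℂ × Cfg | q.1 ∈ Metric.closedBall 0 s ∧ cnt q.2 (P ρ j q.1) = 0}).indicator
      (fun _ => 1) q

theorem measurable_F (ρ s : ℝ) : Measurable (F ρ s) := by
  unfold F
  apply Finset.measurable_sum
  intro j _
  apply measurable_const.indicator
  exact (measurable_fst measurableSet_closedBall).inter
    ((measurable_N ρ j) (measurableSet_singleton 0))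

theorem F_ins_le {μ : Measure Cfg} {lam : ℝ} (h : IsPoissonLaw μ lam) {ρ : ℝ} (s : ℝ)
    (h0 : 1 / 2 ≤ ρ) (h1 : ρ < 1) (hs : s < 1) (x : ℂ) :
    ∫⁻ S, F ρ s (x, ins x S) ∂μ ≤
      (Metric.closedBall (0 : ℂ) s).indicator (fun _ => ENNReal.ofReal (CC lam 1 * (1 - ρ))) x := by
  by_cases hx : x ∈ Metric.closedBall (0 : ℂ) s
  · rw [indicator_of_mem hx]
    have hxd : x ∈ disc := by
      rw [mem_closedBall_zero_iff] at hx
      rw [disc, mem_ball_zero_iff]
      linarith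
    have hm : ∀ j, MeasurableSet {S : Cfg | S.1 ∩ P ρ j x = ∅} := by
      intro j
      have : {S : Cfg | S.1 ∩ P ρ j x = ∅} = {S : Cfg | cnt S (P ρ j x) = 0} := by
        ext S
        exact (cnt_eq_zero S (measurableSet_P ρ j x)).symm
      rw [this]
      exact (Kernel.measurable_coe cnt (measurableSet_P ρ j x)) (measurableSet_singleton 0)
    calc ∫⁻ S, F ρ s (x, ins x S) ∂μ
        ≤ ∫⁻ S, ∑ j ∈ Finset.range (nd ρ),
            ({S : Cfg | S.1 ∩ P ρ j x = ∅}).indicator (fun _ => (1 : ℝ≥0∞)) S ∂μ := by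
          apply lintegral_mono
          intro S
          apply Finset.sum_le_sum
          intro j _
          by_cases hq : (x, ins x S) ∈ {q : ℂ × Cfg | q.1 ∈ Metric.closedBall 0 s ∧
              cnt q.2 (P ρ j q.1) = 0}
          · rw [indicator_of_mem hq, indicator_of_mem]
            have h2 : cnt (ins x S) (P ρ j x) = 0 := hq.2
            rw [cnt_eq_zero _ (measurableSet_P ρ j x), eq_empty_iff_forall_notMem] at h2
            show S.1 ∩ P ρ j x = ∅
            rw [eq_empty_iff_forall_notMem]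
            intro w hw
            exact h2 w ⟨Or.inl hw.1, hw.2⟩
          · rw [indicator_of_notMem hq]
            exact zero_le
      _ = ∑ j ∈ Finset.range (nd ρ), μ {S : Cfg | S.1 ∩ P ρ j x = ∅} := by
          rw [lintegral_finsetSum]
          · apply Finset.sum_congr rfl
            intro j _
            rw [lintegral_indicator_const (hm j), one_mul]
          · intro j _
            exact measurable_const.indicator (hm j)
      _ ≤ ENNReal.ofReal (CC lam 1 * (1 - ρ)) := by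
          have := sum_void h 1 h0 h1 (fun j => P ρ j x) (fun j => measurableSet_P ρ j x)
            (fun j => hypArea_P ρ j hxd)
          rwa [pow_one] at this
  · rw [indicator_of_notMem hx]
    have : ∀ S, F ρ s (x, ins x S) = 0 := by
      intro S
      unfold F
      apply Finset.sum_eq_zero
      intro j _
      rw [indicator_of_notMem]
      exact fun h' => hx h'.1
    simp [this]

/-- the exceptional event near the boundary -/
def Nset (s : ℝ) : Set Cfg := {S | ∃ v ∈ S.1, v ∈ Metric.closedBall (0 : ℂ) s ∧ ∃ ξ : ℂ, ‖ξ‖ = 1 ∧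
  ∀ w ∈ S.1, ‖ξ - v‖ ^ 2 * (1 - ‖w‖ ^ 2) ≤ ‖ξ - w‖ ^ 2 * (1 - ‖v‖ ^ 2)}

theorem one_le_F {s : ℝ} (hs : s < 1) {S : Cfg} (hS : S ∈ Nset s) {ρ : ℝ} (h0 : 0 ≤ ρ)
    (h1 : ρ < 1) : 1 ≤ ∫⁻ x, F ρ s (x, S) ∂(cnt S) := by
  obtain ⟨v, hv, hvs, ξ, hξ, hw⟩ := hS
  have hvd : v ∈ disc := S.2.1 hv
  refine le_trans ?_ (le_lintegral_cnt hv (fun x => F ρ s (x, S)))
  set g : Mob := Mob.mv v hvd with hg
  set η : ℂ := g.inv.f ξ with hη
  have hη1 : ‖η‖ = 1 := g.inv.norm_eq_one hξ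
  have hgη : g.f η = ξ := g.f_inv hξ.le
  have hg0 : g.f 0 = v := Mob.mv_zero v hvd
  have hdη := g.der_pos hη1.le
  have hd0 := g.der_pos (z := 0) (by simp)
  -- the image configuration misses the discs
  have hT : g.inv.act S ∈ emptyDir ρ := by
    refine ⟨η, hη1, ?_⟩
    rintro z ⟨w, hwS, rfl⟩
    have hwd : ‖w‖ < 1 := by simpa using S.2.1 hwS
    set z := g.inv.f w with hz
    have hgz : g.f z = w := g.f_inv hwd.le
    have hzd : ‖z‖ < 1 := by simpa using g.inv.mem_disc (S.2.1 hwS)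
    have hdz := g.der_pos hzd.le
    have key := hw w hwS
    have e1 : ‖ξ - v‖ ^ 2 = g.der η * g.der 0 := by
      rw [← hgη, ← hg0, g.norm_sub_sq hη1.le (by simp), sub_zero, hη1]
      ring
    have e2 : 1 - ‖w‖ ^ 2 = (1 - ‖z‖ ^ 2) * g.der z := by
      rw [← hgz, g.one_sub_norm_sq hzd.le]
    have e3 : ‖ξ - w‖ ^ 2 = ‖η - z‖ ^ 2 * g.der η * g.der z := by
      rw [← hgη, ← hgz, g.norm_sub_sq hη1.le hzd.le]
    have e4 : 1 - ‖v‖ ^ 2 = g.der 0 := by
      rw [← hg0, g.one_sub_norm_sq (by simp)]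
      simp
    rw [e1, e2, e3, e4] at key
    have hpos : 0 < g.der η * g.der 0 * g.der z := by positivity
    have key2 : 1 - ‖z‖ ^ 2 ≤ ‖η - z‖ ^ 2 := by
      by_contra hcon
      push Not at hcon
      nlinarith [mul_lt_mul_of_pos_left hcon hpos]
    -- so `1/2 ≤ ‖z - η/2‖`
    have hn1 : ‖η - z‖ ^ 2 = (η.re - z.re) ^ 2 + (η.im - z.im) ^ 2 := by
      rw [← Complex.normSq_eq_norm_sq, Complex.normSq_apply, Complex.sub_re, Complex.sub_im]; ring
    have hn2 : ‖z‖ ^ 2 = z.re ^ 2 + z.im ^ 2 := by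
      rw [← Complex.normSq_eq_norm_sq, Complex.normSq_apply]; ring
    have hn3 : η.re ^ 2 + η.im ^ 2 = 1 := by
      have : ‖η‖ ^ 2 = η.re ^ 2 + η.im ^ 2 := by
        rw [← Complex.normSq_eq_norm_sq, Complex.normSq_apply]; ring
      rw [← this, hη1]; norm_num
    have hhalf : 1 / 2 ≤ ‖z - ((1 / 2 : ℝ) : ℂ) * η‖ := by
      apply le_of_sq_le_sq _ (norm_nonneg _)
      rw [← Complex.normSq_eq_norm_sq, Complex.normSq_apply]
      simp only [Complex.sub_re, Complex.sub_im, Complex.re_ofReal_mul, Complex.im_ofReal_mul]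
      nlinarith
    have htri : ‖z - ((1 / 2 : ℝ) : ℂ) * η‖ ≤ ‖z - ((ρ / 2 : ℝ) : ℂ) * η‖ + (1 - ρ) / 2 := by
      calc ‖z - ((1 / 2 : ℝ) : ℂ) * η‖
          = ‖(z - ((ρ / 2 : ℝ) : ℂ) * η) - (((1 - ρ) / 2 : ℝ) : ℂ) * η‖ := by
            congr 1; push_cast; ring
        _ ≤ ‖z - ((ρ / 2 : ℝ) : ℂ) * η‖ + ‖(((1 - ρ) / 2 : ℝ) : ℂ) * η‖ := norm_sub_le _ _
        _ = _ := by
            rw [norm_mul, hη1, Complex.norm_real, Real.norm_eq_abs,
              abs_of_nonneg (by linarith), mul_one]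
    show ρ / 2 ≤ ‖z - ((ρ / 2 : ℝ) : ℂ) * η‖
    linarith
  obtain ⟨j, hj, hTj⟩ := emptyDir_subset h0 h1 hT
  have hzero : cnt S (P ρ j v) = 0 := by
    rw [cnt_eq_zero _ (measurableSet_P ρ j v), eq_empty_iff_forall_notMem]
    rintro w ⟨hwS, hwP⟩
    rw [eq_empty_iff_forall_notMem] at hTj
    refine hTj (g.inv.f w) ⟨⟨w, hwS, rfl⟩, ?_⟩
    rw [hg, inv_mv_f]
    exact hwP
  show 1 ≤ F ρ s (v, S)
  unfold F
  refine le_trans ?_ (Finset.single_le_sum
    (f := fun j => ({q : ℂ × Cfg | q.1 ∈ Metric.closedBall 0 s ∧ cnt q.2 (P ρ j q.1) = 0}).indicator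
      (fun _ => (1 : ℝ≥0∞)) (v, S)) (fun _ _ => zero_le) hj)
  show (1 : ℝ≥0∞) ≤ _
  have hmem : (v, S) ∈ {q : ℂ × Cfg | q.1 ∈ Metric.closedBall 0 s ∧ cnt q.2 (P ρ j q.1) = 0} :=
    ⟨hvs, hzero⟩
  rw [indicator_of_mem hmem]

theorem measure_Nset {μ : Measure Cfg} {lam : ℝ} (h : IsPoissonLaw μ lam) {s : ℝ} (hs : s < 1) :
    μ (Nset s) = 0 := by
  set K : ℝ≥0∞ := ENNReal.ofReal lam * hypArea (Metric.closedBall 0 s) with hK
  have hKfin : K ≠ ∞ := ENNReal.mul_ne_top ENNReal.ofReal_ne_top (hypArea_closedBall s hs)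
  have hbound : ∀ ρ : ℝ, 1 / 2 ≤ ρ → ρ < 1 →
      μ (Nset s) ≤ K * ENNReal.ofReal (CC lam 1 * (1 - ρ)) := by
    intro ρ h0 h1
    have hG : Measurable fun S => ∫⁻ x, F ρ s (x, S) ∂(cnt S) := by
      apply Measurable.lintegral_kernel_prod_right' (κ := cnt) (f := fun q : Cfg × ℂ => F ρ s (q.2, q.1))
      exact (measurable_F ρ s).comp measurable_swap
    calc μ (Nset s) ≤ μ {S | 1 ≤ ∫⁻ x, F ρ s (x, S) ∂(cnt S)} := by
          apply measure_mono
          intro S hS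
          exact one_le_F hs hS (by linarith) h1
      _ ≤ ∫⁻ S, ∫⁻ x, F ρ s (x, S) ∂(cnt S) ∂μ := by
          have := mul_meas_ge_le_lintegral (μ := μ) hG 1
          rwa [one_mul] at this
      _ = ENNReal.ofReal lam * ∫⁻ x, ∫⁻ S, F ρ s (x, ins x S) ∂μ ∂hypArea :=
          h.mecke (measurable_F ρ s)
      _ ≤ ENNReal.ofReal lam * ∫⁻ x, (Metric.closedBall (0 : ℂ) s).indicator
            (fun _ => ENNReal.ofReal (CC lam 1 * (1 - ρ))) x ∂hypArea := by
          gcongr with x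
          exact F_ins_le h s h0 h1 hs x
      _ = K * ENNReal.ofReal (CC lam 1 * (1 - ρ)) := by
          rw [lintegral_indicator_const measurableSet_closedBall, hK]
          ring
  -- let `ρ → 1`
  have hlim : Tendsto (fun n : ℕ => K * ENNReal.ofReal (CC lam 1 * (1 - (1 - 1 / ((n : ℝ) + 2)))))
      atTop (𝓝 0) := by
    have h1 : Tendsto (fun n : ℕ => CC lam 1 * (1 - (1 - 1 / ((n : ℝ) + 2)))) atTop (𝓝 0) := by
      have h2 : Tendsto (fun n : ℕ => 1 / ((n : ℝ) + 2)) atTop (𝓝 0) := by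
        have := (tendsto_const_div_atTop_nhds_zero_nat (1 : ℝ)).comp (tendsto_add_atTop_nat 2)
        refine this.congr fun n => ?_
        simp
      have h3 := h2.const_mul (CC lam 1)
      rw [mul_zero] at h3
      refine h3.congr fun n => ?_
      ring
    have h4 := ENNReal.tendsto_ofReal h1
    rw [ENNReal.ofReal_zero] at h4
    have h5 := ENNReal.Tendsto.const_mul h4 (Or.inr hKfin)
    rwa [mul_zero] at h5
  refine le_antisymm (ge_of_tendsto' hlim fun n => ?_) zero_le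
  apply hbound
  · have : 1 / ((n : ℝ) + 2) ≤ 1 / 2 := by
      apply one_div_le_one_div_of_le (by norm_num)
      linarith [(Nat.cast_nonneg n : (0 : ℝ) ≤ n)]
    linarith
  · have : 0 < 1 / ((n : ℝ) + 2) := by positivity
    linarith

end GoodA

theorem ae_tangent {μ : Measure Cfg} {lam : ℝ} (h : IsPoissonLaw μ lam) :
    ∀ᵐ S ∂μ, ∀ v ∈ S.1, ∀ ξ : ℂ, ‖ξ‖ = 1 →
      ∃ w ∈ S.1, ‖ξ - w‖ ^ 2 * (1 - ‖v‖ ^ 2) < ‖ξ - v‖ ^ 2 * (1 - ‖w‖ ^ 2) := by
  have h1 : ∀ᵐ S ∂μ, ∀ n : ℕ, S ∉ GoodA.Nset (1 - 1 / ((n : ℝ) + 1)) := by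
    rw [ae_all_iff]
    intro n
    rw [ae_iff]
    simp only [not_not]
    refine GoodA.measure_Nset h ?_
    have : 0 < 1 / ((n : ℝ) + 1) := by positivity
    linarith
  filter_upwards [h1] with S hS
  intro v hv ξ hξ
  by_contra hcon
  push Not at hcon
  have hvd : ‖v‖ < 1 := by simpa using S.2.1 hv
  obtain ⟨n, hn⟩ := exists_nat_one_div_lt (sub_pos.2 hvd)
  refine hS n ⟨v, hv, ?_, ξ, hξ, hcon⟩
  rw [mem_closedBall_zero_iff]
  linarith


namespace GoodA

/-! ### general position -/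

/-- the centre of the circle through three points -/
noncomputable def cc (x y z : ℂ) : ℂ :=
  x + (y - x) * (z - x) * conj ((y - x) - (z - x)) /
    (conj (y - x) * (z - x) - conj (z - x) * (y - x))

theorem measurable_cc : Measurable fun q : ℂ × ℂ × ℂ => cc q.1 q.2.1 q.2.2 := by
  unfold cc
  have hc : Measurable (fun z : ℂ => conj z) := Complex.continuous_conj.measurable
  have h1 : Measurable fun q : ℂ × ℂ × ℂ => conj (q.2.1 - q.1) :=
    hc.comp (by fun_prop)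
  have h2 : Measurable fun q : ℂ × ℂ × ℂ => conj (q.2.2 - q.1) :=
    hc.comp (by fun_prop)
  have h3 : Measurable fun q : ℂ × ℂ × ℂ => conj ((q.2.1 - q.1) - (q.2.2 - q.1)) :=
    hc.comp (by fun_prop)
  fun_prop

theorem cc_eq {c x y z : ℂ} {r : ℝ} (hx : ‖x - c‖ = r) (hy : ‖y - c‖ = r) (hz : ‖z - c‖ = r)
    (hxy : x ≠ y) (hxz : x ≠ z) (hyz : y ≠ z) : cc x y z = c := by
  have h1 : (x - c) * conj (x - c) = (r : ℂ) ^ 2 := by
    rw [Complex.mul_conj, Complex.normSq_eq_norm_sq, hx]; push_cast; ring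
  have h2 : (y - c) * conj (y - c) = (r : ℂ) ^ 2 := by
    rw [Complex.mul_conj, Complex.normSq_eq_norm_sq, hy]; push_cast; ring
  have h3 : (z - c) * conj (z - c) = (r : ℂ) ^ 2 := by
    rw [Complex.mul_conj, Complex.normSq_eq_norm_sq, hz]; push_cast; ring
  unfold cc
  simp only [map_sub] at h1 h2 h3 ⊢
  set x' := conj x
  set y' := conj y
  set z' := conj z
  set c' := conj c
  have key : ((y' - x') * (z - x) - (z' - x') * (y - x)) * (c - x)
      = (y - x) * (z - x) * ((y' - x') - (z' - x')) := by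
    linear_combination (-(z - x)) * (h2 - h1) + (y - x) * (h3 - h1)
  have hD : (y' - x') * (z - x) - (z' - x') * (y - x) ≠ 0 := by
    intro hD
    rw [hD, zero_mul] at key
    have hyx : y - x ≠ 0 := sub_ne_zero.2 hxy.symm
    have hzx : z - x ≠ 0 := sub_ne_zero.2 hxz.symm
    have : (y' - x') - (z' - x') = 0 := by
      have := key.symm
      rcases mul_eq_zero.1 this with h | h
      · rcases mul_eq_zero.1 h with h | h
        · exact absurd h hyx
        · exact absurd h hzx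
      · exact h
    have h4 : y' = z' := by linear_combination this
    exact hyz ((starRingEnd ℂ).injective h4)
  have : (y - x) * (z - x) * ((y' - x') - (z' - x')) /
      ((y' - x') * (z - x) - (z' - x') * (y - x)) = c - x := by
    rw [div_eq_iff hD, ← key]; ring
  rw [this]
  ring

/-- four points on a circle -/
def A4 : Set (ℂ × ℂ × ℂ × ℂ) := {q | q.1 ≠ q.2.1 ∧ q.1 ≠ q.2.2.1 ∧ q.1 ≠ q.2.2.2 ∧
  ‖q.1 - cc q.2.1 q.2.2.1 q.2.2.2‖ = ‖q.2.1 - cc q.2.1 q.2.2.1 q.2.2.2‖}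

theorem measurableSet_A4 : MeasurableSet A4 := by
  have hc : Measurable fun q : ℂ × ℂ × ℂ × ℂ => cc q.2.1 q.2.2.1 q.2.2.2 :=
    measurable_cc.comp measurable_snd
  refine MeasurableSet.inter ?_ (MeasurableSet.inter ?_ (MeasurableSet.inter ?_ ?_))
  · exact (measurableSet_eq_fun (by fun_prop) (by fun_prop)).compl
  · exact (measurableSet_eq_fun (by fun_prop) (by fun_prop)).compl
  · exact (measurableSet_eq_fun (by fun_prop) (by fun_prop)).compl
  · exact measurableSet_eq_fun (by fun_prop) (by fun_prop)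

/-- the indicator of `A4` -/
noncomputable def I4 (q : ℂ × ℂ × ℂ × ℂ) : ℝ≥0∞ := A4.indicator (fun _ => 1) q

theorem measurable_I4 : Measurable I4 := measurable_const.indicator measurableSet_A4

/-- the test function -/
noncomputable def G (q : ℂ × Cfg) : ℝ≥0∞ :=
  ∫⁻ y, ∫⁻ z, ∫⁻ w, I4 (q.1, y, z, w) ∂(cnt q.2) ∂(cnt q.2) ∂(cnt q.2)

theorem measurable_G1 : Measurable fun p : ((ℂ × Cfg) × ℂ) × ℂ =>
    ∫⁻ w, I4 (p.1.1.1, p.1.2, p.2, w) ∂(cnt p.1.1.2) := by
  have hS : Measurable fun p : ((ℂ × Cfg) × ℂ) × ℂ => p.1.1.2 := by fun_prop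
  have := Measurable.lintegral_kernel_prod_right' (κ := cnt.comap _ hS)
    (f := fun q : (((ℂ × Cfg) × ℂ) × ℂ) × ℂ => I4 (q.1.1.1.1, q.1.1.2, q.1.2, q.2))
    (measurable_I4.comp (by fun_prop))
  exact this

theorem measurable_G2 : Measurable fun p : (ℂ × Cfg) × ℂ =>
    ∫⁻ z, ∫⁻ w, I4 (p.1.1, p.2, z, w) ∂(cnt p.1.2) ∂(cnt p.1.2) := by
  have hS : Measurable fun p : (ℂ × Cfg) × ℂ => p.1.2 := by fun_prop
  exact Measurable.lintegral_kernel_prod_right' (κ := cnt.comap _ hS) measurable_G1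

theorem measurable_G : Measurable G := by
  have hS : Measurable fun p : ℂ × Cfg => p.2 := by fun_prop
  exact Measurable.lintegral_kernel_prod_right' (κ := cnt.comap _ hS) measurable_G2

theorem cnt_ins_le (x : ℂ) (S : Cfg) : cnt (ins x S) ≤ cnt S + Measure.dirac x := by
  rw [Measure.le_iff]
  intro B hB
  rw [Measure.add_apply, cnt_apply _ B hB, cnt_apply S B hB, Measure.dirac_apply' _ hB]
  by_cases hx : x ∈ B
  · rw [indicator_of_mem hx, Pi.one_apply]
    have h1 : (ins x S).1 ∩ B ⊆ insert x (S.1 ∩ B) := by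
      rintro w ⟨hw | ⟨rfl, _⟩, hwB⟩
      · exact Or.inr ⟨hw, hwB⟩
      · exact Or.inl rfl
    have h2 : ((ins x S).1 ∩ B).encard ≤ (S.1 ∩ B).encard + 1 :=
      (encard_le_encard h1).trans (encard_insert_le _ _)
    exact_mod_cast h2
  · rw [indicator_of_notMem hx, add_zero]
    have h1 : (ins x S).1 ∩ B ⊆ S.1 ∩ B := by
      rintro w ⟨hw | ⟨rfl, _⟩, hwB⟩
      · exact ⟨hw, hwB⟩
      · exact absurd hwB hx
    exact_mod_cast encard_le_encard h1

theorem lintegral_ins_le {x : ℂ} {S : Cfg} {f : ℂ → ℝ≥0∞} (hf : f x = 0) :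
    ∫⁻ y, f y ∂(cnt (ins x S)) ≤ ∫⁻ y, f y ∂(cnt S) := by
  calc ∫⁻ y, f y ∂(cnt (ins x S)) ≤ ∫⁻ y, f y ∂(cnt S + Measure.dirac x) :=
        lintegral_mono' (cnt_ins_le x S) le_rfl
    _ = ∫⁻ y, f y ∂(cnt S) := by rw [lintegral_add_measure, lintegral_dirac, hf, add_zero]

theorem G_ins_le (x : ℂ) (S : Cfg) : G (x, ins x S) ≤ G (x, S) := by
  have h4 : ∀ y z, ∫⁻ w, I4 (x, y, z, w) ∂(cnt (ins x S)) ≤ ∫⁻ w, I4 (x, y, z, w) ∂(cnt S) := by
    intro y z
    apply lintegral_ins_le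
    exact indicator_of_notMem (fun h => h.2.2.1 rfl) _
  have h3 : ∀ y, ∫⁻ z, ∫⁻ w, I4 (x, y, z, w) ∂(cnt (ins x S)) ∂(cnt (ins x S)) ≤
      ∫⁻ z, ∫⁻ w, I4 (x, y, z, w) ∂(cnt S) ∂(cnt S) := by
    intro y
    refine le_trans (lintegral_mono fun z => h4 y z) (lintegral_ins_le ?_)
    have : ∀ w, I4 (x, y, x, w) = 0 := fun w => indicator_of_notMem (fun h => h.2.1 rfl) _
    simp [this]
  unfold G
  refine le_trans (lintegral_mono fun y => h3 y) (lintegral_ins_le ?_)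
  have : ∀ z w, I4 (x, x, z, w) = 0 := fun z w => indicator_of_notMem (fun h => h.1 rfl) _
  simp [this]

instance : SFinite hypArea := by
  unfold hypArea
  infer_instance

theorem hypArea_sphere (c : ℂ) (r : ℝ) : hypArea (Metric.sphere c r) = 0 := by
  have h1 : hypArea ≪ (volume : Measure ℂ) :=
    (withDensity_absolutelyContinuous _ _).trans Measure.restrict_le_self.absolutelyContinuous
  exact h1 (Measure.addHaar_sphere volume c r)

theorem countable_cfg (S : Cfg) : S.1.Countable := by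
  have h1 : S.1 ⊆ ⋃ n : ℕ, S.1 ∩ Metric.closedBall 0 (1 - 1 / ((n : ℝ) + 1)) := by
    intro v hv
    have hvd : ‖v‖ < 1 := by simpa using S.2.1 hv
    obtain ⟨n, hn⟩ := exists_nat_one_div_lt (sub_pos.2 hvd)
    refine mem_iUnion.2 ⟨n, hv, ?_⟩
    rw [mem_closedBall_zero_iff]
    linarith
  refine (countable_iUnion fun n => ?_).mono h1
  refine (S.2.2 _ ?_).countable
  have : 0 < 1 / ((n : ℝ) + 1) := by positivity
  linarith

theorem lintegral_cnt_eq_zero {S : Cfg} {f : ℂ → ℝ≥0∞} (h : ∀ y ∈ S.1, f y = 0) :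
    ∫⁻ y, f y ∂(cnt S) = 0 := by
  show ∫⁻ y in S.1, f y ∂Measure.count = 0
  rw [setLIntegral_congr_fun (countable_cfg S).measurableSet (fun y hy => h y hy)]
  simp

theorem G_zero (S : Cfg) : ∫⁻ x, G (x, S) ∂hypArea = 0 := by
  -- all the circles
  have hnull : hypArea (⋃ y ∈ S.1, ⋃ z ∈ S.1, ⋃ w ∈ S.1,
      Metric.sphere (cc y z w) ‖y - cc y z w‖) = 0 := by
    rw [measure_biUnion_null_iff (countable_cfg S)]
    intro y _
    rw [measure_biUnion_null_iff (countable_cfg S)]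
    intro z _
    rw [measure_biUnion_null_iff (countable_cfg S)]
    intro w _
    exact hypArea_sphere _ _
  have hae : ∀ᵐ x ∂hypArea, G (x, S) = 0 := by
    filter_upwards [measure_eq_zero_iff_ae_notMem.1 hnull] with x hx
    unfold G
    apply lintegral_cnt_eq_zero
    intro y hy
    apply lintegral_cnt_eq_zero
    intro z hz
    apply lintegral_cnt_eq_zero
    intro w hw
    apply indicator_of_notMem
    intro h
    apply hx
    simp only [mem_iUnion]
    refine ⟨y, hy, z, hz, w, hw, ?_⟩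
    rw [Metric.mem_sphere, dist_eq_norm]
    exact h.2.2.2
  rw [lintegral_congr_ae hae]
  simp

theorem lintegral_G {μ : Measure Cfg} {lam : ℝ} (h : IsPoissonLaw μ lam) :
    ∫⁻ S, ∫⁻ x, G (x, S) ∂(cnt S) ∂μ = 0 := by
  have := h.isProb
  rw [h.mecke measurable_G]
  have h1 : ∫⁻ x, ∫⁻ S, G (x, ins x S) ∂μ ∂hypArea ≤ ∫⁻ x, ∫⁻ S, G (x, S) ∂μ ∂hypArea :=
    lintegral_mono fun x => lintegral_mono fun S => G_ins_le x S
  have h2 : ∫⁻ x, ∫⁻ S, G (x, S) ∂μ ∂hypArea = 0 := by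
    rw [lintegral_lintegral_swap (f := fun x S => G (x, S)) measurable_G.aemeasurable]
    simp [G_zero]
  rw [le_antisymm (h1.trans h2.le) zero_le, mul_zero]

theorem four_points {α : Type*} {s : Set α} (h : ¬ s.encard ≤ 3) :
    ∃ a ∈ s, ∃ b ∈ s, ∃ c ∈ s, ∃ d ∈ s, a ≠ b ∧ a ≠ c ∧ a ≠ d ∧ b ≠ c ∧ b ≠ d ∧ c ≠ d := by
  classical
  push Not at h
  have h4 : (4 : ℕ∞) ≤ s.encard := by
    have : (3 : ℕ∞) + 1 ≤ s.encard := Order.add_one_le_of_lt h
    have h5 : (3 : ℕ∞) + 1 = 4 := by norm_num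
    rwa [h5] at this
  obtain ⟨t, hts, ht⟩ := exists_subset_encard_eq h4
  have hfin : t.Finite := finite_of_encard_eq_coe (k := 4) (by rw [ht]; rfl)
  have hcard : hfin.toFinset.card = 4 := by
    have := hfin.encard_eq_coe_toFinset_card
    rw [ht] at this
    exact_mod_cast this.symm
  obtain ⟨a, b, c, d, hab, hac, had, hbc, hbd, hcd, he⟩ := Finset.card_eq_four.1 hcard
  have hm : ∀ e ∈ hfin.toFinset, e ∈ s := fun e he => hts (by simpa using he)
  rw [he] at hm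
  exact ⟨a, hm a (by simp), b, hm b (by simp), c, hm c (by simp), d, hm d (by simp), hab, hac, had,
    hbc, hbd, hcd⟩

end GoodA

theorem ae_gp {μ : Measure Cfg} {lam : ℝ} (h : IsPoissonLaw μ lam) :
    ∀ᵐ S ∂μ, ∀ (c : ℂ) (r : ℝ), 0 < r → ‖c‖ + r < 1 → (S.1 ∩ Metric.sphere c r).encard ≤ 3 := by
  have hmeas : Measurable fun S => ∫⁻ x, GoodA.G (x, S) ∂(cnt S) := by
    apply Measurable.lintegral_kernel_prod_right' (κ := cnt)
      (f := fun q : Cfg × ℂ => GoodA.G (q.2, q.1))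
    exact GoodA.measurable_G.comp measurable_swap
  have h1 := (lintegral_eq_zero_iff hmeas).1 (GoodA.lintegral_G h)
  filter_upwards [h1] with S hS
  intro c r _ _
  by_contra hcon
  obtain ⟨x, hx, y, hy, z, hz, w, hw, hxy, hxz, hxw, hyz, hyw, hzw⟩ := GoodA.four_points hcon
  have hxc : ‖x - c‖ = r := by simpa [dist_eq_norm] using hx.2
  have hyc : ‖y - c‖ = r := by simpa [dist_eq_norm] using hy.2
  have hzc : ‖z - c‖ = r := by simpa [dist_eq_norm] using hz.2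
  have hwc : ‖w - c‖ = r := by simpa [dist_eq_norm] using hw.2
  have hcc := GoodA.cc_eq hyc hzc hwc hyz hyw hzw
  have hmem : (x, y, z, w) ∈ GoodA.A4 := by
    refine ⟨hxy, hxz, hxw, ?_⟩
    show ‖x - GoodA.cc y z w‖ = ‖y - GoodA.cc y z w‖
    rw [hcc, hxc, hyc]
  have hone : (1 : ℝ≥0∞) = GoodA.I4 (x, y, z, w) := by
    unfold GoodA.I4
    rw [indicator_of_mem hmem]
  have hle : (1 : ℝ≥0∞) ≤ ∫⁻ x, GoodA.G (x, S) ∂(cnt S) := by
    refine le_trans ?_ (GoodA.le_lintegral_cnt hx.1 (fun x => GoodA.G (x, S)))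
    unfold GoodA.G
    refine le_trans ?_ (GoodA.le_lintegral_cnt hy.1 _)
    refine le_trans ?_ (GoodA.le_lintegral_cnt hz.1 _)
    refine le_trans ?_ (GoodA.le_lintegral_cnt hw.1 _)
    exact hone.le
  have hS0 : ∫⁻ x, GoodA.G (x, S) ∂(cnt S) = 0 := hS
  rw [hS0] at hle
  exact absurd hle (by norm_num)

end HPV
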