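import Pool.Agent.Helper28.HPV.GoodA

/-! T14 GoodB, first part: the weighted number of neighbours of the origin. -/

open MeasureTheory ProbabilityTheory Set Filter Topology
open scoped ENNReal NNReal Real

namespace HPV

namespace GoodB1

theorem measurable_ind : Measurable fun q : Cfg × (ℂ × ℂ) => VAdjInd q.1.1 q.2.1 q.2.2 := by
  unfold VAdjInd
  exact Measurable.ite measurableSet_VAdj measurable_const measurable_const

theorem area_finite : ∫⁻ x, ENNReal.ofReal ((1 - ‖x‖ ^ 2) ^ 2) ∂hypArea ≠ ∞ := by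
  unfold hypArea
  rw [lintegral_withDensity_eq_lintegral_mul _ (by fun_prop) (by fun_prop)]
  have h1 : ∫⁻ x in disc, ((fun z : ℂ => ENNReal.ofReal (4 / (1 - ‖z‖ ^ 2) ^ 2)) *
      fun z : ℂ => ENNReal.ofReal ((1 - ‖z‖ ^ 2) ^ 2)) x ≤ ∫⁻ _ in disc, 4 := by
    apply setLIntegral_mono' Metric.isOpen_ball.measurableSet
    intro x hx
    have h1 : ‖x‖ < 1 := by simpa using hx
    have h : 0 < 1 - ‖x‖ ^ 2 := by nlinarith [norm_nonneg x]
    rw [Pi.mul_apply, ← ENNReal.ofReal_mul (by positivity)]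
    have : 4 / (1 - ‖x‖ ^ 2) ^ 2 * (1 - ‖x‖ ^ 2) ^ 2 = 4 := by field_simp
    rw [this]
    norm_num
  refine ne_top_of_le_ne_top ?_ h1
  rw [setLIntegral_const]
  exact ENNReal.mul_ne_top (by norm_num) measure_ball_lt_top.ne

/-- the weight -/
noncomputable def G (q : ℂ × Cfg) : ℝ≥0∞ :=
  VAdjInd (ins 0 q.2).1 0 q.1 * ENNReal.ofReal (1 / (1 - ‖q.1‖) ^ 2)

theorem measurable_G : Measurable G := by
  unfold G
  apply Measurable.mul
  · exact measurable_ind.comp (f := fun q : ℂ × Cfg => (ins 0 q.2, (0, q.1)))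
      ((measurable_ins.comp (measurable_const.prodMk measurable_snd)).prodMk
        (measurable_const.prodMk measurable_fst))
  · fun_prop

/-- a neighbour `y` of the origin gives an empty disc of diameter `|y|` -/
theorem mem_emptyDir {S : Cfg} {y : ℂ} (h : VAdj (ins 0 (ins y S)).1 0 y) : S ∈ emptyDir ‖y‖ := by
  rw [VAdj_iff_DAdj (ins 0 (ins y S)).2] at h
  obtain ⟨-, -, hy, c, r, hc, h0, hyc, hemp⟩ := h
  have hcr : ‖c‖ = r := by simpa using h0
  have hyr : ‖y‖ ≤ 2 * r := by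
    have := norm_add_le (y - c) c
    rw [sub_add_cancel] at this
    linarith
  have hypos : 0 < ‖y‖ := norm_pos_iff.2 hy.symm
  have hr : 0 < r := by linarith
  refine ⟨((r⁻¹ : ℝ) : ℂ) * c, ?_, ?_⟩
  · rw [norm_mul, Complex.norm_real, Real.norm_eq_abs, abs_of_pos (inv_pos.2 hr), hcr]
    exact inv_mul_cancel₀ hr.ne'
  · intro w hw
    have h1 : ‖c - ((‖y‖ / 2 : ℝ) : ℂ) * (((r⁻¹ : ℝ) : ℂ) * c)‖ = r - ‖y‖ / 2 := by
      have h2 : c - ((‖y‖ / 2 : ℝ) : ℂ) * (((r⁻¹ : ℝ) : ℂ) * c) =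
          ((1 - ‖y‖ / 2 * r⁻¹ : ℝ) : ℂ) * c := by push_cast; ring
      rw [h2, norm_mul, Complex.norm_real, Real.norm_eq_abs, hcr]
      have h3 : 0 ≤ 1 - ‖y‖ / 2 * r⁻¹ := by
        rw [sub_nonneg, ← div_eq_mul_inv, div_le_one hr]
        linarith
      rw [abs_of_nonneg h3]
      field_simp
    have h2 : r ≤ ‖w - c‖ ∨ w = 0 := by
      by_cases hw0 : w = 0
      · exact Or.inr hw0
      left
      by_cases hwy : w = y
      · rw [hwy]; exact hyc.ge
      · refine (hemp w ?_ hw0 hwy).le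
        exact Or.inl (Or.inl hw)
    rcases h2 with h2 | h2
    · have h3 := norm_sub_le (w - ((‖y‖ / 2 : ℝ) : ℂ) * (((r⁻¹ : ℝ) : ℂ) * c))
        (c - ((‖y‖ / 2 : ℝ) : ℂ) * (((r⁻¹ : ℝ) : ℂ) * c))
      rw [h1, sub_sub_sub_cancel_right] at h3
      linarith
    · rw [h2, zero_sub, norm_neg, norm_mul, Complex.norm_real, Real.norm_eq_abs, norm_mul,
        Complex.norm_real, Real.norm_eq_abs, abs_of_pos (inv_pos.2 hr), hcr,
        inv_mul_cancel₀ hr.ne', mul_one]
      exact le_abs_self _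

end GoodB1

open GoodB1 in
/-- expected weighted number of neighbours of the origin -/
theorem nbr_zero_moment {μ : Measure Cfg} {lam : ℝ} (h : IsPoissonLaw μ lam) :
    ∫⁻ S, ∫⁻ y, VAdjInd (ins 0 S).1 0 y * ENNReal.ofReal (1 / (1 - ‖y‖) ^ 2)
      ∂(cnt (ins 0 S)) ∂μ ≠ ∞ := by
  have hprob := h.isProb
  obtain ⟨C, hC⟩ := prob_emptyDir h 4
  have h1 : ∫⁻ S, ∫⁻ y, VAdjInd (ins 0 S).1 0 y * ENNReal.ofReal (1 / (1 - ‖y‖) ^ 2)
      ∂(cnt (ins 0 S)) ∂μ ≤ ∫⁻ S, ∫⁻ y, G (y, S) ∂(cnt S) ∂μ := by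
    apply lintegral_mono
    intro S
    apply GoodA.lintegral_ins_le
    have : ¬ VAdj (ins 0 S).1 0 0 := fun h => h.2.2.1 rfl
    rw [VAdjInd, if_neg this, zero_mul]
  refine ne_top_of_le_ne_top ?_ h1
  rw [h.mecke measurable_G]
  apply ENNReal.mul_ne_top ENNReal.ofReal_ne_top
  have h2 : ∫⁻ x, ∫⁻ S, G (x, ins x S) ∂μ ∂hypArea ≤
      ∫⁻ x, ENNReal.ofReal (|C| + 8) * ENNReal.ofReal ((1 - ‖x‖ ^ 2) ^ 2) ∂hypArea := by
    apply lintegral_mono_ae
    have hd : ∀ᵐ x ∂hypArea, x ∈ disc := pa_hypArea_compl_disc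
    filter_upwards [hd] with x hx
    have hx1 : ‖x‖ < 1 := by simpa using hx
    have hx0 : 0 ≤ ‖x‖ := norm_nonneg x
    have h3 : ∫⁻ S, G (x, ins x S) ∂μ ≤ μ (emptyDir ‖x‖) * ENNReal.ofReal (1 / (1 - ‖x‖) ^ 2) := by
      calc ∫⁻ S, G (x, ins x S) ∂μ ≤ ∫⁻ S, (emptyDir ‖x‖).indicator 1 S *
            ENNReal.ofReal (1 / (1 - ‖x‖) ^ 2) ∂μ := by
            apply lintegral_mono
            intro S
            unfold G
            simp only
            gcongr
            unfold VAdjInd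
            split_ifs with hv
            · rw [indicator_of_mem (mem_emptyDir hv)]
              exact le_rfl
            · exact bot_le
        _ = (∫⁻ S, (emptyDir ‖x‖).indicator 1 S ∂μ) * ENNReal.ofReal (1 / (1 - ‖x‖) ^ 2) :=
            lintegral_mul_const' _ _ ENNReal.ofReal_ne_top
        _ ≤ _ := by
            gcongr
            exact lintegral_indicator_one_le _
    refine h3.trans ?_
    rw [← ENNReal.ofReal_mul (by positivity)]
    have hw : 0 < 1 - ‖x‖ := by linarith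
    rcases le_or_gt (1 / 2) ‖x‖ with hx2 | hx2
    · calc μ (emptyDir ‖x‖) * ENNReal.ofReal (1 / (1 - ‖x‖) ^ 2) ≤
            ENNReal.ofReal (C * (1 - ‖x‖) ^ 4) * ENNReal.ofReal (1 / (1 - ‖x‖) ^ 2) := by
            gcongr
            exact hC _ hx2 hx1
        _ ≤ ENNReal.ofReal (|C| * (1 - ‖x‖) ^ 4) * ENNReal.ofReal (1 / (1 - ‖x‖) ^ 2) := by
            gcongr
            exact le_abs_self C
        _ = ENNReal.ofReal (|C| * (1 - ‖x‖) ^ 2) := by
            rw [← ENNReal.ofReal_mul (by positivity)]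
            congr 1
            field_simp
        _ ≤ _ := by
            apply ENNReal.ofReal_le_ofReal
            have h4 : (1 - ‖x‖) ^ 2 ≤ (1 - ‖x‖ ^ 2) ^ 2 := by
              apply pow_le_pow_left₀ hw.le
              nlinarith
            have h5 : 0 ≤ |C| := abs_nonneg C
            have h6 : 0 ≤ (1 - ‖x‖ ^ 2) ^ 2 := by positivity
            nlinarith
    · calc μ (emptyDir ‖x‖) * ENNReal.ofReal (1 / (1 - ‖x‖) ^ 2) ≤
            1 * ENNReal.ofReal (1 / (1 - ‖x‖) ^ 2) := by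
            gcongr
            exact prob_le_one
        _ ≤ _ := by
            rw [one_mul]
            apply ENNReal.ofReal_le_ofReal
            have h4 : 1 / (1 - ‖x‖) ^ 2 ≤ 4 := by
              rw [div_le_iff₀ (by positivity)]
              nlinarith
            have h5 : 0 ≤ |C| := abs_nonneg C
            have h6 : 9 / 16 ≤ (1 - ‖x‖ ^ 2) ^ 2 := by
              have : 3 / 4 ≤ 1 - ‖x‖ ^ 2 := by nlinarith
              nlinarith
            nlinarith
  refine ne_top_of_le_ne_top ?_ h2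
  rw [lintegral_const_mul' _ _ ENNReal.ofReal_ne_top]
  exact ENNReal.mul_ne_top ENNReal.ofReal_ne_top area_finite

end HPV
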