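import Pool.Agent.Helper28.HPV.GoodB1

/-! T14 GoodB, second part: finite Dirichlet energy of the Euclidean embedding. -/

open MeasureTheory ProbabilityTheory Set Filter Topology
open scoped ENNReal NNReal Real ComplexConjugate

namespace HPV

namespace GoodB2

theorem measurable_ind : Measurable fun q : Cfg × (ℂ × ℂ) => VAdjInd q.1.1 q.2.1 q.2.2 := by
  unfold VAdjInd
  exact Measurable.ite measurableSet_VAdj measurable_const measurable_const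

/-- the energy at a vertex -/
noncomputable def F (q : ℂ × Cfg) : ℝ≥0∞ :=
  ∫⁻ y, VAdjInd q.2.1 q.1 y * ENNReal.ofReal (‖q.1 - y‖ ^ 2) ∂(cnt q.2)

theorem measurable_F : Measurable F := by
  have h1 : Measurable fun q : (ℂ × Cfg) × ℂ =>
      VAdjInd q.1.2.1 q.1.1 q.2 * ENNReal.ofReal (‖q.1.1 - q.2‖ ^ 2) := by
    apply Measurable.mul
    · exact measurable_ind.comp (f := fun q : (ℂ × Cfg) × ℂ => (q.1.2, (q.1.1, q.2)))
        (by fun_prop)
    · fun_prop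
  have h2 : Measurable fun q : ℂ × Cfg => ∫⁻ y,
      VAdjInd q.2.1 q.1 y * ENNReal.ofReal (‖q.1 - y‖ ^ 2)
        ∂((cnt.comap Prod.snd measurable_snd : Kernel (ℂ × Cfg) ℂ) q) :=
    Measurable.lintegral_kernel_prod_right' (κ := cnt.comap Prod.snd measurable_snd) h1
  exact h2

theorem lintegral_act (g : Mob) (T : Cfg) (f : ℂ → ℝ≥0∞) :
    ∫⁻ y, f y ∂(cnt (g.act T)) = ∫⁻ y, f (g.f y) ∂(cnt T) :=
  Mob.mobC_lintegral_image (Mob.mobC_countable T.2) (g.mobC_injOn.mono T.2.1) f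

theorem der_zero {x : ℂ} (hx : x ∈ disc) : (Mob.mv x hx).der 0 = 1 - ‖x‖ ^ 2 := by
  have h1 : ‖x‖ < 1 := by simpa using hx
  have h : 0 < 1 - ‖x‖ ^ 2 := by nlinarith [norm_nonneg x]
  unfold Mob.der Mob.mv
  simp only [mul_zero, zero_add, Complex.conj_ofReal, Complex.norm_real, Real.norm_eq_abs, sq_abs,
    div_pow, Real.sq_sqrt h.le]
  field_simp

theorem der_le {x : ℂ} (hx : x ∈ disc) {y : ℂ} (hy : y ∈ disc) :
    (Mob.mv x hx).der y ≤ (1 - ‖x‖ ^ 2) * (1 / (1 - ‖y‖) ^ 2) := by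
  have h1 : ‖x‖ < 1 := by simpa using hx
  have h2 : ‖y‖ < 1 := by simpa using hy
  have h : 0 < 1 - ‖x‖ ^ 2 := by nlinarith [norm_nonneg x]
  have hs : 0 < √(1 - ‖x‖ ^ 2) := Real.sqrt_pos.2 h
  unfold Mob.der Mob.mv
  simp only [map_mul, Complex.conj_ofReal]
  have e1 : (((1 / √(1 - ‖x‖ ^ 2) : ℝ) : ℂ) * conj x) * y + ((1 / √(1 - ‖x‖ ^ 2) : ℝ) : ℂ) =
      ((1 / √(1 - ‖x‖ ^ 2) : ℝ) : ℂ) * (1 + conj x * y) := by ring
  rw [e1, norm_mul, Complex.norm_real, Real.norm_eq_abs, mul_pow, sq_abs, div_pow,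
    Real.sq_sqrt h.le]
  have h3 : 1 - ‖y‖ ≤ ‖1 + conj x * y‖ := by
    have h4 : ‖conj x * y‖ ≤ ‖y‖ := by
      rw [norm_mul, RCLike.norm_conj]
      nlinarith [norm_nonneg x, norm_nonneg y]
    have h5 := norm_sub_norm_le (1 : ℂ) (-(conj x * y))
    rw [norm_neg, norm_one, sub_neg_eq_add] at h5
    linarith
  have h4 : 0 < 1 - ‖y‖ := by linarith
  have h5 : (1 - ‖y‖) ^ 2 ≤ ‖1 + conj x * y‖ ^ 2 := pow_le_pow_left₀ h4.le h3 2
  have h6 : 1 / (1 ^ 2 / (1 - ‖x‖ ^ 2) * ‖1 + conj x * y‖ ^ 2) =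
      (1 - ‖x‖ ^ 2) * (1 / ‖1 + conj x * y‖ ^ 2) := by
    have : 0 < ‖1 + conj x * y‖ := h4.trans_le h3
    field_simp
  rw [h6]
  apply mul_le_mul_of_nonneg_left _ h.le
  exact one_div_le_one_div_of_le (by positivity) h5

theorem F_act_le {x : ℂ} (hx : x ∈ disc) (T : Cfg) :
    F (x, (Mob.mv x hx).act T) ≤ ENNReal.ofReal ((1 - ‖x‖ ^ 2) ^ 2) *
      ∫⁻ y, VAdjInd T.1 0 y * ENNReal.ofReal (1 / (1 - ‖y‖) ^ 2) ∂(cnt T) := by
  have h1 : ‖x‖ < 1 := by simpa using hx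
  have h : 0 < 1 - ‖x‖ ^ 2 := by nlinarith [norm_nonneg x]
  set g := Mob.mv x hx with hg
  have h0 : (0 : ℂ) ∈ disc := by simp
  have hg0 : g.f 0 = x := Mob.mv_zero x hx
  unfold F
  simp only
  rw [lintegral_act, ← lintegral_const_mul' _ _ ENNReal.ofReal_ne_top]
  apply lintegral_mono_ae
  have hae : ∀ᵐ y ∂(cnt T), y ∈ T.1 := ae_restrict_mem (Mob.mobC_countable T.2).measurableSet
  filter_upwards [hae] with y hy
  have hyd : y ∈ disc := T.2.1 hy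
  have hy1 : ‖y‖ ≤ 1 := by
    have : ‖y‖ < 1 := by simpa using hyd
    exact this.le
  have e1 : VAdjInd (g.act T).1 x (g.f y) = VAdjInd T.1 0 y := by
    unfold VAdjInd
    have h2 : VAdj (g.act T).1 x (g.f y) ↔ VAdj T.1 0 y := by
      have h3 := g.VAdj_image T.2.1 h0 hyd
      rw [hg0] at h3
      exact h3
    by_cases hv : VAdj T.1 0 y
    · rw [if_pos (h2.2 hv), if_pos hv]
    · rw [if_neg fun h => hv (h2.1 h), if_neg hv]
  rw [e1, mul_left_comm]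
  gcongr
  have e2 : ‖x - g.f y‖ ^ 2 = ‖y‖ ^ 2 * g.der 0 * g.der y := by
    have h3 := g.norm_sub_sq (z := 0) (w := y) (by simp) hy1
    rw [hg0] at h3
    rw [h3]
    simp
  rw [e2, ← ENNReal.ofReal_mul (by positivity)]
  apply ENNReal.ofReal_le_ofReal
  have h4 : ‖y‖ ^ 2 ≤ 1 := by nlinarith [norm_nonneg y]
  have h5 := der_le hx hyd
  have h6 := der_zero hx
  rw [← hg] at h5 h6
  rw [h6]
  have h7 : 0 < g.der y := g.der_pos hy1
  have h8 : 0 ≤ 1 / (1 - ‖y‖) ^ 2 := by positivity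
  calc ‖y‖ ^ 2 * (1 - ‖x‖ ^ 2) * g.der y ≤ 1 * (1 - ‖x‖ ^ 2) *
        ((1 - ‖x‖ ^ 2) * (1 / (1 - ‖y‖) ^ 2)) := by
        gcongr
    _ = (1 - ‖x‖ ^ 2) ^ 2 * (1 / (1 - ‖y‖) ^ 2) := by ring

theorem area_finite : ∫⁻ x, ENNReal.ofReal ((1 - ‖x‖ ^ 2) ^ 2) ∂hypArea ≠ ∞ := by
  unfold hypArea
  rw [lintegral_withDensity_eq_lintegral_mul _ (by fun_prop) (by fun_prop)]
  have h1 : ∫⁻ x in disc, ((fun z : ℂ => ENNReal.ofReal (4 / (1 - ‖z‖ ^ 2) ^ 2)) *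
      fun z : ℂ => ENNReal.ofReal ((1 - ‖z‖ ^ 2) ^ 2)) x ≤ ∫⁻ _ in disc, 4 := by
    apply setLIntegral_mono' Metric.isOpen_ball.measurableSet
    intro x hx
    have h1 : ‖x‖ < 1 := by simpa using hx
    have h : 0 < 1 - ‖x‖ ^ 2 := by nlinarith [norm_nonneg x]
    rw [Pi.mul_apply, ← ENNReal.ofReal_mul (by positivity)]
    have : 4 / (1 - ‖x‖ ^ 2) ^ 2 * (1 - ‖x‖ ^ 2) ^ 2 = 4 := by field_simp
    rw [this]
    norm_num
  refine ne_top_of_le_ne_top ?_ h1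
  rw [setLIntegral_const]
  exact ENNReal.mul_ne_top (by norm_num) measure_ball_lt_top.ne

end GoodB2

open GoodB2 in
theorem ae_energy {μ : Measure Cfg} {lam : ℝ} (h : IsPoissonLaw μ lam) :
    ∀ᵐ S ∂μ, ∫⁻ x, ∫⁻ y, VAdjInd S.1 x y * ENNReal.ofReal (‖x - y‖ ^ 2)
      ∂(Measure.count.restrict S.1) ∂(Measure.count.restrict S.1) ≠ ∞ := by
  have hprob := h.isProb
  set M : ℝ≥0∞ := ∫⁻ S, ∫⁻ y, VAdjInd (ins 0 S).1 0 y * ENNReal.ofReal (1 / (1 - ‖y‖) ^ 2)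
      ∂(cnt (ins 0 S)) ∂μ with hM
  have hMfin : M ≠ ∞ := nbr_zero_moment h
  have h1 : ∫⁻ S, ∫⁻ x, F (x, S) ∂(cnt S) ∂μ ≠ ∞ := by
    rw [h.mecke measurable_F]
    apply ENNReal.mul_ne_top ENNReal.ofReal_ne_top
    have h2 : ∫⁻ x, ∫⁻ S, F (x, ins x S) ∂μ ∂hypArea ≤
        ∫⁻ x, ENNReal.ofReal ((1 - ‖x‖ ^ 2) ^ 2) * M ∂hypArea := by
      apply lintegral_mono_ae
      have hd : ∀ᵐ x ∂hypArea, x ∈ disc := pa_hypArea_compl_disc
      filter_upwards [hd] with x hx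
      set g := Mob.mv x hx with hg
      have hF : Measurable fun S => F (x, ins x S) :=
        measurable_F.comp (measurable_const.prodMk
          (measurable_ins.comp (measurable_const.prodMk measurable_id)))
      have h3 : ∫⁻ S, F (x, ins x S) ∂μ = ∫⁻ S, F (x, ins x (g.act S)) ∂μ := by
        rw [← (g.measurePreserving_act h).lintegral_comp hF]
      have h0 : (0 : ℂ) ∈ disc := by simp
      have h4 : ∀ S, ins x (g.act S) = g.act (ins 0 S) := by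
        intro S
        rw [g.act_ins h0 S, Mob.mv_zero]
      rw [h3, hM, ← lintegral_const_mul' _ _ ENNReal.ofReal_ne_top]
      apply lintegral_mono
      intro S
      simp only [h4]
      exact F_act_le hx (ins 0 S)
    refine ne_top_of_le_ne_top ?_ h2
    rw [lintegral_mul_const' _ _ hMfin]
    exact ENNReal.mul_ne_top area_finite hMfin
  have hmeas : Measurable fun S => ∫⁻ x, F (x, S) ∂(cnt S) := by
    apply Measurable.lintegral_kernel_prod_right' (κ := cnt) (f := fun q : Cfg × ℂ => F (q.2, q.1))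
    exact measurable_F.comp measurable_swap
  filter_upwards [ae_lt_top hmeas h1] with S hS
  exact hS.ne

theorem IsPoissonLaw.ae_good {μ : Measure Cfg} {lam : ℝ} (h : IsPoissonLaw μ lam) :
    ∀ᵐ S ∂μ, Good S.1 := by
  filter_upwards [ae_tangent h, ae_gp h, ae_energy h] with S h1 h2 h3
  exact ⟨S.2, h1, h2, h3⟩

end HPV
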