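import Pool.Agent.Helper28.HPV.Defs

/-! T6 GraphA: Voronoi adjacency by Euclidean discs. -/

open MeasureTheory ProbabilityTheory Set Filter Topology
open scoped ENNReal NNReal Real

namespace HPV

theorem VAdj.symm {S : Set ℂ} {x y : ℂ} (h : VAdj S x y) : VAdj S y x := by
  obtain ⟨h1, h2, h3, h4⟩ := h
  exact ⟨h2, h1, h3.symm, by rwa [inter_comm]⟩

theorem norm_sq_coord (z : ℂ) : ‖z‖ ^ 2 = z.re ^ 2 + z.im ^ 2 := by
  rw [Complex.sq_norm, Complex.normSq_apply]; ring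

theorem mem_disc_iff {z : ℂ} : z ∈ disc ↔ ‖z‖ < 1 := by
  rw [disc, Metric.mem_ball, dist_zero_right]

theorem one_sub_sq_pos {z : ℂ} (hz : z ∈ disc) : 0 < 1 - ‖z‖ ^ 2 := by
  rw [mem_disc_iff] at hz
  nlinarith [norm_nonneg z]

/-- comparison of hyperbolic distances -/
theorem hdist_le_hdist_iff {z x y : ℂ} (hz : z ∈ disc) (hx : x ∈ disc) (hy : y ∈ disc) :
    hdist z x ≤ hdist z y ↔
      ‖z - x‖ ^ 2 * (1 - ‖y‖ ^ 2) ≤ ‖z - y‖ ^ 2 * (1 - ‖x‖ ^ 2) := by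
  have pz := one_sub_sq_pos hz
  have px := one_sub_sq_pos hx
  have py := one_sub_sq_pos hy
  unfold hdist
  rw [mul_le_mul_iff_right₀ two_pos, Real.arsinh_le_arsinh]
  have h1 : 0 ≤ ‖z - x‖ / √((1 - ‖z‖ ^ 2) * (1 - ‖x‖ ^ 2)) := by positivity
  have h2 : 0 ≤ ‖z - y‖ / √((1 - ‖z‖ ^ 2) * (1 - ‖y‖ ^ 2)) := by positivity
  rw [← sq_le_sq₀ h1 h2, div_pow, div_pow, Real.sq_sqrt (by positivity), Real.sq_sqrt (by positivity),
    div_le_div_iff₀ (by positivity) (by positivity)]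
  constructor
  · intro h
    have h3 : (1 - ‖z‖ ^ 2) * (‖z - x‖ ^ 2 * (1 - ‖y‖ ^ 2))
        ≤ (1 - ‖z‖ ^ 2) * (‖z - y‖ ^ 2 * (1 - ‖x‖ ^ 2)) := by nlinarith
    exact le_of_mul_le_mul_left h3 pz
  · intro h
    have h3 := mul_le_mul_of_nonneg_left h pz.le
    nlinarith

theorem hdist_lt_hdist_iff {z x y : ℂ} (hz : z ∈ disc) (hx : x ∈ disc) (hy : y ∈ disc) :
    hdist z x < hdist z y ↔
      ‖z - x‖ ^ 2 * (1 - ‖y‖ ^ 2) < ‖z - y‖ ^ 2 * (1 - ‖x‖ ^ 2) := by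
  rw [← not_le, ← not_le, hdist_le_hdist_iff hz hy hx]

theorem hdist_eq_hdist_iff {z x y : ℂ} (hz : z ∈ disc) (hx : x ∈ disc) (hy : y ∈ disc) :
    hdist z x = hdist z y ↔
      ‖z - x‖ ^ 2 * (1 - ‖y‖ ^ 2) = ‖z - y‖ ^ 2 * (1 - ‖x‖ ^ 2) := by
  rw [le_antisymm_iff, hdist_le_hdist_iff hz hx hy, hdist_le_hdist_iff hz hy hx, le_antisymm_iff]

/-- the algebra behind `hyperbolic disc = Euclidean disc` -/
theorem disc_core {m r : ℝ} {c : ℂ} (h : m ^ 2 * ‖c‖ ^ 2 + 1 = m * (1 + ‖c‖ ^ 2 - r ^ 2)) (w : ℂ) :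
    ‖(m : ℂ) * c - w‖ ^ 2 - (m - 1) * (1 - ‖w‖ ^ 2) = m * (‖w - c‖ ^ 2 - r ^ 2) := by
  simp only [norm_sq_coord, Complex.sub_re, Complex.sub_im, Complex.mul_re, Complex.mul_im,
    Complex.ofReal_re, Complex.ofReal_im] at h ⊢
  linear_combination h

/-- hyperbolic disc with centre `m c` -/
theorem core_iff {m r : ℝ} {c : ℂ} (hm : 0 < m) (hr : 0 ≤ r)
    (h : m ^ 2 * ‖c‖ ^ 2 + 1 = m * (1 + ‖c‖ ^ 2 - r ^ 2)) (hz : (m : ℂ) * c ∈ disc)
    {x : ℂ} (hx : x ∈ disc) (hxc : ‖x - c‖ = r) {w : ℂ} (hw : w ∈ disc) :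
    (hdist ((m : ℂ) * c) w < hdist ((m : ℂ) * c) x ↔ ‖w - c‖ < r) ∧
      (hdist ((m : ℂ) * c) w = hdist ((m : ℂ) * c) x ↔ ‖w - c‖ = r) := by
  have px := one_sub_sq_pos hx
  have e1 := disc_core h w
  have e2 := disc_core h x
  rw [hxc, sub_self, mul_zero, sub_eq_zero] at e2
  have e3 : ‖(m : ℂ) * c - w‖ ^ 2 * (1 - ‖x‖ ^ 2) - ‖(m : ℂ) * c - x‖ ^ 2 * (1 - ‖w‖ ^ 2)
      = (1 - ‖x‖ ^ 2) * m * (‖w - c‖ ^ 2 - r ^ 2) := by
    rw [e2]; linear_combination (1 - ‖x‖ ^ 2) * e1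
  have hpos : 0 < (1 - ‖x‖ ^ 2) * m := by positivity
  have hwc := norm_nonneg (w - c)
  constructor
  · rw [hdist_lt_hdist_iff hz hw hx, ← sub_neg, e3, ← sq_lt_sq₀ hwc hr, ← sub_neg (a := ‖w - c‖ ^ 2)]
    constructor
    · intro h1
      by_contra h2
      rw [not_lt] at h2
      have := mul_nonneg hpos.le h2
      linarith
    · intro h1
      exact mul_neg_of_pos_of_neg hpos h1
  · rw [hdist_eq_hdist_iff hz hw hx, ← sub_eq_zero, e3, mul_eq_zero, or_iff_right hpos.ne',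
      sub_eq_zero, sq_eq_sq₀ hwc hr]

/-- refined version of `hyp_disc_eucl` -/
theorem hyp_disc_eucl' {z : ℂ} (hz : z ∈ disc) {x : ℂ} (hx : x ∈ disc) (hzx : z ≠ x) :
    ∃ (c : ℂ) (r m : ℝ), 0 < r ∧ ‖c‖ + r < 1 ∧ 1 < m ∧ z = (m : ℂ) * c ∧ ‖x - c‖ = r ∧
      m ^ 2 * ‖c‖ ^ 2 + 1 = m * (1 + ‖c‖ ^ 2 - r ^ 2) := by
  have pz := one_sub_sq_pos hz
  have px := one_sub_sq_pos hx
  have hzn : ‖z‖ < 1 := mem_disc_iff.mp hz
  have hd : 0 < ‖z - x‖ := norm_pos_iff.mpr (sub_ne_zero.mpr hzx)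
  set s : ℝ := ‖z - x‖ ^ 2 / (1 - ‖x‖ ^ 2) with hs
  have hs0 : 0 < s := by positivity
  have hm : 0 < 1 + s := by linarith
  set c : ℂ := ((1 + s : ℝ) : ℂ)⁻¹ * z with hc
  have hmc : ((1 + s : ℝ) : ℂ) * c = z := by
    rw [hc, ← mul_assoc, mul_inv_cancel₀ (by exact_mod_cast hm.ne'), one_mul]
  have hcn : ‖c‖ = ‖z‖ / (1 + s) := by
    rw [hc, norm_mul, norm_inv, Complex.norm_real, Real.norm_of_nonneg hm.le]; ring
  set r2 : ℝ := s * (1 + s - ‖z‖ ^ 2) / (1 + s) ^ 2 with hr2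
  have hr2pos : 0 < r2 := by
    have : 0 < 1 + s - ‖z‖ ^ 2 := by linarith
    positivity
  have hrs : Real.sqrt r2 ^ 2 = r2 := Real.sq_sqrt hr2pos.le
  have hrel : (1 + s) ^ 2 * ‖c‖ ^ 2 + 1 = (1 + s) * (1 + ‖c‖ ^ 2 - Real.sqrt r2 ^ 2) := by
    rw [hrs, hcn, hr2]
    field_simp
    ring
  refine ⟨c, Real.sqrt r2, 1 + s, Real.sqrt_pos.mpr hr2pos, ?_, by linarith, hmc.symm, ?_, hrel⟩
  · have h1 : Real.sqrt r2 < 1 - ‖c‖ := by
      rw [← Real.sqrt_sq (show 0 ≤ 1 - ‖c‖ by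
        rw [hcn, sub_nonneg, div_le_one hm]; linarith)]
      apply Real.sqrt_lt_sqrt hr2pos.le
      have e1 : (1 - ‖c‖) ^ 2 - r2 = (1 - ‖z‖) ^ 2 / (1 + s) := by
        rw [hcn, hr2]
        field_simp
        ring
      have e2 : 0 < (1 - ‖z‖) ^ 2 / (1 + s) := by
        have : 0 < 1 - ‖z‖ := by linarith
        positivity
      linarith
    linarith
  · have e1 := disc_core hrel x
    rw [hmc] at e1
    have e2 : ‖z - x‖ ^ 2 = s * (1 - ‖x‖ ^ 2) := by rw [hs]; field_simp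
    have e3 : (1 + s) * (‖x - c‖ ^ 2 - Real.sqrt r2 ^ 2) = 0 := by
      rw [← e1, e2]; ring
    have e4 := (mul_eq_zero.mp e3).resolve_left hm.ne'
    exact (sq_eq_sq₀ (norm_nonneg _) (Real.sqrt_nonneg _)).mp (sub_eq_zero.mp e4)

/-- hyperbolic discs are Euclidean discs -/
theorem hyp_disc_eucl {z : ℂ} (hz : z ∈ disc) {x : ℂ} (hx : x ∈ disc) (hzx : z ≠ x) :
    ∃ (c : ℂ) (r : ℝ), 0 < r ∧ ‖c‖ + r < 1 ∧ (∀ w ∈ disc, hdist z w < hdist z x ↔ ‖w - c‖ < r) ∧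
      (∀ w ∈ disc, hdist z w = hdist z x ↔ ‖w - c‖ = r) := by
  obtain ⟨c, r, m, hr, hc, hm, rfl, hxc, hrel⟩ := hyp_disc_eucl' hz hx hzx
  exact ⟨c, r, hr, hc, fun w hw => (core_iff (by linarith) hr.le hrel hz hx hxc hw).1,
    fun w hw => (core_iff (by linarith) hr.le hrel hz hx hxc hw).2⟩

/-- the hyperbolic centre of a Euclidean disc -/
theorem exists_centre {c : ℂ} {r : ℝ} (hr : 0 < r) (hc : ‖c‖ + r < 1) :
    ∃ m : ℝ, 1 < m ∧ (m : ℂ) * c ∈ disc ∧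
      m ^ 2 * ‖c‖ ^ 2 + 1 = m * (1 + ‖c‖ ^ 2 - r ^ 2) := by
  have hcn := norm_nonneg c
  set B : ℝ := 1 + ‖c‖ ^ 2 - r ^ 2 with hB
  have hB1 : 2 * ‖c‖ < B := by nlinarith
  have hB2 : B < 1 + ‖c‖ ^ 2 := by nlinarith
  have hB0 : 0 < B := by linarith
  have hdisc : 0 < B ^ 2 - 4 * ‖c‖ ^ 2 := by nlinarith
  set q : ℝ := Real.sqrt (B ^ 2 - 4 * ‖c‖ ^ 2) with hq
  have hq0 : 0 < q := Real.sqrt_pos.mpr hdisc
  have hq2 : q ^ 2 = B ^ 2 - 4 * ‖c‖ ^ 2 := Real.sq_sqrt hdisc.le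
  have hBq : 0 < B + q := by linarith
  refine ⟨2 / (B + q), ?_, ?_, ?_⟩
  · rw [lt_div_iff₀ hBq]
    have h2 : 0 < 2 - B := by nlinarith
    have : q < 2 - B := by
      apply lt_of_pow_lt_pow_left₀ 2 h2.le
      rw [hq2]; nlinarith
    linarith
  · rw [mem_disc_iff, norm_mul, Complex.norm_real, Real.norm_of_nonneg (by positivity)]
    rw [div_mul_eq_mul_div, div_lt_one hBq]
    linarith
  · have e : (2 / (B + q)) * (B + q) = 2 := by field_simp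
    have e2 : ((2 / (B + q)) ^ 2 * ‖c‖ ^ 2 + 1 - 2 / (B + q) * B) * (B + q) ^ 2 = 0 := by
      have : ((2 / (B + q)) ^ 2 * ‖c‖ ^ 2 + 1 - 2 / (B + q) * B) * (B + q) ^ 2
          = ((2 / (B + q)) * (B + q)) ^ 2 * ‖c‖ ^ 2 + (B + q) ^ 2
            - ((2 / (B + q)) * (B + q)) * B * (B + q) := by ring
      rw [this, e]
      linear_combination hq2
    have e3 := (mul_eq_zero.mp e2).resolve_right (by positivity)
    linarith

theorem mem_disc_of_circle {c x : ℂ} {r : ℝ} (hc : ‖c‖ + r < 1) (hx : ‖x - c‖ = r) : x ∈ disc := by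
  rw [mem_disc_iff]
  calc ‖x‖ = ‖c + (x - c)‖ := by ring_nf
    _ ≤ ‖c‖ + ‖x - c‖ := norm_add_le _ _
    _ < 1 := by rw [hx]; exact hc

/-- Euclidean discs inside the unit disc are hyperbolic discs -/
theorem eucl_disc_hyp {c : ℂ} {r : ℝ} (hr : 0 < r) (hc : ‖c‖ + r < 1) {x : ℂ}
    (hx : ‖x - c‖ = r) :
    ∃ z ∈ disc, z ≠ x ∧ (∀ w ∈ disc, hdist z w < hdist z x ↔ ‖w - c‖ < r) ∧
      (∀ w ∈ disc, hdist z w = hdist z x ↔ ‖w - c‖ = r) := by
  obtain ⟨m, hm, hz, hrel⟩ := exists_centre hr hc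
  have hxd := mem_disc_of_circle hc hx
  refine ⟨(m : ℂ) * c, hz, ?_, fun w hw => (core_iff (by linarith) hr.le hrel hz hxd hx hw).1,
    fun w hw => (core_iff (by linarith) hr.le hrel hz hxd hx hw).2⟩
  intro h
  have e1 := disc_core hrel x
  rw [hx, h, sub_self, sub_self, norm_zero] at e1
  have px := one_sub_sq_pos hxd
  nlinarith

/-- uniqueness of the multiplier -/
theorem centre_unique {c : ℂ} {r m m' : ℝ} (hm : 0 < m) (hm' : 0 < m')
    (hz : (m : ℂ) * c ∈ disc) (hz' : (m' : ℂ) * c ∈ disc)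
    (h : m ^ 2 * ‖c‖ ^ 2 + 1 = m * (1 + ‖c‖ ^ 2 - r ^ 2))
    (h' : m' ^ 2 * ‖c‖ ^ 2 + 1 = m' * (1 + ‖c‖ ^ 2 - r ^ 2)) : m = m' := by
  rw [mem_disc_iff, norm_mul, Complex.norm_real, Real.norm_of_nonneg hm.le] at hz
  rw [mem_disc_iff, norm_mul, Complex.norm_real, Real.norm_of_nonneg hm'.le] at hz'
  have hcn := norm_nonneg c
  have e : (m - m') * (m * m' * ‖c‖ ^ 2 - 1) = 0 := by linear_combination m' * h - m * h'
  rcases mul_eq_zero.mp e with h1 | h1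
  · linarith
  · exfalso
    have h2 : (m * ‖c‖) * (m' * ‖c‖) < 1 := by
      have a1 : 0 ≤ m * ‖c‖ := by positivity
      have a2 : 0 ≤ m' * ‖c‖ := by positivity
      nlinarith
    nlinarith

/-- two circles with different centres meet in at most two points -/
theorem two_circles {c1 c2 x y w : ℂ} (hc : c1 ≠ c2) (hxy : x ≠ y)
    (hy1 : ‖y - c1‖ = ‖x - c1‖) (hy2 : ‖y - c2‖ = ‖x - c2‖)
    (hw1 : ‖w - c1‖ = ‖x - c1‖) (hw2 : ‖w - c2‖ = ‖x - c2‖) : w = x ∨ w = y := by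
  have ey1 : ‖y - c1‖ ^ 2 = ‖x - c1‖ ^ 2 := by rw [hy1]
  have ey2 : ‖y - c2‖ ^ 2 = ‖x - c2‖ ^ 2 := by rw [hy2]
  have ew1 : ‖w - c1‖ ^ 2 = ‖x - c1‖ ^ 2 := by rw [hw1]
  have ew2 : ‖w - c2‖ ^ 2 = ‖x - c2‖ ^ 2 := by rw [hw2]
  simp only [norm_sq_coord, Complex.sub_re, Complex.sub_im] at ey1 ey2 ew1 ew2
  set e0 := c2.re - c1.re with he0
  set e1 := c2.im - c1.im with he1
  have hE : 0 < e0 ^ 2 + e1 ^ 2 := by
    by_contra hcon
    have h0 : e0 ^ 2 + e1 ^ 2 = 0 := le_antisymm (not_lt.mp hcon) (by positivity)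
    have h1 : e0 = 0 := by nlinarith [sq_nonneg e0, sq_nonneg e1]
    have h2 : e1 = 0 := by nlinarith [sq_nonneg e0, sq_nonneg e1]
    exact hc (Complex.ext (by linarith) (by linarith))
  -- coordinates along and orthogonal to the line of centres
  have hyE : (y.re - x.re) * e0 + (y.im - x.im) * e1 = 0 := by
    rw [he0, he1]; linear_combination (1/2) * ey1 - (1/2) * ey2
  have hwE : (w.re - x.re) * e0 + (w.im - x.im) * e1 = 0 := by
    rw [he0, he1]; linear_combination (1/2) * ew1 - (1/2) * ew2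
  set β := (-(y.re - x.re) * e1 + (y.im - x.im) * e0) / (e0 ^ 2 + e1 ^ 2) with hβ
  set α := (-(w.re - x.re) * e1 + (w.im - x.im) * e0) / (e0 ^ 2 + e1 ^ 2) with hα
  have y0 : y.re = x.re - β * e1 := by
    rw [hβ]; field_simp; linear_combination e0 * hyE
  have y1 : y.im = x.im + β * e0 := by
    rw [hβ]; field_simp; linear_combination e1 * hyE
  have w0 : w.re = x.re - α * e1 := by
    rw [hα]; field_simp; linear_combination e0 * hwE
  have w1 : w.im = x.im + α * e0 := by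
    rw [hα]; field_simp; linear_combination e1 * hwE
  rw [y0, y1] at ey1
  rw [w0, w1] at ew1
  have hβ0 : β ≠ 0 := by
    intro h0
    apply hxy
    apply Complex.ext
    · rw [y0, h0]; ring
    · rw [y1, h0]; ring
  have k1 : β * (β * (e0 ^ 2 + e1 ^ 2) + 2 * (-(x.re - c1.re) * e1 + (x.im - c1.im) * e0)) = 0 := by
    linear_combination ey1
  have k2 : α * (α * (e0 ^ 2 + e1 ^ 2) + 2 * (-(x.re - c1.re) * e1 + (x.im - c1.im) * e0)) = 0 := by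
    linear_combination ew1
  have k3 := (mul_eq_zero.mp k1).resolve_left hβ0
  have k4 : α * ((α - β) * (e0 ^ 2 + e1 ^ 2)) = 0 := by linear_combination k2 - α * k3
  rcases mul_eq_zero.mp k4 with h1 | h1
  · left
    apply Complex.ext
    · rw [w0, h1]; ring
    · rw [w1, h1]; ring
  · right
    have h2 : α = β := by
      have := (mul_eq_zero.mp h1).resolve_right hE.ne'
      linarith
    apply Complex.ext
    · rw [w0, y0, h2]
    · rw [w1, y1, h2]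

theorem VAdj.dAdj {S : Set ℂ} (hS : IsLF S) {x y : ℂ} (h : VAdj S x y) : DAdj S x y := by
  obtain ⟨hx, hy, hxy, hnt⟩ := h
  have hxd := hS.1 hx
  have hyd := hS.1 hy
  obtain ⟨z1, hz1, z2, hz2, hz12⟩ := hnt
  -- the hyperbolic distances to `x` and `y` agree
  have hcell : ∀ z, z ∈ cell S x ∩ cell S y → z ∈ disc ∧ hdist z x = hdist z y ∧ z ≠ x ∧
      ∀ w ∈ S, hdist z x ≤ hdist z w := by
    intro z hz
    obtain ⟨⟨hzd, h1⟩, ⟨_, h2⟩⟩ := hz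
    have h3 : hdist z x = hdist z y := le_antisymm (h1 y hy) (h2 x hx)
    refine ⟨hzd, h3, ?_, h1⟩
    rintro rfl
    rw [hdist_eq_hdist_iff hzd hxd hyd, sub_self, norm_zero] at h3
    have px := one_sub_sq_pos hxd
    have h4 : ‖z - y‖ ^ 2 = 0 := by
      have : ‖z - y‖ ^ 2 * (1 - ‖z‖ ^ 2) = 0 := by rw [← h3]; ring
      exact (mul_eq_zero.mp this).resolve_right px.ne'
    have h5 : ‖z - y‖ = 0 := pow_eq_zero_iff two_ne_zero |>.mp h4
    exact hxy (sub_eq_zero.mp (norm_eq_zero.mp h5))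
  obtain ⟨hd1, he1, hn1, hmin1⟩ := hcell z1 hz1
  obtain ⟨hd2, he2, hn2, hmin2⟩ := hcell z2 hz2
  obtain ⟨c1, r1, m1, hr1, hc1, hm1, hzc1, hxc1, hrel1⟩ := hyp_disc_eucl' hd1 hxd hn1
  obtain ⟨c2, r2, m2, hr2, hc2, hm2, hzc2, hxc2, hrel2⟩ := hyp_disc_eucl' hd2 hxd hn2
  rw [hzc1] at hd1 he1 hmin1
  rw [hzc2] at hd2 he2 hmin2
  have hyc1 : ‖y - c1‖ = r1 := ((core_iff (by linarith) hr1.le hrel1 hd1 hxd hxc1 hyd).2).mp he1.symm
  have hyc2 : ‖y - c2‖ = r2 := ((core_iff (by linarith) hr2.le hrel2 hd2 hxd hxc2 hyd).2).mp he2.symm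
  have hc12 : c1 ≠ c2 := by
    intro h
    apply hz12
    have hr12 : r1 = r2 := by rw [← hxc1, ← hxc2, h]
    rw [hzc1, hzc2, h]
    rw [h, hr12] at hrel1
    rw [h] at hd1
    rw [centre_unique (by linarith) (by linarith) hd1 hd2 hrel1 hrel2]
  have hout1 : ∀ w ∈ S, r1 ≤ ‖w - c1‖ := by
    intro w hw
    by_contra hcon
    rw [not_le] at hcon
    have := ((core_iff (by linarith) hr1.le hrel1 hd1 hxd hxc1 (hS.1 hw)).1).mpr hcon
    exact absurd (hmin1 w hw) (not_le.mpr this)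
  have hout2 : ∀ w ∈ S, r2 ≤ ‖w - c2‖ := by
    intro w hw
    by_contra hcon
    rw [not_le] at hcon
    have := ((core_iff (by linarith) hr2.le hrel2 hd2 hxd hxc2 (hS.1 hw)).1).mpr hcon
    exact absurd (hmin2 w hw) (not_le.mpr this)
  -- the middle disc
  set c : ℂ := (1 / 2 : ℝ) * (c1 + c2) with hcdef
  have hmid : ∀ w : ℂ, ‖w - c‖ ^ 2 - ‖x - c‖ ^ 2
      = (1 / 2) * ((‖w - c1‖ ^ 2 - ‖x - c1‖ ^ 2) + (‖w - c2‖ ^ 2 - ‖x - c2‖ ^ 2)) := by
    intro w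
    rw [hcdef]
    simp only [norm_sq_coord, Complex.sub_re, Complex.sub_im, Complex.mul_re, Complex.mul_im,
      Complex.ofReal_re, Complex.ofReal_im, Complex.add_re, Complex.add_im]
    ring
  refine ⟨hx, hy, hxy, c, ‖x - c‖, ?_, rfl, ?_, ?_⟩
  · -- the disc is inside the unit disc
    obtain ⟨u, hu, huc⟩ : ∃ u : ℂ, ‖u‖ = 1 ∧ ‖c + (‖x - c‖ : ℝ) * u‖ = ‖c‖ + ‖x - c‖ := by
      by_cases h0 : c = 0
      · refine ⟨1, norm_one, ?_⟩
        rw [h0, zero_add, norm_zero, zero_add, mul_one, Complex.norm_real, norm_norm]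
      · have hc0 : 0 < ‖c‖ := norm_pos_iff.mpr h0
        refine ⟨((‖c‖⁻¹ : ℝ) : ℂ) * c, ?_, ?_⟩
        · rw [norm_mul, Complex.norm_real, Real.norm_of_nonneg (by positivity),
            inv_mul_cancel₀ hc0.ne']
        · have e : c + (‖x - c‖ : ℝ) * (((‖c‖⁻¹ : ℝ) : ℂ) * c)
              = ((1 + ‖x - c‖ * ‖c‖⁻¹ : ℝ) : ℂ) * c := by push_cast; ring
          rw [e, norm_mul, Complex.norm_real, Real.norm_of_nonneg (by positivity)]
          field_simp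
    rw [← huc]
    set w := c + (‖x - c‖ : ℝ) * u with hw
    have hwc : ‖w - c‖ = ‖x - c‖ := by
      rw [hw, add_sub_cancel_left, norm_mul, hu, mul_one, Complex.norm_real, norm_norm]
    have h1 := hmid w
    rw [hwc, sub_self] at h1
    have tri : ∀ (c' : ℂ) (r' : ℝ), ‖c'‖ + r' < 1 → ‖w - c'‖ ≤ r' → ‖w‖ < 1 := by
      intro c' r' ha hb
      calc ‖w‖ = ‖c' + (w - c')‖ := by ring_nf
        _ ≤ ‖c'‖ + ‖w - c'‖ := norm_add_le _ _
        _ < 1 := by linarith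
    by_cases h2 : ‖w - c1‖ ≤ r1
    · exact tri c1 r1 hc1 h2
    · apply tri c2 r2 hc2
      by_contra h3
      rw [not_le] at h2 h3
      rw [hxc1, hxc2] at h1
      have h4 : r1 ^ 2 < ‖w - c1‖ ^ 2 := pow_lt_pow_left₀ h2 hr1.le two_ne_zero
      have h5 : r2 ^ 2 < ‖w - c2‖ ^ 2 := pow_lt_pow_left₀ h3 hr2.le two_ne_zero
      linarith
  · have h1 := hmid y
    rw [hxc1, hxc2, hyc1, hyc2, sub_self, sub_self, add_zero, mul_zero, sub_eq_zero] at h1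
    exact (sq_eq_sq₀ (norm_nonneg _) (norm_nonneg _)).mp h1
  · intro w hw hwx hwy
    have h1 := hmid w
    have a1 := pow_le_pow_left₀ hr1.le (hout1 w hw) 2
    have a2 := pow_le_pow_left₀ hr2.le (hout2 w hw) 2
    rw [hxc1, hxc2] at h1
    apply lt_of_pow_lt_pow_left₀ 2 (norm_nonneg _)
    by_contra hcon
    rw [not_lt] at hcon
    have b1 : ‖w - c1‖ ^ 2 = r1 ^ 2 := by linarith
    have b2 : ‖w - c2‖ ^ 2 = r2 ^ 2 := by linarith
    have b3 := (sq_eq_sq₀ (norm_nonneg _) hr1.le).mp b1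
    have b4 := (sq_eq_sq₀ (norm_nonneg _) hr2.le).mp b2
    rcases two_circles hc12 hxy (by rw [hyc1, hxc1]) (by rw [hyc2, hxc2]) (by rw [b3, hxc1])
      (by rw [b4, hxc2]) with h5 | h5
    · exact hwx h5
    · exact hwy h5

theorem DAdj.vAdj {S : Set ℂ} (hS : IsLF S) {x y : ℂ} (h : DAdj S x y) : VAdj S x y := by
  obtain ⟨hx, hy, hxy, c, r, hc, hxc, hyc, hout⟩ := h
  have hr : 0 < r := by
    rcases (norm_nonneg (x - c)).lt_or_eq with h0 | h0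
    · rwa [hxc] at h0
    · exfalso
      apply hxy
      have e1 : x - c = 0 := norm_eq_zero.mp h0.symm
      have e2 : y - c = 0 := norm_eq_zero.mp (by rw [hyc, ← hxc]; exact h0.symm)
      rw [sub_eq_zero.mp e1, sub_eq_zero.mp e2]
  set d : ℂ := Complex.I * (y - x) with hd
  have hd0 : d ≠ 0 := mul_ne_zero Complex.I_ne_zero (sub_ne_zero.mpr hxy.symm)
  have hbis : ∀ t : ℝ, ‖y - (c + t * d)‖ = ‖x - (c + t * d)‖ := by
    intro t
    rw [← sq_eq_sq₀ (norm_nonneg _) (norm_nonneg _)]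
    have e1 : ‖y - c‖ ^ 2 = ‖x - c‖ ^ 2 := by rw [hxc, hyc]
    simp only [norm_sq_coord, hd, Complex.sub_re, Complex.sub_im, Complex.add_re, Complex.add_im,
      Complex.mul_re, Complex.mul_im, Complex.ofReal_re, Complex.ofReal_im, Complex.I_re,
      Complex.I_im] at e1 ⊢
    linear_combination e1
  obtain ⟨ρ, hρ1, hρ2⟩ := exists_between hc
  have hev : ∀ᶠ t : ℝ in 𝓝 0, ‖c + t * d‖ + ‖x - (c + t * d)‖ < ρ ∧
      ∀ w ∈ (S ∩ Metric.closedBall 0 ρ) \ {x, y}, ‖x - (c + t * d)‖ < ‖w - (c + t * d)‖ := by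
    apply Filter.Eventually.and
    · have hcont : Continuous fun t : ℝ => ‖c + t * d‖ + ‖x - (c + t * d)‖ := by fun_prop
      apply hcont.continuousAt.eventually_lt continuousAt_const
      simp only [Complex.ofReal_zero, zero_mul, add_zero, hxc]
      exact hρ1
    · rw [Filter.eventually_all_finite ((hS.2 ρ hρ2).subset sdiff_subset)]
      rintro w ⟨⟨hwS, -⟩, hw2⟩
      have hcont : Continuous fun t : ℝ => ‖x - (c + t * d)‖ := by fun_prop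
      have hcont2 : Continuous fun t : ℝ => ‖w - (c + t * d)‖ := by fun_prop
      apply hcont.continuousAt.eventually_lt hcont2.continuousAt
      simp only [Complex.ofReal_zero, zero_mul, add_zero, hxc]
      simp only [mem_insert_iff, mem_singleton_iff, not_or] at hw2
      exact hout w hwS hw2.1 hw2.2
  obtain ⟨t, ⟨ht1, ht2⟩, ht0⟩ : ∃ t : ℝ, (‖c + t * d‖ + ‖x - (c + t * d)‖ < ρ ∧
      ∀ w ∈ (S ∩ Metric.closedBall 0 ρ) \ {x, y}, ‖x - (c + t * d)‖ < ‖w - (c + t * d)‖) ∧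
        t ≠ 0 := by
    have h1 : ∀ᶠ t : ℝ in 𝓝[≠] 0, _ := hev.filter_mono nhdsWithin_le_nhds
    have h2 : ∀ᶠ t : ℝ in 𝓝[≠] 0, t ≠ 0 := eventually_mem_nhdsWithin
    exact (h1.and h2).exists
  set c' : ℂ := c + t * d with hc'
  set r' : ℝ := ‖x - c'‖ with hr'
  have hc'1 : ‖c'‖ + r' < 1 := ht1.trans hρ2
  have hyc' : ‖y - c'‖ = r' := hbis t
  have hr'0 : 0 < r' := by
    rcases (norm_nonneg (x - c')).lt_or_eq with h0 | h0
    · exact h0
    · exfalso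
      apply hxy
      have e1 : x - c' = 0 := norm_eq_zero.mp h0.symm
      have e2 : y - c' = 0 := norm_eq_zero.mp (by rw [hyc', hr']; exact h0.symm)
      rw [sub_eq_zero.mp e1, sub_eq_zero.mp e2]
  have hout' : ∀ w ∈ S, w ≠ x → w ≠ y → r' < ‖w - c'‖ := by
    intro w hw hwx hwy
    by_cases h : ‖w‖ ≤ ρ
    · apply ht2 w ⟨⟨hw, by rwa [Metric.mem_closedBall, dist_zero_right]⟩, ?_⟩
      simp only [mem_insert_iff, mem_singleton_iff, not_or]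
      exact ⟨hwx, hwy⟩
    · rw [not_le] at h
      have h1 : ‖w‖ ≤ ‖w - c'‖ + ‖c'‖ := by
        calc ‖w‖ = ‖(w - c') + c'‖ := by ring_nf
          _ ≤ _ := norm_add_le _ _
      linarith
  have hxd := hS.1 hx
  have hyd := hS.1 hy
  obtain ⟨m0, hm0, hz0, hrel0⟩ := exists_centre hr hc
  obtain ⟨m1, hm1, hz1, hrel1⟩ := exists_centre hr'0 hc'1
  have hmem : ∀ (c : ℂ) (r m : ℝ), 0 < r → 1 < m → (m : ℂ) * c ∈ disc →
      m ^ 2 * ‖c‖ ^ 2 + 1 = m * (1 + ‖c‖ ^ 2 - r ^ 2) → ‖x - c‖ = r → ‖y - c‖ = r →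
      (∀ w ∈ S, w ≠ x → w ≠ y → r < ‖w - c‖) → (m : ℂ) * c ∈ cell S x ∩ cell S y := by
    intro c r m hr hm hz hrel hxc hyc hout
    have key : ∀ w ∈ S, hdist ((m : ℂ) * c) x ≤ hdist ((m : ℂ) * c) w := by
      intro w hw
      by_contra hcon
      rw [not_le, (core_iff (by linarith) hr.le hrel hz hxd hxc (hS.1 hw)).1] at hcon
      by_cases h1 : w = x
      · rw [h1, hxc] at hcon; exact lt_irrefl _ hcon
      · by_cases h2 : w = y
        · rw [h2, hyc] at hcon; exact lt_irrefl _ hcon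
        · exact absurd hcon (not_lt.mpr (hout w hw h1 h2).le)
    have e : hdist ((m : ℂ) * c) y = hdist ((m : ℂ) * c) x :=
      ((core_iff (by linarith) hr.le hrel hz hxd hxc hyd).2).mpr hyc
    exact ⟨⟨hz, key⟩, ⟨hz, fun w hw => e.trans_le (key w hw)⟩⟩
  refine ⟨hx, hy, hxy, _, hmem c r m0 hr hm0 hz0 hrel0 hxc hyc hout, _,
    hmem c' r' m1 hr'0 hm1 hz1 hrel1 rfl hyc' hout', ?_⟩
  intro heq
  have e1 := disc_core hrel0 x
  have e2 := disc_core hrel1 x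
  rw [hxc, sub_self, mul_zero] at e1
  rw [← hr', sub_self, mul_zero, ← heq] at e2
  have px := one_sub_sq_pos hxd
  have e3 : (m1 - m0) * (1 - ‖x‖ ^ 2) = 0 := by linarith
  have e4 := (mul_eq_zero.mp e3).resolve_right px.ne'
  have e5 : m1 = m0 := by linarith
  rw [e5] at heq
  have hm0c : (m0 : ℂ) ≠ 0 := by
    have : m0 ≠ 0 := by linarith
    exact_mod_cast this
  have e6 : c = c' := mul_left_cancel₀ hm0c heq
  rw [hc'] at e6
  have e7 : (t : ℂ) * d = 0 := by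
    have := congrArg (fun v => v - c) e6
    simpa using this.symm
  rcases mul_eq_zero.mp e7 with h1 | h1
  · exact ht0 (by exact_mod_cast h1)
  · exact hd0 h1

theorem VAdj_iff_DAdj {S : Set ℂ} (hS : IsLF S) {x y : ℂ} : VAdj S x y ↔ DAdj S x y :=
  ⟨fun h => h.dAdj hS, fun h => h.vAdj hS⟩

end HPV
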