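import Pool.Agent.Helper28.HPV.PoissonA

/-! M1 (T2): Poisson process, consequences of the Mecke formula, local approximation. -/

open MeasureTheory ProbabilityTheory Set Filter Topology
open scoped ENNReal NNReal Real

namespace HPV

/-- almost sure properties are preserved by adding a point -/
theorem IsPoissonLaw.ae_ins {μ : Measure Cfg} {lam : ℝ} (h : IsPoissonLaw μ lam)
    {Q : Cfg → Prop} (hQ : ∀ᵐ S ∂μ, Q S) : ∀ᵐ q ∂(hypArea.prod μ), Q (ins q.1 q.2) := by
  have := h.isProb
  obtain ⟨N, hN1, hN2, hN3⟩ := exists_measurable_superset_of_null (ae_iff.1 hQ)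
  have hF : Measurable fun q : ℂ × Cfg => N.indicator (fun _ => (1 : ℝ≥0∞)) q.2 :=
    (measurable_const.indicator hN2).comp measurable_snd
  have h1 := h.mecke hF
  have h2 : ∫⁻ S, ∫⁻ _, N.indicator (fun _ => (1 : ℝ≥0∞)) S ∂(cnt S) ∂μ = 0 := by
    rw [lintegral_eq_zero_iff']
    · have : ∀ᵐ S ∂μ, S ∉ N := by
        rw [ae_iff]; simpa using hN3
      filter_upwards [this] with S hS
      simp [indicator_of_notMem hS]
    · have h4 : Measurable fun q : Cfg × ℂ => N.indicator (fun _ => (1 : ℝ≥0∞)) q.1 :=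
        (measurable_const.indicator hN2).comp measurable_fst
      exact (Measurable.lintegral_kernel_prod_right' (κ := cnt) h4).aemeasurable
  simp only at h1
  rw [h2] at h1
  have h3 : ∫⁻ x, ∫⁻ S, N.indicator (fun _ => (1 : ℝ≥0∞)) (ins x S) ∂μ ∂hypArea = 0 := by
    rcases mul_eq_zero.1 h1.symm with h4 | h4
    · exact absurd (ENNReal.ofReal_eq_zero.1 h4) (not_le.2 h.pos)
    · exact h4
  have hG : Measurable fun q : ℂ × Cfg => N.indicator (fun _ => (1 : ℝ≥0∞)) (ins q.1 q.2) :=
    (measurable_const.indicator hN2).comp measurable_ins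
  rw [← lintegral_prod _ hG.aemeasurable, lintegral_eq_zero_iff hG] at h3
  filter_upwards [h3] with q hq
  by_contra hc
  have : ins q.1 q.2 ∈ N := hN1 hc
  simp [indicator_of_mem this] at hq

/-- void probabilities -/
theorem IsPoissonLaw.void {μ : Measure Cfg} {lam : ℝ} (h : IsPoissonLaw μ lam)
    {B : Set ℂ} (hB : MeasurableSet B) (hB' : hypArea B ≠ ∞) :
    μ {S | S.1 ∩ B = ∅} = ENNReal.ofReal (Real.exp (-(lam * (hypArea B).toReal))) := by
  have h1 := h.law 1 (fun _ => B) (fun _ => hB)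
    (fun i j hij => absurd (Subsingleton.elim i j) hij) (fun _ => hB') (fun _ => 0)
  have h2 : {S : Cfg | ∀ i : Fin 1, (S.1 ∩ B).encard = ((0 : ℕ) : ℕ∞)} =
      {S | S.1 ∩ B = ∅} := by
    ext S
    simp
  rw [h2] at h1
  simpa using h1

theorem pb_first_moment {μ : Measure Cfg} {lam : ℝ} (h : IsPoissonLaw μ lam)
    {B : Set ℂ} (hB : MeasurableSet B) :
    ∫⁻ S, cnt S B ∂μ = ENNReal.ofReal lam * hypArea B := by
  have := h.isProb
  have hF : Measurable fun q : ℂ × Cfg => B.indicator (fun _ => (1 : ℝ≥0∞)) q.1 :=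
    (measurable_const.indicator hB).comp measurable_fst
  have h1 := h.mecke hF
  simp only [lintegral_indicator hB, lintegral_const, one_mul, Measure.restrict_apply_univ,
    measure_univ, mul_one] at h1
  exact h1

/-- second moment -/
theorem IsPoissonLaw.second_moment {μ : Measure Cfg} {lam : ℝ} (h : IsPoissonLaw μ lam)
    {B : Set ℂ} (hB : MeasurableSet B) (hB' : hypArea B ≠ ∞) :
    ∫⁻ S, (cnt S B) ^ 2 ∂μ =
      ENNReal.ofReal lam * hypArea B + (ENNReal.ofReal lam * hypArea B) ^ 2 := by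
  classical
  have := h.isProb
  have hF : Measurable fun q : ℂ × Cfg => B.indicator (fun _ => (1 : ℝ≥0∞)) q.1 * cnt q.2 B :=
    ((measurable_const.indicator hB).comp measurable_fst).mul
      ((pa_measurable_cnt hB).comp measurable_snd)
  have h1 := h.mecke hF
  have h2 : ∀ S : Cfg, ∫⁻ x, B.indicator (fun _ => (1 : ℝ≥0∞)) x * cnt S B ∂(cnt S) =
      (cnt S B) ^ 2 := by
    intro S
    rw [lintegral_mul_const _ (measurable_const.indicator hB), lintegral_indicator hB,
      lintegral_const, Measure.restrict_apply_univ, one_mul, sq]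
  have h3 : ∀ x ∈ disc, ∫⁻ S, B.indicator (fun _ => (1 : ℝ≥0∞)) x * cnt (ins x S) B ∂μ =
      B.indicator (fun _ => ENNReal.ofReal lam * hypArea B + 1) x := by
    intro x hx
    by_cases hxB : x ∈ B
    · simp only [indicator_of_mem hxB, one_mul]
      have h4 : (fun S : Cfg => cnt (ins x S) B) =ᵐ[μ] fun S => cnt S B + 1 := by
        filter_upwards [pa_notMem h x] with S hS
        rw [cnt_apply _ B hB, pa_encard_ins, if_pos ⟨hx, hxB, hS⟩, cnt_apply _ B hB]
      rw [lintegral_congr_ae h4, lintegral_add_right _ measurable_const, pb_first_moment h hB]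
      simp
    · simp [indicator_of_notMem hxB]
  have h4 : ∫⁻ x, ∫⁻ S, B.indicator (fun _ => (1 : ℝ≥0∞)) x * cnt (ins x S) B ∂μ ∂hypArea =
      ∫⁻ x, B.indicator (fun _ => ENNReal.ofReal lam * hypArea B + 1) x ∂hypArea := by
    refine lintegral_congr_ae ?_
    have h5 : ∀ᵐ x ∂hypArea, x ∈ disc := pa_hypArea_compl_disc
    filter_upwards [h5] with x hx using h3 x hx
  simp only [h2] at h1
  rw [h1, h4, lintegral_indicator hB, lintegral_const, Measure.restrict_apply_univ]
  ring

/-- restriction of a configuration to a ball -/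
def cut (r : ℝ) (S : Cfg) : Cfg :=
  ⟨S.1 ∩ Metric.closedBall 0 r, fun _ hz => S.2.1 hz.1,
    fun s hs => (S.2.2 s hs).subset fun _ hz => ⟨hz.1.1, hz.2⟩⟩

theorem pb_cnt_cut (r : ℝ) (S : Cfg) {B : Set ℂ} (hB : MeasurableSet B) :
    cnt (cut r S) B = cnt S (B ∩ Metric.closedBall 0 r) := by
  rw [cnt_apply _ B hB, cnt_apply _ _ (hB.inter measurableSet_closedBall)]
  congr 2
  ext z
  simp only [cut, mem_inter_iff]
  tauto

theorem measurable_cut (r : ℝ) : Measurable (cut r) := by
  refine measurable_cfg fun B hB => ?_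
  have h : (fun S : Cfg => (((cut r S).1 ∩ B).encard : ℝ≥0∞)) =
      fun S => cnt S (B ∩ Metric.closedBall 0 r) := by
    funext S
    rw [← pb_cnt_cut r S hB, cnt_apply _ B hB]
  rw [h]
  exact pa_measurable_cnt (hB.inter measurableSet_closedBall)

theorem pb_cut_cut {r r' : ℝ} (h : r ≤ r') (S : Cfg) : cut r (cut r' S) = cut r S := by
  apply Subtype.ext
  ext z
  simp only [cut, mem_inter_iff]
  constructor
  · rintro ⟨⟨h1, _⟩, h2⟩; exact ⟨h1, h2⟩
  · rintro ⟨h1, h2⟩; exact ⟨⟨h1, Metric.closedBall_subset_closedBall h h2⟩, h2⟩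

/-- cut the first component -/
noncomputable def pb_T {X : Type*} (n : ℕ) (q : Cfg × X) : Cfg × X := (cut (pa_rad n) q.1, q.2)

theorem pb_T_measurable {X : Type*} [MeasurableSpace X] (n : ℕ) :
    Measurable (pb_T (X := X) n) :=
  ((measurable_cut _).comp measurable_fst).prodMk measurable_snd

/-- the filtration of the cut configurations -/
noncomputable def pb_filt (X : Type*) [MeasurableSpace X] :
    Filtration ℕ (inferInstance : MeasurableSpace (Cfg × X)) where
  seq n := MeasurableSpace.comap (pb_T n) inferInstance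
  mono' := by
    intro m n hmn s hs
    obtain ⟨t, ht, rfl⟩ := hs
    refine ⟨pb_T m ⁻¹' t, pb_T_measurable m ht, ?_⟩
    ext q
    simp only [mem_preimage, pb_T, pb_cut_cut (pa_rad_mono hmn)]
  le' n := by
    rintro s ⟨t, ht, rfl⟩
    exact pb_T_measurable n ht

theorem pb_le_iSup (X : Type*) [MeasurableSpace X] :
    (inferInstance : MeasurableSpace (Cfg × X)) ≤ ⨆ n, pb_filt X n := by
  have hle : ∀ n, pb_filt X n ≤ ⨆ n, pb_filt X n := fun n => le_iSup (fun n => pb_filt X n) n
  have hT : ∀ n, Measurable[⨆ n, pb_filt X n] (pb_T (X := X) n) := fun n =>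
    (comap_measurable (pb_T n)).mono (hle n) le_rfl
  have h1 : Measurable[⨆ n, pb_filt X n] (fun q : Cfg × X => q.1) := by
    refine @measurable_cfg (Cfg × X) (⨆ n, pb_filt X n) _ fun B hB => ?_
    have h2 : (fun q : Cfg × X => ((q.1.1 ∩ B).encard : ℝ≥0∞)) = fun q =>
        ⨆ n, cnt (pb_T n q).1 B := by
      funext q
      rw [← cnt_apply q.1 B hB]
      have h3 : ∀ n, cnt (pb_T n q).1 B = cnt q.1 (B ∩ Metric.closedBall 0 (pa_rad n)) :=
        fun n => pb_cnt_cut _ _ hB
      simp_rw [h3]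
      rw [← pa_cnt_inter_disc q.1 B hB, pa_disc_eq, inter_iUnion]
      refine Monotone.measure_iUnion ?_
      intro m n hmn
      exact inter_subset_inter_right _ (Metric.closedBall_subset_closedBall (pa_rad_mono hmn))
    rw [h2]
    refine Measurable.iSup fun n => ?_
    exact (pa_measurable_cnt hB).comp (measurable_fst.comp (hT n))
  have h2 : Measurable[⨆ n, pb_filt X n] (fun q : Cfg × X => q.2) := by
    have : (fun q : Cfg × X => q.2) = fun q => (pb_T 0 q).2 := rfl
    rw [this]
    exact measurable_snd.comp (hT 0)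
  have h3 : Measurable[⨆ n, pb_filt X n] (fun q : Cfg × X => (q.1, q.2)) := h1.prodMk h2
  intro s hs
  exact h3 hs

/-- functions of `(S, x)` are approximated in `L¹` by functions which depend only on
`S ∩ closedBall 0 r`. -/
theorem local_approx {X : Type*} [MeasurableSpace X] (μ : Measure Cfg) [IsProbabilityMeasure μ]
    (ρ : Measure X) [IsFiniteMeasure ρ] {F : Cfg × X → ℝ} (hF : Measurable F)
    (hF0 : ∀ q, 0 ≤ F q) (hF1 : ∀ q, F q ≤ 1) {ε : ℝ} (hε : 0 < ε) :
    ∃ (r : ℝ) (F' : Cfg × X → ℝ), r < 1 ∧ Measurable F' ∧ (∀ q, 0 ≤ F' q) ∧ (∀ q, F' q ≤ 1) ∧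
      (∀ S S' x, cut r S = cut r S' → F' (S, x) = F' (S', x)) ∧
      ∫ q, |F q - F' q| ∂(μ.prod ρ) ≤ ε := by
  have hFi : Integrable F (μ.prod ρ) := by
    refine Integrable.of_bound hF.aestronglyMeasurable 1 (Eventually.of_forall fun q => ?_)
    rw [Real.norm_eq_abs, abs_le]
    exact ⟨by linarith [hF0 q], hF1 q⟩
  have hFm : StronglyMeasurable[⨆ n, pb_filt X n] F :=
    (hF.mono (pb_le_iSup X) le_rfl).stronglyMeasurable
  have h1 := Integrable.tendsto_eLpNorm_condExp (ℱ := pb_filt X) hFi hFm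
  have h2 : ∀ᶠ n in atTop, eLpNorm ((μ.prod ρ)[F | pb_filt X n] - F) 1 (μ.prod ρ) <
      ENNReal.ofReal ε := h1.eventually (gt_mem_nhds (by simpa using hε))
  obtain ⟨n, hn⟩ := h2.exists
  set g := (μ.prod ρ)[F | pb_filt X n] with hg
  have hgm : StronglyMeasurable[pb_filt X n] g := stronglyMeasurable_condExp
  let F' : Cfg × X → ℝ := fun q => max 0 (min 1 (g q))
  have hF'm : Measurable[pb_filt X n] F' :=
    measurable_const.max (measurable_const.min hgm.measurable)
  have hF'0 : ∀ q, 0 ≤ F' q := fun q => le_max_left _ _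
  have hF'1 : ∀ q, F' q ≤ 1 := fun q => max_le zero_le_one (min_le_left _ _)
  refine ⟨pa_rad n, F', pa_rad_lt_one n, hF'm.mono ((pb_filt X).le n) le_rfl, hF'0, hF'1, ?_, ?_⟩
  · intro S S' x hS
    obtain ⟨t, ht, hte⟩ := hF'm (measurableSet_singleton (F' (S, x)))
    have h3 : (S, x) ∈ F' ⁻¹' {F' (S, x)} := rfl
    rw [← hte] at h3
    have h4 : (S', x) ∈ pb_T n ⁻¹' t := by
      have : pb_T n (S', x) = pb_T n (S, x) := by simp [pb_T, hS]
      rw [mem_preimage, this]
      exact h3
    rw [hte] at h4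
    exact (h4 : F' (S', x) = F' (S, x)).symm
  · have h3 : ∀ q, |F q - F' q| ≤ |g q - F q| := by
      intro q
      have h4 := hF0 q
      have h5 := hF1 q
      simp only [F']
      rcases le_total 0 (min 1 (g q)) with h6 | h6
      · rw [max_eq_right h6]
        rcases le_total 1 (g q) with h7 | h7
        · rw [min_eq_left h7, abs_le]
          have := le_abs_self (g q - F q)
          have := abs_nonneg (g q - F q)
          constructor <;> linarith
        · rw [min_eq_right h7, abs_sub_comm]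
      · rw [max_eq_left h6]
        rcases le_total 1 (g q) with h7 | h7
        · rw [min_eq_left h7] at h6; linarith
        · rw [min_eq_right h7] at h6
          rw [sub_zero, abs_of_nonneg h4]
          have := neg_abs_le (g q - F q)
          linarith
    have hgi : Integrable g (μ.prod ρ) := integrable_condExp
    have h4 : ∫ q, |F q - F' q| ∂(μ.prod ρ) ≤ ∫ q, |g q - F q| ∂(μ.prod ρ) := by
      refine integral_mono_of_nonneg (Eventually.of_forall fun q => abs_nonneg _)
        (hgi.sub hFi).abs (Eventually.of_forall h3)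
    refine h4.trans ?_
    have h5 : ∫ q, |g q - F q| ∂(μ.prod ρ) =
        (eLpNorm (g - F) 1 (μ.prod ρ)).toReal := by
      rw [eLpNorm_one_eq_lintegral_enorm]
      rw [← integral_norm_eq_lintegral_enorm (hgi.sub hFi).aestronglyMeasurable]
      rfl
    rw [h5]
    have h6 : (eLpNorm (g - F) 1 (μ.prod ρ)).toReal ≤ (ENNReal.ofReal ε).toReal :=
      ENNReal.toReal_mono ENNReal.ofReal_ne_top hn.le
    rwa [ENNReal.toReal_ofReal hε.le] at h6

end HPV
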