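import Pool.Agent.Helper28.HPV.GraphA
import Pool.Agent.Helper28.HPV.PoissonB

/-! T7 GraphB: measurability of adjacency, empty discs, regularity. -/

open MeasureTheory ProbabilityTheory Set Filter Topology
open scoped ENNReal NNReal Real

namespace HPV

namespace GraphB

theorem norm_sq_co (z : ℂ) : ‖z‖ ^ 2 = z.re ^ 2 + z.im ^ 2 := by
  rw [Complex.sq_norm, Complex.normSq_apply]; ring

theorem mem_disc {z : ℂ} : z ∈ disc ↔ ‖z‖ < 1 := by
  rw [disc, Metric.mem_ball, dist_zero_right]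

/-- moving the centre on the bisector -/
theorem bis (x y c : ℂ) (h : ‖y - c‖ = ‖x - c‖) (t : ℝ) :
    ‖y - (c + t * (Complex.I * (y - x)))‖ = ‖x - (c + t * (Complex.I * (y - x)))‖ := by
  rw [← sq_eq_sq₀ (norm_nonneg _) (norm_nonneg _)]
  have e1 : ‖y - c‖ ^ 2 = ‖x - c‖ ^ 2 := by rw [h]
  simp only [norm_sq_co, Complex.sub_re, Complex.sub_im, Complex.add_re, Complex.add_im,
    Complex.mul_re, Complex.mul_im, Complex.ofReal_re, Complex.ofReal_im, Complex.I_re,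
    Complex.I_im] at e1 ⊢
  linear_combination e1

/-- small perturbations of a disc keep the far points outside -/
theorem ev_out {S : Set ℂ} (hS : IsLF S) {x c : ℂ} {r : ℝ} (hc : ‖c‖ + r < 1) (hxc : ‖x - c‖ = r)
    (d : ℂ) (T : Set ℂ) (hT : ∀ w ∈ S, w ∉ T → r < ‖w - c‖) :
    ∀ᶠ t : ℝ in 𝓝 0, ‖c + t * d‖ + ‖x - (c + t * d)‖ < 1 ∧
      ∀ w ∈ S, w ∉ T → ‖x - (c + t * d)‖ < ‖w - (c + t * d)‖ := by
  obtain ⟨ρ, hρ1, hρ2⟩ := exists_between hc
  have hev : ∀ᶠ t : ℝ in 𝓝 0, ‖c + t * d‖ + ‖x - (c + t * d)‖ < ρ ∧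
      ∀ w ∈ (S ∩ Metric.closedBall 0 ρ) \ T, ‖x - (c + t * d)‖ < ‖w - (c + t * d)‖ := by
    apply Filter.Eventually.and
    · have hcont : Continuous fun t : ℝ => ‖c + t * d‖ + ‖x - (c + t * d)‖ := by fun_prop
      apply hcont.continuousAt.eventually_lt continuousAt_const
      simp only [Complex.ofReal_zero, zero_mul, add_zero, hxc]
      exact hρ1
    · rw [Filter.eventually_all_finite ((hS.2 ρ hρ2).subset sdiff_subset)]
      rintro w ⟨⟨hwS, -⟩, hw2⟩
      have hcont : Continuous fun t : ℝ => ‖x - (c + t * d)‖ := by fun_prop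
      have hcont2 : Continuous fun t : ℝ => ‖w - (c + t * d)‖ := by fun_prop
      apply hcont.continuousAt.eventually_lt hcont2.continuousAt
      simp only [Complex.ofReal_zero, zero_mul, add_zero, hxc]
      exact hT w hwS hw2
  filter_upwards [hev] with t ⟨h1, h2⟩
  refine ⟨h1.trans hρ2, fun w hw hwT => ?_⟩
  by_cases h : ‖w‖ ≤ ρ
  · exact h2 w ⟨⟨hw, by rwa [Metric.mem_closedBall, dist_zero_right]⟩, hwT⟩
  · rw [not_le] at h
    have h3 : ‖w‖ ≤ ‖w - (c + t * d)‖ + ‖c + t * d‖ := by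
      calc ‖w‖ = ‖(w - (c + t * d)) + (c + t * d)‖ := by ring_nf
        _ ≤ _ := norm_add_le _ _
    linarith

/-- the centre of a disc through `x` and `y` lies on the bisector -/
theorem on_bis {x y c : ℂ} (hxy : x ≠ y) (h : ‖y - c‖ = ‖x - c‖) :
    ∃ t : ℝ, c = (1 / 2 : ℝ) * (x + y) + t * (Complex.I * (y - x)) := by
  have e1 : ‖y - c‖ ^ 2 = ‖x - c‖ ^ 2 := by rw [h]
  simp only [norm_sq_co, Complex.sub_re, Complex.sub_im] at e1
  have hD : 0 < (y.re - x.re) ^ 2 + (y.im - x.im) ^ 2 := by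
    by_contra hcon
    have h1 : y.re - x.re = 0 := by nlinarith [sq_nonneg (y.re - x.re), sq_nonneg (y.im - x.im)]
    have h2 : y.im - x.im = 0 := by nlinarith [sq_nonneg (y.re - x.re), sq_nonneg (y.im - x.im)]
    exact hxy (Complex.ext (by linarith) (by linarith))
  refine ⟨(-(y.im - x.im) * (c.re - (x.re + y.re) / 2) + (y.re - x.re) * (c.im - (x.im + y.im) / 2))
    / ((y.re - x.re) ^ 2 + (y.im - x.im) ^ 2), ?_⟩
  apply Complex.ext
  · simp only [Complex.add_re, Complex.mul_re, Complex.ofReal_re, Complex.ofReal_im, Complex.I_re,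
      Complex.I_im, Complex.sub_re, Complex.sub_im, Complex.add_im, Complex.mul_im]
    field_simp
    linear_combination (-(y.re - x.re)) * e1
  · simp only [Complex.add_re, Complex.mul_re, Complex.ofReal_re, Complex.ofReal_im, Complex.I_re,
      Complex.I_im, Complex.sub_re, Complex.sub_im, Complex.add_im, Complex.mul_im]
    field_simp
    linear_combination (-(y.im - x.im)) * e1

/-- centre number `t` -/
noncomputable def ctr (t : ℚ) (p : ℂ × ℂ) : ℂ :=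
  (1 / 2 : ℝ) * (p.1 + p.2) + ((t : ℝ) : ℂ) * (Complex.I * (p.2 - p.1))

theorem measurable_ctr (t : ℚ) : Measurable (ctr t) := by
  unfold ctr
  fun_prop

theorem vAdj_iff (S : Cfg) (x y : ℂ) : VAdj S.1 x y ↔
    ∃ t : ℚ, x ∈ S.1 ∧ y ∈ S.1 ∧ x ≠ y ∧
      ‖ctr t (x, y)‖ + ‖x - ctr t (x, y)‖ < 1 ∧
      cnt S {z | ‖z - ctr t (x, y)‖ ≤ ‖x - ctr t (x, y)‖} = 2 := by
  have hms : ∀ (c : ℂ) (r : ℝ), MeasurableSet {z : ℂ | ‖z - c‖ ≤ r} := fun c r =>
    measurableSet_le (by fun_prop) measurable_const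
  rw [VAdj_iff_DAdj S.2]
  constructor
  · rintro ⟨hx, hy, hxy, c, r, hc, hxc, hyc, hout⟩
    obtain ⟨t0, ht0⟩ := on_bis hxy (by rw [hyc, hxc])
    have hev := ev_out S.2 hc hxc (Complex.I * (y - x)) {x, y} (by
      intro w hw hw2
      simp only [mem_insert_iff, mem_singleton_iff, not_or] at hw2
      exact hout w hw hw2.1 hw2.2)
    have htend : Tendsto (fun t : ℝ => t - t0) (𝓝 t0) (𝓝 0) := by
      have : Continuous fun t : ℝ => t - t0 := by fun_prop
      simpa using this.tendsto t0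
    obtain ⟨q, hq⟩ := (Rat.denseRange_cast (𝕜 := ℝ)).mem_nhds (htend.eventually hev)
    have hq' : ‖c + ((q - t0 : ℝ) : ℂ) * (Complex.I * (y - x))‖
        + ‖x - (c + ((q - t0 : ℝ) : ℂ) * (Complex.I * (y - x)))‖ < 1 ∧
        ∀ w ∈ S.1, w ∉ ({x, y} : Set ℂ) → ‖x - (c + ((q - t0 : ℝ) : ℂ) * (Complex.I * (y - x)))‖
          < ‖w - (c + ((q - t0 : ℝ) : ℂ) * (Complex.I * (y - x)))‖ := hq
    obtain ⟨hq1, hq2⟩ := hq'
    have hcc : c + ((q - t0 : ℝ) : ℂ) * (Complex.I * (y - x)) = ctr q (x, y) := by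
      rw [ctr, ht0]; push_cast; ring
    have hb := bis x y c (by rw [hyc, hxc]) (q - t0)
    rw [hcc] at hq1 hq2 hb
    refine ⟨q, hx, hy, hxy, hq1, ?_⟩
    rw [cnt_apply _ _ (hms _ _)]
    have : S.1 ∩ {z | ‖z - ctr q (x, y)‖ ≤ ‖x - ctr q (x, y)‖} = {x, y} := by
      ext w
      constructor
      · rintro ⟨hw, hw2⟩
        by_contra hcon
        exact absurd hw2 (not_le.mpr (hq2 w hw hcon))
      · rintro (hw | hw)
        · subst hw
          exact ⟨hx, le_refl ‖w - ctr q (w, y)‖⟩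
        · rw [mem_singleton_iff] at hw
          subst hw
          exact ⟨hy, hb.le⟩
    rw [this, encard_pair hxy]
    rfl
  · rintro ⟨t, hx, hy, hxy, hc, hcount⟩
    rw [cnt_apply _ _ (hms _ _)] at hcount
    have h2 : (S.1 ∩ {z | ‖z - ctr t (x, y)‖ ≤ ‖x - ctr t (x, y)‖}).encard = 2 := by
      have : ((2 : ℕ∞) : ℝ≥0∞) = 2 := rfl
      rw [← this] at hcount
      exact_mod_cast hcount
    have hb : ‖y - ctr t (x, y)‖ = ‖x - ctr t (x, y)‖ := by
      have h0 : ‖y - (1 / 2 : ℝ) * (x + y)‖ = ‖x - (1 / 2 : ℝ) * (x + y)‖ := by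
        have e : y - ((1 / 2 : ℝ) : ℂ) * (x + y) = -(x - ((1 / 2 : ℝ) : ℂ) * (x + y)) := by
          push_cast; ring
        rw [e, norm_neg]
      exact bis x y _ h0 t
    have h3 : ({x, y} : Set ℂ) = S.1 ∩ {z | ‖z - ctr t (x, y)‖ ≤ ‖x - ctr t (x, y)‖} := by
      apply Set.Finite.eq_of_subset_of_encard_le'
      · apply Set.finite_of_encard_le_coe (k := 2)
        rw [h2]; rfl
      · rintro w hw
        rcases hw with hw | hw
        · subst hw
          exact ⟨hx, le_refl ‖w - ctr t (w, y)‖⟩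
        · rw [mem_singleton_iff] at hw
          subst hw
          exact ⟨hy, hb.le⟩
      · rw [h2, encard_pair hxy]
    refine ⟨hx, hy, hxy, ctr t (x, y), _, hc, rfl, hb, ?_⟩
    intro w hw hwx hwy
    by_contra hcon
    have : w ∈ ({x, y} : Set ℂ) := by
      rw [h3]
      exact ⟨hw, not_lt.mp hcon⟩
    rcases this with h | h
    · exact hwx h
    · exact hwy h

end GraphB

open GraphB

theorem measurableSet_VAdj :
    MeasurableSet {q : Cfg × (ℂ × ℂ) | VAdj q.1.1 q.2.1 q.2.2} := by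
  have : {q : Cfg × (ℂ × ℂ) | VAdj q.1.1 q.2.1 q.2.2} = ⋃ t : ℚ,
      {q : Cfg × (ℂ × ℂ) | q.2.1 ∈ q.1.1} ∩ {q : Cfg × (ℂ × ℂ) | q.2.2 ∈ q.1.1} ∩
        {q : Cfg × (ℂ × ℂ) | q.2.1 ≠ q.2.2} ∩
        {q : Cfg × (ℂ × ℂ) | ‖ctr t q.2‖ + ‖q.2.1 - ctr t q.2‖ < 1} ∩
        {q : Cfg × (ℂ × ℂ) | cnt q.1 {z | (q, z) ∈
          {p : (Cfg × (ℂ × ℂ)) × ℂ | ‖p.2 - ctr t p.1.2‖ ≤ ‖p.1.2.1 - ctr t p.1.2‖}} = 2} := by
    ext q
    rw [mem_ofPred_eq, vAdj_iff]
    simp only [mem_iUnion, mem_inter_iff, mem_ofPred_eq]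
    constructor
    · rintro ⟨t, h1, h2, h3, h4, h5⟩
      exact ⟨t, ⟨⟨⟨h1, h2⟩, h3⟩, h4⟩, h5⟩
    · rintro ⟨t, ⟨⟨⟨h1, h2⟩, h3⟩, h4⟩, h5⟩
      exact ⟨t, h1, h2, h3, h4, h5⟩
  rw [this]
  refine MeasurableSet.iUnion fun t => ?_
  have mc := measurable_ctr t
  have m1 : MeasurableSet {q : Cfg × (ℂ × ℂ) | q.2.1 ∈ q.1.1} :=
    measurableSet_mem.preimage (f := fun q : Cfg × (ℂ × ℂ) => (q.1, q.2.1)) (by fun_prop)
  have m2 : MeasurableSet {q : Cfg × (ℂ × ℂ) | q.2.2 ∈ q.1.1} :=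
    measurableSet_mem.preimage (f := fun q : Cfg × (ℂ × ℂ) => (q.1, q.2.2)) (by fun_prop)
  have m3 : MeasurableSet {q : Cfg × (ℂ × ℂ) | q.2.1 ≠ q.2.2} :=
    (measurableSet_eq_fun (by fun_prop) (by fun_prop)).compl
  have m4 : MeasurableSet {q : Cfg × (ℂ × ℂ) | ‖ctr t q.2‖ + ‖q.2.1 - ctr t q.2‖ < 1} := by
    apply measurableSet_lt _ measurable_const
    have : Measurable fun q : Cfg × (ℂ × ℂ) => ctr t q.2 := mc.comp measurable_snd
    exact this.norm.add ((measurable_snd.fst.sub this).norm)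
  have m5 : MeasurableSet
      {p : (Cfg × (ℂ × ℂ)) × ℂ | ‖p.2 - ctr t p.1.2‖ ≤ ‖p.1.2.1 - ctr t p.1.2‖} := by
    have : Measurable fun p : (Cfg × (ℂ × ℂ)) × ℂ => ctr t p.1.2 :=
      mc.comp measurable_fst.snd
    exact measurableSet_le (measurable_snd.sub this).norm
      ((measurable_fst.snd.fst.sub this).norm)
  have m6 := measurable_count (T := fun q : Cfg × (ℂ × ℂ) => q.1) measurable_fst m5
  exact (((m1.inter m2).inter m3).inter m4).inter (m6 (measurableSet_singleton 2))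

/-- under `gp`, an empty disc with two points of `S` on its boundary gives an edge -/
theorem DAdj_of_empty {S : Set ℂ} (hS : Good S) {x y : ℂ} (hx : x ∈ S) (hy : y ∈ S)
    (hxy : x ≠ y) {c : ℂ} {r : ℝ} (hc : ‖c‖ + r < 1) (hxc : ‖x - c‖ = r) (hyc : ‖y - c‖ = r)
    (hemp : ∀ w ∈ S, r ≤ ‖w - c‖) : DAdj S x y := by
  by_cases hthird : ∃ w ∈ S, w ≠ x ∧ w ≠ y ∧ ‖w - c‖ = r
  swap
  · push Not at hthird
    refine ⟨hx, hy, hxy, c, r, hc, hxc, hyc, fun w hw hwx hwy => ?_⟩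
    exact lt_of_le_of_ne (hemp w hw) (hthird w hw hwx hwy).symm
  obtain ⟨w, hw, hwx, hwy, hwc⟩ := hthird
  have hr : 0 < r := by
    rcases (norm_nonneg (x - c)).lt_or_eq with h0 | h0
    · rwa [hxc] at h0
    · exfalso
      apply hxy
      have e1 : x - c = 0 := norm_eq_zero.mp h0.symm
      have e2 : y - c = 0 := norm_eq_zero.mp (by rw [hyc, ← hxc]; exact h0.symm)
      rw [sub_eq_zero.mp e1, sub_eq_zero.mp e2]
  have hsp : ∀ v ∈ S, ‖v - c‖ = r → v ∈ ({x, y, w} : Set ℂ) := by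
    have h3 : ({x, y, w} : Set ℂ) = S ∩ Metric.sphere c r := by
      apply Set.Finite.eq_of_subset_of_encard_le'
      · apply Set.finite_of_encard_le_coe (k := 3)
        exact hS.gp c r hr hc
      · rintro v (rfl | rfl | hv)
        · exact ⟨hx, by rw [mem_sphere_iff_norm, hxc]⟩
        · exact ⟨hy, by rw [mem_sphere_iff_norm, hyc]⟩
        · rw [mem_singleton_iff] at hv
          subst hv
          exact ⟨hw, by rw [mem_sphere_iff_norm, hwc]⟩
      · rw [encard_insert_of_notMem, encard_pair hwy.symm]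
        · exact hS.gp c r hr hc
        · simp only [mem_insert_iff, mem_singleton_iff, not_or]
          exact ⟨hxy, hwx.symm⟩
    intro v hv hvc
    rw [h3]
    exact ⟨hv, by rw [mem_sphere_iff_norm, hvc]⟩
  -- the direction
  set a : ℝ := (w.re - x.re) * (-(y.im - x.im)) + (w.im - x.im) * (y.re - x.re) with ha
  have ha0 : a ≠ 0 := by
    intro h0
    have ex : ‖x - c‖ ^ 2 = r ^ 2 := by rw [hxc]
    have ey : ‖y - c‖ ^ 2 = r ^ 2 := by rw [hyc]
    have ew : ‖w - c‖ ^ 2 = r ^ 2 := by rw [hwc]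
    simp only [norm_sq_co, Complex.sub_re, Complex.sub_im] at ex ey ew
    set p := y.re - x.re with hp
    set q := y.im - x.im with hq
    have hD : 0 < p ^ 2 + q ^ 2 := by
      by_contra hcon
      have h1 : p = 0 := by nlinarith [sq_nonneg p, sq_nonneg q]
      have h2 : q = 0 := by nlinarith [sq_nonneg p, sq_nonneg q]
      exact hxy (Complex.ext (by linarith) (by linarith))
    set s : ℝ := ((w.re - x.re) * p + (w.im - x.im) * q) / (p ^ 2 + q ^ 2) with hs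
    have w0 : w.re = x.re + s * p := by
      rw [hs]; field_simp; linear_combination (-q) * h0
    have w1 : w.im = x.im + s * q := by
      rw [hs]; field_simp; linear_combination p * h0
    have y0 : y.re = x.re + p := by rw [hp]; ring
    have y1 : y.im = x.im + q := by rw [hq]; ring
    rw [w0, w1] at ew
    rw [y0, y1] at ey
    have k : s * (s - 1) * (p ^ 2 + q ^ 2) = 0 := by
      linear_combination ew - s * ey - (1 - s) * ex
    rcases mul_eq_zero.mp k with k1 | k1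
    · rcases mul_eq_zero.mp k1 with k2 | k2
      · apply hwx
        apply Complex.ext
        · rw [w0, k2]; ring
        · rw [w1, k2]; ring
      · apply hwy
        have k3 : s = 1 := by linarith
        apply Complex.ext
        · rw [w0, k3, y0]; ring
        · rw [w1, k3, y1]; ring
    · exact absurd k1 hD.ne'
  have hev := ev_out hS.lf hc hxc ((-a : ℝ) * (Complex.I * (y - x))) {x, y, w} (by
    intro v hv hv2
    apply lt_of_le_of_ne (hemp v hv)
    intro h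
    exact hv2 (hsp v hv h.symm))
  obtain ⟨t, ⟨ht1, ht2⟩, ht0⟩ : ∃ t : ℝ,
      (‖c + t * ((-a : ℝ) * (Complex.I * (y - x)))‖
        + ‖x - (c + t * ((-a : ℝ) * (Complex.I * (y - x))))‖ < 1 ∧
      ∀ v ∈ S, v ∉ ({x, y, w} : Set ℂ) → ‖x - (c + t * ((-a : ℝ) * (Complex.I * (y - x))))‖
        < ‖v - (c + t * ((-a : ℝ) * (Complex.I * (y - x))))‖) ∧ 0 < t := by
    have h1 : ∀ᶠ t : ℝ in 𝓝[>] 0, _ := hev.filter_mono nhdsWithin_le_nhds
    have h2 : ∀ᶠ t : ℝ in 𝓝[>] 0, 0 < t := eventually_mem_nhdsWithin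
    exact (h1.and h2).exists
  have hyc' : ‖y - (c + t * ((-a : ℝ) * (Complex.I * (y - x))))‖
      = ‖x - (c + t * ((-a : ℝ) * (Complex.I * (y - x))))‖ := by
    have := bis x y c (by rw [hyc, hxc]) (t * (-a))
    push_cast at this ⊢
    rw [mul_assoc (t : ℂ)] at this
    exact this
  refine ⟨hx, hy, hxy, _, _, ht1, rfl, hyc', ?_⟩
  intro v hv hvx hvy
  by_cases hvw : v = w
  · subst hvw
    rw [← sq_lt_sq₀ (norm_nonneg _) (norm_nonneg _)]
    have ex : ‖x - c‖ ^ 2 = r ^ 2 := by rw [hxc]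
    have ew : ‖v - c‖ ^ 2 = r ^ 2 := by rw [hwc]
    simp only [norm_sq_co, Complex.sub_re, Complex.sub_im, Complex.add_re, Complex.add_im,
      Complex.mul_re, Complex.mul_im, Complex.ofReal_re, Complex.ofReal_im, Complex.I_re,
      Complex.I_im] at ex ew ⊢
    have hpos : 0 < 2 * t * a ^ 2 := by positivity
    rw [← sub_pos]
    refine lt_of_lt_of_eq hpos ?_
    rw [ha]
    linear_combination ex - ew
  · apply ht2 v hv
    simp only [mem_insert_iff, mem_singleton_iff, not_or]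
    exact ⟨hvx, hvy, hvw⟩

/-- horodiscs are the open discs tangent to the unit circle from inside -/
theorem Good.tangent_disc {S : Set ℂ} (hS : Good S) {v : ℂ} (hv : v ∈ S) {c : ℂ} {r : ℝ}
    (hr : 0 < r) (hc : ‖c‖ + r = 1) (hvc : ‖v - c‖ ≤ r) : ∃ w ∈ S, ‖w - c‖ < r := by
  have hvd := mem_disc.mp (hS.lf.1 hv)
  by_cases h0 : c = 0
  · refine ⟨v, hv, ?_⟩
    rw [h0, norm_zero, zero_add] at hc
    rw [h0, sub_zero, hc]
    exact hvd
  have hcp : 0 < ‖c‖ := norm_pos_iff.mpr h0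
  set ξ : ℂ := ((‖c‖⁻¹ : ℝ) : ℂ) * c with hξ
  have hξ1 : ‖ξ‖ = 1 := by
    rw [hξ, norm_mul, Complex.norm_real, Real.norm_of_nonneg (by positivity),
      inv_mul_cancel₀ hcp.ne']
  have hcξ : c = ((1 - r : ℝ) : ℂ) * ξ := by
    rw [← hc, hξ, add_sub_cancel_right, ← mul_assoc, ← Complex.ofReal_mul,
      mul_inv_cancel₀ hcp.ne', Complex.ofReal_one, one_mul]
  have key : ∀ w : ℂ, ‖w - c‖ ^ 2 - r ^ 2 = (1 - r) * ‖ξ - w‖ ^ 2 - r * (1 - ‖w‖ ^ 2) := by
    intro w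
    have e : ‖ξ‖ ^ 2 = 1 := by rw [hξ1]; norm_num
    rw [hcξ]
    simp only [norm_sq_co, Complex.sub_re, Complex.sub_im, Complex.mul_re, Complex.mul_im,
      Complex.ofReal_re, Complex.ofReal_im] at e ⊢
    linear_combination (-(1 - r) * r) * e
  obtain ⟨w, hw, hlt⟩ := hS.tangent v hv ξ hξ1
  refine ⟨w, hw, ?_⟩
  have hwd := mem_disc.mp (hS.lf.1 hw)
  have pv : 0 < 1 - ‖v‖ ^ 2 := by nlinarith [norm_nonneg v]
  have pw : 0 < 1 - ‖w‖ ^ 2 := by nlinarith [norm_nonneg w]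
  have h1r : 0 < 1 - r := by linarith
  have k1 : (1 - r) * ‖ξ - v‖ ^ 2 ≤ r * (1 - ‖v‖ ^ 2) := by
    have := key v
    have h2 : ‖v - c‖ ^ 2 ≤ r ^ 2 := pow_le_pow_left₀ (norm_nonneg _) hvc 2
    linarith
  have k2 : (1 - r) * ‖ξ - w‖ ^ 2 < r * (1 - ‖w‖ ^ 2) := by
    by_contra hcon
    rw [not_lt] at hcon
    have a1 : (1 - r) * (‖ξ - w‖ ^ 2 * (1 - ‖v‖ ^ 2)) < (1 - r) * (‖ξ - v‖ ^ 2 * (1 - ‖w‖ ^ 2)) :=
      mul_lt_mul_of_pos_left hlt h1r
    have a2 := mul_le_mul_of_nonneg_right k1 pw.le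
    have a3 := mul_le_mul_of_nonneg_right hcon pv.le
    nlinarith
  have k3 : ‖w - c‖ ^ 2 < r ^ 2 := by
    have := key w
    linarith
  exact lt_of_pow_lt_pow_left₀ 2 hr.le k3

theorem Good.nonempty_nbr {S : Set ℂ} (hS : Good S) {x : ℂ} (hx : x ∈ S) :
    {y | VAdj S x y}.Nonempty := by
  have hxd := mem_disc.mp (hS.lf.1 hx)
  have hre : |x.re| ≤ ‖x‖ := Complex.abs_re_le_norm x
  have hre1 : -‖x‖ ≤ x.re := (abs_le.mp hre).1
  have hre2 : x.re ≤ ‖x‖ := (abs_le.mp hre).2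
  have hx2 := norm_nonneg x
  have hre0 : 0 < 1 + x.re := by linarith
  have hP : 0 < 1 - ‖x‖ ^ 2 := by nlinarith
  set s' : ℝ := (1 - ‖x‖ ^ 2) / (2 * (1 + x.re)) with hs'
  have hs'0 : 0 < s' := by positivity
  have hs'e : 2 * s' * (1 + x.re) = 1 - ‖x‖ ^ 2 := by rw [hs']; field_simp
  have hs'1 : s' < 1 := by
    rw [hs', div_lt_one (by positivity)]
    have : x.re ^ 2 ≤ ‖x‖ ^ 2 := by rw [norm_sq_co]; nlinarith [sq_nonneg x.im]
    nlinarith
  have hnc : ∀ s : ℝ, 0 ≤ s → s ≤ 1 → ‖x + (s : ℂ)‖ ^ 2 = (1 - s) ^ 2 + (2 * s * (1 + x.re)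
      - (1 - ‖x‖ ^ 2)) := by
    intro s hs0 hs1
    simp only [norm_sq_co, Complex.add_re, Complex.add_im, Complex.ofReal_re, Complex.ofReal_im]
    ring
  have hcs' : ‖x + (s' : ℂ)‖ + s' = 1 := by
    have h1 := hnc s' hs'0.le hs'1.le
    rw [hs'e, sub_self, add_zero, sq_eq_sq₀ (norm_nonneg _) (by linarith)] at h1
    linarith
  have hclt : ∀ s : ℝ, 0 < s → s < s' → ‖x + (s : ℂ)‖ + s < 1 := by
    intro s hs0 hs1
    have h1 := hnc s hs0.le (by linarith)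
    have h2 : 2 * s * (1 + x.re) < 2 * s' * (1 + x.re) := by nlinarith
    have h3 : ‖x + (s : ℂ)‖ ^ 2 < (1 - s) ^ 2 := by linarith
    have h4 := lt_of_pow_lt_pow_left₀ 2 (by linarith) h3
    linarith
  have hxs : ∀ s : ℝ, 0 < s → ‖x - (x + (s : ℂ))‖ = s := by
    intro s hs0
    rw [sub_add_cancel_left, norm_neg, Complex.norm_real, Real.norm_of_nonneg hs0.le]
  have hws : ∀ (w : ℂ) (s : ℝ), ‖w - (x + (s : ℂ))‖ ^ 2 - s ^ 2
      = ‖w - x‖ ^ 2 - 2 * s * (w.re - x.re) := by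
    intro w s
    simp only [norm_sq_co, Complex.add_re, Complex.add_im, Complex.ofReal_re, Complex.ofReal_im,
      Complex.sub_re, Complex.sub_im]
    ring
  obtain ⟨w0, hw0, hlt0⟩ := hS.tangent_disc hx hs'0 hcs' (hxs s' hs'0).le
  set φ : ℂ → ℝ := fun w => ‖w - x‖ ^ 2 / (2 * (w.re - x.re)) with hφ
  -- points inside the disc number `s`
  have hin : ∀ (w : ℂ) (s : ℝ), 0 < s → ‖w - (x + (s : ℂ))‖ < s → w ≠ x ∧ 0 < w.re - x.re ∧
      φ w < s ∧ 0 < φ w := by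
    intro w s hs0 hlt
    have h1 : ‖w - (x + (s : ℂ))‖ ^ 2 < s ^ 2 := pow_lt_pow_left₀ hlt (norm_nonneg _) two_ne_zero
    have h2 := hws w s
    have hne : w ≠ x := by
      rintro rfl
      rw [hxs s hs0] at hlt
      exact lt_irrefl _ hlt
    have h3 : 0 < ‖w - x‖ := norm_pos_iff.mpr (sub_ne_zero.mpr hne)
    have h4 : ‖w - x‖ ^ 2 < 2 * s * (w.re - x.re) := by linarith
    have h5 : 0 < w.re - x.re := by
      by_contra hcon
      rw [not_lt] at hcon
      have : 2 * s * (w.re - x.re) ≤ 0 := mul_nonpos_of_nonneg_of_nonpos (by linarith) hcon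
      nlinarith
    refine ⟨hne, h5, ?_, ?_⟩
    · simp only [hφ]
      rw [div_lt_iff₀ (by linarith)]
      linarith
    · simp only [hφ]
      positivity
  obtain ⟨hw0x, hw0re, hφ0, hφ0p⟩ := hin w0 s' hs'0 hlt0
  -- the finite set of candidates
  set F : Set ℂ := {w | w ∈ S ∧ w ≠ x ∧ 0 < w.re - x.re ∧ φ w ≤ φ w0} with hF
  have hon : ∀ w : ℂ, w ≠ x → 0 < w.re - x.re → ‖w - (x + (φ w : ℂ))‖ = φ w ∧ 0 < φ w := by
    intro w hwx hre
    have h3 : 0 < ‖w - x‖ := norm_pos_iff.mpr (sub_ne_zero.mpr hwx)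
    have h4 : 0 < φ w := by simp only [hφ]; positivity
    refine ⟨?_, h4⟩
    rw [← sq_eq_sq₀ (norm_nonneg _) h4.le, ← sub_eq_zero, hws]
    simp only [hφ]
    field_simp
    ring
  have hFfin : F.Finite := by
    apply (hS.lf.2 (‖x + (φ w0 : ℂ)‖ + φ w0) (hclt _ hφ0p hφ0)).subset
    rintro w ⟨hwS, hwx, hre, hle⟩
    refine ⟨hwS, ?_⟩
    rw [Metric.mem_closedBall, dist_zero_right]
    have h1 : ‖w - (x + (φ w0 : ℂ))‖ ≤ φ w0 := by
      rw [← sq_le_sq₀ (norm_nonneg _) hφ0p.le, ← sub_nonpos, hws]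
      have h2 : ‖w - x‖ ^ 2 ≤ φ w0 * (2 * (w.re - x.re)) := by
        rw [← div_le_iff₀ (by linarith)]
        exact hle
      linarith
    calc ‖w‖ = ‖(x + (φ w0 : ℂ)) + (w - (x + (φ w0 : ℂ)))‖ := by ring_nf
      _ ≤ ‖x + (φ w0 : ℂ)‖ + ‖w - (x + (φ w0 : ℂ))‖ := norm_add_le _ _
      _ ≤ _ := by linarith
  obtain ⟨y, hyF, hymin⟩ := Set.exists_min_image F φ hFfin ⟨w0, hw0, hw0x, hw0re, le_refl _⟩
  obtain ⟨hyS, hyx, hyre, hyle⟩ := hyF
  obtain ⟨hyon, hyp⟩ := hon y hyx hyre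
  refine ⟨y, (VAdj_iff_DAdj hS.lf).mpr ?_⟩
  apply DAdj_of_empty hS hx hyS hyx.symm (hclt (φ y) hyp (hyle.trans_lt hφ0)) (hxs _ hyp) hyon
  intro w hw
  by_contra hcon
  rw [not_le] at hcon
  obtain ⟨h1, h2, h3, h4⟩ := hin w (φ y) hyp hcon
  exact absurd (hymin w ⟨hw, h1, h2, (h3.trans_le hyle).le⟩) (not_le.mpr h3)

theorem Good.finite_nbr {S : Set ℂ} (hS : Good S) {x : ℂ} (hx : x ∈ S) :
    {y | VAdj S x y}.Finite := by
  by_contra hinf
  have hinf : {y | VAdj S x y}.Infinite := hinf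
  have hxd := mem_disc.mp (hS.lf.1 hx)
  set ρ : ℝ := (1 + ‖x‖) / 2 with hρ
  have hρ1 : ρ < 1 := by rw [hρ]; linarith
  have hN : ({y | VAdj S x y} \ Metric.closedBall 0 ρ).Infinite := by
    intro hfin
    apply hinf
    apply (hfin.union (hS.lf.2 ρ hρ1)).subset
    intro y hy
    by_cases h : y ∈ Metric.closedBall (0 : ℂ) ρ
    · exact Or.inr ⟨hy.2.1, h⟩
    · exact Or.inl ⟨hy, h⟩
  set g : ℂ → ℝ≥0∞ := fun x' => ∫⁻ y, (VAdjInd S x' y) * ENNReal.ofReal (‖x' - y‖ ^ 2)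
      ∂(Measure.count.restrict S) with hg
  have h1 : g x ≠ ∞ := by
    have hle : g x ≤ ∫⁻ x', g x' ∂(Measure.count.restrict S) := by
      calc g x = ∫⁻ x', g x' ∂(Measure.count.restrict ({x} : Set ℂ)) := by
            rw [Measure.restrict_singleton, lintegral_smul_measure, lintegral_dirac,
              Measure.count_singleton, one_smul]
        _ ≤ _ := lintegral_mono' (Measure.restrict_mono (singleton_subset_iff.mpr hx) le_rfl)
            le_rfl
    exact ne_top_of_le_ne_top hS.energy hle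
  set ε : ℝ := ((1 - ‖x‖) / 2) ^ 2 with hε
  have hε0 : 0 < ε := by
    have : 0 < (1 - ‖x‖) / 2 := by linarith
    positivity
  have h2 : ∀ n : ℕ, n * ENNReal.ofReal ε ≤ g x := by
    intro n
    obtain ⟨T, hT1, hT2⟩ := hN.exists_subset_card_eq n
    have hTS : (T : Set ℂ) ⊆ S := fun y hy => (hT1 hy).1.2.1
    calc (n : ℝ≥0∞) * ENNReal.ofReal ε = ∑ y ∈ T, ENNReal.ofReal ε := by
          rw [Finset.sum_const, hT2, nsmul_eq_mul]
      _ ≤ ∑ y ∈ T, (VAdjInd S x y) * ENNReal.ofReal (‖x - y‖ ^ 2) := by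
          apply Finset.sum_le_sum
          intro y hy
          obtain ⟨hy1, hy2⟩ := hT1 hy
          have hy1' : VAdj S x y := hy1
          rw [VAdjInd, if_pos hy1', one_mul]
          apply ENNReal.ofReal_le_ofReal
          rw [hε]
          rw [Metric.mem_closedBall, dist_zero_right, not_le] at hy2
          have h3 : ‖y‖ ≤ ‖x - y‖ + ‖x‖ := by
            calc ‖y‖ = ‖x - (x - y)‖ := by ring_nf
              _ ≤ ‖x‖ + ‖x - y‖ := norm_sub_le _ _
              _ = _ := by ring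
          apply pow_le_pow_left₀ (by linarith)
          linarith
      _ = ∫⁻ y in (T : Set ℂ), (VAdjInd S x y) * ENNReal.ofReal (‖x - y‖ ^ 2)
            ∂Measure.count := by
          rw [lintegral_finset]
          apply Finset.sum_congr rfl
          intro y _
          rw [Measure.count_singleton, mul_one]
      _ ≤ g x := lintegral_mono' (Measure.restrict_mono hTS le_rfl) le_rfl
  have h3 : g x = ∞ := by
    by_contra hne
    have hε' : ENNReal.ofReal ε ≠ 0 := by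
      rw [Ne, ENNReal.ofReal_eq_zero, not_le]; exact hε0
    obtain ⟨n, hn⟩ := ENNReal.exists_nat_gt (ENNReal.div_ne_top hne hε')
    rw [ENNReal.div_lt_iff (Or.inl hε') (Or.inl ENNReal.ofReal_ne_top)] at hn
    exact absurd (h2 n) (not_le.mpr hn)
  exact h1 h3

theorem Good.reg {S : Set ℂ} (hS : Good S) : Reg S :=
  fun _ hx => ⟨hS.finite_nbr hx, hS.nonempty_nbr hx⟩

end HPV
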