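import Pool.Agent.Helper28.HPV.MainDefs

/-!
# The total mass of the harmonic measure
-/

open MeasureTheory ProbabilityTheory Set Filter Topology
open scoped ENNReal NNReal Real

namespace HPV

/-- The convergence event is measurable. -/
lemma measurableSet_conv_circle {Ω' : Type*} [MeasurableSpace Ω'] {Y : ℕ → Ω' → ℂ}
    (hY : ∀ n, Measurable (Y n)) :
    MeasurableSet {ω | ∃ ξ : ℂ, ‖ξ‖ = 1 ∧ Tendsto (fun n => Y n ω) atTop (𝓝 ξ)} := by
  have h1 : MeasurableSet {ω | ∃ ξ : ℂ, Tendsto (fun n => Y n ω) atTop (𝓝 ξ)} :=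
    measurableSet_exists_tendsto hY
  have h2 : MeasurableSet {ω | Tendsto (fun n => ‖Y n ω‖) atTop (𝓝 1)} :=
    measurableSet_tendsto _ fun n => (hY n).norm
  convert h1.inter h2 using 1
  ext ω
  simp only [Set.mem_ofPred_eq, mem_inter_iff]
  constructor
  · rintro ⟨ξ, h, ht⟩
    exact ⟨⟨ξ, ht⟩, h ▸ ht.norm⟩
  · rintro ⟨⟨ξ, ht⟩, hn⟩
    exact ⟨ξ, tendsto_nhds_unique ht.norm hn, ht⟩

/-- The total mass of the harmonic measure is the probability of convergence to the circle. -/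
theorem harmonicMeasure_univ {Ω' : Type*} [MeasurableSpace Ω'] {Q : Measure Ω'}
    {Y : ℕ → Ω' → ℂ} (hY : ∀ n, Measurable (Y n)) :
    harmonicMeasure Q Y Set.univ =
      Q {ω | ∃ ξ : ℂ, ‖ξ‖ = 1 ∧ Tendsto (fun n => Y n ω) atTop (𝓝 ξ)} := by
  have hE := measurableSet_conv_circle hY
  set E := {ω | ∃ ξ : ℂ, ‖ξ‖ = 1 ∧ Tendsto (fun n => Y n ω) atTop (𝓝 ξ)} with hEdef
  have hae : ∀ᵐ ω ∂(Q.restrict E), Tendsto (fun n => Y n ω) atTop
      (𝓝 (limUnder atTop fun n => Y n ω)) := by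
    filter_upwards [ae_restrict_mem hE] with ω hω
    obtain ⟨ξ, -, hξ⟩ := hω
    exact hξ.limUnder_eq.symm ▸ hξ
  have hm : AEMeasurable (fun ω => limUnder atTop fun n => Y n ω) (Q.restrict E) :=
    aemeasurable_of_tendsto_metrizable_ae atTop (fun n => (hY n).aemeasurable) hae
  unfold harmonicMeasure
  rw [Measure.map_apply_of_aemeasurable hm MeasurableSet.univ, preimage_univ,
    Measure.restrict_apply_univ]

end HPV
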