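import Pool.Agent.Helper28.HPV.LocalA0

/-!
# T18 LocalA: the local structure near a vertex after adding one point (Claims 1-5)
Helper16.
-/

open MeasureTheory ProbabilityTheory Set Filter Topology
open scoped ENNReal NNReal Real

namespace HPV

/-- real inner product on the plane -/
noncomputable def la_ip (x y : ℂ) : ℝ := x.re * y.re + x.im * y.im

theorem la_sq (z : ℂ) : ‖z‖ ^ 2 = z.re ^ 2 + z.im ^ 2 := by
  rw [Complex.sq_norm, Complex.normSq_apply]; ring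

theorem la_key (a v c : ℂ) :
    ‖a - c‖ ^ 2 = ‖v - c‖ ^ 2 - 2 * la_ip (a - v) (c - v) + ‖a - v‖ ^ 2 := by
  rw [la_sq, la_sq, la_sq]
  simp only [la_ip, Complex.sub_re, Complex.sub_im]
  ring

theorem la_ip_cont {f g : ℕ → ℂ} {x y : ℂ} (hf : Tendsto f atTop (𝓝 x))
    (hg : Tendsto g atTop (𝓝 y)) : Tendsto (fun k => la_ip (f k) (g k)) atTop (𝓝 (la_ip x y)) := by
  have hr : ∀ {f : ℕ → ℂ} {x : ℂ}, Tendsto f atTop (𝓝 x) →
      Tendsto (fun k => (f k).re) atTop (𝓝 x.re) := fun h =>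
    (Complex.continuous_re.tendsto _).comp h
  have hi : ∀ {f : ℕ → ℂ} {x : ℂ}, Tendsto f atTop (𝓝 x) →
      Tendsto (fun k => (f k).im) atTop (𝓝 x.im) := fun h =>
    (Complex.continuous_im.tendsto _).comp h
  exact ((hr hf).mul (hr hg)).add ((hi hf).mul (hi hg))

/-! ### stability of empty discs -/

theorem la_pert {S : Set ℂ} (hS : IsLF S) (F : Set ℂ) {c : ℂ} {r : ℝ} (hc : ‖c‖ + r < 1)
    (he : ∀ w ∈ S, w ∉ F → r < ‖w - c‖) :
    ∀ᶠ q : ℂ × ℝ in 𝓝 (c, r), ‖q.1‖ + q.2 < 1 ∧ ∀ w ∈ S, w ∉ F → q.2 < ‖w - q.1‖ := by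
  set R : ℝ := (r + (1 - ‖c‖)) / 2 with hR
  have hrR : r < R := by rw [hR]; linarith
  have hcR : ‖c‖ + R < 1 := by rw [hR]; linarith
  have hfin := hS.2 (‖c‖ + R) hcR
  have hcont : Continuous fun q : ℂ × ℝ => ‖q.1‖ + q.2 := by fun_prop
  have h1 : ∀ᶠ q : ℂ × ℝ in 𝓝 (c, r), ‖q.1‖ + q.2 < ‖c‖ + R := by
    apply hcont.continuousAt.eventually_lt continuousAt_const
    simpa using hrR
  have h2 : ∀ᶠ q : ℂ × ℝ in 𝓝 (c, r), ∀ w ∈ (S ∩ Metric.closedBall 0 (‖c‖ + R)) \ F,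
      q.2 < ‖w - q.1‖ := by
    rw [Filter.eventually_all_finite (hfin.subset sdiff_subset)]
    intro w hw
    have hcont2 : Continuous fun q : ℂ × ℝ => ‖w - q.1‖ := by fun_prop
    have hcont3 : Continuous fun q : ℂ × ℝ => q.2 := by fun_prop
    exact hcont3.continuousAt.eventually_lt hcont2.continuousAt (he w hw.1.1 hw.2)
  filter_upwards [h1, h2] with q hq1 hq2
  refine ⟨by linarith, fun w hw hwF => ?_⟩
  by_cases hwb : w ∈ Metric.closedBall (0 : ℂ) (‖c‖ + R)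
  · exact hq2 w ⟨⟨hw, hwb⟩, hwF⟩
  · rw [Metric.mem_closedBall, dist_zero_right, not_le] at hwb
    have := norm_sub_norm_le w q.1
    linarith

theorem la_pert_tendsto {α : Type*} {l : Filter α} {S : Set ℂ} (hS : IsLF S) (F : Set ℂ) {c : ℂ}
    {r : ℝ} (hc : ‖c‖ + r < 1) (he : ∀ w ∈ S, w ∉ F → r < ‖w - c‖) {cc : α → ℂ} {rr : α → ℝ}
    (hcc : Tendsto cc l (𝓝 c)) (hrr : Tendsto rr l (𝓝 r)) :
    ∀ᶠ k in l, ‖cc k‖ + rr k < 1 ∧ ∀ w ∈ S, w ∉ F → rr k < ‖w - cc k‖ :=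
  (hcc.prodMk_nhds hrr).eventually (la_pert hS F hc he)

theorem la_norm_lt {S : Set ℂ} (hS : IsLF S) {v : ℂ} (hv : v ∈ S) : ‖v‖ < 1 := by
  have := hS.1 hv
  simpa using this

theorem la_isol {S : Set ℂ} (hS : IsLF S) {v : ℂ} (hv : v ∈ S) :
    ∃ d > 0, ∀ w ∈ S, w ≠ v → d < ‖w - v‖ := by
  have h := la_pert hS {v} (c := v) (r := 0) (by simpa using la_norm_lt hS hv)
    (fun w _ hwv => by
      rw [norm_pos_iff, sub_ne_zero]
      simpa using hwv)
  have h2 : Tendsto (fun t : ℝ => (v, t)) (𝓝[>] 0) (𝓝 (v, (0 : ℝ))) := by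
    apply Tendsto.prodMk_nhds tendsto_const_nhds
    exact tendsto_id.mono_left nhdsWithin_le_nhds
  obtain ⟨t, ht, ht0⟩ := ((h2.eventually h).and self_mem_nhdsWithin).exists
  exact ⟨t, ht0, fun w hw hwv => ht.2 w hw (by simpa using hwv)⟩

/-! ### points approaching `v` in a given direction -/

structure Appr (v w₀ : ℂ) (ε : ℕ → ℝ) (a : ℕ → ℂ) : Prop where
  pos : ∀ k, 0 < ε k
  e0 : Tendsto ε atTop (𝓝 0)
  lim : Tendsto (fun k => (a k - v) / (ε k : ℂ)) atTop (𝓝 w₀)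

namespace Appr

variable {v w₀ : ℂ} {ε : ℕ → ℝ} {a : ℕ → ℂ}

theorem comp (H : Appr v w₀ ε a) {φ : ℕ → ℕ} (hφ : StrictMono φ) :
    Appr v w₀ (ε ∘ φ) (a ∘ φ) :=
  ⟨fun _ => H.pos _, H.e0.comp hφ.tendsto_atTop, H.lim.comp hφ.tendsto_atTop⟩

theorem tendsto_sub (H : Appr v w₀ ε a) : Tendsto (fun k => a k - v) atTop (𝓝 0) := by
  have h1 : Tendsto (fun k => (ε k : ℂ) * ((a k - v) / (ε k : ℂ))) atTop (𝓝 (((0 : ℝ) : ℂ) * w₀)) :=
    ((Complex.continuous_ofReal.tendsto _).comp H.e0).mul H.lim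
  have h2 : (fun k => (ε k : ℂ) * ((a k - v) / (ε k : ℂ))) = fun k => a k - v := by
    funext k
    have : (ε k : ℂ) ≠ 0 := by exact_mod_cast (H.pos k).ne'
    field_simp
  rw [h2] at h1
  simpa using h1

theorem tendsto (H : Appr v w₀ ε a) : Tendsto a atTop (𝓝 v) := by
  have := H.tendsto_sub.add_const v
  simpa using this

theorem ne (H : Appr v w₀ ε a) (hw : w₀ ≠ 0) : ∀ᶠ k in atTop, a k ≠ v := by
  filter_upwards [H.lim.eventually_ne hw] with k hk hav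
  rw [hav] at hk
  simp at hk

theorem ip_lim (H : Appr v w₀ ε a) {c : ℕ → ℂ} {c₀ : ℂ} (hc : Tendsto c atTop (𝓝 c₀)) :
    Tendsto (fun k => la_ip (a k - v) (c k - v) / ε k) atTop (𝓝 (la_ip w₀ (c₀ - v))) := by
  have h := la_ip_cont H.lim (hc.sub_const v)
  refine h.congr fun k => ?_
  simp only [la_ip, Complex.div_ofReal_re, Complex.div_ofReal_im]
  ring

theorem sq_lim (H : Appr v w₀ ε a) :
    Tendsto (fun k => ‖a k - v‖ ^ 2 / ε k) atTop (𝓝 0) := by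
  have h : Tendsto (fun k => ‖(a k - v) / (ε k : ℂ)‖ ^ 2 * ε k) atTop (𝓝 (‖w₀‖ ^ 2 * 0)) :=
    (H.lim.norm.pow 2).mul H.e0
  rw [mul_zero] at h
  refine h.congr fun k => ?_
  have := (H.pos k).ne'
  rw [norm_div, Complex.norm_real, Real.norm_of_nonneg (H.pos k).le]
  field_simp

theorem diff_lim (H : Appr v w₀ ε a) {c : ℕ → ℂ} {c₀ : ℂ} (hc : Tendsto c atTop (𝓝 c₀)) :
    Tendsto (fun k => (‖a k - c k‖ ^ 2 - ‖v - c k‖ ^ 2) / ε k) atTop
      (𝓝 (-2 * la_ip w₀ (c₀ - v))) := by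
  have h := ((H.ip_lim hc).const_mul (-2)).add H.sq_lim
  rw [add_zero] at h
  refine h.congr fun k => ?_
  rw [la_key (a k) v (c k)]
  ring

theorem out (H : Appr v w₀ ε a) {c : ℕ → ℂ} {c₀ : ℂ} (hc : Tendsto c atTop (𝓝 c₀))
    (hneg : la_ip w₀ (c₀ - v) < 0) : ∀ᶠ k in atTop, ‖v - c k‖ < ‖a k - c k‖ := by
  have h := (H.diff_lim hc).eventually_const_lt (u := 0) (by linarith)
  filter_upwards [h] with k hk
  have h2 : 0 < ‖a k - c k‖ ^ 2 - ‖v - c k‖ ^ 2 := by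
    have := (div_pos_iff_of_pos_right (H.pos k)).1 hk
    exact this
  exact lt_of_pow_lt_pow_left₀ 2 (norm_nonneg _) (by linarith)

theorem inside (H : Appr v w₀ ε a) {c : ℕ → ℂ} {c₀ : ℂ} (hc : Tendsto c atTop (𝓝 c₀))
    (hpos : 0 < la_ip w₀ (c₀ - v)) : ∀ᶠ k in atTop, ‖a k - c k‖ < ‖v - c k‖ := by
  have h := (H.diff_lim hc).eventually_lt_const (u := 0) (by linarith)
  filter_upwards [h] with k hk
  have h2 : ‖a k - c k‖ ^ 2 - ‖v - c k‖ ^ 2 < 0 := by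
    by_contra hcon
    exact absurd (div_nonneg (not_lt.1 hcon) (H.pos k).le) (not_le.2 hk)
  exact lt_of_pow_lt_pow_left₀ 2 (norm_nonneg _) (by linarith)

theorem le_of_out (H : Appr v w₀ ε a) {c : ℕ → ℂ} {c₀ : ℂ} (hc : Tendsto c atTop (𝓝 c₀))
    (h : ∀ k, ‖v - c k‖ ≤ ‖a k - c k‖) : la_ip w₀ (c₀ - v) ≤ 0 := by
  by_contra hcon
  obtain ⟨k, hk⟩ := (H.inside hc (not_le.1 hcon)).exists
  exact absurd (h k) (not_le.2 hk)

theorem le_of_inside (H : Appr v w₀ ε a) {c : ℕ → ℂ} {c₀ : ℂ} (hc : Tendsto c atTop (𝓝 c₀))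
    (h : ∀ k, ‖a k - c k‖ ≤ ‖v - c k‖) : 0 ≤ la_ip w₀ (c₀ - v) := by
  by_contra hcon
  obtain ⟨k, hk⟩ := (H.out hc (not_le.1 hcon)).exists
  exact absurd (h k) (not_le.2 hk)

theorem notMem (H : Appr v w₀ ε a) (hw : w₀ ≠ 0) {S : Set ℂ} (hS : IsLF S) (hv : v ∈ S) :
    ∀ᶠ k in atTop, a k ∉ S := by
  obtain ⟨d, hd, hdS⟩ := la_isol hS hv
  have h1 : ∀ᶠ k in atTop, ‖a k - v‖ < d := by
    have := H.tendsto_sub.norm
    rw [norm_zero] at this
    exact this.eventually_lt_const hd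
  filter_upwards [h1, H.ne hw] with k hk1 hk2 hk3
  exact absurd (hdS _ hk3 hk2) (not_lt.2 hk1.le)

theorem va (H : Appr v w₀ ε a) (hw : w₀ ≠ 0) {S : Set ℂ} (hS : IsLF S) (hv : v ∈ S) :
    ∀ᶠ k in atTop, DAdj (insert (a k) S) v (a k) := by
  have h1 : Tendsto (fun k => (v + a k) / 2) atTop (𝓝 v) := by
    have := (H.tendsto.const_add v).div_const 2
    have h2 : (v + v) / 2 = v := by ring
    rwa [h2] at this
  have h2 : Tendsto (fun k => ‖a k - v‖ / 2) atTop (𝓝 0) := by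
    have := (H.tendsto_sub.norm).div_const 2
    simpa using this
  have h3 := la_pert_tendsto hS {v} (c := v) (r := 0) (by simpa using la_norm_lt hS hv)
    (fun w _ hwv => by
      rw [norm_pos_iff, sub_ne_zero]
      simpa using hwv) h1 h2
  filter_upwards [h3, H.ne hw] with k hk hne
  refine ⟨mem_insert_of_mem _ hv, mem_insert _ _, hne.symm, (v + a k) / 2, ‖a k - v‖ / 2, hk.1,
    ?_, ?_, ?_⟩
  · have : v - (v + a k) / 2 = -((a k - v) / 2) := by ring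
    rw [this, norm_neg, norm_div]; simp
  · have : a k - (v + a k) / 2 = (a k - v) / 2 := by ring
    rw [this, norm_div]; simp
  · intro w hwS hwv hwa
    rcases hwS with rfl | hwS
    · exact absurd rfl hwa
    · exact hk.2 w hwS (by simpa using hwv)

end Appr

/-! ### one side of the setup -/

structure HSet (S : Set ℂ) (v y n : ℂ) (ρ : ℝ) : Prop where
  hv : v ∈ S
  hy : y ∈ S
  yv : y ≠ v
  hn : ‖n‖ = 1
  hρ : 0 < ρ
  inD : ‖v + ρ * n‖ + ρ < 1
  sy : ‖y - (v + ρ * n)‖ = ρ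
  emp : ∀ w ∈ S, w ≠ v → w ≠ y → ρ < ‖w - (v + ρ * n)‖

theorem Setup.left {S : Set ℂ} {v y y' n : ℂ} {ρ ρ' : ℝ} (h : Setup S v y y' n ρ ρ') :
    HSet S v y n ρ := ⟨h.hv, h.hy, h.yv, h.hn, h.hρ, h.inD, h.sy, h.emp⟩

theorem Setup.right {S : Set ℂ} {v y y' n : ℂ} {ρ ρ' : ℝ} (h : Setup S v y y' n ρ ρ') :
    HSet S v y' (-n) ρ' := by
  have e : v + ρ' * (-n) = v - ρ' * n := by ring
  exact ⟨h.hv, h.hy', h.yv', by rw [norm_neg]; exact h.hn, h.hρ', by rw [e]; exact h.inD',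
    by rw [e]; exact h.sy', by rw [e]; exact h.emp'⟩

/-- centres of the discs through `v` and `y` -/
noncomputable def la_cc (v y n : ℂ) (ρ t : ℝ) : ℂ := v + ρ * n + t * (Complex.I * (y - v))

namespace HSet

variable {S : Set ℂ} {v y n : ℂ} {ρ : ℝ}

theorem sq_n (H : HSet S v y n ρ) : n.re ^ 2 + n.im ^ 2 = 1 := by
  rw [← la_sq, H.hn]; norm_num

theorem eq_y (H : HSet S v y n ρ) : ‖y - v‖ ^ 2 = 2 * ρ * la_ip n (y - v) := by
  have h1 : ‖y - (v + ρ * n)‖ ^ 2 = ρ ^ 2 := by rw [H.sy]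
  have h2 := H.sq_n
  rw [la_sq] at h1 ⊢
  simp only [la_ip, Complex.sub_re, Complex.sub_im, Complex.add_re, Complex.add_im,
    Complex.re_ofReal_mul, Complex.im_ofReal_mul] at h1 ⊢
  nlinarith

theorem g_pos (H : HSet S v y n ρ) : 0 < la_ip n (y - v) := by
  have h1 := H.eq_y
  have h2 : 0 < ‖y - v‖ ^ 2 := by
    have : y - v ≠ 0 := sub_ne_zero.2 H.yv
    positivity
  have h3 := H.hρ
  by_contra hcon
  nlinarith [mul_nonneg h3.le (neg_nonneg.2 (not_lt.1 hcon))]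

theorem cc_v (H : HSet S v y n ρ) (t : ℝ) :
    ‖v - la_cc v y n ρ t‖ = ‖y - la_cc v y n ρ t‖ := by
  have h1 := H.eq_y
  have h2 := H.sq_n
  rw [← abs_of_nonneg (norm_nonneg (v - _)), ← abs_of_nonneg (norm_nonneg (y - _)),
    ← sq_eq_sq_iff_abs_eq_abs]
  rw [la_sq] at h1 ⊢
  rw [la_sq]
  simp only [la_ip, la_cc, Complex.sub_re, Complex.sub_im, Complex.add_re, Complex.add_im,
    Complex.re_ofReal_mul, Complex.im_ofReal_mul, Complex.I_mul_re, Complex.I_mul_im] at h1 ⊢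
  nlinarith

theorem ip_cc (s t : ℝ) :
    la_ip (s * (Complex.I * n)) (la_cc v y n ρ t - v) = s * t * la_ip n (y - v) := by
  simp only [la_ip, la_cc, Complex.sub_re, Complex.sub_im, Complex.add_re, Complex.add_im,
    Complex.re_ofReal_mul, Complex.im_ofReal_mul, Complex.I_mul_re, Complex.I_mul_im]
  ring

theorem exists_t (H : HSet S v y n ρ) (hS : IsLF S) {σ : ℝ} (hσ : σ ≠ 0) :
    ∃ t : ℝ, 0 < σ * t ∧ ‖la_cc v y n ρ t‖ + ‖v - la_cc v y n ρ t‖ < 1 ∧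
      ∀ w ∈ S, w ∉ ({v, y} : Set ℂ) → ‖v - la_cc v y n ρ t‖ < ‖w - la_cc v y n ρ t‖ := by
  have hcont : Continuous fun u : ℝ => la_cc v y n ρ (σ * u) := by
    unfold la_cc
    fun_prop
  have h0 : la_cc v y n ρ (σ * 0) = v + ρ * n := by
    simp [la_cc]
  have hl1 : Tendsto (fun u : ℝ => la_cc v y n ρ (σ * u)) (𝓝[>] 0) (𝓝 (v + ρ * n)) := by
    have := hcont.tendsto 0
    rw [h0] at this
    exact this.mono_left nhdsWithin_le_nhds
  have hl2 : Tendsto (fun u : ℝ => ‖v - la_cc v y n ρ (σ * u)‖) (𝓝[>] 0) (𝓝 ρ) := by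
    have := (hl1.const_sub v).norm
    have h3 : ‖v - (v + ρ * n)‖ = ρ := by
      have : v - (v + ρ * n) = -(ρ * n) := by ring
      rw [this, norm_neg, norm_mul, H.hn, mul_one, Complex.norm_real,
        Real.norm_of_nonneg H.hρ.le]
    rwa [h3] at this
  have h := la_pert_tendsto hS {v, y} H.inD (fun w hw hwn => by
    simp only [mem_insert_iff, mem_singleton_iff, not_or] at hwn
    exact H.emp w hw hwn.1 hwn.2) hl1 hl2
  obtain ⟨u, hu, hu0⟩ := (h.and self_mem_nhdsWithin).exists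
  refine ⟨σ * u, ?_, hu.1, hu.2⟩
  have hu0' : 0 < u := hu0
  have h2 : 0 < σ ^ 2 := by positivity
  calc 0 < σ ^ 2 * u := by positivity
    _ = σ * (σ * u) := by ring

theorem vy (H : HSet S v y n ρ) (hS : IsLF S) {s : ℝ} (hs : s ≠ 0) {ε : ℕ → ℝ} {a : ℕ → ℂ}
    (A : Appr v (s * (Complex.I * n)) ε a) :
    ∀ᶠ k in atTop, DAdj (insert (a k) S) v y := by
  obtain ⟨t, ht, hin, hem⟩ := H.exists_t hS (σ := -s) (neg_ne_zero.2 hs)
  have hneg : la_ip (s * (Complex.I * n)) (la_cc v y n ρ t - v) < 0 := by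
    rw [ip_cc]
    have := H.g_pos
    have h2 := mul_pos ht this
    linarith
  filter_upwards [A.out (c := fun _ => la_cc v y n ρ t) tendsto_const_nhds hneg] with k hk
  refine ⟨mem_insert_of_mem _ H.hv, mem_insert_of_mem _ H.hy, H.yv.symm, la_cc v y n ρ t,
    ‖v - la_cc v y n ρ t‖, hin, rfl, (H.cc_v t).symm, ?_⟩
  intro w hw hwv hwy
  rcases hw with rfl | hw
  · exact hk
  · exact hem w hw (by simp [hwv, hwy])

theorem ay (H : HSet S v y n ρ) (hS : IsLF S) {s : ℝ} (hs : s ≠ 0) {ε : ℕ → ℝ} {a : ℕ → ℂ}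
    (A : Appr v (s * (Complex.I * n)) ε a) (hne : ∀ᶠ k in atTop, a k ∉ S) :
    ∀ᶠ k in atTop, DAdj (insert (a k) S) (a k) y := by
  obtain ⟨t, ht, hin, hem⟩ := H.exists_t hS (σ := s) hs
  set c₀ := la_cc v y n ρ t with hc₀
  have hpos : 0 < la_ip (s * (Complex.I * n)) (c₀ - v) := by
    rw [hc₀, ip_cc]
    exact mul_pos ht H.g_pos
  set u : ℕ → ℝ := fun k => -((‖a k - c₀‖ ^ 2 - ‖y - c₀‖ ^ 2) / (2 * ‖y - a k‖ ^ 2)) with hu
  set c : ℕ → ℂ := fun k => c₀ + u k * (y - a k) with hc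
  have hyv : 0 < ‖y - v‖ := norm_pos_iff.2 (sub_ne_zero.2 H.yv)
  have hu0 : Tendsto u atTop (𝓝 0) := by
    have h1 : Tendsto (fun k => ‖a k - c₀‖ ^ 2 - ‖y - c₀‖ ^ 2) atTop
        (𝓝 (‖v - c₀‖ ^ 2 - ‖y - c₀‖ ^ 2)) :=
      ((A.tendsto.sub_const c₀).norm.pow 2).sub_const _
    have h2 : Tendsto (fun k => 2 * ‖y - a k‖ ^ 2) atTop (𝓝 (2 * ‖y - v‖ ^ 2)) :=
      ((A.tendsto.const_sub y).norm.pow 2).const_mul 2
    have h3 := (h1.div h2 (by positivity)).neg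
    have h4 : -((‖v - c₀‖ ^ 2 - ‖y - c₀‖ ^ 2) / (2 * ‖y - v‖ ^ 2)) = 0 := by
      rw [hc₀, H.cc_v t]; simp
    rw [h4] at h3
    exact h3
  have hclim : Tendsto c atTop (𝓝 c₀) := by
    have h1 : Tendsto (fun k => (u k : ℂ) * (y - a k)) atTop (𝓝 (((0 : ℝ) : ℂ) * (y - v))) :=
      ((Complex.continuous_ofReal.tendsto _).comp hu0).mul (A.tendsto.const_sub y)
    have h2 := h1.const_add c₀
    simpa using h2
  have hrlim : Tendsto (fun k => ‖y - c k‖) atTop (𝓝 ‖y - c₀‖) := (hclim.const_sub y).norm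
  have h1 := la_pert_tendsto hS {v, y} (c := c₀) (r := ‖y - c₀‖)
    (by rw [hc₀, ← H.cc_v t]; exact hin)
    (fun w hw hwn => by rw [hc₀, ← H.cc_v t]; exact hem w hw hwn) hclim hrlim
  filter_upwards [h1, A.inside hclim hpos, hne] with k hk1 hk2 hk3
  have hya : y - a k ≠ 0 := by
    rw [sub_ne_zero]
    rintro rfl
    exact hk3 H.hy
  have heq : ‖a k - c k‖ = ‖y - c k‖ := by
    rw [← abs_of_nonneg (norm_nonneg (a k - _)), ← abs_of_nonneg (norm_nonneg (y - _)),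
      ← sq_eq_sq_iff_abs_eq_abs]
    have hn0 : ‖y - a k‖ ^ 2 ≠ 0 := by positivity
    have h5 : u k * (2 * ‖y - a k‖ ^ 2) = -(‖a k - c₀‖ ^ 2 - ‖y - c₀‖ ^ 2) := by
      simp only [hu]
      field_simp
    rw [la_sq, la_sq, la_sq] at h5
    rw [la_sq, la_sq]
    simp only [hc, Complex.sub_re, Complex.sub_im, Complex.add_re, Complex.add_im,
      Complex.re_ofReal_mul, Complex.im_ofReal_mul] at h5 ⊢
    nlinarith
  refine ⟨mem_insert _ _, mem_insert_of_mem _ H.hy, (sub_ne_zero.1 hya).symm, c k, ‖y - c k‖,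
    hk1.1, heq, rfl, ?_⟩
  intro w hw hwa hwy
  rcases hw with rfl | hw
  · exact absurd rfl hwa
  · by_cases hwv : w = v
    · rw [hwv, ← heq]; exact hk2
    · exact hk1.2 w hw (by simp [hwv, hwy])

end HSet


theorem HSet.conclude {S : Set ℂ} {v y n : ℂ} {ρ : ℝ} (H : HSet S v y n ρ) {σ : ℝ} (hσ : 0 < σ)
    (hG : ∀ w ∈ S, 0 ≤ ‖w - v‖ ^ 2 - 2 * σ * la_ip n (w - v)) {z : ℂ} (hz : z ∈ S) (hzv : z ≠ v)
    (hGz : ‖z - v‖ ^ 2 - 2 * σ * la_ip n (z - v) = 0) : z = y := by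
  by_contra hzy
  have h1 := hG y H.hy
  rw [H.eq_y] at h1
  have hg := H.g_pos
  have h2 : σ ≤ ρ := by
    by_contra hcon
    nlinarith [mul_pos (sub_pos.2 (not_le.1 hcon)) hg]
  have h3 := H.emp z hz hzv hzy
  have h4 : ρ ^ 2 < ‖z - (v + ρ * n)‖ ^ 2 := pow_lt_pow_left₀ h3 H.hρ.le (by norm_num)
  have h5 : ‖z - (v + ρ * n)‖ ^ 2 = ‖z - v‖ ^ 2 - 2 * ρ * la_ip n (z - v) + ρ ^ 2 := by
    have h2 := H.sq_n
    rw [la_sq, la_sq]
    simp only [la_ip, Complex.sub_re, Complex.sub_im, Complex.add_re, Complex.add_im,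
      Complex.re_ofReal_mul, Complex.im_ofReal_mul]
    nlinarith
  have h6 : 0 < ‖z - v‖ ^ 2 := by
    have : z - v ≠ 0 := sub_ne_zero.2 hzv
    positivity
  have h7 : 0 < la_ip n (z - v) := by
    by_contra hcon
    nlinarith [mul_nonneg hσ.le (neg_nonneg.2 (not_lt.1 hcon))]
  nlinarith [mul_nonneg (sub_nonneg.2 h2) h7.le]

/-! ### Claim 3 -/

theorem la_cover {S : Set ℂ} (hS : IsLF S) {v a z : ℂ} (haS : a ∉ S) (h : DAdj S v z) :
    DAdj (insert a S) v z ∨ DAdj (insert a S) a z := by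
  obtain ⟨hv, hz, hvz, c, r, hcr, hvc, hzc, hem⟩ := h
  have haz : a ≠ z := fun h => haS (h ▸ hz)
  have hav : a ≠ v := fun h => haS (h ▸ hv)
  rcases lt_trichotomy r ‖a - c‖ with h1 | h1 | h1
  · left
    refine ⟨mem_insert_of_mem _ hv, mem_insert_of_mem _ hz, hvz, c, r, hcr, hvc, hzc, ?_⟩
    intro w hw hwv hwz
    rcases hw with rfl | hw
    · exact h1
    · exact hem w hw hwv hwz
  · left
    -- perturb the centre along the bisector of `v, z`
    set D : ℝ := la_ip (a - v) (Complex.I * (z - v)) with hD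
    have hX : ‖a - v‖ ^ 2 = 2 * la_ip (a - v) (c - v) := by
      have := la_key a v c
      rw [hvc, ← h1] at this
      linarith
    have hZ : ‖z - v‖ ^ 2 = 2 * la_ip (z - v) (c - v) := by
      have := la_key z v c
      rw [hvc, hzc] at this
      linarith
    have hD0 : D ≠ 0 := by
      intro hD0
      have hZ0 : ‖z - v‖ ^ 2 ≠ 0 := by
        have : z - v ≠ 0 := sub_ne_zero.2 hvz.symm
        positivity
      have hX0 : ‖a - v‖ ^ 2 ≠ 0 := by
        have : a - v ≠ 0 := sub_ne_zero.2 hav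
        positivity
      have e1 : la_ip (a - v) (c - v) * ‖z - v‖ ^ 2 - la_ip (a - v) (z - v) * la_ip (z - v) (c - v)
          = 0 := by
        rw [hD] at hD0
        rw [la_sq]
        simp only [la_ip, Complex.I_mul_re, Complex.I_mul_im] at hD0 ⊢
        linear_combination
          ((z - v).re * (c - v).im - (z - v).im * (c - v).re) * hD0
      have e2 : la_ip (z - v) (c - v) * ‖a - v‖ ^ 2 - la_ip (a - v) (z - v) * la_ip (a - v) (c - v)
          = 0 := by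
        rw [hD] at hD0
        rw [la_sq]
        simp only [la_ip, Complex.I_mul_re, Complex.I_mul_im] at hD0 ⊢
        linear_combination
          (-((a - v).re * (c - v).im - (a - v).im * (c - v).re)) * hD0
      have e3 : ‖a - v‖ ^ 2 = la_ip (a - v) (z - v) := by
        have : (‖a - v‖ ^ 2 - la_ip (a - v) (z - v)) * ‖z - v‖ ^ 2 = 0 := by
          linear_combination 2 * e1 + ‖z - v‖ ^ 2 * hX - la_ip (a - v) (z - v) * hZ
        rcases mul_eq_zero.1 this with h | h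
        · linarith
        · exact absurd h hZ0
      have e4 : ‖z - v‖ ^ 2 = la_ip (a - v) (z - v) := by
        have : (‖z - v‖ ^ 2 - la_ip (a - v) (z - v)) * ‖a - v‖ ^ 2 = 0 := by
          linear_combination 2 * e2 + ‖a - v‖ ^ 2 * hZ - la_ip (a - v) (z - v) * hX
        rcases mul_eq_zero.1 this with h | h
        · linarith
        · exact absurd h hX0
      have e5 : ‖a - z‖ ^ 2 = 0 := by
        have : ‖a - z‖ ^ 2 = ‖a - v‖ ^ 2 + ‖z - v‖ ^ 2 - 2 * la_ip (a - v) (z - v) := by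
          rw [la_sq, la_sq, la_sq]
          simp only [la_ip, Complex.sub_re, Complex.sub_im]
          ring
        rw [this]; linarith
      have e6 : ‖a - z‖ = 0 := by simpa using e5
      exact haz (sub_eq_zero.1 (norm_eq_zero.1 e6))
    have hcont : Continuous fun u : ℝ => c + ((-D * u : ℝ) : ℂ) * (Complex.I * (z - v)) := by
      fun_prop
    have hl1 : Tendsto (fun u : ℝ => c + ((-D * u : ℝ) : ℂ) * (Complex.I * (z - v))) (𝓝[>] 0)
        (𝓝 c) := by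
      have := hcont.tendsto 0
      simp only [mul_zero, Complex.ofReal_zero, zero_mul, add_zero] at this
      exact this.mono_left nhdsWithin_le_nhds
    have hl2 : Tendsto (fun u : ℝ => ‖v - (c + ((-D * u : ℝ) : ℂ) * (Complex.I * (z - v)))‖)
        (𝓝[>] 0) (𝓝 r) := by
      have := (hl1.const_sub v).norm
      rwa [hvc] at this
    have h2 := la_pert_tendsto hS {v, z} hcr (fun w hw hwn => by
      simp only [mem_insert_iff, mem_singleton_iff, not_or] at hwn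
      exact hem w hw hwn.1 hwn.2) hl1 hl2
    obtain ⟨u, hu, hu0⟩ := (h2.and self_mem_nhdsWithin).exists
    have hu0' : 0 < u := hu0
    set c' : ℂ := c + ((-D * u : ℝ) : ℂ) * (Complex.I * (z - v)) with hc'
    refine ⟨mem_insert_of_mem _ hv, mem_insert_of_mem _ hz, hvz, c', ‖v - c'‖, hu.1, rfl, ?_, ?_⟩
    · rw [← abs_of_nonneg (norm_nonneg (v - _)), ← abs_of_nonneg (norm_nonneg (z - _)),
        ← sq_eq_sq_iff_abs_eq_abs]
      have e1 := la_key z v c'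
      have e2 : la_ip (z - v) (c' - v) = la_ip (z - v) (c - v) := by
        simp only [la_ip, hc', Complex.sub_re, Complex.sub_im, Complex.add_re, Complex.add_im,
          Complex.re_ofReal_mul, Complex.im_ofReal_mul, Complex.I_mul_re, Complex.I_mul_im]
        ring
      rw [e1, e2]
      linarith
    · intro w hw hwv hwz
      rcases hw with rfl | hw
      · have e1 := la_key w v c'
        have e2 : la_ip (w - v) (c' - v) = la_ip (w - v) (c - v) - D * u * D := by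
          rw [hD]
          simp only [la_ip, hc', Complex.sub_re, Complex.sub_im, Complex.add_re, Complex.add_im,
            Complex.re_ofReal_mul, Complex.im_ofReal_mul, Complex.I_mul_re, Complex.I_mul_im, hD]
          ring
        rw [e2] at e1
        have e3 : 0 < D * u * D := by
          have : 0 < D ^ 2 := by positivity
          nlinarith
        exact lt_of_pow_lt_pow_left₀ 2 (norm_nonneg _) (by linarith)
      · exact hu.2 w hw (by simp [hwv, hwz])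
  · right
    -- shrink towards `z`
    have hr : 0 < r := lt_of_le_of_lt (norm_nonneg _) h1
    have hcont : ContinuousOn (fun t : ℝ => ‖a - (z + t * (c - z))‖ - t * r) (Icc 0 1) := by
      fun_prop
    have h0 : (0 : ℝ) ∈ Ioo ((fun t : ℝ => ‖a - (z + t * (c - z))‖ - t * r) 1)
        ((fun t : ℝ => ‖a - (z + t * (c - z))‖ - t * r) 0) := by
      constructor
      · simp only [Complex.ofReal_one, one_mul, add_sub_cancel]
        linarith
      · simp only [Complex.ofReal_zero, zero_mul, add_zero, sub_zero]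
        exact norm_pos_iff.2 (sub_ne_zero.2 haz)
    obtain ⟨t, ht, hft⟩ := intermediate_value_Ioo' zero_le_one hcont h0
    simp only at hft
    have hpt : ∀ w : ℂ, ‖w - (z + t * (c - z))‖ ^ 2 =
        (1 - t) * ‖w - z‖ ^ 2 + t * ‖w - c‖ ^ 2 - t * (1 - t) * ‖z - c‖ ^ 2 := by
      intro w
      rw [la_sq, la_sq, la_sq, la_sq]
      simp only [Complex.sub_re, Complex.sub_im, Complex.add_re, Complex.add_im,
        Complex.re_ofReal_mul, Complex.im_ofReal_mul]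
      ring
    have hw' : ∀ w : ℂ, w ≠ z → r ≤ ‖w - c‖ → t * r < ‖w - (z + t * (c - z))‖ := by
      intro w hwz hwc
      apply lt_of_pow_lt_pow_left₀ 2 (norm_nonneg _)
      rw [hpt w, hzc]
      have e1 : 0 < ‖w - z‖ ^ 2 := by
        have : w - z ≠ 0 := sub_ne_zero.2 hwz
        positivity
      have e2 : r ^ 2 ≤ ‖w - c‖ ^ 2 := pow_le_pow_left₀ hr.le hwc 2
      nlinarith [mul_pos (sub_pos.2 ht.2) e1, mul_nonneg ht.1.le (sub_nonneg.2 e2)]
    refine ⟨mem_insert _ _, mem_insert_of_mem _ hz, haz, z + t * (c - z), t * r, ?_, by linarith,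
      ?_, ?_⟩
    · have e1 : z + t * (c - z) = c + ((1 - t : ℝ) : ℂ) * (z - c) := by push_cast; ring
      have e2 : ‖z + t * (c - z)‖ ≤ ‖c‖ + (1 - t) * r := by
        rw [e1]
        refine (norm_add_le _ _).trans ?_
        rw [norm_mul, hzc, Complex.norm_real, Real.norm_of_nonneg (by linarith [ht.2])]
      linarith
    · have e1 : z - (z + t * (c - z)) = (t : ℂ) * (z - c) := by ring
      rw [e1, norm_mul, hzc, Complex.norm_real, Real.norm_of_nonneg ht.1.le]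
    · intro w hw hwa hwz
      rcases hw with rfl | hw
      · exact absurd rfl hwa
      · by_cases hwv : w = v
        · rw [hwv]
          exact hw' v hvz hvc.ge
        · exact hw' w hwz (hem w hw hwv hwz).le

/-! ### Claims 1, 2, 5 (compactness) -/

/-- data extracted from an edge `x ~ z` of `insert a S` with `x` close to `v` -/
theorem la_near {v : ℂ} {d : ℝ} {a z c : ℂ} {r : ℝ} (hz : d < ‖z - v‖) (ha : ‖a - v‖ < d / 2)
    (hac : ‖a - c‖ ≤ r) (hzc : ‖z - c‖ ≤ r) : d / 4 ≤ r := by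
  have h1 : ‖z - v‖ ≤ ‖z - c‖ + ‖a - c‖ + ‖a - v‖ := by
    have e : z - v = (z - c) - (a - c) + (a - v) := by ring
    rw [e]
    refine (norm_add_le _ _).trans ?_
    gcongr
    exact norm_sub_le _ _
  linarith

theorem la_close {v : ℂ} {a c : ℕ → ℂ} (ha : Tendsto (fun k => a k - v) atTop (𝓝 0)) :
    Tendsto (fun k => ‖v - c k‖ - ‖a k - c k‖) atTop (𝓝 0) := by
  apply squeeze_zero_norm (a := fun k => ‖a k - v‖)
  · intro k
    have := abs_norm_sub_norm_le (v - c k) (a k - c k)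
    rw [Real.norm_eq_abs]
    refine this.trans (le_of_eq ?_)
    have e : v - c k - (a k - c k) = -(a k - v) := by ring
    rw [e, norm_neg]
  · simpa using ha.norm

namespace Appr

variable {v w₀ : ℂ} {ε : ℕ → ℝ} {a : ℕ → ℂ}

theorem near (H : Appr v w₀ ε a) {d : ℝ} (hd : 0 < d) : ∀ᶠ k in atTop, ‖a k - v‖ < d := by
  have := H.tendsto_sub.norm
  rw [norm_zero] at this
  exact this.eventually_lt_const hd

theorem a_sub (H : Appr v w₀ ε a) (hw : w₀ ≠ 0) {S : Set ℂ} (hS : Good S) (hv : v ∈ S) :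
    ∀ᶠ k in atTop, ∀ z, DAdj (insert (a k) S) (a k) z → z = v ∨ DAdj S v z := by
  by_contra hcon
  rw [not_eventually] at hcon
  obtain ⟨d, hd, hdS⟩ := la_isol hS.lf hv
  obtain ⟨φ, hφ, hP⟩ := extraction_of_frequently_atTop
    (hcon.and_eventually ((H.near (half_pos hd)).and (H.notMem hw hS.lf hv)))
  have A := H.comp hφ
  have hP1 : ∀ k, ∃ z, DAdj (insert ((a ∘ φ) k) S) ((a ∘ φ) k) z ∧ z ≠ v ∧ ¬ DAdj S v z := by
    intro k
    have := (hP k).1
    push Not at this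
    exact this
  choose z hz1 hz2 hz3 using hP1
  have hP2 : ∀ k, ∃ (c : ℂ) (r : ℝ), ‖c‖ + r < 1 ∧ ‖(a ∘ φ) k - c‖ = r ∧ ‖z k - c‖ = r ∧
      ∀ w ∈ insert ((a ∘ φ) k) S, w ≠ (a ∘ φ) k → w ≠ z k → r < ‖w - c‖ := fun k =>
    (hz1 k).2.2.2
  choose c r hcr hac hzc hem using hP2
  have haS : ∀ k, (a ∘ φ) k ∉ S := fun k => (hP k).2.2
  have hzS : ∀ k, z k ∈ S := fun k => by
    rcases (hz1 k).2.1 with h | h
    · exact absurd h (hz1 k).2.2.1.symm
    · exact h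
  have hemp : ∀ k, ∀ w ∈ S, r k ≤ ‖w - c k‖ := by
    intro k w hw
    by_cases hwz : w = z k
    · rw [hwz, hzc]
    · exact (hem k w (mem_insert_of_mem _ hw) (fun h => haS k (h ▸ hw)) hwz).le
  have hr : ∀ k, d / 4 ≤ r k := fun k =>
    la_near (hdS _ (hzS k) (hz2 k)) (hP k).2.1 (hac k).le (hzc k).le
  have hlim : Tendsto (fun k => ‖v - c k‖ - r k) atTop (𝓝 0) :=
    (la_close (c := c) A.tendsto_sub).congr fun k => by rw [hac k]
  obtain ⟨φ', c₀, rr, z₀, -, -, -, -, -, -, -, hz0, -, -, -, hD⟩ :=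
    lemmaK hS hv c r z (by positivity) hr hcr hemp hlim (fun k => ⟨hzS k, hz2 k, hzc k⟩)
  exact hz3 (φ' 0) (by rw [hz0 0]; exact hD)

theorem old (H : Appr v w₀ ε a) {S : Set ℂ} (hS : Good S) (hv : v ∈ S) :
    ∀ᶠ k in atTop, ∀ x z, x ≠ v → z ≠ v → DAdj S x z → DAdj (insert (a k) S) x z := by
  by_contra hcon
  rw [not_eventually] at hcon
  obtain ⟨d, hd, hdS⟩ := la_isol hS.lf hv
  obtain ⟨φ, hφ, hP⟩ := extraction_of_frequently_atTop
    (hcon.and_eventually (H.near (half_pos hd)))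
  have A := H.comp hφ
  have hP1 : ∀ k, ∃ x z, x ≠ v ∧ z ≠ v ∧ DAdj S x z ∧ ¬ DAdj (insert ((a ∘ φ) k) S) x z := by
    intro k
    have := (hP k).1
    push Not at this
    exact this
  choose x z hx hz hxz hnot using hP1
  have hP2 : ∀ k, ∃ (c : ℂ) (r : ℝ), ‖c‖ + r < 1 ∧ ‖x k - c‖ = r ∧ ‖z k - c‖ = r ∧
      ∀ w ∈ S, w ≠ x k → w ≠ z k → r < ‖w - c‖ := fun k => (hxz k).2.2.2
  choose c r hcr hxc hzc hem using hP2
  have hac : ∀ k, ‖(a ∘ φ) k - c k‖ ≤ r k := by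
    intro k
    by_contra hlt
    refine hnot k ⟨mem_insert_of_mem _ (hxz k).1, mem_insert_of_mem _ (hxz k).2.1,
      (hxz k).2.2.1, c k, r k, hcr k, hxc k, hzc k, ?_⟩
    intro w hw hwx hwz
    rcases hw with rfl | hw
    · exact not_le.1 hlt
    · exact hem k w hw hwx hwz
  have hvc : ∀ k, r k < ‖v - c k‖ := fun k => hem k v hv (hx k).symm (hz k).symm
  have hemp : ∀ k, ∀ w ∈ S, r k ≤ ‖w - c k‖ := by
    intro k w hw
    by_cases hwx : w = x k
    · rw [hwx, hxc]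
    by_cases hwz : w = z k
    · rw [hwz, hzc]
    exact (hem k w hw hwx hwz).le
  have hr : ∀ k, d / 4 ≤ r k := fun k =>
    la_near (hdS _ (hxz k).1 (hx k)) (hP k).2 (hac k) (hxc k).le
  have hlim : Tendsto (fun k => ‖v - c k‖ - r k) atTop (𝓝 0) := by
    apply squeeze_zero (fun k => sub_nonneg.2 (hvc k).le) (fun k => ?_)
      (la_close (c := c) A.tendsto_sub)
    exact sub_le_sub_left (hac k) _
  obtain ⟨φ₁, c₁, r₁, x₀, hφ₁, -, -, -, -, -, -, hx0, -, -, -, -⟩ :=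
    lemmaK hS hv c r x (by positivity) hr hcr hemp hlim (fun k => ⟨(hxz k).1, hx k, hxc k⟩)
  obtain ⟨φ₂, c₂, r₂, z₀, hφ₂, -, -, -, -, -, -, hz0, -, -, -, -⟩ :=
    lemmaK hS hv (c ∘ φ₁) (r ∘ φ₁) (z ∘ φ₁) (r₀ := d / 4) (by positivity) (fun k => hr _)
      (fun k => hcr _) (fun k => hemp _) (hlim.comp hφ₁.tendsto_atTop)
      (fun k => ⟨(hxz _).2.1, hz _, hzc _⟩)
  have e1 : ∀ k, x (φ₁ (φ₂ k)) = x₀ := fun k => hx0 _
  have e2 : ∀ k, z (φ₁ (φ₂ k)) = z₀ := fun k => hz0 k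
  obtain ⟨hx0S, hz0S, hxz0, c', r', hcr', hxc', hzc', hem'⟩ := hxz (φ₁ (φ₂ 0))
  rw [e1 0] at hx0S hxz0 hxc' hem'
  rw [e2 0] at hz0S hxz0 hzc' hem'
  have hv' : r' < ‖v - c'‖ :=
    hem' v hv (by rw [← e1 0]; exact (hx _).symm) (by rw [← e2 0]; exact (hz _).symm)
  have A2 := A.comp (hφ₁.comp hφ₂)
  have hev : ∀ᶠ k in atTop, r' < ‖((a ∘ φ) ∘ (φ₁ ∘ φ₂)) k - c'‖ :=
    (A2.tendsto.sub_const c').norm.eventually_const_lt hv'
  obtain ⟨k, hk⟩ := hev.exists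
  refine hnot (φ₁ (φ₂ k)) ?_
  rw [e1 k, e2 k]
  refine ⟨mem_insert_of_mem _ hx0S, mem_insert_of_mem _ hz0S, hxz0, c', r', hcr', hxc', hzc', ?_⟩
  intro w hw hwx hwz
  rcases hw with rfl | hw
  · exact hk
  · exact hem' w hw hwx hwz

end Appr

theorem la_shared {S : Set ℂ} (hS : Good S) {v y y' n : ℂ} {ρ ρ' : ℝ}
    (h : Setup S v y y' n ρ ρ') {s : ℝ} (hs : s ≠ 0) {ε : ℕ → ℝ} {a : ℕ → ℂ}
    (H : Appr v (s * (Complex.I * n)) ε a) (hw : (s : ℂ) * (Complex.I * n) ≠ 0) :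
    ∀ᶠ k in atTop, ∀ z, DAdj (insert (a k) S) v z → DAdj (insert (a k) S) (a k) z →
      z = y ∨ z = y' := by
  have hv := h.hv
  by_contra hcon
  rw [not_eventually] at hcon
  obtain ⟨d, hd, hdS⟩ := la_isol hS.lf hv
  obtain ⟨φ, hφ, hP⟩ := extraction_of_frequently_atTop
    (hcon.and_eventually ((H.near (half_pos hd)).and (H.notMem hw hS.lf hv)))
  have A := H.comp hφ
  have hP1 : ∀ k, ∃ z, DAdj (insert ((a ∘ φ) k) S) v z ∧
      DAdj (insert ((a ∘ φ) k) S) ((a ∘ φ) k) z ∧ z ≠ y ∧ z ≠ y' := by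
    intro k
    have := (hP k).1
    push Not at this
    exact this
  choose z hz1 hz2 hzy hzy' using hP1
  have hP2 : ∀ k, ∃ (c : ℂ) (r : ℝ), ‖c‖ + r < 1 ∧ ‖v - c‖ = r ∧ ‖z k - c‖ = r ∧
      ∀ w ∈ insert ((a ∘ φ) k) S, w ≠ v → w ≠ z k → r < ‖w - c‖ := fun k => (hz1 k).2.2.2
  choose c r hcr hvc hzc hem using hP2
  have hP3 : ∀ k, ∃ (c : ℂ) (r : ℝ), ‖c‖ + r < 1 ∧ ‖(a ∘ φ) k - c‖ = r ∧ ‖z k - c‖ = r ∧
      ∀ w ∈ insert ((a ∘ φ) k) S, w ≠ (a ∘ φ) k → w ≠ z k → r < ‖w - c‖ := fun k =>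
    (hz2 k).2.2.2
  choose c' r' hcr' hac' hzc' hem' using hP3
  have haS : ∀ k, (a ∘ φ) k ∉ S := fun k => (hP k).2.2
  have hzv : ∀ k, z k ≠ v := fun k => (hz1 k).2.2.1.symm
  have hza : ∀ k, z k ≠ (a ∘ φ) k := fun k => (hz2 k).2.2.1.symm
  have hzS : ∀ k, z k ∈ S := fun k => by
    rcases (hz1 k).2.1 with h | h
    · exact absurd h (hza k)
    · exact h
  have hva : ∀ k, v ≠ (a ∘ φ) k := fun k hh => haS k (hh ▸ hv)
  have hout : ∀ k, ‖v - c k‖ ≤ ‖(a ∘ φ) k - c k‖ := fun k => by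
    rw [hvc k]
    exact (hem k _ (mem_insert _ _) (hva k).symm (hza k).symm).le
  have hout' : ∀ k, ‖(a ∘ φ) k - c' k‖ ≤ ‖v - c' k‖ := fun k => by
    rw [hac' k]
    exact (hem' k _ (mem_insert_of_mem _ hv) (hva k) (hzv k).symm).le
  have hemp : ∀ k, ∀ w ∈ S, r k ≤ ‖w - c k‖ := by
    intro k w hw
    by_cases hwv : w = v
    · rw [hwv, hvc]
    by_cases hwz : w = z k
    · rw [hwz, hzc]
    exact (hem k w (mem_insert_of_mem _ hw) hwv hwz).le
  have hemp' : ∀ k, ∀ w ∈ S, r' k ≤ ‖w - c' k‖ := by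
    intro k w hw
    by_cases hwz : w = z k
    · rw [hwz, hzc']
    · exact (hem' k w (mem_insert_of_mem _ hw) (fun h => haS k (h ▸ hw)) hwz).le
  have hr : ∀ k, d / 4 ≤ r k := fun k =>
    la_near (a := v) (hdS _ (hzS k) (hzv k)) (by simpa using half_pos hd) (hvc k).le (hzc k).le
  have hr' : ∀ k, d / 4 ≤ r' k := fun k =>
    la_near (hdS _ (hzS k) (hzv k)) (hP k).2.1 (hac' k).le (hzc' k).le
  have hlim : Tendsto (fun k => ‖v - c k‖ - r k) atTop (𝓝 0) := by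
    have : (fun k => ‖v - c k‖ - r k) = fun _ => 0 := by
      funext k; rw [hvc k, sub_self]
    rw [this]
    exact tendsto_const_nhds
  have hlim' : Tendsto (fun k => ‖v - c' k‖ - r' k) atTop (𝓝 0) :=
    (la_close (c := c') A.tendsto_sub).congr fun k => by rw [hac' k]
  obtain ⟨φ₁, c₁, r₁, z₁, hφ₁, hc₁, hr₁, -, -, hemp₁, hv₁, hz₁, hz₁S, hz₁v, hzc₁, -⟩ :=
    lemmaK hS hv c r z (by positivity) hr hcr hemp hlim (fun k => ⟨hzS k, hzv k, hzc k⟩)
  obtain ⟨φ₂, c₂, r₂, z₂, hφ₂, hc₂, hr₂, -, -, hemp₂, hv₂, hz₂, hz₂S, hz₂v, hzc₂, -⟩ :=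
    lemmaK hS hv (c' ∘ φ₁) (r' ∘ φ₁) (z ∘ φ₁) (r₀ := d / 4) (by positivity) (fun k => hr' _)
      (fun k => hcr' _) (fun k => hemp' _) (hlim'.comp hφ₁.tendsto_atTop)
      (fun k => ⟨hzS _, hzv _, hzc' _⟩)
  have hz12 : z₂ = z₁ := by
    rw [← hz₂ 0]
    exact hz₁ _
  subst hz12
  have hzy0 : z₂ ≠ y := by rw [← hz₂ 0]; exact hzy _
  have hzy0' : z₂ ≠ y' := by rw [← hz₂ 0]; exact hzy' _
  have A2 := A.comp (hφ₁.comp hφ₂)
  have hα : la_ip (s * (Complex.I * n)) (c₁ - v) ≤ 0 :=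
    A2.le_of_out (c := fun k => c (φ₁ (φ₂ k))) (hc₁.comp hφ₂.tendsto_atTop) (fun k => hout _)
  have hβ : 0 ≤ la_ip (s * (Complex.I * n)) (c₂ - v) :=
    A2.le_of_inside (c := fun k => c' (φ₁ (φ₂ k))) hc₂ (fun k => hout' _)
  obtain ⟨lam, hl0, hl1, hlam⟩ : ∃ lam : ℝ, 0 ≤ lam ∧ lam ≤ 1 ∧
      (1 - lam) * la_ip (s * (Complex.I * n)) (c₁ - v) +
        lam * la_ip (s * (Complex.I * n)) (c₂ - v) = 0 := by
    set α := la_ip (s * (Complex.I * n)) (c₁ - v)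
    set β := la_ip (s * (Complex.I * n)) (c₂ - v)
    by_cases hα0 : α = 0
    · exact ⟨0, le_refl _, zero_le_one, by rw [hα0]; ring⟩
    · have hα' : α < 0 := lt_of_le_of_ne hα hα0
      have hba : 0 < β - α := by linarith
      refine ⟨-α / (β - α), div_nonneg (by linarith) hba.le, ?_, ?_⟩
      · rw [div_le_one hba]; linarith
      · field_simp
        ring
  set σ : ℝ := (1 - lam) * la_ip n (c₁ - v) + lam * la_ip n (c₂ - v) with hσ
  have hn2 : n.re ^ 2 + n.im ^ 2 = 1 := h.left.sq_n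
  -- the new centre is `v + σ n`
  have hlam' : (1 - lam) * la_ip (Complex.I * n) (c₁ - v) + lam * la_ip (Complex.I * n) (c₂ - v)
      = 0 := by
    have e : ∀ x, la_ip (s * (Complex.I * n)) x = s * la_ip (Complex.I * n) x := by
      intro x
      simp only [la_ip, Complex.re_ofReal_mul, Complex.im_ofReal_mul]
      ring
    rw [e, e] at hlam
    have : s * ((1 - lam) * la_ip (Complex.I * n) (c₁ - v) +
      lam * la_ip (Complex.I * n) (c₂ - v)) = 0 := by linarith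
    rcases mul_eq_zero.1 this with h | h
    · exact absurd h hs
    · exact h
  have hG : ∀ w : ℂ, ‖w - v‖ ^ 2 - 2 * σ * la_ip n (w - v) =
      (1 - lam) * (‖w - c₁‖ ^ 2 - ‖v - c₁‖ ^ 2) + lam * (‖w - c₂‖ ^ 2 - ‖v - c₂‖ ^ 2) := by
    intro w
    rw [la_key w v c₁, la_key w v c₂]
    have e : σ * la_ip n (w - v) = (1 - lam) * la_ip (w - v) (c₁ - v) +
        lam * la_ip (w - v) (c₂ - v) := by
      rw [hσ]
      simp only [la_ip, Complex.I_mul_re, Complex.I_mul_im] at hlam' ⊢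
      linear_combination ((1 - lam) * ((w - v).re * (c₁ - v).re + (w - v).im * (c₁ - v).im) +
        lam * ((w - v).re * (c₂ - v).re + (w - v).im * (c₂ - v).im)) * hn2 -
        ((w - v).im * n.re - (w - v).re * n.im) * hlam'
    linear_combination (-2) * e
  have hG1 : ∀ w ∈ S, 0 ≤ ‖w - v‖ ^ 2 - 2 * σ * la_ip n (w - v) := by
    intro w hwS
    rw [hG w]
    have e1 : ‖v - c₁‖ ^ 2 ≤ ‖w - c₁‖ ^ 2 := by
      apply pow_le_pow_left₀ (norm_nonneg _)
      rw [hv₁]; exact hemp₁ w hwS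
    have e2 : ‖v - c₂‖ ^ 2 ≤ ‖w - c₂‖ ^ 2 := by
      apply pow_le_pow_left₀ (norm_nonneg _)
      rw [hv₂]; exact hemp₂ w hwS
    have := mul_nonneg (sub_nonneg.2 hl1) (sub_nonneg.2 e1)
    have := mul_nonneg hl0 (sub_nonneg.2 e2)
    linarith
  have hG2 : ‖z₂ - v‖ ^ 2 - 2 * σ * la_ip n (z₂ - v) = 0 := by
    rw [hG z₂, hv₁, hv₂, hzc₁, hzc₂]
    ring
  rcases lt_trichotomy σ 0 with hσ0 | hσ0 | hσ0
  · refine hzy0' (h.right.conclude (σ := -σ) (by linarith) ?_ hz₂S hz₂v ?_)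
    · intro w hwS
      have e : la_ip (-n) (w - v) = - la_ip n (w - v) := by
        simp only [la_ip, Complex.neg_re, Complex.neg_im]; ring
      rw [e]
      have := hG1 w hwS
      linarith
    · have e : la_ip (-n) (z₂ - v) = - la_ip n (z₂ - v) := by
        simp only [la_ip, Complex.neg_re, Complex.neg_im]; ring
      rw [e]
      linarith
  · rw [hσ0] at hG2
    have : ‖z₂ - v‖ ^ 2 = 0 := by linarith
    have h2 : ‖z₂ - v‖ = 0 := by simpa using this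
    exact hz₂v (sub_eq_zero.1 (norm_eq_zero.1 h2))
  · exact hzy0 (h.left.conclude hσ0 hG1 hz₂S hz₂v hG2)

theorem loc1_of_appr {S : Set ℂ} (hS : Good S) {v y y' n : ℂ} {ρ ρ' : ℝ}
    (h : Setup S v y y' n ρ ρ') {s : ℝ} (hs : s ≠ 0) {ε : ℕ → ℝ} {a : ℕ → ℂ}
    (H : Appr v (s * (Complex.I * n)) ε a) : ∀ᶠ k in atTop, Loc1 S v y y' (a k) := by
  have hw : (s : ℂ) * (Complex.I * n) ≠ 0 := by
    have hn0 : n ≠ 0 := by
      intro h0
      have := h.hn
      rw [h0, norm_zero] at this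
      exact zero_ne_one this
    exact mul_ne_zero (by exact_mod_cast hs) (mul_ne_zero Complex.I_ne_zero hn0)
  have H' : Appr v (((-s : ℝ) : ℂ) * (Complex.I * (-n))) ε a := by
    have e : ((-s : ℝ) : ℂ) * (Complex.I * (-n)) = s * (Complex.I * n) := by push_cast; ring
    rw [e]; exact H
  have hnm := H.notMem hw hS.lf h.hv
  filter_upwards [hnm, H.va hw hS.lf h.hv, h.left.vy hS.lf hs H, h.left.ay hS.lf hs H hnm,
    h.right.vy hS.lf (neg_ne_zero.2 hs) H', h.right.ay hS.lf (neg_ne_zero.2 hs) H' hnm,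
    H.a_sub hw hS h.hv, H.old hS h.hv, la_shared hS h hs H hw] with k h1 h2 h3 h4 h5 h6 h7 h8 h9
  exact ⟨h1, h2, h3, h4, h5, h6, h7, fun z hz => la_cover hS.lf h1 hz, h8, h9⟩

/-- Claims 1-5: for small `δ` the point `a ≈ v + s δ² i n` works (`s = ±1`) -/
theorem loc1_eventually {S : Set ℂ} (hS : Good S) {v y y' n : ℂ} {ρ ρ' : ℝ}
    (h : Setup S v y y' n ρ ρ') (s : ℝ) (hs : s = 1 ∨ s = -1) :
    ∃ δ₀ > 0, ∀ δ, 0 < δ → δ < δ₀ → ∀ a : ℂ,
      ‖a - (v + (s * δ ^ 2 : ℝ) * (Complex.I * n))‖ < δ ^ 4 → Loc1 S v y y' a := by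
  by_contra hcon
  push Not at hcon
  have h1 : ∀ k : ℕ, ∃ δ : ℝ, 0 < δ ∧ δ < 1 / ((k : ℝ) + 1) ∧ ∃ a : ℂ,
      ‖a - (v + (s * δ ^ 2 : ℝ) * (Complex.I * n))‖ < δ ^ 4 ∧ ¬ Loc1 S v y y' a := fun k => by
    obtain ⟨δ, h1, h2, a, h3, h4⟩ := hcon (1 / ((k : ℝ) + 1)) (by positivity)
    exact ⟨δ, h1, h2, a, h3, h4⟩
  choose δ hδ0 hδ1 a ha hna using h1
  have hδlim : Tendsto δ atTop (𝓝 0) :=
    squeeze_zero (fun k => (hδ0 k).le) (fun k => (hδ1 k).le)
      tendsto_one_div_add_atTop_nhds_zero_nat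
  have hs0 : s ≠ 0 := by rcases hs with rfl | rfl <;> norm_num
  have H : Appr v (s * (Complex.I * n)) (fun k => δ k ^ 2) a := by
    refine ⟨fun k => pow_pos (hδ0 k) 2, ?_, ?_⟩
    · simpa using hδlim.pow 2
    · rw [tendsto_iff_norm_sub_tendsto_zero]
      have h2 : Tendsto (fun k => δ k ^ 2) atTop (𝓝 0) := by simpa using hδlim.pow 2
      refine squeeze_zero (fun k => norm_nonneg _) (fun k => ?_) h2
      have hd : (0 : ℝ) < δ k ^ 2 := pow_pos (hδ0 k) 2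
      have hd' : ((δ k ^ 2 : ℝ) : ℂ) ≠ 0 := by exact_mod_cast hd.ne'
      have e : (a k - v) / ((δ k ^ 2 : ℝ) : ℂ) - s * (Complex.I * n) =
          (a k - (v + (s * δ k ^ 2 : ℝ) * (Complex.I * n))) / ((δ k ^ 2 : ℝ) : ℂ) := by
        field_simp
        push_cast
        ring
      rw [e, norm_div, Complex.norm_real, Real.norm_of_nonneg hd.le, div_le_iff₀ hd]
      calc _ ≤ δ k ^ 4 := (ha k).le
        _ = δ k ^ 2 * δ k ^ 2 := by ring
  obtain ⟨k, hk⟩ := (loc1_of_appr hS h hs0 H).exists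
  exact hna k hk

end HPV
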