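import Pool.Agent.Helper28.HPV.GraphB

/-! T18 LocalA, first part: the structures, the compactness lemma, the set-up. -/

open MeasureTheory ProbabilityTheory Set Filter Topology
open scoped ENNReal NNReal Real

namespace HPV

/-- `a` is added near the vertex `v`; `y`, `y'` are the common neighbours of `v` and `a` -/
structure Loc1 (S : Set ℂ) (v y y' a : ℂ) : Prop where
  notMem : a ∉ S
  va : DAdj (insert a S) v a
  vy : DAdj (insert a S) v y
  ay : DAdj (insert a S) a y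
  vy' : DAdj (insert a S) v y'
  ay' : DAdj (insert a S) a y'
  a_sub : ∀ z, DAdj (insert a S) a z → z = v ∨ DAdj S v z
  cover : ∀ z, DAdj S v z → DAdj (insert a S) v z ∨ DAdj (insert a S) a z
  old : ∀ x z, x ≠ v → z ≠ v → DAdj S x z → DAdj (insert a S) x z
  shared : ∀ z, DAdj (insert a S) v z → DAdj (insert a S) a z → z = y ∨ z = y'

/-- `p` is a point whose neighbours in `insert p S₁` are exactly `v, a, y`, and no old edge is
destroyed -/
structure Loc2 (S₁ : Set ℂ) (v a y p : ℂ) : Prop where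
  notMem : p ∉ S₁
  nb : ∀ z, DAdj (insert p S₁) p z ↔ z = v ∨ z = a ∨ z = y
  old : ∀ x z, DAdj S₁ x z → DAdj (insert p S₁) x z

/-- the two maximal empty discs at `v` in the directions `n` and `-n` touch `S` (apart from `v`)
exactly at `y` and `y'` -/
structure Setup (S : Set ℂ) (v y y' n : ℂ) (ρ ρ' : ℝ) : Prop where
  hv : v ∈ S
  hy : y ∈ S
  hy' : y' ∈ S
  yv : y ≠ v
  yv' : y' ≠ v
  hn : ‖n‖ = 1
  hρ : 0 < ρ
  hρ' : 0 < ρ'
  inD : ‖v + ρ * n‖ + ρ < 1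
  inD' : ‖v - ρ' * n‖ + ρ' < 1
  sy : ‖y - (v + ρ * n)‖ = ρ
  sy' : ‖y' - (v - ρ' * n)‖ = ρ'
  emp : ∀ w ∈ S, w ≠ v → w ≠ y → ρ < ‖w - (v + ρ * n)‖
  emp' : ∀ w ∈ S, w ≠ v → w ≠ y' → ρ' < ‖w - (v - ρ' * n)‖

/-- compactness lemma (Lemma K) -/
theorem lemmaK {S : Set ℂ} (hS : Good S) {v : ℂ} (hv : v ∈ S) (c : ℕ → ℂ) (r : ℕ → ℝ) (z : ℕ → ℂ)
    {r₀ : ℝ} (hr₀ : 0 < r₀) (hr : ∀ k, r₀ ≤ r k) (hc : ∀ k, ‖c k‖ + r k < 1)
    (hemp : ∀ k, ∀ w ∈ S, r k ≤ ‖w - c k‖)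
    (hv' : Tendsto (fun k => ‖v - c k‖ - r k) atTop (𝓝 0))
    (hz : ∀ k, z k ∈ S ∧ z k ≠ v ∧ ‖z k - c k‖ = r k) :
    ∃ (φ : ℕ → ℕ) (c₀ : ℂ) (rr : ℝ) (z₀ : ℂ), StrictMono φ ∧ Tendsto (c ∘ φ) atTop (𝓝 c₀) ∧
      Tendsto (r ∘ φ) atTop (𝓝 rr) ∧ r₀ ≤ rr ∧ ‖c₀‖ + rr < 1 ∧ (∀ w ∈ S, rr ≤ ‖w - c₀‖) ∧
      ‖v - c₀‖ = rr ∧ (∀ k, z (φ k) = z₀) ∧ z₀ ∈ S ∧ z₀ ≠ v ∧ ‖z₀ - c₀‖ = rr ∧ DAdj S v z₀ := by
  have hcomp : IsCompact (Metric.closedBall (0 : ℂ) 1 ×ˢ Icc (0 : ℝ) 1) :=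
    (isCompact_closedBall _ _).prod isCompact_Icc
  have hmem : ∀ k, (c k, r k) ∈ Metric.closedBall (0 : ℂ) 1 ×ˢ Icc (0 : ℝ) 1 := by
    intro k
    have h1 := norm_nonneg (c k)
    have h2 := hr k
    have h3 := hc k
    refine ⟨?_, ?_, ?_⟩
    · simp only [Metric.mem_closedBall, dist_zero_right]; linarith
    · simp only; linarith
    · simp only; linarith
  obtain ⟨⟨c₀, rr⟩, -, φ₁, hφ₁, hlim⟩ := hcomp.tendsto_subseq hmem
  have hlc : Tendsto (c ∘ φ₁) atTop (𝓝 c₀) := (continuous_fst.tendsto _).comp hlim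
  have hlr : Tendsto (r ∘ φ₁) atTop (𝓝 rr) := (continuous_snd.tendsto _).comp hlim
  have h1 : r₀ ≤ rr := ge_of_tendsto' hlr fun k => hr _
  have h2 : ‖c₀‖ + rr ≤ 1 := le_of_tendsto' (hlc.norm.add hlr) fun k => (hc _).le
  have h3 : ∀ w ∈ S, rr ≤ ‖w - c₀‖ := fun w hw =>
    le_of_tendsto_of_tendsto' hlr ((tendsto_const_nhds.sub hlc).norm) fun k => hemp _ w hw
  have h4 : ‖v - c₀‖ = rr := by
    have h5 : Tendsto (fun k => ‖v - c (φ₁ k)‖ - r (φ₁ k)) atTop (𝓝 (‖v - c₀‖ - rr)) :=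
      ((tendsto_const_nhds.sub hlc).norm).sub hlr
    have h6 := tendsto_nhds_unique h5 (hv'.comp hφ₁.tendsto_atTop)
    linarith
  have h5 : ‖c₀‖ + rr < 1 := by
    rcases h2.lt_or_eq with h | h
    · exact h
    · exfalso
      obtain ⟨w, hw, hw2⟩ := hS.tangent_disc hv (hr₀.trans_le h1) h h4.le
      exact absurd (h3 w hw) (not_le.2 hw2)
  have hfin := hS.lf.2 ((1 + (‖c₀‖ + rr)) / 2) (by linarith)
  have h6 : ∀ᶠ k in atTop, z (φ₁ k) ∈ S ∩ Metric.closedBall 0 ((1 + (‖c₀‖ + rr)) / 2) := by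
    have h7 : ∀ᶠ k in atTop, ‖(c ∘ φ₁) k‖ + (r ∘ φ₁) k < (1 + (‖c₀‖ + rr)) / 2 :=
      (hlc.norm.add hlr).eventually_lt_const (by linarith)
    filter_upwards [h7] with k hk
    refine ⟨(hz _).1, ?_⟩
    rw [Metric.mem_closedBall, dist_zero_right]
    have h8 : ‖z (φ₁ k)‖ ≤ ‖c (φ₁ k)‖ + ‖z (φ₁ k) - c (φ₁ k)‖ := by
      have := norm_add_le (c (φ₁ k)) (z (φ₁ k) - c (φ₁ k))
      rwa [add_sub_cancel] at this
    rw [(hz _).2.2] at h8
    exact h8.trans hk.le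
  have h7 : ∃ z₀, ∃ᶠ k in atTop, z (φ₁ k) = z₀ := by
    by_contra hcon
    push Not at hcon
    have h8 : ∀ᶠ k in atTop, ∀ w ∈ S ∩ Metric.closedBall 0 ((1 + (‖c₀‖ + rr)) / 2),
        z (φ₁ k) ≠ w := by
      rw [Filter.eventually_all_finite hfin]
      intro w _
      exact hcon w
    obtain ⟨k, hk1, hk2⟩ := (h6.and h8).exists
    exact hk2 _ hk1 rfl
  obtain ⟨z₀, hz₀⟩ := h7
  obtain ⟨φ₂, hφ₂, hφz⟩ := Filter.extraction_of_frequently_atTop hz₀
  have h8 : z₀ ∈ S ∧ z₀ ≠ v := by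
    rw [← hφz 0]
    exact ⟨(hz _).1, (hz _).2.1⟩
  have hlc2 : Tendsto (c ∘ (φ₁ ∘ φ₂)) atTop (𝓝 c₀) := hlc.comp hφ₂.tendsto_atTop
  have hlr2 : Tendsto (r ∘ (φ₁ ∘ φ₂)) atTop (𝓝 rr) := hlr.comp hφ₂.tendsto_atTop
  have h9 : ‖z₀ - c₀‖ = rr := by
    have h10 : Tendsto (fun k => ‖z₀ - (c ∘ (φ₁ ∘ φ₂)) k‖) atTop (𝓝 ‖z₀ - c₀‖) :=
      (tendsto_const_nhds.sub hlc2).norm
    refine tendsto_nhds_unique h10 (hlr2.congr fun k => ?_)
    show r (φ₁ (φ₂ k)) = ‖z₀ - c (φ₁ (φ₂ k))‖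
    rw [← hφz k]
    exact (hz _).2.2.symm
  exact ⟨φ₁ ∘ φ₂, c₀, rr, z₀, hφ₁.comp hφ₂, hlc2, hlr2, h1, h5, h3, h4, hφz, h8.1, h8.2, h9,
    DAdj_of_empty hS hv h8.1 h8.2.symm h5 h4 h9 h3⟩

namespace LocA0

/-- real inner product of the plane -/
def ip (a b : ℂ) : ℝ := a.re * b.re + a.im * b.im

lemma sq_norm_add (w n : ℂ) (s : ℝ) :
    ‖w + s * n‖ ^ 2 = ‖w‖ ^ 2 + 2 * s * ip w n + s ^ 2 * ‖n‖ ^ 2 := by
  simp only [Complex.sq_norm, Complex.normSq_apply, Complex.add_re, Complex.add_im,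
    Complex.mul_re, Complex.mul_im, Complex.ofReal_re, Complex.ofReal_im, ip]
  ring

lemma sq_norm_sub_sub (w v n : ℂ) (s : ℝ) (hn : ‖n‖ = 1) :
    ‖w - (v - s * n)‖ ^ 2 = ‖w - v‖ ^ 2 + 2 * s * ip (w - v) n + s ^ 2 := by
  have h1 : w - (v - s * n) = (w - v) + s * n := by ring
  rw [h1, sq_norm_add, hn]
  ring

/-- a circle through `0`, `w`, `w'` has only one centre `-e` -/
lemma circ_unique {w w' e e' : ℂ} (hw : w ≠ 0) (hw' : w' ≠ 0) (hww : w ≠ w')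
    (h1 : ‖w‖ ^ 2 + 2 * ip w e = 0) (h2 : ‖w'‖ ^ 2 + 2 * ip w' e = 0)
    (h3 : ‖w‖ ^ 2 + 2 * ip w e' = 0) (h4 : ‖w'‖ ^ 2 + 2 * ip w' e' = 0) : e = e' := by
  obtain ⟨a, b⟩ := w
  obtain ⟨a', b'⟩ := w'
  obtain ⟨p, q⟩ := e
  obtain ⟨p', q'⟩ := e'
  simp only [Complex.sq_norm, Complex.normSq_apply, ip] at h1 h2 h3 h4
  have hD : a * b' - a' * b ≠ 0 := by
    intro hD
    have e1 : a' * (a * a + b * b) = a * (a' * a' + b' * b') := by
      linear_combination a' * h1 - a * h2 + 2 * q * hD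
    have e2 : b' * (a * a + b * b) = b * (a' * a' + b' * b') := by
      linear_combination b' * h1 - b * h2 - 2 * p * hD
    have hA : 0 < a * a + b * b := by
      rcases eq_or_ne a 0 with ha | ha
      · rcases eq_or_ne b 0 with hb | hb
        · exact absurd (by rw [ha, hb]; rfl) hw
        · have := mul_self_pos.2 hb
          have := mul_self_nonneg a
          linarith
      · have := mul_self_pos.2 ha
        have := mul_self_nonneg b
        linarith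
    have hB : 0 < a' * a' + b' * b' := by
      rcases eq_or_ne a' 0 with ha | ha
      · rcases eq_or_ne b' 0 with hb | hb
        · exact absurd (by rw [ha, hb]; rfl) hw'
        · have := mul_self_pos.2 hb
          have := mul_self_nonneg a'
          linarith
      · have := mul_self_pos.2 ha
        have := mul_self_nonneg b'
        linarith
    have e3 : (a' * a' + b' * b') * (a * a + b * b) * (a * a + b * b)
        = (a * a + b * b) * (a' * a' + b' * b') * (a' * a' + b' * b') := by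
      have e4 : (a' * (a * a + b * b)) ^ 2 + (b' * (a * a + b * b)) ^ 2 =
        (a * (a' * a' + b' * b')) ^ 2 + (b * (a' * a' + b' * b')) ^ 2 := by rw [e1, e2]
      linear_combination e4
    have e5 : a * a + b * b = a' * a' + b' * b' := by
      have e6 : (a * a + b * b) * (a' * a' + b' * b') * ((a * a + b * b) - (a' * a' + b' * b'))
          = 0 := by linear_combination e3
      rcases mul_eq_zero.1 e6 with h | h
      · exact absurd h (mul_pos hA hB).ne'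
      · linarith
    apply hww
    rw [e5] at e1 e2
    have e7 : a' = a := mul_right_cancel₀ hB.ne' e1
    have e8 : b' = b := mul_right_cancel₀ hB.ne' e2
    rw [e7, e8]
  have hp : (a * b' - a' * b) * (p - p') = 0 := by
    linear_combination (b' / 2) * h1 - (b' / 2) * h3 - (b / 2) * h2 + (b / 2) * h4
  have hq : (a * b' - a' * b) * (q - q') = 0 := by
    linear_combination (a / 2) * h2 - (a / 2) * h4 - (a' / 2) * h1 + (a' / 2) * h3
  have hp' : p = p' := by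
    rcases mul_eq_zero.1 hp with h | h
    · exact absurd h hD
    · linarith
  have hq' : q = q' := by
    rcases mul_eq_zero.1 hq with h | h
    · exact absurd h hD
    · linarith
  rw [hp', hq']

lemma countable_of_isLF {S : Set ℂ} (hS : IsLF S) : S.Countable := by
  have h1 : S ⊆ ⋃ n : ℕ, S ∩ Metric.closedBall 0 (1 - 1 / ((n : ℝ) + 1)) := by
    intro z hz
    have h2 : ‖z‖ < 1 := by simpa using hS.1 hz
    obtain ⟨n, hn⟩ := exists_nat_one_div_lt (sub_pos.2 h2)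
    refine mem_iUnion.2 ⟨n, hz, ?_⟩
    rw [Metric.mem_closedBall, dist_zero_right]
    linarith
  refine Countable.mono h1 (countable_iUnion fun n => ?_)
  refine (hS.2 _ ?_).countable
  have : (0 : ℝ) < 1 / ((n : ℝ) + 1) := by positivity
  linarith

/-- the maximal empty disc in the direction `-n` -/
lemma exists_max {S : Set ℂ} (hS : Good S) {v n : ℂ} (hv : v ∈ S) (hn : ‖n‖ = 1)
    (huniq : ∀ w ∈ S, ∀ w' ∈ S, w ≠ v → w' ≠ v → w ≠ w' → ∀ s : ℝ, 0 < s →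
      ¬ (‖w - (v - s * n)‖ = s ∧ ‖w' - (v - s * n)‖ = s)) :
    ∃ (y' : ℂ) (ρ' : ℝ), y' ∈ S ∧ y' ≠ v ∧ 0 < ρ' ∧ ‖v - ρ' * n‖ + ρ' < 1 ∧
      ‖y' - (v - ρ' * n)‖ = ρ' ∧ ∀ w ∈ S, w ≠ v → w ≠ y' → ρ' < ‖w - (v - ρ' * n)‖ := by
  have hv1 : ‖v‖ < 1 := by simpa using hS.lf.1 hv
  -- the tangent disc
  have hip : |ip v n| ≤ ‖v‖ := by
    have h1 : ip v n ^ 2 ≤ ‖v‖ ^ 2 * ‖n‖ ^ 2 := by
      simp only [Complex.sq_norm, Complex.normSq_apply, ip]
      nlinarith [sq_nonneg (v.re * n.im - v.im * n.re)]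
    rw [hn] at h1
    have h2 : ip v n ^ 2 ≤ ‖v‖ ^ 2 := by linarith
    exact abs_le_of_sq_le_sq h2 (norm_nonneg _)
  have hip1 : ip v n ≤ ‖v‖ := (le_abs_self _).trans hip
  have hnv : 0 ≤ ‖v‖ := norm_nonneg v
  have hpos : 0 < 1 - ip v n := by linarith
  set sm : ℝ := (1 - ‖v‖ ^ 2) / (2 * (1 - ip v n)) with hsm
  have hsm0 : 0 < sm := div_pos (by nlinarith) (by linarith)
  have hsm1 : sm < 1 := by
    rw [hsm, div_lt_one (by linarith)]
    nlinarith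
  have hlin : sm * (2 * (1 - ip v n)) = 1 - ‖v‖ ^ 2 := by
    rw [hsm]; field_simp
  have hsq : ∀ s : ℝ, ‖v - s * n‖ ^ 2 = ‖v‖ ^ 2 - 2 * s * ip v n + s ^ 2 := by
    intro s
    have h1 : v - s * n = v + ((-s : ℝ) : ℂ) * n := by push_cast; ring
    rw [h1, sq_norm_add, hn]
    ring
  have hsmeq : ‖v - sm * n‖ + sm = 1 := by
    have h1 : ‖v - sm * n‖ ^ 2 = (1 - sm) ^ 2 := by
      rw [hsq]; linarith
    have h2 : ‖v - sm * n‖ = 1 - sm := by
      rw [← abs_of_nonneg (norm_nonneg (v - sm * n)), ← abs_of_pos (sub_pos.2 hsm1)]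
      exact (sq_eq_sq_iff_abs_eq_abs _ _).1 h1
    linarith
  have hslt : ∀ s : ℝ, 0 < s → s < sm → ‖v - s * n‖ + s < 1 := by
    intro s hs0 hs
    have h1 : ‖v - s * n‖ ^ 2 < (1 - s) ^ 2 := by
      rw [hsq]
      have : s * (2 * (1 - ip v n)) < sm * (2 * (1 - ip v n)) :=
        mul_lt_mul_of_pos_right hs (by linarith)
      linarith
    have h2 : ‖v - s * n‖ < 1 - s := by
      apply lt_of_pow_lt_pow_left₀ 2 (by linarith) h1
    linarith
  obtain ⟨w₁, hw₁, hw₁'⟩ := hS.tangent_disc hv hsm0 hsmeq (by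
    have : v - (v - sm * n) = sm * n := by ring
    rw [this, norm_mul, hn, mul_one, Complex.norm_real, Real.norm_eq_abs, abs_of_pos hsm0])
  -- membership in terms of squares
  have hle : ∀ (w : ℂ) (s : ℝ), 0 < s →
      (‖w - (v - s * n)‖ ≤ s ↔ ‖w - v‖ ^ 2 + 2 * s * ip (w - v) n ≤ 0) := by
    intro w s hs
    rw [← sq_le_sq₀ (norm_nonneg _) hs.le, sq_norm_sub_sub _ _ _ _ hn]
    constructor <;> intro h <;> linarith
  have hlt : ∀ (w : ℂ) (s : ℝ), 0 < s →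
      (‖w - (v - s * n)‖ < s ↔ ‖w - v‖ ^ 2 + 2 * s * ip (w - v) n < 0) := by
    intro w s hs
    rw [← sq_lt_sq₀ (norm_nonneg _) hs.le, sq_norm_sub_sub _ _ _ _ hn]
    constructor <;> intro h <;> linarith
  set Φ : ℂ → ℝ := fun w => ‖w - v‖ ^ 2 / (-2 * ip (w - v) n) with hΦ
  have hneg : ∀ (w : ℂ) (s : ℝ), w ≠ v → 0 < s → ‖w - v‖ ^ 2 + 2 * s * ip (w - v) n ≤ 0 →
      ip (w - v) n < 0 := by
    intro w s hw hs h
    have h1 : 0 < ‖w - v‖ ^ 2 := by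
      have := norm_pos_iff.2 (sub_ne_zero.2 hw)
      positivity
    by_contra hcon
    push Not at hcon
    have : 0 ≤ 2 * s * ip (w - v) n := by positivity
    linarith
  have hΦle : ∀ (w : ℂ) (s : ℝ), ip (w - v) n < 0 →
      (‖w - v‖ ^ 2 + 2 * s * ip (w - v) n ≤ 0 ↔ Φ w ≤ s) := by
    intro w s h
    rw [hΦ]
    simp only
    rw [div_le_iff₀ (by linarith)]
    constructor <;> intro h <;> linarith
  have hΦlt : ∀ (w : ℂ) (s : ℝ), ip (w - v) n < 0 →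
      (‖w - v‖ ^ 2 + 2 * s * ip (w - v) n < 0 ↔ Φ w < s) := by
    intro w s h
    rw [hΦ]
    simp only
    rw [div_lt_iff₀ (by linarith)]
    constructor <;> intro h <;> linarith
  have hΦpos : ∀ w, w ≠ v → ip (w - v) n < 0 → 0 < Φ w := by
    intro w hw h
    have := norm_pos_iff.2 (sub_ne_zero.2 hw)
    exact div_pos (by positivity) (by linarith)
  have hw₁v : w₁ ≠ v := by
    rintro rfl
    rw [hlt _ _ hsm0] at hw₁'
    simp [ip] at hw₁'
  rw [hlt _ _ hsm0] at hw₁'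
  have hw₁n : ip (w₁ - v) n < 0 := hneg w₁ sm hw₁v hsm0 hw₁'.le
  have hs₁ : Φ w₁ < sm := (hΦlt _ _ hw₁n).1 hw₁'
  have hs₁0 : 0 < Φ w₁ := hΦpos _ hw₁v hw₁n
  set s₁ := Φ w₁ with hs₁def
  have hfin : {w | w ∈ S ∧ w ≠ v ∧ ‖w - (v - s₁ * n)‖ ≤ s₁}.Finite := by
    refine (hS.lf.2 (‖v - s₁ * n‖ + s₁) (hslt _ hs₁0 hs₁)).subset ?_
    rintro w ⟨h1, -, h3⟩
    refine ⟨h1, ?_⟩
    rw [Metric.mem_closedBall, dist_zero_right]
    have := norm_add_le (v - s₁ * n) (w - (v - s₁ * n))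
    rw [add_sub_cancel] at this
    linarith
  have hne : {w | w ∈ S ∧ w ≠ v ∧ ‖w - (v - s₁ * n)‖ ≤ s₁}.Nonempty := by
    refine ⟨w₁, hw₁, hw₁v, ?_⟩
    rw [hle _ _ hs₁0, hΦle _ _ hw₁n]
  obtain ⟨y', ⟨hy1, hy2, hy3⟩, hmin⟩ := Set.exists_min_image _ Φ hfin hne
  rw [hle _ _ hs₁0] at hy3
  have hy'n : ip (y' - v) n < 0 := hneg y' s₁ hy2 hs₁0 hy3
  have hρ0 : 0 < Φ y' := hΦpos _ hy2 hy'n
  have hρs : Φ y' ≤ s₁ := (hΦle _ _ hy'n).1 hy3
  have hsph : ∀ w, w ≠ v → ip (w - v) n < 0 → ∀ s, s = Φ w → ‖w - (v - s * n)‖ = s := by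
    intro w hw hwn s hs
    have hs0 : 0 < s := hs ▸ hΦpos w hw hwn
    have h1 : ‖w - (v - s * n)‖ ≤ s := by
      rw [hle _ _ hs0, hΦle _ _ hwn]
      exact hs.ge
    have h2 : ¬ ‖w - (v - s * n)‖ < s := by
      rw [hlt _ _ hs0, hΦlt _ _ hwn]
      exact not_lt.2 hs.le
    exact le_antisymm h1 (not_lt.1 h2)
  refine ⟨y', Φ y', hy1, hy2, hρ0, hslt _ hρ0 (hρs.trans_lt hs₁), hsph y' hy2 hy'n _ rfl, ?_⟩
  intro w hw hwv hwy
  by_contra hcon
  push Not at hcon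
  rw [hle _ _ hρ0] at hcon
  have hwn := hneg w _ hwv hρ0 hcon
  rw [hΦle _ _ hwn] at hcon
  have h1 : ‖w - (v - s₁ * n)‖ ≤ s₁ := by
    rw [hle _ _ hs₁0, hΦle _ _ hwn]
    exact hcon.trans hρs
  have h2 := hmin w ⟨hw, hwv, h1⟩
  have h3 : Φ w = Φ y' := le_antisymm hcon h2
  exact huniq w hw y' hy1 hwv hy2 hwy (Φ y') hρ0
    ⟨hsph w hwv hwn _ h3.symm, hsph y' hy2 hy'n _ rfl⟩

end LocA0

open LocA0 in
theorem exists_setup {S : Set ℂ} (hS : Good S) {v y : ℂ} (hvy : DAdj S v y) :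
    ∃ (y' n : ℂ) (ρ ρ' : ℝ), Setup S v y y' n ρ ρ' := by
  obtain ⟨hv, hy, hne, c₀, r₀, hin, hvc, hyc, hemp⟩ := hvy
  have hu : y - v ≠ 0 := sub_ne_zero.2 hne.symm
  have hu2 : 0 < ‖y - v‖ ^ 2 := by
    have := norm_pos_iff.2 hu
    positivity
  -- the pencil of circles through `v` and `y`
  set ct : ℝ → ℂ := fun t => c₀ + t * (Complex.I * (y - v)) with hct
  set rt : ℝ → ℝ := fun t => ‖v - ct t‖ with hrt
  have hct0 : ct 0 = c₀ := by simp [hct]
  have hrt0 : rt 0 = r₀ := by simp only [hrt, hct0, hvc]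
  have hctc : Continuous ct := by
    simp only [hct]
    fun_prop
  have hrtc : Continuous rt := by
    simp only [hrt]
    exact (continuous_const.sub hctc).norm
  have hyt : ∀ t, ‖y - ct t‖ = rt t := by
    intro t
    have h0 : ‖y - c₀‖ ^ 2 = ‖v - c₀‖ ^ 2 := by rw [hvc, hyc]
    have h1 : ‖y - ct t‖ ^ 2 = ‖v - ct t‖ ^ 2 := by
      simp only [hct, Complex.sq_norm, Complex.normSq_apply, Complex.sub_re, Complex.sub_im,
        Complex.add_re, Complex.add_im, Complex.mul_re, Complex.mul_im, Complex.ofReal_re,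
        Complex.ofReal_im, Complex.I_re, Complex.I_im] at h0 ⊢
      linear_combination h0
    have h2 := (sq_eq_sq_iff_abs_eq_abs _ _).1 h1
    rwa [abs_of_nonneg (norm_nonneg _), abs_of_nonneg (norm_nonneg _)] at h2
  -- the inner product with `y - v`
  have hipt : ∀ t, 2 * ip (ct t - v) (y - v) = ‖y - v‖ ^ 2 := by
    intro t
    have h0 : ‖y - c₀‖ ^ 2 = ‖v - c₀‖ ^ 2 := by rw [hvc, hyc]
    simp only [hct, ip, Complex.sq_norm, Complex.normSq_apply, Complex.sub_re, Complex.sub_im,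
      Complex.add_re, Complex.add_im, Complex.mul_re, Complex.mul_im, Complex.ofReal_re,
      Complex.ofReal_im, Complex.I_re, Complex.I_im] at h0 ⊢
    linear_combination -h0
  have hrtpos : ∀ t, 0 < rt t := by
    intro t
    rw [hrt]
    apply norm_pos_iff.2
    intro h
    have h1 := hipt t
    have h2 : ct t - v = 0 := by rw [← neg_sub, h, neg_zero]
    rw [h2] at h1
    simp only [ip, Complex.zero_re, Complex.zero_im, zero_mul, add_zero, mul_zero] at h1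
    linarith
  -- the good event
  have hev : ∀ᶠ t in 𝓝 (0 : ℝ), ‖ct t‖ + rt t < 1 ∧
      ∀ w ∈ S, w ≠ v → w ≠ y → rt t < ‖w - ct t‖ := by
    have h1 : ∀ᶠ t in 𝓝 (0 : ℝ), ‖ct t‖ + rt t < (1 + (‖c₀‖ + r₀)) / 2 := by
      have h2 : Tendsto (fun t => ‖ct t‖ + rt t) (𝓝 0) (𝓝 (‖ct 0‖ + rt 0)) :=
        (hctc.norm.add hrtc).tendsto 0
      rw [hct0, hrt0] at h2
      exact h2.eventually_lt_const (by linarith)
    have h3 : ∀ᶠ t in 𝓝 (0 : ℝ), ∀ w ∈ S ∩ Metric.closedBall 0 ((1 + (‖c₀‖ + r₀)) / 2),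
        w ≠ v → w ≠ y → rt t < ‖w - ct t‖ := by
      rw [Filter.eventually_all_finite (hS.lf.2 _ (by linarith))]
      rintro w ⟨hw, -⟩
      by_cases hwv : w = v
      · exact Eventually.of_forall fun t h => absurd hwv h
      by_cases hwy : w = y
      · exact Eventually.of_forall fun t _ h => absurd hwy h
      have h4 := hemp w hw hwv hwy
      have h5 : Tendsto (fun t => ‖w - ct t‖ - rt t) (𝓝 0) (𝓝 (‖w - ct 0‖ - rt 0)) :=
        (((continuous_const.sub hctc).norm).sub hrtc).tendsto 0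
      rw [hct0, hrt0] at h5
      filter_upwards [h5.eventually_const_lt (sub_pos.2 h4)] with t ht _ _
      linarith
    filter_upwards [h1, h3] with t ht1 ht3
    refine ⟨by linarith, fun w hw hwv hwy => ?_⟩
    by_cases hwb : w ∈ Metric.closedBall (0 : ℂ) ((1 + (‖c₀‖ + r₀)) / 2)
    · exact ht3 w ⟨hw, hwb⟩ hwv hwy
    · rw [Metric.mem_closedBall, dist_zero_right, not_le] at hwb
      have h4 : ‖w‖ ≤ ‖ct t‖ + ‖w - ct t‖ := by
        have := norm_add_le (ct t) (w - ct t)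
        rwa [add_sub_cancel] at this
      linarith
  -- the bad parameters
  set bad : ℂ × ℂ → Set ℝ := fun p => {t | p.1 ≠ v ∧ p.2 ≠ v ∧ p.1 ≠ p.2 ∧ ∃ s : ℝ, 0 < s ∧
    ‖p.1 - (v - s * ((ct t - v) / rt t))‖ = s ∧ ‖p.2 - (v - s * ((ct t - v) / rt t))‖ = s}
    with hbad
  have hnorm : ∀ t, ‖(ct t - v) / rt t‖ = 1 := by
    intro t
    rw [norm_div, Complex.norm_real, Real.norm_eq_abs, abs_of_pos (hrtpos t), norm_sub_rev]
    exact div_self (hrtpos t).ne'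
  have hsub : ∀ p, (bad p).Subsingleton := by
    rintro ⟨w, w'⟩ t ⟨hwv, hwv', hww, s, hs, h1, h2⟩ t' ⟨-, -, -, s', hs', h3, h4⟩
    simp only at hwv hwv' hww h1 h2 h3 h4
    have key : ∀ (z : ℂ) (τ σ : ℝ), 0 < σ → ‖z - (v - σ * ((ct τ - v) / rt τ))‖ = σ →
        ‖z - v‖ ^ 2 + 2 * ip (z - v) (((σ / rt τ : ℝ) : ℂ) * (ct τ - v)) = 0 := by
      intro z τ σ _ hz
      have h5 := sq_norm_sub_sub z v ((ct τ - v) / rt τ) σ (hnorm τ)
      rw [hz] at h5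
      have h6 : (ct τ - v) / rt τ = (((rt τ)⁻¹ : ℝ) : ℂ) * (ct τ - v) := by
        rw [Complex.ofReal_inv]; ring
      rw [h6] at h5
      simp only [ip, Complex.re_ofReal_mul, Complex.im_ofReal_mul] at h5 ⊢
      have h7 : σ / rt τ = σ * (rt τ)⁻¹ := div_eq_mul_inv _ _
      rw [h7]
      linear_combination -h5
    have h5 := circ_unique (sub_ne_zero.2 hwv) (sub_ne_zero.2 hwv')
      (fun h => hww (sub_left_injective h)) (key w t s hs h1) (key w' t s hs h2)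
      (key w t' s' hs' h3) (key w' t' s' hs' h4)
    -- compare the inner products with `y - v`
    have h6 : s / rt t = s' / rt t' := by
      have h7 : ip (((s / rt t : ℝ) : ℂ) * (ct t - v)) (y - v) =
          ip (((s' / rt t' : ℝ) : ℂ) * (ct t' - v)) (y - v) := by rw [h5]
      have h8 : ∀ (k : ℝ) (z u : ℂ), ip ((k : ℂ) * z) u = k * ip z u := by
        intro k z u
        simp only [ip, Complex.re_ofReal_mul, Complex.im_ofReal_mul]
        ring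
      rw [h8, h8] at h7
      have h9 := hipt t
      have h10 := hipt t'
      have h11 : (s / rt t) * ‖y - v‖ ^ 2 = (s' / rt t') * ‖y - v‖ ^ 2 := by
        rw [← h9]
        nth_rewrite 2 [h9]
        rw [← h10]
        linear_combination 2 * h7
      exact mul_right_cancel₀ hu2.ne' h11
    have hs'' : s / rt t ≠ 0 := (div_pos hs (hrtpos t)).ne'
    rw [← h6] at h5
    have h7 : ct t - v = ct t' - v := by
      have : (((s / rt t : ℝ)) : ℂ) ≠ 0 := by exact_mod_cast hs''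
      exact mul_left_cancel₀ this h5
    have h8 : ct t = ct t' := sub_left_injective h7
    simp only [hct, add_right_inj] at h8
    have h9 : Complex.I * (y - v) ≠ 0 := mul_ne_zero Complex.I_ne_zero hu
    exact_mod_cast mul_right_cancel₀ h9 h8
  have hcount : (⋃ p ∈ S ×ˢ S, bad p).Countable := by
    have hSc := countable_of_isLF hS.lf
    exact (hSc.prod hSc).biUnion fun p _ => (hsub p).countable
  obtain ⟨U, hU, hUo, hU0⟩ := eventually_nhds_iff.1 hev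
  obtain ⟨t, htU, htb⟩ := (hcount.dense_compl ℝ).inter_open_nonempty U hUo ⟨0, hU0⟩
  have htb' : ∀ w ∈ S, ∀ w' ∈ S, w ≠ v → w' ≠ v → w ≠ w' → ∀ s : ℝ, 0 < s →
      ¬ (‖w - (v - s * ((ct t - v) / rt t))‖ = s ∧ ‖w' - (v - s * ((ct t - v) / rt t))‖ = s) := by
    intro w hw w' hw' h1 h2 h3 s hs h4
    apply htb
    rw [mem_iUnion₂]
    exact ⟨(w, w'), ⟨hw, hw'⟩, h1, h2, h3, s, hs, h4.1, h4.2⟩
  obtain ⟨y', ρ', hy', hy'v, hρ', hin', hsy', hemp'⟩ := exists_max hS hv (hnorm t) htb'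
  have hct' : v + rt t * ((ct t - v) / rt t) = ct t := by
    have : ((rt t : ℝ) : ℂ) ≠ 0 := by exact_mod_cast (hrtpos t).ne'
    field_simp
    ring
  refine ⟨y', (ct t - v) / rt t, rt t, ρ', hv, hy, hy', hne.symm, hy'v, hnorm t, hrtpos t, hρ', ?_,
    hin', ?_, hsy', ?_, hemp'⟩
  · rw [hct']; exact (hU t htU).1
  · rw [hct']; exact hyt t
  · rw [hct']; exact (hU t htU).2

end HPV
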