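import Mathlib

/-!
# Hyperbolic Poisson Voronoi graph and its harmonic measure at infinity: definitions

Everything lives in the Poincare disc model, as subsets of the complex plane.
-/

open MeasureTheory ProbabilityTheory Set Filter Topology
open scoped ENNReal NNReal Real

namespace HPV

/-- The open unit disc. -/
abbrev disc : Set ℂ := Metric.ball (0 : ℂ) 1

/-- Hyperbolic distance (curvature `-1`) in the Poincare disc. -/
noncomputable def hdist (z w : ℂ) : ℝ :=
  2 * Real.arsinh (‖z - w‖ / √((1 - ‖z‖ ^ 2) * (1 - ‖w‖ ^ 2)))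

/-- Hyperbolic area of the Poincare disc, as a measure on the complex plane. -/
noncomputable def hypArea : Measure ℂ :=
  (volume.restrict disc).withDensity fun z => ENNReal.ofReal (4 / (1 - ‖z‖ ^ 2) ^ 2)

/-- The Voronoi cell of `x` with respect to the point set `S`. -/
def cell (S : Set ℂ) (x : ℂ) : Set ℂ := {z | z ∈ disc ∧ ∀ w ∈ S, hdist z x ≤ hdist z w}

/-- Adjacency in the dual graph of the Voronoi tessellation: the two (convex) cells have more than
one common point, that is, they share an arc of a geodesic. -/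
def VAdj (S : Set ℂ) (x y : ℂ) : Prop :=
  x ∈ S ∧ y ∈ S ∧ x ≠ y ∧ (cell S x ∩ cell S y).Nontrivial

/-- Lebesgue (arc length) measure on the unit circle, as a measure on the complex plane. -/
noncomputable def circ : Measure ℂ :=
  (volume.restrict (Ioc (-π) π)).map fun θ : ℝ => Complex.exp (θ * Complex.I)

/-- `X` is a Poisson point process on the Poincare disc whose intensity is `lam` times hyperbolic
area: the numbers of points in disjoint Borel sets of finite area are independent Poisson
variables with mean `lam` times the area. -/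
structure IsPoissonProcess {Ω : Type*} [MeasurableSpace Ω] (P : Measure Ω) (X : Ω → Set ℂ)
    (lam : ℝ) : Prop where
  sub : ∀ ω, X ω ⊆ disc
  meas : ∀ B, MeasurableSet B → ∀ k : ℕ, MeasurableSet {ω | (X ω ∩ B).encard = k}
  law : ∀ (m : ℕ) (B : Fin m → Set ℂ), (∀ i, MeasurableSet (B i)) →
    (Pairwise fun i j => Disjoint (B i) (B j)) → (∀ i, hypArea (B i) ≠ ∞) → ∀ k : Fin m → ℕ,
    P {ω | ∀ i, (X ω ∩ B i).encard = k i} =
      ∏ i, ENNReal.ofReal (Real.exp (-(lam * (hypArea (B i)).toReal)) *
        (lam * (hypArea (B i)).toReal) ^ (k i) / (k i).factorial)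

/-- `Y` is a simple random walk on the Voronoi graph of `S` started at `x₀`, on the probability
space `(Ω', Q)`: its finite dimensional distributions are products of the step probabilities
`1 / degree`. -/
structure IsSRW {Ω' : Type*} [MeasurableSpace Ω'] (S : Set ℂ) (x₀ : ℂ) (Q : Measure Ω')
    (Y : ℕ → Ω' → ℂ) : Prop where
  prob : IsProbabilityMeasure Q
  meas : ∀ n, Measurable (Y n)
  law : ∀ (n : ℕ) (z : ℕ → ℂ), Q {ω | ∀ i ≤ n, Y i ω = z i} =
    {w | w = x₀}.indicator 1 (z 0) * ∏ i ∈ Finset.range n,
      {w | VAdj S (z i) w}.indicator (fun _ => ({w | VAdj S (z i) w}.encard : ℝ≥0∞)⁻¹) (z (i + 1))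

/-- The harmonic measure at infinity: the law of the limit of the walk in the unit circle. -/
noncomputable def harmonicMeasure {Ω' : Type*} [MeasurableSpace Ω'] (Q : Measure Ω')
    (Y : ℕ → Ω' → ℂ) : Measure ℂ :=
  (Q.restrict {ω | ∃ ξ : ℂ, ‖ξ‖ = 1 ∧ Tendsto (fun n => Y n ω) atTop (𝓝 ξ)}).map
    fun ω => limUnder atTop fun n => Y n ω

end HPV
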