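import Pool.Agent.Helper28.HPV.MobDefs
import Pool.Agent.Helper28.HPV.PoissonB

/-! T3 MobA: Moebius transformations of the disc, basic identities and invariance. -/

set_option autoImplicit false

open MeasureTheory ProbabilityTheory Set Filter Topology
open scoped ENNReal NNReal Real ComplexConjugate

namespace HPV

namespace Mob

theorem det' (g : Mob) : g.a * conj g.a - g.b * conj g.b = 1 := by
  rw [Complex.mul_conj, Complex.mul_conj, ← Complex.ofReal_sub, Complex.normSq_eq_norm_sq,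
    Complex.normSq_eq_norm_sq, g.det, Complex.ofReal_one]

theorem b_lt_a (g : Mob) : ‖g.b‖ < ‖g.a‖ := by
  have := g.det
  nlinarith [norm_nonneg g.a, norm_nonneg g.b]

/-- lower bound of the denominator -/
theorem den_ge (g : Mob) {z : ℂ} (hz : ‖z‖ ≤ 1) : ‖g.a‖ - ‖g.b‖ ≤ ‖conj g.b * z + conj g.a‖ := by
  have h1 : ‖conj g.a‖ ≤ ‖conj g.b * z + conj g.a‖ + ‖conj g.b * z‖ := by
    have := norm_sub_le (conj g.b * z + conj g.a) (conj g.b * z)
    simpa using this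
  rw [norm_mul, Complex.norm_conj, Complex.norm_conj] at h1
  have h2 : ‖g.b‖ * ‖z‖ ≤ ‖g.b‖ * 1 := mul_le_mul_of_nonneg_left hz (norm_nonneg _)
  linarith

theorem den_le (g : Mob) {z : ℂ} (hz : ‖z‖ ≤ 1) : ‖conj g.b * z + conj g.a‖ ≤ ‖g.a‖ + ‖g.b‖ := by
  have h1 := norm_add_le (conj g.b * z) (conj g.a)
  rw [norm_mul, Complex.norm_conj, Complex.norm_conj] at h1
  have h2 : ‖g.b‖ * ‖z‖ ≤ ‖g.b‖ * 1 := mul_le_mul_of_nonneg_left hz (norm_nonneg _)
  linarith

theorem den_ne (g : Mob) {z : ℂ} (hz : ‖z‖ ≤ 1) : conj g.b * z + conj g.a ≠ 0 := by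
  intro h
  have := g.den_ge hz
  rw [h, norm_zero] at this
  linarith [g.b_lt_a]

theorem key (g : Mob) (z : ℂ) :
    ‖conj g.b * z + conj g.a‖ ^ 2 - ‖g.a * z + g.b‖ ^ 2 = 1 - ‖z‖ ^ 2 := by
  have h := g.det
  rw [← Complex.normSq_eq_norm_sq, ← Complex.normSq_eq_norm_sq, ← Complex.normSq_eq_norm_sq]
  rw [← Complex.normSq_eq_norm_sq, ← Complex.normSq_eq_norm_sq] at h
  simp only [Complex.normSq_apply, Complex.add_re, Complex.add_im, Complex.mul_re, Complex.mul_im,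
    Complex.conj_re, Complex.conj_im] at h ⊢
  linear_combination (1 - (z.re * z.re + z.im * z.im)) * h

theorem der_pos (g : Mob) {z : ℂ} (hz : ‖z‖ ≤ 1) : 0 < g.der z := by
  unfold der
  have : 0 < ‖conj g.b * z + conj g.a‖ := norm_pos_iff.2 (g.den_ne hz)
  positivity

theorem one_sub_norm_sq (g : Mob) {z : ℂ} (hz : ‖z‖ ≤ 1) :
    1 - ‖g.f z‖ ^ 2 = (1 - ‖z‖ ^ 2) * g.der z := by
  unfold f der
  have h0 : ‖conj g.b * z + conj g.a‖ ≠ 0 := norm_ne_zero_iff.2 (g.den_ne hz)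
  have hk := g.key z
  rw [norm_div, div_pow, ← hk]
  generalize ‖conj g.b * z + conj g.a‖ = Q at *
  field_simp

theorem mem_disc (g : Mob) {z : ℂ} (hz : z ∈ disc) : g.f z ∈ disc := by
  have h1 : ‖z‖ < 1 := by simpa using hz
  have h2 := g.one_sub_norm_sq h1.le
  have h3 := g.der_pos h1.le
  have h4 : 0 < 1 - ‖z‖ ^ 2 := by nlinarith [norm_nonneg z]
  have h5 : 0 < 1 - ‖g.f z‖ ^ 2 := by rw [h2]; positivity
  have : ‖g.f z‖ < 1 := by nlinarith [norm_nonneg (g.f z)]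
  simpa using this

theorem norm_eq_one (g : Mob) {z : ℂ} (hz : ‖z‖ = 1) : ‖g.f z‖ = 1 := by
  have h2 := g.one_sub_norm_sq hz.le
  rw [hz] at h2
  have h3 : ‖g.f z‖ ^ 2 = 1 := by linarith
  nlinarith [norm_nonneg (g.f z)]

theorem inv_inv (g : Mob) : g.inv.inv = g := by
  cases g
  simp [inv]

theorem inv_f (g : Mob) {z : ℂ} (hz : ‖z‖ ≤ 1) : g.inv.f (g.f z) = z := by
  have hq := g.den_ne hz
  have hd := g.det'
  simp only [f, inv, map_neg, Complex.conj_conj]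
  set q := conj g.b * z + conj g.a with hqd
  have h1 : conj g.a * ((g.a * z + g.b) / q) + -g.b = z / q := by
    rw [eq_div_iff hq]
    have : (conj g.a * ((g.a * z + g.b) / q) + -g.b) * q =
        conj g.a * (g.a * z + g.b) - g.b * q := by
      field_simp
      ring
    rw [this, hqd]
    linear_combination z * hd
  have h2 : -conj g.b * ((g.a * z + g.b) / q) + g.a = 1 / q := by
    rw [eq_div_iff hq]
    have : (-conj g.b * ((g.a * z + g.b) / q) + g.a) * q =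
        -conj g.b * (g.a * z + g.b) + g.a * q := by
      field_simp
    rw [this, hqd]
    linear_combination hd
  rw [h1, h2]
  field_simp

theorem f_inv (g : Mob) {z : ℂ} (hz : ‖z‖ ≤ 1) : g.f (g.inv.f z) = z := by
  have := g.inv.inv_f hz
  rwa [g.inv_inv] at this

theorem measurable_f (g : Mob) : Measurable g.f := by
  unfold f
  fun_prop

theorem continuousOn_f (g : Mob) : ContinuousOn g.f (Metric.closedBall 0 1) := by
  unfold f
  refine ContinuousOn.div (by fun_prop) (by fun_prop) ?_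
  intro z hz
  exact g.den_ne (by simpa using hz)

theorem sub_eq (g : Mob) {z w : ℂ} (hz : ‖z‖ ≤ 1) (hw : ‖w‖ ≤ 1) :
    g.f z - g.f w =
      (z - w) / ((conj g.b * z + conj g.a) * (conj g.b * w + conj g.a)) := by
  have h1 := g.den_ne hz
  have h2 := g.den_ne hw
  have hd := g.det'
  unfold f
  rw [div_sub_div _ _ h1 h2]
  congr 1
  linear_combination (z - w) * hd

theorem norm_sub_sq (g : Mob) {z w : ℂ} (hz : ‖z‖ ≤ 1) (hw : ‖w‖ ≤ 1) :
    ‖g.f z - g.f w‖ ^ 2 = ‖z - w‖ ^ 2 * g.der z * g.der w := by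
  rw [g.sub_eq hz hw, norm_div, norm_mul]
  unfold der
  have h1 : ‖conj g.b * z + conj g.a‖ ≠ 0 := norm_ne_zero_iff.2 (g.den_ne hz)
  have h2 : ‖conj g.b * w + conj g.a‖ ≠ 0 := norm_ne_zero_iff.2 (g.den_ne hw)
  field_simp

theorem lipschitz (g : Mob) : ∃ C : ℝ, ∀ z w, ‖z‖ ≤ 1 → ‖w‖ ≤ 1 →
    ‖g.f z - g.f w‖ ≤ C * ‖z - w‖ := by
  set m := ‖g.a‖ - ‖g.b‖ with hm
  have hm0 : 0 < m := sub_pos.2 g.b_lt_a
  refine ⟨1 / (m * m), fun z w hz hw => ?_⟩
  rw [g.sub_eq hz hw, norm_div, norm_mul]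
  have h1 := g.den_ge hz
  have h2 := g.den_ge hw
  rw [← hm] at h1 h2
  rw [div_le_iff₀ (mul_pos (hm0.trans_le h1) (hm0.trans_le h2))]
  have h3 : m * m ≤ ‖conj g.b * z + conj g.a‖ * ‖conj g.b * w + conj g.a‖ :=
    mul_le_mul h1 h2 hm0.le (hm0.le.trans h1)
  calc ‖z - w‖ = 1 / (m * m) * ‖z - w‖ * (m * m) := by field_simp
    _ ≤ 1 / (m * m) * ‖z - w‖ * (‖conj g.b * z + conj g.a‖ * ‖conj g.b * w + conj g.a‖) := by
        gcongr

theorem hdist_f (g : Mob) {z w : ℂ} (hz : z ∈ disc) (hw : w ∈ disc) :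
    hdist (g.f z) (g.f w) = hdist z w := by
  have hz1 : ‖z‖ < 1 := by simpa using hz
  have hw1 : ‖w‖ < 1 := by simpa using hw
  have dz := g.der_pos hz1.le
  have dw := g.der_pos hw1.le
  have h4 : 0 < 1 - ‖z‖ ^ 2 := by nlinarith [norm_nonneg z]
  have h5 : 0 < 1 - ‖w‖ ^ 2 := by nlinarith [norm_nonneg w]
  unfold hdist
  congr 2
  have h1 : ‖g.f z - g.f w‖ = ‖z - w‖ * √(g.der z * g.der w) := by
    have h := g.norm_sub_sq hz1.le hw1.le
    rw [← Real.sqrt_sq (norm_nonneg (g.f z - g.f w)), h, mul_assoc,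
      Real.sqrt_mul (sq_nonneg _), Real.sqrt_sq (norm_nonneg _)]
  have h2 : √((1 - ‖g.f z‖ ^ 2) * (1 - ‖g.f w‖ ^ 2)) =
      √((1 - ‖z‖ ^ 2) * (1 - ‖w‖ ^ 2)) * √(g.der z * g.der w) := by
    rw [g.one_sub_norm_sq hz1.le, g.one_sub_norm_sq hw1.le, ← Real.sqrt_mul (by positivity)]
    congr 1
    ring
  rw [h1, h2]
  have h3 : 0 < √(g.der z * g.der w) := Real.sqrt_pos.2 (by positivity)
  rw [mul_div_mul_right _ _ h3.ne']

theorem injOn_f (g : Mob) : InjOn g.f {z | ‖z‖ ≤ 1} := by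
  intro z hz w hw h
  rw [← g.inv_f hz, h, g.inv_f hw]

theorem injOn_disc (g : Mob) : InjOn g.f disc :=
  g.injOn_f.mono fun z hz => by
    have : ‖z‖ < 1 := by simpa using hz
    exact this.le

theorem isLF_image (g : Mob) {S : Set ℂ} (hS : IsLF S) : IsLF (g.f '' S) := by
  refine ⟨?_, ?_⟩
  · rintro _ ⟨z, hz, rfl⟩
    exact g.mem_disc (hS.1 hz)
  · intro r hr
    rcases lt_or_ge r 0 with hr0 | hr0
    · rw [Metric.closedBall_eq_empty.2 hr0, inter_empty]
      exact finite_empty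
    set M := ‖g.inv.a‖ + ‖g.inv.b‖ with hM
    have hM0 : 0 < M := by
      have := g.inv.b_lt_a
      have h0 := norm_nonneg g.inv.b
      linarith
    set c := (1 - r ^ 2) * (1 / M ^ 2) with hc
    have hc0 : 0 < c := by
      have : 0 < 1 - r ^ 2 := by nlinarith
      positivity
    have hbound : ∀ w : ℂ, ‖w‖ ≤ r → ‖g.inv.f w‖ ≤ √(1 - c) := by
      intro w hw
      have hw1 : ‖w‖ ≤ 1 := hw.trans hr.le
      have h1 := g.inv.one_sub_norm_sq hw1
      have h2 : 1 / M ^ 2 ≤ g.inv.der w := by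
        unfold der
        have h3 := g.inv.den_le hw1
        rw [← hM] at h3
        have h4 : 0 < ‖conj g.inv.b * w + conj g.inv.a‖ := norm_pos_iff.2 (g.inv.den_ne hw1)
        gcongr
      have h3 : 1 - r ^ 2 ≤ 1 - ‖w‖ ^ 2 := by nlinarith [norm_nonneg w]
      have h4 : c ≤ 1 - ‖g.inv.f w‖ ^ 2 := by
        rw [h1, hc]
        have h6 : 0 ≤ 1 - ‖w‖ ^ 2 := by nlinarith [norm_nonneg w]
        have h7 : 0 < 1 / M ^ 2 := by positivity
        exact mul_le_mul h3 h2 h7.le h6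
      exact Real.le_sqrt_of_sq_le (by linarith)
    have hlt : √(1 - c) < 1 := by
      rw [Real.sqrt_lt' one_pos]
      linarith
    refine ((hS.2 _ hlt).image g.f).subset ?_
    rintro _ ⟨⟨z, hz, rfl⟩, hz2⟩
    refine ⟨z, ⟨hz, ?_⟩, rfl⟩
    have hz1 : ‖z‖ < 1 := by simpa using hS.1 hz
    have h2 : ‖g.f z‖ ≤ r := by simpa using hz2
    have h3 := hbound _ h2
    rw [g.inv_f hz1.le] at h3
    simpa using h3

/-- action on configurations -/
def act (g : Mob) (S : Cfg) : Cfg := ⟨g.f '' S.1, g.isLF_image S.2⟩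

theorem encard_act (g : Mob) (S : Cfg) (B : Set ℂ) :
    ((g.act S).1 ∩ B).encard = (S.1 ∩ g.f ⁻¹' B).encard := by
  have h : (g.act S).1 ∩ B = g.f '' (S.1 ∩ g.f ⁻¹' B) := by
    show g.f '' S.1 ∩ B = _
    rw [image_inter_preimage]
  rw [h]
  exact (g.injOn_disc.mono fun z hz => S.2.1 hz.1).encard_image

theorem measurable_act (g : Mob) : Measurable g.act := by
  refine measurable_cfg fun B hB => ?_
  have : (fun x : Cfg => (((g.act x).1 ∩ B).encard : ℝ≥0∞)) = fun x => cnt x (g.f ⁻¹' B) := by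
    ext x
    rw [g.encard_act, cnt_apply _ _ (g.measurable_f hB)]
  rw [this]
  exact Kernel.measurable_coe cnt (g.measurable_f hB)

theorem act_ins (g : Mob) {p : ℂ} (hp : p ∈ disc) (S : Cfg) :
    g.act (ins p S) = ins (g.f p) (g.act S) := by
  apply Subtype.ext
  show g.f '' (insSet p S.1) = insSet (g.f p) (g.f '' S.1)
  ext z
  constructor
  · rintro ⟨w, hw | ⟨rfl, hw⟩, rfl⟩
    · exact Or.inl ⟨w, hw, rfl⟩
    · exact Or.inr ⟨rfl, g.mem_disc hw⟩
  · rintro (⟨w, hw, rfl⟩ | ⟨rfl, -⟩)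
    · exact ⟨w, Or.inl hw, rfl⟩
    · exact ⟨p, Or.inr ⟨rfl, hp⟩, rfl⟩

theorem act_inv (g : Mob) (S : Cfg) : g.act (g.inv.act S) = S := by
  apply Subtype.ext
  show g.f '' (g.inv.f '' S.1) = S.1
  rw [image_image]
  have : ∀ z ∈ S.1, g.f (g.inv.f z) = z := fun z hz => by
    have : ‖z‖ < 1 := by simpa using S.2.1 hz
    exact g.f_inv this.le
  rw [image_congr this, image_id']

theorem inv_act (g : Mob) (S : Cfg) : g.inv.act (g.act S) = S := by
  have := g.inv.act_inv S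
  rwa [g.inv_inv] at this

/-- the complex derivative -/
theorem hasDerivAt_f (g : Mob) {z : ℂ} (hz : ‖z‖ ≤ 1) :
    HasDerivAt g.f (1 / (conj g.b * z + conj g.a) ^ 2) z := by
  have hq := g.den_ne hz
  have hd := g.det'
  have h1 : HasDerivAt (fun z : ℂ => g.a * z + g.b) g.a z := by
    simpa using ((hasDerivAt_id z).const_mul g.a).add_const g.b
  have h2 : HasDerivAt (fun z : ℂ => conj g.b * z + conj g.a) (conj g.b) z := by
    simpa using ((hasDerivAt_id z).const_mul (conj g.b)).add_const (conj g.a)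
  have h3 := h1.div h2 hq
  refine h3.congr_deriv ?_
  congr 1
  linear_combination hd

/-- the determinant of multiplication by a complex number -/
theorem det_mul (c : ℂ) :
    ((ContinuousLinearMap.toSpanSingleton ℂ c : ℂ →L[ℂ] ℂ).restrictScalars ℝ :
      ℂ →L[ℝ] ℂ).det = ‖c‖ ^ 2 := by
  have h : ((ContinuousLinearMap.toSpanSingleton ℂ c : ℂ →L[ℂ] ℂ).restrictScalars ℝ :
      ℂ →L[ℝ] ℂ).toLinearMap = LinearMap.mul ℝ ℂ c := by
    ext
    all_goals simp [mul_comm]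
  rw [ContinuousLinearMap.det, h]
  have h2 := Algebra.norm_complex_apply c
  rw [Algebra.norm_apply] at h2
  rw [← Complex.normSq_eq_norm_sq, ← h2]
  rfl

theorem measurePreserving_hypArea (g : Mob) : MeasurePreserving g.f hypArea hypArea := by
  refine ⟨g.measurable_f, ?_⟩
  ext B hB
  rw [Measure.map_apply g.measurable_f hB]
  have hw : Measurable fun z : ℂ => ENNReal.ofReal (4 / (1 - ‖z‖ ^ 2) ^ 2) := by fun_prop
  have hB' := g.measurable_f hB
  unfold hypArea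
  rw [withDensity_apply _ hB', withDensity_apply _ hB, Measure.restrict_restrict hB',
    Measure.restrict_restrict hB]
  set s := g.f ⁻¹' B ∩ disc with hs
  have hsm : MeasurableSet s := hB'.inter measurableSet_ball
  have himg : g.f '' s = B ∩ disc := by
    ext w
    constructor
    · rintro ⟨z, ⟨hz1, hz2⟩, rfl⟩
      exact ⟨hz1, g.mem_disc hz2⟩
    · rintro ⟨hw1, hw2⟩
      have h1 : ‖w‖ < 1 := by simpa using hw2
      refine ⟨g.inv.f w, ⟨?_, g.inv.mem_disc hw2⟩, g.f_inv h1.le⟩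
      show g.f (g.inv.f w) ∈ B
      rw [g.f_inv h1.le]
      exact hw1
  have hcv := lintegral_image_eq_lintegral_abs_det_fderiv_mul volume hsm
    (f := g.f)
    (f' := fun z => (ContinuousLinearMap.toSpanSingleton ℂ
      (1 / (conj g.b * z + conj g.a) ^ 2) : ℂ →L[ℂ] ℂ).restrictScalars ℝ)
    (fun z hz => by
      have h1 : ‖z‖ < 1 := by simpa using hz.2
      exact ((g.hasDerivAt_f h1.le).hasFDerivAt.restrictScalars ℝ).hasFDerivWithinAt)
    (g.injOn_disc.mono inter_subset_right)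
    (fun z => ENNReal.ofReal (4 / (1 - ‖z‖ ^ 2) ^ 2))
  rw [himg] at hcv
  rw [hcv]
  refine setLIntegral_congr_fun hsm fun z hz => ?_
  have h1 : ‖z‖ < 1 := by simpa using hz.2
  have hder := g.der_pos h1.le
  have h4 : 0 < 1 - ‖z‖ ^ 2 := by nlinarith [norm_nonneg z]
  rw [← ENNReal.ofReal_mul (abs_nonneg _), det_mul, abs_of_nonneg (sq_nonneg _),
    g.one_sub_norm_sq h1.le]
  congr 1
  have h5 : ‖1 / (conj g.b * z + conj g.a) ^ 2‖ = g.der z := by
    unfold der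
    rw [norm_div, norm_pow, norm_one]
  rw [h5]
  field_simp

/-- the Poisson law is invariant -/
theorem measurePreserving_act (g : Mob) {μ : Measure Cfg} {lam : ℝ} (h : IsPoissonLaw μ lam) :
    MeasurePreserving g.act μ μ := by
  refine ⟨g.measurable_act, ?_⟩
  refine IsPoissonLaw.unique (lam := lam) ⟨h.pos, ?_⟩ h
  intro m B hB hdisj hfin k
  have hpre : ∀ i, hypArea (g.f ⁻¹' B i) = hypArea (B i) := fun i =>
    g.measurePreserving_hypArea.measure_preimage (hB i).nullMeasurableSet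
  have hmeas : MeasurableSet {S : Cfg | ∀ i, (S.1 ∩ B i).encard = k i} := by
    have : {S : Cfg | ∀ i, (S.1 ∩ B i).encard = k i} =
        ⋂ i, (fun S : Cfg => cnt S (B i)) ⁻¹' {((k i : ℕ∞) : ℝ≥0∞)} := by
      ext S
      simp only [mem_ofPred_eq, mem_iInter, mem_preimage, mem_singleton_iff]
      refine forall_congr' fun i => ?_
      rw [cnt_apply _ _ (hB i)]
      constructor
      · intro h; rw [h]
      · intro h; exact_mod_cast h
    rw [this]
    exact MeasurableSet.iInter fun i => Kernel.measurable_coe cnt (hB i) (measurableSet_singleton _)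
  rw [Measure.map_apply g.measurable_act hmeas]
  have hset : g.act ⁻¹' {S : Cfg | ∀ i, (S.1 ∩ B i).encard = k i} =
      {S : Cfg | ∀ i, (S.1 ∩ g.f ⁻¹' B i).encard = k i} := by
    ext S
    simp only [mem_preimage, mem_ofPred_eq, g.encard_act]
  rw [hset, h.law m (fun i => g.f ⁻¹' B i) (fun i => g.measurable_f (hB i))
    (fun i j hij => (hdisj hij).preimage _) (fun i => by rw [hpre]; exact hfin i) k]
  simp only [hpre]

theorem rot_f (θ : ℝ) (z : ℂ) : (rot θ).f z = Complex.exp (θ * Complex.I) * z := by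
  simp only [rot, f, map_zero, zero_mul, add_zero, zero_add]
  rw [← Complex.exp_conj, map_mul, Complex.conj_ofReal, Complex.conj_I, mul_div_right_comm,
    ← Complex.exp_sub]
  congr 2
  push_cast
  ring

theorem rot_der (θ : ℝ) (z : ℂ) : (rot θ).der z = 1 := by
  simp only [rot, der, map_zero, zero_mul, zero_add, Complex.norm_conj]
  rw [Complex.norm_exp_ofReal_mul_I]
  norm_num

theorem tr_f (t : ℝ) (ht : t ^ 2 < 1) {z : ℂ} (_hz : ‖z‖ ≤ 1) :
    (tr t ht).f z = (z + t) / (1 + t * z) := by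
  have h : 0 < √(1 - t ^ 2) := Real.sqrt_pos.2 (by linarith)
  have h' : ((√(1 - t ^ 2) : ℝ) : ℂ) ≠ 0 := Complex.ofReal_ne_zero.2 h.ne'
  simp only [tr, f, Complex.conj_ofReal]
  push_cast
  have e1 : 1 / ((√(1 - t ^ 2) : ℝ) : ℂ) * z + t / ((√(1 - t ^ 2) : ℝ) : ℂ) =
      (z + t) / ((√(1 - t ^ 2) : ℝ) : ℂ) := by ring
  have e2 : t / ((√(1 - t ^ 2) : ℝ) : ℂ) * z + 1 / ((√(1 - t ^ 2) : ℝ) : ℂ) =
      (1 + t * z) / ((√(1 - t ^ 2) : ℝ) : ℂ) := by ring
  rw [e1, e2, div_div_div_cancel_right₀ h']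

theorem tr_inv_f (t : ℝ) (ht : t ^ 2 < 1) {z : ℂ} (_hz : ‖z‖ ≤ 1) :
    (tr t ht).inv.f z = (z - t) / (1 - t * z) := by
  have h : 0 < √(1 - t ^ 2) := Real.sqrt_pos.2 (by linarith)
  have h' : ((√(1 - t ^ 2) : ℝ) : ℂ) ≠ 0 := Complex.ofReal_ne_zero.2 h.ne'
  simp only [tr, inv, f, Complex.conj_ofReal, map_neg]
  push_cast
  have e1 : 1 / ((√(1 - t ^ 2) : ℝ) : ℂ) * z + -(t / ((√(1 - t ^ 2) : ℝ) : ℂ)) =
      (z - t) / ((√(1 - t ^ 2) : ℝ) : ℂ) := by ring
  have e2 : -(t / ((√(1 - t ^ 2) : ℝ) : ℂ)) * z + 1 / ((√(1 - t ^ 2) : ℝ) : ℂ) =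
      (1 - t * z) / ((√(1 - t ^ 2) : ℝ) : ℂ) := by ring
  rw [e1, e2, div_div_div_cancel_right₀ h']

theorem tr_der (t : ℝ) (ht : t ^ 2 < 1) (z : ℂ) :
    (tr t ht).der z = (1 - t ^ 2) / ‖1 + t * z‖ ^ 2 := by
  have h : 0 < √(1 - t ^ 2) := Real.sqrt_pos.2 (by linarith)
  simp only [tr, der, Complex.conj_ofReal]
  have e2 : (((t / √(1 - t ^ 2) : ℝ) : ℂ) * z + ((1 / √(1 - t ^ 2) : ℝ) : ℂ)) =
      (1 + t * z) / ((√(1 - t ^ 2) : ℝ) : ℂ) := by push_cast; ring
  rw [e2, norm_div, div_pow, Complex.norm_real, Real.norm_eq_abs, sq_abs,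
    Real.sq_sqrt (by linarith), one_div_div]

/-- the automorphism which moves `0` to `x` -/
noncomputable def mv (x : ℂ) (hx : x ∈ disc) : Mob :=
  ⟨((1 / √(1 - ‖x‖ ^ 2) : ℝ) : ℂ), ((1 / √(1 - ‖x‖ ^ 2) : ℝ) : ℂ) * x, by
    have h1 : ‖x‖ < 1 := by simpa using hx
    have h : 0 < 1 - ‖x‖ ^ 2 := by nlinarith [norm_nonneg x]
    rw [norm_mul, Complex.norm_real, Real.norm_eq_abs, mul_pow, sq_abs, div_pow, Real.sq_sqrt h.le]
    field_simp⟩

theorem mv_zero (x : ℂ) (hx : x ∈ disc) : (mv x hx).f 0 = x := by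
  have h1 : ‖x‖ < 1 := by simpa using hx
  have h : 0 < √(1 - ‖x‖ ^ 2) := Real.sqrt_pos.2 (by nlinarith [norm_nonneg x])
  have h' : ((1 / √(1 - ‖x‖ ^ 2) : ℝ) : ℂ) ≠ 0 := Complex.ofReal_ne_zero.2 (by positivity)
  simp only [mv, f, mul_zero, zero_add, Complex.conj_ofReal]
  rw [mul_div_cancel_left₀ _ h']

end Mob

end HPV
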