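import Pool.Agent.Helper28.HPV.MobA

/-! T4 MobB: change of variables on the circle, Liouville measure. -/

set_option autoImplicit false

open MeasureTheory ProbabilityTheory Set Filter Topology
open scoped ENNReal NNReal Real ComplexConjugate

namespace HPV

theorem measurable_exp_mul_I : Measurable fun θ : ℝ => Complex.exp (θ * Complex.I) := by
  fun_prop

instance : IsFiniteMeasure circ := by
  unfold circ
  infer_instance

theorem lintegral_circ {F : ℂ → ℝ≥0∞} (hF : Measurable F) :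
    ∫⁻ ξ, F ξ ∂circ = ∫⁻ θ in Ioc (-π) π, F (Complex.exp (θ * Complex.I)) := by
  unfold circ
  rw [lintegral_map hF measurable_exp_mul_I]

theorem ae_circ : ∀ᵐ ξ ∂circ, ‖ξ‖ = 1 := by
  have hm : MeasurableSet {ξ : ℂ | ‖ξ‖ = 1} := measurableSet_eq_fun (by fun_prop) (by fun_prop)
  unfold circ
  rw [ae_map_iff measurable_exp_mul_I.aemeasurable hm]
  exact Eventually.of_forall fun θ => Complex.norm_exp_ofReal_mul_I θ

/-- translation invariance for functions of period `2π` -/
theorem lintegral_shift {G : ℝ → ℝ≥0∞} (hG : ∀ x, G (x + 2 * π) = G x) (θ : ℝ) :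
    ∫⁻ x in Ioc (-π) π, G (x + θ) = ∫⁻ x in Ioc (-π) π, G x := by
  have h1 : ∫⁻ x in Ioc (-π) π, G (x + θ) = ∫⁻ x in Ioc (-π + θ) (π + θ), G x := by
    have hmp : MeasurePreserving (fun x : ℝ => x + θ) volume volume :=
      measurePreserving_add_right volume θ
    have hemb : MeasurableEmbedding (fun x : ℝ => x + θ) := measurableEmbedding_addRight θ
    have hpre : (fun x : ℝ => x + θ) ⁻¹' Ioc (-π + θ) (π + θ) = Ioc (-π) π := by
      ext x
      simp only [mem_preimage, mem_Ioc]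
      constructor <;> rintro ⟨a, b⟩ <;> constructor <;> linarith
    rw [← hpre, hmp.setLIntegral_comp_preimage_emb hemb]
  rw [h1]
  have e1 : Ioc (-π + θ) (π + θ) = Ioc (-π + θ) ((-π + θ) + 2 * π) := by congr 1; ring
  have e2 : Ioc (-π) π = Ioc (-π) (-π + 2 * π) := by congr 1; ring
  rw [e1, e2]
  have d1 := isAddFundamentalDomain_Ioc (T := 2 * π) Real.two_pi_pos (-π + θ) (volume : Measure ℝ)
  have d2 := isAddFundamentalDomain_Ioc (T := 2 * π) Real.two_pi_pos (-π) (volume : Measure ℝ)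
  refine d1.setLIntegral_eq d2 G ?_
  rintro ⟨_, k, rfl⟩ x
  show G (k • (2 * π) + x) = G x
  have hper : Function.Periodic G (2 * π) := hG
  rw [add_comm]
  exact hper.zsmul k x

namespace Mob

/-- change of variables on the circle for the rotations -/
theorem circ_rot (θ : ℝ) : MeasurePreserving (rot θ).f circ circ := by
  refine ⟨(rot θ).measurable_f, ?_⟩
  refine Measure.ext_of_lintegral _ fun F hF => ?_
  rw [lintegral_map hF (rot θ).measurable_f,
    lintegral_circ (F := fun ξ => F ((rot θ).f ξ)) (hF.comp (rot θ).measurable_f),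
    lintegral_circ hF]
  have h : ∀ x : ℝ, F ((rot θ).f (Complex.exp (x * Complex.I))) =
      (fun y : ℝ => F (Complex.exp (y * Complex.I))) (x + θ) := by
    intro x
    simp only [rot_f]
    congr 1
    rw [← Complex.exp_add]
    congr 1
    push_cast
    ring
  simp_rw [h]
  refine lintegral_shift (G := fun y : ℝ => F (Complex.exp (y * Complex.I))) (fun x => ?_) θ
  congr 1
  push_cast
  rw [add_mul, Complex.exp_add, Complex.exp_two_pi_mul_I, mul_one]

/-- the angle map of the translation -/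
noncomputable def ang (t θ : ℝ) : ℝ := θ - 2 * Real.arctan (t * Real.sin θ / (1 + t * Real.cos θ))

theorem one_add_pos {t : ℝ} (ht : t ^ 2 < 1) (θ : ℝ) : 0 < 1 + t * Real.cos θ := by
  have h1 : |t| < 1 := by
    rw [← sq_lt_one_iff_abs_lt_one]; exact ht
  have h2 : |t * Real.cos θ| ≤ |t| := by
    rw [abs_mul]
    exact mul_le_of_le_one_right (abs_nonneg _) (Real.abs_cos_le_one θ)
  have h3 := abs_lt.1 (h2.trans_lt h1)
  linarith [h3.1]

theorem quad_pos {t : ℝ} (ht : t ^ 2 < 1) (θ : ℝ) : 0 < 1 + 2 * t * Real.cos θ + t ^ 2 := by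
  have h1 := one_add_pos ht θ
  have h2 := Real.sin_sq_add_cos_sq θ
  have : 1 + 2 * t * Real.cos θ + t ^ 2 = (1 + t * Real.cos θ) ^ 2 + (t * Real.sin θ) ^ 2 := by
    linear_combination (-t ^ 2) * h2
  rw [this]
  positivity

theorem norm_sq_one_add (t θ : ℝ) :
    ‖1 + t * Complex.exp (θ * Complex.I)‖ ^ 2 = 1 + 2 * t * Real.cos θ + t ^ 2 := by
  rw [← Complex.normSq_eq_norm_sq, Complex.exp_mul_I, ← Complex.ofReal_cos, ← Complex.ofReal_sin]
  have h2 := Real.sin_sq_add_cos_sq θ
  simp only [Complex.normSq_apply, Complex.add_re, Complex.add_im, Complex.mul_re, Complex.mul_im,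
    Complex.ofReal_re, Complex.ofReal_im, Complex.one_re, Complex.one_im, Complex.I_re,
    Complex.I_im]
  linear_combination (t ^ 2) * h2

theorem hasDerivAt_ang {t : ℝ} (ht : t ^ 2 < 1) (θ : ℝ) :
    HasDerivAt (ang t) ((1 - t ^ 2) / (1 + 2 * t * Real.cos θ + t ^ 2)) θ := by
  have h1 := one_add_pos ht θ
  have h3 := quad_pos ht θ
  have h2 := Real.sin_sq_add_cos_sq θ
  have hu : HasDerivAt (fun θ => t * Real.sin θ / (1 + t * Real.cos θ))
      ((t * Real.cos θ + t ^ 2) / (1 + t * Real.cos θ) ^ 2) θ := by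
    have := ((Real.hasDerivAt_sin θ).const_mul t).div
      (((Real.hasDerivAt_cos θ).const_mul t).const_add 1) h1.ne'
    refine this.congr_deriv ?_
    congr 1
    linear_combination (t ^ 2) * h2
  have h4 := (hasDerivAt_id θ).sub (hu.arctan.const_mul 2)
  refine h4.congr_deriv ?_
  have h5 : 1 + (t * Real.sin θ / (1 + t * Real.cos θ)) ^ 2 =
      (1 + 2 * t * Real.cos θ + t ^ 2) / (1 + t * Real.cos θ) ^ 2 := by
    field_simp
    linear_combination (t ^ 2) * h2
  rw [h5]
  field_simp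
  ring

theorem exp_two_arctan (x y : ℝ) (hx : 0 < x) :
    Complex.exp (((-(2 * Real.arctan (y / x)) : ℝ) : ℂ) * Complex.I) =
      ((x : ℂ) - y * Complex.I) / ((x : ℂ) + y * Complex.I) := by
  set u := y / x with hu
  have hs : 0 < √(1 + u ^ 2) := Real.sqrt_pos.2 (by positivity)
  have hs2 : √(1 + u ^ 2) ^ 2 = 1 + u ^ 2 := Real.sq_sqrt (by positivity)
  have e1 : Complex.exp (((-(2 * Real.arctan u) : ℝ) : ℂ) * Complex.I) =
      (Complex.exp (((-Real.arctan u : ℝ) : ℂ) * Complex.I)) ^ 2 := by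
    rw [← Complex.exp_nat_mul]
    congr 1
    push_cast
    ring
  have e2 : Complex.exp (((-Real.arctan u : ℝ) : ℂ) * Complex.I) =
      (1 - u * Complex.I) / ((√(1 + u ^ 2) : ℝ) : ℂ) := by
    rw [Complex.exp_mul_I, ← Complex.ofReal_cos, ← Complex.ofReal_sin, Real.cos_neg, Real.sin_neg,
      Real.cos_arctan, Real.sin_arctan]
    push_cast
    ring
  have hne : (1 : ℂ) + u * Complex.I ≠ 0 := by
    intro h
    have := congrArg Complex.re h
    simp at this
  have hne2 : (x : ℂ) + y * Complex.I ≠ 0 := by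
    intro h
    have := congrArg Complex.re h
    simp at this
    exact hx.ne' this
  have hxne : (x : ℂ) ≠ 0 := Complex.ofReal_ne_zero.2 hx.ne'
  rw [e1, e2, div_pow, ← Complex.ofReal_pow, hs2]
  have h3 : ((1 + u ^ 2 : ℝ) : ℂ) = (1 - u * Complex.I) * (1 + u * Complex.I) := by
    push_cast
    linear_combination ((u : ℂ) ^ 2) * Complex.I_sq
  have hne3 : (1 : ℂ) - u * Complex.I ≠ 0 := by
    intro h
    have := congrArg Complex.re h
    simp at this
  rw [h3, pow_two, mul_div_mul_left _ _ hne3, div_eq_div_iff hne hne2, hu]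
  push_cast
  field_simp

theorem exp_ang {t : ℝ} (ht : t ^ 2 < 1) (θ : ℝ) :
    Complex.exp (ang t θ * Complex.I) = (tr t ht).f (Complex.exp (θ * Complex.I)) := by
  have h1 := one_add_pos ht θ
  rw [tr_f t ht (by rw [Complex.norm_exp_ofReal_mul_I])]
  have e1 : Complex.exp (ang t θ * Complex.I) = Complex.exp (θ * Complex.I) *
      Complex.exp (((-(2 * Real.arctan (t * Real.sin θ / (1 + t * Real.cos θ))) : ℝ) : ℂ)
        * Complex.I) := by
    rw [← Complex.exp_add]
    congr 1
    unfold ang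
    push_cast
    ring
  rw [e1, exp_two_arctan _ _ h1, Complex.exp_mul_I, ← Complex.ofReal_cos, ← Complex.ofReal_sin,
    ← mul_div_assoc]
  have h2 := Complex.sin_sq_add_cos_sq (θ : ℂ)
  congr 1
  · push_cast
    linear_combination (t : ℂ) * h2 - (t : ℂ) * (Complex.sin (θ : ℂ)) ^ 2 * Complex.I_sq
  · push_cast
    ring

theorem strictMono_ang {t : ℝ} (ht : t ^ 2 < 1) : StrictMono (ang t) := by
  refine strictMono_of_deriv_pos fun θ => ?_
  rw [(hasDerivAt_ang ht θ).deriv]
  have h3 := quad_pos ht θ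
  have : 0 < 1 - t ^ 2 := by linarith
  positivity

theorem ang_image {t : ℝ} (ht : t ^ 2 < 1) : ang t '' Ioc (-π) π = Ioc (-π) π := by
  have hc : Continuous (ang t) :=
    continuous_iff_continuousAt.2 fun θ => (hasDerivAt_ang ht θ).continuousAt
  have h1 : ang t π = π := by simp [ang]
  have h2 : ang t (-π) = -π := by simp [ang]
  have hm := strictMono_ang ht
  ext y
  constructor
  · rintro ⟨x, hx, rfl⟩
    constructor
    · have := hm hx.1; rwa [h2] at this
    · have := hm.monotone hx.2; rwa [h1] at this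
  · intro hy
    have hy' : y ∈ Icc (ang t (-π)) (ang t π) := by rw [h1, h2]; exact ⟨hy.1.le, hy.2⟩
    obtain ⟨x, hx, hxy⟩ := intermediate_value_Icc (by linarith [Real.pi_pos] : -π ≤ π)
      hc.continuousOn hy'
    refine ⟨x, ⟨lt_of_le_of_ne hx.1 ?_, hx.2⟩, hxy⟩
    intro h
    rw [← h, h2] at hxy
    exact hy.1.ne hxy

/-- change of variables on the circle for the translations -/
theorem lintegral_circ_tr (t : ℝ) (ht : t ^ 2 < 1) {F : ℂ → ℝ≥0∞} (hF : Measurable F) :
    ∫⁻ ξ, F ((tr t ht).f ξ) * ENNReal.ofReal ((tr t ht).der ξ) ∂circ = ∫⁻ ξ, F ξ ∂circ := by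
  have hder : Measurable fun ξ => ENNReal.ofReal ((tr t ht).der ξ) := by
    unfold der
    fun_prop
  rw [lintegral_circ (F := fun ξ => F ((tr t ht).f ξ) * ENNReal.ofReal ((tr t ht).der ξ))
    ((hF.comp (tr t ht).measurable_f).mul hder), lintegral_circ hF]
  have hcv := lintegral_image_eq_lintegral_abs_deriv_mul (s := Ioc (-π) π) (f := ang t)
    (f' := fun θ => (1 - t ^ 2) / (1 + 2 * t * Real.cos θ + t ^ 2)) measurableSet_Ioc
    (fun θ _ => (hasDerivAt_ang ht θ).hasDerivWithinAt) ((strictMono_ang ht).injective.injOn)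
    (fun θ => F (Complex.exp (θ * Complex.I)))
  rw [ang_image ht] at hcv
  rw [hcv]
  refine setLIntegral_congr_fun measurableSet_Ioc fun θ _ => ?_
  have h3 := quad_pos ht θ
  have h4 : 0 < 1 - t ^ 2 := by linarith
  rw [exp_ang ht θ, tr_der, norm_sq_one_add, abs_of_pos (by positivity), mul_comm]

/-- pointwise density identity -/
theorem liou_density (g : Mob) {x y : ℂ} (hx : ‖x‖ = 1) (hy : ‖y‖ = 1) :
    ENNReal.ofReal (1 / ‖g.f x - g.f y‖ ^ 2) * ENNReal.ofReal (g.der x) * ENNReal.ofReal (g.der y) =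
      ENNReal.ofReal (1 / ‖x - y‖ ^ 2) := by
  have dx := g.der_pos hx.le
  have dy := g.der_pos hy.le
  rw [← ENNReal.ofReal_mul (by positivity), ← ENNReal.ofReal_mul (by positivity),
    g.norm_sub_sq hx.le hy.le]
  congr 1
  rcases eq_or_ne ‖x - y‖ 0 with h | h
  · rw [h]; simp
  · field_simp

theorem measurable_dens : Measurable fun x : ℂ × ℂ => ENNReal.ofReal (1 / ‖x.1 - x.2‖ ^ 2) := by
  fun_prop

theorem lintegral_liou {F : ℂ × ℂ → ℝ≥0∞} (hF : Measurable F) :
    ∫⁻ x, F x ∂liou =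
      ∫⁻ x, ENNReal.ofReal (1 / ‖x.1 - x.2‖ ^ 2) * F x ∂(circ.prod circ) := by
  unfold liou
  rw [lintegral_withDensity_eq_lintegral_mul _ measurable_dens hF]
  rfl

theorem liou_rot (θ : ℝ) :
    MeasurePreserving (Prod.map (rot θ).f (rot θ).f) liou liou := by
  have hf := (rot θ).measurable_f
  have hm : Measurable (Prod.map (rot θ).f (rot θ).f) := hf.prodMap hf
  refine ⟨hm, ?_⟩
  refine Measure.ext_of_lintegral _ fun F hF => ?_
  rw [lintegral_map hF hm, lintegral_liou hF,
    lintegral_liou (F := fun x => F (Prod.map (rot θ).f (rot θ).f x)) (hF.comp hm)]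
  have hp : MeasurePreserving (Prod.map (rot θ).f (rot θ).f) (circ.prod circ) (circ.prod circ) :=
    (circ_rot θ).prod (circ_rot θ)
  have hpc := hp.lintegral_comp (f := fun x => ENNReal.ofReal (1 / ‖x.1 - x.2‖ ^ 2) * F x)
    (measurable_dens.mul hF)
  rw [← hpc]
  refine lintegral_congr fun x => ?_
  have h1 : ‖(rot θ).f x.1 - (rot θ).f x.2‖ = ‖x.1 - x.2‖ := by
    rw [rot_f, rot_f, ← mul_sub, norm_mul, Complex.norm_exp_ofReal_mul_I, one_mul]
  simp only [Prod.map_fst, Prod.map_snd, h1]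

theorem liou_tr (t : ℝ) (ht : t ^ 2 < 1) :
    MeasurePreserving (Prod.map (tr t ht).f (tr t ht).f) liou liou := by
  have hf := (tr t ht).measurable_f
  have hm : Measurable (Prod.map (tr t ht).f (tr t ht).f) := hf.prodMap hf
  refine ⟨hm, ?_⟩
  refine Measure.ext_of_lintegral _ fun F hF => ?_
  rw [lintegral_map hF hm, lintegral_liou hF,
    lintegral_liou (F := fun x => F (Prod.map (tr t ht).f (tr t ht).f x)) (hF.comp hm)]
  set G : ℂ × ℂ → ℝ≥0∞ := fun x => ENNReal.ofReal (1 / ‖x.1 - x.2‖ ^ 2) * F x with hG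
  have hGm : Measurable G := measurable_dens.mul hF
  have hder : Measurable fun ξ => ENNReal.ofReal ((tr t ht).der ξ) := by
    unfold der
    fun_prop
  rw [lintegral_prod _ hGm.aemeasurable,
    lintegral_prod (fun x => ENNReal.ofReal (1 / ‖x.1 - x.2‖ ^ 2) *
      F (Prod.map (tr t ht).f (tr t ht).f x)) (measurable_dens.mul (hF.comp hm)).aemeasurable]
  -- apply the change of variables twice
  have h1 : ∀ x : ℂ, ∫⁻ y, G ((tr t ht).f x, (tr t ht).f y) * ENNReal.ofReal ((tr t ht).der y) ∂circ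
      = ∫⁻ y, G ((tr t ht).f x, y) ∂circ := fun x =>
    lintegral_circ_tr t ht (F := fun y => G ((tr t ht).f x, y))
      (hGm.comp (measurable_const.prodMk measurable_id))
  have h2 : ∫⁻ x, (∫⁻ y, G ((tr t ht).f x, y) ∂circ) * ENNReal.ofReal ((tr t ht).der x) ∂circ
      = ∫⁻ x, ∫⁻ y, G (x, y) ∂circ ∂circ :=
    lintegral_circ_tr t ht (F := fun x => ∫⁻ y, G (x, y) ∂circ) hGm.lintegral_prod_right'
  rw [← h2]
  refine lintegral_congr_ae ?_
  filter_upwards [ae_circ] with x hx
  have hm2 : Measurable fun y => G ((tr t ht).f x, (tr t ht).f y) *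
      ENNReal.ofReal ((tr t ht).der y) :=
    (hGm.comp (measurable_const.prodMk (tr t ht).measurable_f)).mul hder
  rw [← h1 x, ← lintegral_mul_const _ hm2]
  refine lintegral_congr_ae ?_
  filter_upwards [ae_circ] with y hy
  have hd := (tr t ht).liou_density hx hy
  simp only [hG, Prod.map_apply]
  rw [← hd]
  ring

end Mob

/-- total Liouville mass of the geodesics which pass near the origin is finite -/
theorem liou_ne_top (c : ℝ) (hc : 0 < c) : liou {x | c ≤ ‖x.1 - x.2‖} ≠ ∞ := by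
  have hm : MeasurableSet {x : ℂ × ℂ | c ≤ ‖x.1 - x.2‖} :=
    measurableSet_le measurable_const (by fun_prop)
  unfold liou
  rw [withDensity_apply _ hm]
  have h1 : ∫⁻ x in {x : ℂ × ℂ | c ≤ ‖x.1 - x.2‖}, ENNReal.ofReal (1 / ‖x.1 - x.2‖ ^ 2)
      ∂(circ.prod circ) ≤ ∫⁻ x in {x : ℂ × ℂ | c ≤ ‖x.1 - x.2‖}, ENNReal.ofReal (1 / c ^ 2)
      ∂(circ.prod circ) := by
    refine setLIntegral_mono measurable_const fun x hx => ?_
    have hx' : c ≤ ‖x.1 - x.2‖ := hx
    refine ENNReal.ofReal_le_ofReal ?_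
    gcongr
  refine ne_top_of_le_ne_top ?_ h1
  rw [setLIntegral_const]
  exact ENNReal.mul_ne_top ENNReal.ofReal_ne_top (measure_ne_top _ _)

end HPV
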