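import Pool.Agent.Helper28.HPV.MobA
import Pool.Agent.Helper28.HPV.GraphB

/-! T5 MobC: equivariance of the Voronoi graph under automorphisms of the disc. -/

open MeasureTheory ProbabilityTheory Set Filter Topology
open scoped ENNReal NNReal Real ComplexConjugate

namespace HPV

namespace Mob

theorem mobC_norm_le {z : ℂ} (hz : z ∈ disc) : ‖z‖ ≤ 1 := by
  have h : ‖z‖ < 1 := by simpa using hz
  exact h.le

theorem mobC_injOn (g : Mob) : InjOn g.f disc := by
  intro z hz w hw h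
  rw [← g.inv_f (mobC_norm_le hz), ← g.inv_f (mobC_norm_le hw), h]

theorem mobC_cell_image (g : Mob) {S : Set ℂ} (hS : S ⊆ disc) {x : ℂ} (hx : x ∈ disc) :
    cell (g.f '' S) (g.f x) = g.f '' (cell S x) := by
  ext z
  constructor
  · rintro ⟨hz, h⟩
    have hz' : g.inv.f z ∈ disc := g.inv.mem_disc hz
    have hgz : g.f (g.inv.f z) = z := g.f_inv (mobC_norm_le hz)
    refine ⟨g.inv.f z, ⟨hz', ?_⟩, hgz⟩
    intro w hw
    have h1 := h (g.f w) (mem_image_of_mem _ hw)
    rw [← hgz, g.hdist_f hz' hx, g.hdist_f hz' (hS hw)] at h1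
    exact h1
  · rintro ⟨z0, ⟨hz0, h⟩, rfl⟩
    refine ⟨g.mem_disc hz0, ?_⟩
    rintro _ ⟨w, hw, rfl⟩
    rw [g.hdist_f hz0 hx, g.hdist_f hz0 (hS hw)]
    exact h w hw

theorem mobC_cell_subset (S : Set ℂ) (x : ℂ) : cell S x ⊆ disc := fun _ hz => hz.1

/-- equivariance of the graph -/
theorem VAdj_image (g : Mob) {S : Set ℂ} (hS : S ⊆ disc) {x y : ℂ} (hx : x ∈ disc)
    (hy : y ∈ disc) : VAdj (g.f '' S) (g.f x) (g.f y) ↔ VAdj S x y := by
  have hinj := g.mobC_injOn
  unfold VAdj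
  rw [g.mobC_cell_image hS hx, g.mobC_cell_image hS hy,
    ← hinj.image_inter (mobC_cell_subset S x) (mobC_cell_subset S y), hinj.mem_image_iff hS hx,
    hinj.mem_image_iff hS hy]
  have hne : g.f x ≠ g.f y ↔ x ≠ y := by
    rw [Ne, hinj.eq_iff hx hy]
  rw [hne]
  have hnt : (g.f '' (cell S x ∩ cell S y)).Nontrivial ↔ (cell S x ∩ cell S y).Nontrivial := by
    constructor
    · intro h
      exact nontrivial_of_image _ _ h
    · intro h
      exact h.image_of_injOn (hinj.mono (inter_subset_left.trans (mobC_cell_subset S x)))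
  rw [hnt]

theorem mobC_nbrSet_image (g : Mob) {S : Set ℂ} (hS : S ⊆ disc) {x : ℂ} (hx : x ∈ disc) :
    {y | VAdj (g.f '' S) (g.f x) y} = g.f '' {y | VAdj S x y} := by
  ext y
  constructor
  · intro h
    obtain ⟨y0, hy0, rfl⟩ := h.2.1
    exact ⟨y0, (g.VAdj_image hS hx (hS hy0)).1 h, rfl⟩
  · rintro ⟨y0, h, rfl⟩
    exact (g.VAdj_image hS hx (hS h.2.1)).2 h

theorem mobC_nbrSet_subset {S : Set ℂ} (hS : S ⊆ disc) (x : ℂ) : {y | VAdj S x y} ⊆ disc :=
  fun _ h => hS h.2.1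

theorem reg_image (g : Mob) {S : Set ℂ} (hS : S ⊆ disc) (hR : Reg S) : Reg (g.f '' S) := by
  rintro _ ⟨x, hx, rfl⟩
  rw [g.mobC_nbrSet_image hS (hS hx)]
  exact ⟨(hR x hx).1.image _, (hR x hx).2.image _⟩

theorem nbr_image (g : Mob) {S : Set ℂ} (hS : S ⊆ disc) {x : ℂ} (hx : x ∈ disc) :
    (nbr (g.f '' S) (g.f x) : Set ℂ) = g.f '' (nbr S x : Set ℂ) := by
  by_cases h : {y | VAdj S x y}.Finite
  · have h' : {y | VAdj (g.f '' S) (g.f x) y}.Finite := by
      rw [g.mobC_nbrSet_image hS hx]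
      exact h.image _
    unfold nbr
    rw [dif_pos h, dif_pos h', Finite.coe_toFinset, Finite.coe_toFinset, g.mobC_nbrSet_image hS hx]
  · have h' : ¬ {y | VAdj (g.f '' S) (g.f x) y}.Finite := by
      rw [g.mobC_nbrSet_image hS hx]
      intro hf
      exact h (hf.of_finite_image (g.mobC_injOn.mono (mobC_nbrSet_subset hS x)))
    unfold nbr
    rw [dif_neg h, dif_neg h']
    simp

theorem mobC_countable {S : Set ℂ} (hS : IsLF S) : S.Countable := by
  have h : S ⊆ ⋃ n : ℕ, (S ∩ Metric.closedBall 0 (1 - 1 / ((n : ℝ) + 1))) := by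
    intro z hz
    have hz1 : ‖z‖ < 1 := by simpa using hS.1 hz
    obtain ⟨n, hn⟩ := exists_nat_one_div_lt (sub_pos.2 hz1)
    refine mem_iUnion.2 ⟨n, hz, ?_⟩
    simp only [Metric.mem_closedBall, dist_zero_right]
    linarith
  refine (countable_iUnion fun n => ?_).mono h
  refine (hS.2 _ ?_).countable
  have : (0 : ℝ) < 1 / ((n : ℝ) + 1) := by positivity
  linarith

theorem mobC_lintegral_image {S : Set ℂ} (hS : S.Countable) {f : ℂ → ℂ} (hf : InjOn f S)
    (F : ℂ → ℝ≥0∞) :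
    ∫⁻ x, F x ∂(Measure.count.restrict (f '' S)) =
      ∫⁻ x, F (f x) ∂(Measure.count.restrict S) := by
  rw [lintegral_countable _ (hS.image f), lintegral_countable _ hS]
  simp only [Measure.count_singleton, mul_one]
  exact tsum_image (fun x => F x) hf

theorem good_image (g : Mob) {S : Set ℂ} (hS : Good S) : Good (g.f '' S) := by
  have hSd : S ⊆ disc := hS.lf.1
  have hinjS : InjOn g.f S := g.mobC_injOn.mono hSd
  have hcount : S.Countable := mobC_countable hS.lf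
  refine ⟨g.isLF_image hS.lf, ?_, ?_, ?_⟩
  · rintro _ ⟨v, hv, rfl⟩ ξ hξ
    have hξ0 : ‖g.inv.f ξ‖ = 1 := g.inv.norm_eq_one hξ
    have hgξ : g.f (g.inv.f ξ) = ξ := g.f_inv hξ.le
    obtain ⟨w, hw, hlt⟩ := hS.tangent v hv (g.inv.f ξ) hξ0
    refine ⟨g.f w, mem_image_of_mem _ hw, ?_⟩
    have hv1 := mobC_norm_le (hSd hv)
    have hw1 := mobC_norm_le (hSd hw)
    have e1 := g.norm_sub_sq hξ0.le hw1
    have e2 := g.norm_sub_sq hξ0.le hv1
    rw [hgξ] at e1 e2
    rw [e1, e2, g.one_sub_norm_sq hv1, g.one_sub_norm_sq hw1]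
    have hpos : 0 < g.der (g.inv.f ξ) * g.der w * g.der v :=
      mul_pos (mul_pos (g.der_pos hξ0.le) (g.der_pos hw1)) (g.der_pos hv1)
    have := mul_lt_mul_of_pos_right hlt hpos
    nlinarith [this]
  · intro c r hr hc
    by_cases hne : (g.f '' S ∩ Metric.sphere c r).Nonempty
    · obtain ⟨_, ⟨x, hx, rfl⟩, hxs⟩ := hne
      have hxs' : ‖g.f x - c‖ = r := by simpa [dist_eq_norm] using hxs
      obtain ⟨z, hz, hzx, -, hz2⟩ := eucl_disc_hyp hr hc hxs'
      have hz0 : g.inv.f z ∈ disc := g.inv.mem_disc hz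
      have hgz : g.f (g.inv.f z) = z := g.f_inv (mobC_norm_le hz)
      have hzx0 : g.inv.f z ≠ x := by
        intro h
        apply hzx
        rw [← hgz, h]
      obtain ⟨c0, r0, hr0, hc0, -, h0⟩ := hyp_disc_eucl hz0 (hSd hx) hzx0
      have hsub : g.f '' S ∩ Metric.sphere c r ⊆ g.f '' (S ∩ Metric.sphere c0 r0) := by
        rintro _ ⟨⟨w, hw, rfl⟩, hws⟩
        have hws' : ‖g.f w - c‖ = r := by simpa [dist_eq_norm] using hws
        refine ⟨w, ⟨hw, ?_⟩, rfl⟩
        have h1 := (hz2 (g.f w) (g.mem_disc (hSd hw))).2 hws'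
        rw [← hgz, g.hdist_f hz0 (hSd hw), g.hdist_f hz0 (hSd hx)] at h1
        have h2 := (h0 w (hSd hw)).1 h1
        simpa [dist_eq_norm] using h2
      calc (g.f '' S ∩ Metric.sphere c r).encard
          ≤ (g.f '' (S ∩ Metric.sphere c0 r0)).encard := encard_le_encard hsub
        _ ≤ (S ∩ Metric.sphere c0 r0).encard := encard_image_le _ _
        _ ≤ 3 := hS.gp c0 r0 hr0 hc0
    · rw [not_nonempty_iff_eq_empty.1 hne]
      simp
  · obtain ⟨C, hC⟩ := g.lipschitz
    rw [mobC_lintegral_image hcount hinjS]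
    have hle : ∫⁻ x, ∫⁻ y, (VAdjInd (g.f '' S) (g.f x) y) * ENNReal.ofReal (‖g.f x - y‖ ^ 2)
          ∂(Measure.count.restrict (g.f '' S)) ∂(Measure.count.restrict S) ≤
        ENNReal.ofReal (C ^ 2) * ∫⁻ x, ∫⁻ y, (VAdjInd S x y) * ENNReal.ofReal (‖x - y‖ ^ 2)
          ∂(Measure.count.restrict S) ∂(Measure.count.restrict S) := by
      rw [← lintegral_const_mul' _ _ ENNReal.ofReal_ne_top]
      rw [lintegral_countable _ hcount, lintegral_countable _ hcount]
      refine ENNReal.tsum_le_tsum fun x => ?_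
      refine mul_le_mul_left ?_ _
      rw [mobC_lintegral_image hcount hinjS]
      rw [← lintegral_const_mul' _ _ ENNReal.ofReal_ne_top]
      rw [lintegral_countable _ hcount, lintegral_countable _ hcount]
      refine ENNReal.tsum_le_tsum fun y => ?_
      refine mul_le_mul_left ?_ _
      have hx : (x : ℂ) ∈ disc := hSd x.2
      have hy : (y : ℂ) ∈ disc := hSd y.2
      have hind : VAdjInd (g.f '' S) (g.f x) (g.f y) = VAdjInd S x y := by
        have hiff := g.VAdj_image hSd hx hy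
        unfold VAdjInd
        by_cases h : VAdj S x y
        · rw [if_pos h, if_pos (hiff.2 h)]
        · rw [if_neg h, if_neg (fun h' => h (hiff.1 h'))]
      rw [hind, ← mul_assoc, mul_comm (ENNReal.ofReal (C ^ 2)), mul_assoc,
        ← ENNReal.ofReal_mul (sq_nonneg C)]
      refine mul_le_mul_right ?_ _
      refine ENNReal.ofReal_le_ofReal ?_
      have h1 := hC x y (mobC_norm_le hx) (mobC_norm_le hy)
      have h2 : ‖g.f x - g.f y‖ ^ 2 ≤ (C * ‖(x : ℂ) - y‖) ^ 2 :=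
        pow_le_pow_left₀ (norm_nonneg _) h1 2
      calc ‖g.f x - g.f y‖ ^ 2 ≤ (C * ‖(x : ℂ) - y‖) ^ 2 := h2
        _ = C ^ 2 * ‖(x : ℂ) - y‖ ^ 2 := by ring
    refine ne_top_of_le_ne_top ?_ hle
    exact ENNReal.mul_ne_top ENNReal.ofReal_ne_top hS.energy

end Mob

end HPV
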