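import Pool.Agent.Helper28.HPV.RW

/-! Moebius transformations of the disc: definitions. -/

open MeasureTheory ProbabilityTheory Set Filter Topology
open scoped ENNReal NNReal Real ComplexConjugate

namespace HPV

/-- an automorphism of the disc, `z ↦ (a z + b) / (conj b z + conj a)` -/
structure Mob where
  a : ℂ
  b : ℂ
  det : ‖a‖ ^ 2 - ‖b‖ ^ 2 = 1

namespace Mob

/-- the transformation -/
noncomputable def f (g : Mob) (z : ℂ) : ℂ := (g.a * z + g.b) / (conj g.b * z + conj g.a)

/-- the modulus of the derivative -/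
noncomputable def der (g : Mob) (z : ℂ) : ℝ := 1 / ‖conj g.b * z + conj g.a‖ ^ 2

/-- the inverse transformation -/
noncomputable def inv (g : Mob) : Mob := ⟨conj g.a, -g.b, by simpa using g.det⟩

/-- rotation by the angle `θ` -/
noncomputable def rot (θ : ℝ) : Mob :=
  ⟨Complex.exp ((θ / 2 : ℝ) * Complex.I), 0, by simp [Complex.norm_exp]⟩

/-- hyperbolic translation along the real axis, `z ↦ (z + t) / (1 + t z)`, `-1 < t < 1` -/
noncomputable def tr (t : ℝ) (ht : t ^ 2 < 1) : Mob :=
  ⟨((1 / √(1 - t ^ 2) : ℝ) : ℂ), ((t / √(1 - t ^ 2) : ℝ) : ℂ), by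
    have h : 0 < 1 - t ^ 2 := by linarith
    rw [Complex.norm_real, Complex.norm_real, Real.norm_eq_abs, Real.norm_eq_abs, sq_abs, sq_abs,
      div_pow, div_pow, Real.sq_sqrt h.le]
    field_simp⟩

end Mob

/-- Liouville measure on pairs of boundary points -/
noncomputable def liou : Measure (ℂ × ℂ) :=
  (circ.prod circ).withDensity fun x => ENNReal.ofReal (1 / ‖x.1 - x.2‖ ^ 2)

end HPV
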