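import Pool.Agent.Helper28.HPV.RW
import Pool.Agent.Helper28.HPV.MobC
import Pool.Agent.Helper28.HPV.MobB

/-! T8 Path: the path kernel. -/

open MeasureTheory ProbabilityTheory Set Filter Topology
open scoped ENNReal NNReal

namespace HPV

namespace PathAux


variable {E : Type*} [MeasurableSpace E] (K : Kernel E E) [IsMarkovKernel K]

/-- the history up to time `n` -/
def hist (n : ℕ) (p : ℕ → E) : Π _ : Finset.Iic n, E := fun i => p i.1

/-- the history kernels -/
noncomputable def kn (n : ℕ) : Kernel (Π _ : Finset.Iic n, E) E :=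
  K.comap (fun h => h ⟨n, Finset.mem_Iic.2 le_rfl⟩) (measurable_pi_apply _)

instance (n : ℕ) : IsMarkovKernel (kn K n) := by
  unfold kn; infer_instance

/-- law of the homogeneous chain -/
noncomputable def chainK : Kernel E (ℕ → E) :=
  (Kernel.traj (X := fun _ => E) (kn K) 0).comap (fun q _ => q)
    (measurable_pi_lambda _ fun _ => measurable_id)

instance : IsMarkovKernel (chainK K) := by
  unfold chainK; infer_instance

theorem chain_zero (q : E) {A : Set E} (hA : MeasurableSet A) (hq : q ∈ A) :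
    chainK K q {p | p 0 ∈ A} = 1 := by
  have h := Kernel.traj_map_frestrictLe_of_le (X := fun _ => E) (κ := kn K) (le_refl 0)
  have h2 := congrArg (fun η => η (fun _ => q) {h | h ⟨0, Finset.mem_Iic.2 le_rfl⟩ ∈ A}) h
  have hm : MeasurableSet {h : (Π _ : Finset.Iic 0, E) | h ⟨0, Finset.mem_Iic.2 le_rfl⟩ ∈ A} :=
    (measurable_pi_apply _) hA
  rw [Kernel.map_apply' _ (by fun_prop) _ hm, Kernel.deterministic_apply' _ _ hm] at h2
  have h3 : chainK K q {p | p 0 ∈ A} = (Kernel.traj (X := fun _ => E) (kn K) 0) (fun _ => q)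
    (hist 0 ⁻¹' {h | h ⟨0, Finset.mem_Iic.2 le_rfl⟩ ∈ A}) := rfl
  refine h3.trans (Eq.trans h2 ?_)
  rw [Set.indicator_of_mem]
  exact hq

theorem chain_succ (q : E) (n : ℕ) {B : Set (Π _ : Finset.Iic n, E)} (hB : MeasurableSet B)
    {C : Set E} (hC : MeasurableSet C) :
    chainK K q {p | hist n p ∈ B ∧ p (n + 1) ∈ C} =
      ∫⁻ p in {p | hist n p ∈ B}, K (p n) C ∂(chainK K q) := by
  have h := Kernel.partialTraj_compProd_eq_map_traj (X := fun _ => E) (κ := kn K) (Nat.zero_le n)
    (x₀ := fun _ => q)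
  have h2 := congrArg (fun m => m (B ×ˢ C)) h
  rw [Measure.map_apply (by fun_prop) (hB.prod hC), Measure.compProd_apply_prod hB hC,
    ← Kernel.traj_map_frestrictLe_apply, Measure.restrict_map (by fun_prop) hB,
    lintegral_map (by exact Kernel.measurable_coe _ hC) (by fun_prop)] at h2
  exact h2.symm

theorem chain_inv {A : Set E} (hA : MeasurableSet A) (hK : ∀ q ∈ A, K q A = 1) {q : E}
    (hq : q ∈ A) : ∀ᵐ p ∂(chainK K q), ∀ n, p n ∈ A := by
  rw [ae_all_iff]
  intro n
  induction n with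
  | zero =>
    have := chain_zero K q hA hq
    have hm : MeasurableSet {p : ℕ → E | p 0 ∈ A} := (measurable_pi_apply _) hA
    exact (prob_compl_eq_zero_iff hm).2 this
  | succ n ih =>
    have hm : MeasurableSet {p : ℕ → E | p (n + 1) ∈ A} := (measurable_pi_apply _) hA
    refine (prob_compl_eq_zero_iff hm).2 ?_
    have hB : MeasurableSet {h : (Π _ : Finset.Iic n, E) | h ⟨n, Finset.mem_Iic.2 le_rfl⟩ ∈ A} :=
      (measurable_pi_apply _) hA
    have h1 := chain_succ K q n hB hA
    have hm2 : MeasurableSet {p : ℕ → E | p n ∈ A} := (measurable_pi_apply _) hA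
    have h2 : (∫⁻ p in {p | hist n p ∈
        {h : (Π _ : Finset.Iic n, E) | h ⟨n, Finset.mem_Iic.2 le_rfl⟩ ∈ A}}, K (p n) A
        ∂(chainK K q)) = 1 := by
      have h3 : (∫⁻ p in {p : ℕ → E | p n ∈ A}, K (p n) A ∂(chainK K q)) =
          ∫⁻ p in {p : ℕ → E | p n ∈ A}, 1 ∂(chainK K q) :=
        setLIntegral_congr_fun hm2 fun p hp => hK _ hp
      have h4 : (∫⁻ p in {p : ℕ → E | p n ∈ A}, 1 ∂(chainK K q)) = 1 := by
        rw [setLIntegral_one]
        exact (prob_compl_eq_zero_iff hm2).1 ih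
      exact h3.trans h4
    rw [h2] at h1
    refine le_antisymm prob_le_one ?_
    rw [← h1]
    exact measure_mono fun p hp => hp.2

theorem chain_cyl [MeasurableSingletonClass E] (q : E) (n : ℕ) (z : ℕ → E) (hz : z 0 = q) :
    chainK K q {p | ∀ i ≤ n, p i = z i} = ∏ i ∈ Finset.range n, K (z i) {z (i + 1)} := by
  induction n with
  | zero =>
    have := chain_zero K q (measurableSet_singleton q) rfl
    simp only [Finset.range_zero, Finset.prod_empty]
    rw [← this]
    congr 1
    ext p
    simp [hz]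
  | succ n ih =>
    have hB : MeasurableSet {h : (Π _ : Finset.Iic n, E) | ∀ i, h i = z i.1} := by
      have : {h : (Π _ : Finset.Iic n, E) | ∀ i, h i = z i.1} = ⋂ i, {h | h i = z i.1} := by
        ext h; rw [mem_iInter]; rfl
      rw [this]
      exact MeasurableSet.iInter fun i => (measurable_pi_apply i) (measurableSet_singleton _)
    have h1 := chain_succ K q n hB (measurableSet_singleton (z (n + 1)))
    have e1 : {p : ℕ → E | ∀ i ≤ n + 1, p i = z i} =
        {p | hist n p ∈
          {h : (Π _ : Finset.Iic n, E) | ∀ i, h i = z i.1} ∧ p (n + 1) ∈ ({z (n + 1)} : Set E)} := by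
      ext p
      constructor
      · intro h
        refine ⟨fun i => h i.1 ?_, h (n + 1) le_rfl⟩
        have := Finset.mem_Iic.1 i.2
        omega
      · rintro ⟨h, h'⟩ i hi
        rcases Nat.lt_or_ge n i with h2 | h2
        · have : i = n + 1 := by omega
          rw [this]; exact h'
        · exact h ⟨i, Finset.mem_Iic.2 h2⟩
    have e2 : {p : ℕ → E | hist n p ∈
          {h : (Π _ : Finset.Iic n, E) | ∀ i, h i = z i.1}} = {p : ℕ → E | ∀ i ≤ n, p i = z i} := by
      ext p
      constructor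
      · intro h i hi
        exact h ⟨i, Finset.mem_Iic.2 hi⟩
      · intro h i
        exact h i.1 (Finset.mem_Iic.1 i.2)
    have hm : MeasurableSet {p : ℕ → E | ∀ i ≤ n, p i = z i} := by
      have : {p : ℕ → E | ∀ i ≤ n, p i = z i} = ⋂ i, ⋂ (_ : i ≤ n), {p | p i = z i} := by
        ext; simp
      rw [this]
      exact MeasurableSet.iInter fun i => MeasurableSet.iInter fun _ =>
        (measurable_pi_apply i) (measurableSet_singleton _)
    rw [e1, h1, e2, Finset.prod_range_succ, ← ih, mul_comm]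
    rw [setLIntegral_congr_fun (g := fun _ => K (z n) {z (n + 1)}) hm, setLIntegral_const]
    intro p hp
    have : p n = z n := hp n le_rfl
    simp only [this]


/-- the cylinder of the paths which follow `z` up to time `n` -/
def cyl {V : Type*} (n : ℕ) (z : ℕ → V) : Set (ℕ → V) := {p | ∀ i ≤ n, p i = z i}

theorem measurableSet_cyl {V : Type*} [MeasurableSpace V] [MeasurableSingletonClass V] (n : ℕ)
    (z : ℕ → V) : MeasurableSet (cyl n z) := by
  have : cyl n z = ⋂ i, ⋂ (_ : i ≤ n), {p : ℕ → V | p i = z i} := by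
    ext; simp [cyl]
  rw [this]
  exact MeasurableSet.iInter fun i => MeasurableSet.iInter fun _ =>
    (measurable_pi_apply i) (measurableSet_singleton _)

open Classical in
/-- representatives of the paths of length `n` from `x` -/
noncomputable def wk {V : Type*} (nb : V → Finset V) (x : V) : ℕ → Finset (ℕ → V)
  | 0 => {fun _ => x}
  | n + 1 => (wk nb x n).biUnion fun z => (nb (z n)).image fun y i => if i ≤ n then z i else y

theorem wk_const {V : Type*} (nb : V → Finset V) (x : V) (n : ℕ) {z : ℕ → V}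
    (hz : z ∈ wk nb x n) : ∀ i, n ≤ i → z i = z n := by
  classical
  cases n with
  | zero =>
    rw [wk, Finset.mem_singleton] at hz
    intro i _
    rw [hz]
  | succ n =>
    rw [wk, Finset.mem_biUnion] at hz
    obtain ⟨w, _, hz⟩ := hz
    rw [Finset.mem_image] at hz
    obtain ⟨y, _, rfl⟩ := hz
    intro i hi
    have h1 : ¬ i ≤ n := by omega
    have h2 : ¬ n + 1 ≤ n := by omega
    simp only [h1, h2, if_false]

theorem wk_zero {V : Type*} (nb : V → Finset V) (x : V) (n : ℕ) {z : ℕ → V}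
    (hz : z ∈ wk nb x n) : z 0 = x := by
  classical
  induction n generalizing z with
  | zero =>
    rw [wk, Finset.mem_singleton] at hz
    rw [hz]
  | succ n ih =>
    rw [wk, Finset.mem_biUnion] at hz
    obtain ⟨w, hw, hz⟩ := hz
    rw [Finset.mem_image] at hz
    obtain ⟨y, _, rfl⟩ := hz
    simp only [Nat.zero_le, if_true]
    exact ih hw

theorem wk_mem {V : Type*} (nb : V → Finset V) (x : V) (T : Set V) (hx : x ∈ T)
    (hT : ∀ v ∈ T, ∀ w ∈ nb v, w ∈ T) (n : ℕ) {z : ℕ → V}
    (hz : z ∈ wk nb x n) : ∀ i, z i ∈ T := by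
  classical
  induction n generalizing z with
  | zero =>
    rw [wk, Finset.mem_singleton] at hz
    intro i
    rw [hz]
    exact hx
  | succ n ih =>
    rw [wk, Finset.mem_biUnion] at hz
    obtain ⟨w, hw, hz⟩ := hz
    rw [Finset.mem_image] at hz
    obtain ⟨y, hy, rfl⟩ := hz
    intro i
    show (if i ≤ n then w i else y) ∈ T
    split_ifs
    · exact ih hw i
    · exact hT _ (ih hw n) _ hy

theorem wk_disj {V : Type*} (nb : V → Finset V) (x : V) (n : ℕ) {z z' : ℕ → V}
    (hz : z ∈ wk nb x n) (hz' : z' ∈ wk nb x n) (h : ∀ i ≤ n, z i = z' i) : z = z' := by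
  funext i
  rcases le_total i n with hi | hi
  · exact h i hi
  · rw [wk_const nb x n hz i hi, wk_const nb x n hz' i hi, h n le_rfl]

open Classical in
/-- product of the transition probabilities -/
noncomputable def pr {V : Type*} (nb : V → Finset V) (n : ℕ) (z : ℕ → V) : ℝ≥0∞ :=
  ∏ i ∈ Finset.range n, if z (i + 1) ∈ nb (z i) then ((nb (z i)).card : ℝ≥0∞)⁻¹ else 0

theorem pr_congr {V : Type*} (nb : V → Finset V) (n : ℕ) {z z' : ℕ → V}
    (h : ∀ i ≤ n, z i = z' i) : pr nb n z = pr nb n z' := by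
  unfold pr
  refine Finset.prod_congr rfl fun i hi => ?_
  have hi' := Finset.mem_range.1 hi
  rw [h i (by omega), h (i + 1) (by omega)]

theorem sum_pr {V : Type*} (nb : V → Finset V) (x : V) (T : Set V) (hx : x ∈ T)
    (hT : ∀ v ∈ T, ∀ w ∈ nb v, w ∈ T) (hne : ∀ v ∈ T, (nb v).Nonempty) (n : ℕ) :
    ∑ z ∈ wk nb x n, pr nb n z = 1 := by
  classical
  induction n with
  | zero => simp [wk, pr]
  | succ n ih =>
    rw [wk, Finset.sum_biUnion]
    · rw [← ih]
      refine Finset.sum_congr rfl fun z hz => ?_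
      rw [Finset.sum_image]
      · have h1 : ∀ y ∈ nb (z n), pr nb (n + 1) (fun i => if i ≤ n then z i else y) =
            pr nb n z * ((nb (z n)).card : ℝ≥0∞)⁻¹ := by
          intro y hy
          have h2 : pr nb n (fun i => if i ≤ n then z i else y) = pr nb n z :=
            pr_congr nb n fun i hi => by simp only [hi, if_true]
          rw [← h2]
          unfold pr
          rw [Finset.prod_range_succ]
          congr 1
          have h3 : ¬ n + 1 ≤ n := by omega
          simp only [h3, le_refl, if_true, if_false, hy]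
        rw [Finset.sum_congr rfl h1, Finset.sum_const, nsmul_eq_mul]
        have hc : ((nb (z n)).card : ℝ≥0∞) ≠ 0 := by
          have := (hne _ (wk_mem nb x T hx hT n hz n)).card_pos
          exact_mod_cast this.ne'
        rw [mul_comm, mul_assoc, ENNReal.inv_mul_cancel hc (ENNReal.natCast_ne_top _), mul_one]
      · intro y _ y' _ h
        have h3 : ¬ n + 1 ≤ n := by omega
        have := congrFun h (n + 1)
        simpa only [h3, if_false] using this
    · intro z hz z' hz' hzz'
      rw [Function.onFun, Finset.disjoint_left]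
      intro w hw hw'
      rw [Finset.mem_image] at hw hw'
      obtain ⟨y, _, rfl⟩ := hw
      obtain ⟨y', _, h⟩ := hw'
      apply hzz'
      refine wk_disj nb x n hz hz' fun i hi => ?_
      have := congrFun h i
      simp only [hi, if_true] at this
      exact this.symm

theorem eq_of_cyl {V : Type*} [MeasurableSpace V] [MeasurableSingletonClass V]
    (nb : V → Finset V) (x : V) (T : Set V) (hx : x ∈ T)
    (hT : ∀ v ∈ T, ∀ w ∈ nb v, w ∈ T) (hne : ∀ v ∈ T, (nb v).Nonempty)
    (Q Q' : Measure (ℕ → V)) [IsProbabilityMeasure Q] [IsProbabilityMeasure Q']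
    (hQ : ∀ n z, z 0 = x → Q (cyl n z) = pr nb n z)
    (hQ' : ∀ n z, z 0 = x → Q' (cyl n z) = pr nb n z) : Q = Q' := by
  classical
  have key : ∀ (R : Measure (ℕ → V)) [IsProbabilityMeasure R],
      (∀ n z, z 0 = x → R (cyl n z) = pr nb n z) → ∀ (n : ℕ) (A : Set (ℕ → V)),
      R A = ∑ z ∈ wk nb x n, R (A ∩ cyl n z) := by
    intro R _ hR n A
    have hdis : (wk nb x n : Set (ℕ → V)).PairwiseDisjoint (cyl n) := by
      intro z hz z' hz' hzz'
      rw [Function.onFun, Set.disjoint_left]
      intro p hp hp'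
      exact hzz' (wk_disj nb x n hz hz' fun i hi => (hp i hi).symm.trans (hp' i hi))
    have hU : R (⋃ z ∈ wk nb x n, cyl n z) = 1 := by
      rw [measure_biUnion_finset hdis fun z _ => measurableSet_cyl n z,
        ← sum_pr nb x T hx hT hne n]
      exact Finset.sum_congr rfl fun z hz => hR n z (wk_zero nb x n hz)
    have hUm : MeasurableSet (⋃ z ∈ wk nb x n, cyl n z) :=
      Finset.measurableSet_biUnion _ fun z _ => measurableSet_cyl n z
    have hU' : R (⋃ z ∈ wk nb x n, cyl n z)ᶜ = 0 := (prob_compl_eq_zero_iff hUm).2 hU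
    have h1 : R A = R (A ∩ ⋃ z ∈ wk nb x n, cyl n z) :=
      (measure_inter_conull hU').symm
    rw [h1, ← Measure.restrict_apply' hUm, Measure.restrict_biUnion_finset hdis
      (fun z => measurableSet_cyl n z), Measure.sum_apply_of_countable]
    · rw [tsum_fintype, ← Finset.sum_coe_sort (wk nb x n) fun z => R (A ∩ cyl n z)]
      refine Finset.sum_congr rfl fun z _ => ?_
      rw [Measure.restrict_apply' (measurableSet_cyl n _)]
  refine MeasureTheory.ext_of_generate_finite (measurableCylinders fun _ : ℕ => V)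
    generateFrom_measurableCylinders.symm isPiSystem_measurableCylinders ?_ (by simp)
  intro A hA
  rw [mem_measurableCylinders] at hA
  obtain ⟨s, B, _, rfl⟩ := hA
  obtain ⟨n, hn⟩ : ∃ n, ∀ i ∈ s, i ≤ n := ⟨s.sup id, fun i hi => Finset.le_sup (f := id) hi⟩
  rw [key Q hQ n, key Q' hQ' n]
  refine Finset.sum_congr rfl fun z hz => ?_
  by_cases hzA : z ∈ cylinder s B
  · have : cylinder s B ∩ cyl n z = cyl n z := by
      refine inter_eq_right.2 fun p hp => ?_
      rw [mem_cylinder] at hzA ⊢
      have : s.restrict p = s.restrict z := by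
        funext i
        exact hp i.1 (hn _ i.2)
      rw [this]; exact hzA
    rw [this, hQ n z (wk_zero nb x n hz), hQ' n z (wk_zero nb x n hz)]
  · have : cylinder s B ∩ cyl n z = ∅ := by
      rw [Set.eq_empty_iff_forall_notMem]
      rintro p ⟨hp, hp'⟩
      apply hzA
      rw [mem_cylinder] at hp ⊢
      have : s.restrict p = s.restrict z := by
        funext i
        exact hp' i.1 (hn _ i.2)
      rw [← this]; exact hp
    rw [this, measure_empty, measure_empty]


/-! ### the step kernel -/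

theorem measurableSet_nb : MeasurableSet {r : (Cfg × ℂ) × ℂ | VAdj r.1.1.1 r.1.2 r.2} := by
  have h := measurableSet_VAdj
  exact (MeasurableEquiv.prodAssoc (α := Cfg) (β := ℂ) (γ := ℂ)).measurable h

theorem measurable_ind : Measurable fun r : (Cfg × ℂ) × ℂ => VAdjInd r.1.1.1 r.1.2 r.2 := by
  classical
  have : (fun r : (Cfg × ℂ) × ℂ => VAdjInd r.1.1.1 r.1.2 r.2) =
      {r : (Cfg × ℂ) × ℂ | VAdj r.1.1.1 r.1.2 r.2}.indicator 1 := by
    funext r
    rw [Set.indicator_apply]
    unfold VAdjInd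
    simp only [Set.mem_ofPred_eq, Pi.one_apply]
  rw [this]
  exact measurable_one.indicator measurableSet_nb

/-- the degree -/
noncomputable def degK (q : Cfg × ℂ) : ℝ≥0∞ := cnt q.1 {y | VAdj q.1.1 q.2 y}

theorem measurable_degK : Measurable degK :=
  measurable_count (T := Prod.fst) measurable_fst measurableSet_nb

theorem measurableSet_sec (q : Cfg × ℂ) : MeasurableSet {y | VAdj q.1.1 q.2 y} :=
  measurable_prodMk_left (x := q) measurableSet_nb

theorem measurableSet_degK : MeasurableSet {q : Cfg × ℂ | degK q ≠ 0 ∧ degK q ≠ ∞} :=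
  (measurable_degK (measurableSet_singleton 0).compl).inter
    (measurable_degK (measurableSet_singleton ∞).compl)

/-- the counting kernel -/
noncomputable def cntK : Kernel (Cfg × ℂ) ℂ := cnt.comap Prod.fst measurable_fst

instance : IsSFiniteKernel cntK := by unfold cntK; infer_instance

/-- the uniform step, where it makes sense -/
noncomputable def step1 : Kernel (Cfg × ℂ) ℂ :=
  cntK.withDensity fun q y => (degK q)⁻¹ * VAdjInd q.1.1 q.2 y

theorem measurable_dens :
    Measurable (Function.uncurry fun (q : Cfg × ℂ) (y : ℂ) => (degK q)⁻¹ * VAdjInd q.1.1 q.2 y) :=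
  ((measurable_degK.comp measurable_fst).inv).mul measurable_ind

theorem step1_apply (q : Cfg × ℂ) {A : Set ℂ} (hA : MeasurableSet A) :
    step1 q A = (degK q)⁻¹ * cnt q.1 ({y | VAdj q.1.1 q.2 y} ∩ A) := by
  classical
  unfold step1
  rw [Kernel.withDensity_apply' _ measurable_dens]
  have hmi : Measurable fun y => VAdjInd q.1.1 q.2 y := measurable_ind.comp measurable_prodMk_left
  rw [lintegral_const_mul _ hmi]
  congr 1
  have : (fun y => VAdjInd q.1.1 q.2 y) = {y | VAdj q.1.1 q.2 y}.indicator 1 := by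
    funext y
    rw [Set.indicator_apply]
    unfold VAdjInd
    simp only [Set.mem_ofPred_eq, Pi.one_apply]
  rw [this, lintegral_indicator_one (measurableSet_sec q),
    Measure.restrict_apply (measurableSet_sec q)]
  rfl

open Classical in
/-- the step kernel of the walk -/
noncomputable def stepK : Kernel (Cfg × ℂ) ℂ :=
  Kernel.piecewise measurableSet_degK step1 (Kernel.deterministic Prod.snd measurable_snd)

instance : IsMarkovKernel stepK := by
  classical
  constructor
  intro q
  unfold stepK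
  constructor
  rw [Kernel.piecewise_apply]
  split_ifs with h
  · rw [step1_apply q MeasurableSet.univ, inter_univ]
    exact ENNReal.inv_mul_cancel h.1 h.2
  · rw [Kernel.deterministic_apply]
    simp

/-- the kernel of the pair (configuration, position) -/
noncomputable def KE : Kernel (Cfg × ℂ) (Cfg × ℂ) :=
  (Kernel.deterministic Prod.fst measurable_fst) ×ₖ stepK

instance : IsMarkovKernel KE := by unfold KE; infer_instance

theorem KE_prod (q : Cfg × ℂ) {A : Set Cfg} {B : Set ℂ} (hA : MeasurableSet A)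
    (hB : MeasurableSet B) : KE q (A ×ˢ B) = (A.indicator 1 q.1) * stepK q B := by
  unfold KE
  rw [Kernel.prod_apply, Measure.prod_prod, Kernel.deterministic_apply' _ _ hA]
  rfl

/-! ### singletons are measurable -/

theorem cnt_pos_iff (S : Cfg) {B : Set ℂ} (hB : MeasurableSet B) :
    cnt S B ≠ 0 ↔ (S.1 ∩ B).Nonempty := by
  rw [cnt_apply S B hB]
  rw [Ne, ← ENat.toENNReal_zero, ENat.toENNReal_inj, Set.encard_eq_zero,
    Set.nonempty_iff_ne_empty]

theorem exists_nhd (S : Cfg) {x : ℂ} (hx : x ∈ disc) (hxS : x ∉ S.1) :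
    ∃ U : Set ℂ, IsOpen U ∧ x ∈ U ∧ S.1 ∩ U = ∅ := by
  have hx' : ‖x‖ < 1 := by simpa using hx
  obtain ⟨r, hr1, hr2⟩ := exists_between hx'
  have hF := S.2.2 r hr2
  refine ⟨Metric.ball 0 r ∩ (S.1 ∩ Metric.closedBall 0 r)ᶜ,
    Metric.isOpen_ball.inter hF.isClosed.isOpen_compl, ⟨by simpa using hr1, ?_⟩, ?_⟩
  · intro h; exact hxS h.1
  · rw [Set.eq_empty_iff_forall_notMem]
    rintro y ⟨hy, hy2, hy3⟩
    exact hy3 ⟨hy, Metric.ball_subset_closedBall hy2⟩

instance : MeasurableSingletonClass Cfg := by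
  constructor
  intro S
  have h : ({S} : Set Cfg) = ⋂ b ∈ TopologicalSpace.countableBasis ℂ,
      {S' : Cfg | cnt S' b = cnt S b} := by
    ext S'
    constructor
    · intro h
      rw [Set.mem_singleton_iff] at h
      subst h
      simp
    · intro h
      simp only [mem_iInter, Set.mem_ofPred_eq] at h
      have aux : ∀ S₁ S₂ : Cfg, (∀ b ∈ TopologicalSpace.countableBasis ℂ, cnt S₁ b = cnt S₂ b) →
          S₁.1 ⊆ S₂.1 := by
        intro S₁ S₂ h x hx
        by_contra hx2
        obtain ⟨U, hU, hxU, hSU⟩ := exists_nhd S₂ (S₁.2.1 hx) hx2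
        obtain ⟨b, hb, hxb, hbU⟩ :=
          (TopologicalSpace.isBasis_countableBasis ℂ).exists_subset_of_mem_open hxU hU
        have hbm : MeasurableSet b := (TopologicalSpace.isOpen_of_mem_countableBasis hb).measurableSet
        have h1 : cnt S₁ b ≠ 0 := (cnt_pos_iff S₁ hbm).2 ⟨x, hx, hxb⟩
        rw [h b hb] at h1
        obtain ⟨y, hy1, hy2⟩ := (cnt_pos_iff S₂ hbm).1 h1
        have : y ∈ S₂.1 ∩ U := ⟨hy1, hbU hy2⟩
        rw [hSU] at this
        exact this
      rw [Set.mem_singleton_iff]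
      exact Subtype.ext (Set.Subset.antisymm (aux S' S h) (aux S S' fun b hb => (h b hb).symm))
  rw [h]
  refine MeasurableSet.biInter (TopologicalSpace.countable_countableBasis ℂ) fun b hb => ?_
  exact (Kernel.measurable_coe cnt
    (TopologicalSpace.isOpen_of_mem_countableBasis hb).measurableSet) (measurableSet_singleton _)

theorem countable_cfg (S : Cfg) : S.1.Countable := by
  have : S.1 ⊆ ⋃ n : ℕ, S.1 ∩ Metric.closedBall 0 (1 - 1 / ((n : ℝ) + 2)) := by
    intro x hx
    have hx' : ‖x‖ < 1 := by simpa using S.2.1 hx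
    obtain ⟨n, hn⟩ := exists_nat_gt (1 / (1 - ‖x‖))
    rw [mem_iUnion]
    refine ⟨n, hx, ?_⟩
    rw [mem_closedBall_zero_iff]
    have h1 : 0 < 1 - ‖x‖ := by linarith
    have h2 : 1 / ((n : ℝ) + 2) ≤ 1 - ‖x‖ := by
      rw [div_le_iff₀ (by positivity)]
      rw [div_lt_iff₀ h1] at hn
      nlinarith
    linarith
  refine (Set.countable_iUnion fun n => ?_).mono this
  refine (S.2.2 _ ?_).countable
  have : 0 < 1 / ((n : ℝ) + 2) := by positivity
  linarith

end PathAux

open PathAux

/-- law of the simple random walk on the Voronoi graph of `S` started at `x`, jointly measurable -/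
noncomputable def pathK : Kernel (Cfg × ℂ) (ℕ → ℂ) :=
  (chainK KE).map fun p n => (p n).2

theorem PathAux.measurable_proj : Measurable fun (p : ℕ → Cfg × ℂ) (n : ℕ) => (p n).2 :=
  measurable_pi_lambda _ fun n => measurable_snd.comp (measurable_pi_apply n)

instance : IsMarkovKernel pathK := by
  unfold pathK
  exact Kernel.IsMarkovKernel.map _ measurable_proj

theorem PathAux.pathK_apply (q : Cfg × ℂ) {A : Set (ℕ → ℂ)} (hA : MeasurableSet A) :
    pathK q A = chainK KE q {p | (fun n => (p n).2) ∈ A} := by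
  unfold pathK
  rw [Kernel.map_apply' _ measurable_proj _ hA]
  rfl

theorem pathK_start (S : Cfg) (x : ℂ) : ∀ᵐ p ∂(pathK (S, x)), p 0 = x := by
  have hm : MeasurableSet {p : ℕ → ℂ | p 0 = x} := 
    measurableSet_eq_fun (measurable_pi_apply 0) measurable_const
  refine (prob_compl_eq_zero_iff hm).2 ?_
  rw [pathK_apply _ hm]
  exact chain_zero KE (S, x) (A := {q | q.2 = x}) (measurable_snd (measurableSet_singleton x)) rfl

theorem mem_nbr {S : Set ℂ} (hS : Reg S) {x y : ℂ} : y ∈ nbr S x ↔ VAdj S x y := by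
  classical
  have hfin : {y | VAdj S x y}.Finite := by
    by_cases hx : x ∈ S
    · exact (hS x hx).1
    · have : {y | VAdj S x y} = ∅ := by
        rw [Set.eq_empty_iff_forall_notMem]
        intro z hz
        exact hx hz.1
      rw [this]
      exact Set.finite_empty
  unfold nbr
  rw [dif_pos hfin, Set.Finite.mem_toFinset]
  rfl

namespace PathAux

theorem coe_nbr {S : Set ℂ} (hS : Reg S) (x : ℂ) : (nbr S x : Set ℂ) = {y | VAdj S x y} := by
  ext y
  rw [Finset.mem_coe, mem_nbr hS]
  rfl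

theorem degK_eq (S : Cfg) (hS : Reg S.1) (x : ℂ) : degK (S, x) = ((nbr S.1 x).card : ℝ≥0∞) := by
  unfold degK
  rw [cnt_apply _ _ (measurableSet_sec (S, x))]
  have : S.1 ∩ {y | VAdj S.1 x y} = (nbr S.1 x : Set ℂ) := by
    rw [coe_nbr hS]
    exact inter_eq_right.2 fun y hy => hy.2.1
  show ((S.1 ∩ {y | VAdj S.1 x y}).encard : ℝ≥0∞) = _
  rw [this, Set.encard_coe_eq_coe_finsetCard]
  rfl

theorem nbr_nonempty {S : Set ℂ} (hS : Reg S) {x : ℂ} (hx : x ∈ S) : (nbr S x).Nonempty := by
  obtain ⟨y, hy⟩ := (hS x hx).2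
  exact ⟨y, (mem_nbr hS).2 hy⟩

theorem stepK_apply (S : Cfg) (hS : Reg S.1) {x : ℂ} (hx : x ∈ S.1) {A : Set ℂ}
    (hA : MeasurableSet A) :
    stepK (S, x) A = ((nbr S.1 x).card : ℝ≥0∞)⁻¹ * cnt S ((nbr S.1 x : Set ℂ) ∩ A) := by
  classical
  unfold stepK
  rw [Kernel.piecewise_apply, if_pos]
  · rw [step1_apply _ hA, degK_eq S hS, coe_nbr hS]
  · have h := (nbr_nonempty hS hx).card_pos
    show degK (S, x) ≠ 0 ∧ degK (S, x) ≠ ∞
    rw [degK_eq S hS]
    exact ⟨by exact_mod_cast h.ne', ENNReal.natCast_ne_top _⟩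

open Classical in
theorem stepK_singleton (S : Cfg) (hS : Reg S.1) {x : ℂ} (hx : x ∈ S.1) (y : ℂ) :
    stepK (S, x) {y} = if y ∈ nbr S.1 x then ((nbr S.1 x).card : ℝ≥0∞)⁻¹ else 0 := by
  rw [stepK_apply S hS hx (measurableSet_singleton y)]
  split_ifs with h
  · have h1 : (nbr S.1 x : Set ℂ) ∩ {y} = {y} := by
      refine inter_eq_right.2 ?_
      rintro z rfl
      exact h
    rw [h1, cnt_apply _ _ (measurableSet_singleton y)]
    have h2 : S.1 ∩ {y} = {y} := by
      refine inter_eq_right.2 ?_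
      rintro z rfl
      exact ((mem_nbr hS).1 h).2.1
    rw [h2, Set.encard_singleton]
    simp
  · have h1 : (nbr S.1 x : Set ℂ) ∩ {y} = ∅ := by
      rw [Set.eq_empty_iff_forall_notMem]
      rintro z ⟨hz, rfl⟩
      exact h hz
    rw [h1, measure_empty, mul_zero]

theorem stepK_mem (S : Cfg) (hS : Reg S.1) {x : ℂ} (hx : x ∈ S.1) : stepK (S, x) S.1 = 1 := by
  have hm : MeasurableSet S.1 := (countable_cfg S).measurableSet
  rw [stepK_apply S hS hx hm]
  have h1 : (nbr S.1 x : Set ℂ) ∩ S.1 = (nbr S.1 x : Set ℂ) := by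
    refine inter_eq_left.2 fun y hy => ?_
    exact ((mem_nbr hS).1 hy).2.1
  have h2 : cnt S (nbr S.1 x : Set ℂ) = ((nbr S.1 x).card : ℝ≥0∞) := by
    rw [← degK_eq S hS]
    unfold degK
    rw [coe_nbr hS]
  rw [h1, h2]
  refine ENNReal.inv_mul_cancel ?_ (ENNReal.natCast_ne_top _)
  have h := (nbr_nonempty hS hx).card_pos
  exact_mod_cast h.ne'

theorem chain_mem (S : Cfg) (hS : Reg S.1) {x : ℂ} (hx : x ∈ S.1) :
    ∀ᵐ p ∂(chainK KE (S, x)), ∀ n, p n ∈ ({S} : Set Cfg) ×ˢ S.1 := by
  have hm : MeasurableSet S.1 := (countable_cfg S).measurableSet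
  refine chain_inv KE ((measurableSet_singleton S).prod hm) ?_ ⟨rfl, hx⟩
  rintro ⟨S', y⟩ ⟨h1, h2⟩
  rw [Set.mem_singleton_iff] at h1
  simp only at h1 h2
  subst h1
  rw [KE_prod _ (measurableSet_singleton _) hm, stepK_mem S' hS h2]
  simp

end PathAux

theorem pathK_mem (S : Cfg) (hS : Reg S.1) {x : ℂ} (hx : x ∈ S.1) :
    ∀ᵐ p ∂(pathK (S, x)), ∀ n, p n ∈ S.1 := by
  unfold pathK
  rw [Kernel.map_apply _ measurable_proj]
  have hm : MeasurableSet {p : ℕ → ℂ | ∀ n, p n ∈ S.1} := by
    have : {p : ℕ → ℂ | ∀ n, p n ∈ S.1} = ⋂ n, {p : ℕ → ℂ | p n ∈ S.1} := by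
      ext p; simp
    rw [this]
    exact MeasurableSet.iInter fun n => (measurable_pi_apply n) (countable_cfg S).measurableSet
  rw [ae_map_iff measurable_proj.aemeasurable hm]
  filter_upwards [chain_mem S hS hx] with p hp n
  exact (hp n).2

/-- cylinder probabilities -/
theorem PathAux.pathK_cyl' (S : Cfg) (hS : Reg S.1) {x : ℂ} (hx : x ∈ S.1) (n : ℕ) (z : ℕ → ℂ)
    (hz : z 0 = x) : pathK (S, x) (cyl n z) = pr (nbr S.1) n z := by
  classical
  rw [pathK_apply _ (measurableSet_cyl n z)]
  have h1 : chainK KE (S, x) {p | (fun n => (p n).2) ∈ cyl n z} =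
      chainK KE (S, x) {p | ∀ i ≤ n, p i = (fun j => (S, z j)) i} := by
    refine measure_congr ?_
    filter_upwards [chain_mem S hS hx] with p hp
    refine propext ⟨fun h i hi => ?_, fun h i hi => ?_⟩
    · exact Prod.ext (hp i).1 (h i hi)
    · exact congrArg Prod.snd (h i hi)
  rw [h1, chain_cyl KE (S, x) n (fun j => (S, z j)) (by simp [hz])]
  have h2 : ∀ n, (∏ i ∈ Finset.range n, KE (S, z i) {(S, z (i + 1))} = pr (nbr S.1) n z) ∧
      (pr (nbr S.1) n z ≠ 0 → z n ∈ S.1) := by
    intro n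
    induction n with
    | zero =>
      refine ⟨by simp [pr], fun _ => ?_⟩
      rw [hz]; exact hx
    | succ n ih =>
      have e0 : pr (nbr S.1) (n + 1) z = pr (nbr S.1) n z *
          (if z (n + 1) ∈ nbr S.1 (z n) then ((nbr S.1 (z n)).card : ℝ≥0∞)⁻¹ else 0) := by
        unfold pr
        rw [Finset.prod_range_succ]
      rw [Finset.prod_range_succ, ih.1, e0]
      by_cases h0 : pr (nbr S.1) n z = 0
      · rw [h0, zero_mul, zero_mul]
        exact ⟨rfl, fun h => absurd rfl h⟩
      · have hn := ih.2 h0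
        have e1 : ({(S, z (n + 1))} : Set (Cfg × ℂ)) = ({S} : Set Cfg) ×ˢ {z (n + 1)} := by
          rw [Set.singleton_prod_singleton]
        rw [e1, KE_prod _ (measurableSet_singleton _) (measurableSet_singleton _),
          stepK_singleton S hS hn]
        refine ⟨by simp, fun h => ?_⟩
        by_contra hc
        apply h
        rw [if_neg, mul_zero]
        intro h3
        exact hc ((mem_nbr hS).1 h3).2.1
  exact (h2 n).1

/-- cylinder probabilities -/
theorem pathK_cyl (S : Cfg) (hS : Reg S.1) {x : ℂ} (hx : x ∈ S.1) (n : ℕ) (z : ℕ → ℂ)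
    (hz : z 0 = x) :
    pathK (S, x) {p | ∀ i ≤ n, p i = z i} =
      ∏ i ∈ Finset.range n, if z (i + 1) ∈ nbr S.1 (z i) then ((nbr S.1 (z i)).card : ℝ≥0∞)⁻¹
        else 0 := by
  have h := pathK_cyl' S hS hx n z hz
  unfold pr at h
  rw [show {p : ℕ → ℂ | ∀ i ≤ n, p i = z i} = cyl n z from rfl, h]

theorem PathAux.pathK_unique' (S : Cfg) (hS : Reg S.1) {x : ℂ} (hx : x ∈ S.1)
    (Q : Measure (ℕ → ℂ)) [IsProbabilityMeasure Q]
    (hQ : ∀ (n : ℕ) (z : ℕ → ℂ), z 0 = x → Q (cyl n z) = pr (nbr S.1) n z) :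
    Q = pathK (S, x) :=
  eq_of_cyl (nbr S.1) x S.1 hx (fun _ _ _ hw => ((mem_nbr hS).1 hw).2.1)
    (fun _ hv => nbr_nonempty hS hv) Q _ hQ (pathK_cyl' S hS hx)

/-- uniqueness: a probability measure with the cylinder probabilities of the walk is the law -/
theorem pathK_unique (S : Cfg) (hS : Reg S.1) {x : ℂ} (hx : x ∈ S.1)
    (Q : Measure (ℕ → ℂ)) [IsProbabilityMeasure Q]
    (hQ : ∀ (n : ℕ) (z : ℕ → ℂ), z 0 = x → Q {p | ∀ i ≤ n, p i = z i} =
      ∏ i ∈ Finset.range n, if z (i + 1) ∈ nbr S.1 (z i) then ((nbr S.1 (z i)).card : ℝ≥0∞)⁻¹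
        else 0) : Q = pathK (S, x) := by
  refine pathK_unique' S hS hx Q fun n z hz => ?_
  have h := hQ n z hz
  unfold pr
  rw [show cyl n z = {p : ℕ → ℂ | ∀ i ≤ n, p i = z i} from rfl, h]

theorem PathAux.measurable_pcons (x : ℂ) : Measurable (pcons x : (ℕ → ℂ) → ℕ → ℂ) := by
  refine measurable_pi_lambda _ fun n => ?_
  cases n with
  | zero => exact measurable_const
  | succ n => exact measurable_pi_apply n

theorem pathK_step (S : Cfg) (hS : Reg S.1) {x : ℂ} (hx : x ∈ S.1) :
    pathK (S, x) = ((nbr S.1 x).card : ℝ≥0∞)⁻¹ •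
      ∑ y ∈ nbr S.1 x, (pathK (S, y)).map (pcons x) := by
  classical
  have hc : ((nbr S.1 x).card : ℝ≥0∞) ≠ 0 := by
    have h := (nbr_nonempty hS hx).card_pos
    exact_mod_cast h.ne'
  have hP : ∀ y, IsProbabilityMeasure ((pathK (S, y)).map (pcons x)) := fun y =>
    Measure.isProbabilityMeasure_map (measurable_pcons x).aemeasurable
  have : IsProbabilityMeasure (((nbr S.1 x).card : ℝ≥0∞)⁻¹ •
      ∑ y ∈ nbr S.1 x, (pathK (S, y)).map (pcons x)) := by
    constructor
    rw [Measure.smul_apply, Measure.finsetSum_apply,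
      Finset.sum_congr rfl fun y _ => (hP y).measure_univ, Finset.sum_const, nsmul_eq_mul,
      mul_one, smul_eq_mul]
    exact ENNReal.inv_mul_cancel hc (ENNReal.natCast_ne_top _)
  refine (pathK_unique' S hS hx _ ?_).symm
  intro n z hz
  rw [Measure.smul_apply, Measure.finsetSum_apply, smul_eq_mul]
  cases n with
  | zero =>
    have h1 : ∀ y ∈ nbr S.1 x, ((pathK (S, y)).map (pcons x)) (cyl 0 z) = 1 := by
      intro y _
      rw [Measure.map_apply (measurable_pcons x) (measurableSet_cyl _ _)]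
      have : pcons x ⁻¹' (cyl 0 z) = univ := by
        rw [Set.eq_univ_iff_forall]
        intro p i hi
        have : i = 0 := by omega
        subst this
        exact hz.symm
      rw [this, measure_univ]
    rw [Finset.sum_congr rfl h1, Finset.sum_const, nsmul_eq_mul, mul_one,
      ENNReal.inv_mul_cancel hc (ENNReal.natCast_ne_top _)]
    simp [pr]
  | succ n =>
    have h1 : ∀ y ∈ nbr S.1 x, ((pathK (S, y)).map (pcons x)) (cyl (n + 1) z) =
        if z 1 = y then pr (nbr S.1) n (fun i => z (i + 1)) else 0 := by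
      intro y hy
      rw [Measure.map_apply (measurable_pcons x) (measurableSet_cyl _ _)]
      have e : pcons x ⁻¹' (cyl (n + 1) z) = cyl n (fun i => z (i + 1)) := by
        ext p
        constructor
        · intro h i hi
          exact h (i + 1) (by omega)
        · intro h i hi
          cases i with
          | zero => exact hz.symm
          | succ i => exact h i (by omega)
      rw [e]
      split_ifs with h
      · exact pathK_cyl' S hS ((mem_nbr hS).1 hy).2.1 n _ h
      · refine measure_mono_null ?_ (pathK_start S y)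
        intro p hp hp2
        exact h ((hp 0 (Nat.zero_le n)).symm.trans hp2)
    rw [Finset.sum_congr rfl h1, Finset.sum_ite_eq]
    unfold pr
    rw [Finset.prod_range_succ', hz]
    by_cases h : z 1 ∈ nbr S.1 x
    · rw [if_pos h, zero_add, if_pos h, mul_comm]
    · rw [if_neg h, zero_add, if_neg h, mul_zero, mul_zero]

/-- the simple random walk as an abstract walk -/
noncomputable def walk (S : Cfg) (hS : Reg S.1) : RW ℂ where
  nb := nbr S.1
  symm := by
    intro x y h
    rw [mem_nbr hS] at h ⊢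
    exact h.symm
  irr := by
    intro x h
    rw [mem_nbr hS] at h
    exact h.2.2.1 rfl
  P x := pathK (S, x)
  prob x := inferInstance
  start x := pathK_start S x
  step := by
    intro x hx
    obtain ⟨y, hy⟩ := hx
    rw [mem_nbr hS] at hy
    exact pathK_step S hS hy.1

/-- equivariance -/
theorem pathK_mob (g : Mob) (S : Cfg) (hS : Reg S.1) {x : ℂ} (hx : x ∈ S.1) :
    pathK (g.act S, g.f x) = (pathK (S, x)).map (fun p n => g.f (p n)) := by
  classical
  have hgm : Measurable fun (p : ℕ → ℂ) (n : ℕ) => g.f (p n) :=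
    measurable_pi_lambda _ fun n => g.measurable_f.comp (measurable_pi_apply n)
  have hS' : Reg (g.act S).1 := g.reg_image S.2.1 hS
  have hx' : g.f x ∈ (g.act S).1 := mem_image_of_mem _ hx
  have : IsProbabilityMeasure ((pathK (S, x)).map (fun p n => g.f (p n))) :=
    Measure.isProbabilityMeasure_map hgm.aemeasurable
  have hn1 : ∀ y ∈ S.1, ‖y‖ ≤ 1 := fun y hy => by
    have : ‖y‖ < 1 := by simpa using S.2.1 hy
    exact this.le
  refine (pathK_unique' (g.act S) hS' hx' _ ?_).symm
  intro n z hz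
  rw [Measure.map_apply hgm (measurableSet_cyl _ _)]
  by_cases hA : ∀ i ≤ n, z i ∈ (g.act S).1
  · have h2 : ∀ i ≤ n, g.inv.f (z i) ∈ S.1 ∧ g.f (g.inv.f (z i)) = z i := by
      intro i hi
      obtain ⟨y, hy, hyz⟩ := hA i hi
      rw [← hyz, g.inv_f (hn1 y hy)]
      exact ⟨hy, rfl⟩
    have e1 : pathK (S, x) ((fun (p : ℕ → ℂ) (n : ℕ) => g.f (p n)) ⁻¹' cyl n z) =
        pathK (S, x) (cyl n fun i => g.inv.f (z i)) := by
      refine measure_congr ?_
      filter_upwards [pathK_mem S hS hx] with p hp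
      refine propext ⟨fun h i hi => ?_, fun h i hi => ?_⟩
      · have h3 : g.f (p i) = z i := h i hi
        show p i = g.inv.f (z i)
        rw [← h3, g.inv_f (hn1 _ (hp i))]
      · have h3 : p i = g.inv.f (z i) := h i hi
        show g.f (p i) = z i
        rw [h3, (h2 i hi).2]
    have hz' : g.inv.f (z 0) = x := by rw [hz, g.inv_f (hn1 x hx)]
    rw [e1, pathK_cyl' S hS hx n _ hz']
    unfold pr
    refine Finset.prod_congr rfl fun i hi => ?_
    have hi' := Finset.mem_range.1 hi
    obtain ⟨a1, a2⟩ := h2 i (by omega)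
    obtain ⟨b1, b2⟩ := h2 (i + 1) (by omega)
    have hinj : Set.InjOn g.f (nbr S.1 (g.inv.f (z i)) : Set ℂ) := by
      intro y hy y' hy' hyy'
      have c1 := hn1 y ((mem_nbr hS).1 hy).2.1
      have c2 := hn1 y' ((mem_nbr hS).1 hy').2.1
      rw [← g.inv_f c1, hyy', g.inv_f c2]
    have hnb := g.nbr_image S.2.1 (S.2.1 a1)
    rw [a2] at hnb
    have hnb' : nbr (g.act S).1 (z i) = (nbr S.1 (g.inv.f (z i))).image g.f := by
      apply Finset.coe_injective
      rw [Finset.coe_image]
      exact hnb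
    have hcard : (nbr (g.act S).1 (z i)).card = (nbr S.1 (g.inv.f (z i))).card := by
      rw [hnb', Finset.card_image_of_injOn hinj]
    have hmem : z (i + 1) ∈ nbr (g.act S).1 (z i) ↔
        g.inv.f (z (i + 1)) ∈ nbr S.1 (g.inv.f (z i)) := by
      rw [hnb', Finset.mem_image]
      constructor
      · rintro ⟨y, hy, hyz⟩
        rw [← hyz, g.inv_f (hn1 y ((mem_nbr hS).1 hy).2.1)]
        exact hy
      · intro h
        exact ⟨_, h, b2⟩
    rw [hcard]
    by_cases h : z (i + 1) ∈ nbr (g.act S).1 (z i)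
    · rw [if_pos h, if_pos (hmem.1 h)]
    · rw [if_neg h, if_neg fun h3 => h (hmem.2 h3)]
  · have hL : pathK (S, x) ((fun (p : ℕ → ℂ) (n : ℕ) => g.f (p n)) ⁻¹' cyl n z) = 0 := by
      refine measure_mono_null ?_ (pathK_mem S hS hx)
      intro p hp hp2
      apply hA
      intro i hi
      rw [← hp i hi]
      exact mem_image_of_mem _ (hp2 i)
    rw [hL]
    symm
    push Not at hA
    obtain ⟨i, hi, hzi⟩ := hA
    -- first exit
    have hex : ∃ i, i ≤ n ∧ z i ∉ (g.act S).1 := ⟨i, hi, hzi⟩
    obtain ⟨hf1, hf2⟩ := Nat.find_spec hex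
    have hf0 : Nat.find hex ≠ 0 := by
      intro h0
      rw [h0, hz] at hf2
      exact hf2 hx'
    obtain ⟨j, hj⟩ := Nat.exists_eq_succ_of_ne_zero hf0
    unfold pr
    rw [hj] at hf1 hf2
    refine Finset.prod_eq_zero (i := j) (Finset.mem_range.2 (by omega)) ?_
    rw [if_neg]
    intro h
    exact hf2 ((mem_nbr hS').1 h).2.1

end HPV
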