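import Pool.Agent.Helper28.HPV.Defs

/-! M1 (T1): Poisson process. -/

open MeasureTheory ProbabilityTheory Set Filter Topology
open scoped ENNReal NNReal Real

namespace HPV

/-- radii exhausting the disc -/
noncomputable def pa_rad (n : ℕ) : ℝ := 1 - 1 / ((n : ℝ) + 2)

theorem pa_rad_lt_one (n : ℕ) : pa_rad n < 1 := by
  have : (0 : ℝ) < 1 / ((n : ℝ) + 2) := by positivity
  unfold pa_rad; linarith

theorem pa_rad_mono : Monotone pa_rad := by
  intro m n h
  unfold pa_rad
  have h' : (m : ℝ) ≤ n := by exact_mod_cast h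
  have : 1 / ((n : ℝ) + 2) ≤ 1 / ((m : ℝ) + 2) := by
    apply one_div_le_one_div_of_le <;> [positivity; linarith]
  linarith

theorem pa_exists_rad {r : ℝ} (hr : r < 1) : ∃ n, r ≤ pa_rad n := by
  obtain ⟨n, hn⟩ := exists_nat_gt (1 / (1 - r))
  refine ⟨n, ?_⟩
  have h1 : 0 < 1 - r := by linarith
  have h2 : 1 / ((n : ℝ) + 2) ≤ 1 - r := by
    rw [div_lt_iff₀ h1] at hn
    rw [div_le_iff₀ (by positivity)]
    nlinarith
  unfold pa_rad; linarith

theorem pa_disc_eq : disc = ⋃ n, Metric.closedBall (0 : ℂ) (pa_rad n) := by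
  ext z
  simp only [mem_iUnion, Metric.mem_closedBall, dist_zero_right, Metric.mem_ball]
  constructor
  · intro h; exact pa_exists_rad h
  · rintro ⟨n, hn⟩; exact hn.trans_lt (pa_rad_lt_one n)

theorem IsLF.pa_countable {S : Set ℂ} (hS : IsLF S) : S.Countable := by
  have : S = ⋃ n, (S ∩ Metric.closedBall (0 : ℂ) (pa_rad n)) := by
    rw [← inter_iUnion, ← pa_disc_eq]
    exact (inter_eq_left.2 hS.1).symm
  rw [this]
  exact countable_iUnion fun n => (hS.2 _ (pa_rad_lt_one n)).countable

theorem cnt_apply (S : Cfg) (B : Set ℂ) (hB : MeasurableSet B) :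
    cnt S B = ((S.1 ∩ B).encard : ℝ≥0∞) := by
  have h : cnt S = Measure.count.restrict S.1 := rfl
  have hS : MeasurableSet (S.1 ∩ B) := (S.2.pa_countable.mono inter_subset_left).measurableSet
  rw [h, Measure.restrict_apply hB, inter_comm, Measure.count_apply hS]

theorem pa_cnt_inter_disc (S : Cfg) (B : Set ℂ) (hB : MeasurableSet B) :
    cnt S (B ∩ disc) = cnt S B := by
  rw [cnt_apply S _ (hB.inter measurableSet_ball), cnt_apply S _ hB]
  congr 2
  ext z
  constructor
  · rintro ⟨h1, h2, h3⟩; exact ⟨h1, h2⟩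
  · rintro ⟨h1, h2⟩; exact ⟨h1, h2, S.2.1 h1⟩

theorem pa_cnt_closedBall_ne_top (S : Cfg) {r : ℝ} (hr : r < 1) :
    cnt S (Metric.closedBall 0 r) ≠ ∞ := by
  rw [cnt_apply S _ measurableSet_closedBall]
  have := (S.2.2 r hr).encard_lt_top
  simpa using this.ne

theorem pa_measurable_cnt {B : Set ℂ} (hB : MeasurableSet B) : Measurable fun S => cnt S B :=
  Kernel.measurable_coe cnt hB

/-- annuli -/
def pa_ann (n : ℕ) : Set ℂ := disjointed (fun n => Metric.closedBall (0 : ℂ) (pa_rad n)) n

theorem pa_measurableSet_ann (n : ℕ) : MeasurableSet (pa_ann n) :=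
  MeasurableSet.disjointed (fun _ => measurableSet_closedBall) n

theorem pa_iUnion_ann : ⋃ n, pa_ann n = disc := by
  rw [pa_disc_eq]; exact iUnion_disjointed

theorem pa_ann_subset (n : ℕ) : pa_ann n ⊆ Metric.closedBall (0 : ℂ) (pa_rad n) :=
  disjointed_subset _ n

instance : IsSFiniteKernel cnt := by
  have hm : ∀ n m : ℕ, MeasurableSet {S : Cfg | cnt S (pa_ann n) = m} := fun n m =>
    pa_measurable_cnt (pa_measurableSet_ann n) (measurableSet_singleton (m : ℝ≥0∞))
  classical
  have key : cnt = Kernel.sum fun p : ℕ × ℕ =>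
      Kernel.piecewise (hm p.1 p.2) (Kernel.restrict cnt (pa_measurableSet_ann p.1)) 0 := by
    ext S B hB
    rw [Kernel.sum_apply' _ _ hB]
    have h1 : ∀ p : ℕ × ℕ, (Kernel.piecewise (hm p.1 p.2)
        (Kernel.restrict cnt (pa_measurableSet_ann p.1)) 0) S B =
        if cnt S (pa_ann p.1) = p.2 then cnt S (B ∩ pa_ann p.1) else 0 := by
      intro p
      rw [Kernel.piecewise_apply']
      simp only [mem_ofPred_eq, Kernel.restrict_apply' _ _ _ hB, zero_apply]
      rfl
    simp_rw [h1]
    rw [ENNReal.tsum_prod']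
    have h2 : ∀ n : ℕ, ∑' m : ℕ, (if cnt S (pa_ann n) = (m : ℝ≥0∞) then cnt S (B ∩ pa_ann n) else 0) =
        cnt S (B ∩ pa_ann n) := by
      intro n
      have h3 : cnt S (pa_ann n) ≠ ∞ := ne_top_of_le_ne_top (pa_cnt_closedBall_ne_top S (pa_rad_lt_one n))
        (measure_mono (pa_ann_subset n))
      rw [cnt_apply S _ (pa_measurableSet_ann n)] at h3 ⊢
      have h4 : (S.1 ∩ pa_ann n).encard ≠ ⊤ := by simpa using h3
      obtain ⟨k, hk⟩ := ENat.ne_top_iff_exists.1 h4
      rw [← hk]
      rw [tsum_eq_single k]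
      · simp
      · intro m hm
        rw [if_neg]
        simp only [ENat.toENNReal_coe]
        exact_mod_cast hm.symm
    simp_rw [h2]
    rw [← pa_cnt_inter_disc S B hB, ← pa_iUnion_ann, inter_iUnion]
    rw [measure_iUnion]
    · exact ((disjoint_disjointed _).mono fun i j h => h.mono inter_subset_right inter_subset_right)
    · exact fun n => hB.inter (pa_measurableSet_ann n)
  rw [key]
  have : ∀ p : ℕ × ℕ, IsFiniteKernel (Kernel.piecewise (hm p.1 p.2)
      (Kernel.restrict cnt (pa_measurableSet_ann p.1)) 0) := by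
    intro p
    refine ⟨⟨p.2, by simp, fun S => ?_⟩⟩
    rw [Kernel.piecewise_apply']
    split_ifs with h
    · rw [Kernel.restrict_apply' _ _ _ MeasurableSet.univ, univ_inter]
      exact h.le
    · simp
  infer_instance

/-- a function is measurable into `Cfg` iff all counts are -/
theorem measurable_cfg {α : Type*} [MeasurableSpace α] {T : α → Cfg}
    (h : ∀ B, MeasurableSet B → Measurable fun x => (((T x).1 ∩ B).encard : ℝ≥0∞)) :
    Measurable T := by
  rw [measurable_comap_iff]
  refine Measure.measurable_of_measurable_coe _ fun B hB => ?_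
  have : (fun x => ((fun S : Cfg => (Measure.count.restrict S.1 : Measure ℂ)) ∘ T) x B) =
      fun x => (((T x).1 ∩ B).encard : ℝ≥0∞) := by
    funext x
    exact cnt_apply (T x) B hB
  rw [this]
  exact h B hB

/-- parameter dependent counts are measurable -/
theorem measurable_count {α : Type*} [MeasurableSpace α] {T : α → Cfg} (hT : Measurable T)
    {E : Set (α × ℂ)} (hE : MeasurableSet E) :
    Measurable fun x => cnt (T x) {z | (x, z) ∈ E} := by
  have := Kernel.measurable_kernel_prodMk_left (κ := Kernel.comap cnt T hT) hE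
  exact this

open Classical in
theorem pa_cnt_singleton (S : Cfg) (z : ℂ) : cnt S {z} = if z ∈ S.1 then 1 else 0 := by
  rw [cnt_apply S _ (measurableSet_singleton z)]
  split_ifs with h
  · rw [inter_eq_right.2 (singleton_subset_iff.2 h)]; simp
  · rw [inter_singleton_eq_empty.2 h]; simp

theorem measurableSet_mem : MeasurableSet {q : Cfg × ℂ | q.2 ∈ q.1.1} := by
  have hE : MeasurableSet {p : (Cfg × ℂ) × ℂ | p.2 = p.1.2} :=
    measurableSet_eq_fun measurable_snd measurable_fst.snd
  have h1 := measurable_count (T := fun q : Cfg × ℂ => q.1) measurable_fst hE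
  have h2 : {q : Cfg × ℂ | q.2 ∈ q.1.1} =
      (fun q : Cfg × ℂ => cnt q.1 {z | (q, z) ∈ {p : (Cfg × ℂ) × ℂ | p.2 = p.1.2}}) ⁻¹' {0}ᶜ := by
    ext q
    have : {z | (q, z) ∈ {p : (Cfg × ℂ) × ℂ | p.2 = p.1.2}} = {q.2} := by
      ext z; simp
    simp only [mem_preimage, this, pa_cnt_singleton]
    simp
  rw [h2]
  exact h1 (measurableSet_singleton 0).compl

open Classical in
theorem pa_encard_ins (p : ℂ) (S : Cfg) (B : Set ℂ) :
    (((ins p S).1 ∩ B).encard : ℝ≥0∞) = ((S.1 ∩ B).encard : ℝ≥0∞) +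
      if p ∈ disc ∧ p ∈ B ∧ p ∉ S.1 then 1 else 0 := by
  split_ifs with h
  · have : (ins p S).1 ∩ B = insert p (S.1 ∩ B) := by
      ext z
      simp only [ins, insSet, mem_inter_iff, mem_insert_iff]
      constructor
      · rintro ⟨h1 | h1, h2⟩
        · exact Or.inr ⟨h1, h2⟩
        · exact Or.inl h1.1
      · rintro (rfl | h1)
        · exact ⟨Or.inr ⟨rfl, h.1⟩, h.2.1⟩
        · exact ⟨Or.inl h1.1, h1.2⟩
    rw [this, encard_insert_of_notMem (fun h1 => h.2.2 h1.1)]
    simp
  · have : (ins p S).1 ∩ B = S.1 ∩ B := by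
      ext z
      simp only [ins, insSet, mem_inter_iff]
      constructor
      · rintro ⟨h1 | h1, h2⟩
        · exact ⟨h1, h2⟩
        · obtain ⟨rfl, h3⟩ := h1
          by_contra h4
          exact h ⟨h3, h2, fun h5 => h4 ⟨h5, h2⟩⟩
      · rintro ⟨h1, h2⟩; exact ⟨Or.inl h1, h2⟩
    rw [this, add_zero]

theorem measurable_ins : Measurable fun q : ℂ × Cfg => ins q.1 q.2 := by
  refine measurable_cfg fun B hB => ?_
  simp_rw [pa_encard_ins]
  have h1 : Measurable fun q : ℂ × Cfg => ((q.2.1 ∩ B).encard : ℝ≥0∞) := by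
    have h2 : (fun q : ℂ × Cfg => ((q.2.1 ∩ B).encard : ℝ≥0∞)) = fun q => cnt q.2 B := by
      funext q; exact (cnt_apply q.2 B hB).symm
    rw [h2]
    exact (pa_measurable_cnt hB).comp measurable_snd
  refine h1.add (Measurable.ite ?_ measurable_const measurable_const)
  refine (measurableSet_ball.preimage measurable_fst).inter
    ((hB.preimage measurable_fst).inter (MeasurableSet.compl ?_))
  exact measurableSet_mem.preimage (measurable_snd.prodMk measurable_fst)

theorem IsPoissonLaw.isProb {μ : Measure Cfg} {lam : ℝ} (h : IsPoissonLaw μ lam) :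
    IsProbabilityMeasure μ := by
  constructor
  have := h.law 0 (fun _ => ∅) (fun i => i.elim0) (fun i => i.elim0) (fun i => i.elim0)
    (fun i => i.elim0)
  simpa using this

/-- counts as natural numbers -/
noncomputable def pa_N (B : Set ℂ) (S : Cfg) : ℕ := (S.1 ∩ B).ncard

theorem pa_N_measurable {B : Set ℂ} (hB : MeasurableSet B) : Measurable (pa_N B) := by
  have h : pa_N B = fun S => ⌊(cnt S B).toReal⌋₊ := by
    funext S
    rw [cnt_apply S B hB]
    unfold pa_N
    by_cases hf : (S.1 ∩ B).Finite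
    · rw [← hf.cast_ncard_eq]; simp
    · rw [Set.Infinite.ncard hf, Set.Infinite.encard_eq hf]; simp
  rw [h]
  exact Nat.measurable_floor.comp (pa_measurable_cnt hB).ennreal_toReal

theorem pa_finite (S : Cfg) {B : Set ℂ} {r : ℝ} (hr : r < 1) (hB : B ⊆ Metric.closedBall 0 r) :
    (S.1 ∩ B).Finite :=
  (S.2.2 r hr).subset (inter_subset_inter_right _ hB)

theorem pa_cnt_eq_N (S : Cfg) {B : Set ℂ} (hBm : MeasurableSet B) {r : ℝ} (hr : r < 1)
    (hB : B ⊆ Metric.closedBall 0 r) : cnt S B = (pa_N B S : ℝ≥0∞) := by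
  rw [cnt_apply S B hBm, ← (pa_finite S hr hB).cast_ncard_eq]
  rfl

theorem pa_N_biUnion (S : Cfg) {ι : Type*} (A : ι → Set ℂ) (s : Finset ι)
    (hA : ∀ i, MeasurableSet (A i)) {r : ℝ} (hr : r < 1)
    (hAr : ∀ i, A i ⊆ Metric.closedBall 0 r) (hd : Pairwise fun i j => Disjoint (A i) (A j)) :
    pa_N (⋃ i ∈ s, A i) S = ∑ i ∈ s, pa_N (A i) S := by
  have h1 : cnt S (⋃ i ∈ s, A i) = ∑ i ∈ s, cnt S (A i) :=
    measure_biUnion_finset (fun i _ j _ hij => hd hij) (fun i _ => hA i)
  rw [pa_cnt_eq_N S (Finset.measurableSet_biUnion _ fun i _ => hA i) hr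
    (iUnion₂_subset fun i _ => hAr i)] at h1
  rw [Finset.sum_congr rfl (fun i _ => pa_cnt_eq_N S (hA i) hr (hAr i))] at h1
  exact_mod_cast h1

theorem pa_cnt_iSup (S : Cfg) {B : Set ℂ} (hB : MeasurableSet B) :
    cnt S B = ⨆ n, ((pa_N (B ∩ Metric.closedBall 0 (pa_rad n)) S : ℕ) : ℝ≥0∞) := by
  have h1 : ∀ n, ((pa_N (B ∩ Metric.closedBall 0 (pa_rad n)) S : ℕ) : ℝ≥0∞) =
      cnt S (B ∩ Metric.closedBall 0 (pa_rad n)) := fun n =>
    (pa_cnt_eq_N S (hB.inter measurableSet_closedBall) (pa_rad_lt_one n) inter_subset_right).symm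
  simp_rw [h1]
  rw [← pa_cnt_inter_disc S B hB, pa_disc_eq, inter_iUnion]
  refine Monotone.measure_iUnion ?_
  intro m n hmn
  exact inter_subset_inter_right _ (Metric.closedBall_subset_closedBall (pa_rad_mono hmn))

/-- bounded measurable sets -/
def pa_I : Type := {C : Set ℂ // MeasurableSet C ∧ ∃ r < 1, C ⊆ Metric.closedBall (0 : ℂ) r}

/-- all bounded counts -/
noncomputable def pa_Phi (S : Cfg) (C : pa_I) : ℕ := pa_N C.1 S

theorem pa_Phi_measurable : Measurable pa_Phi :=
  measurable_pi_lambda _ fun C => pa_N_measurable C.2.1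

theorem pa_comap_le {s : Set Cfg} (hs : MeasurableSet s) :
    ∃ t : Set (pa_I → ℕ), MeasurableSet t ∧ pa_Phi ⁻¹' t = s := by
  have h : ∀ B, MeasurableSet B → Measurable[MeasurableSpace.comap pa_Phi inferInstance]
      fun S : Cfg => (((id S).1 ∩ B).encard : ℝ≥0∞) := by
    intro B hB
    have h1 : (fun S : Cfg => (((id S).1 ∩ B).encard : ℝ≥0∞)) = fun S =>
        ⨆ n, ((pa_Phi S ⟨B ∩ Metric.closedBall 0 (pa_rad n),
          hB.inter measurableSet_closedBall, _, pa_rad_lt_one n, inter_subset_right⟩ : ℕ) :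
          ℝ≥0∞) := by
      funext S
      exact (cnt_apply S B hB).symm.trans (pa_cnt_iSup S hB)
    rw [h1]
    refine Measurable.iSup fun n => ?_
    have h2 : Measurable fun f : pa_I → ℕ => ((f ⟨B ∩ Metric.closedBall 0 (pa_rad n),
          hB.inter measurableSet_closedBall, _, pa_rad_lt_one n, inter_subset_right⟩ : ℕ) :
          ℝ≥0∞) := by
      exact (measurable_of_countable _).comp (measurable_pi_apply _)
    exact h2.comp (comap_measurable pa_Phi)
  have h3 := @measurable_cfg Cfg (MeasurableSpace.comap pa_Phi inferInstance) id h s hs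
  exact h3

theorem pa_exists_r (J : Finset pa_I) {r0 : ℝ} (hr0 : r0 < 1) :
    ∃ r < 1, r0 ≤ r ∧ ∀ j ∈ J, j.1 ⊆ Metric.closedBall (0 : ℂ) r := by
  classical
  induction J using Finset.induction_on with
  | empty => exact ⟨r0, hr0, le_refl _, by simp⟩
  | insert a s ha ih =>
    obtain ⟨r, hr, h0, h⟩ := ih
    obtain ⟨r', hr', h'⟩ := a.2.2
    refine ⟨max r r', max_lt hr hr', h0.trans (le_max_left _ _), ?_⟩
    intro j hj
    rcases Finset.mem_insert.1 hj with rfl | hj
    · exact h'.trans (Metric.closedBall_subset_closedBall (le_max_right _ _))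
    · exact (h j hj).trans (Metric.closedBall_subset_closedBall (le_max_left _ _))

theorem pa_map_eq {ν1 ν2 : Measure Cfg} {ι : Type} [Fintype ι] {A : ι → Set ℂ}
    (hA : ∀ i, MeasurableSet (A i))
    (h : ∀ k : ι → ℕ, ν1 {S | ∀ i, pa_N (A i) S = k i} = ν2 {S | ∀ i, pa_N (A i) S = k i}) :
    ν1.map (fun S i => pa_N (A i) S) = ν2.map (fun S i => pa_N (A i) S) := by
  have hm : Measurable fun (S : Cfg) (i : ι) => pa_N (A i) S :=
    measurable_pi_lambda _ fun i => pa_N_measurable (hA i)
  refine Measure.ext_of_singleton fun k => ?_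
  rw [Measure.map_apply hm (measurableSet_singleton k),
    Measure.map_apply hm (measurableSet_singleton k)]
  have : (fun (S : Cfg) (i : ι) => pa_N (A i) S) ⁻¹' {k} = {S | ∀ i, pa_N (A i) S = k i} := by
    ext S
    simp [funext_iff]
  rw [this]
  exact h k

/-- uniqueness principle -/
theorem pa_ext {ν1 ν2 : Measure Cfg} [IsFiniteMeasure ν2] {B : Set ℂ} (hB : MeasurableSet B)
    {r0 : ℝ} (hr0 : r0 < 1) (hBr : B ⊆ Metric.closedBall 0 r0)
    (h : ∀ (ι : Type) [Fintype ι] [DecidableEq ι] (A : ι → Set ℂ) (s : Finset ι) (r : ℝ), r < 1 →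
      (∀ i, MeasurableSet (A i)) → (∀ i, A i ⊆ Metric.closedBall 0 r) →
      (Pairwise fun i j => Disjoint (A i) (A j)) → B = ⋃ i ∈ s, A i → ∀ k : ι → ℕ,
      ν1 {S | ∀ i, pa_N (A i) S = k i} = ν2 {S | ∀ i, pa_N (A i) S = k i}) : ν1 = ν2 := by
  classical
  have hfin : IsFiniteMeasure ν1 := by
    have h1 := pa_map_eq (ν1 := ν1) (ν2 := ν2) (ι := Unit) (A := fun _ => B) (fun _ => hB)
      (h Unit (fun _ => B) Finset.univ r0 hr0 (fun _ => hB) (fun _ => hBr)
        (fun i j hij => absurd (Subsingleton.elim i j) hij) (by simp [iUnion_const]))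
    have hm : Measurable fun (S : Cfg) (_ : Unit) => pa_N B S :=
      measurable_pi_lambda _ fun i => pa_N_measurable hB
    have h2 := congrArg (fun m => m univ) h1
    simp only [Measure.map_apply hm MeasurableSet.univ, preimage_univ] at h2
    exact ⟨by rw [h2]; exact measure_lt_top _ _⟩
  have hmap : ν1.map pa_Phi = ν2.map pa_Phi := by
    refine IsProjectiveLimit.unique (P := fun J : Finset pa_I => (ν1.map pa_Phi).map J.restrict)
      (fun J => rfl) (fun J => ?_)
    obtain ⟨r, hr, hr0r, hJ⟩ := pa_exists_r J hr0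
    let ι := (J → Bool) × Bool
    let g : ℂ → ι := fun z => (fun j => decide (z ∈ j.1.1), decide (z ∈ B))
    have hg : Measurable g := by
      refine (measurable_pi_lambda _ fun j => ?_).prodMk ?_
      · refine measurable_to_bool ?_
        have : (fun z : ℂ => decide (z ∈ j.1.1)) ⁻¹' {true} = j.1.1 := by ext z; simp
        rw [this]; exact j.1.2.1
      · refine measurable_to_bool ?_
        have : (fun z : ℂ => decide (z ∈ B)) ⁻¹' {true} = B := by ext z; simp
        rw [this]; exact hB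
    let A : ι → Set ℂ := fun i => Metric.closedBall 0 r ∩ g ⁻¹' {i}
    have hA : ∀ i, MeasurableSet (A i) := fun i =>
      measurableSet_closedBall.inter (hg (measurableSet_singleton i))
    have hAr : ∀ i, A i ⊆ Metric.closedBall 0 r := fun i => inter_subset_left
    have hd : Pairwise fun i j => Disjoint (A i) (A j) := by
      intro i j hij
      rw [Set.disjoint_left]
      rintro z ⟨_, hi⟩ ⟨_, hj⟩
      exact hij (by rw [← (hi : g z = i), ← (hj : g z = j)])
    have hBA : B = ⋃ i ∈ (Finset.univ.filter fun i : ι => i.2 = true), A i := by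
      ext z
      simp only [mem_iUnion, Finset.mem_filter, Finset.mem_univ, true_and, exists_prop]
      constructor
      · intro hz
        refine ⟨g z, ?_, ?_, rfl⟩
        · simp [g, hz]
        · exact Metric.closedBall_subset_closedBall hr0r (hBr hz)
      · rintro ⟨i, hi, _, hz⟩
        have hz' : g z = i := hz
        rw [← hz'] at hi
        simpa [g] using hi
    have hL := pa_map_eq hA (h ι A _ r hr hA hAr hd hBA)
    let G : (ι → ℕ) → (J → ℕ) := fun l j =>
      ∑ i ∈ (Finset.univ.filter fun i : ι => i.1 j = true), l i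
    have hG : Measurable G := measurable_of_countable _
    have hLm : Measurable fun (S : Cfg) (i : ι) => pa_N (A i) S :=
      measurable_pi_lambda _ fun i => pa_N_measurable (hA i)
    have hcomp : J.restrict ∘ pa_Phi = G ∘ (fun (S : Cfg) (i : ι) => pa_N (A i) S) := by
      funext S j
      have hj : j.1.1 = ⋃ i ∈ (Finset.univ.filter fun i : ι => i.1 j = true), A i := by
        ext z
        simp only [mem_iUnion, Finset.mem_filter, Finset.mem_univ, true_and, exists_prop]
        constructor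
        · intro hz
          refine ⟨g z, ?_, ?_, rfl⟩
          · simp [g, hz]
          · exact hJ j.1 j.2 hz
        · rintro ⟨i, hi, _, hz⟩
          have hz' : g z = i := hz
          rw [← hz'] at hi
          simpa [g] using hi
      change pa_N j.1.1 S = ∑ i ∈ (Finset.univ.filter fun i : ι => i.1 j = true), pa_N (A i) S
      rw [← pa_N_biUnion S A _ hA hr hAr hd, ← hj]
    have hres : Measurable (J.restrict : (pa_I → ℕ) → (J → ℕ)) :=
      measurable_pi_lambda _ fun j => measurable_pi_apply _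
    change (ν2.map pa_Phi).map J.restrict = (ν1.map pa_Phi).map J.restrict
    rw [Measure.map_map hres pa_Phi_measurable, Measure.map_map hres pa_Phi_measurable, hcomp,
      ← Measure.map_map hG hLm, ← Measure.map_map hG hLm, hL]
  ext s hs
  obtain ⟨t, ht, rfl⟩ := pa_comap_le hs
  rw [← Measure.map_apply pa_Phi_measurable ht, ← Measure.map_apply pa_Phi_measurable ht, hmap]

theorem pa_hypArea_closedBall {r : ℝ} (hr : r < 1) :
    hypArea (Metric.closedBall 0 r) ≠ ∞ := by
  by_cases h0 : r < 0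
  · rw [Metric.closedBall_eq_empty.2 h0]; simp
  push Not at h0
  have h1 : 0 < 1 - r ^ 2 := by nlinarith
  unfold hypArea
  rw [withDensity_apply _ measurableSet_closedBall]
  refine ne_top_of_le_ne_top (b := ENNReal.ofReal (4 / (1 - r ^ 2) ^ 2) *
    volume (Metric.closedBall (0 : ℂ) r)) ?_ ?_
  · exact ENNReal.mul_ne_top ENNReal.ofReal_ne_top measure_closedBall_lt_top.ne
  · calc ∫⁻ z in Metric.closedBall (0 : ℂ) r, ENNReal.ofReal (4 / (1 - ‖z‖ ^ 2) ^ 2)
          ∂(volume.restrict disc)
        ≤ ∫⁻ z in Metric.closedBall (0 : ℂ) r, ENNReal.ofReal (4 / (1 - r ^ 2) ^ 2)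
          ∂(volume.restrict disc) := by
          refine setLIntegral_mono measurable_const fun z hz => ?_
          apply ENNReal.ofReal_le_ofReal
          have hz' : ‖z‖ ≤ r := by simpa using hz
          have h2 : ‖z‖ ^ 2 ≤ r ^ 2 := by
            have := norm_nonneg z
            nlinarith
          apply div_le_div_of_nonneg_left (by norm_num) (by positivity)
          apply pow_le_pow_left₀ h1.le
          linarith
      _ = ENNReal.ofReal (4 / (1 - r ^ 2) ^ 2) *
          (volume.restrict disc) (Metric.closedBall (0 : ℂ) r) := by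
          rw [setLIntegral_const]
      _ ≤ _ := by
          gcongr
          exact Measure.restrict_le_self

theorem pa_hypArea_ne_top {B : Set ℂ} {r : ℝ} (hr : r < 1) (hB : B ⊆ Metric.closedBall 0 r) :
    hypArea B ≠ ∞ :=
  ne_top_of_le_ne_top (pa_hypArea_closedBall hr) (measure_mono hB)

theorem pa_hypArea_ac : hypArea ≪ volume :=
  (withDensity_absolutelyContinuous _ _).trans
    (Measure.absolutelyContinuous_of_le Measure.restrict_le_self)

theorem pa_hypArea_singleton (x : ℂ) : hypArea {x} = 0 :=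
  pa_hypArea_ac (measure_singleton x)

theorem pa_hypArea_compl_disc : hypArea discᶜ = 0 := by
  have h : hypArea ≪ volume.restrict disc := withDensity_absolutelyContinuous _ _
  apply h
  rw [Measure.restrict_apply measurableSet_ball.compl]
  simp

instance pa_sfinite : SFinite hypArea := by
  unfold hypArea
  infer_instance

theorem pa_law {μ : Measure Cfg} {lam : ℝ} (h : IsPoissonLaw μ lam) {ι : Type*} [Fintype ι]
    {A : ι → Set ℂ} (hA : ∀ i, MeasurableSet (A i)) (hd : Pairwise fun i j => Disjoint (A i) (A j))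
    {r : ℝ} (hr : r < 1) (hAr : ∀ i, A i ⊆ Metric.closedBall 0 r) (k : ι → ℕ) :
    μ {S | ∀ i, pa_N (A i) S = k i} =
      ∏ i, ENNReal.ofReal (Real.exp (-(lam * (hypArea (A i)).toReal)) *
        (lam * (hypArea (A i)).toReal) ^ (k i) / (k i).factorial) := by
  let e := Fintype.equivFin ι
  have h1 := h.law (Fintype.card ι) (fun j => A (e.symm j)) (fun j => hA _)
    (fun i j hij => hd (fun h => hij (e.symm.injective h)))
    (fun j => pa_hypArea_ne_top hr (hAr _)) (fun j => k (e.symm j))
  have h2 : {S : Cfg | ∀ i, (S.1 ∩ A (e.symm i)).encard = k (e.symm i)} =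
      {S | ∀ i, pa_N (A i) S = k i} := by
    ext S
    constructor
    · intro hS i
      have := hS (e i)
      rw [e.symm_apply_apply, ← (pa_finite S hr (hAr i)).cast_ncard_eq] at this
      exact_mod_cast this
    · intro hS i
      have := hS (e.symm i)
      rw [← (pa_finite S hr (hAr (e.symm i))).cast_ncard_eq, ← this]
      rfl
  rw [h2] at h1
  rw [h1]
  exact Equiv.prod_comp e.symm (fun i => ENNReal.ofReal (Real.exp (-(lam *
    (hypArea (A i)).toReal)) * (lam * (hypArea (A i)).toReal) ^ (k i) / (k i).factorial))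

/-- uniqueness of the law -/
theorem IsPoissonLaw.unique {μ μ' : Measure Cfg} {lam : ℝ} (h : IsPoissonLaw μ lam)
    (h' : IsPoissonLaw μ' lam) : μ = μ' := by
  have := h'.isProb
  refine pa_ext (B := ∅) MeasurableSet.empty (r0 := 0) one_pos (empty_subset _) ?_
  intro ι _ _ A s r hr hA hAr hd _ k
  rw [pa_law h hA hd hr hAr, pa_law h' hA hd hr hAr]

theorem pa_notMem {μ : Measure Cfg} {lam : ℝ} (h : IsPoissonLaw μ lam) (x : ℂ) :
    ∀ᵐ S ∂μ, x ∉ S.1 := by
  have := h.isProb
  have h1 := h.law 1 (fun _ => {x}) (fun _ => measurableSet_singleton x)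
    (fun i j hij => absurd (Subsingleton.elim i j) hij)
    (fun _ => by rw [pa_hypArea_singleton]; simp) (fun _ => 0)
  simp only [pa_hypArea_singleton] at h1
  have h2 : {S : Cfg | ∀ i : Fin 1, (S.1 ∩ {x}).encard = ((0 : ℕ) : ℕ∞)} = {S | x ∉ S.1} := by
    ext S
    simp
  rw [h2] at h1
  simp at h1
  have hm : MeasurableSet {S : Cfg | x ∉ S.1} := by
    have : {S : Cfg | x ∉ S.1} = (fun S => cnt S {x}) ⁻¹' {0} := by
      ext S; simp [pa_cnt_singleton]
    rw [this]
    exact pa_measurable_cnt (measurableSet_singleton x) (measurableSet_singleton 0)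
  have := (prob_compl_eq_zero_iff hm).2 h1
  exact this

open Classical in
theorem pa_N_ins (p : ℂ) (S : Cfg) {B : Set ℂ} {r : ℝ} (hr : r < 1)
    (hB : B ⊆ Metric.closedBall 0 r) :
    pa_N B (ins p S) = pa_N B S + if p ∈ B ∧ p ∉ S.1 then 1 else 0 := by
  have h1 := pa_encard_ins p S B
  rw [← (pa_finite S hr hB).cast_ncard_eq, ← (pa_finite (ins p S) hr hB).cast_ncard_eq] at h1
  have h2 : (p ∈ disc ∧ p ∈ B ∧ p ∉ S.1) ↔ (p ∈ B ∧ p ∉ S.1) := by
    constructor
    · exact fun h => h.2
    · intro h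
      refine ⟨?_, h⟩
      have := hB h.1
      simp only [Metric.mem_closedBall, dist_zero_right] at this
      simpa using this.trans_lt hr
  unfold pa_N
  split_ifs with h3
  · rw [if_pos (h2.2 h3)] at h1
    have : (((ins p S).1 ∩ B).ncard : ℝ≥0∞) = (((S.1 ∩ B).ncard + 1 : ℕ) : ℝ≥0∞) := by
      simpa using h1
    exact_mod_cast this
  · rw [if_neg (fun h => h3 (h2.1 h))] at h1
    have : (((ins p S).1 ∩ B).ncard : ℝ≥0∞) = (((S.1 ∩ B).ncard : ℕ) : ℝ≥0∞) := by
      simpa using h1
    simpa using this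

theorem pa_real_step (t : ℝ) (ht : 0 ≤ t) (n : ℕ) :
    ((n + 1 : ℕ) : ℝ≥0∞) * ENNReal.ofReal (Real.exp (-t) * t ^ (n + 1) / (n + 1).factorial) =
      ENNReal.ofReal t * ENNReal.ofReal (Real.exp (-t) * t ^ n / n.factorial) := by
  rw [← ENNReal.ofReal_natCast, ← ENNReal.ofReal_mul (by positivity), ← ENNReal.ofReal_mul ht]
  congr 1
  rw [Nat.factorial_succ]
  have : ((n : ℝ) + 1) ≠ 0 := by positivity
  push_cast
  field_simp
  ring

theorem pa_mecke_cell {μ : Measure Cfg} {lam : ℝ} (h : IsPoissonLaw μ lam) {ι : Type}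
    [Fintype ι] [DecidableEq ι]
    {A : ι → Set ℂ} (hA : ∀ i, MeasurableSet (A i)) (hd : Pairwise fun i j => Disjoint (A i) (A j))
    {r : ℝ} (hr : r < 1) (hAr : ∀ i, A i ⊆ Metric.closedBall 0 r) (k : ι → ℕ) (j : ι) :
    (k j : ℝ≥0∞) * μ {S | ∀ i, pa_N (A i) S = k i} = ENNReal.ofReal lam *
      ∫⁻ x in A j, μ {S | ∀ i, pa_N (A i) (ins x S) = k i} ∂hypArea := by
  classical
  have hprob := h.isProb
  have hlam := h.pos
  rcases Nat.eq_zero_or_pos (k j) with h0 | hpos
  · have h1 : ∀ x ∈ A j, μ {S | ∀ i, pa_N (A i) (ins x S) = k i} = 0 := by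
      intro x hx
      refine measure_mono_null ?_ (pa_notMem h x)
      intro S hS
      have := hS j
      rw [pa_N_ins x S hr (hAr j), h0] at this
      by_contra h3
      have h4 : x ∉ S.1 := by simpa using h3
      rw [if_pos ⟨hx, h4⟩] at this
      omega
    rw [h0, setLIntegral_congr_fun (hA j) h1]
    simp
  · let k' : ι → ℕ := fun i => if i = j then k j - 1 else k i
    have h1 : ∀ x ∈ A j, μ {S | ∀ i, pa_N (A i) (ins x S) = k i} =
        μ {S | ∀ i, pa_N (A i) S = k' i} := by
      intro x hx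
      refine measure_congr ?_
      filter_upwards [pa_notMem h x] with S hS
      have h2 : ∀ i, pa_N (A i) (ins x S) = pa_N (A i) S + if i = j then 1 else 0 := by
        intro i
        rw [pa_N_ins x S hr (hAr i)]
        by_cases hij : i = j
        · subst hij
          rw [if_pos ⟨hx, hS⟩, if_pos rfl]
        · rw [if_neg, if_neg hij]
          rintro ⟨h3, _⟩
          exact Set.disjoint_left.1 (hd hij) h3 hx
      apply propext
      change (∀ i, pa_N (A i) (ins x S) = k i) ↔ (∀ i, pa_N (A i) S = k' i)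
      constructor
      · intro h3 i
        have := h3 i
        rw [h2 i] at this
        by_cases hij : i = j
        · subst hij; simp only [if_true, k'] at this ⊢; omega
        · simp only [if_neg hij, k'] at this ⊢; omega
      · intro h3 i
        have := h3 i
        rw [h2 i]
        by_cases hij : i = j
        · subst hij; simp only [if_true, k'] at this ⊢; omega
        · simp only [if_neg hij, k'] at this ⊢; omega
    rw [setLIntegral_congr_fun (hA j) h1, lintegral_const, Measure.restrict_apply_univ,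
      pa_law h hA hd hr hAr, pa_law h hA hd hr hAr]
    set p : ι → ℕ → ℝ≥0∞ := fun i n => ENNReal.ofReal (Real.exp (-(lam *
      (hypArea (A i)).toReal)) * (lam * (hypArea (A i)).toReal) ^ n / n.factorial) with hp
    have h3 : ∏ i, p i (k i) = p j (k j) * ∏ i ∈ Finset.univ.erase j, p i (k i) :=
      (Finset.mul_prod_erase _ _ (Finset.mem_univ j)).symm
    have h4 : ∏ i, p i (k' i) = p j (k j - 1) * ∏ i ∈ Finset.univ.erase j, p i (k i) := by
      rw [← Finset.mul_prod_erase _ _ (Finset.mem_univ j)]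
      congr 1
      · simp [k']
      · refine Finset.prod_congr rfl fun i hi => ?_
        have : i ≠ j := Finset.ne_of_mem_erase hi
        simp [k', this]
    have h5 : (k j : ℝ≥0∞) * p j (k j) =
        ENNReal.ofReal lam * hypArea (A j) * p j (k j - 1) := by
      obtain ⟨n, hn⟩ : ∃ n, k j = n + 1 := ⟨k j - 1, by omega⟩
      rw [hn, hp]
      simp only [Nat.add_sub_cancel]
      rw [pa_real_step _ (by positivity), ENNReal.ofReal_mul hlam.le,
        ENNReal.ofReal_toReal (pa_hypArea_ne_top hr (hAr j))]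
    change (k j : ℝ≥0∞) * ∏ i, p i (k i) =
      ENNReal.ofReal lam * ((∏ i, p i (k' i)) * hypArea (A j))
    rw [h3, h4, ← mul_assoc, h5]
    ring

theorem pa_mecke_rect {μ : Measure Cfg} {lam : ℝ} (h : IsPoissonLaw μ lam)
    {B : Set ℂ} (hB : MeasurableSet B) {r0 : ℝ} (hr0 : r0 < 1)
    (hBr : B ⊆ Metric.closedBall 0 r0) {E : Set Cfg} (hE : MeasurableSet E) :
    ∫⁻ S in E, cnt S B ∂μ = ENNReal.ofReal lam * ∫⁻ x in B, μ {S | ins x S ∈ E} ∂hypArea := by
  have hprob := h.isProb
  let ν1 : Measure Cfg := μ.withDensity fun S => cnt S B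
  let ν2 : Measure Cfg := ENNReal.ofReal lam •
    ((hypArea.restrict B).prod μ).map fun q => ins q.1 q.2
  have h1 : ∀ E, MeasurableSet E → ν1 E = ∫⁻ S in E, cnt S B ∂μ := fun E hE =>
    withDensity_apply _ hE
  have h2 : ∀ E, MeasurableSet E → ν2 E =
      ENNReal.ofReal lam * ∫⁻ x in B, μ {S | ins x S ∈ E} ∂hypArea := by
    intro E hE
    change (ENNReal.ofReal lam • ((hypArea.restrict B).prod μ).map fun q => ins q.1 q.2) E = _
    rw [Measure.smul_apply, Measure.map_apply measurable_ins hE,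
      Measure.prod_apply (measurable_ins hE)]
    rfl
  have : IsFiniteMeasure (hypArea.restrict B) :=
    ⟨by rw [Measure.restrict_apply_univ]; exact (pa_hypArea_ne_top hr0 hBr).lt_top⟩
  have hfin : IsFiniteMeasure ν2 := by
    constructor
    rw [h2 _ MeasurableSet.univ]
    refine ENNReal.mul_lt_top ENNReal.ofReal_lt_top ?_
    simp only [mem_univ, ofPred_true, measure_univ]
    simp
    exact (pa_hypArea_ne_top hr0 hBr).lt_top
  have hν : ν1 = ν2 := by
    refine pa_ext hB hr0 hBr ?_
    intro ι _ _ A s r hr hA hAr hd hBA k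
    have hm : MeasurableSet {S : Cfg | ∀ i, pa_N (A i) S = k i} := by
      have : {S : Cfg | ∀ i, pa_N (A i) S = k i} = ⋂ i, (pa_N (A i)) ⁻¹' {k i} := by
        ext S; simp
      rw [this]
      exact MeasurableSet.iInter fun i => pa_N_measurable (hA i) (measurableSet_singleton _)
    rw [h1 _ hm, h2 _ hm]
    have h3 : ∀ S ∈ {S : Cfg | ∀ i, pa_N (A i) S = k i}, cnt S B = ∑ j ∈ s, (k j : ℝ≥0∞) := by
      intro S hS
      rw [pa_cnt_eq_N S hB hr0 hBr, hBA, pa_N_biUnion S A s hA hr hAr hd]
      push_cast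
      exact Finset.sum_congr rfl fun i _ => by rw [hS i]
    rw [setLIntegral_congr_fun hm h3, lintegral_const, Measure.restrict_apply_univ,
      Finset.sum_mul, Finset.sum_congr rfl fun j _ => pa_mecke_cell h hA hd hr hAr k j,
      ← Finset.mul_sum]
    congr 1
    rw [hBA, lintegral_biUnion_finset (fun i _ j _ hij => hd hij) (fun i _ => hA i)]
    rfl
  rw [← h1 E hE, hν, h2 E hE]

/-- Mecke formula -/
theorem IsPoissonLaw.mecke {μ : Measure Cfg} {lam : ℝ} (h : IsPoissonLaw μ lam)
    {F : ℂ × Cfg → ℝ≥0∞} (hF : Measurable F) :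
    ∫⁻ S, ∫⁻ x, F (x, S) ∂(cnt S) ∂μ =
      ENNReal.ofReal lam * ∫⁻ x, ∫⁻ S, F (x, ins x S) ∂μ ∂hypArea := by
  have hprob := h.isProb
  have hT : Measurable fun q : ℂ × Cfg => ((ins q.1 q.2, q.1) : Cfg × ℂ) :=
    measurable_ins.prodMk measurable_fst
  let M2 : Measure (Cfg × ℂ) := ENNReal.ofReal lam •
    (hypArea.prod μ).map fun q => (ins q.1 q.2, q.1)
  let D : ℕ → Set (Cfg × ℂ) := fun n => univ ×ˢ (Metric.closedBall 0 (pa_rad n) ∪ discᶜ)
  have hDm : ∀ n, MeasurableSet (Metric.closedBall (0 : ℂ) (pa_rad n) ∪ discᶜ) := fun n =>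
    measurableSet_closedBall.union measurableSet_ball.compl
  have hrect : ∀ (n : ℕ) (E : Set Cfg) (B : Set ℂ), MeasurableSet E → MeasurableSet B →
      (μ ⊗ₘ cnt).restrict (D n) (E ×ˢ B) = M2.restrict (D n) (E ×ˢ B) := by
    intro n E B hE hB
    rw [Measure.restrict_apply (hE.prod hB), Measure.restrict_apply (hE.prod hB)]
    have h1 : (E ×ˢ B) ∩ D n = E ×ˢ (B ∩ (Metric.closedBall 0 (pa_rad n) ∪ discᶜ)) := by
      rw [prod_inter_prod, inter_univ]
    rw [h1, Measure.compProd_apply_prod hE (hB.inter (hDm n))]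
    change _ = (ENNReal.ofReal lam • (hypArea.prod μ).map fun q => (ins q.1 q.2, q.1)) _
    rw [Measure.smul_apply, Measure.map_apply hT (hE.prod (hB.inter (hDm n))),
      Measure.prod_apply (hT (hE.prod (hB.inter (hDm n))))]
    have h2 : ∀ S : Cfg, cnt S (B ∩ (Metric.closedBall 0 (pa_rad n) ∪ discᶜ)) =
        cnt S (B ∩ Metric.closedBall 0 (pa_rad n)) := by
      intro S
      rw [← pa_cnt_inter_disc S _ (hB.inter (hDm n)),
        ← pa_cnt_inter_disc S _ (hB.inter measurableSet_closedBall)]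
      congr 1
      ext z
      simp only [mem_inter_iff, mem_union, mem_compl_iff]
      tauto
    simp_rw [h2]
    rw [pa_mecke_rect h (hB.inter measurableSet_closedBall) (pa_rad_lt_one n) inter_subset_right
      hE]
    rw [smul_eq_mul]
    congr 1
    rw [← lintegral_indicator (hB.inter measurableSet_closedBall)]
    have h3 : ∀ᵐ x ∂hypArea, x ∈ disc := pa_hypArea_compl_disc
    refine lintegral_congr_ae ?_
    filter_upwards [h3] with x hx
    by_cases hxB : x ∈ B ∩ Metric.closedBall 0 (pa_rad n)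
    · rw [indicator_of_mem hxB]
      congr 1
      ext S
      constructor
      · intro hS; exact ⟨hS, hxB.1, Or.inl hxB.2⟩
      · intro hS; exact hS.1
    · rw [indicator_of_notMem hxB]
      symm
      have : (Prod.mk x ⁻¹' ((fun q : ℂ × Cfg => ((ins q.1 q.2, q.1) : Cfg × ℂ)) ⁻¹'
          (E ×ˢ (B ∩ (Metric.closedBall 0 (pa_rad n) ∪ discᶜ))))) = ∅ := by
        ext S
        simp only [mem_preimage, mem_prod, mem_empty_iff_false, iff_false]
        rintro ⟨_, h4, h5 | h5⟩
        · exact hxB ⟨h4, h5⟩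
        · exact h5 hx
      rw [this, measure_empty]
  have hfin : ∀ n, IsFiniteMeasure (M2.restrict (D n)) := by
    intro n
    constructor
    have h1 := hrect n univ univ MeasurableSet.univ MeasurableSet.univ
    have h2 := pa_mecke_rect h (measurableSet_closedBall) (pa_rad_lt_one n) (subset_refl _)
      MeasurableSet.univ
    rw [univ_prod_univ] at h1
    rw [← h1, Measure.restrict_apply_univ, Measure.compProd_apply_prod MeasurableSet.univ (hDm n)]
    have h3 : ∀ S : Cfg, cnt S (Metric.closedBall 0 (pa_rad n) ∪ discᶜ) =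
        cnt S (Metric.closedBall 0 (pa_rad n)) := by
      intro S
      rw [← pa_cnt_inter_disc S _ (hDm n), ← pa_cnt_inter_disc S _ measurableSet_closedBall]
      congr 1
      ext z
      simp only [mem_inter_iff, mem_union, mem_compl_iff]
      tauto
    simp_rw [h3]
    rw [h2]
    refine ENNReal.mul_lt_top ENNReal.ofReal_lt_top ?_
    simp only [mem_univ, ofPred_true, measure_univ]
    simp
    exact (pa_hypArea_closedBall (pa_rad_lt_one n)).lt_top
  have hM : μ ⊗ₘ cnt = M2 := by
    have hU : ⋃ n, D n = univ := by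
      ext ⟨S, z⟩
      simp only [mem_iUnion, mem_univ, iff_true]
      by_cases hz : z ∈ disc
      · rw [pa_disc_eq] at hz
        obtain ⟨n, hn⟩ := mem_iUnion.1 hz
        exact ⟨n, mem_univ _, Or.inl hn⟩
      · exact ⟨0, mem_univ _, Or.inr hz⟩
    refine Measure.ext_of_iUnion_eq_univ hU fun n => ?_
    have := hfin n
    exact (Measure.ext_prod fun {s t} hs ht => (hrect n s t hs ht).symm).symm
  have hF' : Measurable fun q : Cfg × ℂ => F (q.2, q.1) := hF.comp measurable_swap
  have h1 : ∫⁻ S, ∫⁻ x, F (x, S) ∂(cnt S) ∂μ = ∫⁻ q, F (q.2, q.1) ∂(μ ⊗ₘ cnt) :=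
    (Measure.lintegral_compProd hF').symm
  rw [h1, hM]
  change ∫⁻ q, F (q.2, q.1) ∂(ENNReal.ofReal lam •
    (hypArea.prod μ).map fun q => ((ins q.1 q.2, q.1) : Cfg × ℂ)) = _
  rw [lintegral_smul_measure, lintegral_map hF' hT, smul_eq_mul]
  congr 1
  exact lintegral_prod _ (hF'.comp hT).aemeasurable

end HPV
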