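import Pool.Agent.Helper28.HPV.Defs

/-! Abstract simple random walks on locally finite graphs: definitions. -/

open MeasureTheory ProbabilityTheory Set Filter Topology
open scoped ENNReal NNReal Real

namespace HPV

/-- prepend a vertex to a path -/
def pcons {V : Type*} (x : V) (p : ℕ → V) : ℕ → V
  | 0 => x
  | n + 1 => p n

/-- simple random walk on a locally finite graph: `nb x` is the set of neighbours, `P x` the law of
the walk started at `x`; nothing is assumed on `P x` when `x` has no neighbour (except `start`) -/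
structure RW (V : Type*) [MeasurableSpace V] where
  nb : V → Finset V
  symm : ∀ {x y}, y ∈ nb x → x ∈ nb y
  irr : ∀ x, x ∉ nb x
  P : V → Measure (ℕ → V)
  prob : ∀ x, IsProbabilityMeasure (P x)
  start : ∀ x, ∀ᵐ p ∂(P x), p 0 = x
  step : ∀ x, (nb x).Nonempty →
    P x = ((nb x).card : ℝ≥0∞)⁻¹ • ∑ y ∈ nb x, (P y).map (pcons x)

/-- shift-invariant measurable set of paths -/
def Inv {V : Type*} [MeasurableSpace V] (A : Set (ℕ → V)) : Prop :=
  MeasurableSet A ∧ ∀ x p, pcons x p ∈ A ↔ p ∈ A

/-- paths that never visit `K` -/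
def avoid {V : Type*} (K : Finset V) : Set (ℕ → V) := {p | ∀ n, p n ∉ K}

variable {V : Type*} [MeasurableSpace V]

/-- `h_A(x) = P_x(A)` -/
noncomputable def RW.h (W : RW V) (A : Set (ℕ → V)) (x : V) : ℝ := (W.P x).real A

/-- `h^K_A(x) = P_x(A, never in K)` -/
noncomputable def RW.hK (W : RW V) (K : Finset V) (A : Set (ℕ → V)) (x : V) : ℝ :=
  (W.P x).real (A ∩ avoid K)

/-- `e^K_x(A) = deg(x) P_x(A, not in K at positive times)` -/
noncomputable def RW.e (W : RW V) (K : Finset V) (A : Set (ℕ → V)) (x : V) : ℝ :=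
  ∑ y ∈ W.nb x, W.hK K A y

/-- mass of the bi-infinite excursions through `K` with past in `A` and future in `B` -/
noncomputable def RW.J (W : RW V) (K : Finset V) (A B : Set (ℕ → V)) : ℝ :=
  ∑ x ∈ K, W.e K A x * W.h B x

end HPV
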