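import Pool.Agent.Helper28.HPV.DensityB
import Pool.Agent.Helper28.HPV.GoodB2

open MeasureTheory ProbabilityTheory Set Filter Topology
open scoped ENNReal NNReal Real ComplexConjugate

namespace HPV

namespace ZO

/-! ### The circle -/

theorem circ_eq : circ = (volume.restrict (Ioc (-π) π)).map
    fun θ : ℝ => Complex.exp (θ * Complex.I) := rfl

theorem meas_exp : Measurable fun θ : ℝ => Complex.exp (θ * Complex.I) := by fun_prop

theorem fin_circ : IsFiniteMeasure circ := by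
  rw [circ_eq]
  infer_instance

attribute [local instance] fin_circ

theorem ae_circ : ∀ᵐ ξ ∂circ, ‖ξ‖ = 1 := by
  rw [circ_eq, ae_map_iff meas_exp.aemeasurable
    (measurableSet_eq_fun measurable_norm measurable_const)]
  filter_upwards with θ
  exact Complex.norm_exp_ofReal_mul_I θ

theorem exp_inj {θ θ' : ℝ} (h : θ ∈ Ioc (-π) π) (h' : θ' ∈ Ioc (-π) π)
    (he : Complex.exp (θ * Complex.I) = Complex.exp (θ' * Complex.I)) : θ = θ' := by
  rw [← Complex.arg_cos_add_sin_mul_I h, ← Complex.arg_cos_add_sin_mul_I h',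
    ← Complex.exp_mul_I, ← Complex.exp_mul_I, he]

theorem circ_singleton (ξ : ℂ) : circ {ξ} = 0 := by
  rw [circ_eq, Measure.map_apply meas_exp (measurableSet_singleton ξ),
    Measure.restrict_apply (meas_exp (measurableSet_singleton ξ))]
  apply Set.Subsingleton.measure_zero
  rintro θ ⟨h1, h2⟩ θ' ⟨h1', h2'⟩
  apply exp_inj h2 h2'
  rw [mem_preimage, mem_singleton_iff] at h1 h1'
  rw [h1, h1']

theorem ae_circ2 : ∀ᵐ x ∂(circ.prod circ), ‖x.1‖ = 1 ∧ ‖x.2‖ = 1 := by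
  filter_upwards [(Measure.quasiMeasurePreserving_fst (μ := circ) (ν := circ)).ae ae_circ,
    (Measure.quasiMeasurePreserving_snd (μ := circ) (ν := circ)).ae ae_circ] with x h1 h2
  exact ⟨h1, h2⟩

theorem ae_ne : ∀ᵐ x ∂(circ.prod circ), x.1 ≠ x.2 := by
  rw [ae_iff]
  have hm : MeasurableSet {x : ℂ × ℂ | x.1 = x.2} :=
    measurableSet_eq_fun measurable_fst measurable_snd
  have : {x : ℂ × ℂ | ¬ x.1 ≠ x.2} = {x : ℂ × ℂ | x.1 = x.2} := by
    ext x
    simp
  rw [this, Measure.prod_apply hm]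
  rw [lintegral_eq_zero_iff (measurable_measure_prodMk_left hm)]
  filter_upwards with ξ
  have : Prod.mk ξ ⁻¹' {x : ℂ × ℂ | x.1 = x.2} = {ξ} := by
    ext η
    simp [eq_comm]
  rw [this, circ_singleton]
  rfl

theorem norm_exp_sub_one (θ : ℝ) :
    ‖Complex.exp (θ * Complex.I) - 1‖ = 2 * |Real.sin (θ / 2)| := by
  have := Complex.norm_exp_I_mul_ofReal_sub_one θ
  rw [mul_comm Complex.I] at this
  rw [this, Real.norm_eq_abs, abs_mul]
  norm_num

theorem norm_exp_sub_one_le (θ : ℝ) : ‖Complex.exp (θ * Complex.I) - 1‖ ≤ |θ| := by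
  have := Real.norm_exp_I_mul_ofReal_sub_one_le (x := θ)
  rw [mul_comm Complex.I] at this
  simpa using this

theorem le_norm_exp_sub_one {θ : ℝ} (h : |θ| ≤ π) :
    2 / π * |θ| ≤ ‖Complex.exp (θ * Complex.I) - 1‖ := by
  rw [norm_exp_sub_one]
  have h1 : |Real.sin (θ / 2)| = Real.sin (|θ| / 2) := by
    rcases le_total 0 θ with h0 | h0
    · rw [abs_of_nonneg h0]
      rw [abs_of_nonneg h0] at h
      exact abs_of_nonneg (Real.sin_nonneg_of_nonneg_of_le_pi (by linarith)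
        (by linarith [Real.pi_pos]))
    · rw [abs_of_nonpos h0]
      rw [abs_of_nonpos h0] at h
      rw [show θ / 2 = -(-θ / 2) by ring, Real.sin_neg, abs_neg]
      exact abs_of_nonneg (Real.sin_nonneg_of_nonneg_of_le_pi (by linarith)
        (by linarith [Real.pi_pos]))
  rw [h1]
  have h2 := Real.mul_le_sin (x := |θ| / 2) (by positivity) (by linarith)
  calc 2 / π * |θ| = 2 * (2 / π * (|θ| / 2)) := by ring
    _ ≤ _ := by linarith

/-- small arcs around `1` -/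
theorem circ_arc_le (s : ℝ) : circ {ζ | ‖ζ - 1‖ ≤ s} ≤ ENNReal.ofReal (π * s) := by
  have hm : MeasurableSet {ζ : ℂ | ‖ζ - 1‖ ≤ s} :=
    measurableSet_le (by fun_prop) measurable_const
  rw [circ_eq, Measure.map_apply meas_exp hm, Measure.restrict_apply (meas_exp hm)]
  have hsub : (fun θ : ℝ => Complex.exp (θ * Complex.I)) ⁻¹' {ζ : ℂ | ‖ζ - 1‖ ≤ s} ∩
      Ioc (-π) π ⊆ Icc (-(π * s / 2)) (π * s / 2) := by
    rintro θ ⟨h1, h2, h3⟩
    have h4 : |θ| ≤ π := abs_le.2 ⟨h2.le, h3⟩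
    have h5 := le_norm_exp_sub_one h4
    have h6 : 2 / π * |θ| ≤ s := h5.trans h1
    have hpi := Real.pi_pos
    have h7 : |θ| ≤ π * s / 2 := by
      rw [div_mul_eq_mul_div, div_le_iff₀ hpi] at h6
      linarith
    exact abs_le.1 h7
  refine (measure_mono hsub).trans ?_
  rw [Real.volume_Icc]
  apply ENNReal.ofReal_le_ofReal
  linarith

theorem le_circ_arc {s : ℝ} (hs : s < π) : ENNReal.ofReal (2 * s) ≤ circ {ζ | ‖ζ - 1‖ ≤ s} := by
  have hm : MeasurableSet {ζ : ℂ | ‖ζ - 1‖ ≤ s} :=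
    measurableSet_le (by fun_prop) measurable_const
  rw [circ_eq, Measure.map_apply meas_exp hm, Measure.restrict_apply (meas_exp hm)]
  have hsub : Icc (-s) s ⊆ (fun θ : ℝ => Complex.exp (θ * Complex.I)) ⁻¹'
      {ζ : ℂ | ‖ζ - 1‖ ≤ s} ∩ Ioc (-π) π := by
    rintro θ ⟨h1, h2⟩
    refine ⟨(norm_exp_sub_one_le θ).trans (abs_le.2 ⟨h1, h2⟩), by linarith, by linarith⟩
  refine le_trans ?_ (measure_mono hsub)
  rw [Real.volume_Icc]
  apply ENNReal.ofReal_le_ofReal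
  linarith

/-- arcs around an arbitrary point -/
theorem arc_eq {ξ : ℂ} (hξ : ‖ξ‖ = 1) (s : ℝ) :
    volume.restrict (Ioc (-π) π) {θ : ℝ | ‖Complex.exp (θ * Complex.I) * ξ - 1‖ ≤ s} =
      circ {ζ | ‖ζ - 1‖ ≤ s} := by
  have hm : MeasurableSet {ζ : ℂ | ‖ζ - 1‖ ≤ s} :=
    measurableSet_le (by fun_prop) measurable_const
  have h1 := (Mob.circ_rot ξ.arg).measure_preimage hm.nullMeasurableSet
  rw [← h1]
  have hm2 : MeasurableSet ((Mob.rot ξ.arg).f ⁻¹' {ζ : ℂ | ‖ζ - 1‖ ≤ s}) :=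
    (Mob.measurable_f _) hm
  conv_rhs => rw [circ_eq, Measure.map_apply meas_exp hm2]
  congr 1
  ext θ
  simp only [mem_ofPred_eq, mem_preimage, Mob.rot_f]
  have h2 : Complex.exp (ξ.arg * Complex.I) = ξ := by
    have := Complex.norm_mul_exp_arg_mul_I ξ
    rwa [hξ, Complex.ofReal_one, one_mul] at this
  rw [h2, mul_comm]


/-! ### The invariant observable -/

/-- the density with respect to Liouville measure -/
noncomputable def tt (S : Cfg) (x : ℂ × ℂ) : ℝ≥0∞ := jd S x * ENNReal.ofReal (‖x.1 - x.2‖ ^ 2)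

/-- bounded version -/
noncomputable def F (q : Cfg × (ℂ × ℂ)) : ℝ := ((1 + tt q.1 q.2)⁻¹).toReal

theorem meas_F : Measurable F := by
  unfold F tt
  have := measurable_jd
  fun_prop

theorem one_le_inv (q : Cfg × (ℂ × ℂ)) : (1 + tt q.1 q.2)⁻¹ ≤ 1 := by
  rw [ENNReal.inv_le_one]
  exact le_self_add

theorem F_nonneg (q : Cfg × (ℂ × ℂ)) : 0 ≤ F q := ENNReal.toReal_nonneg

theorem F_le_one (q : Cfg × (ℂ × ℂ)) : F q ≤ 1 := by
  have := ENNReal.toReal_mono ENNReal.one_ne_top (one_le_inv q)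
  simpa [F] using this

/-- `F` determines the density off the diagonal -/
theorem jd_eq_of_F {S S' : Cfg} {x : ℂ × ℂ} (hx : x.1 ≠ x.2) (h : F (S, x) = F (S', x)) :
    jd S x = jd S' x := by
  have h1 : (1 + tt S x)⁻¹ = (1 + tt S' x)⁻¹ := by
    rw [← ENNReal.toReal_eq_toReal_iff' (ne_top_of_le_ne_top ENNReal.one_ne_top (one_le_inv (S, x)))
      (ne_top_of_le_ne_top ENNReal.one_ne_top (one_le_inv (S', x)))]
    exact h
  rw [inv_inj] at h1
  have h2 : tt S x = tt S' x := (ENNReal.add_right_inj ENNReal.one_ne_top).1 h1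
  unfold tt at h2
  have h3 : 0 < ‖x.1 - x.2‖ ^ 2 := by
    have : 0 < ‖x.1 - x.2‖ := norm_pos_iff.2 (sub_ne_zero.2 hx)
    positivity
  exact (ENNReal.mul_left_inj (ENNReal.ofReal_pos.2 h3).ne' ENNReal.ofReal_ne_top).1 h2

theorem liou_ac : liou ≪ circ.prod circ := withDensity_absolutelyContinuous _ _

theorem ae_liou : ∀ᵐ x ∂liou, ‖x.1‖ = 1 ∧ ‖x.2‖ = 1 := liou_ac.ae_le ae_circ2

instance : SFinite liou := by
  unfold liou
  infer_instance

theorem sfin_hyp : SFinite hypArea := by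
  unfold hypArea
  infer_instance

attribute [local instance] sfin_hyp

/-- action on pairs of boundary points -/
noncomputable def pm (g : Mob) (x : ℂ × ℂ) : ℂ × ℂ := (g.f x.1, g.f x.2)

theorem meas_pm (g : Mob) : Measurable (pm g) := by
  have := g.measurable_f
  unfold pm
  fun_prop

/-- automorphisms for which everything is invariant -/
structure IsInv (g : Mob) : Prop where
  mp : MeasurePreserving (pm g) liou liou
  inv : ∀ S : Cfg, Good S.1 → ∀ᵐ x ∂liou, F (g.act S, pm g x) = F (S, x)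

theorem inv_aux (g : Mob) (S : Cfg)
    (h : ∀ᵐ x ∂(circ.prod circ), jd (g.act S) (g.f x.1, g.f x.2) *
      ENNReal.ofReal (g.der x.1) * ENNReal.ofReal (g.der x.2) = jd S x) :
    ∀ᵐ x ∂liou, F (g.act S, pm g x) = F (S, x) := by
  filter_upwards [liou_ac.ae_le h, ae_liou] with x hx h1
  have h2 : tt (g.act S) (pm g x) = tt S x := by
    unfold tt pm
    simp only
    rw [g.norm_sub_sq h1.1.le h1.2.le, ← hx, mul_assoc (‖x.1 - x.2‖ ^ 2),
      mul_comm (‖x.1 - x.2‖ ^ 2), ENNReal.ofReal_mul (by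
        have := g.der_pos h1.1.le
        have := g.der_pos h1.2.le
        positivity), ENNReal.ofReal_mul (g.der_pos h1.1.le).le]
    ring
  unfold F
  simp only
  rw [h2]

theorem isInv_rot (θ : ℝ) : IsInv (Mob.rot θ) := by
  refine ⟨Mob.liou_rot θ, fun S hS => inv_aux _ _ ?_⟩
  filter_upwards [jd_rot θ S hS] with x hx
  rw [Mob.rot_der, Mob.rot_der, hx]
  simp

theorem isInv_tr (t : ℝ) (ht : t ^ 2 < 1) : IsInv (Mob.tr t ht) :=
  ⟨Mob.liou_tr t ht, fun S hS => inv_aux _ _ (jd_tr t ht S hS)⟩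

/-- the change of `F` under an insertion -/
noncomputable def Dl (q : (ℂ × (ℂ × ℂ)) × Cfg) : ℝ≥0∞ :=
  ENNReal.ofReal |F (ins q.1.1 q.2, q.1.2) - F (q.2, q.1.2)|

theorem meas_Dl : Measurable Dl := by
  have h1 : Measurable fun q : (ℂ × (ℂ × ℂ)) × Cfg => ins q.1.1 q.2 :=
    measurable_ins.comp (by fun_prop : Measurable fun q : (ℂ × (ℂ × ℂ)) × Cfg => (q.1.1, q.2))
  have h3 : Measurable fun q : (ℂ × (ℂ × ℂ)) × Cfg => F (ins q.1.1 q.2, q.1.2) :=
    meas_F.comp (h1.prodMk (by fun_prop))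
  have h4 : Measurable fun q : (ℂ × (ℂ × ℂ)) × Cfg => F (q.2, q.1.2) :=
    meas_F.comp (by fun_prop)
  exact (h3.sub h4).abs.ennreal_ofReal

/-- the expected change of `F` under an insertion -/
noncomputable def dl (μ : Measure Cfg) (q : ℂ × (ℂ × ℂ)) : ℝ≥0∞ := ∫⁻ S, Dl (q, S) ∂μ

theorem meas_dl (μ : Measure Cfg) [SFinite μ] : Measurable (dl μ) :=
  meas_Dl.lintegral_prod_right'

theorem ae_disc : ∀ᵐ p ∂hypArea, p ∈ disc := by
  unfold hypArea
  exact (withDensity_absolutelyContinuous _ _).ae_le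
    (ae_restrict_mem Metric.isOpen_ball.measurableSet)

/-- invariance of `dl` -/
theorem dl_inv {μ : Measure Cfg} {lam : ℝ} (h : IsPoissonLaw μ lam) {g : Mob} (hg : IsInv g) :
    ∀ᵐ q ∂(hypArea.prod liou), dl μ (g.f q.1, pm g q.2) = dl μ q := by
  have := h.isProb
  have e1 := g.measurable_f
  have e2 := g.measurable_act
  have e3 := meas_pm g
  have e4 : Measurable fun q : ℂ × (ℂ × ℂ) => (g.f q.1, pm g q.2) := by fun_prop
  have e8 : MeasurableSet {q : ℂ × (ℂ × ℂ) | dl μ (g.f q.1, pm g q.2) = dl μ q} :=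
    measurableSet_eq_fun ((meas_dl μ).comp e4) (meas_dl μ)
  rw [Measure.ae_prod_iff_ae_ae e8]
  have hins := Measure.ae_ae_of_ae_prod (h.ae_ins h.ae_good)
  filter_upwards [ae_disc, hins] with p hp hp2
  have h1 : ∀ᵐ S ∂μ, ∀ᵐ x ∂liou, Dl ((g.f p, pm g x), g.act S) = Dl ((p, x), S) := by
    filter_upwards [h.ae_good, hp2] with S h2 h3
    filter_upwards [hg.inv _ h2, hg.inv _ h3] with x h4 h5
    unfold Dl
    simp only
    rw [← g.act_ins hp, h4, h5]
  have e5 : Measurable fun q : Cfg × (ℂ × ℂ) => ((g.f p, pm g q.2), g.act q.1) := by fun_prop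
  have e6 : Measurable fun q : Cfg × (ℂ × ℂ) => ((p, q.2), q.1) := by fun_prop
  have e9 : MeasurableSet {q : Cfg × (ℂ × ℂ) |
      Dl ((g.f p, pm g q.2), g.act q.1) = Dl ((p, q.2), q.1)} :=
    measurableSet_eq_fun (meas_Dl.comp e5) (meas_Dl.comp e6)
  replace h1 := (Measure.ae_ae_comm
    (p := fun S x => Dl ((g.f p, pm g x), g.act S) = Dl ((p, x), S)) e9).1 h1
  filter_upwards [h1] with x hx
  unfold dl
  have e7 : Measurable fun S : Cfg => Dl ((g.f p, pm g x), S) :=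
    meas_Dl.comp measurable_prodMk_left
  rw [← (g.measurePreserving_act h).lintegral_comp e7]
  exact lintegral_congr_ae hx

/-- the measure with density `dl` -/
noncomputable def Xi (μ : Measure Cfg) : Measure (ℂ × (ℂ × ℂ)) :=
  (hypArea.prod liou).withDensity (dl μ)

/-- invariance of `Xi` -/
theorem Xi_inv {μ : Measure Cfg} {lam : ℝ} (h : IsPoissonLaw μ lam) {g : Mob} (hg : IsInv g)
    {D : Set (ℂ × (ℂ × ℂ))} (hD : MeasurableSet D) :
    Xi μ ((fun q => (g.f q.1, pm g q.2)) ⁻¹' D) = Xi μ D := by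
  have := h.isProb
  have hmp : MeasurePreserving (fun q : ℂ × (ℂ × ℂ) => (g.f q.1, pm g q.2))
      (hypArea.prod liou) (hypArea.prod liou) :=
    g.measurePreserving_hypArea.prod hg.mp
  unfold Xi
  rw [withDensity_apply _ hD, withDensity_apply _ (hmp.measurable hD),
    ← hmp.setLIntegral_comp_preimage hD (meas_dl μ)]
  apply lintegral_congr_ae
  apply ae_restrict_of_ae
  filter_upwards [dl_inv h hg] with q hq
  exact hq.symm


/-! ### Geometry of a strong translation -/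

theorem geo_x {t c : ℝ} (ht : t ^ 2 < 1) (ht0 : 0 ≤ t) (hc : 0 < c) (htc : 1 - t ≤ c / 4)
    {ξ η : ℂ} (hξ : ‖ξ‖ = 1) (hη : ‖η‖ = 1) (hd : c ≤ ‖ξ - η‖) (hs : ‖ξ + 1‖ ≤ 1 - t) :
    c / 4 ≤ ‖(Mob.tr t ht).f ξ - (Mob.tr t ht).f η‖ ∧
      ‖(Mob.tr t ht).f η - 1‖ ≤ 4 / c * (1 - t) := by
  have ht1 : t < 1 := by nlinarith
  have h1 : ‖1 + t * ξ‖ ≤ 2 * (1 - t) := by
    have e : 1 + t * ξ = ((1 - t : ℝ) : ℂ) + (t : ℂ) * (ξ + 1) := by push_cast; ring
    rw [e]
    refine (norm_add_le _ _).trans ?_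
    rw [norm_mul, Complex.norm_real, Complex.norm_real, Real.norm_eq_abs, Real.norm_eq_abs,
      abs_of_nonneg (by linarith), abs_of_nonneg ht0]
    nlinarith [norm_nonneg (ξ + 1)]
  have h2 : ‖1 + t * η‖ ≤ 2 := by
    refine (norm_add_le _ _).trans ?_
    rw [norm_mul, Complex.norm_real, Real.norm_eq_abs, abs_of_nonneg ht0, hη, norm_one]
    linarith
  have h3 : c / 2 ≤ ‖1 + t * η‖ := by
    have e1 : ‖ξ - η‖ ≤ ‖ξ + 1‖ + ‖η + 1‖ := by
      have : ξ - η = (ξ + 1) - (η + 1) := by ring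
      rw [this]
      exact norm_sub_le _ _
    have e2 : ‖η + 1‖ ≤ ‖1 + t * η‖ + (1 - t) := by
      have : η + 1 = (1 + t * η) + ((1 - t : ℝ) : ℂ) * η := by push_cast; ring
      rw [this]
      refine (norm_add_le _ _).trans ?_
      rw [norm_mul, Complex.norm_real, Real.norm_eq_abs, abs_of_nonneg (by linarith), hη, mul_one]
    linarith
  have hpos2 : 0 < ‖1 + t * η‖ := by linarith
  have hpos1 : 0 < ‖1 + t * ξ‖ := by
    have : 1 - t ≤ ‖1 + t * ξ‖ := by
      have h := norm_sub_norm_le (1 : ℂ) (-(t * ξ))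
      rw [sub_neg_eq_add, norm_neg, norm_mul, Complex.norm_real, Real.norm_eq_abs,
        abs_of_nonneg ht0, hξ, norm_one, mul_one] at h
      exact h
    linarith
  constructor
  · have e := (Mob.tr t ht).norm_sub_sq hξ.le hη.le
    rw [Mob.tr_der, Mob.tr_der] at e
    have e2 : (c / 4) ^ 2 ≤ ‖(Mob.tr t ht).f ξ - (Mob.tr t ht).f η‖ ^ 2 := by
      rw [e]
      have e3 : (1 - t ^ 2) / (2 * (1 - t)) ^ 2 ≤ (1 - t ^ 2) / ‖1 + t * ξ‖ ^ 2 := by
        apply div_le_div_of_nonneg_left (by nlinarith) (by positivity)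
        exact pow_le_pow_left₀ hpos1.le h1 2
      have e4 : (1 - t ^ 2) / 2 ^ 2 ≤ (1 - t ^ 2) / ‖1 + t * η‖ ^ 2 := by
        apply div_le_div_of_nonneg_left (by nlinarith) (by positivity)
        exact pow_le_pow_left₀ hpos2.le h2 2
      have e5 : c ^ 2 ≤ ‖ξ - η‖ ^ 2 := pow_le_pow_left₀ hc.le hd 2
      have e6 : 0 ≤ 1 - t ^ 2 := by linarith
      calc (c / 4) ^ 2 ≤ c ^ 2 * ((1 - t ^ 2) / (2 * (1 - t)) ^ 2) * ((1 - t ^ 2) / 2 ^ 2) := by
            have : (1 - t) ≠ 0 := by linarith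
            have e7 : c ^ 2 * ((1 - t ^ 2) / (2 * (1 - t)) ^ 2) * ((1 - t ^ 2) / 2 ^ 2) =
                (c / 4) ^ 2 * (1 + t) ^ 2 := by
              field_simp
              ring
            rw [e7]
            have : 1 ≤ (1 + t) ^ 2 := by nlinarith
            nlinarith [sq_nonneg (c / 4)]
        _ ≤ ‖ξ - η‖ ^ 2 * ((1 - t ^ 2) / ‖1 + t * ξ‖ ^ 2) * ((1 - t ^ 2) / ‖1 + t * η‖ ^ 2) := by
            gcongr
    exact le_of_sq_le_sq e2 (norm_nonneg _)
  · rw [Mob.tr_f t ht hη.le]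
    have hne : 1 + t * η ≠ 0 := norm_pos_iff.1 hpos2
    have e : (η + t) / (1 + t * η) - 1 = ((1 - t : ℝ) : ℂ) * (η - 1) / (1 + t * η) := by
      rw [div_sub_one hne]
      congr 1
      push_cast
      ring
    rw [e, norm_div, norm_mul, Complex.norm_real, Real.norm_eq_abs,
      abs_of_nonneg (by linarith : (0 : ℝ) ≤ 1 - t)]
    have e2 : ‖η - 1‖ ≤ 2 := by
      refine (norm_sub_le _ _).trans ?_
      rw [hη, norm_one]
      norm_num
    rw [div_le_iff₀ hpos2]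
    have e3 : (1 - t) * ‖η - 1‖ ≤ (1 - t) * 2 :=
      mul_le_mul_of_nonneg_left e2 (by linarith)
    have e4 : 4 / c * (1 - t) * (c / 2) ≤ 4 / c * (1 - t) * ‖1 + t * η‖ :=
      mul_le_mul_of_nonneg_left h3 (mul_nonneg (by positivity) (by linarith))
    have e5 : 4 / c * (1 - t) * (c / 2) = (1 - t) * 2 := by
      field_simp
      ring
    linarith

theorem geo_p {t r ρ : ℝ} (ht : t ^ 2 < 1) (hρ : ρ < 1)
    (htr : (1 - t ^ 2) < (1 - (max r 0) ^ 2) * (1 - ρ) ^ 2) {p : ℂ} (hp : ‖p‖ < 1)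
    (h : ‖(Mob.tr t ht).inv.f p‖ ≤ ρ) : r < ‖p‖ := by
  set z := (Mob.tr t ht).inv.f p with hz
  have h1 : (Mob.tr t ht).f z = p := (Mob.tr t ht).f_inv hp.le
  have hz1 : ‖z‖ ≤ 1 := by linarith
  have h2 := (Mob.tr t ht).one_sub_norm_sq hz1
  rw [h1, Mob.tr_der] at h2
  have h3 : 1 - ρ ≤ ‖1 + t * z‖ := by
    have h := norm_sub_norm_le (1 : ℂ) (-(t * z))
    rw [sub_neg_eq_add, norm_neg, norm_mul, Complex.norm_real, Real.norm_eq_abs, norm_one] at h
    have : |t| ≤ 1 := by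
      rw [← abs_one, ← sq_le_sq]
      linarith
    nlinarith [norm_nonneg z, abs_nonneg t]
  have h4 : 1 - ‖p‖ ^ 2 ≤ (1 - t ^ 2) / (1 - ρ) ^ 2 := by
    rw [h2]
    have e1 : (1 - t ^ 2) / ‖1 + t * z‖ ^ 2 ≤ (1 - t ^ 2) / (1 - ρ) ^ 2 := by
      apply div_le_div_of_nonneg_left (by linarith) (by
        have : 0 < 1 - ρ := by linarith
        positivity)
      exact pow_le_pow_left₀ (by linarith) h3 2
    have e2 : 0 ≤ (1 - t ^ 2) / ‖1 + t * z‖ ^ 2 := div_nonneg (by linarith) (sq_nonneg _)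
    nlinarith [sq_nonneg ‖z‖]
  have h5 : (1 - t ^ 2) / (1 - ρ) ^ 2 < 1 - (max r 0) ^ 2 := by
    rw [div_lt_iff₀ (by
      have : 0 < 1 - ρ := by linarith
      positivity)]
    exact htr
  have h6 : (max r 0) ^ 2 < ‖p‖ ^ 2 := by linarith
  have h7 : max r 0 < ‖p‖ := lt_of_pow_lt_pow_left₀ 2 (norm_nonneg _) h6
  exact (le_max_left _ _).trans_lt h7

theorem cut_ins {r : ℝ} {p : ℂ} (hp : r < ‖p‖) (S : Cfg) : cut r (ins p S) = cut r S := by
  apply Subtype.ext
  ext z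
  constructor
  · rintro ⟨h1 | ⟨rfl, _⟩, h2⟩
    · exact ⟨h1, h2⟩
    · exact absurd (mem_closedBall_zero_iff.1 h2) (not_le.2 hp)
  · rintro ⟨h1, h2⟩
    exact ⟨Or.inl h1, h2⟩

/-! ### Mecke and Cauchy-Schwarz -/

theorem cs {α : Type*} [MeasurableSpace α] (μ : Measure α) {f g : α → ℝ≥0∞}
    (hf : AEMeasurable f μ) (hg : AEMeasurable g μ) :
    ∫⁻ a, f a * g a ∂μ ≤ (∫⁻ a, f a ^ 2 ∂μ) ^ (1 / 2 : ℝ) * (∫⁻ a, g a ^ 2 ∂μ) ^ (1 / 2 : ℝ) := by
  have h := ENNReal.lintegral_mul_le_Lp_mul_Lq μ Real.HolderConjugate.two_two hf hg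
  simp only [Pi.mul_apply, ENNReal.rpow_two] at h
  exact h

/-- the constant -/
noncomputable def CM (lam : ℝ) (a : ℝ≥0∞) : ℝ≥0∞ :=
  (ENNReal.ofReal lam)⁻¹ * (ENNReal.ofReal lam * a + (ENNReal.ofReal lam * a) ^ 2) ^ (1 / 2 : ℝ) + a

theorem CM_ne_top {lam : ℝ} (hl : 0 < lam) {a : ℝ≥0∞} (ha : a ≠ ∞) : CM lam a ≠ ∞ := by
  unfold CM
  have h1 : ENNReal.ofReal lam * a ≠ ∞ := ENNReal.mul_ne_top ENNReal.ofReal_ne_top ha
  refine ENNReal.add_ne_top.2 ⟨ENNReal.mul_ne_top ?_ ?_, ha⟩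
  · exact ENNReal.inv_ne_top.2 (ENNReal.ofReal_pos.2 hl).ne'
  · exact ENNReal.rpow_ne_top_of_nonneg (by norm_num)
      (ENNReal.add_ne_top.2 ⟨h1, ENNReal.pow_ne_top h1⟩)

theorem mecke_bound {μ : Measure Cfg} {lam : ℝ} (h : IsPoissonLaw μ lam) {B : Set ℂ}
    (hB : MeasurableSet B) (hfin : hypArea B ≠ ∞) {D : Cfg → ℝ≥0∞} (hD : Measurable D)
    (hD1 : ∀ S, D S ≤ 1) :
    ∫⁻ p in B, ∫⁻ S, D (ins p S) ∂μ ∂hypArea ≤ (ENNReal.ofReal lam)⁻¹ *
      (ENNReal.ofReal lam * hypArea B + (ENNReal.ofReal lam * hypArea B) ^ 2) ^ (1 / 2 : ℝ) *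
      (∫⁻ S, D S ∂μ) ^ (1 / 2 : ℝ) := by
  have hm : Measurable fun q : ℂ × Cfg => B.indicator (fun _ => (1 : ℝ≥0∞)) q.1 * D q.2 := by
    exact ((measurable_const.indicator hB).comp measurable_fst).mul (hD.comp measurable_snd)
  have h1 := h.mecke hm
  simp only at h1
  have h2 : ∀ S, ∫⁻ x, B.indicator (fun _ => (1 : ℝ≥0∞)) x * D S ∂(cnt S) = cnt S B * D S := by
    intro S
    rw [lintegral_mul_const _ (measurable_const.indicator hB), lintegral_indicator hB]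
    simp
  have h3 : ∫⁻ x, ∫⁻ S, B.indicator (fun _ => (1 : ℝ≥0∞)) x * D (ins x S) ∂μ ∂hypArea =
      ∫⁻ p in B, ∫⁻ S, D (ins p S) ∂μ ∂hypArea := by
    rw [← lintegral_indicator hB]
    apply lintegral_congr
    intro x
    by_cases hx : x ∈ B
    · simp [hx]
    · simp [hx]
  rw [h3] at h1
  simp only [h2] at h1
  have hl : ENNReal.ofReal lam ≠ 0 := (ENNReal.ofReal_pos.2 h.pos).ne'
  have h4 : ∫⁻ p in B, ∫⁻ S, D (ins p S) ∂μ ∂hypArea =
      (ENNReal.ofReal lam)⁻¹ * ∫⁻ S, cnt S B * D S ∂μ := by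
    rw [h1, ← mul_assoc, ENNReal.inv_mul_cancel hl ENNReal.ofReal_ne_top, one_mul]
  rw [h4, mul_assoc]
  gcongr
  have hc : Measurable fun S => cnt S B := Kernel.measurable_coe cnt hB
  refine (cs μ hc.aemeasurable hD.aemeasurable).trans ?_
  rw [h.second_moment hB hfin]
  gcongr with S
  calc D S ^ 2 = D S * D S := sq _
    _ ≤ 1 * D S := by gcongr; exact hD1 S
    _ = D S := one_mul _

/-- average change of `F` when the point is inserted in a far away set -/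
theorem far_bound {μ : Measure Cfg} {lam : ℝ} (h : IsPoissonLaw μ lam) {B : Set ℂ}
    (hB : MeasurableSet B) (hfin : hypArea B ≠ ∞) {r : ℝ} {F' : Cfg × (ℂ × ℂ) → ℝ}
    (hF' : Measurable F') (h0 : ∀ q, 0 ≤ F' q) (h1 : ∀ q, F' q ≤ 1)
    (hcut : ∀ S S' x, cut r S = cut r S' → F' (S, x) = F' (S', x))
    (hr : ∀ p ∈ B, ‖p‖ < 1 → r < ‖p‖) (x : ℂ × ℂ) :
    ∫⁻ p in B, dl μ (p, x) ∂hypArea ≤ CM lam (hypArea B) *
      (∫⁻ S, ENNReal.ofReal |F (S, x) - F' (S, x)| ∂μ) ^ (1 / 2 : ℝ) := by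
  have := h.isProb
  set D : Cfg → ℝ≥0∞ := fun S => ENNReal.ofReal |F (S, x) - F' (S, x)| with hDdef
  have hDm : Measurable D :=
    ((meas_F.comp measurable_prodMk_right).sub (hF'.comp measurable_prodMk_right)).abs.ennreal_ofReal
  have hD1 : ∀ S, D S ≤ 1 := by
    intro S
    rw [hDdef]
    simp only
    rw [← ENNReal.ofReal_one]
    apply ENNReal.ofReal_le_ofReal
    rw [abs_le]
    constructor <;> linarith [F_nonneg (S, x), F_le_one (S, x), h0 (S, x), h1 (S, x)]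
  have hI : ∫⁻ S, D S ∂μ ≤ 1 := by
    calc ∫⁻ S, D S ∂μ ≤ ∫⁻ _, 1 ∂μ := lintegral_mono hD1
      _ = 1 := by simp
  have hI2 : ∫⁻ S, D S ∂μ ≤ (∫⁻ S, D S ∂μ) ^ (1 / 2 : ℝ) := by
    conv_lhs => rw [← ENNReal.rpow_one (∫⁻ S, D S ∂μ)]
    exact ENNReal.rpow_le_rpow_of_exponent_ge hI (by norm_num)
  have hm : Measurable fun p => ∫⁻ S, D (ins p S) ∂μ := by
    have : Measurable fun q : ℂ × Cfg => D (ins q.1 q.2) := hDm.comp measurable_ins
    exact this.lintegral_prod_right'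
  calc ∫⁻ p in B, dl μ (p, x) ∂hypArea
      ≤ ∫⁻ p in B, (∫⁻ S, D (ins p S) ∂μ) + ∫⁻ S, D S ∂μ ∂hypArea := by
        apply lintegral_mono_ae
        filter_upwards [ae_restrict_mem hB, ae_restrict_of_ae ae_disc] with p hp hp1
        have hrp := hr p hp (by simpa using hp1)
        have hm2 : Measurable fun S => D (ins p S) :=
          hDm.comp (measurable_ins.comp measurable_prodMk_left)
        rw [← lintegral_add_left hm2]
        unfold dl Dl
        apply lintegral_mono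
        intro S
        simp only [hDdef]
        rw [← ENNReal.ofReal_add (abs_nonneg _) (abs_nonneg _)]
        apply ENNReal.ofReal_le_ofReal
        have e : F' (ins p S, x) = F' (S, x) := hcut _ _ _ (cut_ins hrp S)
        have e2 : F (ins p S, x) - F (S, x) =
          (F (ins p S, x) - F' (ins p S, x)) - (F (S, x) - F' (S, x)) := by rw [e]; ring
        rw [e2]
        exact abs_sub _ _
    _ = (∫⁻ p in B, ∫⁻ S, D (ins p S) ∂μ ∂hypArea) + (∫⁻ S, D S ∂μ) * hypArea B := by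
        rw [lintegral_add_left hm, setLIntegral_const]
    _ ≤ _ := by
        unfold CM
        rw [add_mul]
        refine add_le_add (mecke_bound h hB hfin hDm hD1) ?_
        rw [mul_comm]
        gcongr


/-! ### The two estimates -/

/-- pairs of boundary points at distance at least `c` -/
def Pc (c : ℝ) : Set (ℂ × ℂ) := {x | ‖x.1‖ = 1 ∧ ‖x.2‖ = 1 ∧ c ≤ ‖x.1 - x.2‖}

/-- the pairs which are seen after the translation -/
def Ec (c t : ℝ) : Set (ℂ × ℂ) := {x | x ∈ Pc (c / 4) ∧ ‖x.2 - 1‖ ≤ 4 / c * (1 - t)}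

/-- the translated ball -/
def Bt (t : ℝ) (ht : t ^ 2 < 1) (ρ : ℝ) : Set ℂ := {p | ‖(Mob.tr t ht).inv.f p‖ ≤ ρ}

theorem meas_Pc (c : ℝ) : MeasurableSet (Pc c) := by
  have e1 : Measurable fun x : ℂ × ℂ => ‖x.1‖ := by fun_prop
  have e2 : Measurable fun x : ℂ × ℂ => ‖x.2‖ := by fun_prop
  have e3 : Measurable fun x : ℂ × ℂ => ‖x.1 - x.2‖ := by fun_prop
  exact (measurableSet_eq_fun e1 measurable_const).inter
    ((measurableSet_eq_fun e2 measurable_const).inter (measurableSet_le measurable_const e3))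

theorem meas_Ec (c t : ℝ) : MeasurableSet (Ec c t) := by
  have e1 : Measurable fun x : ℂ × ℂ => ‖x.2 - 1‖ := by fun_prop
  exact (meas_Pc _).inter (measurableSet_le e1 measurable_const)

theorem meas_Bt (t : ℝ) (ht : t ^ 2 < 1) (ρ : ℝ) : MeasurableSet (Bt t ht ρ) :=
  measurableSet_le (Mob.measurable_f _).norm measurable_const

theorem norm_rot (θ : ℝ) (z : ℂ) : ‖(Mob.rot θ).f z‖ = ‖z‖ := by
  rw [Mob.rot_f, norm_mul, Complex.norm_exp_ofReal_mul_I, one_mul]

theorem sfin_Xi (μ : Measure Cfg) : SFinite (Xi μ) := by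
  unfold Xi
  infer_instance

attribute [local instance] sfin_Xi

theorem lower {μ : Measure Cfg} {lam : ℝ} (h : IsPoissonLaw μ lam) {t c ρ : ℝ} (ht : t ^ 2 < 1)
    (ht0 : 0 ≤ t) (hc : 0 < c) (htc : 1 - t ≤ c / 4) (hρ : ρ < 1) :
    ENNReal.ofReal (2 * (1 - t)) * Xi μ (Metric.closedBall 0 ρ ×ˢ Pc c) ≤
      ENNReal.ofReal (2 * π) * Xi μ (Bt t ht ρ ×ˢ Ec c t) := by
  set ν := volume.restrict (Ioc (-π) π) with hν
  set W : Set (ℝ × (ℂ × (ℂ × ℂ))) := {w | w.2 ∈ Metric.closedBall (0 : ℂ) ρ ×ˢ Pc c ∧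
    ‖Complex.exp (w.1 * Complex.I) * w.2.2.1 + 1‖ ≤ 1 - t} with hW
  have hBP : MeasurableSet (Metric.closedBall (0 : ℂ) ρ ×ˢ Pc c) :=
    Metric.isClosed_closedBall.measurableSet.prod (meas_Pc c)
  have hWm : MeasurableSet W := by
    have e1 : Measurable fun w : ℝ × (ℂ × (ℂ × ℂ)) =>
      ‖Complex.exp (w.1 * Complex.I) * w.2.2.1 + 1‖ := by fun_prop
    exact (measurable_snd hBP).inter (measurableSet_le e1 measurable_const)
  have hE : MeasurableSet (Bt t ht ρ ×ˢ Ec c t) := (meas_Bt t ht ρ).prod (meas_Ec c t)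
  have h1 : (ν.prod (Xi μ)) W ≤ ENNReal.ofReal (2 * π) * Xi μ (Bt t ht ρ ×ˢ Ec c t) := by
    rw [Measure.prod_apply hWm]
    have h2 : ∀ θ : ℝ, Xi μ (Prod.mk θ ⁻¹' W) ≤ Xi μ (Bt t ht ρ ×ˢ Ec c t) := by
      intro θ
      rw [← Xi_inv h (isInv_tr t ht) hE]
      have hE2 : MeasurableSet ((fun q : ℂ × (ℂ × ℂ) =>
          ((Mob.tr t ht).f q.1, pm (Mob.tr t ht) q.2)) ⁻¹' (Bt t ht ρ ×ˢ Ec c t)) := by
        have e1 := (Mob.tr t ht).measurable_f
        have e2 := meas_pm (Mob.tr t ht)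
        have e3 : Measurable (fun q : ℂ × (ℂ × ℂ) =>
          ((Mob.tr t ht).f q.1, pm (Mob.tr t ht) q.2)) := by fun_prop
        exact e3 hE
      rw [← Xi_inv h (isInv_rot θ) hE2]
      apply measure_mono
      rintro ⟨p, x⟩ ⟨⟨hp, hx1, hx2, hx3⟩, hx4⟩
      simp only at hp hx1 hx2 hx3 hx4
      have hp' : ‖p‖ ≤ ρ := by simpa using hp
      have hr1 : ‖(Mob.rot θ).f x.1‖ = 1 := by rw [norm_rot, hx1]
      have hr2 : ‖(Mob.rot θ).f x.2‖ = 1 := by rw [norm_rot, hx2]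
      have hr3 : c ≤ ‖(Mob.rot θ).f x.1 - (Mob.rot θ).f x.2‖ := by
        rw [Mob.rot_f, Mob.rot_f, ← mul_sub, norm_mul, Complex.norm_exp_ofReal_mul_I, one_mul]
        exact hx3
      have hr4 : ‖(Mob.rot θ).f x.1 + 1‖ ≤ 1 - t := by
        rw [Mob.rot_f]
        exact hx4
      obtain ⟨g1, g2⟩ := geo_x ht ht0 hc htc hr1 hr2 hr3 hr4
      refine ⟨?_, ⟨(Mob.tr t ht).norm_eq_one hr1, (Mob.tr t ht).norm_eq_one hr2, g1⟩, g2⟩
      show ‖(Mob.tr t ht).inv.f ((Mob.tr t ht).f ((Mob.rot θ).f p))‖ ≤ ρ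
      rw [Mob.inv_f _ (by rw [norm_rot]; linarith), norm_rot]
      exact hp'
    calc ∫⁻ θ, Xi μ (Prod.mk θ ⁻¹' W) ∂ν ≤ ∫⁻ _, Xi μ (Bt t ht ρ ×ˢ Ec c t) ∂ν :=
          lintegral_mono h2
      _ = ENNReal.ofReal (2 * π) * Xi μ (Bt t ht ρ ×ˢ Ec c t) := by
          rw [lintegral_const, hν, Measure.restrict_apply_univ, Real.volume_Ioc, mul_comm]
          congr 2
          ring
  refine le_trans ?_ h1
  rw [Measure.prod_apply_symm hWm]
  have h3 : ∀ q ∈ Metric.closedBall (0 : ℂ) ρ ×ˢ Pc c,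
      ENNReal.ofReal (2 * (1 - t)) ≤ ν ((fun θ => (θ, q)) ⁻¹' W) := by
    rintro ⟨p, x⟩ hq
    have e : ((fun θ => (θ, (p, x))) ⁻¹' W) =
        {θ : ℝ | ‖Complex.exp (θ * Complex.I) * (-x.1) - 1‖ ≤ 1 - t} := by
      ext θ
      rw [mem_preimage, hW, mem_ofPred_eq, mem_ofPred_eq]
      have : Complex.exp (θ * Complex.I) * (-x.1) - 1 =
          -(Complex.exp (θ * Complex.I) * x.1 + 1) := by ring
      rw [this, norm_neg]
      exact ⟨fun hh => hh.2, fun hh => ⟨hq, hh⟩⟩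
    rw [e, arc_eq (by rw [norm_neg]; exact hq.2.1)]
    exact le_circ_arc (by linarith [Real.pi_gt_three])
  calc ENNReal.ofReal (2 * (1 - t)) * Xi μ (Metric.closedBall 0 ρ ×ˢ Pc c)
      = ∫⁻ _ in Metric.closedBall (0 : ℂ) ρ ×ˢ Pc c, ENNReal.ofReal (2 * (1 - t)) ∂(Xi μ) := by
        rw [setLIntegral_const]
    _ ≤ ∫⁻ q in Metric.closedBall (0 : ℂ) ρ ×ˢ Pc c, ν ((fun θ => (θ, q)) ⁻¹' W) ∂(Xi μ) :=
        setLIntegral_mono' hBP h3
    _ ≤ _ := setLIntegral_le_lintegral _ _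

theorem upper {μ : Measure Cfg} {lam : ℝ} (h : IsPoissonLaw μ lam) {t c ρ : ℝ} (ht : t ^ 2 < 1)
    {r : ℝ} {η : ℂ × ℂ → ℝ≥0∞} (hη : Measurable η) {K : ℝ≥0∞}
    (hfar : ∀ B : Set ℂ, MeasurableSet B → hypArea B = hypArea (Metric.closedBall 0 ρ) →
      (∀ p ∈ B, ‖p‖ < 1 → r < ‖p‖) → ∀ x, ∫⁻ p in B, dl μ (p, x) ∂hypArea ≤ K * η x)
    (hr : ∀ p, ‖p‖ < 1 → ‖(Mob.tr t ht).inv.f p‖ ≤ ρ → r < ‖p‖) :
    ENNReal.ofReal (2 * π) * Xi μ (Bt t ht ρ ×ˢ Ec c t) ≤
      ENNReal.ofReal (π * (4 / c * (1 - t))) * (K * ∫⁻ x in Pc (c / 4), η x ∂liou) := by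
  have := h.isProb
  set ν := volume.restrict (Ioc (-π) π) with hν
  have hE : MeasurableSet (Bt t ht ρ ×ˢ Ec c t) := (meas_Bt t ht ρ).prod (meas_Ec c t)
  set W : Set (ℝ × (ℂ × ℂ)) := {w | w.2 ∈ Pc (c / 4) ∧
    ‖Complex.exp (w.1 * Complex.I) * w.2.2 - 1‖ ≤ 4 / c * (1 - t)} with hW
  have hWm : MeasurableSet W := by
    have e1 : Measurable fun w : ℝ × (ℂ × ℂ) =>
      ‖Complex.exp (w.1 * Complex.I) * w.2.2 - 1‖ := by fun_prop
    exact (measurable_snd (meas_Pc _)).inter (measurableSet_le e1 measurable_const)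
  have h1 : ∀ θ : ℝ, Xi μ (Bt t ht ρ ×ˢ Ec c t) ≤
      ∫⁻ x, W.indicator (fun w => K * η w.2) (θ, x) ∂liou := by
    intro θ
    rw [← Xi_inv h (isInv_rot θ) hE]
    have e0 : ((fun q : ℂ × (ℂ × ℂ) => ((Mob.rot θ).f q.1, pm (Mob.rot θ) q.2)) ⁻¹'
        (Bt t ht ρ ×ˢ Ec c t)) =
        ((Mob.rot θ).f ⁻¹' (Bt t ht ρ)) ×ˢ (pm (Mob.rot θ) ⁻¹' (Ec c t)) := rfl
    have m1 : MeasurableSet ((Mob.rot θ).f ⁻¹' (Bt t ht ρ)) :=
      (Mob.rot θ).measurable_f (meas_Bt t ht ρ)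
    have m2 : MeasurableSet (pm (Mob.rot θ) ⁻¹' (Ec c t)) := meas_pm _ (meas_Ec c t)
    rw [e0]
    unfold Xi
    rw [withDensity_apply _ (m1.prod m2), setLIntegral_prod_symm _ (meas_dl μ).aemeasurable,
      ← lintegral_indicator m2]
    apply lintegral_mono
    intro x
    by_cases hx : x ∈ pm (Mob.rot θ) ⁻¹' (Ec c t)
    · have hxW : (θ, x) ∈ W := by
        obtain ⟨⟨g1, g2, g3⟩, g4⟩ := hx
        simp only [pm] at g1 g2 g3 g4
        rw [norm_rot] at g1 g2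
        rw [Mob.rot_f, Mob.rot_f, ← mul_sub, norm_mul, Complex.norm_exp_ofReal_mul_I,
          one_mul] at g3
        rw [Mob.rot_f] at g4
        exact ⟨⟨g1, g2, g3⟩, g4⟩
      rw [indicator_of_mem hx]
      beta_reduce
      rw [indicator_of_mem hxW]
      apply hfar _ m1
      · rw [((Mob.rot θ).measurePreserving_hypArea).measure_preimage
          (meas_Bt t ht ρ).nullMeasurableSet]
        have e1 : Bt t ht ρ = (Mob.tr t ht).inv.f ⁻¹' (Metric.closedBall 0 ρ) := by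
          ext p
          simp [Bt]
        rw [e1, ((Mob.tr t ht).inv.measurePreserving_hypArea).measure_preimage
          Metric.isClosed_closedBall.measurableSet.nullMeasurableSet]
      · intro p hp hp1
        rw [← norm_rot θ]
        exact hr _ (by rw [norm_rot]; exact hp1) hp
    · rw [indicator_of_notMem hx]
      exact bot_le
  calc ENNReal.ofReal (2 * π) * Xi μ (Bt t ht ρ ×ˢ Ec c t)
      = ∫⁻ _, Xi μ (Bt t ht ρ ×ˢ Ec c t) ∂ν := by
        rw [lintegral_const, hν, Measure.restrict_apply_univ, Real.volume_Ioc, mul_comm]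
        congr 2
        ring
    _ ≤ ∫⁻ θ, ∫⁻ x, W.indicator (fun w => K * η w.2) (θ, x) ∂liou ∂ν := lintegral_mono h1
    _ = ∫⁻ x, ∫⁻ θ, W.indicator (fun w => K * η w.2) (θ, x) ∂ν ∂liou := by
        apply lintegral_lintegral_swap
        apply Measurable.aemeasurable
        exact Measurable.indicator (by fun_prop) hWm
    _ ≤ ∫⁻ x, (Pc (c / 4)).indicator
          (fun x => K * η x * ENNReal.ofReal (π * (4 / c * (1 - t)))) x ∂liou := by
        apply lintegral_mono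
        intro x
        by_cases hx : x ∈ Pc (c / 4)
        · rw [indicator_of_mem hx]
          have e : (fun θ => W.indicator (fun w => K * η w.2) (θ, x)) =
              {θ : ℝ | ‖Complex.exp (θ * Complex.I) * x.2 - 1‖ ≤ 4 / c * (1 - t)}.indicator
                (fun _ => K * η x) := by
            ext θ
            by_cases h5 : θ ∈ {θ : ℝ | ‖Complex.exp (θ * Complex.I) * x.2 - 1‖ ≤ 4 / c * (1 - t)}
            · rw [indicator_of_mem (show (θ, x) ∈ W from ⟨hx, h5⟩), indicator_of_mem h5]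
            · rw [indicator_of_notMem (show (θ, x) ∉ W from fun hh => h5 hh.2),
                indicator_of_notMem h5]
          show ∫⁻ θ, W.indicator (fun w => K * η w.2) (θ, x) ∂ν ≤ _
          rw [e, lintegral_indicator (measurableSet_le (by fun_prop) measurable_const),
            setLIntegral_const, hν, arc_eq hx.2.1]
          gcongr
          exact circ_arc_le _
        · rw [indicator_of_notMem hx]
          have e : (fun θ => W.indicator (fun w => K * η w.2) (θ, x)) = fun _ => 0 := by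
            ext θ
            exact indicator_of_notMem (fun hh => hx hh.1) _
          show ∫⁻ θ, W.indicator (fun w => K * η w.2) (θ, x) ∂ν ≤ _
          rw [e]
          simp
    _ = _ := by
        rw [lintegral_indicator (meas_Pc _), lintegral_mul_const _ (by fun_prop),
          lintegral_const_mul _ hη, mul_comm]


/-! ### Conclusion -/

theorem Xi_zero {μ : Measure Cfg} {lam : ℝ} (h : IsPoissonLaw μ lam) {c ρ : ℝ} (hc : 0 < c)
    (hρ : ρ < 1) (hfin : hypArea (Metric.closedBall 0 ρ) ≠ ∞) :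
    Xi μ (Metric.closedBall 0 ρ ×ˢ Pc c) = 0 := by
  have := h.isProb
  have hL : liou (Pc (c / 4)) ≠ ∞ := by
    refine ne_top_of_le_ne_top (liou_ne_top (c / 4) (by linarith)) (measure_mono ?_)
    intro x hx
    exact hx.2.2
  have : IsFiniteMeasure (liou.restrict (Pc (c / 4))) := ⟨by
    rw [Measure.restrict_apply_univ]
    exact lt_of_le_of_ne le_top hL⟩
  set A : ℝ≥0∞ := CM lam (hypArea (Metric.closedBall 0 ρ)) with hA
  have hAtop : A ≠ ∞ := CM_ne_top h.pos hfin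
  set M : ℝ≥0∞ := ENNReal.ofReal (2 * π / c) * (A * (liou (Pc (c / 4))) ^ (1 / 2 : ℝ)) with hM
  have hMtop : M ≠ ∞ := ENNReal.mul_ne_top ENNReal.ofReal_ne_top
    (ENNReal.mul_ne_top hAtop (ENNReal.rpow_ne_top_of_nonneg (by norm_num) hL))
  have key : ∀ ε : ℝ, 0 < ε → Xi μ (Metric.closedBall 0 ρ ×ˢ Pc c) ≤
      M * (ENNReal.ofReal ε) ^ (1 / 2 : ℝ) := by
    intro ε hε
    obtain ⟨r, F', hr1, hF', h0, h1, hcut, hint⟩ :=
      local_approx μ (liou.restrict (Pc (c / 4))) meas_F F_nonneg F_le_one hε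
    set η : ℂ × ℂ → ℝ≥0∞ := fun x => ∫⁻ S, ENNReal.ofReal |F (S, x) - F' (S, x)| ∂μ with hη
    have hDm : Measurable fun q : Cfg × (ℂ × ℂ) => ENNReal.ofReal |F q - F' q| :=
      (meas_F.sub hF').abs.ennreal_ofReal
    have hηm : Measurable η := hDm.lintegral_prod_left'
    -- choice of the translation
    obtain ⟨t, ht0, ht1, htc, htr⟩ : ∃ t : ℝ, 0 ≤ t ∧ t < 1 ∧ 1 - t ≤ c / 4 ∧
        (1 - t ^ 2) < (1 - (max r 0) ^ 2) * (1 - ρ) ^ 2 := by
      have hk : 0 < (1 - (max r 0) ^ 2) * (1 - ρ) ^ 2 := by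
        have e1 : max r 0 < 1 := max_lt hr1 one_pos
        have e2 : 0 ≤ max r 0 := le_max_right _ _
        have e3 : 0 < 1 - (max r 0) ^ 2 := by nlinarith
        have e4 : 0 < 1 - ρ := by linarith
        positivity
      set k := (1 - (max r 0) ^ 2) * (1 - ρ) ^ 2 with hkdef
      refine ⟨1 - min (min (c / 4) (k / 4)) 1, ?_, ?_, ?_, ?_⟩
      · have := min_le_right (min (c / 4) (k / 4)) 1
        linarith
      · have : 0 < min (min (c / 4) (k / 4)) 1 := by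
          apply lt_min (lt_min (by linarith) (by linarith)) one_pos
        linarith
      · have := (min_le_left (min (c / 4) (k / 4)) 1).trans (min_le_left _ _)
        linarith
      · have e1 := (min_le_left (min (c / 4) (k / 4)) 1).trans (min_le_right _ _)
        have e2 : 0 < min (min (c / 4) (k / 4)) 1 := by
          apply lt_min (lt_min (by linarith) (by linarith)) one_pos
        nlinarith
    have ht : t ^ 2 < 1 := by nlinarith
    have hlow := lower h ht ht0 hc htc hρ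
    have hup := upper (ρ := ρ) (r := r) (c := c) h ht (η := fun x => η x ^ (1 / 2 : ℝ))
      (hηm.pow_const _) (K := A)
      (by
        intro B hB hBa hBr x
        have := far_bound h hB (by rw [hBa]; exact hfin) hF' h0 h1 hcut hBr x
        rw [hBa] at this
        exact this)
      (fun p hp hp2 => geo_p ht hρ htr hp hp2)
    have hint2 : ∫⁻ x in Pc (c / 4), η x ^ (1 / 2 : ℝ) ∂liou ≤
        (ENNReal.ofReal ε) ^ (1 / 2 : ℝ) * (liou (Pc (c / 4))) ^ (1 / 2 : ℝ) := by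
      have e1 := cs (liou.restrict (Pc (c / 4))) (f := fun x => η x ^ (1 / 2 : ℝ))
        (g := fun _ => 1) (hηm.pow_const _).aemeasurable aemeasurable_const
      simp only [mul_one, one_pow, lintegral_const, one_mul, Measure.restrict_apply_univ] at e1
      refine e1.trans ?_
      gcongr
      calc ∫⁻ x in Pc (c / 4), (η x ^ (1 / 2 : ℝ)) ^ 2 ∂liou
          = ∫⁻ x in Pc (c / 4), η x ∂liou := by
            apply lintegral_congr
            intro x
            rw [← ENNReal.rpow_two, ← ENNReal.rpow_mul]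
            norm_num
        _ = ∫⁻ q, ENNReal.ofReal |F q - F' q| ∂(μ.prod (liou.restrict (Pc (c / 4)))) := by
            rw [lintegral_prod_symm' _ hDm]
        _ = ENNReal.ofReal (∫ q, |F q - F' q| ∂(μ.prod (liou.restrict (Pc (c / 4))))) := by
            rw [ofReal_integral_eq_lintegral_ofReal]
            · apply Integrable.of_bound (C := 1)
              · exact (meas_F.sub hF').abs.aestronglyMeasurable
              · filter_upwards with q
                rw [Real.norm_eq_abs, abs_abs, abs_le]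
                constructor <;> linarith [F_nonneg q, F_le_one q, h0 q, h1 q]
            · filter_upwards with q
              exact abs_nonneg _
        _ ≤ ENNReal.ofReal ε := ENNReal.ofReal_le_ofReal hint
    have hs : ENNReal.ofReal (1 - t) ≠ 0 := by
      rw [Ne, ENNReal.ofReal_eq_zero]
      linarith
    have e2 : ENNReal.ofReal (1 - t) * (2 * Xi μ (Metric.closedBall 0 ρ ×ˢ Pc c)) ≤
        ENNReal.ofReal (1 - t) * (ENNReal.ofReal (4 * π / c) * (A *
          ((ENNReal.ofReal ε) ^ (1 / 2 : ℝ) * (liou (Pc (c / 4))) ^ (1 / 2 : ℝ)))) := by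
      calc ENNReal.ofReal (1 - t) * (2 * Xi μ (Metric.closedBall 0 ρ ×ˢ Pc c))
          = ENNReal.ofReal (2 * (1 - t)) * Xi μ (Metric.closedBall 0 ρ ×ˢ Pc c) := by
            rw [ENNReal.ofReal_mul (by norm_num), ENNReal.ofReal_ofNat]
            ring
        _ ≤ _ := hlow.trans hup
        _ ≤ ENNReal.ofReal (π * (4 / c * (1 - t))) * (A *
          ((ENNReal.ofReal ε) ^ (1 / 2 : ℝ) * (liou (Pc (c / 4))) ^ (1 / 2 : ℝ))) := by
            gcongr
        _ = _ := by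
            rw [← mul_assoc (ENNReal.ofReal (1 - t)), ← ENNReal.ofReal_mul (by linarith)]
            congr 2
            ring
    have e3 := (ENNReal.mul_le_mul_iff_right hs ENNReal.ofReal_ne_top).1 e2
    have e4 : (2 : ℝ≥0∞) * Xi μ (Metric.closedBall 0 ρ ×ˢ Pc c) ≤
        2 * (M * (ENNReal.ofReal ε) ^ (1 / 2 : ℝ)) := by
      refine e3.trans (le_of_eq ?_)
      rw [hM, show 4 * π / c = 2 * (2 * π / c) by ring, ENNReal.ofReal_mul (by norm_num),
        ENNReal.ofReal_ofNat]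
      ring
    exact (ENNReal.mul_le_mul_iff_right two_ne_zero ENNReal.ofNat_ne_top).1 e4
  have hlim : Tendsto (fun ε : ℝ => M * (ENNReal.ofReal ε) ^ (1 / 2 : ℝ)) (𝓝[>] 0) (𝓝 0) := by
    have e1 : Tendsto (fun ε : ℝ => (ENNReal.ofReal ε) ^ (1 / 2 : ℝ)) (𝓝[>] 0)
        (𝓝 ((ENNReal.ofReal 0) ^ (1 / 2 : ℝ))) := by
      apply Tendsto.mono_left _ nhdsWithin_le_nhds
      exact ((ENNReal.continuous_rpow_const).comp ENNReal.continuous_ofReal).tendsto 0
    have e2 := ENNReal.Tendsto.const_mul e1 (Or.inr hMtop)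
    simpa using e2
  have : Xi μ (Metric.closedBall 0 ρ ×ˢ Pc c) ≤ 0 :=
    ge_of_tendsto hlim (eventually_mem_nhdsWithin.mono key)
  exact le_antisymm this bot_le


theorem hyp_ball {ρ : ℝ} (hρ : ρ < 1) : hypArea (Metric.closedBall 0 ρ) ≠ ∞ := by
  have hm : MeasurableSet (Metric.closedBall (0 : ℂ) ρ) := Metric.isClosed_closedBall.measurableSet
  unfold hypArea
  rw [withDensity_apply _ hm]
  refine ne_top_of_le_ne_top (b := ENNReal.ofReal (4 / (1 - ρ ^ 2) ^ 2) *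
    (volume (Metric.closedBall (0 : ℂ) ρ))) ?_ ?_
  · exact ENNReal.mul_ne_top ENNReal.ofReal_ne_top measure_closedBall_lt_top.ne
  · calc ∫⁻ z in Metric.closedBall (0 : ℂ) ρ, ENNReal.ofReal (4 / (1 - ‖z‖ ^ 2) ^ 2)
          ∂(volume.restrict disc)
        ≤ ∫⁻ _ in Metric.closedBall (0 : ℂ) ρ, ENNReal.ofReal (4 / (1 - ρ ^ 2) ^ 2)
          ∂(volume.restrict disc) := by
          apply setLIntegral_mono' hm
          intro z hz
          have hz' : ‖z‖ ≤ ρ := mem_closedBall_zero_iff.1 hz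
          have hz0 := norm_nonneg z
          apply ENNReal.ofReal_le_ofReal
          have e1 : 0 < 1 - ρ ^ 2 := by nlinarith
          have e2 : 1 - ρ ^ 2 ≤ 1 - ‖z‖ ^ 2 := by nlinarith
          apply div_le_div_of_nonneg_left (by norm_num) (by positivity)
          exact pow_le_pow_left₀ e1.le e2 2
      _ = ENNReal.ofReal (4 / (1 - ρ ^ 2) ^ 2) *
          ((volume.restrict disc) (Metric.closedBall (0 : ℂ) ρ)) := setLIntegral_const _ _
      _ ≤ _ := by
          gcongr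
          exact Measure.restrict_le_self

theorem dl_zero {μ : Measure Cfg} {lam : ℝ} (h : IsPoissonLaw μ lam) :
    ∀ᵐ q ∂(hypArea.prod liou), dl μ q = 0 := by
  have := h.isProb
  have h1 : ∀ n : ℕ, ∀ᵐ q ∂(hypArea.prod liou),
      q ∈ Metric.closedBall (0 : ℂ) (1 - 1 / ((n : ℝ) + 1)) ×ˢ Pc (1 / ((n : ℝ) + 1)) →
        dl μ q = 0 := by
    intro n
    have hn : (0 : ℝ) < 1 / ((n : ℝ) + 1) := by positivity
    have hz := Xi_zero h hn (ρ := 1 - 1 / ((n : ℝ) + 1)) (by linarith) (hyp_ball (by linarith))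
    have hm : MeasurableSet (Metric.closedBall (0 : ℂ) (1 - 1 / ((n : ℝ) + 1)) ×ˢ
        Pc (1 / ((n : ℝ) + 1))) := Metric.isClosed_closedBall.measurableSet.prod (meas_Pc _)
    unfold Xi at hz
    rw [withDensity_apply _ hm, lintegral_eq_zero_iff (meas_dl μ)] at hz
    rw [← ae_restrict_iff' hm]
    exact hz
  have hd : ∀ᵐ q ∂(hypArea.prod liou), q.1 ∈ disc :=
    (Measure.quasiMeasurePreserving_fst).ae ae_disc
  have hx : ∀ᵐ q ∂(hypArea.prod liou), ‖q.2.1‖ = 1 ∧ ‖q.2.2‖ = 1 :=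
    (Measure.quasiMeasurePreserving_snd).ae ae_liou
  have hne : ∀ᵐ q ∂(hypArea.prod liou), q.2.1 ≠ q.2.2 :=
    (Measure.quasiMeasurePreserving_snd).ae (liou_ac.ae_le ae_ne)
  filter_upwards [ae_all_iff.2 h1, hd, hx, hne] with q h2 h3 h4 h5
  have hq1 : ‖q.1‖ < 1 := by simpa using h3
  have hq2 : 0 < ‖q.2.1 - q.2.2‖ := norm_pos_iff.2 (sub_ne_zero.2 h5)
  obtain ⟨n, hn⟩ := exists_nat_one_div_lt (lt_min (sub_pos.2 hq1) hq2)
  have e1 := hn.trans_le (min_le_left _ _)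
  have e2 := hn.trans_le (min_le_right _ _)
  refine h2 n ⟨?_, h4.1, h4.2, e2.le⟩
  rw [mem_closedBall_zero_iff]
  linarith

theorem liou_to_circ {Q : ℂ × ℂ → Prop} (hQ : ∀ᵐ x ∂liou, Q x) :
    ∀ᵐ x ∂(circ.prod circ), Q x := by
  unfold liou at hQ
  rw [ae_withDensity_iff (by fun_prop)] at hQ
  filter_upwards [hQ, ae_ne] with x h1 h2
  apply h1
  rw [Ne, ENNReal.ofReal_eq_zero, not_le]
  have : 0 < ‖x.1 - x.2‖ := norm_pos_iff.2 (sub_ne_zero.2 h2)
  positivity

end ZO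

open ZO in
theorem jd_ins {μ : Measure Cfg} {lam : ℝ} (h : IsPoissonLaw μ lam) :
    ∀ᵐ q ∂(hypArea.prod μ), ∀ᵐ x ∂(circ.prod circ), jd (ins q.1 q.2) x = jd q.2 x := by
  have := h.isProb
  have := sfin_hyp
  have := fin_circ
  have h1 := Measure.ae_ae_of_ae_prod (dl_zero h)
  have h2 : ∀ᵐ p ∂hypArea, ∀ᵐ S ∂μ, ∀ᵐ x ∂(circ.prod circ), jd (ins p S) x = jd S x := by
    filter_upwards [h1] with p hp
    have e1 : Measurable fun q : (ℂ × ℂ) × Cfg => ((p, q.1), q.2) := by fun_prop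
    have e9 : MeasurableSet {q : (ℂ × ℂ) × Cfg | Dl ((p, q.1), q.2) = 0} :=
      measurableSet_eq_fun (meas_Dl.comp e1) measurable_const
    have h3 : ∀ᵐ x ∂liou, ∀ᵐ S ∂μ, Dl ((p, x), S) = 0 := by
      filter_upwards [hp] with x hx
      have e2 : Measurable fun S => Dl ((p, x), S) := meas_Dl.comp measurable_prodMk_left
      exact (lintegral_eq_zero_iff e2).1 hx
    replace h3 := (Measure.ae_ae_comm (p := fun x S => Dl ((p, x), S) = 0) e9).1 h3
    filter_upwards [h3] with S hS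
    filter_upwards [liou_to_circ hS, ae_ne] with x hx hne
    apply jd_eq_of_F hne
    unfold Dl at hx
    rw [ENNReal.ofReal_eq_zero] at hx
    have := abs_nonpos_iff.1 hx
    linarith
  have e1 : Measurable fun q : (ℂ × Cfg) × (ℂ × ℂ) => jd (ins q.1.1 q.1.2) q.2 :=
    measurable_jd.comp ((measurable_ins.comp measurable_fst).prodMk measurable_snd)
  have e2 : Measurable fun q : (ℂ × Cfg) × (ℂ × ℂ) => jd q.1.2 q.2 :=
    measurable_jd.comp ((measurable_snd.comp measurable_fst).prodMk measurable_snd)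
  have e3 : MeasurableSet {q : (ℂ × Cfg) × (ℂ × ℂ) | jd (ins q.1.1 q.1.2) q.2 = jd q.1.2 q.2} :=
    measurableSet_eq_fun e1 e2
  have e4 : MeasurableSet {q : ℂ × Cfg |
      ∀ᵐ x ∂(circ.prod circ), jd (ins q.1 q.2) x = jd q.2 x} := by
    have e5 := measurable_measure_prodMk_left (ν := circ.prod circ) e3.compl
    have e6 : {q : ℂ × Cfg | ∀ᵐ x ∂(circ.prod circ), jd (ins q.1 q.2) x = jd q.2 x} =
        {q | (circ.prod circ) (Prod.mk q ⁻¹' {q : (ℂ × Cfg) × (ℂ × ℂ) |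
          jd (ins q.1.1 q.1.2) q.2 = jd q.1.2 q.2}ᶜ) = 0} := rfl
    rw [e6]
    exact measurableSet_eq_fun e5 measurable_const
  exact (Measure.ae_prod_iff_ae_ae e4).2 h2

end HPV
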